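import Pool.Agent.H442.Loop2
set_option autoImplicit false

/-!
Analytic solutions `x` of `x = ξ + W(x) + w V(x)` for small holomorphic functions `V`, `W`, and
the corresponding loops on `z + 1/z = t + x R(x) G(x) / D(x)` near a simple zero of `R`.
-/

namespace Pool.Agent.H442

open Polynomial Metric Set Filter Topology MeasureTheory

open Pool.Agent.TH826.MK (circ norm_circ contDiff_circ circ_add_one)

open Pool.Agent.TH826.UH

open scoped Real NNReal ENNReal

section branch3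

variable {V W : ℂ → ℂ} {ξ : ℂ} {δ : ℝ}

theorem norm_deriv_V (hδ : 0 < δ) (hV : DifferentiableOn ℂ V (ball ξ (2 * δ)))
    (hb : ∀ x ∈ ball ξ (2 * δ), ‖V x‖ ≤ δ / 20) {a : ℂ} (ha : a ∈ ball ξ δ) :
    ‖deriv V a‖ ≤ 1 / 10 := by
  have hsub : closedBall a (δ / 2) ⊆ ball ξ (2 * δ) := by
    intro y hy
    rw [mem_ball_iff_norm]
    rw [mem_closedBall_iff_norm] at hy
    rw [mem_ball_iff_norm] at ha
    have : y - ξ = (y - a) + (a - ξ) := by ring
    rw [this]
    refine (norm_add_le _ _).trans_lt ?_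
    linarith
  have h3 : ‖deriv V a‖ ≤ (δ / 20) / (δ / 2) := by
    refine Complex.norm_deriv_le_of_forall_mem_sphere_norm_le (by positivity) ?_ ?_
    · exact (hV.mono hsub).diffContOnCl_ball subset_rfl
    · intro y hy
      exact hb y (hsub (sphere_subset_closedBall hy))
  refine h3.trans (le_of_eq ?_)
  field_simp
  norm_num

theorem exists_branch3 (hδ : 0 < δ) (hV : DifferentiableOn ℂ V (ball ξ (2 * δ)))
    (hW : DifferentiableOn ℂ W (ball ξ (2 * δ)))
    (hVb : ∀ x ∈ ball ξ (2 * δ), ‖V x‖ ≤ δ / 40) (hWb : ∀ x ∈ ball ξ (2 * δ), ‖W x‖ ≤ δ / 40)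
    (h0 : ∀ x ∈ ball ξ (2 * δ), V x ≠ 0) :
    ∃ x : ℂ → ℂ, ∀ w ∈ ball (0 : ℂ) (9 / 2), AnalyticAt ℂ x w ∧ ‖x w - ξ‖ < δ ∧
      x w = ξ + W (x w) + w * V (x w) := by
  have hVb' : ∀ x ∈ ball ξ (2 * δ), ‖V x‖ ≤ δ / 20 := fun x hx =>
    (hVb x hx).trans (by linarith)
  have hWb' : ∀ x ∈ ball ξ (2 * δ), ‖W x‖ ≤ δ / 20 := fun x hx =>
    (hWb x hx).trans (by linarith)
  have hsub' : ball ξ δ ⊆ ball ξ (2 * δ) := ball_subset_ball (by linarith)
  have hlip : ∀ w : ℂ, ‖w‖ < 9 / 2 → ∀ a ∈ ball ξ δ, ∀ b ∈ ball ξ δ,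
      ‖(W a + w * V a) - (W b + w * V b)‖ ≤ 3 / 5 * ‖a - b‖ := by
    intro w hw a ha b hb
    have h1 := lip_V hδ hV hVb' hb ha
    have h2 := lip_V hδ hW hWb' hb ha
    have e : (W a + w * V a) - (W b + w * V b) = (W a - W b) + w * (V a - V b) := by ring
    rw [e]
    refine (norm_add_le _ _).trans ?_
    rw [norm_mul]
    have h3 : ‖w‖ * ‖V a - V b‖ ≤ 9 / 2 * (1 / 10 * ‖a - b‖) :=
      mul_le_mul hw.le h1 (norm_nonneg _) (by norm_num)
    have h4 := norm_nonneg (a - b)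
    linarith
  have hex : ∀ w : ℂ, ∃ y : ℂ, w ∈ ball (0 : ℂ) (9 / 2) →
      ‖y - ξ‖ < δ ∧ y = ξ + W y + w * V y := by
    intro w
    by_cases hw : w ∈ ball (0 : ℂ) (9 / 2)
    · have hw' : ‖w‖ < 9 / 2 := mem_ball_zero_iff.1 hw
      set f : ℂ → ℂ := fun y => ξ + (W y + w * V y) with hf
      set s : Set ℂ := closedBall ξ (δ / 2) with hs
      have hss : s ⊆ ball ξ δ := closedBall_subset_ball (by linarith)
      have hmap : MapsTo f s s := by
        intro y hy
        rw [hs, mem_closedBall_iff_norm, hf]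
        simp only [add_sub_cancel_left]
        refine (norm_add_le _ _).trans ?_
        rw [norm_mul]
        have h1 := hVb y (hsub' (hss hy))
        have h2 := hWb y (hsub' (hss hy))
        have h3 : ‖w‖ * ‖V y‖ ≤ 9 / 2 * (δ / 40) :=
          mul_le_mul hw'.le h1 (norm_nonneg _) (by norm_num)
        linarith
      have hcontr : ContractingWith (3 / 5 : ℝ≥0) (hmap.restrict f s s) := by
        refine ⟨by
          rw [← NNReal.coe_lt_coe]
          norm_num, LipschitzWith.of_dist_le_mul fun a b => ?_⟩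
        rw [Subtype.dist_eq, Subtype.dist_eq, MapsTo.val_restrict_apply,
          MapsTo.val_restrict_apply, dist_eq_norm, dist_eq_norm, hf]
        have h1 := hlip w hw' _ (hss a.2) _ (hss b.2)
        simp only [add_sub_add_left_eq_sub]
        push_cast
        exact h1
      obtain ⟨y, hy, hfy, -, -⟩ := hcontr.exists_fixedPoint'
        (isClosed_closedBall.isComplete) hmap (x := ξ) (mem_closedBall_self (by positivity))
        (edist_ne_top _ _)
      refine ⟨y, fun _ => ⟨mem_ball_iff_norm.1 (hss hy), ?_⟩⟩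
      have h1 : ξ + (W y + w * V y) = y := hfy
      rw [add_assoc]
      exact h1.symm
    · exact ⟨0, fun h => absurd h hw⟩
  choose x hx using hex
  have huniq : ∀ w ∈ ball (0 : ℂ) (9 / 2), ∀ y, ‖y - ξ‖ < δ → y = ξ + W y + w * V y →
      y = x w := by
    intro w hw y hy hyw
    obtain ⟨h1, h2⟩ := hx w hw
    have hw' : ‖w‖ < 9 / 2 := mem_ball_zero_iff.1 hw
    have h3 := hlip w hw' _ (mem_ball_iff_norm.2 hy) _ (mem_ball_iff_norm.2 h1)
    have h4 : y - x w = (W y + w * V y) - (W (x w) + w * V (x w)) := by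
      linear_combination hyw - h2
    rw [← h4] at h3
    have h6 : ‖y - x w‖ = 0 := by
      have := norm_nonneg (y - x w)
      linarith
    exact sub_eq_zero.1 (norm_eq_zero.1 h6)
  refine ⟨x, fun w hw => ⟨?_, hx w hw⟩⟩
  obtain ⟨h1, h2⟩ := hx w hw
  have hw' : ‖w‖ < 9 / 2 := mem_ball_zero_iff.1 hw
  have hmem : x w ∈ ball ξ (2 * δ) := hsub' (mem_ball_iff_norm.2 h1)
  have hVa : AnalyticAt ℂ V (x w) := hV.analyticAt (isOpen_ball.mem_nhds hmem)
  have hWa : AnalyticAt ℂ W (x w) := hW.analyticAt (isOpen_ball.mem_nhds hmem)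
  have hV0 := h0 _ hmem
  set G : ℂ → ℂ := fun y => (y - ξ - W y) / V y with hG
  have hGa : AnalyticAt ℂ G (x w) :=
    ((analyticAt_id.sub analyticAt_const).sub hWa).div hVa hV0
  have hGx : G (x w) = w := by
    rw [hG]
    simp only
    rw [div_eq_iff hV0]
    linear_combination h2
  have hVd : HasDerivAt V (deriv V (x w)) (x w) := hVa.differentiableAt.hasDerivAt
  have hWd : HasDerivAt W (deriv W (x w)) (x w) := hWa.differentiableAt.hasDerivAt
  have hGd : HasDerivAt G (((1 - deriv W (x w)) * V (x w) -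
      (x w - ξ - W (x w)) * deriv V (x w)) / V (x w) ^ 2) (x w) :=
    (((hasDerivAt_id (x w)).sub_const ξ).sub hWd).div hVd hV0
  have hV' := norm_deriv_V hδ hV hVb' (mem_ball_iff_norm.2 h1)
  have hW' := norm_deriv_V hδ hW hWb' (mem_ball_iff_norm.2 h1)
  have hG' : deriv G (x w) ≠ 0 := by
    rw [hGd.deriv]
    refine div_ne_zero ?_ (pow_ne_zero _ hV0)
    have e : (1 - deriv W (x w)) * V (x w) - (x w - ξ - W (x w)) * deriv V (x w) =
        V (x w) * (1 - (deriv W (x w) + w * deriv V (x w))) := by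
      have : x w - ξ - W (x w) = w * V (x w) := by linear_combination h2
      rw [this]
      ring
    rw [e]
    refine mul_ne_zero hV0 fun h3 => ?_
    have h4 : deriv W (x w) + w * deriv V (x w) = 1 := by linear_combination -h3
    have h5 := congrArg norm h4
    rw [norm_one] at h5
    have h6 : ‖w * deriv V (x w)‖ ≤ 9 / 2 * (1 / 10) := by
      rw [norm_mul]
      exact mul_le_mul hw'.le hV' (norm_nonneg _) (by norm_num)
    have h7 := norm_add_le (deriv W (x w)) (w * deriv V (x w))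
    linarith
  have hinv := hGa.analyticAt_localInverse hG'
  have hright := hGa.hasStrictDerivAt.eventually_right_inverse hG'
  set ψ := hGa.hasStrictDerivAt.localInverse _ _ _ hG' with hψ
  have hψ0 : ψ (G (x w)) = x w := HasStrictFDerivAt.localInverse_apply_image ..
  rw [hGx] at hinv hright hψ0
  have hnear : ∀ᶠ w' in 𝓝 w, ‖ψ w' - ξ‖ < δ := by
    have h3 : ContinuousAt (fun w' => ‖ψ w' - ξ‖) w :=
      (hinv.continuousAt.sub continuousAt_const).norm
    refine h3.eventually_lt continuousAt_const ?_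
    rw [hψ0]
    exact h1
  have hball : ∀ᶠ w' in 𝓝 w, w' ∈ ball (0 : ℂ) (9 / 2) := isOpen_ball.mem_nhds hw
  refine hinv.congr ?_
  filter_upwards [hright, hnear, hball] with w' e1 e2 e3
  refine huniq w' e3 _ e2 ?_
  have h4 : (ψ w' - ξ - W (ψ w')) / V (ψ w') = w' := e1
  rw [div_eq_iff (h0 _ (hsub' (mem_ball_iff_norm.2 e2)))] at h4
  linear_combination h4

end branch3

/-- The loop near a simple zero of `R` on `z + 1/z = t + x R(x) G(x) / D(x)`. -/
theorem exists_loop3 {t : ℤ} (ht : |t| ≤ 2) {D R G : ℂ[X]} {U : ℂ → ℂ} {ξ : ℂ} {δ : ℝ}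
    (hδ : 0 < δ) (hU : DifferentiableOn ℂ U (ball ξ (2 * δ)))
    (hUb : ∀ x ∈ ball ξ (2 * δ), ‖U x‖ ≤ δ / 40)
    (hG : ∀ x ∈ ball ξ (2 * δ), 40 / δ ≤ ‖G.eval x‖)
    (hD : ∀ x ∈ ball ξ (2 * δ), D.eval x ≠ 0) (h0 : ∀ x ∈ ball ξ (2 * δ), x ≠ 0)
    (heq : ∀ x ∈ ball ξ (2 * δ), x * R.eval x = D.eval x * (x - ξ + U x)) :
    ∃ (ρ : ℝ) (Xs : ℝ → ℂ), Transcendental ℚ ρ ∧ 1 < ρ ∧ ContDiff ℝ 2 Xs ∧
      (∀ s, Xs (s + 1) = Xs s) ∧ (∀ s, ‖Xs s - ξ‖ < δ) ∧
      (∀ s, Xs s * R.eval (Xs s) * G.eval (Xs s) =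
        (circ ρ s + (circ ρ s)⁻¹ - t) * D.eval (Xs s)) ∧
      NZ (fun s => R.eval (Xs s)) ∧
      pr (circ ρ) Xs + pr (circ ρ) (fun s => R.eval (Xs s)) +
        pr (circ ρ) (fun s => G.eval (Xs s)) = pr (circ ρ) (fun s => D.eval (Xs s)) := by
  have hG0 : ∀ x ∈ ball ξ (2 * δ), G.eval x ≠ 0 := by
    intro x hx h
    have h1 := hG x hx
    rw [h, norm_zero] at h1
    have : 0 < 40 / δ := by positivity
    linarith
  have hsub' : ball ξ δ ⊆ ball ξ (2 * δ) := ball_subset_ball (by linarith)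
  obtain ⟨xb, hxb⟩ := exists_branch3 (V := fun x => (G.eval x)⁻¹) (W := fun x => -U x) (ξ := ξ)
    hδ (fun x hx => ((G.differentiable x).inv (hG0 x hx)).differentiableWithinAt) hU.neg
    (by
      intro x hx
      have h1 := hG x hx
      rw [norm_inv]
      have h2 : 0 < 40 / δ := by positivity
      refine (inv_anti₀ h2 h1).trans (le_of_eq ?_)
      rw [inv_div])
    (by
      intro x hx
      rw [norm_neg]
      exact hUb x hx)
    (fun x hx => inv_ne_zero (hG0 x hx))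
  obtain ⟨ρ, hρ, hρη, hρt⟩ := exists_radius_tr (η := 1 / 2) (by norm_num)
  have hρ0 : 0 < ρ := one_pos.trans hρ
  have hz := nz_circ hρ0
  have ht' : ‖(t : ℂ)‖ ≤ 2 := by
    rw [Complex.norm_intCast]
    exact_mod_cast ht
  set u : ℝ → ℂ := fun s => circ ρ s + (circ ρ s)⁻¹ - t with hu
  have hucd : ContDiff ℝ 2 u :=
    ((contDiff_circ ρ).add ((contDiff_circ ρ).inv hz.ne_zero)).sub contDiff_const
  have hub : ∀ s, u s ∈ ball (0 : ℂ) (9 / 2) := by
    intro s
    rw [mem_ball_zero_iff]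
    have h1 : ‖circ ρ s + (circ ρ s)⁻¹‖ < 5 / 2 := by
      refine (norm_add_le _ _).trans_lt ?_
      rw [norm_inv, norm_circ hρ0.le]
      linarith
    refine (norm_sub_le _ _).trans_lt ?_
    linarith
  have hper : ∀ s, u (s + 1) = u s := fun s => by
    simp only [hu, circ_add_one]
  obtain ⟨ζ, hζ, hζt⟩ := exists_zeta ht
  have hζ0 : ζ ≠ 0 := fun h0 => by rw [h0, norm_zero] at hζ; exact zero_ne_one hζ
  have hut : ∀ s, u s ≠ 0 := by
    intro s h0
    have h2 := hz.ne_zero s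
    have h3 : (circ ρ s - ζ) * (circ ρ s - ζ⁻¹) = 0 := by
      have h4 : u s = circ ρ s + (circ ρ s)⁻¹ - t := rfl
      rw [h4, hζt] at h0
      have h5 : circ ρ s * (circ ρ s)⁻¹ = 1 := mul_inv_cancel₀ h2
      have h6 : ζ * ζ⁻¹ = 1 := mul_inv_cancel₀ hζ0
      linear_combination (circ ρ s) * h0 - h5 + h6
    rcases mul_eq_zero.1 h3 with h4 | h4
    · have h5 := congrArg norm (sub_eq_zero.1 h4)
      rw [norm_circ hρ0.le, hζ] at h5
      exact hρ.ne' h5
    · have h5 := congrArg norm (sub_eq_zero.1 h4)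
      rw [norm_circ hρ0.le, norm_inv, hζ, inv_one] at h5
      exact hρ.ne' h5
  set Y : ℝ → ℂ := fun s => xb (u s) with hY
  have hYcd : ContDiff ℝ 2 Y := by
    rw [contDiff_iff_contDiffAt]
    intro s
    exact (((hxb _ (hub s)).1).contDiffAt.restrict_scalars ℝ).comp s hucd.contDiffAt
  have hYper : ∀ s, Y (s + 1) = Y s := fun s => by
    simp only [hY, hper]
  have hYd : ∀ s, ‖Y s - ξ‖ < δ := fun s => (hxb _ (hub s)).2.1
  have hYb : ∀ s, Y s ∈ ball ξ (2 * δ) := fun s => hsub' (mem_ball_iff_norm.2 (hYd s))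
  have hYeq : ∀ s, (Y s - ξ + U (Y s)) * G.eval (Y s) = u s := fun s => by
    have h1 : Y s = ξ + -U (Y s) + u s * (G.eval (Y s))⁻¹ := (hxb _ (hub s)).2.2
    have h2 := hG0 _ (hYb s)
    have h3 : Y s - ξ + U (Y s) = u s * (G.eval (Y s))⁻¹ := by linear_combination h1
    rw [h3, mul_assoc, inv_mul_cancel₀ h2, mul_one]
  have hYm : ∀ s, Y s * R.eval (Y s) * G.eval (Y s) = u s * D.eval (Y s) := by
    intro s
    rw [heq _ (hYb s), mul_assoc, hYeq]
    ring
  have hY0 : ∀ s, Y s ≠ 0 := fun s => h0 _ (hYb s)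
  have nY : NZ Y := ⟨hYcd, hY0⟩
  have nu : NZ u := ⟨hucd, hut⟩
  obtain ⟨nD, -⟩ := pr_poly hρ hYcd hYper hYd (P := D) (fun x hx =>
    hD x (hsub' (mem_ball_iff_norm.2 hx)))
  obtain ⟨nG, -⟩ := pr_poly hρ hYcd hYper hYd (P := G) (fun x hx =>
    hG0 x (hsub' (mem_ball_iff_norm.2 hx)))
  have hR0 : ∀ s, R.eval (Y s) ≠ 0 := by
    intro s h
    have h1 := hYm s
    rw [h, mul_zero, zero_mul] at h1
    exact mul_ne_zero (hut s) (hD _ (hYb s)) h1.symm
  have hRcd : ContDiff ℝ 2 fun s => R.eval (Y s) := by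
    have e : (fun s => R.eval (Y s)) = fun s =>
        ∑ i ∈ Finset.range (R.natDegree + 1), R.coeff i * (Y s) ^ i := by
      funext s
      rw [Polynomial.eval_eq_sum_range]
    rw [e]
    exact ContDiff.sum fun i _ => contDiff_const.mul (hYcd.pow i)
  have nR : NZ fun s => R.eval (Y s) := ⟨hRcd, hR0⟩
  have pru : pr (circ ρ) u = 0 := by
    have e : u = fun s => circ ρ s + (circ ρ s)⁻¹ - (ζ + ζ⁻¹) := by
      funext s
      rw [hu, hζt]
    rw [e]
    exact pr_circ hρ hζ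
  refine ⟨ρ, Y, hρt, hρ, hYcd, hYper, hYd, hYm, nR, ?_⟩
  rw [← pr_mul hz nY nR, ← pr_mul hz (nY.mul nR) nG]
  have e : (fun s => Y s * R.eval (Y s) * G.eval (Y s)) = fun s => u s * D.eval (Y s) := by
    funext s
    exact hYm s
  rw [e, pr_mul hz nu nD, pru, zero_add]

/-- The linear algebra: injectivity of the matrix of the regulators. -/
theorem lin3 {r : ℕ} {p : ℝ} {x a J' : Fin r → ℝ} {b : Fin r → Fin r → ℝ} (hp : 1 ≤ p)
    (hx : ∀ i, 0 < x i) (hb : ∀ i k, k ≠ i → (p - 1 / 2) * x i ≤ b i k)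
    (ha : ∀ i, a i ≤ (p - 3 / 4) * x i) (hJ : ∀ k, p ≤ J' k) {c : Fin r → ℝ}
    (h : ∀ i, ∑ k ∈ Finset.univ.erase i, b i k * (c i - c k) =
      a i * c i - (∑ k, J' k * c k) * x i) : ∀ k, c k = 0 := by
  classical
  by_contra hcon
  push Not at hcon
  obtain ⟨k₀, hk₀⟩ := hcon
  have hne : (Finset.univ : Finset (Fin r)).Nonempty := ⟨k₀, Finset.mem_univ _⟩
  obtain ⟨M, -, hM⟩ := Finset.exists_max_image Finset.univ c hne
  obtain ⟨m, -, hm⟩ := Finset.exists_min_image Finset.univ c hne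
  have hM' : ∀ k, c k ≤ c M := fun k => hM k (Finset.mem_univ k)
  have hm' : ∀ k, c m ≤ c k := fun k => hm k (Finset.mem_univ k)
  have hb0 : ∀ i k, k ≠ i → 0 ≤ b i k := by
    intro i k hk
    have h1 := hb i k hk
    have h2 : 0 ≤ (p - 1 / 2) * x i := mul_nonneg (by linarith) (hx i).le
    linarith
  -- the two inequalities
  have eM : 0 ≤ ∑ k ∈ Finset.univ.erase M, b M k * (c M - c k) :=
    Finset.sum_nonneg fun k hk => mul_nonneg (hb0 M k (Finset.ne_of_mem_erase hk))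
      (sub_nonneg.2 (hM' k))
  have em : ∑ k ∈ Finset.univ.erase m, b m k * (c m - c k) ≤ 0 :=
    Finset.sum_nonpos fun k hk => mul_nonpos_of_nonneg_of_nonpos
      (hb0 m k (Finset.ne_of_mem_erase hk)) (sub_nonpos.2 (hm' k))
  set S : ℝ := ∑ k, J' k * c k with hS
  rcases le_or_gt 0 (c m) with h1 | h1
  · -- all are nonnegative
    have hcM : 0 < c M := by
      rcases lt_or_gt_of_ne hk₀ with h2 | h2
      · exact absurd (h1.trans (hm' k₀)) (not_le.2 h2)
      · exact h2.trans_le (hM' k₀)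
    have hS1 : J' M * c M ≤ S := by
      rw [hS]
      refine Finset.single_le_sum (f := fun k => J' k * c k) (fun k _ => ?_) (Finset.mem_univ M)
      exact mul_nonneg (by linarith [hJ k]) (h1.trans (hm' k))
    have hS2 : p * c M ≤ S := (mul_le_mul_of_nonneg_right (hJ M) hcM.le).trans hS1
    have h3 := h M
    have h4 : a M * c M ≤ (p - 3 / 4) * x M * c M := mul_le_mul_of_nonneg_right (ha M) hcM.le
    have h5 : p * c M * x M ≤ S * x M := mul_le_mul_of_nonneg_right hS2 (hx M).le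
    have h6 : 0 < c M * x M := mul_pos hcM (hx M)
    nlinarith
  rcases le_or_gt (c M) 0 with h2 | h2
  · -- all are nonpositive
    have hS1 : S ≤ J' m * c m := by
      have h3 : -(J' m * c m) ≤ -S := by
        rw [hS, ← Finset.sum_neg_distrib]
        refine Finset.single_le_sum (f := fun k => -(J' k * c k)) (fun k _ => ?_)
          (Finset.mem_univ m)
        rw [neg_nonneg]
        exact mul_nonpos_of_nonneg_of_nonpos (by linarith [hJ k]) ((hM' k).trans h2)
      linarith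
    have hS2 : S ≤ p * c m :=
      hS1.trans (mul_le_mul_of_nonpos_right (hJ m) h1.le)
    have h3 := h m
    have h4 : (p - 3 / 4) * x m * c m ≤ a m * c m := mul_le_mul_of_nonpos_right (ha m) h1.le
    have h5 : S * x m ≤ p * c m * x m := mul_le_mul_of_nonneg_right hS2 (hx m).le
    have h6 : c m * x m < 0 := mul_neg_of_neg_of_pos h1 (hx m)
    nlinarith
  · -- both signs
    have hMm : m ≠ M := fun e => by rw [e] at h1; exact absurd h1 (not_lt.2 h2.le)
    have h3 : b M m * (c M - c m) ≤ ∑ k ∈ Finset.univ.erase M, b M k * (c M - c k) :=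
      Finset.single_le_sum (f := fun k => b M k * (c M - c k)) (fun k hk =>
        mul_nonneg (hb0 M k (Finset.ne_of_mem_erase hk)) (sub_nonneg.2 (hM' k)))
        (Finset.mem_erase.2 ⟨hMm, Finset.mem_univ m⟩)
    have h4 : ∑ k ∈ Finset.univ.erase m, b m k * (c m - c k) ≤ b m M * (c m - c M) := by
      have h5 : -(b m M * (c m - c M)) ≤ ∑ k ∈ Finset.univ.erase m, -(b m k * (c m - c k)) :=
        Finset.single_le_sum (f := fun k => -(b m k * (c m - c k))) (fun k hk => by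
          rw [neg_nonneg]
          exact mul_nonpos_of_nonneg_of_nonpos (hb0 m k (Finset.ne_of_mem_erase hk))
            (sub_nonpos.2 (hm' k)))
          (Finset.mem_erase.2 ⟨hMm.symm, Finset.mem_univ M⟩)
      rw [Finset.sum_neg_distrib] at h5
      linarith
    rw [h M] at h3
    rw [h m] at h4
    have h5 : (p - 1 / 2) * x M * (c M - c m) ≤ b M m * (c M - c m) :=
      mul_le_mul_of_nonneg_right (hb M m hMm) (by linarith)
    have h6 : b m M * (c m - c M) ≤ (p - 1 / 2) * x m * (c m - c M) :=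
      mul_le_mul_of_nonpos_right (hb m M hMm.symm) (by linarith)
    have h7 : a M * c M ≤ (p - 3 / 4) * x M * c M := mul_le_mul_of_nonneg_right (ha M) h2.le
    have h8 : (p - 3 / 4) * x m * c m ≤ a m * c m := mul_le_mul_of_nonpos_right (ha m) h1.le
    -- `S < 0` and `S > 0`
    have hS1 : S * x M < 0 := by
      have e1 : 0 < x M * c M := mul_pos (hx M) h2
      have e2 : x M * c m < 0 := mul_neg_of_pos_of_neg (hx M) h1
      have e3 : 0 ≤ (p - 1 / 2) * (-(x M * c m)) := mul_nonneg (by linarith) (by linarith)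
      nlinarith
    have hS2 : 0 < S * x m := by
      have e1 : 0 < x m * c M := mul_pos (hx m) h2
      have e2 : x m * c m < 0 := mul_neg_of_pos_of_neg (hx m) h1
      have e3 : 0 ≤ (p - 1 / 2) * (x m * c M) := mul_nonneg (by linarith) (by linarith)
      nlinarith
    have hS3 : S < 0 := by
      by_contra hc
      exact absurd hS1 (not_lt.2 (mul_nonneg (not_lt.1 hc) (hx M).le))
    exact absurd hS2 (not_lt.2 (mul_nonpos_of_nonpos_of_nonneg hS3.le (hx m).le))

end Pool.Agent.H442
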