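import Pool.Agent.H442.Curve2
import Pool.Agent.H442.Loop3
set_option autoImplicit false

/-!
The regulators of the classes `{z, R_k(x)/x^{j_k}}` along the loops near the large zeros of the
polynomials `R_i`.
-/

namespace Pool.Agent.H442

open Polynomial Metric Set Filter Topology MeasureTheory

open Pool.Agent.TH826.MK (Torus KQ Unramified circ norm_circ contDiff_circ circ_add_one)

open Pool.Agent.TH826.UH

open Pool.Agent.Helper537_Sym (sy)

open scoped Real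

/-- the complex polynomial -/
noncomputable def cx (P : ℤ[X]) : ℂ[X] := P.map (Int.castRingHom ℂ)

theorem cx_mul (P Q : ℤ[X]) : cx (P * Q) = cx P * cx Q := by
  unfold cx
  rw [Polynomial.map_mul]

theorem cx_prod {ι : Type*} (s : Finset ι) (P : ι → ℤ[X]) : cx (∏ i ∈ s, P i) = ∏ i ∈ s, cx (P i) := by
  unfold cx
  rw [Polynomial.map_prod]

theorem eval_cx (σ : ℚ →+* ℂ) (P : ℤ[X]) (x : ℂ) :
    (P.map (algebraMap ℤ ℚ)).eval₂ σ x = (cx P).eval x := by
  unfold cx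
  rw [eval₂_map, eval_map]
  congr 1
  exact Subsingleton.elim _ _

/-- The estimates in a disc around the large zero of `R_i`. -/
def DiscData {r : ℕ} (p : ℝ) (D : ℤ[X]) (R : Fin r → ℤ[X]) (M : ℤ[X]) (i : Fin r) : Prop :=
  ∃ (ξ : ℂ) (δ : ℝ) (U : ℂ → ℂ), 0 < δ ∧ DifferentiableOn ℂ U (ball ξ (2 * δ)) ∧
    ∀ x ∈ ball ξ (2 * δ), ‖U x‖ ≤ δ / 40 ∧ 1 < ‖x‖ ∧ (cx D).eval x ≠ 0 ∧
      (∀ k, k ≠ i → (cx (R k)).eval x ≠ 0) ∧ (cx M).eval x ≠ 0 ∧
      40 / δ ≤ ‖(cx ((∏ k ∈ Finset.univ.erase i, R k) * M)).eval x‖ ∧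
      x * (cx (R i)).eval x = (cx D).eval x * (x - ξ + U x) ∧
      (∀ k, k ≠ i → (p - 1 / 2) * Real.log ‖x‖ ≤ Real.log ‖(cx (R k)).eval x‖) ∧
      Real.log ‖(cx D).eval x‖ ≤ (p + 1 / 4) * Real.log ‖x‖ + Real.log ‖(cx M).eval x‖

theorem cint {f : ℝ → ℂ} (h : NZ f) :
    IntervalIntegrable (fun s => Real.log ‖f s‖) volume 0 1 := h.cont_log.intervalIntegrable _ _

theorem loop3 {t : ℤ} (ht : |t| ≤ 2) {r : ℕ} {p : ℝ} {D : ℤ[X]} {R : Fin r → ℤ[X]} {M : ℤ[X]}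
    {i : Fin r} (H : DiscData p D R M i) (σ : ℚ →+* ℂ) :
    ∃ (ρ : ℝ) (Xs : ℝ → ℂ) (x a : ℝ) (b : Fin r → ℝ), Transcendental ℚ ρ ∧
      Lq σ t ((X * (∏ k, R k) * M).map (algebraMap ℤ ℚ)) (D.map (algebraMap ℤ ℚ)) ρ Xs ∧
      NZ Xs ∧ (∀ k, NZ fun s => (cx (R k)).eval (Xs s)) ∧ 0 < x ∧
      (∀ k, k ≠ i → (p - 1 / 2) * x ≤ b k) ∧ a ≤ (p - 3 / 4) * x ∧
      pr (circ ρ) Xs = -(2 * π) * x ∧
      (∀ k, k ≠ i → pr (circ ρ) (fun s => (cx (R k)).eval (Xs s)) = -(2 * π) * b k) ∧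
      pr (circ ρ) (fun s => (cx (R i)).eval (Xs s)) =
        -(2 * π) * (a - ∑ k ∈ Finset.univ.erase i, b k) := by
  classical
  obtain ⟨ξ, δ, U, hδ, hU, hx⟩ := H
  have hsub' : ball ξ δ ⊆ ball ξ (2 * δ) := ball_subset_ball (by linarith)
  obtain ⟨ρ, Y, hρt, hρ, hYcd, hYper, hYd, hYm, nR, hpr⟩ := exists_loop3 ht (D := cx D)
    (R := cx (R i)) (G := cx ((∏ k ∈ Finset.univ.erase i, R k) * M)) hδ hU
    (fun x h => (hx x h).1) (fun x h => (hx x h).2.2.2.2.2.1) (fun x h => (hx x h).2.2.1)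
    (fun x h h0 => by
      have := (hx x h).2.1
      rw [h0, norm_zero] at this
      linarith)
    (fun x h => (hx x h).2.2.2.2.2.2.1)
  have hYb : ∀ s, Y s ∈ ball ξ (2 * δ) := fun s => hsub' (mem_ball_iff_norm.2 (hYd s))
  have hY0 : ∀ s, Y s ≠ 0 := by
    intro s h0
    have := (hx _ (hYb s)).2.1
    rw [h0, norm_zero] at this
    linarith
  have nY : NZ Y := ⟨hYcd, hY0⟩
  have hz := nz_circ (one_pos.trans hρ)
  obtain ⟨nX, prX⟩ := pr_poly hρ hYcd hYper hYd (P := X) (fun x h => by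
    rw [eval_X]
    intro h0
    have := (hx x (hsub' (mem_ball_iff_norm.2 h))).2.1
    rw [h0, norm_zero] at this
    linarith)
  simp only [eval_X] at nX prX
  obtain ⟨nD, prD⟩ := pr_poly hρ hYcd hYper hYd (P := cx D) (fun x h =>
    (hx x (hsub' (mem_ball_iff_norm.2 h))).2.2.1)
  obtain ⟨nM, prM⟩ := pr_poly hρ hYcd hYper hYd (P := cx M) (fun x h =>
    (hx x (hsub' (mem_ball_iff_norm.2 h))).2.2.2.2.1)
  have hRk := fun (k : Fin r) (hk : k ≠ i) => pr_poly hρ hYcd hYper hYd (P := cx (R k))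
    (fun x h => (hx x (hsub' (mem_ball_iff_norm.2 h))).2.2.2.1 k hk)
  have nRk : ∀ k, NZ fun s => (cx (R k)).eval (Y s) := by
    intro k
    by_cases hk : k = i
    · rw [hk]
      exact nR
    · exact (hRk k hk).1
  set x : ℝ := ∫ s in (0 : ℝ)..1, Real.log ‖Y s‖ with hxdef
  set d : ℝ := ∫ s in (0 : ℝ)..1, Real.log ‖(cx D).eval (Y s)‖ with hddef
  set l : ℝ := ∫ s in (0 : ℝ)..1, Real.log ‖(cx M).eval (Y s)‖ with hldef
  set b : Fin r → ℝ := fun k => ∫ s in (0 : ℝ)..1, Real.log ‖(cx (R k)).eval (Y s)‖ with hbdef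
  have hlogpos : ∀ s, 0 < Real.log ‖Y s‖ := fun s => Real.log_pos (hx _ (hYb s)).2.1
  refine ⟨ρ, Y, x, d - x - l, b, hρt, ⟨hρ, hYcd, hYper, fun s => ?_, fun s => ?_⟩, nY, nRk, ?_,
    ?_, ?_, ?_, ?_, ?_⟩
  · rw [eval_cx]
    exact (hx _ (hYb s)).2.2.1
  · rw [eval_cx, eval_cx, cx_mul, cx_mul, ← Finset.mul_prod_erase _ _ (Finset.mem_univ i), cx_mul]
    have h1 := hYm s
    rw [cx_mul, eval_mul] at h1
    simp only [eval_mul]
    have h2 : (cx X).eval (Y s) = Y s := by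
      unfold cx
      rw [Polynomial.map_X, eval_X]
    rw [h2]
    linear_combination h1
  · rw [hxdef]
    exact intervalIntegral.intervalIntegral_pos_of_pos_on (cint nY) (fun s _ => hlogpos s)
      one_pos
  · intro k hk
    rw [hxdef, hbdef, ← intervalIntegral.integral_const_mul]
    refine intervalIntegral.integral_mono_on zero_le_one ((cint nY).const_mul _)
      (cint (nRk k)) fun s _ => ?_
    exact (hx _ (hYb s)).2.2.2.2.2.2.2.1 k hk
  · have h1 : d ≤ (p + 1 / 4) * x + l := by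
      rw [hxdef, hddef, hldef, ← intervalIntegral.integral_const_mul,
        ← intervalIntegral.integral_add ((cint nY).const_mul _) (cint nM)]
      refine intervalIntegral.integral_mono_on zero_le_one (cint nD)
        (((cint nY).const_mul _).add (cint nM)) fun s _ => ?_
      exact (hx _ (hYb s)).2.2.2.2.2.2.2.2
    linarith
  · rw [prX]
    ring
  · intro k hk
    rw [(hRk k hk).2]
    ring
  · have hG : pr (circ ρ) (fun s => (cx ((∏ k ∈ Finset.univ.erase i, R k) * M)).eval (Y s)) =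
        -(2 * π) * ((∑ k ∈ Finset.univ.erase i, b k) + l) := by
      have e : (fun s => (cx ((∏ k ∈ Finset.univ.erase i, R k) * M)).eval (Y s)) =
          fun s => (∏ k ∈ Finset.univ.erase i, (cx (R k)).eval (Y s)) * (cx M).eval (Y s) := by
        funext s
        rw [cx_mul, cx_prod, eval_mul, eval_prod]
      rw [e, pr_mul hz (NZ.prod _ nRk) nM, pr_prod _ hz nRk, prM]
      have h1 : ∑ k ∈ Finset.univ.erase i, pr (circ ρ) (fun s => (cx (R k)).eval (Y s)) =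
          ∑ k ∈ Finset.univ.erase i, -(2 * π * b k) :=
        Finset.sum_congr rfl fun k hk => (hRk k (Finset.ne_of_mem_erase hk)).2
      rw [h1, Finset.sum_neg_distrib, ← Finset.mul_sum]
      ring
    rw [hG, prX, prD] at hpr
    linear_combination hpr

/-- Injectivity of the regulators. -/
theorem mat3 {t : ℤ} (ht : |t| ≤ 2) {r : ℕ} {p : ℝ} (hp : 1 ≤ p) {D : ℤ[X]} {R : Fin r → ℤ[X]}
    {M : ℤ[X]} (H : ∀ i, DiscData p D R M i) {j : Fin r → ℕ} (hj : ∀ k, p ≤ j k)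
    (σ : ℚ →+* ℂ) :
    ∃ (ρ : Fin r → ℝ) (Xs : Fin r → ℝ → ℂ), (∀ i, Transcendental ℚ (ρ i)) ∧
      (∀ i, Lq σ t ((X * (∏ k, R k) * M).map (algebraMap ℤ ℚ)) (D.map (algebraMap ℤ ℚ))
        (ρ i) (Xs i)) ∧ (∀ i, NZ (Xs i)) ∧ (∀ i k, NZ fun s => (cx (R k)).eval (Xs i s)) ∧
      ∀ c : Fin r → ℝ, (∀ i, ∑ k, c k * (pr (circ (ρ i)) (fun s => (cx (R k)).eval (Xs i s)) -
        j k * pr (circ (ρ i)) (Xs i)) = 0) → ∀ k, c k = 0 := by
  classical
  choose ρ Xs x a b h1 h2 h3 h4 h5 h6 h7 h8 h9 h10 using fun i => loop3 ht (H i) σ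
  refine ⟨ρ, Xs, h1, h2, h3, h4, fun c hc => ?_⟩
  refine lin3 (J' := fun k => (j k : ℝ)) hp h5 (b := b) (a := a) h6 h7 hj fun i => ?_
  have h11 := hc i
  rw [← Finset.add_sum_erase _ _ (Finset.mem_univ i), h10, h8] at h11
  have h12 : ∑ k ∈ Finset.univ.erase i, c k * (pr (circ (ρ i))
      (fun s => (cx (R k)).eval (Xs i s)) - j k * (-(2 * π) * x i)) =
      ∑ k ∈ Finset.univ.erase i, c k * (-(2 * π) * b i k - j k * (-(2 * π) * x i)) :=
    Finset.sum_congr rfl fun k hk => by rw [h9 i k (Finset.ne_of_mem_erase hk)]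
  rw [h12] at h11
  have h13 : ∑ k ∈ Finset.univ.erase i, c k * (-(2 * π) * b i k - j k * (-(2 * π) * x i)) =
      (-(2 * π)) * ((∑ k ∈ Finset.univ.erase i, b i k * c k) -
        (∑ k ∈ Finset.univ.erase i, j k * c k) * x i) := by
    rw [mul_sub, Finset.mul_sum, Finset.sum_mul, Finset.mul_sum, ← Finset.sum_sub_distrib]
    refine Finset.sum_congr rfl fun k _ => ?_
    ring
  rw [h13] at h11
  have h14 : ∑ k, (j k : ℝ) * c k = j i * c i + ∑ k ∈ Finset.univ.erase i, (j k : ℝ) * c k :=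
    (Finset.add_sum_erase _ _ (Finset.mem_univ i)).symm
  have h15 : ∑ k ∈ Finset.univ.erase i, b i k * (c i - c k) =
      (∑ k ∈ Finset.univ.erase i, b i k) * c i - ∑ k ∈ Finset.univ.erase i, b i k * c k := by
    rw [Finset.sum_mul, ← Finset.sum_sub_distrib]
    refine Finset.sum_congr rfl fun k _ => ?_
    ring
  rw [h14, h15]
  have hπ : (2 * π) ≠ 0 := by
    have := Real.pi_pos
    positivity
  have h16 : (2 * π) * ((∑ k ∈ Finset.univ.erase i, b i k) * c i -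
      (∑ k ∈ Finset.univ.erase i, b i k * c k) - (a i * c i - (j i * c i +
        ∑ k ∈ Finset.univ.erase i, (j k : ℝ) * c k) * x i)) = 0 := by
    linear_combination h11
  have h17 := (mul_eq_zero.1 h16).resolve_left hπ
  linear_combination h17

end Pool.Agent.H442
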