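import Pool.Agent.H442.Spec2
import Pool.Agent.H442.Mat3
set_option autoImplicit false

/-!
The estimates for the polynomials `R_k = D + (X^{j_k} mod D)` in discs around their large zeros.
-/

namespace Pool.Agent.H442

open Polynomial Metric Set Filter Topology

open scoped Real

variable {p : ℕ}

theorem norm_bc (β : Fin p → ℕ) (l : Fin p) : ‖bc β l‖ = β l := by
  unfold bc
  exact Complex.norm_natCast _

/-- the weights of the nodes -/
noncomputable irreducible_def wt (β : Fin p → ℕ) (l : Fin p) : ℂ :=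
  Lagrange.nodalWeight Finset.univ (bc β) l

theorem wt_ne_zero {β : Fin p → ℕ} (h : Function.Injective β) (l : Fin p) : wt β l ≠ 0 := by
  rw [wt_def]
  exact Lagrange.nodalWeight_ne_zero (bc_inj h).injOn (Finset.mem_univ l)

/-- the leading coefficient of `R - D` -/
noncomputable irreducible_def Tj (β : Fin p → ℕ) (j : ℕ) : ℂ := ∑ l, wt β l * bc β l ^ j

/-- the remainder -/
noncomputable irreducible_def Uj (β : Fin p → ℕ) (j : ℕ) (x : ℂ) : ℂ :=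
  ∑ l, wt β l * bc β l ^ (j + 1) * (x - bc β l)⁻¹

theorem x_mul_Rz {β : Fin p → ℕ} (h : Function.Injective β) (j : ℕ) {x : ℂ}
    (hx : ∀ l, x ≠ bc β l) : x * (cx (Rz β j)).eval x =
      (cx (Dz β)).eval x * (x - (-Tj β j) + Uj β j x) := by
  unfold cx
  rw [eval_Rz h j hx]
  have e : x * (1 + ∑ l, Lagrange.nodalWeight Finset.univ (bc β) l * (x - bc β l)⁻¹ *
      bc β l ^ j) = x - (-Tj β j) + Uj β j x := by
    rw [Tj_def, Uj_def, mul_add, mul_one, Finset.mul_sum, sub_neg_eq_add, add_assoc,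
      ← Finset.sum_add_distrib]
    congr 1
    refine Finset.sum_congr rfl fun l _ => ?_
    rw [wt_def]
    have h1 : x - bc β l ≠ 0 := sub_ne_zero.2 (hx l)
    field_simp
    ring
  rw [← e]
  ring

theorem Tj_asymp {β : Fin p → ℕ} (h : Function.Injective β) (h2 : ∀ l, 2 ≤ β l) {m : Fin p}
    (hm : ∀ l, β l ≤ β m) : ∃ J : ℕ, ∀ j ≥ J,
      ‖Tj β j - wt β m * bc β m ^ j‖ ≤ ‖wt β m‖ * (β m : ℝ) ^ j / 32 := by
  classical
  have hw0 : wt β m ≠ 0 := wt_ne_zero h m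
  have hTj : ∀ j, Tj β j = ∑ l, wt β l * bc β l ^ j := fun j => Tj_def β j
  generalize wt β = w at *
  have hwm : 0 < ‖w m‖ := norm_pos_iff.2 hw0
  have hB : (2 : ℝ) ≤ β m := by exact_mod_cast h2 m
  have hB0 : (0 : ℝ) < β m := by linarith
  have h3 : Tendsto (fun j : ℕ => ∑ l ∈ Finset.univ.erase m,
      ‖w l‖ * ((β l : ℝ) / β m) ^ j) atTop (𝓝 (∑ l ∈ Finset.univ.erase m, ‖w l‖ * 0)) := by
    refine tendsto_finsetSum _ fun l hl => ?_
    refine tendsto_const_nhds.mul (tendsto_pow_atTop_nhds_zero_of_lt_one (by positivity) ?_)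
    rw [div_lt_one hB0]
    have h4 : β l < β m := lt_of_le_of_ne (hm l) fun he => Finset.ne_of_mem_erase hl (h he)
    exact_mod_cast h4
  simp only [mul_zero, Finset.sum_const_zero] at h3
  have h5 := h3.eventually_lt_const (u := ‖w m‖ / 32) (by positivity)
  obtain ⟨J, hJ⟩ := eventually_atTop.1 h5
  refine ⟨J, fun j hj => ?_⟩
  have h6 := hJ j hj
  have e : Tj β j - w m * bc β m ^ j = ∑ l ∈ Finset.univ.erase m, w l * bc β l ^ j := by
    rw [hTj, ← Finset.add_sum_erase _ _ (Finset.mem_univ m)]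
    ring
  rw [e]
  refine (norm_sum_le _ _).trans ?_
  have h7 : ∑ l ∈ Finset.univ.erase m, ‖w l * bc β l ^ j‖ =
      (∑ l ∈ Finset.univ.erase m, ‖w l‖ * ((β l : ℝ) / β m) ^ j) * (β m : ℝ) ^ j := by
    rw [Finset.sum_mul]
    refine Finset.sum_congr rfl fun l _ => ?_
    rw [norm_mul, norm_pow, norm_bc, div_pow]
    have : (β m : ℝ) ^ j ≠ 0 := by positivity
    field_simp
  rw [h7]
  have h8 : (0 : ℝ) < (β m : ℝ) ^ j := by positivity
  calc (∑ l ∈ Finset.univ.erase m, ‖w l‖ * ((β l : ℝ) / β m) ^ j) * (β m : ℝ) ^ j ≤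
      ‖w m‖ / 32 * (β m : ℝ) ^ j := mul_le_mul_of_nonneg_right h6.le h8.le
    _ = ‖w m‖ * (β m : ℝ) ^ j / 32 := by ring

theorem norm_x_sub {β : Fin p → ℕ} {m : Fin p} (hm : ∀ l, β l ≤ β m) {x : ℂ}
    (hx : 2 * (β m : ℝ) ≤ ‖x‖) (l : Fin p) : ‖x‖ / 2 ≤ ‖x - bc β l‖ ∧ ‖x - bc β l‖ ≤ 2 * ‖x‖ := by
  have h1 : (β l : ℝ) ≤ β m := by exact_mod_cast hm l
  have h3 := norm_sub_norm_le x (bc β l)
  have h4 := norm_sub_le x (bc β l)
  rw [norm_bc] at h3 h4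
  have h5 := norm_nonneg x
  constructor <;> linarith

theorem Uj_bound {β : Fin p → ℕ} {m : Fin p} (hm : ∀ l, β l ≤ β m) {x : ℂ} (hB : 1 ≤ β m)
    (hx : 2 * (β m : ℝ) ≤ ‖x‖) (j : ℕ) : ‖Uj β j x‖ ≤
      (∑ l, ‖wt β l‖) * (2 * β m) * (β m : ℝ) ^ j / ‖x‖ := by
  have hB' : (1 : ℝ) ≤ β m := by exact_mod_cast hB
  have hx0 : 0 < ‖x‖ := by linarith
  rw [Uj_def]
  refine (norm_sum_le _ _).trans ?_
  rw [Finset.sum_mul, Finset.sum_mul, Finset.sum_div]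
  refine Finset.sum_le_sum fun l _ => ?_
  obtain ⟨h1, -⟩ := norm_x_sub hm hx l
  rw [norm_mul, norm_mul, norm_pow, norm_bc, norm_inv]
  have h3 : (β l : ℝ) ≤ β m := by exact_mod_cast hm l
  have h4 : (β l : ℝ) ^ (j + 1) ≤ (β m : ℝ) ^ (j + 1) := pow_le_pow_left₀ (by positivity) h3 _
  have h5 : ‖x - bc β l‖⁻¹ ≤ 2 / ‖x‖ := by
    refine (inv_anti₀ (by positivity) h1).trans (le_of_eq ?_)
    rw [inv_div]
  calc ‖wt β l‖ * (β l : ℝ) ^ (j + 1) * ‖x - bc β l‖⁻¹ ≤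
      ‖wt β l‖ * (β m : ℝ) ^ (j + 1) * (2 / ‖x‖) := by
        refine mul_le_mul (mul_le_mul_of_nonneg_left h4 (norm_nonneg _)) h5
          (inv_nonneg.2 (norm_nonneg _)) (by positivity)
    _ = ‖wt β l‖ * (2 * β m) * (β m : ℝ) ^ j / ‖x‖ := by
        rw [pow_succ]
        ring

theorem far_lower {x Ti Tk Uk wi wk : ℂ} {ai ak : ℝ} (h1 : ‖Tk - wk‖ ≤ ak / 32)
    (h2 : ‖Ti - wi‖ ≤ ai / 32) (hwk : ‖wk‖ = ak) (hwi : ‖wi‖ = ai)
    (hd : 3 / 2 * max ai ak ≤ 3 * ‖wk - wi‖)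
    (hx : ‖x + Ti‖ < ‖Ti‖ / 8) (hU : ‖Uk‖ ≤ ak / 64) : ‖x‖ / 10 ≤ ‖x + Tk + Uk‖ := by
  have e : wk - wi = (x + Tk + Uk) + ((Ti - wi) - (Tk - wk) - (x + Ti) - Uk) := by ring
  have h3 : ‖wk - wi‖ ≤ ‖x + Tk + Uk‖ + (‖Ti - wi‖ + ‖Tk - wk‖ + ‖x + Ti‖ + ‖Uk‖) := by
    rw [e]
    refine (norm_add_le _ _).trans (add_le_add le_rfl ?_)
    refine (norm_sub_le _ _).trans (add_le_add ?_ le_rfl)
    refine (norm_sub_le _ _).trans (add_le_add ?_ le_rfl)
    exact norm_sub_le _ _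
  have h4 : ‖Ti‖ ≤ ai + ai / 32 := by
    have e2 : Ti = wi + (Ti - wi) := by ring
    rw [e2]
    refine (norm_add_le _ _).trans ?_
    rw [hwi]
    linarith
  have h5 : ‖x‖ ≤ ‖x + Ti‖ + ‖Ti‖ := by
    have e2 : x = (x + Ti) - Ti := by ring
    conv_lhs => rw [e2]
    exact norm_sub_le _ _
  have h6 : ai ≤ max ai ak := le_max_left _ _
  have h7 : ak ≤ max ai ak := le_max_right _ _
  have h8 : 0 ≤ ai := by rw [← hwi]; exact norm_nonneg _
  have h9 : 0 ≤ ak := by rw [← hwk]; exact norm_nonneg _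
  linarith

theorem pow_gap {B : ℝ} (hB : 2 ≤ B) {a b : ℕ} (hab : a ≠ b) {w : ℝ} (hw : 0 < w) :
    3 / 2 * max (w * B ^ a) (w * B ^ b) ≤ 3 * |w * B ^ b - w * B ^ a| := by
  have key : ∀ a b : ℕ, a < b → 2 * (w * B ^ a) ≤ w * B ^ b := by
    intro a b h
    have h1 : 2 * B ^ a ≤ B ^ b := by
      calc 2 * B ^ a ≤ B * B ^ a := mul_le_mul_of_nonneg_right hB (by positivity)
        _ = B ^ (a + 1) := by rw [pow_succ]; ring
        _ ≤ B ^ b := pow_le_pow_right₀ (by linarith) h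
    nlinarith
  have ha : 0 < w * B ^ a := by positivity
  have hb : 0 < w * B ^ b := by positivity
  rcases lt_or_gt_of_ne hab with h | h
  · have h1 := key a b h
    rw [max_eq_right (by linarith), abs_of_nonneg (by linarith)]
    linarith
  · have h1 := key b a h
    rw [max_eq_left (by linarith), abs_of_nonpos (by linarith)]
    linarith

theorem exists_ge_one {M : ℤ[X]} (hM : M.Monic) : ∃ N : ℝ, ∀ x : ℂ, N ≤ ‖x‖ →
    1 ≤ ‖(cx M).eval x‖ := by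
  have hM' : (cx M).Monic := hM.map _
  obtain ⟨ρ, hρ⟩ := exists_roots0 _ (cx M) rfl hM'.ne_zero
  rw [hM'.leadingCoeff, C_1, one_mul] at hρ
  refine ⟨1 + ∑ i, ‖ρ i‖, fun x hx => ?_⟩
  rw [hρ, eval_prod, norm_prod]
  simp only [eval_sub, eval_X, eval_C]
  calc (1 : ℝ) = ∏ _i : Fin (cx M).natDegree, (1 : ℝ) := by simp
    _ ≤ ∏ i, ‖x - ρ i‖ := by
        refine Finset.prod_le_prod (fun _ _ => zero_le_one) fun i _ => ?_
        have h1 : ‖ρ i‖ ≤ ∑ i, ‖ρ i‖ :=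
          Finset.single_le_sum (f := fun i => ‖ρ i‖) (fun _ _ => norm_nonneg _)
            (Finset.mem_univ i)
        have h2 := norm_sub_norm_le x (ρ i)
        linarith

theorem norm_Dz_bounds {β : Fin p → ℕ} {m : Fin p} (hm : ∀ l, β l ≤ β m) {x : ℂ}
    (hx : 2 * (β m : ℝ) ≤ ‖x‖) : (‖x‖ / 2) ^ p ≤ ‖(cx (Dz β)).eval x‖ ∧
      ‖(cx (Dz β)).eval x‖ ≤ (2 * ‖x‖) ^ p := by
  unfold cx
  rw [Dz_map, Lagrange.eval_nodal, norm_prod]
  have e : ∀ c : ℝ, c ^ p = ∏ _l : Fin p, c := by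
    intro c
    rw [Finset.prod_const, Finset.card_univ, Fintype.card_fin]
  rw [e, e]
  constructor
  · exact Finset.prod_le_prod (fun _ _ => by positivity) fun l _ => (norm_x_sub hm hx l).1
  · exact Finset.prod_le_prod (fun _ _ => norm_nonneg _) fun l _ => (norm_x_sub hm hx l).2

/-- The estimates in the disc around the large zero of `R_i`. -/
theorem discData {β : Fin p → ℕ} (hp : 1 ≤ p) (h : Function.Injective β) (h2 : ∀ l, 2 ≤ β l)
    {M : ℤ[X]} (hM : M.Monic) (r : ℕ) : ∃ J : ℕ, ∀ j : Fin r → ℕ, Function.Injective j →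
      (∀ k, J ≤ j k) → ∀ i, DiscData (p : ℝ) (Dz β) (fun k => Rz β (j k)) M i := by
  classical
  have hne : (Finset.univ : Finset (Fin p)).Nonempty := by
    rw [Finset.univ_nonempty_iff]
    exact ⟨⟨0, hp⟩⟩
  obtain ⟨m, -, hm'⟩ := Finset.exists_max_image Finset.univ β hne
  have hm : ∀ l, β l ≤ β m := fun l => hm' l (Finset.mem_univ l)
  have hw0 : wt β m ≠ 0 := wt_ne_zero h m
  obtain ⟨J₁, hJ₁⟩ := Tj_asymp h h2 hm
  obtain ⟨N₁, hN₁⟩ := exists_ge_one hM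
  have hUb := fun (x : ℂ) hx j => Uj_bound (x := x) hm (by have := h2 m; omega) hx j
  generalize wt β = w at *
  have hwm : 0 < ‖w m‖ := norm_pos_iff.2 hw0
  obtain ⟨B, hBdef⟩ : ∃ B : ℝ, B = ((β m : ℕ) : ℝ) := ⟨_, rfl⟩
  have hB : (2 : ℝ) ≤ B := by rw [hBdef]; exact_mod_cast h2 m
  have hB0 : (0 : ℝ) < B := by linarith
  -- the constants
  obtain ⟨C₁, hC₁⟩ : ∃ C₁ : ℝ, C₁ = (∑ l, ‖w l‖) * (2 * B) / ‖w m‖ := ⟨_, rfl⟩
  have hC₁0 : 0 ≤ C₁ := by rw [hC₁]; positivity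
  obtain ⟨E, hE⟩ : ∃ E : ℝ, E = Real.exp (4 * (p * Real.log 2 + Real.log 10)) := ⟨_, rfl⟩
  obtain ⟨N, hN⟩ : ∃ N : ℝ, N = 2000 + 4000 * C₁ + 4 * B + 2 * |N₁| + 2 * E := ⟨_, rfl⟩
  -- `‖w m‖ B^j ≥ 2 N` for large `j`
  have hlim : Tendsto (fun j : ℕ => ‖w m‖ * B ^ j) atTop atTop :=
    (tendsto_pow_atTop_atTop_of_one_lt (by linarith)).const_mul_atTop hwm
  obtain ⟨J₂, hJ₂⟩ := (tendsto_atTop.1 hlim (2 * N)).exists_forall_of_atTop
  refine ⟨max J₁ J₂, fun j hj hjJ i => ?_⟩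
  have hk1 : ∀ k, ‖Tj β (j k) - w m * bc β m ^ (j k)‖ ≤ ‖w m‖ * B ^ (j k) / 32 := fun k => by
    rw [hBdef]
    exact hJ₁ _ ((le_max_left _ _).trans (hjJ k))
  have hk2 : ∀ k, 2 * N ≤ ‖w m‖ * B ^ (j k) := fun k => hJ₂ _ ((le_max_right _ _).trans (hjJ k))
  have hE0 : 0 < E := by rw [hE]; exact Real.exp_pos _
  have hN0 : 0 ≤ |N₁| := abs_nonneg _
  have hN2000 : 2000 ≤ N := by rw [hN]; linarith
  have hwk : ∀ k, ‖w m * bc β m ^ (j k)‖ = ‖w m‖ * B ^ (j k) := fun k => by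
    rw [norm_mul, norm_pow, norm_bc, hBdef]
  have hTk : ∀ k, N ≤ ‖Tj β (j k)‖ ∧ ‖w m‖ * B ^ (j k) ≤ 2 * ‖Tj β (j k)‖ := by
    intro k
    have h3 := hk1 k
    have h4 := hk2 k
    have e : w m * bc β m ^ (j k) = Tj β (j k) - (Tj β (j k) - w m * bc β m ^ (j k)) := by ring
    have h5 := norm_sub_le (Tj β (j k)) (Tj β (j k) - w m * bc β m ^ (j k))
    rw [← e, hwk] at h5
    constructor <;> linarith
  obtain ⟨Ti, hTi⟩ : ∃ Ti : ℂ, Ti = Tj β (j i) := ⟨_, rfl⟩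
  have hTiN : N ≤ ‖Ti‖ := by rw [hTi]; exact (hTk i).1
  have hTi0 : 0 < ‖Ti‖ := by linarith
  -- the size of `x`
  have hx1 : ∀ x ∈ ball (-Ti) (2 * (‖Ti‖ / 16)), ‖x + Ti‖ < ‖Ti‖ / 8 := by
    intro x hx
    rw [mem_ball_iff_norm, sub_neg_eq_add] at hx
    linarith
  have hx2 : ∀ x ∈ ball (-Ti) (2 * (‖Ti‖ / 16)), 7 / 8 * ‖Ti‖ < ‖x‖ := by
    intro x hx
    have h3 := hx1 x hx
    have h4 : ‖Ti‖ ≤ ‖x + Ti‖ + ‖x‖ := by
      have e : Ti = (x + Ti) - x := by ring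
      conv_lhs => rw [e]
      exact norm_sub_le _ _
    linarith
  have hx3 : ∀ x ∈ ball (-Ti) (2 * (‖Ti‖ / 16)), N / 2 ≤ ‖x‖ := by
    intro x hx
    have h3 := hx2 x hx
    linarith
  have hx4 : ∀ x ∈ ball (-Ti) (2 * (‖Ti‖ / 16)), 2 * B ≤ ‖x‖ := by
    intro x hx
    have h3 := hx3 x hx
    rw [hN] at h3
    linarith
  have hxb : ∀ x ∈ ball (-Ti) (2 * (‖Ti‖ / 16)), ∀ l, x ≠ bc β l := by
    intro x hx l he
    have h3 := hx4 x hx
    rw [hBdef] at h3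
    have h4 := (norm_x_sub hm h3 l).1
    rw [he, sub_self, norm_zero] at h4
    have h5 := hx3 x hx
    rw [he] at h5
    linarith
  -- the remainder
  have hUk : ∀ k, ∀ x ∈ ball (-Ti) (2 * (‖Ti‖ / 16)), ‖Uj β (j k) x‖ ≤
      C₁ * (‖w m‖ * B ^ (j k)) / ‖x‖ := by
    intro k x hx
    have h3 := hx4 x hx
    rw [hBdef] at h3
    refine (hUb x h3 (j k)).trans (le_of_eq ?_)
    rw [hC₁, ← hBdef]
    field_simp
  have hDx := fun (x : ℂ) (hx : x ∈ ball (-Ti) (2 * (‖Ti‖ / 16))) => norm_Dz_bounds hm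
    (x := x) (by rw [← hBdef]; exact hx4 x hx)
  have hfar : ∀ k, k ≠ i → ∀ x ∈ ball (-Ti) (2 * (‖Ti‖ / 16)),
      ‖x‖ / 10 ≤ ‖x + Tj β (j k) + Uj β (j k) x‖ := by
    intro k hk x hx
    have hjk : j i ≠ j k := fun he => hk (hj he).symm
    have g1 := pow_gap hB hjk hwm
    have hi1 := hk1 i
    rw [← hTi] at hi1
    refine far_lower (hk1 k) hi1 (hwk k) (hwk i) ?_ (hx1 x hx) ?_
    · refine g1.trans (le_of_eq ?_)
      congr 1
      have e : w m * bc β m ^ (j k) - w m * bc β m ^ (j i) =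
          w m * ((B ^ (j k) - B ^ (j i) : ℝ) : ℂ) := by
        have e2 : bc β m = ((B : ℝ) : ℂ) := by
          unfold bc
          rw [hBdef]
          push_cast
          rfl
        rw [e2]
        push_cast
        ring
      rw [e, norm_mul, Complex.norm_real, Real.norm_eq_abs, ← mul_sub, abs_mul,
        abs_of_pos hwm]
    · refine (hUk k x hx).trans ?_
      have h3 := hx3 x hx
      have h4 : 64 * C₁ ≤ ‖x‖ := by
        rw [hN] at h3
        linarith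
      have h5 : 0 < ‖x‖ := by linarith
      rw [div_le_iff₀ h5]
      have h6 : 0 < ‖w m‖ * B ^ (j k) := by positivity
      nlinarith
  have hRk : ∀ k, k ≠ i → ∀ x ∈ ball (-Ti) (2 * (‖Ti‖ / 16)),
      (‖x‖ / 2) ^ p / 10 ≤ ‖(cx (Rz β (j k))).eval x‖ := by
    intro k hk x hx
    have h3 := hfar k hk x hx
    have h4 := x_mul_Rz h (j k) (hxb x hx)
    have h5 := congrArg norm h4
    rw [norm_mul, norm_mul, sub_neg_eq_add] at h5
    have h6 := (hDx x hx).1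
    have h7 : 0 < ‖x‖ := by
      have := hx3 x hx
      linarith
    have h8 : (‖x‖ / 2) ^ p * (‖x‖ / 10) ≤ ‖x‖ * ‖(cx (Rz β (j k))).eval x‖ := by
      rw [h5]
      exact mul_le_mul h6 h3 (by positivity) (norm_nonneg _)
    have h9 : ‖x‖ * ((‖x‖ / 2) ^ p / 10) ≤ ‖x‖ * ‖(cx (Rz β (j k))).eval x‖ := by
      refine le_trans (le_of_eq ?_) h8
      ring
    exact le_of_mul_le_mul_left h9 h7
  have hxbig : ∀ x ∈ ball (-Ti) (2 * (‖Ti‖ / 16)), 1 ≤ (‖x‖ / 2) ^ p / 10 := by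
    intro x hx
    have h3 := hx3 x hx
    have h4 : 10 ≤ ‖x‖ / 2 := by linarith
    have h5 : ‖x‖ / 2 ≤ (‖x‖ / 2) ^ p := le_self_pow₀ (by linarith) (by omega)
    linarith
  have hlogx : ∀ x ∈ ball (-Ti) (2 * (‖Ti‖ / 16)),
      4 * (p * Real.log 2 + Real.log 10) ≤ Real.log ‖x‖ := by
    intro x hx
    have h3 := hx3 x hx
    have h4 : E ≤ ‖x‖ := by
      rw [hN] at h3
      linarith
    have h5 := Real.log_le_log hE0 h4
    rwa [hE, Real.log_exp] at h5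
  have hlog2 : 0 < Real.log 2 := Real.log_pos (by norm_num)
  have hlog10 : 0 < Real.log 10 := Real.log_pos (by norm_num)
  have hM1 : ∀ x ∈ ball (-Ti) (2 * (‖Ti‖ / 16)), 1 ≤ ‖(cx M).eval x‖ := by
    intro x hx
    refine hN₁ x ?_
    have h3 := hx3 x hx
    have h4 := le_abs_self N₁
    rw [hN] at h3
    linarith
  refine ⟨-Ti, ‖Ti‖ / 16, Uj β (j i), by positivity, ?_, fun x hx => ⟨?_, ?_, ?_, ?_, ?_, ?_, ?_,
    ?_, ?_⟩⟩
  · intro x hx
    have e : Uj β (j i) = fun x => ∑ l, wt β l * bc β l ^ (j i + 1) * (x - bc β l)⁻¹ := by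
      funext x
      exact Uj_def β (j i) x
    rw [e]
    refine DifferentiableWithinAt.fun_sum fun l _ => ?_
    refine DifferentiableWithinAt.const_mul ?_ _
    have h3 : DifferentiableAt ℂ (fun y : ℂ => y - bc β l) x := differentiableAt_id.sub_const _
    exact (h3.inv (sub_ne_zero.2 (hxb x hx l))).differentiableWithinAt
  · refine (hUk i x hx).trans ?_
    have h3 := hx2 x hx
    have h4 : 0 < ‖x‖ := by linarith
    rw [div_le_iff₀ h4]
    have h5 := (hTk i).2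
    rw [← hTi] at h5
    have h6 : 4000 * C₁ ≤ ‖Ti‖ := by
      rw [hN] at hTiN
      linarith
    have h7 : C₁ * (‖w m‖ * B ^ (j i)) ≤ C₁ * (2 * ‖Ti‖) := mul_le_mul_of_nonneg_left h5 hC₁0
    have h8 : C₁ * (2 * ‖Ti‖) ≤ ‖Ti‖ / 4000 * (2 * ‖Ti‖) :=
      mul_le_mul_of_nonneg_right (by linarith) (by positivity)
    have h9 : ‖Ti‖ / 16 / 40 * (7 / 8 * ‖Ti‖) ≤ ‖Ti‖ / 16 / 40 * ‖x‖ :=
      mul_le_mul_of_nonneg_left h3.le (by positivity)
    have h10 : 0 < ‖Ti‖ * ‖Ti‖ := by positivity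
    linarith
  · have := hx3 x hx
    linarith
  · intro h0
    have h3 := (hDx x hx).1
    rw [h0, norm_zero] at h3
    have h4 : 0 < (‖x‖ / 2) ^ p := by
      have := hx3 x hx
      have h5 : 0 < ‖x‖ / 2 := by linarith
      positivity
    linarith
  · intro k hk h0
    have h3 := hRk k hk x hx
    have h4 := hxbig x hx
    rw [h0, norm_zero] at h3
    linarith
  · intro h0
    have h3 := hM1 x hx
    rw [h0, norm_zero] at h3
    linarith
  · rw [cx_mul, cx_prod, eval_mul, eval_prod, norm_mul, norm_prod]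
    have h3 : (1 : ℝ) ≤ ∏ k ∈ Finset.univ.erase i, ‖(cx (Rz β (j k))).eval x‖ := by
      calc (1 : ℝ) = ∏ _k ∈ Finset.univ.erase i, (1 : ℝ) := by simp
        _ ≤ _ := Finset.prod_le_prod (fun _ _ => zero_le_one) fun k hk =>
            (hxbig x hx).trans (hRk k (Finset.ne_of_mem_erase hk) x hx)
    have h4 := hM1 x hx
    have h5 : 40 / (‖Ti‖ / 16) ≤ 1 := by
      rw [div_le_one (by positivity)]
      linarith
    calc 40 / (‖Ti‖ / 16) ≤ 1 * 1 := by linarith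
      _ ≤ _ := mul_le_mul h3 h4 zero_le_one (by linarith)
  · rw [hTi]
    exact x_mul_Rz h (j i) (hxb x hx)
  · intro k hk
    have h3 := hRk k hk x hx
    have h4 : 0 < ‖x‖ := by
      have := hx3 x hx
      linarith
    have h5 : Real.log ((‖x‖ / 2) ^ p / 10) ≤ Real.log ‖(cx (Rz β (j k))).eval x‖ :=
      Real.log_le_log (by positivity) h3
    rw [Real.log_div (by positivity) (by norm_num), Real.log_pow,
      Real.log_div h4.ne' (by norm_num)] at h5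
    have h6 := hlogx x hx
    have h7 : 0 ≤ (p : ℝ) * Real.log 2 := by positivity
    linarith
  · have h3 := (hDx x hx).2
    have h4 : 0 < ‖x‖ := by
      have := hx3 x hx
      linarith
    have h4' : 0 < ‖(cx (Dz β)).eval x‖ := by
      have h5 := (hDx x hx).1
      have h6 : 0 < (‖x‖ / 2) ^ p := by positivity
      linarith
    have h5 := Real.log_le_log h4' h3
    rw [Real.log_pow, Real.log_mul (by norm_num) h4.ne'] at h5
    have h6 := hlogx x hx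
    have h7 : 0 ≤ Real.log ‖(cx M).eval x‖ := Real.log_nonneg (hM1 x hx)
    linarith

end Pool.Agent.H442
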