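import Pool.Graph.R_seed8.TH826.UH.Final
set_option autoImplicit false

/-!
The solutions `X` of `t + ∏ (X - α_i) / X = u`, `|u| < 5/2`, for separated points `α_i`: there is
exactly one in each disc `|X - α_j| < |α_j| / 5`, and it depends analytically on `u`.
-/

namespace Pool.Agent.H442

open Polynomial Metric Set Filter Topology

/-- separated points -/
structure Sp {k : ℕ} (α : Fin k → ℂ) : Prop where
  two : 2 ≤ k
  ne : ∀ i, α i ≠ 0
  bdry : ∀ (j : Fin k) (X : ℂ), ‖X - α j‖ = ‖α j‖ / 5 → 5 * ‖X‖ ≤ ∏ i, ‖X - α i‖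
  near : ∀ (i j : Fin k) (X : ℂ), i ≠ j → ‖X - α j‖ ≤ ‖α j‖ / 5 →
    max ‖α i‖ ‖α j‖ / 4 ≤ ‖X - α i‖ ∧ ‖X - α i‖ ≤ 4 * max ‖α i‖ ‖α j‖

variable {k : ℕ} {α : Fin k → ℂ} {t : ℂ}

theorem Sp.pos (H : Sp α) (i : Fin k) : 0 < ‖α i‖ := norm_pos_iff.2 (H.ne i)

theorem Sp.disjoint (H : Sp α) {i j : Fin k} {x : ℂ} (hi : ‖x - α i‖ < ‖α i‖ / 5)
    (hj : ‖x - α j‖ < ‖α j‖ / 5) : i = j := by
  by_contra hij
  have h1 := (H.near i j x hij hj.le).1
  have h2 : ‖α i‖ ≤ max ‖α i‖ ‖α j‖ := le_max_left _ _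
  have h3 := H.pos i
  linarith

theorem Sp.ne_zero (H : Sp α) {j : Fin k} {x : ℂ} (hj : ‖x - α j‖ ≤ ‖α j‖ / 5) : x ≠ 0 := by
  intro h
  rw [h, zero_sub, norm_neg] at hj
  have := H.pos j
  linarith

/-- The polynomial `∏ (X - α_i) - (u - t) X`. -/
noncomputable def Gp (α : Fin k → ℂ) (t u : ℂ) : ℂ[X] := ∏ i, (X - C (α i)) - C (u - t) * X

theorem Gp_eval (u x : ℂ) : (Gp α t u).eval x = ∏ i, (x - α i) - (u - t) * x := by
  unfold Gp
  simp only [eval_sub, eval_prod, eval_mul, eval_X, eval_C]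

theorem Gp_monic (hk : 2 ≤ k) (u : ℂ) : (Gp α t u).Monic ∧ (Gp α t u).natDegree = k := by
  have h1 : (∏ i, (X - C (α i))).Monic := monic_prod_of_monic _ _ fun i _ => monic_X_sub_C _
  have h2 : (∏ i, (X - C (α i))).natDegree = k := by
    rw [natDegree_prod_of_monic _ _ fun i _ => monic_X_sub_C _]
    simp
  have h3 : (C (u - t) * X : ℂ[X]).natDegree < (∏ i, (X - C (α i))).natDegree := by
    rw [h2]
    refine lt_of_le_of_lt (natDegree_C_mul_le _ _) ?_
    rw [natDegree_X]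
    omega
  constructor
  · unfold Gp
    refine h1.sub_of_left ?_
    rw [degree_eq_natDegree h1.ne_zero]
    by_cases h0 : (C (u - t) * X : ℂ[X]) = 0
    · rw [h0, degree_zero]
      exact WithBot.bot_lt_coe _
    · rw [degree_eq_natDegree h0]
      exact_mod_cast h3
  · unfold Gp
    rw [natDegree_sub_eq_left_of_natDegree_lt h3, h2]

/-- The rational function `t + ∏ (x - α_i) / x`. -/
noncomputable def Ph (α : Fin k → ℂ) (t x : ℂ) : ℂ := t + (∏ i, (x - α i)) / x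

theorem Ph_eq_iff {x : ℂ} (hx : x ≠ 0) (u : ℂ) : Ph α t x = u ↔ (Gp α t u).eval x = 0 := by
  rw [Gp_eval]
  unfold Ph
  constructor
  · intro h
    rw [← h]
    field_simp
    ring
  · intro h
    field_simp
    linear_combination h

theorem Ph_analytic {x : ℂ} (hx : x ≠ 0) : AnalyticAt ℂ (Ph α t) x := by
  unfold Ph
  refine analyticAt_const.add (AnalyticAt.div ?_ analyticAt_id hx)
  exact Finset.analyticAt_fun_prod _ fun i _ => analyticAt_id.sub analyticAt_const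

theorem Ph_hasDerivAt {x : ℂ} (hx : x ≠ 0) {u : ℂ} (h : (Gp α t u).eval x = 0) :
    HasDerivAt (Ph α t) ((derivative (Gp α t u)).eval x / x) x := by
  have h1 : HasDerivAt (fun y => (Gp α t u).eval y) ((derivative (Gp α t u)).eval x) x :=
    Polynomial.hasDerivAt _ _
  have h2 : HasDerivAt (fun y => (Gp α t u).eval y / y)
      (((derivative (Gp α t u)).eval x * x - (Gp α t u).eval x * 1) / x ^ 2) x :=
    h1.div (hasDerivAt_id x) hx
  rw [h, zero_mul, sub_zero] at h2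
  have h3 : HasDerivAt (fun y => (Gp α t u).eval y / y + u)
      ((derivative (Gp α t u)).eval x / x) x := by
    refine (h2.add_const u).congr_deriv ?_
    field_simp
  refine h3.congr_of_eventuallyEq ?_
  filter_upwards [isOpen_ne.mem_nhds hx] with y hy
  rw [Gp_eval]
  unfold Ph
  have hy' : y ≠ 0 := hy
  field_simp
  ring

theorem Sp.exists_root (H : Sp α) (ht : ‖t‖ ≤ 2) (j : Fin k) {u : ℂ} (hu : ‖u‖ < 5 / 2) :
    ∃ x : ℂ, ‖x - α j‖ < ‖α j‖ / 5 ∧ (Gp α t u).eval x = 0 := by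
  set ρ : ℝ := ‖α j‖ / 5 with hρ
  have hρ0 : 0 < ρ := by have := H.pos j; positivity
  have hne : ∀ x ∈ closedBall (α j) ρ, x ≠ 0 := fun x hx =>
    H.ne_zero (j := j) (mem_closedBall_iff_norm.1 hx)
  have hconn : IsPreconnected (ball (0 : ℂ) (5 / 2)) := (convex_ball _ _).isPreconnected
  set A : Set ℂ := Ph α t '' ball (α j) ρ with hA
  have hAopen : IsOpen A := by
    have h1 : AnalyticOnNhd ℂ (Ph α t) (ball (α j) ρ) := fun x hx =>
      Ph_analytic (hne x (ball_subset_closedBall hx))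
    rcases h1.is_constant_or_isOpen (convex_ball _ _).isPreconnected with ⟨w, hw⟩ | h2
    · exfalso
      have h3 : Gp α t w = 0 := by
        refine Polynomial.eq_zero_of_infinite_isRoot _ (Set.Infinite.mono (s := ball (α j) ρ) ?_ ?_)
        · intro x hx
          exact (Ph_eq_iff (hne x (ball_subset_closedBall hx)) w).1 (hw x hx)
        · exact infinite_of_mem_nhds (α j) (ball_mem_nhds _ hρ0)
      exact (Gp_monic H.two w).1.ne_zero h3
    · exact h2 _ subset_rfl isOpen_ball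
  have hcont : ContinuousOn (Ph α t) (closedBall (α j) ρ) := fun x hx =>
    (Ph_analytic (hne x hx)).continuousAt.continuousWithinAt
  set B : Set ℂ := (Ph α t '' closedBall (α j) ρ)ᶜ with hB
  have hBopen : IsOpen B :=
    (((isCompact_closedBall (α j) ρ).image_of_continuousOn hcont).isClosed).isOpen_compl
  have hbig : ∀ x, ‖x - α j‖ = ρ → 3 ≤ ‖Ph α t x‖ := by
    intro x hx
    have hx0 : x ≠ 0 := hne x (mem_closedBall_iff_norm.2 hx.le)
    have h1 := H.bdry j x hx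
    have h2 : 5 ≤ ‖(∏ i, (x - α i)) / x‖ := by
      rw [norm_div, norm_prod, le_div_iff₀ (norm_pos_iff.2 hx0)]
      exact h1
    have h3 := norm_sub_norm_le ((∏ i, (x - α i)) / x) (-t)
    rw [norm_neg, sub_neg_eq_add, add_comm _ t] at h3
    have h4 : ‖Ph α t x‖ = ‖t + (∏ i, (x - α i)) / x‖ := rfl
    linarith
  have hcover : ball (0 : ℂ) (5 / 2) ⊆ A ∪ B := by
    intro w hw
    by_cases h : w ∈ A
    · exact Or.inl h
    · refine Or.inr fun h2 => h ?_
      obtain ⟨x, hx, hxw⟩ := h2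
      refine ⟨x, ?_, hxw⟩
      rw [mem_closedBall_iff_norm] at hx
      rw [mem_ball_iff_norm]
      refine lt_of_le_of_ne hx fun he => ?_
      have h4 := hbig x he
      rw [hxw] at h4
      rw [mem_ball_zero_iff] at hw
      linarith
  have hα : Ph α t (α j) = t := by
    unfold Ph
    rw [Finset.prod_eq_zero (Finset.mem_univ j) (sub_self _), zero_div, add_zero]
  have hbj : t ∈ A := ⟨α j, mem_ball_self hρ0, hα⟩
  by_contra hno
  push Not at hno
  have hu2 : u ∈ B := by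
    rcases hcover (mem_ball_zero_iff.2 hu) with h | h
    · obtain ⟨x, hx, hxu⟩ := h
      exact absurd ((Ph_eq_iff (hne x (ball_subset_closedBall hx)) u).1 hxu)
        (hno x (mem_ball_iff_norm.1 hx))
    · exact h
  obtain ⟨w, hw1, hw2, hw3⟩ := hconn A B hAopen hBopen hcover
    ⟨t, mem_ball_zero_iff.2 (by linarith), hbj⟩ ⟨u, mem_ball_zero_iff.2 hu, hu2⟩
  obtain ⟨x, hx, hxw⟩ := hw2
  exact hw3 ⟨x, ball_subset_closedBall hx, hxw⟩

/-- The branches of the inverse function. -/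
theorem Sp.exists_branches (H : Sp α) (ht : ‖t‖ ≤ 2) : ∃ x : Fin k → ℂ → ℂ,
    (∀ j, ∀ u ∈ ball (0 : ℂ) (5 / 2), AnalyticAt ℂ (x j) u) ∧
    (∀ j, ∀ u ∈ ball (0 : ℂ) (5 / 2), ‖x j u - α j‖ < ‖α j‖ / 5) ∧
    (∀ u ∈ ball (0 : ℂ) (5 / 2), Gp α t u = ∏ j, (X - C (x j u))) := by
  have hex : ∀ (j : Fin k) (u : ℂ), ∃ y : ℂ, ‖u‖ < 5 / 2 →
      ‖y - α j‖ < ‖α j‖ / 5 ∧ (Gp α t u).eval y = 0 := by
    intro j u
    by_cases hu : ‖u‖ < 5 / 2
    · obtain ⟨y, hy⟩ := H.exists_root ht j hu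
      exact ⟨y, fun _ => hy⟩
    · exact ⟨0, fun h => absurd h hu⟩
  choose x hx using hex
  have hinj : ∀ u ∈ ball (0 : ℂ) (5 / 2), Function.Injective fun j => x j u := by
    intro u hu i j hij
    have hij' : x i u = x j u := hij
    have h1 := (hx i u (mem_ball_zero_iff.1 hu)).1
    have h2 := (hx j u (mem_ball_zero_iff.1 hu)).1
    rw [hij'] at h1
    exact H.disjoint h1 h2
  have hprod : ∀ u ∈ ball (0 : ℂ) (5 / 2), Gp α t u = ∏ j, (X - C (x j u)) := by
    intro u hu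
    obtain ⟨h1, h2⟩ := Gp_monic (α := α) (t := t) H.two u
    exact Pool.Agent.TH826.UH.eq_prod h1 h2 (hinj u hu) fun i =>
      (hx i u (mem_ball_zero_iff.1 hu)).2
  refine ⟨x, fun j u hu => ?_, fun j u hu => (hx j u (mem_ball_zero_iff.1 hu)).1, hprod⟩
  obtain ⟨hxj, hxr⟩ := hx j u (mem_ball_zero_iff.1 hu)
  have hx0 : x j u ≠ 0 := H.ne_zero hxj.le
  have hF : AnalyticAt ℂ (Ph α t) (x j u) := Ph_analytic hx0
  have hF' : deriv (Ph α t) (x j u) ≠ 0 := by
    rw [(Ph_hasDerivAt hx0 hxr).deriv]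
    refine div_ne_zero ?_ hx0
    rw [hprod u hu]
    exact Pool.Agent.TH826.UH.deriv_prod_ne_zero (hinj u hu) j
  have hval : Ph α t (x j u) = u := (Ph_eq_iff hx0 u).2 hxr
  have hinv := hF.analyticAt_localInverse hF'
  have hright := hF.hasStrictDerivAt.eventually_right_inverse hF'
  set ψ := hF.hasStrictDerivAt.localInverse _ _ _ hF' with hψ
  have hψ0 : ψ (Ph α t (x j u)) = x j u := HasStrictFDerivAt.localInverse_apply_image ..
  rw [hval] at hinv hright hψ0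
  have hnear : ∀ᶠ w in 𝓝 u, ‖ψ w - α j‖ < ‖α j‖ / 5 := by
    have h1 : ContinuousAt (fun w => ‖ψ w - α j‖) u :=
      (hinv.continuousAt.sub continuousAt_const).norm
    refine h1.eventually_lt continuousAt_const ?_
    rw [hψ0]
    exact hxj
  have hball : ∀ᶠ w in 𝓝 u, w ∈ ball (0 : ℂ) (5 / 2) := isOpen_ball.mem_nhds hu
  refine hinv.congr ?_
  filter_upwards [hright, hnear, hball] with w h1 h2 h3
  have h4 : (Gp α t w).eval (ψ w) = 0 := (Ph_eq_iff (H.ne_zero h2.le) w).1 h1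
  rw [hprod w h3, eval_prod] at h4
  obtain ⟨i, -, hi⟩ := Finset.prod_eq_zero_iff.1 h4
  rw [eval_sub, eval_X, eval_C, sub_eq_zero] at hi
  have h5 := (hx i w (mem_ball_zero_iff.1 h3)).1
  rw [← hi] at h5
  have h6 := H.disjoint h5 h2
  rw [hi, h6]

/-- A criterion: `|α_i| ≥ 1`, `|α_i - α_j| ≥ max (|α_i|, |α_j|) / 2` for `i ≠ j`, and one of the
`|α_i|` is at least `2^(8 k²)`. -/
theorem Sp.mk' {k : ℕ} {α : Fin k → ℂ} (hk : 2 ≤ k) (h1 : ∀ i, 1 ≤ ‖α i‖)
    (h2 : ∀ i j, i ≠ j → max ‖α i‖ ‖α j‖ ≤ 2 * ‖α i - α j‖) {m : Fin k}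
    (hm : (2 : ℝ) ^ (8 * k ^ 2) ≤ ‖α m‖) : Sp α := by
  have hpos : ∀ i, 0 < ‖α i‖ := fun i => one_pos.trans_le (h1 i)
  have hnear : ∀ (i j : Fin k) (X : ℂ), i ≠ j → ‖X - α j‖ ≤ ‖α j‖ / 5 →
      max ‖α i‖ ‖α j‖ / 4 ≤ ‖X - α i‖ ∧ ‖X - α i‖ ≤ 4 * max ‖α i‖ ‖α j‖ := by
    intro i j X hij hX
    have e1 : ‖α i - α j‖ ≤ ‖X - α j‖ + ‖X - α i‖ := by
      have : α i - α j = (X - α j) - (X - α i) := by ring
      rw [this]
      exact norm_sub_le _ _
    have e2 : ‖X - α i‖ ≤ ‖X - α j‖ + (‖α j‖ + ‖α i‖) := by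
      have : X - α i = (X - α j) + (α j - α i) := by ring
      rw [this]
      exact (norm_add_le _ _).trans (by linarith [norm_sub_le (α j) (α i)])
    have e3 := h2 i j hij
    have e4 : ‖α i‖ ≤ max ‖α i‖ ‖α j‖ := le_max_left _ _
    have e5 : ‖α j‖ ≤ max ‖α i‖ ‖α j‖ := le_max_right _ _
    have e6 := hpos i
    constructor <;> linarith
  refine ⟨hk, fun i => norm_pos_iff.1 (hpos i), fun j X hX => ?_, hnear⟩
  have hXn : ‖X‖ ≤ 6 / 5 * ‖α j‖ := by
    have : X = (X - α j) + α j := by ring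
    rw [this]
    exact (norm_add_le _ _).trans (by rw [hX]; linarith)
  rw [← Finset.mul_prod_erase _ _ (Finset.mem_univ j), hX]
  have hlow : ∏ i ∈ Finset.univ.erase j, (max ‖α i‖ ‖α j‖ / 4) ≤
      ∏ i ∈ Finset.univ.erase j, ‖X - α i‖ := by
    refine Finset.prod_le_prod (fun i _ => ?_) fun i hi => ?_
    · have := (hpos i).le.trans (le_max_left ‖α i‖ ‖α j‖)
      positivity
    · exact (hnear i j X (Finset.ne_of_mem_erase hi) hX.le).1
  have hcard : (Finset.univ.erase j).card = k - 1 := by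
    rw [Finset.card_erase_of_mem (Finset.mem_univ _), Finset.card_univ, Fintype.card_fin]
  have hmax1 : ∀ i, 1 ≤ max ‖α i‖ ‖α j‖ := fun i => (h1 i).trans (le_max_left _ _)
  have hprod : (2 : ℝ) ^ (8 * k ^ 2) ≤ ∏ i ∈ Finset.univ.erase j, max ‖α i‖ ‖α j‖ := by
    by_cases hjm : j = m
    · subst hjm
      have hex : ∃ i : Fin k, i ≠ j := by
        have : Nontrivial (Fin k) := Fin.nontrivial_iff_two_le.2 hk
        exact exists_ne j
      obtain ⟨i, hi⟩ := hex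
      rw [← Finset.mul_prod_erase _ _ (Finset.mem_erase.2 ⟨hi, Finset.mem_univ i⟩)]
      calc (2 : ℝ) ^ (8 * k ^ 2) ≤ max ‖α i‖ ‖α j‖ * 1 := by
            rw [mul_one]; exact hm.trans (le_max_right _ _)
        _ ≤ _ := by
            refine mul_le_mul_of_nonneg_left ?_ (zero_le_one.trans (hmax1 i))
            refine le_trans (le_of_eq ?_) (Finset.prod_le_prod (f := fun _ => (1 : ℝ))
              (fun i _ => zero_le_one) fun i _ => hmax1 i)
            rw [Finset.prod_const_one]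
    · rw [← Finset.mul_prod_erase _ _ (Finset.mem_erase.2 ⟨Ne.symm hjm, Finset.mem_univ m⟩)]
      calc (2 : ℝ) ^ (8 * k ^ 2) ≤ max ‖α m‖ ‖α j‖ * 1 := by
            rw [mul_one]; exact hm.trans (le_max_left _ _)
        _ ≤ _ := by
            refine mul_le_mul_of_nonneg_left ?_ (zero_le_one.trans (hmax1 m))
            refine le_trans (le_of_eq ?_) (Finset.prod_le_prod (f := fun _ => (1 : ℝ))
              (fun i _ => zero_le_one) fun i _ => hmax1 i)
            rw [Finset.prod_const_one]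
  have h30 : (30 : ℝ) ≤ ∏ i ∈ Finset.univ.erase j, (max ‖α i‖ ‖α j‖ / 4) := by
    rw [Finset.prod_div_distrib, Finset.prod_const, hcard, le_div_iff₀ (by positivity)]
    refine le_trans ?_ hprod
    calc (30 : ℝ) * 4 ^ (k - 1) ≤ 2 ^ 5 * 4 ^ (k - 1) := by
          refine mul_le_mul_of_nonneg_right (by norm_num) (by positivity)
      _ = 2 ^ (5 + 2 * (k - 1)) := by
          rw [pow_add, pow_mul]; norm_num
      _ ≤ 2 ^ (8 * k ^ 2) := by
          refine pow_le_pow_right₀ (by norm_num) ?_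
          have : 2 * k ≤ k ^ 2 := by nlinarith
          omega
  have h6 : 0 ≤ ‖α j‖ / 5 := by have := hpos j; positivity
  calc 5 * ‖X‖ ≤ ‖α j‖ / 5 * 30 := by linarith
    _ ≤ ‖α j‖ / 5 * ∏ i ∈ Finset.univ.erase j, ‖X - α i‖ :=
        mul_le_mul_of_nonneg_left (h30.trans hlow) h6

theorem eval_branches {x : Fin k → ℂ} {u : ℂ} (h : Gp α t u = ∏ j, (X - C (x j))) (y : ℂ) :
    ∏ i, (y - α i) - (u - t) * y = ∏ j, (y - x j) := by
  rw [← Gp_eval, h]
  simp only [eval_prod, eval_sub, eval_X, eval_C]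

end Pool.Agent.H442
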