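import Pool.Agent.H442.Fam
set_option autoImplicit false

/-!
The classes `{z, ∏ (X - α_i)^{n_i}}` in `K_2` of the function field of the curve `y² = f(x)` and
their regulators.
-/

namespace Pool.Agent.H442

open Polynomial

open scoped WithZero

open Pool.Agent.TH826.MK (Torus KQ symb pairing circ norm_circ contDiff_circ circ_add_one
  Unramified unitPart val_le_one_of_integral)

open Pool.Agent.TH826.UH

open Pool.Agent.Helper537_Sym (sy)

section trans

theorem transcendental_of_norm {R : ℝ} (hR : Transcendental ℚ R) {z : ℂ} (hz : ‖z‖ = R) :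
    Transcendental ℚ z := by
  intro h
  apply hR
  have h1 : IsIntegral ℚ z := h.isIntegral
  have h2 : IsIntegral ℚ (starRingEnd ℂ z) :=
    h1.map ((Complex.conjAe : ℂ →ₐ[ℝ] ℂ).restrictScalars ℚ)
  have h3 : IsIntegral ℚ ((R : ℂ) ^ 2) := by
    have h4 := h1.mul h2
    rw [Complex.mul_conj, Complex.normSq_eq_norm_sq, hz] at h4
    exact_mod_cast h4
  have h4 : IsIntegral ℚ (R : ℂ) := IsIntegral.of_pow (by norm_num) h3
  have h5 : IsIntegral ℚ (algebraMap ℝ ℂ R) := h4
  exact (isIntegral_algebraMap_iff (algebraMap ℝ ℂ).injective).1 h5 |>.isAlgebraic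

/-- the field of the algebraic numbers -/
noncomputable abbrev EE : IntermediateField ℚ ℂ := algebraicClosure ℚ ℂ

theorem not_mem_EE {z : ℂ} : z ∉ EE ↔ Transcendental ℚ z := by
  rw [Transcendental, mem_algebraicClosure_iff]

theorem quad_mem_EE {b z : ℂ} (hb : b ∈ EE) (h : z ^ 2 - b * z + 1 = 0) : z ∈ EE := by
  have h5 : IsIntegral EE z := by
    refine ⟨X ^ 2 - C (⟨b, hb⟩ : EE) * X + 1, ?_, ?_⟩
    · monicity!
    · simp only [eval₂_add, eval₂_sub, eval₂_mul, eval₂_X, eval₂_C, eval₂_one, eval₂_X_pow]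
      exact h
  rw [mem_algebraicClosure_iff]
  have : Algebra.IsAlgebraic ℚ EE := algebraicClosure.isAlgebraic ℚ ℂ
  exact h5.isAlgebraic.restrictScalars ℚ

theorem map_mem_EE {K : Type*} [Field K] [Algebra ℚ K] [Algebra.IsAlgebraic ℚ K] (σ : K →+* ℂ)
    (a : K) : σ a ∈ EE := by
  rw [mem_algebraicClosure_iff]
  have h1 : IsAlgebraic ℚ a := Algebra.IsAlgebraic.isAlgebraic a
  have h2 : IsIntegral ℚ (σ.toRatAlgHom a) := h1.isIntegral.map σ.toRatAlgHom
  exact h2.isAlgebraic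

end trans

theorem of_injective {K : Type*} [Field K] (f : K[X]) :
    Function.Injective (AdjoinRoot.of (X ^ 2 - C f : K[X][X])) := by
  rw [injective_iff_map_eq_zero]
  intro p hp
  rw [← AdjoinRoot.mk_C, AdjoinRoot.mk_eq_zero] at hp
  by_contra hne
  have hm : (X ^ 2 - C f : K[X][X]).Monic := monic_X_pow_sub_C f two_ne_zero
  have h2 : (X ^ 2 - C f : K[X][X]).natDegree = 2 := natDegree_X_pow_sub_C
  refine hm.not_dvd_of_natDegree_lt (C_ne_zero.2 hne) ?_ hp
  rw [h2, natDegree_C]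
  norm_num

section classes

variable {K : Type*} [Field K] {k : ℕ} {t : ℤ} {α : Fin k → K} {m : Fin 4 → K}
  (L : Type*) [Field L] [Algebra (HRing (fam t α m)) L] [IsFractionRing (HRing (fam t α m)) L]

/-- The embedding of the polynomials into the function field. -/
noncomputable def phi : K[X] →+* L :=
  (algebraMap (HRing (fam t α m)) L).comp (AdjoinRoot.of _)

theorem phi_injective : Function.Injective (phi (t := t) (α := α) (m := m) L) :=
  (IsFractionRing.injective (HRing (fam t α m)) L).comp (of_injective _)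

variable {L}

theorem phi_ne_zero {p : K[X]} (hp : p ≠ 0) : phi (t := t) (α := α) (m := m) L p ≠ 0 := by
  intro h
  exact hp (phi_injective L (by rw [h, map_zero]))

variable (L)

/-- the function `X = (m_0 x + m_1) / (m_2 x + m_3)` -/
noncomputable def fX : L := phi (t := t) (α := α) (m := m) L (lin (m 0) (m 1)) /
  phi (t := t) (α := α) (m := m) L (lin (m 2) (m 3))

/-- the function `Y = y / (m_2 x + m_3)^k` -/
noncomputable def fY : L := algebraMap (HRing (fam t α m)) L (AdjoinRoot.root _) /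
  phi (t := t) (α := α) (m := m) L (lin (m 2) (m 3)) ^ k

/-- the constants `α_i` -/
noncomputable def fa (i : Fin k) : L := phi (t := t) (α := α) (m := m) L (C (α i))

/-- the function `z = (t X + ∏ (X - α_i) + Y) / (2 X)` -/
noncomputable def fz : L := (t * fX (t := t) (α := α) (m := m) L +
  ∏ i, (fX (t := t) (α := α) (m := m) L - fa (t := t) (α := α) (m := m) L i) +
  fY (t := t) (α := α) (m := m) L) / (2 * fX (t := t) (α := α) (m := m) L)

variable {L} (hm : m 0 * m 3 - m 1 * m 2 ≠ 0)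

include hm

theorem fX_ne_zero : fX (t := t) (α := α) (m := m) L ≠ 0 :=
  div_ne_zero (phi_ne_zero (lin_ne_zero hm)) (phi_ne_zero (lin_ne_zero' hm))

theorem fX_sub_ne_zero (i : Fin k) :
    fX (t := t) (α := α) (m := m) L - fa (t := t) (α := α) (m := m) L i ≠ 0 := by
  unfold fX fa
  have h2 := phi_ne_zero (t := t) (α := α) (m := m) (L := L) (lin_ne_zero' hm)
  have h1 := phi_ne_zero (t := t) (α := α) (m := m) (L := L) (lin_sub_ne_zero hm (α i))
  rw [map_sub, map_mul] at h1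
  intro h
  apply h1
  field_simp at h
  linear_combination h

theorem fY_sq (hk : 1 ≤ k) : fY (t := t) (α := α) (m := m) L ^ 2 =
    (t * fX (t := t) (α := α) (m := m) L + ∏ i, (fX (t := t) (α := α) (m := m) L -
      fa (t := t) (α := α) (m := m) L i)) ^ 2 - 4 * fX (t := t) (α := α) (m := m) L ^ 2 := by
  have h2 := phi_ne_zero (t := t) (α := α) (m := m) (L := L) (lin_ne_zero' hm)
  have hroot : algebraMap (HRing (fam t α m)) L (AdjoinRoot.root _) ^ 2 =
      phi (t := t) (α := α) (m := m) L (fam t α m) := by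
    rw [← map_pow, root_sq]
    rfl
  have hprod : ∏ i, (fX (t := t) (α := α) (m := m) L - fa (t := t) (α := α) (m := m) L i) =
      phi (t := t) (α := α) (m := m) L (∏ i, (lin (m 0) (m 1) - C (α i) * lin (m 2) (m 3))) /
        phi (t := t) (α := α) (m := m) L (lin (m 2) (m 3)) ^ k := by
    rw [map_prod]
    have e : ∀ i, fX (t := t) (α := α) (m := m) L - fa (t := t) (α := α) (m := m) L i =
        phi (t := t) (α := α) (m := m) L (lin (m 0) (m 1) - C (α i) * lin (m 2) (m 3)) /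
          phi (t := t) (α := α) (m := m) L (lin (m 2) (m 3)) := by
      intro i
      unfold fX fa
      rw [map_sub, map_mul]
      field_simp
    simp only [e, Finset.prod_div_distrib, Finset.prod_const, Finset.card_univ,
      Fintype.card_fin]
  unfold fY
  rw [div_pow, hroot, hprod]
  unfold fX fam Ufam
  simp only [map_sub, map_pow, map_add, map_mul, map_intCast, map_ofNat]
  set P := phi (t := t) (α := α) (m := m) L
    (∏ i, (lin (m 0) (m 1) - C (α i) * lin (m 2) (m 3)))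
  set a := phi (t := t) (α := α) (m := m) L (lin (m 0) (m 1))
  set b := phi (t := t) (α := α) (m := m) L (lin (m 2) (m 3))
  have hbk : b ^ k = b ^ (k - 1) * b := by rw [← pow_succ]; congr 1; omega
  rw [hbk]
  field_simp
  ring

variable [CharZero K]

theorem fz_eq (hk : 1 ≤ k) : fX (t := t) (α := α) (m := m) L *
    (fz (t := t) (α := α) (m := m) L ^ 2 + 1) =
    (t * fX (t := t) (α := α) (m := m) L + ∏ i, (fX (t := t) (α := α) (m := m) L -
      fa (t := t) (α := α) (m := m) L i)) * fz (t := t) (α := α) (m := m) L := by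
  have h0 := fX_ne_zero (L := L) (t := t) (α := α) hm
  have h1 := fY_sq (L := L) (t := t) (α := α) hm hk
  have h2 : (2 : L) ≠ 0 := by
    have h3 := phi_ne_zero (t := t) (α := α) (m := m) (L := L) (p := C 2)
      (C_ne_zero.2 two_ne_zero)
    rwa [C_ofNat, map_ofNat] at h3
  unfold fz
  field_simp
  linear_combination h1

theorem fz_ne_zero (hk : 1 ≤ k) : fz (t := t) (α := α) (m := m) L ≠ 0 := by
  intro h
  have h1 := fz_eq (L := L) (t := t) (α := α) hm hk
  rw [h] at h1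
  apply fX_ne_zero (L := L) (t := t) (α := α) hm
  linear_combination h1

/-- The classes are unramified. -/
theorem cls_unramified (ht : |t| ≤ 2) (hk : 2 ≤ k) (hα : ∀ i, IsIntegral ℤ (α i))
    (hα0 : ∀ i, α i ≠ 0) (n : Fin k → ℤ) {M : ℕ} (hM : M ≠ 0) (hn : (∏ i, α i ^ n i) ^ M = 1) :
    sy (Units.mk0 _ (fz_ne_zero (L := L) (t := t) (α := α) hm (one_le_two.trans hk)))
      (∏ i, (Units.mk0 _ (fX_sub_ne_zero (L := L) (t := t) (α := α) hm i)) ^ n i) ∈
        Unramified L 2 := by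
  unfold Unramified
  simp only [Submodule.mem_iInf]
  intro v _
  refine mem_unitPart (X := Units.mk0 _ (fX_ne_zero (L := L) (t := t) (α := α) hm))
    (α := fa (t := t) (α := α) (m := m) L) ht hk ?_ (fun i => ?_) (fun i => ?_) _ (fun i => rfl)
    n hM ?_
  · exact ⟨fz_eq hm (one_le_two.trans hk)⟩
  · refine val_le_one_of_integral v ?_
    have h1 := map_isIntegral_int ((phi (t := t) (α := α) (m := m) L).comp C) (hα i)
    exact h1
  · exact phi_ne_zero (C_ne_zero.2 (hα0 i))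
  · have h1 := congrArg ((phi (t := t) (α := α) (m := m) L).comp C) hn
    simp only [map_pow, map_prod, map_zpow₀, map_one] at h1
    exact h1

end classes

section loops

variable {K : Type*} [Field K] [Algebra ℚ K] [Algebra.IsAlgebraic ℚ K] {k : ℕ} {t : ℤ}
  {α : Fin k → K} {m : Fin 4 → K} {σ : K →+* ℂ} {R : ℝ} {Xs : Fin k → ℝ → ℂ}

theorem Lp.tr (H : Lp (fun i => σ (α i)) t R Xs) (hR : Transcendental ℚ R) (j : Fin k) (s : ℝ) :
    Xs j s ∉ EE := by
  intro h
  have hR0 : 0 < R := one_pos.trans H.R1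
  have hz : circ R s ∉ EE := not_mem_EE.2 (transcendental_of_norm hR (norm_circ hR0.le s))
  apply hz
  refine quad_mem_EE (b := t + (∏ i, (Xs j s - σ (α i))) / Xs j s) ?_ ?_
  · exact add_mem (intCast_mem _ t) (div_mem (prod_mem fun i _ => sub_mem h (map_mem_EE σ _)) h)
  · have h1 := H.eq j s
    have h2 := H.ne0 j s
    field_simp
    linear_combination h1

theorem Lp.den (H : Lp (fun i => σ (α i)) t R Xs) (hR : Transcendental ℚ R)
    (hm : m 0 * m 3 - m 1 * m 2 ≠ 0) (j : Fin k) (s : ℝ) :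
    σ (m 0) - σ (m 2) * Xs j s ≠ 0 := by
  intro h
  have h1 := H.tr hR j s
  by_cases h2 : m 2 = 0
  · rw [h2, map_zero, zero_mul, sub_zero, map_eq_zero] at h
    rw [h2, h] at hm
    simp at hm
  · apply h1
    have h3 : σ (m 2) ≠ 0 := (map_ne_zero σ).2 h2
    have h4 : Xs j s = σ (m 0) / σ (m 2) := by
      field_simp
      linear_combination -h
    rw [h4]
    exact div_mem (map_mem_EE σ _) (map_mem_EE σ _)

/-- the function `Y` on the loops -/
noncomputable def Yl (σ : K →+* ℂ) (α : Fin k → K) (t : ℤ) (R : ℝ) (Xs : Fin k → ℝ → ℂ)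
    (j : Fin k) (s : ℝ) : ℂ :=
  2 * Xs j s * circ R s - (t * Xs j s + ∏ i, (Xs j s - σ (α i)))

/-- the function `x` on the loops -/
noncomputable def xl (σ : K →+* ℂ) (m : Fin 4 → K) (Xs : Fin k → ℝ → ℂ) (j : Fin k) (s : ℝ) : ℂ :=
  (σ (m 3) * Xs j s - σ (m 1)) / (σ (m 0) - σ (m 2) * Xs j s)

/-- the function `y` on the loops -/
noncomputable def yl (σ : K →+* ℂ) (α : Fin k → K) (m : Fin 4 → K) (t : ℤ) (R : ℝ)
    (Xs : Fin k → ℝ → ℂ) (j : Fin k) (s : ℝ) : ℂ :=
  (σ (m 0 * m 3 - m 1 * m 2) / (σ (m 0) - σ (m 2) * Xs j s)) ^ k * Yl σ α t R Xs j s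

theorem Lp.Yl_sq (H : Lp (fun i => σ (α i)) t R Xs) (j : Fin k) (s : ℝ) :
    Yl σ α t R Xs j s ^ 2 = (t * Xs j s + ∏ i, (Xs j s - σ (α i))) ^ 2 - 4 * (Xs j s) ^ 2 := by
  have h1 := H.eq j s
  unfold Yl
  linear_combination (4 * Xs j s) * h1

theorem Lp.lin1 (H : Lp (fun i => σ (α i)) t R Xs) (hR : Transcendental ℚ R)
    (hm : m 0 * m 3 - m 1 * m 2 ≠ 0) (j : Fin k) (s : ℝ) :
    (lin (m 0) (m 1)).eval₂ σ (xl σ m Xs j s) =
      σ (m 0 * m 3 - m 1 * m 2) / (σ (m 0) - σ (m 2) * Xs j s) * Xs j s := by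
  have h1 := H.den hR hm j s
  rw [lin_eval₂]
  unfold xl
  rw [map_sub, map_mul, map_mul]
  set d := σ (m 0) - σ (m 2) * Xs j s with hd
  have e : σ (m 0) = d + σ (m 2) * Xs j s := by rw [hd]; ring
  rw [e]
  field_simp
  ring

theorem Lp.lin2 (H : Lp (fun i => σ (α i)) t R Xs) (hR : Transcendental ℚ R)
    (hm : m 0 * m 3 - m 1 * m 2 ≠ 0) (j : Fin k) (s : ℝ) :
    (lin (m 2) (m 3)).eval₂ σ (xl σ m Xs j s) =
      σ (m 0 * m 3 - m 1 * m 2) / (σ (m 0) - σ (m 2) * Xs j s) := by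
  have h1 := H.den hR hm j s
  rw [lin_eval₂]
  unfold xl
  rw [map_sub, map_mul, map_mul]
  set d := σ (m 0) - σ (m 2) * Xs j s with hd
  have e : σ (m 0) = d + σ (m 2) * Xs j s := by rw [hd]; ring
  rw [e]
  field_simp
  ring

theorem Lp.curve (H : Lp (fun i => σ (α i)) t R Xs) (hR : Transcendental ℚ R)
    (hm : m 0 * m 3 - m 1 * m 2 ≠ 0) (hk : 1 ≤ k) (j : Fin k) (s : ℝ) :
    yl σ α m t R Xs j s ^ 2 = (fam t α m).eval₂ σ (xl σ m Xs j s) := by
  have h1 := H.lin1 hR hm j s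
  have h2 := H.lin2 hR hm j s
  have h3 := H.Yl_sq j s
  have ht : eval₂ σ (xl σ m Xs j s) (t : K[X]) = t := map_intCast (eval₂RingHom σ _) t
  unfold fam Ufam yl
  set q := σ (m 0 * m 3 - m 1 * m 2) / (σ (m 0) - σ (m 2) * Xs j s) with hq
  have e : ∏ i, (q * Xs j s - σ (α i) * q) = q ^ k * ∏ i, (Xs j s - σ (α i)) := by
    have : ∀ i, q * Xs j s - σ (α i) * q = q * (Xs j s - σ (α i)) := fun i => by ring
    simp only [this, Finset.prod_mul_distrib, Finset.prod_const, Finset.card_univ,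
      Fintype.card_fin]
  simp only [eval₂_sub, eval₂_pow, eval₂_add, eval₂_mul, eval₂_finsetProd, eval₂_C,
    eval₂_ofNat, ht, h1, h2, e]
  rw [mul_pow, h3]
  have hqk : q ^ k = q ^ (k - 1) * q := by rw [← pow_succ]; congr 1; omega
  rw [hqk]
  ring

theorem Lp.xl_tr (H : Lp (fun i => σ (α i)) t R Xs) (hR : Transcendental ℚ R)
    (hm : m 0 * m 3 - m 1 * m 2 ≠ 0) (j : Fin k) (s : ℝ) : TrOver σ (xl σ m Xs j s) := by
  refine TrOver.of_rat σ (not_mem_EE.1 fun h => H.tr hR j s ?_)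
  have h1 := H.lin1 hR hm j s
  have h2 := H.lin2 hR hm j s
  have h3 : σ (m 0 * m 3 - m 1 * m 2) / (σ (m 0) - σ (m 2) * Xs j s) ≠ 0 :=
    div_ne_zero ((map_ne_zero σ).2 hm) (H.den hR hm j s)
  have h4 : Xs j s = (lin (m 0) (m 1)).eval₂ σ (xl σ m Xs j s) /
      (lin (m 2) (m 3)).eval₂ σ (xl σ m Xs j s) := by
    rw [h1, h2, mul_div_cancel_left₀ _ h3]
  rw [h4, lin_eval₂, lin_eval₂]
  exact div_mem (add_mem (mul_mem (map_mem_EE σ _) h) (map_mem_EE σ _))
    (add_mem (mul_mem (map_mem_EE σ _) h) (map_mem_EE σ _))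

theorem Lp.exists_tori (H : Lp (fun i => σ (α i)) t R Xs) (hR : Transcendental ℚ R)
    (hm : m 0 * m 3 - m 1 * m 2 ≠ 0) (hk : 1 ≤ k) (hf : Squarefree (fam t α m))
    (hd : 0 < (fam t α m).natDegree) (L : Type*) [Field L] [Algebra (HRing (fam t α m)) L]
    [IsFractionRing (HRing (fam t α m)) L] :
    ∃ Γ : Fin k → Torus L 1, ∀ j θ, (Γ j).e θ (fX (t := t) (α := α) (m := m) L) = Xs j (θ 0) ∧
      (Γ j).e θ (fz (t := t) (α := α) (m := m) L) = circ R (θ 0) ∧
      ∀ i, (Γ j).e θ (fa (t := t) (α := α) (m := m) L i) = σ (α i) := by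
  have hden := fun j s => H.den hR hm j s
  have hinv : ∀ j, ContDiff ℝ 2 fun s => (σ (m 0) - σ (m 2) * Xs j s)⁻¹ := fun j =>
    (contDiff_const.sub (contDiff_const.mul (H.smooth j))).inv (hden j)
  have hxc : ∀ j, ContDiff ℝ 2 (xl σ m Xs j) := by
    intro j
    have e : xl σ m Xs j = fun s => (σ (m 3) * Xs j s - σ (m 1)) *
        (σ (m 0) - σ (m 2) * Xs j s)⁻¹ := by
      funext s
      unfold xl
      rw [div_eq_mul_inv]
    rw [e]
    exact ((contDiff_const.mul (H.smooth j)).sub contDiff_const).mul (hinv j)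
  have hYc : ∀ j, ContDiff ℝ 2 (Yl σ α t R Xs j) := fun j =>
    ((contDiff_const.mul (H.smooth j)).mul (contDiff_circ R)).sub
      ((contDiff_const.mul (H.smooth j)).add (contDiff_prod fun i _ =>
        (H.smooth j).sub contDiff_const))
  have hyc : ∀ j, ContDiff ℝ 2 (yl σ α m t R Xs j) := by
    intro j
    have e : yl σ α m t R Xs j = fun s => (σ (m 0 * m 3 - m 1 * m 2) *
        (σ (m 0) - σ (m 2) * Xs j s)⁻¹) ^ k * Yl σ α t R Xs j s := by
      funext s
      unfold yl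
      rw [div_eq_mul_inv]
    rw [e]
    exact ((contDiff_const.mul (hinv j)).pow k).mul (hYc j)
  have hx1 : ∀ j s, xl σ m Xs j (s + 1) = xl σ m Xs j s := by
    intro j s
    unfold xl
    rw [H.per]
  have hy1 : ∀ j s, yl σ α m t R Xs j (s + 1) = yl σ α m t R Xs j s := by
    intro j s
    unfold yl Yl
    rw [H.per, circ_add_one]
  have hP := fun j s => H.curve hR hm hk j s
  have hi := fun j s => evH_inj σ hf hd (hP j s) (H.xl_tr hR hm j s)
  refine ⟨fun j => mkT L (hxc j) (hyc j) (hx1 j) (hy1 j) (hP j) (hi j), fun j θ => ?_⟩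
  have hphi : ∀ p : K[X], (mkT L (hxc j) (hyc j) (hx1 j) (hy1 j) (hP j) (hi j)).e θ
      (phi (t := t) (α := α) (m := m) L p) = p.eval₂ σ (xl σ m Xs j (θ 0)) := by
    intro p
    have h1 := mkT_e (L := L) (hxc j) (hyc j) (hx1 j) (hy1 j) (hP j) (hi j) θ
      (AdjoinRoot.of _ p)
    rw [evH_of] at h1
    exact h1
  have hroot : (mkT L (hxc j) (hyc j) (hx1 j) (hy1 j) (hP j) (hi j)).e θ
      (algebraMap (HRing (fam t α m)) L (AdjoinRoot.root _)) = yl σ α m t R Xs j (θ 0) := by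
    have h1 := mkT_e (L := L) (hxc j) (hyc j) (hx1 j) (hy1 j) (hP j) (hi j) θ
      (AdjoinRoot.root _)
    rw [evH_root] at h1
    exact h1
  have hq : σ (m 0 * m 3 - m 1 * m 2) / (σ (m 0) - σ (m 2) * Xs j (θ 0)) ≠ 0 :=
    div_ne_zero ((map_ne_zero σ).2 hm) (H.den hR hm j (θ 0))
  have e1 : (mkT L (hxc j) (hyc j) (hx1 j) (hy1 j) (hP j) (hi j)).e θ
      (fX (t := t) (α := α) (m := m) L) = Xs j (θ 0) := by
    unfold fX
    rw [map_div₀, hphi, hphi, H.lin1 hR hm, H.lin2 hR hm, mul_div_cancel_left₀ _ hq]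
  have e2 : ∀ i, (mkT L (hxc j) (hyc j) (hx1 j) (hy1 j) (hP j) (hi j)).e θ
      (fa (t := t) (α := α) (m := m) L i) = σ (α i) := by
    intro i
    unfold fa
    rw [hphi, eval₂_C]
  have e3 : (mkT L (hxc j) (hyc j) (hx1 j) (hy1 j) (hP j) (hi j)).e θ
      (fY (t := t) (α := α) (m := m) L) = Yl σ α t R Xs j (θ 0) := by
    unfold fY
    rw [map_div₀, map_pow, hphi, hroot, H.lin2 hR hm]
    unfold yl
    field_simp
  refine ⟨e1, ?_, e2⟩
  unfold fz
  rw [map_div₀, map_add, map_add, map_mul, map_mul, map_prod, e3, map_intCast, map_ofNat]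
  simp only [map_sub, e1, e2]
  have h0 := H.ne0 j (θ 0)
  unfold Yl
  field_simp
  ring

end loops

end Pool.Agent.H442
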