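import Pool.Agent.H442.Unr5
set_option autoImplicit false

/-!
The classes `{z, R(x) / x^j}` where `P(z) = q (q + c) z`, `q = x R(x) M(x) / D(x)`, `R ≡ X^j`
modulo `D` and `P` is a product of cyclotomic polynomials: they are unramified at all discrete
valuations.
-/

namespace Pool.Agent.H442

open Polynomial

open scoped WithZero

open Pool.Agent.TH826.MK (KQ symb unitPart Unramified val_one_of_sub_one)

open Pool.Agent.Helper537_Sym

section main

variable {O L : Type*} [CommRing O] [Field L] [Algebra O L] {v : Valuation L ℤᵐ⁰}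

/-- The general form. -/
theorem mem6a (hO : ∀ a : O, v (algebraMap O L a) ≤ 1) {D R M Q : O[X]} {j : ℕ}
    (hQ : X ^ j - R = D * Q) {x z r d : Lˣ}
    (hd : (d : L) = aeval (x : L) D) (hr : (r : L) = aeval (x : L) R)
    (H1 : v ((x : L) * r * aeval (x : L) M / d) < 1 → sy z (r / x ^ j) ∈ unitPart v 2)
    (H2 : v ((x : L) * r * aeval (x : L) M / d) ≤ 1 → v (z : L) = 1)
    (H3 : 1 < v (x : L) → sy z (r / x ^ j) ∈ unitPart v 2) :
    sy z (r / x ^ j) ∈ unitPart v 2 := by
  rcases lt_or_ge 1 (v (x : L)) with hx | hx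
  · exact H3 hx
  have hx0 : (x : L) ≠ 0 := x.ne_zero
  have hr0 : (r : L) ≠ 0 := r.ne_zero
  have hd0 : (d : L) ≠ 0 := d.ne_zero
  have vx : 0 < v (x : L) := zero_lt_iff.2 ((Valuation.ne_zero_iff v).2 hx0)
  have vr : 0 < v (r : L) := zero_lt_iff.2 ((Valuation.ne_zero_iff v).2 hr0)
  have vd : 0 < v (d : L) := zero_lt_iff.2 ((Valuation.ne_zero_iff v).2 hd0)
  have hM1 := val_aeval_le (v := v) hO hx M
  have hQ1 := val_aeval_le (v := v) hO hx Q
  have hR1 : v (r : L) ≤ 1 := by rw [hr]; exact val_aeval_le hO hx R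
  have hD1 : v (d : L) ≤ 1 := by rw [hd]; exact val_aeval_le hO hx D
  have hQ' : (x : L) ^ j - r = d * aeval (x : L) Q := by
    have h1 := congrArg (aeval (x : L)) hQ
    rw [map_sub, map_pow, aeval_X, map_mul, ← hr, ← hd] at h1
    exact h1
  rcases lt_or_ge (v ((x : L) * r * aeval (x : L) M)) (v (d : L)) with hI | hII
  · have hq : v ((x : L) * r * aeval (x : L) M / d) < 1 := by
      rw [map_div₀]
      exact (div_lt_one₀ vd).2 hI
    exact H1 hq
  -- `|D| ≤ |x| |R|`
  have hII' : v (d : L) ≤ v (x : L) * v (r : L) := by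
    refine hII.trans ?_
    rw [map_mul, map_mul]
    exact mul_le_of_le_one_right' hM1
  have hdq : v ((x : L) ^ j - r) ≤ v (d : L) := by
    rw [hQ', map_mul]
    exact mul_le_of_le_one_right' hQ1
  have e1 : (((r / x ^ j : Lˣ) : L)) - 1 = -((d * aeval (x : L) Q) / (x : L) ^ j) := by
    rw [← hQ', Units.val_div_eq_div_val, Units.val_pow_eq_pow_val]
    field_simp
    ring
  rcases hx.eq_or_lt with hx1 | hx1
  · -- `x` is a unit
    have hr1 : v (r : L) = 1 := by
      refine le_antisymm hR1 ?_
      by_contra hcon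
      rw [not_le] at hcon
      have h2 : v ((x : L) ^ j - r) = 1 := by
        rw [Valuation.map_sub_eq_of_lt_left, map_pow, hx1, one_pow]
        rw [map_pow, hx1, one_pow]
        exact hcon
      rw [h2] at hdq
      have h3 : v (d : L) < 1 := hII'.trans_lt (by rw [hx1, one_mul]; exact hcon)
      exact absurd hdq (not_le.2 h3)
    rcases hD1.eq_or_lt with hd1 | hd1
    · refine sy_mem_units v (H2 ?_) ?_
      · rw [map_div₀, map_mul, map_mul, hx1, hr1, hd1, one_mul, one_mul, div_one]
        exact hM1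
      · rw [Units.val_div_eq_div_val, Units.val_pow_eq_pow_val, map_div₀, map_pow, hx1, hr1,
          one_pow, div_one]
    · refine sy_mem_right v ?_
      rw [e1, Valuation.map_neg, map_div₀, map_mul, map_pow, hx1, one_pow, div_one]
      exact mul_lt_one_of_lt_of_le hd1 hQ1
  · -- `|R| = |x|^j`
    have hrj : v (r : L) = v (x : L) ^ j := by
      rcases lt_trichotomy (v (r : L)) (v (x : L) ^ j) with h2 | h2 | h2
      · exfalso
        have h3 : v ((x : L) ^ j - r) = v (x : L) ^ j := by
          rw [Valuation.map_sub_eq_of_lt_left, map_pow]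
          rw [map_pow]
          exact h2
        rw [h3] at hdq
        have h4 : v (x : L) ^ j < v (x : L) ^ j := by
          calc v (x : L) ^ j ≤ v (x : L) * v (r : L) := hdq.trans hII'
            _ ≤ 1 * v (r : L) := mul_le_mul_left hx _
            _ = v (r : L) := one_mul _
            _ < v (x : L) ^ j := h2
        exact lt_irrefl _ h4
      · exact h2
      · exfalso
        have h3 : v ((x : L) ^ j - r) = v (r : L) := by
          rw [Valuation.map_sub_eq_of_lt_right]
          rw [map_pow]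
          exact h2
        rw [h3] at hdq
        have h4 : v (r : L) < v (r : L) := by
          calc v (r : L) ≤ v (x : L) * v (r : L) := hdq.trans hII'
            _ < 1 * v (r : L) := mul_lt_mul_of_pos_right hx1 vr
            _ = v (r : L) := one_mul _
        exact lt_irrefl _ h4
    refine sy_mem_right v ?_
    rw [e1, Valuation.map_neg, map_div₀, map_mul, map_pow,
      div_lt_one₀ (pow_pos vx j)]
    calc v (d : L) * v (aeval (x : L) Q) ≤ v (d : L) := mul_le_of_le_one_right' hQ1
      _ ≤ v (x : L) * v (r : L) := hII'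
      _ < 1 * v (r : L) := mul_lt_mul_of_pos_right hx1 vr
      _ = v (x : L) ^ j := by rw [one_mul, hrj]

/-- The classes `{z, R(x)/x^j}` are unramified. -/
theorem mem6 (hO : ∀ a : O, v (algebraMap O L a) ≤ 1) {s : ℕ} {c : Fin s → ℕ}
    (hc : ∀ i, 0 < c i) (hN : 3 ≤ (cycP c).natDegree) {D R M Q : O[X]}
    (hD : D.Monic) (hR : R.Monic) (hM : M.Monic)
    (hdeg : D.natDegree < 1 + R.natDegree + M.natDegree) {j : ℕ}
    (hQ : X ^ j - R = D * Q) (c₀ : O) {x z r d : Lˣ}
    (hd : (d : L) = aeval (x : L) D) (hr : (r : L) = aeval (x : L) R)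
    (h : aeval (z : L) (cycP c) = ((x * r * aeval (x : L) M / d) *
      (x * r * aeval (x : L) M / d + algebraMap O L c₀)) * z) :
    sy z (r / x ^ j) ∈ unitPart v 2 := by
  have hP := cycP_monic c
  have hP0 := cycP_coeff_zero c hc
  have hd0 : (d : L) ≠ 0 := d.ne_zero
  obtain ⟨q, hq⟩ : ∃ q : L, q = x * r * aeval (x : L) M / d := ⟨_, rfl⟩
  have hsum : v q ≤ 1 → v (q + algebraMap O L c₀) ≤ 1 := fun h1 =>
    (v.map_add _ _).trans (max_le h1 (hO c₀))
  refine mem6a hO hQ hd hr (M := M) (fun h1 => ?_) (fun h1 => ?_) (fun hx => ?_)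
  · rw [← hq] at h h1
    have h2 : v (q * (q + algebraMap O L c₀)) < 1 := by
      rw [map_mul]
      exact mul_lt_one_of_lt_of_le h1 (hsum h1.le)
    exact mem_tors5 v hc (val_z5 v hP hN hP0 h h2.le) h h2 _
  · rw [← hq] at h h1
    refine val_z5 v hP hN hP0 h ?_
    rw [map_mul]
    exact mul_le_one' h1 (hsum h1)
  · have hXRM : (X * R * M : O[X]).Monic := (monic_X.mul hR).mul hM
    have hnt : Nontrivial O := by
      by_contra hcon
      rw [not_nontrivial_iff_subsingleton] at hcon
      have h1 : (1 : O) = 0 := Subsingleton.elim _ _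
      have h2 := congrArg (algebraMap O L) h1
      rw [map_one, map_zero] at h2
      exact one_ne_zero h2
    have hXd : (X * R * M : O[X]).natDegree = 1 + R.natDegree + M.natDegree := by
      rw [(monic_X.mul hR).natDegree_mul hM, monic_X.natDegree_mul hR, natDegree_X]
    have hlt : (C c₀ * D).degree < (X * R * M).degree := by
      rw [degree_eq_natDegree hXRM.ne_zero, hXd]
      refine (degree_le_of_natDegree_le (natDegree_C_mul_le c₀ D)).trans_lt ?_
      exact_mod_cast hdeg
    have hA : (X * R * M + C c₀ * D : O[X]).Monic := hXRM.add_of_left hlt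
    have hAd : (X * R * M + C c₀ * D : O[X]).natDegree = 1 + R.natDegree + M.natDegree := by
      rw [natDegree_add_eq_left_of_degree_lt hlt, hXd]
    refine mem5_inf hO hP hN hP0 (D := D ^ 2) (R := R) (M := M * (X * R * M + C c₀ * D))
      (hD.pow 2) hR (hM.mul hA) ?_ j (d := d ^ 2) ?_ hr ?_ hx
    · rw [hD.natDegree_pow, hM.natDegree_mul hA, hAd]
      omega
    · rw [Units.val_pow_eq_pow_val, hd, map_pow]
    · rw [h]
      congr 1
      have h1 : aeval (x : L) (M * (X * R * M + C c₀ * D)) =
          aeval (x : L) M * (x * r * aeval (x : L) M + algebraMap O L c₀ * d) := by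
        rw [map_mul, map_add, map_mul, map_mul, map_mul, aeval_X, aeval_C, ← hr, ← hd]
      rw [h1, Units.val_pow_eq_pow_val]
      field_simp

end main

/-- `(z - 1)^3` as a product of cyclotomic polynomials -/
theorem aeval_cub {L : Type*} [Field L] (z : L) :
    aeval z (cycP (fun _ : Fin 3 => 1)) = (z - 1) ^ 3 := by
  unfold cycP
  rw [Finset.prod_const, cyclotomic_one, Finset.card_univ, Fintype.card_fin, map_pow, map_sub,
    aeval_X, map_one]

theorem natDegree_cub : (cycP (fun _ : Fin 3 => 1)).natDegree = 3 := by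
  unfold cycP
  rw [Finset.prod_const, cyclotomic_one, Finset.card_univ, Fintype.card_fin, natDegree_pow]
  have : (X - 1 : ℤ[X]) = X - C 1 := by rw [C_1]
  rw [this, natDegree_X_sub_C]

/-- The identity behind the construction. -/
theorem cub_id {L : Type*} [Field L] {y ζ q c : L} (hζ : ζ ^ 3 = 1) (hc : c ^ 2 = -27)
    (hy : 1 - y ^ 3 ≠ 0) (hq : q = c * y ^ 3 / (1 - y ^ 3)) :
    ((1 - ζ * y) ^ 3 / (1 - y ^ 3) - 1) ^ 3 =
      (q * (q + c)) * ((1 - ζ * y) ^ 3 / (1 - y ^ 3)) := by
  have h1 : (1 - ζ * y) ^ 3 / (1 - y ^ 3) - 1 =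
      (-3 * (ζ * y) * (1 - ζ * y)) / (1 - y ^ 3) := by
    field_simp
    linear_combination (-y ^ 3) * hζ
  have h2 : q * (q + c) = -27 * y ^ 3 / (1 - y ^ 3) ^ 2 := by
    rw [hq]
    field_simp
    linear_combination (y ^ 3) * hc
  rw [h1, h2, div_pow, div_mul_div_comm, ← pow_succ]
  congr 1
  linear_combination (-27 * y ^ 3 * (1 - ζ * y) ^ 3) * hζ

end Pool.Agent.H442
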