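import Pool.Agent.H442.Tor5
import Pool.Agent.H442.Unr6
set_option autoImplicit false

/-!
The function field of the curve `A(x) y^3 = B(x)`: irreducibility, evaluation at transcendental
points, loops in its spectrum and the classes `{(1 - ζ y)^3 / (1 - y^3), R(x)/x^j}`.
-/

namespace Pool.Agent.H442

open Polynomial

open scoped WithZero

open Pool.Agent.TH826.MK (Torus KQ symb pairing circ norm_circ contDiff_circ circ_add_one
  Unramified unitPart val_le_one_of_integral)

open Pool.Agent.TH826.UH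

open Pool.Agent.Helper537_Sym (sy)

variable {K : Type*} [Field K]

section ring

variable {G : K[X][X]} (σ : K →+* ℂ) {x z : ℂ}

/-- Evaluation at the complex point `(x, z)`. -/
noncomputable def evA (h : G.eval₂ (eval₂RingHom σ x) z = 0) : AdjoinRoot G →+* ℂ :=
  AdjoinRoot.lift (eval₂RingHom σ x) z h

theorem evA_mk (h : G.eval₂ (eval₂RingHom σ x) z = 0) (q : K[X][X]) :
    evA σ h (AdjoinRoot.mk _ q) = q.eval₂ (eval₂RingHom σ x) z := by
  unfold evA
  rw [AdjoinRoot.lift_mk]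

theorem evA_of (h : G.eval₂ (eval₂RingHom σ x) z = 0) (p : K[X]) :
    evA σ h (AdjoinRoot.of _ p) = p.eval₂ σ x := by
  unfold evA
  rw [AdjoinRoot.lift_of, coe_eval₂RingHom]

theorem evA_root (h : G.eval₂ (eval₂RingHom σ x) z = 0) :
    evA σ h (AdjoinRoot.root _) = z := by
  unfold evA
  rw [AdjoinRoot.lift_root]

theorem evA_congr {x' z' : ℂ} (h : G.eval₂ (eval₂RingHom σ x) z = 0)
    (h' : G.eval₂ (eval₂RingHom σ x') z' = 0) (e : x = x') (e' : z = z') :
    evA σ h = evA σ h' := by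
  subst e
  subst e'
  rfl

theorem isDomain_A (hirr : Irreducible G) : IsDomain (AdjoinRoot G) :=
  AdjoinRoot.isDomain_of_prime hirr.prime

theorem ofA_injective (hd : 0 < G.natDegree) : Function.Injective (AdjoinRoot.of G) := by
  rw [injective_iff_map_eq_zero]
  intro p hp
  rw [← AdjoinRoot.mk_C, AdjoinRoot.mk_eq_zero] at hp
  by_contra hne
  have h1 := natDegree_le_of_dvd hp (C_ne_zero.2 hne)
  rw [natDegree_C] at h1
  omega

theorem isAlgebraic_A (hirr : Irreducible G) (a : AdjoinRoot G) : IsAlgebraic K[X] a := by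
  have hdom := isDomain_A hirr
  have h1 : (⊤ : Subalgebra K[X] (AdjoinRoot G)) ≤
      Subalgebra.algebraicClosure K[X] (AdjoinRoot G) := by
    rw [← AdjoinRoot.adjoinRoot_eq_top]
    refine Algebra.adjoin_le ?_
    rw [Set.singleton_subset_iff]
    refine ⟨G, hirr.ne_zero, ?_⟩
    rw [AdjoinRoot.aeval_eq, AdjoinRoot.mk_self]
  exact h1 Algebra.mem_top

theorem evA_inj (hirr : Irreducible G) (h : G.eval₂ (eval₂RingHom σ x) z = 0)
    (hx : TrOver σ x) : Function.Injective (evA σ h) := by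
  have hdom := isDomain_A hirr
  rw [injective_iff_map_eq_zero]
  intro a ha
  by_contra hne
  obtain ⟨r, hr, hdvd⟩ := (isAlgebraic_A hirr a).exists_nonzero_dvd
    (mem_nonZeroDivisors_of_ne_zero hne)
  obtain ⟨b, hb⟩ := hdvd
  apply hr
  apply hx
  have h1 : evA σ h (AdjoinRoot.of _ r) = 0 := by
    have h2 : AdjoinRoot.of G r = a * b := hb
    rw [h2, map_mul, ha, zero_mul]
  rwa [evA_of] at h1

theorem contDiff_evA {X Z : ℝ → ℂ} (hX : ContDiff ℝ 2 X) (hZ : ContDiff ℝ 2 Z)
    (hP : ∀ s, G.eval₂ (eval₂RingHom σ (X s)) (Z s) = 0) (r : AdjoinRoot G) :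
    ContDiff ℝ 2 fun s => evA σ (hP s) r := by
  have hpol : ∀ p : K[X], ContDiff ℝ 2 fun s => p.eval₂ σ (X s) := by
    intro p
    have e : (fun s => p.eval₂ σ (X s)) = fun s =>
        ∑ i ∈ Finset.range (p.natDegree + 1), σ (p.coeff i) * (X s) ^ i := by
      funext s
      rw [Polynomial.eval₂_eq_sum_range]
    rw [e]
    exact ContDiff.sum fun i _ => contDiff_const.mul (hX.pow i)
  obtain ⟨q, rfl⟩ := AdjoinRoot.mk_surjective (g := G) r
  have e : (fun s => evA σ (hP s) (AdjoinRoot.mk G q)) =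
      fun s => ∑ i ∈ Finset.range (q.natDegree + 1), (q.coeff i).eval₂ σ (X s) * (Z s) ^ i := by
    funext s
    rw [evA_mk, Polynomial.eval₂_eq_sum_range]
    rfl
  rw [e]
  exact ContDiff.sum fun i _ => (hpol _).mul (hZ.pow i)

section field

variable {σ}

theorem liftA_congr {L : Type*} [Field L] [Algebra (AdjoinRoot G) L]
    [IsFractionRing (AdjoinRoot G) L] {g g' : AdjoinRoot G →+* ℂ} (h : g = g')
    (hg : Function.Injective g) (hg' : Function.Injective g') :
    (IsFractionRing.lift (K := L) hg : L →+* ℂ) = IsFractionRing.lift hg' := by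
  subst h
  rfl

/-- A loop in the spectrum of the function field. -/
noncomputable def mkA (L : Type*) [Field L] [Algebra (AdjoinRoot G) L]
    [IsFractionRing (AdjoinRoot G) L]
    {X Z : ℝ → ℂ} (hX : ContDiff ℝ 2 X) (hZ : ContDiff ℝ 2 Z)
    (hX1 : ∀ t, X (t + 1) = X t) (hZ1 : ∀ t, Z (t + 1) = Z t)
    (hP : ∀ s, G.eval₂ (eval₂RingHom σ (X s)) (Z s) = 0)
    (hi : ∀ t, Function.Injective (evA σ (hP t))) : Torus L 1 where
  e θ := IsFractionRing.lift (hi (θ 0))
  smooth h := by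
    obtain ⟨a, c, hc, rfl⟩ := IsFractionRing.div_surjective (AdjoinRoot G) h
    have hnt : Nontrivial (AdjoinRoot G) := (algebraMap (AdjoinRoot G) L).domain_nontrivial
    have hc0 : c ≠ 0 := nonZeroDivisors.ne_zero hc
    have e : (fun θ : Fin 1 → ℝ => (IsFractionRing.lift (hi (θ 0)) : L →+* ℂ)
        (algebraMap (AdjoinRoot G) L a / algebraMap (AdjoinRoot G) L c)) =
        fun θ => evA σ (hP (θ 0)) a * (evA σ (hP (θ 0)) c)⁻¹ := by
      funext θ
      rw [map_div₀, IsFractionRing.lift_algebraMap, IsFractionRing.lift_algebraMap,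
        div_eq_mul_inv]
    rw [e]
    have h0 : ContDiff ℝ 2 fun θ : Fin 1 → ℝ => θ 0 := contDiff_apply ℝ ℝ 0
    refine ((contDiff_evA σ hX hZ hP a).comp h0).mul
      (((contDiff_evA σ hX hZ hP c).comp h0).inv fun θ => ?_)
    intro h0
    exact hc0 ((injective_iff_map_eq_zero _).1 (hi (θ 0)) c h0)
  periodic θ i := by
    have h0 : (θ + Pi.single i 1 : Fin 1 → ℝ) 0 = θ 0 + 1 := by
      rw [Pi.add_apply, Subsingleton.elim i 0, Pi.single_eq_same]
    refine liftA_congr ?_ _ _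
    refine evA_congr σ _ _ ?_ ?_
    · rw [h0, hX1]
    · rw [h0, hZ1]

/-- The loop through the points `(X s, Z s)`. -/
theorem exists_torusA (L : Type*) [Field L] [Algebra (AdjoinRoot G) L]
    [IsFractionRing (AdjoinRoot G) L] (hirr : Irreducible G)
    {X Z : ℝ → ℂ} (hX : ContDiff ℝ 2 X) (hZ : ContDiff ℝ 2 Z)
    (hX1 : ∀ t, X (t + 1) = X t) (hZ1 : ∀ t, Z (t + 1) = Z t)
    (hP : ∀ s, G.eval₂ (eval₂RingHom σ (X s)) (Z s) = 0) (htr : ∀ s, TrOver σ (X s)) :
    ∃ Γ : Torus L 1, ∀ θ, (Γ.e θ (algebraMap (AdjoinRoot G) L (AdjoinRoot.root G)) = Z (θ 0)) ∧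
      ∀ Q : K[X], Γ.e θ (algebraMap (AdjoinRoot G) L (AdjoinRoot.of G Q)) =
        Q.eval₂ σ (X (θ 0)) := by
  have hi := fun s => evA_inj σ hirr (hP s) (htr s)
  refine ⟨mkA L hX hZ hX1 hZ1 hP hi, fun θ => ⟨?_, fun Q => ?_⟩⟩
  · have h1 : (mkA L hX hZ hX1 hZ1 hP hi).e θ (algebraMap (AdjoinRoot G) L (AdjoinRoot.root G)) =
        evA σ (hP (θ 0)) (AdjoinRoot.root G) := IsFractionRing.lift_algebraMap (hi (θ 0)) _
    rw [h1, evA_root]
  · have h1 : (mkA L hX hZ hX1 hZ1 hP hi).e θ (algebraMap (AdjoinRoot G) L (AdjoinRoot.of G Q)) =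
        evA σ (hP (θ 0)) (AdjoinRoot.of G Q) := IsFractionRing.lift_algebraMap (hi (θ 0)) _
    rw [h1, evA_of]

end field

end ring

section cubic

/-- the polynomial `A(x) y^3 - B(x)` -/
noncomputable def CG (A B : K[X]) : K[X][X] := C A * X ^ 3 - C B

theorem CG_eval₂ {S : Type*} [CommRing S] (φ : K[X] →+* S) (A B : K[X]) (z : S) :
    (CG A B).eval₂ φ z = φ A * z ^ 3 - φ B := by
  unfold CG
  rw [eval₂_sub, eval₂_mul, eval₂_C, eval₂_C, eval₂_pow, eval₂_X]

theorem CG_natDegree {A B : K[X]} (hA : A ≠ 0) : (CG A B).natDegree = 3 := by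
  unfold CG
  rw [natDegree_sub_C, natDegree_C_mul_X_pow _ _ hA]

theorem CG_coeff (A B : K[X]) (i : ℕ) : (CG A B).coeff i =
    (if i = 3 then A else 0) - (if i = 0 then B else 0) := by
  unfold CG
  rw [coeff_sub, coeff_C_mul_X_pow, coeff_C]

/-- Irreducibility by the criterion of Eisenstein at a simple root of `B`. -/
theorem CG_irr {A B : K[X]} {a : K} (hcop : IsCoprime A B) (ha : B.eval a = 0)
    (hs : Squarefree B) : Irreducible (CG A B) := by
  have hAa : A.eval a ≠ 0 := by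
    intro h
    obtain ⟨u, w, huw⟩ := hcop
    have h1 := congrArg (eval a) huw
    rw [eval_add, eval_mul, eval_mul, h, ha, eval_one] at h1
    simp at h1
  have hA0 : A ≠ 0 := fun h => hAa (by rw [h, eval_zero])
  have hdeg := CG_natDegree (B := B) hA0
  have hpr : Prime (X - C a : K[X]) := prime_X_sub_C a
  have hIpr : (Ideal.span {(X - C a : K[X])}).IsPrime :=
    (Ideal.span_singleton_prime hpr.ne_zero).2 hpr
  refine irreducible_of_eisenstein_criterion (P := Ideal.span {(X - C a : K[X])}) hIpr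
    ?_ ?_ ?_ ?_ ?_
  · rw [leadingCoeff, hdeg, CG_coeff, if_pos rfl, if_neg (by norm_num), sub_zero,
      Ideal.mem_span_singleton, dvd_iff_isRoot]
    exact hAa
  · intro n hn
    rw [degree_eq_natDegree (fun h => by rw [h, natDegree_zero] at hdeg; omega), hdeg] at hn
    have hn' : n < 3 := by exact_mod_cast hn
    rw [CG_coeff, if_neg (by omega), zero_sub, neg_mem_iff]
    by_cases h0 : n = 0
    · rw [if_pos h0, Ideal.mem_span_singleton, dvd_iff_isRoot]
      exact ha
    · rw [if_neg h0]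
      exact zero_mem _
  · exact natDegree_pos_iff_degree_pos.1 (by rw [hdeg]; norm_num)
  · rw [CG_coeff, if_neg (by norm_num), if_pos rfl, zero_sub, neg_mem_iff,
      Ideal.span_singleton_pow, Ideal.mem_span_singleton]
    intro h
    rw [pow_two] at h
    exact hpr.not_isUnit (hs _ h)
  · intro r hr
    have h1 : ∀ i, r ∣ (CG A B).coeff i := (C_dvd_iff_dvd_coeff r _).1 hr
    have h2 : r ∣ A := by
      have := h1 3
      rwa [CG_coeff, if_pos rfl, if_neg (by norm_num), sub_zero] at this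
    have h3 : r ∣ B := by
      have := h1 0
      rwa [CG_coeff, if_neg (by norm_num), if_pos rfl, zero_sub, dvd_neg] at this
    exact hcop.isUnit_of_dvd' h2 h3

end cubic

section alg

variable {G : K[X][X]} (L : Type*) [Field L] [Algebra (AdjoinRoot G) L]

/-- The embedding of the polynomials in `x` into the function field. -/
noncomputable def pA : K[X] →+* L := (algebraMap (AdjoinRoot G) L).comp (AdjoinRoot.of _)

variable (G) in
/-- The function `y`. -/
noncomputable def yA : L := algebraMap (AdjoinRoot G) L (AdjoinRoot.root _)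

variable {L}

theorem pA_ne_zero [IsFractionRing (AdjoinRoot G) L] (hd : 0 < G.natDegree) {p : K[X]}
    (hp : p ≠ 0) : pA (G := G) L p ≠ 0 := by
  intro h
  have h1 : Function.Injective (pA (G := G) L) :=
    (IsFractionRing.injective (AdjoinRoot G) L).comp (ofA_injective hd)
  exact hp (h1 (by rw [h, map_zero]))

end alg

section cls

variable {A B D : K[X]} {L : Type*} [Field L] [Algebra (AdjoinRoot (CG A B)) L]

theorem yA_eq : pA (G := CG A B) L A * yA (CG A B) L ^ 3 = pA (G := CG A B) L B := by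
  have h1 := AdjoinRoot.eval₂_root (CG A B)
  have h2 := congrArg (algebraMap (AdjoinRoot (CG A B)) L) h1
  rw [hom_eval₂, map_zero, CG_eval₂] at h2
  exact sub_eq_zero.1 h2

variable [IsFractionRing (AdjoinRoot (CG A B)) L] {c : K}

theorem one_sub_yA_ne (hA0 : A ≠ 0) (hA : A = B + C c * D) (hc : c ≠ 0) (hD : D ≠ 0) :
    1 - yA (CG A B) L ^ 3 ≠ 0 := by
  intro h
  have h1 := yA_eq (A := A) (B := B) (L := L)
  have h2 : yA (CG A B) L ^ 3 = 1 := (sub_eq_zero.1 h).symm
  rw [h2, mul_one] at h1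
  have h3 : pA (G := CG A B) L (C c * D) = 0 := by
    have h4 := congrArg (pA (G := CG A B) L) hA
    rw [map_add] at h4
    linear_combination h1 - h4
  exact pA_ne_zero (G := CG A B) (by rw [CG_natDegree hA0]; norm_num)
    (mul_ne_zero (C_ne_zero.2 hc) hD) h3

theorem qA_eq (hA0 : A ≠ 0) (hA : A = B + C c * D) (hc : c ≠ 0) (hD : D ≠ 0) :
    pA (G := CG A B) L B / pA (G := CG A B) L D =
      pA (G := CG A B) L (C c) * yA (CG A B) L ^ 3 / (1 - yA (CG A B) L ^ 3) := by
  have h0 := one_sub_yA_ne (L := L) hA0 hA hc hD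
  have h1 := yA_eq (A := A) (B := B) (L := L)
  have h2 := pA_ne_zero (G := CG A B) (L := L) (by rw [CG_natDegree hA0]; norm_num) hD
  have h4 := congrArg (pA (G := CG A B) L) hA
  rw [map_add, map_mul] at h4
  rw [div_eq_div_iff h2 h0]
  linear_combination yA (CG A B) L ^ 3 * h4 - h1

omit [IsFractionRing (AdjoinRoot (CG A B)) L] in
theorem one_sub_mul_yA_ne {ζ : K} (hζ : ζ ^ 3 = 1) (h0 : 1 - yA (CG A B) L ^ 3 ≠ 0) :
    1 - pA (G := CG A B) L (C ζ) * yA (CG A B) L ≠ 0 := by
  intro h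
  apply h0
  have h1 : pA (G := CG A B) L (C ζ) ^ 3 = 1 := by
    rw [← map_pow, ← C_pow, hζ, C_1, map_one]
  have h2 : pA (G := CG A B) L (C ζ) * yA (CG A B) L = 1 := (sub_eq_zero.1 h).symm
  have h3 : yA (CG A B) L ^ 3 = 1 := by
    have h4 : (pA (G := CG A B) L (C ζ) * yA (CG A B) L) ^ 3 = yA (CG A B) L ^ 3 := by
      rw [mul_pow, h1, one_mul]
    rw [← h4, h2, one_pow]
  rw [h3, sub_self]

/-- The classes are unramified. -/
theorem cls6 [CharZero K] {O : Type*} [CommRing O] [Algebra O K] (hO : ∀ a : O, IsIntegral ℤ a)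
    {D₀ R M Q : O[X]} {c₀ : O} (hc0 : algebraMap O K c₀ = c) (hc : c ^ 2 = -27)
    (hD : D₀.Monic) (hR : R.Monic) (hM : M.Monic)
    (hdeg : D₀.natDegree < 1 + R.natDegree + M.natDegree) {j : ℕ} (hQ : X ^ j - R = D₀ * Q)
    {R' : K[X]} (hB : B = X * R' * M.map (algebraMap O K)) (hA0 : A ≠ 0)
    (hA : A = B + C c * D) (hD' : D = D₀.map (algebraMap O K)) (hR' : R' = R.map (algebraMap O K))
    {ζ : K} (hζ : ζ ^ 3 = 1) (z x r : Lˣ)
    (hz : (z : L) = (1 - pA (G := CG A B) L (C ζ) * yA (CG A B) L) ^ 3 /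
      (1 - yA (CG A B) L ^ 3))
    (hx : (x : L) = pA (G := CG A B) L X)
    (hr : (r : L) = pA (G := CG A B) L R') :
    sy z (r / x ^ j) ∈ Unramified L 2 := by
  unfold Unramified
  simp only [Submodule.mem_iInf]
  intro v _
  set φ := pA (G := CG A B) L with hφ
  set ψ : O →+* L := φ.comp (C.comp (algebraMap O K)) with hψ
  let _ : Algebra O L := ψ.toAlgebra
  have hval : ∀ a : O, v (algebraMap O L a) ≤ 1 := by
    intro a
    refine val_le_one_of_integral v ?_
    exact map_isIntegral_int ψ (hO a)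
  have hae : ∀ P : O[X], φ (P.map (algebraMap O K)) = aeval (x : L) P := by
    intro P
    rw [hx, aeval_def]
    have e : P.map (algebraMap O K) = P.eval₂ (C.comp (algebraMap O K)) X := by
      rw [← eval₂_map, eval₂_C_X]
    rw [e, hom_eval₂]
    rfl
  have hDm : D.Monic := by rw [hD']; exact hD.map _
  have hcne : c ≠ 0 := by
    rintro rfl
    norm_num at hc
  have hd0 : φ D ≠ 0 := pA_ne_zero (by rw [CG_natDegree hA0]; norm_num) hDm.ne_zero
  have h0 := one_sub_yA_ne (L := L) hA0 hA hcne hDm.ne_zero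
  have hq := qA_eq (L := L) hA0 hA hcne hDm.ne_zero
  rw [← hφ] at hq
  have hcc : φ (C c) ^ 2 = -27 := by
    rw [← map_pow, ← C_pow, hc, map_neg, map_neg, map_ofNat, map_ofNat]
  have hzz : φ (C ζ) ^ 3 = 1 := by
    rw [← map_pow, ← C_pow, hζ, C_1, map_one]
  have hBx : φ B = x * r * aeval (x : L) M := by
    conv_lhs => rw [hB]
    rw [map_mul, map_mul, ← hx, ← hr, hae]
  refine mem6 hval (c := fun _ : Fin 3 => 1) (fun _ => one_pos) (by rw [natDegree_cub]) hD hR hM
    hdeg hQ c₀ (d := Units.mk0 _ hd0) ?_ ?_ ?_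
  · rw [Units.val_mk0]
    conv_lhs => rw [hD']
    rw [hae]
  · rw [hr, hR', hae]
  · have hc1 : algebraMap O L c₀ = φ (C c) := by
      rw [← hc0]
      rfl
    rw [Units.val_mk0, aeval_cub, hc1, ← hBx, hz]
    exact cub_id hzz hcc h0 hq

end cls

end Pool.Agent.H442
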