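import Pool.Agent.H442.Est
set_option autoImplicit false

/-!
Analytic solutions `x` of `x = ξ + w V(x)` for a small holomorphic function `V`, and the
regulator integrals of polynomials over the corresponding loops.
-/

namespace Pool.Agent.H442

open Polynomial Metric Set Filter Topology MeasureTheory

open Pool.Agent.TH826.MK (circ norm_circ contDiff_circ circ_add_one)

open Pool.Agent.TH826.UH

open scoped Real NNReal ENNReal

section branch

variable {V : ℂ → ℂ} {ξ : ℂ} {δ : ℝ}

theorem lip_V (hδ : 0 < δ) (hV : DifferentiableOn ℂ V (ball ξ (2 * δ)))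
    (hb : ∀ x ∈ ball ξ (2 * δ), ‖V x‖ ≤ δ / 20) {a b : ℂ} (ha : a ∈ ball ξ δ)
    (hb' : b ∈ ball ξ δ) : ‖V b - V a‖ ≤ 1 / 10 * ‖b - a‖ := by
  have hsub : ∀ x ∈ ball ξ δ, closedBall x (δ / 2) ⊆ ball ξ (2 * δ) := by
    intro x hx y hy
    rw [mem_ball_iff_norm] at hx ⊢
    rw [mem_closedBall_iff_norm] at hy
    have : y - ξ = (y - x) + (x - ξ) := by ring
    rw [this]
    refine (norm_add_le _ _).trans_lt ?_
    linarith
  have hsub' : ball ξ δ ⊆ ball ξ (2 * δ) := ball_subset_ball (by linarith)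
  refine Convex.norm_image_sub_le_of_norm_deriv_le (𝕜 := ℂ) (s := ball ξ δ) (fun x hx => ?_)
    (fun x hx => ?_) (convex_ball ξ δ) ha hb'
  · exact (hV x (hsub' hx)).differentiableAt (isOpen_ball.mem_nhds (hsub' hx))
  · have h1 : ‖deriv V x‖ ≤ (δ / 20) / (δ / 2) := by
      refine Complex.norm_deriv_le_of_forall_mem_sphere_norm_le (by positivity) ?_ ?_
      · refine (hV.mono (hsub x hx)).diffContOnCl_ball ?_
        exact subset_rfl
      · intro y hy
        exact hb y (hsub x hx (sphere_subset_closedBall hy))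
    refine h1.trans (le_of_eq ?_)
    field_simp
    norm_num

theorem exists_branch (hδ : 0 < δ) (hV : DifferentiableOn ℂ V (ball ξ (2 * δ)))
    (hb : ∀ x ∈ ball ξ (2 * δ), ‖V x‖ ≤ δ / 20) (h0 : ∀ x ∈ ball ξ (2 * δ), V x ≠ 0) :
    ∃ x : ℂ → ℂ, ∀ w ∈ ball (0 : ℂ) (9 / 2), AnalyticAt ℂ x w ∧ ‖x w - ξ‖ < δ ∧
      x w = ξ + w * V (x w) := by
  have hsub' : ball ξ δ ⊆ ball ξ (2 * δ) := ball_subset_ball (by linarith)
  have hex : ∀ w : ℂ, ∃ y : ℂ, w ∈ ball (0 : ℂ) (9 / 2) → ‖y - ξ‖ < δ ∧ y = ξ + w * V y := by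
    intro w
    by_cases hw : w ∈ ball (0 : ℂ) (9 / 2)
    · have hw' : ‖w‖ < 9 / 2 := mem_ball_zero_iff.1 hw
      set f : ℂ → ℂ := fun y => ξ + w * V y with hf
      set s : Set ℂ := closedBall ξ (δ / 2) with hs
      have hss : s ⊆ ball ξ δ := closedBall_subset_ball (by linarith)
      have hmap : MapsTo f s s := by
        intro y hy
        rw [hs, mem_closedBall_iff_norm, hf]
        simp only [add_sub_cancel_left]
        rw [norm_mul]
        have h1 := hb y (hsub' (hss hy))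
        calc ‖w‖ * ‖V y‖ ≤ 9 / 2 * (δ / 20) := by
              exact mul_le_mul hw'.le h1 (norm_nonneg _) (by norm_num)
          _ ≤ δ / 2 := by linarith
      have hcontr : ContractingWith (1 / 2 : ℝ≥0) (hmap.restrict f s s) := by
        refine ⟨by
          rw [← NNReal.coe_lt_coe]
          norm_num, LipschitzWith.of_dist_le_mul fun a b => ?_⟩
        rw [Subtype.dist_eq, Subtype.dist_eq, MapsTo.val_restrict_apply,
          MapsTo.val_restrict_apply, dist_eq_norm, dist_eq_norm, hf]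
        have h1 := lip_V hδ hV hb (hss b.2) (hss a.2)
        have e : ξ + w * V a - (ξ + w * V b) = w * (V a - V b) := by ring
        simp only [e]
        rw [norm_mul]
        push_cast
        have h2 := norm_nonneg ((a : ℂ) - b)
        calc ‖w‖ * ‖V a - V b‖ ≤ 9 / 2 * (1 / 10 * ‖(a : ℂ) - b‖) :=
              mul_le_mul hw'.le h1 (norm_nonneg _) (by norm_num)
          _ ≤ 1 / 2 * ‖(a : ℂ) - b‖ := by linarith
      obtain ⟨y, hy, hfy, -, -⟩ := hcontr.exists_fixedPoint'
        (isClosed_closedBall.isComplete) hmap (x := ξ) (mem_closedBall_self (by positivity))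
        (edist_ne_top _ _)
      refine ⟨y, fun _ => ⟨mem_ball_iff_norm.1 (hss hy), ?_⟩⟩
      exact hfy.symm
    · exact ⟨0, fun h => absurd h hw⟩
  choose x hx using hex
  have huniq : ∀ w ∈ ball (0 : ℂ) (9 / 2), ∀ y, ‖y - ξ‖ < δ → y = ξ + w * V y → y = x w := by
    intro w hw y hy hyw
    obtain ⟨h1, h2⟩ := hx w hw
    have hw' : ‖w‖ < 9 / 2 := mem_ball_zero_iff.1 hw
    have h3 := lip_V hδ hV hb (mem_ball_iff_norm.2 h1) (mem_ball_iff_norm.2 hy)
    have h4 : y - x w = w * (V y - V (x w)) := by linear_combination hyw - h2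
    have h5 : ‖y - x w‖ ≤ 9 / 2 * (1 / 10 * ‖y - x w‖) := by
      conv_lhs => rw [h4]
      rw [norm_mul]
      exact mul_le_mul hw'.le h3 (norm_nonneg _) (by norm_num)
    have h6 : ‖y - x w‖ = 0 := by
      have := norm_nonneg (y - x w)
      linarith
    exact sub_eq_zero.1 (norm_eq_zero.1 h6)
  refine ⟨x, fun w hw => ⟨?_, hx w hw⟩⟩
  obtain ⟨h1, h2⟩ := hx w hw
  have hw' : ‖w‖ < 9 / 2 := mem_ball_zero_iff.1 hw
  have hmem : x w ∈ ball ξ (2 * δ) := hsub' (mem_ball_iff_norm.2 h1)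
  have hVa : AnalyticAt ℂ V (x w) :=
    hV.analyticAt (isOpen_ball.mem_nhds hmem)
  have hV0 := h0 _ hmem
  set G : ℂ → ℂ := fun y => (y - ξ) / V y with hG
  have hGa : AnalyticAt ℂ G (x w) := (analyticAt_id.sub analyticAt_const).div hVa hV0
  have hGx : G (x w) = w := by
    rw [hG]
    simp only
    rw [div_eq_iff hV0]
    linear_combination h2
  have hVd : HasDerivAt V (deriv V (x w)) (x w) := hVa.differentiableAt.hasDerivAt
  have hGd : HasDerivAt G ((1 * V (x w) - (x w - ξ) * deriv V (x w)) / V (x w) ^ 2) (x w) :=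
    ((hasDerivAt_id (x w)).sub_const ξ).div hVd hV0
  have hV' : ‖deriv V (x w)‖ ≤ 1 / 10 := by
    have hsub : closedBall (x w) (δ / 2) ⊆ ball ξ (2 * δ) := by
      intro y hy
      rw [mem_ball_iff_norm]
      rw [mem_closedBall_iff_norm] at hy
      have : y - ξ = (y - x w) + (x w - ξ) := by ring
      rw [this]
      refine (norm_add_le _ _).trans_lt ?_
      linarith
    have h3 : ‖deriv V (x w)‖ ≤ (δ / 20) / (δ / 2) := by
      refine Complex.norm_deriv_le_of_forall_mem_sphere_norm_le (by positivity) ?_ ?_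
      · exact (hV.mono hsub).diffContOnCl_ball subset_rfl
      · intro y hy
        exact hb y (hsub (sphere_subset_closedBall hy))
    refine h3.trans (le_of_eq ?_)
    field_simp
    norm_num
  have hG' : deriv G (x w) ≠ 0 := by
    rw [hGd.deriv]
    refine div_ne_zero ?_ (pow_ne_zero _ hV0)
    have e : 1 * V (x w) - (x w - ξ) * deriv V (x w) =
        V (x w) * (1 - w * deriv V (x w)) := by
      have : x w - ξ = w * V (x w) := by linear_combination h2
      rw [this]
      ring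
    rw [e]
    refine mul_ne_zero hV0 fun h3 => ?_
    have h4 : w * deriv V (x w) = 1 := by linear_combination -h3
    have h5 := congrArg norm h4
    rw [norm_mul, norm_one] at h5
    have h6 : ‖w‖ * ‖deriv V (x w)‖ ≤ 9 / 2 * (1 / 10) :=
      mul_le_mul hw'.le hV' (norm_nonneg _) (by norm_num)
    linarith
  have hinv := hGa.analyticAt_localInverse hG'
  have hright := hGa.hasStrictDerivAt.eventually_right_inverse hG'
  set ψ := hGa.hasStrictDerivAt.localInverse _ _ _ hG' with hψ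
  have hψ0 : ψ (G (x w)) = x w := HasStrictFDerivAt.localInverse_apply_image ..
  rw [hGx] at hinv hright hψ0
  have hnear : ∀ᶠ w' in 𝓝 w, ‖ψ w' - ξ‖ < δ := by
    have h3 : ContinuousAt (fun w' => ‖ψ w' - ξ‖) w :=
      (hinv.continuousAt.sub continuousAt_const).norm
    refine h3.eventually_lt continuousAt_const ?_
    rw [hψ0]
    exact h1
  have hball : ∀ᶠ w' in 𝓝 w, w' ∈ ball (0 : ℂ) (9 / 2) := isOpen_ball.mem_nhds hw
  refine hinv.congr ?_
  filter_upwards [hright, hnear, hball] with w' e1 e2 e3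
  refine huniq w' e3 _ e2 ?_
  have h4 : (ψ w' - ξ) / V (ψ w') = w' := e1
  rw [div_eq_iff (h0 _ (hsub' (mem_ball_iff_norm.2 e2)))] at h4
  linear_combination h4

end branch

theorem exists_roots0 (n : ℕ) : ∀ f : ℂ[X], f.natDegree = n → f ≠ 0 →
    ∃ ρ : Fin n → ℂ, f = C f.leadingCoeff * ∏ i, (X - C (ρ i)) := by
  induction n with
  | zero =>
    intro f hf _
    refine ⟨Fin.elim0, ?_⟩
    rw [Finset.univ_eq_empty, Finset.prod_empty, mul_one]
    have h1 := eq_C_of_natDegree_eq_zero hf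
    conv_lhs => rw [h1]
    rw [leadingCoeff, hf]
  | succ n ih =>
    intro f hf hf0
    have hd : f.degree ≠ 0 := by
      rw [degree_eq_natDegree hf0, hf]
      exact_mod_cast Nat.succ_ne_zero n
    obtain ⟨e, he⟩ := IsAlgClosed.exists_root f hd
    obtain ⟨g, hg⟩ := dvd_iff_isRoot.2 he
    have hg0 : g ≠ 0 := by
      rintro rfl
      rw [mul_zero] at hg
      exact hf0 hg
    have hgd : g.natDegree = n := by
      rw [hg, natDegree_mul (X_sub_C_ne_zero e) hg0, natDegree_X_sub_C] at hf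
      omega
    obtain ⟨ρ, hρ⟩ := ih g hgd hg0
    refine ⟨Fin.cons e ρ, ?_⟩
    have hl : f.leadingCoeff = g.leadingCoeff := by
      rw [hg, leadingCoeff_mul, leadingCoeff_X_sub_C, one_mul]
    rw [hl, Fin.prod_univ_succ, hg]
    simp only [Fin.cons_zero, Fin.cons_succ]
    conv_lhs => rw [hρ]
    ring

/-- The regulator of a polynomial without zeros in a disc. -/
theorem pr_poly {R : ℝ} (hR : 1 < R) {X : ℝ → ℂ} (hX : ContDiff ℝ 2 X)
    (hper : ∀ s, X (s + 1) = X s) {ξ : ℂ} {δ : ℝ} (hδ : ∀ s, ‖X s - ξ‖ < δ) {P : ℂ[X]}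
    (hP : ∀ x, ‖x - ξ‖ < δ → P.eval x ≠ 0) :
    NZ (fun s => P.eval (X s)) ∧ pr (circ R) (fun s => P.eval (X s)) =
      -(2 * π * ∫ s in (0 : ℝ)..1, Real.log ‖P.eval (X s)‖) := by
  have hR0 : 0 < R := one_pos.trans hR
  have hP0 : P ≠ 0 := by
    rintro rfl
    exact hP _ (hδ 0) eval_zero
  obtain ⟨ρ, hρ⟩ := exists_roots0 P.natDegree P rfl hP0
  have hl0 : P.leadingCoeff ≠ 0 := leadingCoeff_ne_zero.2 hP0
  have hev : ∀ x, P.eval x = P.leadingCoeff * ∏ i, (x - ρ i) := by
    intro x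
    conv_lhs => rw [hρ]
    simp only [eval_mul, eval_C, eval_prod, eval_sub, eval_X]
  have hρδ : ∀ i, δ ≤ ‖ρ i - ξ‖ := by
    intro i
    by_contra hcon
    refine hP (ρ i) (not_le.1 hcon) ?_
    rw [hev, Finset.prod_eq_zero (Finset.mem_univ i) (sub_self _), mul_zero]
  have hne : ∀ i s, X s - ρ i ≠ 0 := by
    intro i s h
    rw [sub_eq_zero] at h
    have h1 := hδ s
    rw [h] at h1
    exact absurd h1 (not_lt.2 (hρδ i))
  have nz : ∀ i, NZ fun s => X s - ρ i := fun i => ⟨hX.sub contDiff_const, hne i⟩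
  have nc : NZ fun _ : ℝ => P.leadingCoeff := ⟨contDiff_const, fun _ => hl0⟩
  have np := NZ.prod Finset.univ nz
  have e1 : (fun s => P.eval (X s)) = fun s => P.leadingCoeff * ∏ i, (X s - ρ i) := by
    funext s
    exact hev _
  refine ⟨by rw [e1]; exact nc.mul np, ?_⟩
  have hz := nz_circ hR0
  rw [e1, pr_mul hz nc np, pr_const hR0, pr_prod Finset.univ hz nz]
  have h2 : ∀ i, pr (circ R) (fun s => X s - ρ i) =
      -(2 * π * ∫ s in (0 : ℝ)..1, Real.log ‖X s - ρ i‖) := by
    intro i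
    refine pr_of_disc hR hX hper (c := ξ) fun s => ?_
    refine (hδ s).trans_le ?_
    rw [norm_sub_rev]
    exact hρδ i
  simp only [h2]
  have h3 : ∀ s, Real.log ‖P.eval (X s)‖ =
      Real.log ‖P.leadingCoeff‖ + ∑ i, Real.log ‖X s - ρ i‖ := by
    intro s
    rw [hev, norm_mul, Real.log_mul (norm_ne_zero_iff.2 hl0)
      (norm_ne_zero_iff.2 (Finset.prod_ne_zero_iff.2 fun i _ => hne i s)), norm_prod,
      Real.log_prod fun i _ => norm_ne_zero_iff.2 (hne i s)]
  simp only [h3]
  rw [intervalIntegral.integral_add (continuous_const.intervalIntegrable _ _)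
    ((continuous_finsetSum _ fun i _ => (nz i).cont_log).intervalIntegrable _ _),
    intervalIntegral.integral_finsetSum fun i _ => (nz i).cont_log.intervalIntegrable _ _]
  rw [intervalIntegral.integral_const, sub_zero, one_smul]
  rw [Finset.sum_neg_distrib, ← Finset.mul_sum]
  ring

end Pool.Agent.H442
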