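import Pool.Agent.H442.Unr
set_option autoImplicit false

/-!
The classes `{z, R(x) / x^j}` on the curves `z + 1/z = t + x R(x) M(x) / D(x)`, where
`R ≡ X^j` modulo `D`: they are unramified at all discrete valuations.
-/

namespace Pool.Agent.H442

open Polynomial

open scoped WithZero

open Pool.Agent.TH826.MK (KQ symb unitPart Unramified)

open Pool.Agent.Helper537_Sym

section gen

variable {L : Type*} [Field L] (v : Valuation L ℤᵐ⁰)

/-- If `q` is integral and `z² + 1 = (t + q) z`, then `z` is a unit. -/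
theorem val_z0 {t : ℤ} {q z : L} (hz0 : z ≠ 0) (h : z ^ 2 + 1 = (t + q) * z) (hq : v q ≤ 1) :
    v z = 1 := by
  have hq1 : v (t + q) ≤ 1 := (v.map_add _ _).trans (max_le (val_int_le v t) hq)
  rcases lt_trichotomy (v z) 1 with h1 | h1 | h1
  · exfalso
    have h2 : v (z ^ 2 + 1) = 1 := by
      rw [add_comm]
      refine Valuation.map_one_add_of_lt v ?_
      rw [map_pow]
      exact pow_lt_one₀ zero_le h1 (by norm_num)
    rw [h, map_mul] at h2
    have h3 : v (t + q) * v z < 1 := by
      calc v (t + q) * v z ≤ 1 * v z := mul_le_mul_left hq1 _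
        _ = v z := one_mul _
        _ < 1 := h1
    exact h3.ne h2
  · exact h1
  · exfalso
    have h2 : v (z ^ 2 + 1) = v z ^ 2 := by
      rw [← map_pow]
      refine Valuation.map_add_eq_of_lt_left v ?_
      rw [map_one, map_pow]
      exact one_lt_pow₀ h1 (by norm_num)
    rw [h, map_mul, pow_two] at h2
    have h3 : v (t + q) = v z := mul_right_cancel₀ ((Valuation.ne_zero_iff v).2 hz0) h2
    rw [h3] at hq1
    exact absurd h1 (not_lt.2 hq1)

/-- If `q` is topologically nilpotent, then `z` is a root of unity modulo `v`. -/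
theorem mem_tors0 {t : ℤ} (ht : |t| ≤ 2) {q : L} {z : Lˣ}
    (h : (z : L) ^ 2 + 1 = (t + q) * z) (hq : v q < 1) (w : Lˣ) : sy z w ∈ unitPart v 2 := by
  have hz := val_z0 v z.ne_zero h hq.le
  refine sy_mem_left_pow v (m := 12) (by norm_num) (pow12 v ht hz.le ?_)
  have e : (z : L) ^ 2 - t * z + 1 = q * z := by linear_combination h
  rw [e, map_mul, hz, mul_one]
  exact hq

end gen

section main

variable {O L : Type*} [CommRing O] [Field L] [Algebra O L] {v : Valuation L ℤᵐ⁰}

theorem val_aeval_le (hO : ∀ a : O, v (algebraMap O L a) ≤ 1) {x : L} (hx : v x ≤ 1)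
    (P : O[X]) : v (aeval x P) ≤ 1 := by
  rw [aeval_eq_sum_range]
  refine v.map_sum_le fun i _ => ?_
  rw [Algebra.smul_def, map_mul, map_pow]
  exact mul_le_one' (hO _) (pow_le_one₀ zero_le hx)

theorem aeval_inf (hO : ∀ a : O, v (algebraMap O L a) ≤ 1) {x : L} (hx : 1 < v x) {P : O[X]}
    (hP : P.Monic) : v (aeval x P / x ^ P.natDegree - 1) < 1 := by
  have hx0 : x ≠ 0 := by
    intro h
    rw [h, map_zero] at hx
    exact absurd hx (not_lt.2 zero_le)
  have e : aeval x P / x ^ P.natDegree - 1 =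
      ∑ i ∈ Finset.range P.natDegree, algebraMap O L (P.coeff i) * (x ^ i / x ^ P.natDegree) := by
    rw [aeval_eq_sum_range, Finset.sum_range_succ, Algebra.smul_def, hP.coeff_natDegree, map_one,
      one_mul, add_div, div_self (pow_ne_zero _ hx0), add_sub_cancel_right, Finset.sum_div]
    refine Finset.sum_congr rfl fun i _ => ?_
    rw [Algebra.smul_def, mul_div_assoc]
  rw [e]
  refine v.map_sum_lt one_ne_zero fun i hi => ?_
  rw [map_mul, mul_comm]
  refine mul_lt_one_of_lt_of_le ?_ (hO _)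
  rw [map_div₀, map_pow, map_pow, div_lt_one₀ (pow_pos (zero_lt_one.trans hx) _)]
  exact pow_lt_pow_right₀ hx (Finset.mem_range.1 hi)

/-- the points with a pole of `x`, `|z| ≥ 1` -/
theorem mem2_inf_aux (hO : ∀ a : O, v (algebraMap O L a) ≤ 1) {t : ℤ} {D R M : O[X]}
    (hD : D.Monic) (hR : R.Monic) (hM : M.Monic)
    (hdeg : D.natDegree < 1 + R.natDegree + M.natDegree) (j : ℕ) {x z r d : Lˣ}
    (hd : (d : L) = aeval (x : L) D) (hr : (r : L) = aeval (x : L) R)
    (h : (z : L) ^ 2 + 1 = (t + x * r * aeval (x : L) M / d) * z)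
    (hx : 1 < v (x : L)) (hz : 1 ≤ v (z : L)) : sy z (r / x ^ j) ∈ unitPart v 2 := by
  have hx0 : (x : L) ≠ 0 := x.ne_zero
  have hz0 : (z : L) ≠ 0 := z.ne_zero
  obtain ⟨e, he⟩ : ∃ e : ℕ, 1 + R.natDegree + M.natDegree = D.natDegree + (e + 1) :=
    ⟨1 + R.natDegree + M.natDegree - D.natDegree - 1, by omega⟩
  have uD := aeval_inf hO hx hD
  have uR := aeval_inf hO hx hR
  have uM := aeval_inf hO hx hM
  have hxpos : 0 < v (x : L) := zero_lt_one.trans hx
  -- `x R M / D = x^(e+1) * one-unit`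
  set uq : L := (aeval (x : L) R / (x : L) ^ R.natDegree) *
    ((aeval (x : L) M / (x : L) ^ M.natDegree) * (aeval (x : L) D / (x : L) ^ D.natDegree)⁻¹)
    with huq
  have huq1 : v (uq - 1) < 1 := one_mul' v uR (one_mul' v uM (one_inv' v uD))
  have hq : (x : L) * r * aeval (x : L) M / d = (x : L) ^ (e + 1) * uq := by
    rw [huq, hr, hd]
    have hD0 : aeval (x : L) D ≠ 0 := by rw [← hd]; exact d.ne_zero
    have e1 : (x : L) ^ (1 + R.natDegree + M.natDegree) = (x : L) ^ (D.natDegree + (e + 1)) := by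
      rw [he]
    rw [pow_add, pow_add, pow_one, pow_add] at e1
    have n1 : (x : L) ^ R.natDegree ≠ 0 := pow_ne_zero _ hx0
    have n2 : (x : L) ^ M.natDegree ≠ 0 := pow_ne_zero _ hx0
    have n3 : (x : L) ^ D.natDegree ≠ 0 := pow_ne_zero _ hx0
    rw [inv_div]
    field_simp
    linear_combination (aeval (x : L) R) * (aeval (x : L) M) * e1
  have hz1 : v (((z / x ^ (e + 1) : Lˣ) : L) - 1) < 1 := by
    have e2 : ((z / x ^ (e + 1) : Lˣ) : L) - 1 = (uq - 1) + (t - (z : L)⁻¹) / (x : L) ^ (e + 1) := by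
      rw [Units.val_div_eq_div_val, Units.val_pow_eq_pow_val]
      rw [hq] at h
      have h4 : (x : L) ^ (e + 1) ≠ 0 := pow_ne_zero _ hx0
      field_simp
      linear_combination h
    rw [e2]
    refine (v.map_add _ _).trans_lt (max_lt huq1 ?_)
    rw [map_div₀, map_pow]
    have h5 : 1 < v (x : L) ^ (e + 1) := one_lt_pow₀ hx (by omega)
    rw [div_lt_one₀ (zero_lt_one.trans h5)]
    refine lt_of_le_of_lt ((v.map_sub _ _).trans (max_le (val_int_le v t) ?_)) h5
    rw [map_inv₀]
    exact inv_le_one_of_one_le₀ hz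
  have hXX : sy z x ∈ unitPart v 2 := by
    have e1 : z = (z / x ^ (e + 1)) * x ^ (e + 1) := by rw [div_mul_cancel]
    rw [e1, sy_mul_left, sy_pow_left, sy_self, smul_zero, add_zero]
    exact sy_mem_left v hz1
  have hr1 : v (((r / x ^ R.natDegree : Lˣ) : L) - 1) < 1 := by
    rw [Units.val_div_eq_div_val, Units.val_pow_eq_pow_val, hr]
    exact uR
  have e3 : r / x ^ j = (r / x ^ R.natDegree) * (x ^ ((R.natDegree : ℤ) - j)) := by
    rw [zpow_sub, zpow_natCast, zpow_natCast, div_mul_eq_mul_div, div_eq_mul_inv, div_eq_mul_inv]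
    group
  rw [e3, sy_mul_right, sy_zpow_right]
  exact Submodule.add_mem _ (sy_mem_right v hr1) (Submodule.smul_mem _ _ hXX)

theorem mem2_inf (hO : ∀ a : O, v (algebraMap O L a) ≤ 1) {t : ℤ} {D R M : O[X]}
    (hD : D.Monic) (hR : R.Monic) (hM : M.Monic)
    (hdeg : D.natDegree < 1 + R.natDegree + M.natDegree) (j : ℕ) {x z r d : Lˣ}
    (hd : (d : L) = aeval (x : L) D) (hr : (r : L) = aeval (x : L) R)
    (h : (z : L) ^ 2 + 1 = (t + x * r * aeval (x : L) M / d) * z)
    (hx : 1 < v (x : L)) : sy z (r / x ^ j) ∈ unitPart v 2 := by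
  rcases le_or_gt 1 (v (z : L)) with h1 | h1
  · exact mem2_inf_aux hO hD hR hM hdeg j hd hr h hx h1
  · have h2 : 1 ≤ v ((z⁻¹ : Lˣ) : L) := by
      rw [Units.val_inv_eq_inv_val, map_inv₀]
      have h3 : 0 < v (z : L) := zero_lt_iff.2 ((Valuation.ne_zero_iff v).2 z.ne_zero)
      exact (one_le_inv₀ h3).2 h1.le
    have h' : ((z⁻¹ : Lˣ) : L) ^ 2 + 1 =
        (t + x * r * aeval (x : L) M / d) * ((z⁻¹ : Lˣ) : L) := by
      have hz0 : (z : L) ≠ 0 := z.ne_zero
      rw [Units.val_inv_eq_inv_val]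
      generalize (t + x * r * aeval (x : L) M / d : L) = q at h ⊢
      field_simp
      linear_combination h
    have h3 := mem2_inf_aux hO hD hR hM hdeg j hd hr h' hx h2
    rw [sy_inv_left] at h3
    exact (Submodule.neg_mem_iff _).1 h3

/-- The classes `{z, R(x)/x^j}` are unramified. -/
theorem mem2 (hO : ∀ a : O, v (algebraMap O L a) ≤ 1) {t : ℤ} (ht : |t| ≤ 2) {D R M Q : O[X]}
    (hD : D.Monic) (hR : R.Monic) (hM : M.Monic)
    (hdeg : D.natDegree < 1 + R.natDegree + M.natDegree) {j : ℕ}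
    (hQ : X ^ j - R = D * Q) {x z r d : Lˣ}
    (hd : (d : L) = aeval (x : L) D) (hr : (r : L) = aeval (x : L) R)
    (h : (z : L) ^ 2 + 1 = (t + x * r * aeval (x : L) M / d) * z) :
    sy z (r / x ^ j) ∈ unitPart v 2 := by
  rcases lt_or_ge 1 (v (x : L)) with hx | hx
  · exact mem2_inf hO hD hR hM hdeg j hd hr h hx
  have hx0 : (x : L) ≠ 0 := x.ne_zero
  have hr0 : (r : L) ≠ 0 := r.ne_zero
  have hd0 : (d : L) ≠ 0 := d.ne_zero
  have vx : 0 < v (x : L) := zero_lt_iff.2 ((Valuation.ne_zero_iff v).2 hx0)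
  have vr : 0 < v (r : L) := zero_lt_iff.2 ((Valuation.ne_zero_iff v).2 hr0)
  have vd : 0 < v (d : L) := zero_lt_iff.2 ((Valuation.ne_zero_iff v).2 hd0)
  have hM1 := val_aeval_le (v := v) hO hx M
  have hQ1 := val_aeval_le (v := v) hO hx Q
  have hR1 : v (r : L) ≤ 1 := by rw [hr]; exact val_aeval_le hO hx R
  have hD1 : v (d : L) ≤ 1 := by rw [hd]; exact val_aeval_le hO hx D
  have hQ' : (x : L) ^ j - r = d * aeval (x : L) Q := by
    have h1 := congrArg (aeval (x : L)) hQ
    rw [map_sub, map_pow, aeval_X, map_mul, ← hr, ← hd] at h1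
    exact h1
  rcases lt_or_ge (v ((x : L) * r * aeval (x : L) M)) (v (d : L)) with hI | hII
  · refine mem_tors0 v ht h ?_ _
    rw [map_div₀]
    exact (div_lt_one₀ vd).2 hI
  -- `|D| ≤ |x| |R|`
  have hII' : v (d : L) ≤ v (x : L) * v (r : L) := by
    refine hII.trans ?_
    rw [map_mul, map_mul]
    exact mul_le_of_le_one_right' hM1
  have hdq : v ((x : L) ^ j - r) ≤ v (d : L) := by
    rw [hQ', map_mul]
    exact mul_le_of_le_one_right' hQ1
  have e1 : (((r / x ^ j : Lˣ) : L)) - 1 = -((d * aeval (x : L) Q) / (x : L) ^ j) := by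
    rw [← hQ', Units.val_div_eq_div_val, Units.val_pow_eq_pow_val]
    field_simp
    ring
  rcases hx.eq_or_lt with hx1 | hx1
  · -- `x` is a unit
    have hr1 : v (r : L) = 1 := by
      refine le_antisymm hR1 ?_
      by_contra hcon
      rw [not_le] at hcon
      have h2 : v ((x : L) ^ j - r) = 1 := by
        rw [Valuation.map_sub_eq_of_lt_left, map_pow, hx1, one_pow]
        rw [map_pow, hx1, one_pow]
        exact hcon
      rw [h2] at hdq
      have h3 : v (d : L) < 1 := hII'.trans_lt (by rw [hx1, one_mul]; exact hcon)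
      exact absurd hdq (not_le.2 h3)
    rcases hD1.eq_or_lt with hd1 | hd1
    · refine sy_mem_units v (val_z0 v z.ne_zero h ?_) ?_
      · rw [map_div₀, map_mul, map_mul, hx1, hr1, hd1, one_mul, one_mul, div_one]
        exact hM1
      · rw [Units.val_div_eq_div_val, Units.val_pow_eq_pow_val, map_div₀, map_pow, hx1, hr1,
          one_pow, div_one]
    · refine sy_mem_right v ?_
      rw [e1, Valuation.map_neg, map_div₀, map_mul, map_pow, hx1, one_pow, div_one]
      exact mul_lt_one_of_lt_of_le hd1 hQ1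
  · -- `|R| = |x|^j`
    have hrj : v (r : L) = v (x : L) ^ j := by
      rcases lt_trichotomy (v (r : L)) (v (x : L) ^ j) with h2 | h2 | h2
      · exfalso
        have h3 : v ((x : L) ^ j - r) = v (x : L) ^ j := by
          rw [Valuation.map_sub_eq_of_lt_left, map_pow]
          rw [map_pow]
          exact h2
        rw [h3] at hdq
        have h4 : v (x : L) ^ j < v (x : L) ^ j := by
          calc v (x : L) ^ j ≤ v (x : L) * v (r : L) := hdq.trans hII'
            _ ≤ 1 * v (r : L) := mul_le_mul_left hx _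
            _ = v (r : L) := one_mul _
            _ < v (x : L) ^ j := h2
        exact lt_irrefl _ h4
      · exact h2
      · exfalso
        have h3 : v ((x : L) ^ j - r) = v (r : L) := by
          rw [Valuation.map_sub_eq_of_lt_right]
          rw [map_pow]
          exact h2
        rw [h3] at hdq
        have h4 : v (r : L) < v (r : L) := by
          calc v (r : L) ≤ v (x : L) * v (r : L) := hdq.trans hII'
            _ < 1 * v (r : L) := mul_lt_mul_of_pos_right hx1 vr
            _ = v (r : L) := one_mul _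
        exact lt_irrefl _ h4
    refine sy_mem_right v ?_
    rw [e1, Valuation.map_neg, map_div₀, map_mul, map_pow,
      div_lt_one₀ (pow_pos vx j)]
    calc v (d : L) * v (aeval (x : L) Q) ≤ v (d : L) := mul_le_of_le_one_right' hQ1
      _ ≤ v (x : L) * v (r : L) := hII'
      _ < 1 * v (r : L) := mul_lt_mul_of_pos_right hx1 vr
      _ = v (x : L) ^ j := by rw [one_mul, hrj]

end main

end Pool.Agent.H442
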