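import Pool.Agent.H442.Core
import Pool.Agent.H442.Unr2
import Pool.Agent.H442.Loop2
set_option autoImplicit false

/-!
The curves `z + 1/z = t + A(X) / D(X)`, `X = μ x + ν`, as hyperelliptic curves `y² = f(x)`:
classes in `K_2` and loops.
-/

namespace Pool.Agent.H442

open Polynomial

open scoped WithZero

open Pool.Agent.TH826.MK (Torus KQ symb pairing circ norm_circ contDiff_circ circ_add_one
  Unramified unitPart val_le_one_of_integral)

open Pool.Agent.TH826.UH

open Pool.Agent.Helper537_Sym (sy)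

/-- The polynomial `κ² ((A + t D)² - 4 D²)(μ x + ν)`. -/
noncomputable def fc {K : Type*} [CommRing K] (t : ℤ) (A D : K[X]) (κ μ ν : K) : K[X] :=
  C κ ^ 2 * ((A + (t : K[X]) * D) ^ 2 - 4 * D ^ 2).comp (C μ * X + C ν)

theorem fc_map {K K' : Type*} [CommRing K] [CommRing K'] (σ : K →+* K') (t : ℤ) (A D : K[X])
    (κ μ ν : K) : (fc t A D κ μ ν).map σ = fc t (A.map σ) (D.map σ) (σ κ) (σ μ) (σ ν) := by
  unfold fc
  simp only [Polynomial.map_mul, Polynomial.map_pow, Polynomial.map_comp, Polynomial.map_sub,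
    Polynomial.map_add, Polynomial.map_C, Polynomial.map_X, Polynomial.map_intCast,
    Polynomial.map_ofNat]

section alg

variable {K : Type*} [Field K] {t : ℤ} {A D : K[X]} {κ μ ν : K} (L : Type*) [Field L]
  [Algebra (HRing (fc t A D κ μ ν)) L] [IsFractionRing (HRing (fc t A D κ μ ν)) L]

/-- The embedding of the polynomials in `x` into the function field. -/
noncomputable def ph : K[X] →+* L :=
  (algebraMap (HRing (fc t A D κ μ ν)) L).comp (AdjoinRoot.of _)

theorem ph_injective : Function.Injective (ph (t := t) (A := A) (D := D) (κ := κ) (μ := μ)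
    (ν := ν) L) :=
  (IsFractionRing.injective (HRing (fc t A D κ μ ν)) L).comp (of_injective _)

/-- The embedding of the polynomials in `X = μ x + ν` into the function field. -/
noncomputable def gP : K[X] →+* L :=
  (ph (t := t) (A := A) (D := D) (κ := κ) (μ := μ) (ν := ν) L).comp
    (compRingHom (C μ * X + C ν))

/-- the function `Y = y / κ` -/
noncomputable def gY : L := algebraMap (HRing (fc t A D κ μ ν)) L (AdjoinRoot.root _) /
  gP (t := t) (A := A) (D := D) (κ := κ) (μ := μ) (ν := ν) L (C κ)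

/-- the function `z = (A + t D + Y) / (2 D)` -/
noncomputable def gz : L := (gP (t := t) (A := A) (D := D) (κ := κ) (μ := μ) (ν := ν) L A +
  t * gP (t := t) (A := A) (D := D) (κ := κ) (μ := μ) (ν := ν) L D +
  gY (t := t) (A := A) (D := D) (κ := κ) (μ := μ) (ν := ν) L) /
  (2 * gP (t := t) (A := A) (D := D) (κ := κ) (μ := μ) (ν := ν) L D)

variable {L}

theorem gP_injective (hμ : μ ≠ 0) : Function.Injective (gP (t := t) (A := A) (D := D) (κ := κ)
    (μ := μ) (ν := ν) L) := by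
  unfold gP
  rw [RingHom.coe_comp]
  refine (ph_injective L).comp ?_
  rw [injective_iff_map_eq_zero]
  intro p hp
  rw [coe_compRingHom_apply] at hp
  have hd : (C μ * X + C ν).natDegree ≠ 0 := by
    rw [natDegree_linear hμ]
    exact one_ne_zero
  rcases comp_eq_zero_iff.1 hp with h | ⟨-, h⟩
  · exact h
  · exfalso
    apply hd
    rw [h, natDegree_C]

theorem gP_ne_zero (hμ : μ ≠ 0) {p : K[X]} (hp : p ≠ 0) : gP (t := t) (A := A) (D := D) (κ := κ)
    (μ := μ) (ν := ν) L p ≠ 0 := by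
  intro h
  exact hp (gP_injective hμ (by rw [h, map_zero]))

theorem gY_sq (hμ : μ ≠ 0) (hκ : κ ≠ 0) :
    gY (t := t) (A := A) (D := D) (κ := κ) (μ := μ) (ν := ν) L ^ 2 =
    (gP (t := t) (A := A) (D := D) (κ := κ) (μ := μ) (ν := ν) L A +
      t * gP (t := t) (A := A) (D := D) (κ := κ) (μ := μ) (ν := ν) L D) ^ 2 -
      4 * gP (t := t) (A := A) (D := D) (κ := κ) (μ := μ) (ν := ν) L D ^ 2 := by
  have hroot : algebraMap (HRing (fc t A D κ μ ν)) L (AdjoinRoot.root _) ^ 2 =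
      ph (t := t) (A := A) (D := D) (κ := κ) (μ := μ) (ν := ν) L (fc t A D κ μ ν) := by
    rw [← map_pow, root_sq]
    rfl
  have h1 : ph (t := t) (A := A) (D := D) (κ := κ) (μ := μ) (ν := ν) L (fc t A D κ μ ν) =
      gP (t := t) (A := A) (D := D) (κ := κ) (μ := μ) (ν := ν) L (C κ) ^ 2 *
      ((gP (t := t) (A := A) (D := D) (κ := κ) (μ := μ) (ν := ν) L A +
      t * gP (t := t) (A := A) (D := D) (κ := κ) (μ := μ) (ν := ν) L D) ^ 2 -
      4 * gP (t := t) (A := A) (D := D) (κ := κ) (μ := μ) (ν := ν) L D ^ 2) := by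
    have e : ∀ p : K[X], gP (t := t) (A := A) (D := D) (κ := κ) (μ := μ) (ν := ν) L p =
        ph (t := t) (A := A) (D := D) (κ := κ) (μ := μ) (ν := ν) L (p.comp (C μ * X + C ν)) :=
      fun p => rfl
    simp only [e]
    conv_lhs => unfold fc
    simp only [sub_comp, pow_comp, add_comp, mul_comp, intCast_comp, ofNat_comp, C_comp, map_mul,
      map_sub, map_pow, map_add, map_intCast, Nat.cast_ofNat, map_ofNat]
  have h2 := gP_ne_zero (t := t) (A := A) (D := D) (κ := κ) (ν := ν) (L := L) hμ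
    (C_ne_zero.2 hκ)
  unfold gY
  rw [div_pow, hroot, h1]
  field_simp

variable [CharZero K]

theorem gz_eq (hμ : μ ≠ 0) (hκ : κ ≠ 0) (hD : D ≠ 0) :
    gz (t := t) (A := A) (D := D) (κ := κ) (μ := μ) (ν := ν) L ^ 2 + 1 =
    (t + gP (t := t) (A := A) (D := D) (κ := κ) (μ := μ) (ν := ν) L A /
      gP (t := t) (A := A) (D := D) (κ := κ) (μ := μ) (ν := ν) L D) *
      gz (t := t) (A := A) (D := D) (κ := κ) (μ := μ) (ν := ν) L := by
  have h0 := gP_ne_zero (t := t) (A := A) (D := D) (κ := κ) (ν := ν) (L := L) hμ hD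
  have h1 := gY_sq (L := L) (t := t) (A := A) (D := D) (ν := ν) hμ hκ
  have h2 : (2 : L) ≠ 0 := by
    have h3 := gP_ne_zero (t := t) (A := A) (D := D) (κ := κ) (ν := ν) (L := L) hμ (p := C 2)
      (C_ne_zero.2 two_ne_zero)
    rwa [C_ofNat, map_ofNat] at h3
  unfold gz
  field_simp
  linear_combination h1

theorem gz_ne_zero (hμ : μ ≠ 0) (hκ : κ ≠ 0) (hD : D ≠ 0) :
    gz (t := t) (A := A) (D := D) (κ := κ) (μ := μ) (ν := ν) L ≠ 0 := by
  intro h
  have h1 := gz_eq (L := L) (t := t) (A := A) (ν := ν) hμ hκ hD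
  rw [h] at h1
  norm_num at h1

end alg

section cls

variable {K : Type*} [Field K] [CharZero K] {O : Type*} [CommRing O] [Algebra O K]

/-- The classes `{z, R(X)/X^j}` are unramified. -/
theorem cls2 (hO : ∀ a : O, IsIntegral ℤ a) {t : ℤ} (ht : |t| ≤ 2) {D R M Q : O[X]}
    (hD : D.Monic) (hR : R.Monic) (hM : M.Monic)
    (hdeg : D.natDegree < 1 + R.natDegree + M.natDegree) {j : ℕ} (hQ : X ^ j - R = D * Q)
    {A' D' R' : K[X]} (hA' : A' = X * R' * M.map (algebraMap O K))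
    (hD' : D' = D.map (algebraMap O K)) (hR' : R' = R.map (algebraMap O K)) {κ μ ν : K}
    (hκ : κ ≠ 0) (hμ : μ ≠ 0) (L : Type*) [Field L] [Algebra (HRing (fc t A' D' κ μ ν)) L]
    [IsFractionRing (HRing (fc t A' D' κ μ ν)) L] (z x r : Lˣ)
    (hz : (z : L) = gz (t := t) (A := A') (D := D') (κ := κ) (μ := μ) (ν := ν) L)
    (hx : (x : L) = gP (t := t) (A := A') (D := D') (κ := κ) (μ := μ) (ν := ν) L X)
    (hr : (r : L) = gP (t := t) (A := A') (D := D') (κ := κ) (μ := μ) (ν := ν) L R') :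
    sy z (r / x ^ j) ∈ Unramified L 2 := by
  unfold Unramified
  simp only [Submodule.mem_iInf]
  intro v _
  set φ := gP (t := t) (A := A') (D := D') (κ := κ) (μ := μ) (ν := ν) L with hφ
  set ψ : O →+* L := φ.comp (C.comp (algebraMap O K)) with hψ
  let _ : Algebra O L := ψ.toAlgebra
  have hval : ∀ a : O, v (algebraMap O L a) ≤ 1 := by
    intro a
    refine val_le_one_of_integral v ?_
    exact map_isIntegral_int ψ (hO a)
  have hae : ∀ P : O[X], φ (P.map (algebraMap O K)) = aeval (x : L) P := by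
    intro P
    rw [hx, aeval_def]
    have e : P.map (algebraMap O K) = P.eval₂ (C.comp (algebraMap O K)) X := by
      rw [← eval₂_map, eval₂_C_X]
    rw [e, hom_eval₂]
    rfl
  have hDm : D'.Monic := by rw [hD']; exact hD.map _
  have hd0 : φ D' ≠ 0 := gP_ne_zero hμ hDm.ne_zero
  refine mem2 hval ht hD hR hM hdeg hQ (d := Units.mk0 _ hd0) ?_ ?_ ?_
  · rw [Units.val_mk0, hD', hae]
  · rw [hr, hR', hae]
  · rw [Units.val_mk0, hz]
    have h1 := gz_eq (L := L) (t := t) (A := A') (D := D') (κ := κ) (μ := μ) (ν := ν) hμ hκ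
      hDm.ne_zero
    rw [h1, ← hφ]
    have h2 : φ A' = x * r * aeval (x : L) M := by
      rw [hA', map_mul, map_mul, ← hx, ← hr, hae]
    rw [h2]

end cls

section loops

variable {K : Type*} [Field K] [Algebra ℚ K] [Algebra.IsAlgebraic ℚ K] {t : ℤ}
  {A D : K[X]} {κ μ ν : K} {σ : K →+* ℂ} {R : ℝ}

theorem eval₂_mem_EE (P : K[X]) {x : ℂ} (hx : x ∈ EE) : P.eval₂ σ x ∈ EE := by
  rw [eval₂_eq_sum_range]
  exact sum_mem fun i _ => mul_mem (map_mem_EE σ _) (pow_mem hx i)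

/-- A loop in the curve. -/
structure Lq (σ : K →+* ℂ) (t : ℤ) (A D : K[X]) (R : ℝ) (Xs : ℝ → ℂ) : Prop where
  R1 : 1 < R
  smooth : ContDiff ℝ 2 Xs
  per : ∀ s, Xs (s + 1) = Xs s
  ne : ∀ s, D.eval₂ σ (Xs s) ≠ 0
  eq : ∀ s, A.eval₂ σ (Xs s) = (circ R s + (circ R s)⁻¹ - t) * D.eval₂ σ (Xs s)

theorem Lq.tr {Xs : ℝ → ℂ} (H : Lq σ t A D R Xs) (hR : Transcendental ℚ R) (s : ℝ) :
    Xs s ∉ EE := by
  intro h
  have hR0 : 0 < R := one_pos.trans H.R1
  have hz : circ R s ∉ EE := not_mem_EE.2 (transcendental_of_norm hR (norm_circ hR0.le s))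
  apply hz
  refine quad_mem_EE (b := t + A.eval₂ σ (Xs s) / D.eval₂ σ (Xs s)) ?_ ?_
  · exact add_mem (intCast_mem _ t) (div_mem (eval₂_mem_EE A h) (eval₂_mem_EE D h))
  · have h1 := H.eq s
    have h2 := H.ne s
    have h3 : circ R s ≠ 0 := (nz_circ hR0).ne_zero s
    rw [h1, mul_div_cancel_right₀ _ h2]
    field_simp
    ring

theorem Lq.exists_torus {Xs : ℝ → ℂ} (H : Lq σ t A D R Xs) (hR : Transcendental ℚ R)
    (hκ : κ ≠ 0) (hμ : μ ≠ 0) (hf : Squarefree (fc t A D κ μ ν))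
    (hd : 0 < (fc t A D κ μ ν).natDegree) (L : Type*) [Field L]
    [Algebra (HRing (fc t A D κ μ ν)) L] [IsFractionRing (HRing (fc t A D κ μ ν)) L] :
    ∃ Γ : Torus L 1, ∀ θ, (Γ.e θ (gz (t := t) (A := A) (D := D) (κ := κ) (μ := μ) (ν := ν) L) =
      circ R (θ 0)) ∧ ∀ P : K[X], Γ.e θ (gP (t := t) (A := A) (D := D) (κ := κ) (μ := μ)
        (ν := ν) L P) = P.eval₂ σ (Xs (θ 0)) := by
  have hσμ : σ μ ≠ 0 := (map_ne_zero σ).2 hμ
  have hσκ : σ κ ≠ 0 := (map_ne_zero σ).2 hκ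
  set xs : ℝ → ℂ := fun s => (Xs s - σ ν) / σ μ with hxs
  set Ys : ℝ → ℂ := fun s => 2 * D.eval₂ σ (Xs s) * circ R s -
    (A.eval₂ σ (Xs s) + t * D.eval₂ σ (Xs s)) with hYs
  set ys : ℝ → ℂ := fun s => σ κ * Ys s with hys
  have hpol : ∀ P : K[X], ContDiff ℝ 2 fun s => P.eval₂ σ (Xs s) := by
    intro p
    have e : (fun s => p.eval₂ σ (Xs s)) = fun s =>
        ∑ i ∈ Finset.range (p.natDegree + 1), σ (p.coeff i) * (Xs s) ^ i := by
      funext s
      rw [Polynomial.eval₂_eq_sum_range]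
    rw [e]
    exact ContDiff.sum fun i _ => contDiff_const.mul (H.smooth.pow i)
  have hxc : ContDiff ℝ 2 xs := by
    have e : xs = fun s => (Xs s - σ ν) * (σ μ)⁻¹ := by
      funext s
      rw [hxs]
      simp only [div_eq_mul_inv]
    rw [e]
    exact (H.smooth.sub contDiff_const).mul contDiff_const
  have hYc : ContDiff ℝ 2 Ys :=
    ((contDiff_const.mul (hpol D)).mul (contDiff_circ R)).sub
      ((hpol A).add (contDiff_const.mul (hpol D)))
  have hyc : ContDiff ℝ 2 ys := contDiff_const.mul hYc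
  have hx1 : ∀ s, xs (s + 1) = xs s := by
    intro s
    simp only [hxs, H.per]
  have hy1 : ∀ s, ys (s + 1) = ys s := by
    intro s
    simp only [hys, hYs, H.per, circ_add_one]
  have hlin : ∀ s, (C μ * X + C ν : K[X]).eval₂ σ (xs s) = Xs s := by
    intro s
    simp only [eval₂_add, eval₂_mul, eval₂_C, eval₂_X, hxs]
    field_simp
    ring
  have hcomp : ∀ (P : K[X]) s, (P.comp (C μ * X + C ν)).eval₂ σ (xs s) = P.eval₂ σ (Xs s) := by
    intro P s
    rw [eval₂_comp, hlin]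
  have hz0 : ∀ s, circ R s ≠ 0 := (nz_circ (one_pos.trans H.R1)).ne_zero
  have hP : ∀ s, ys s ^ 2 = (fc t A D κ μ ν).eval₂ σ (xs s) := by
    intro s
    have ht : eval₂ σ (Xs s) (t : K[X]) = t := map_intCast (eval₂RingHom σ _) t
    unfold fc
    rw [eval₂_mul, eval₂_pow, eval₂_C, hcomp]
    simp only [eval₂_sub, eval₂_pow, eval₂_add, eval₂_mul, eval₂_ofNat, ht]
    simp only [hys, hYs]
    have h1 := H.eq s
    have h2 := hz0 s
    rw [h1]
    field_simp
    ring
  have htr : ∀ s, TrOver σ (xs s) := by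
    intro s
    refine TrOver.of_rat σ (not_mem_EE.1 fun h => H.tr hR s ?_)
    rw [← hlin s]
    exact eval₂_mem_EE _ h
  have hi := fun s => evH_inj σ hf hd (hP s) (htr s)
  refine ⟨mkT L hxc hyc hx1 hy1 hP hi, fun θ => ?_⟩
  have hphi : ∀ P : K[X], (mkT L hxc hyc hx1 hy1 hP hi).e θ
      (gP (t := t) (A := A) (D := D) (κ := κ) (μ := μ) (ν := ν) L P) =
        P.eval₂ σ (Xs (θ 0)) := by
    intro P
    have h1 := mkT_e (L := L) hxc hyc hx1 hy1 hP hi θ
      (AdjoinRoot.of _ (P.comp (C μ * X + C ν)))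
    rw [evH_of, hcomp] at h1
    exact h1
  have hroot : (mkT L hxc hyc hx1 hy1 hP hi).e θ
      (algebraMap (HRing (fc t A D κ μ ν)) L (AdjoinRoot.root _)) = ys (θ 0) := by
    have h1 := mkT_e (L := L) hxc hyc hx1 hy1 hP hi θ (AdjoinRoot.root _)
    rw [evH_root] at h1
    exact h1
  refine ⟨?_, hphi⟩
  unfold gz gY
  rw [map_div₀, map_add, map_add, map_mul, map_mul, map_div₀, hphi, hphi, hphi, hroot,
    map_intCast, map_ofNat, eval₂_C]
  have h2 := H.ne (θ 0)
  simp only [hys, hYs]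
  field_simp
  ring

end loops

end Pool.Agent.H442
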