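import Pool.Agent.H442.Fam
set_option autoImplicit false

/-!
The sextics `y² = A (A + 4 l₁ l₂²)`, where `A = ∏ (l₁ - α_i l₂)` with `α_i ∈ {s, s², s³, ...}` and
`l₁`, `l₂` are linear forms with rational coefficients, are Zariski dense among all sextics.
-/

namespace Pool.Agent.H442

open Polynomial

/-- the value of a polynomial in the coefficients of `f` -/
noncomputable def HV (H : MvPolynomial (Fin 7) ℚ) (f : ℂ[X]) : ℂ :=
  MvPolynomial.aeval (fun i : Fin 7 => f.coeff i) H

theorem HV_continuous (H : MvPolynomial (Fin 7) ℚ) {T : Type*} [TopologicalSpace T]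
    {f : T → ℂ[X]} (hf : ∀ i : Fin 7, Continuous fun τ => (f τ).coeff i) :
    Continuous fun τ => HV H (f τ) := by
  have e : ∀ τ, HV H (f τ) = MvPolynomial.eval (fun i : Fin 7 => (f τ).coeff i)
      (MvPolynomial.map (algebraMap ℚ ℂ) H) := by
    intro τ
    unfold HV
    rw [MvPolynomial.aeval_def, MvPolynomial.eval_map]
  simp only [e]
  exact (MvPolynomial.continuous_eval _).comp (continuous_pi hf)

/-- the generic member of the family -/
noncomputable def gen : (MvPolynomial (Fin 3 ⊕ Fin 4) ℚ)[X] :=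
  fam 2 (fun i => MvPolynomial.X (Sum.inl i)) (fun j => MvPolynomial.X (Sum.inr j))

theorem aeval_gen {F : Type*} [CommRing F] [Algebra ℚ F] (H : MvPolynomial (Fin 7) ℚ)
    (α : Fin 3 → F) (m : Fin 4 → F) :
    MvPolynomial.aeval (Sum.elim α m) (MvPolynomial.aeval (fun i : Fin 7 => gen.coeff i) H) =
      MvPolynomial.aeval (fun i : Fin 7 => (fam 2 α m).coeff i) H := by
  rw [MvPolynomial.comp_aeval_apply]
  congr 2
  funext i
  have h1 : (gen.map (MvPolynomial.aeval (Sum.elim α m) :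
      MvPolynomial (Fin 3 ⊕ Fin 4) ℚ →ₐ[ℚ] F).toRingHom) = fam 2 α m := by
    unfold gen
    rw [fam_map]
    simp
  rw [← h1, coeff_map]
  rfl

theorem step1 {s : ℕ} (hs : 2 ≤ s) (H : MvPolynomial (Fin 7) ℚ)
    (hH : ∀ a : Fin 3 → ℕ, Function.Injective a → ∀ m : Fin 4 → ℚ, m 0 * m 3 - m 1 * m 2 ≠ 0 →
      MvPolynomial.aeval (fun i : Fin 7 => (fam 2 (fun i => (s : ℚ) ^ (a i + 1)) m).coeff i) H =
        0) (α : Fin 3 → ℂ) (m : Fin 4 → ℂ) : HV H (fam 2 α m) = 0 := by
  set G := MvPolynomial.aeval (fun i : Fin 7 => gen.coeff i) H with hG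
  set V : MvPolynomial (Fin 3 ⊕ Fin 4) ℚ :=
    (MvPolynomial.X (Sum.inl 0) - MvPolynomial.X (Sum.inl 1)) *
    (MvPolynomial.X (Sum.inl 0) - MvPolynomial.X (Sum.inl 2)) *
    (MvPolynomial.X (Sum.inl 1) - MvPolynomial.X (Sum.inl 2)) *
    (MvPolynomial.X (Sum.inr 0) * MvPolynomial.X (Sum.inr 3) -
      MvPolynomial.X (Sum.inr 1) * MvPolynomial.X (Sum.inr 2)) with hV
  have hV0 : V ≠ 0 := by
    intro h
    have h1 := congrArg (MvPolynomial.aeval (Sum.elim ![(0 : ℚ), 1, 2] ![(1 : ℚ), 0, 0, 1])) h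
    simp [hV] at h1
    norm_num at h1
  have hVG : V * G = 0 := by
    refine MvPolynomial.funext_set (Sum.elim (fun _ => Set.range fun a : ℕ => (s : ℚ) ^ (a + 1))
      (fun _ => Set.univ)) ?_ ?_
    · rintro (i | j)
      · have hinj : Function.Injective fun a : ℕ => (s : ℚ) ^ (a + 1) := by
          intro a b hab
          have h1 : (1 : ℚ) < s := by exact_mod_cast (by omega : 1 < s)
          have h2 := pow_right_injective₀ (by linarith : (0 : ℚ) < s) h1.ne' hab
          omega
        exact Set.infinite_range_of_injective hinj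
      · exact Set.infinite_univ
    · intro x hx
      rw [map_zero]
      have h1 : ∀ i : Fin 3, ∃ a : ℕ, (s : ℚ) ^ (a + 1) = x (Sum.inl i) := fun i =>
        hx (Sum.inl i) (Set.mem_univ _)
      choose a ha using h1
      have hVx : MvPolynomial.eval x V = (x (Sum.inl 0) - x (Sum.inl 1)) *
          (x (Sum.inl 0) - x (Sum.inl 2)) * (x (Sum.inl 1) - x (Sum.inl 2)) *
          (x (Sum.inr 0) * x (Sum.inr 3) - x (Sum.inr 1) * x (Sum.inr 2)) := by
        rw [hV]
        simp
      rw [map_mul]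
      by_cases hz : MvPolynomial.eval x V = 0
      · rw [hz, zero_mul]
      · have hz' := hz
        rw [hVx] at hz'
        have hinj : Function.Injective a := by
          have n1 : a 0 ≠ a 1 := by
            intro h
            apply hz'
            rw [← ha 0, ← ha 1, h]
            ring
          have n2 : a 0 ≠ a 2 := by
            intro h
            apply hz'
            rw [← ha 0, ← ha 2, h]
            ring
          have n3 : a 1 ≠ a 2 := by
            intro h
            apply hz'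
            rw [← ha 1, ← ha 2, h]
            ring
          intro i j hij
          match i, j, hij with
          | 0, 0, _ => rfl
          | 1, 1, _ => rfl
          | 2, 2, _ => rfl
          | 0, 1, h => exact absurd h n1
          | 1, 0, h => exact absurd h.symm n1
          | 0, 2, h => exact absurd h n2
          | 2, 0, h => exact absurd h.symm n2
          | 1, 2, h => exact absurd h n3
          | 2, 1, h => exact absurd h.symm n3
        have hΔ : x (Sum.inr 0) * x (Sum.inr 3) - x (Sum.inr 1) * x (Sum.inr 2) ≠ 0 :=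
          right_ne_zero_of_mul hz'
        have h2 := hH a hinj (fun j => x (Sum.inr j)) hΔ
        rw [← aeval_gen] at h2
        have h3 : Sum.elim (fun i => (s : ℚ) ^ (a i + 1)) (fun j => x (Sum.inr j)) = x := by
          funext u
          rcases u with i | j
          · exact ha i
          · rfl
        rw [h3] at h2
        rw [← hG] at h2
        have h4 : MvPolynomial.eval x G = 0 := by
          rw [← h2, MvPolynomial.aeval_def, MvPolynomial.eval₂_eq_eval_map]
          simp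
        rw [h4, mul_zero]
  have hG0 : G = 0 := (mul_eq_zero.1 hVG).resolve_left hV0
  have h5 := aeval_gen H α m
  rw [← hG, hG0, map_zero] at h5
  unfold HV
  rw [← h5]

theorem fam_two (α : Fin 3 → ℂ) (m : Fin 4 → ℂ) : fam 2 α m =
    (∏ i, (lin (m 0) (m 1) - C (α i) * lin (m 2) (m 3))) *
      (∏ i, (lin (m 0) (m 1) - C (α i) * lin (m 2) (m 3)) +
        4 * lin (m 0) (m 1) * lin (m 2) (m 3) ^ 2) := by
  unfold fam Ufam
  push_cast
  ring

theorem step3 {H : MvPolynomial (Fin 7) ℚ} (hH : ∀ (α : Fin 3 → ℂ) (m : Fin 4 → ℂ),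
    HV H (fam 2 α m) = 0) {a : ℂ} (ha : a ≠ 0) (α : Fin 3 → ℂ) (m : Fin 4 → ℂ) :
    HV H ((C a * ∏ i, (lin (m 0) (m 1) - C (α i) * lin (m 2) (m 3))) *
      (C a * ∏ i, (lin (m 0) (m 1) - C (α i) * lin (m 2) (m 3)) +
        4 * lin (m 0) (m 1) * lin (m 2) (m 3) ^ 2)) = 0 := by
  obtain ⟨μ, hμ⟩ := IsAlgClosed.exists_pow_nat_eq a (n := 3) (by norm_num)
  have hμ0 : μ ≠ 0 := by
    intro h
    rw [h] at hμ
    exact ha (by rw [← hμ]; norm_num)
  obtain ⟨ν, hν⟩ := IsAlgClosed.exists_pow_nat_eq μ⁻¹ (n := 2) (by norm_num)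
  have hν0 : ν ≠ 0 := by
    intro h
    rw [h] at hν
    have : μ⁻¹ = 0 := by rw [← hν]; norm_num
    exact hμ0 (inv_eq_zero.1 this)
  have h1 := hH (fun i => α i * μ / ν) ![μ * m 0, μ * m 1, ν * m 2, ν * m 3]
  rw [fam_two] at h1
  have e1 : lin (μ * m 0) (μ * m 1) = C μ * lin (m 0) (m 1) := by
    unfold lin
    simp only [C_mul]
    ring
  have e2 : lin (ν * m 2) (ν * m 3) = C ν * lin (m 2) (m 3) := by
    unfold lin
    simp only [C_mul]
    ring
  have e3 : ∀ i, C μ * lin (m 0) (m 1) - C (α i * μ / ν) * (C ν * lin (m 2) (m 3)) =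
      C μ * (lin (m 0) (m 1) - C (α i) * lin (m 2) (m 3)) := by
    intro i
    have : α i * μ / ν * ν = μ * α i := by
      field_simp
    rw [← mul_assoc, ← C_mul, this, C_mul]
    ring
  have e4 : (C ν : ℂ[X]) ^ 2 * C μ = 1 := by
    rw [← C_pow, ← C_mul, hν, inv_mul_cancel₀ hμ0, C_1]
  simp only [Matrix.cons_val_zero, Matrix.cons_val_one, Matrix.cons_val] at h1
  rw [e1, e2] at h1
  simp only [e3, Finset.prod_mul_distrib, Finset.prod_const, Finset.card_univ,
    Fintype.card_fin] at h1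
  rw [← C_pow, hμ] at h1
  have e5 : 4 * (C μ * lin (m 0) (m 1)) * (C ν * lin (m 2) (m 3)) ^ 2 =
      4 * lin (m 0) (m 1) * lin (m 2) (m 3) ^ 2 := by
    linear_combination (4 * lin (m 0) (m 1) * lin (m 2) (m 3) ^ 2) * e4
  rw [e5] at h1
  exact h1

/-- Two cubics `A₁ = a ∏ (x - r_i)`, `B₁ = ∏ (x - r'_i)` with different sums of the roots and
without common or double roots: some `B₁ - μ A₁`, `μ ≠ 0`, has a double root `e`. -/
theorem exists_double {a : ℂ} (ha : a ≠ 0) {r r' : Fin 3 → ℂ} (hr : Function.Injective r)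
    (hr' : Function.Injective r') (hrr : ∀ i j, r i ≠ r' j) (hsum : ∑ i, r i ≠ ∑ i, r' i) :
    ∃ e μ ν ρ : ℂ, μ ≠ 0 ∧ (∀ i, e ≠ r i) ∧
      ∏ i, (X - C (r' i)) = C μ * (C a * ∏ i, (X - C (r i))) + lin ν ρ * lin 1 (-e) ^ 2 := by
  set A : ℂ[X] := C a * ∏ i, (X - C (r i)) with hA
  set B : ℂ[X] := ∏ i, (X - C (r' i)) with hB
  set W : ℂ[X] := derivative A * B - A * derivative B with hW
  -- the coefficient of `x⁴` of the Wronskian
  have hW4 : W.coeff 4 = a * (∑ i, r i - ∑ i, r' i) := by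
    rw [hW, hA, hB]
    simp only [Fin.prod_univ_three, Fin.sum_univ_three]
    have e1 : derivative (C a * ((X - C (r 0)) * (X - C (r 1)) * (X - C (r 2)))) *
        ((X - C (r' 0)) * (X - C (r' 1)) * (X - C (r' 2))) -
        C a * ((X - C (r 0)) * (X - C (r 1)) * (X - C (r 2))) *
        derivative ((X - C (r' 0)) * (X - C (r' 1)) * (X - C (r' 2))) =
        C (a * (r 0 + r 1 + r 2 - (r' 0 + r' 1 + r' 2))) * X ^ 4 +
        C (a * (-2 * (r 0 * r 1 + r 0 * r 2 + r 1 * r 2) +
          2 * (r' 0 * r' 1 + r' 0 * r' 2 + r' 1 * r' 2))) * X ^ 3 +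
        C (a * ((r 0 * r 1 + r 0 * r 2 + r 1 * r 2) * (r' 0 + r' 1 + r' 2) -
          (r 0 + r 1 + r 2) * (r' 0 * r' 1 + r' 0 * r' 2 + r' 1 * r' 2) +
          3 * (r 0 * r 1 * r 2) - 3 * (r' 0 * r' 1 * r' 2))) * X ^ 2 +
        C (a * (2 * (r 0 + r 1 + r 2) * (r' 0 * r' 1 * r' 2) -
          2 * (r 0 * r 1 * r 2) * (r' 0 + r' 1 + r' 2))) * X +
        C (a * ((r 0 * r 1 * r 2) * (r' 0 * r' 1 + r' 0 * r' 2 + r' 1 * r' 2) -
          (r 0 * r 1 + r 0 * r 2 + r 1 * r 2) * (r' 0 * r' 1 * r' 2))) := by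
      refine Polynomial.funext fun x => ?_
      simp only [derivative_mul, derivative_sub, derivative_X, derivative_C, eval_add, eval_mul,
        eval_sub, eval_X, eval_C, eval_pow, eval_one, eval_zero]
      ring
    rw [e1]
    simp only [coeff_add, coeff_C_mul, coeff_X_pow, coeff_X, coeff_C]
    norm_num
  have hAe : ∀ x : ℂ, A.eval x = a * ∏ i, (x - r i) := by
    intro x
    rw [hA]
    simp only [eval_mul, eval_C, eval_prod, eval_sub, eval_X]
  have hBe : ∀ x : ℂ, B.eval x = ∏ i, (x - r' i) := by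
    intro x
    rw [hB]
    simp only [eval_C, eval_prod, eval_sub, eval_X]
  have hWd : W.degree ≠ 0 := by
    intro h
    have h1 : W.coeff 4 = 0 := coeff_eq_zero_of_degree_lt (by rw [h]; norm_num)
    rw [hW4] at h1
    rcases mul_eq_zero.1 h1 with h2 | h2
    · exact ha h2
    · exact hsum (sub_eq_zero.1 h2)
  obtain ⟨e, he⟩ := IsAlgClosed.exists_root W hWd
  rw [IsRoot.def, hW, eval_sub, eval_mul, eval_mul] at he
  have hAe0 : A.eval e ≠ 0 := by
    intro h
    rw [hAe] at h
    obtain ⟨i, -, hi⟩ := Finset.prod_eq_zero_iff.1 ((mul_eq_zero.1 h).resolve_left ha)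
    have hei : e = r i := sub_eq_zero.1 hi
    have h1 : A.eval e = 0 := by rw [hAe, h]
    rw [h1, zero_mul, sub_zero] at he
    rcases mul_eq_zero.1 he with h2 | h2
    · rw [hA, derivative_C_mul, eval_mul, eval_C, hei] at h2
      exact Pool.Agent.TH826.UH.deriv_prod_ne_zero hr i ((mul_eq_zero.1 h2).resolve_left ha)
    · rw [hBe] at h2
      obtain ⟨j, -, hj⟩ := Finset.prod_eq_zero_iff.1 h2
      exact hrr i j (by rw [← hei]; exact sub_eq_zero.1 hj)
  have hBe0 : B.eval e ≠ 0 := by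
    intro h
    rw [h, mul_zero, zero_sub, neg_eq_zero] at he
    rw [hBe] at h
    obtain ⟨i, -, hi⟩ := Finset.prod_eq_zero_iff.1 h
    have hei : e = r' i := sub_eq_zero.1 hi
    rcases mul_eq_zero.1 he with h2 | h2
    · exact hAe0 h2
    · rw [hB, hei] at h2
      exact Pool.Agent.TH826.UH.deriv_prod_ne_zero hr' i h2
  set μ : ℂ := B.eval e / A.eval e with hμ
  have hA3 : A.natDegree ≤ 3 := by
    rw [hA]
    refine (natDegree_C_mul_le _ _).trans ?_
    rw [natDegree_prod_of_monic _ _ fun i _ => monic_X_sub_C _]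
    simp
  have hB3 : B.natDegree ≤ 3 := by
    rw [hB, natDegree_prod_of_monic _ _ fun i _ => monic_X_sub_C _]
    simp
  set P : ℂ[X] := B - C μ * A with hP
  have hP3 : P.natDegree ≤ 3 :=
    (natDegree_sub_le _ _).trans (max_le hB3 ((natDegree_C_mul_le _ _).trans hA3))
  have hP0 : P.eval e = 0 := by
    rw [hP, eval_sub, eval_mul, eval_C, hμ]
    field_simp
    ring
  have hP1 : (derivative P).eval e = 0 := by
    rw [hP, derivative_sub, derivative_C_mul, eval_sub, eval_mul, eval_C, hμ]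
    field_simp
    linear_combination -he
  obtain ⟨Q, hQ⟩ := dvd_iff_isRoot.2 (show P.IsRoot e from hP0)
  have hQ0 : Q.eval e = 0 := by
    rw [hQ, derivative_mul] at hP1
    simp only [derivative_sub, derivative_X, derivative_C, sub_zero, one_mul, eval_add, eval_mul,
      eval_sub, eval_X, eval_C, sub_self, zero_mul, add_zero] at hP1
    exact hP1
  obtain ⟨Q', hQ'⟩ := dvd_iff_isRoot.2 (show Q.IsRoot e from hQ0)
  have hQd : Q'.natDegree ≤ 1 := by
    by_cases hz : Q' = 0
    · rw [hz, natDegree_zero]; norm_num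
    · have h1 : P = (X - C e) ^ 2 * Q' := by rw [hQ, hQ']; ring
      rw [h1, natDegree_mul (pow_ne_zero _ (X_sub_C_ne_zero e)) hz, natDegree_pow,
        natDegree_X_sub_C] at hP3
      omega
  obtain ⟨ν, ρ, hνρ⟩ := exists_eq_X_add_C_of_natDegree_le_one hQd
  refine ⟨e, μ, ν, ρ, div_ne_zero hBe0 hAe0, fun i hi => ?_, ?_⟩
  · apply hAe0
    rw [hAe, Finset.prod_eq_zero (Finset.mem_univ i) (sub_eq_zero.2 hi), mul_zero]
  · have h1 : B = C μ * A + P := by rw [hP]; ring
    have h2 : lin (1 : ℂ) (-e) = X - C e := by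
      unfold lin
      simp [sub_eq_add_neg]
    have h3 : lin ν ρ = Q' := by
      rw [hνρ]
      rfl
    rw [h1, h2, h3, hQ, hQ']
    ring

theorem dense_ne {S : Set ℂ} (hS : S.Finite) : Dense Sᶜ := hS.countable.dense_compl ℂ

/-- The vanishing for products of two general cubics. -/
theorem step4 {H : MvPolynomial (Fin 7) ℚ} (hH : ∀ (α : Fin 3 → ℂ) (m : Fin 4 → ℂ),
    HV H (fam 2 α m) = 0) {a : ℂ} (ha : a ≠ 0) {r r' : Fin 3 → ℂ} (hr : Function.Injective r)
    (hr' : Function.Injective r') (hrr : ∀ i j, r i ≠ r' j) (hsum : ∑ i, r i ≠ ∑ i, r' i) :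
    HV H (C a * (∏ i, (X - C (r i))) * ∏ i, (X - C (r' i))) = 0 := by
  obtain ⟨e, μ, ν, ρ, hμ, her, hB⟩ := exists_double ha hr hr' hrr hsum
  obtain ⟨l, hl⟩ := IsAlgClosed.exists_pow_nat_eq μ (n := 2) (by norm_num)
  have hl0 : l ≠ 0 := by
    intro h
    rw [h] at hl
    exact hμ (by rw [← hl]; norm_num)
  set A : ℂ[X] := C (l * a) * ∏ i, (X - C (r i)) with hA
  set l2 : ℂ[X] := lin 1 (-e) with hl2
  set F : ℂ → ℂ[X] := fun ε => A * (A + 4 * lin (ν / (4 * l)) (ρ / (4 * l) + ε) * l2 ^ 2)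
    with hF
  have hF0 : F 0 = C a * (∏ i, (X - C (r i))) * ∏ i, (X - C (r' i)) := by
    rw [hF, hB]
    simp only [add_zero]
    have e1 : 4 * lin (ν / (4 * l)) (ρ / (4 * l)) = C l⁻¹ * lin ν ρ := by
      refine Polynomial.funext fun x => ?_
      simp only [lin, eval_mul, eval_add, eval_C, eval_X, eval_ofNat]
      field_simp
    rw [e1, hA]
    have e2 : (C l : ℂ[X]) * C l⁻¹ = 1 := by rw [← C_mul, mul_inv_cancel₀ hl0, C_1]
    have e3 : (C μ : ℂ[X]) = C l ^ 2 := by rw [← hl, C_pow]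
    rw [e3, C_mul]
    generalize (∏ i, (X - C (r i)) : ℂ[X]) = PP
    linear_combination (C a * PP * lin ν ρ * l2 ^ 2) * e2
  have hcont : Continuous fun ε => HV H (F ε) := by
    refine HV_continuous H fun i => ?_
    have e1 : ∀ ε, (F ε).coeff i = (A * (A + 4 * lin (ν / (4 * l)) (ρ / (4 * l)) * l2 ^ 2)).coeff i
        + ε * (A * (4 * l2 ^ 2)).coeff i := by
      intro ε
      have e2 : F ε = A * (A + 4 * lin (ν / (4 * l)) (ρ / (4 * l)) * l2 ^ 2) +
          C ε * (A * (4 * l2 ^ 2)) := by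
        have e3 : lin (ν / (4 * l)) (ρ / (4 * l) + ε) = lin (ν / (4 * l)) (ρ / (4 * l)) + C ε := by
          unfold lin
          rw [C_add, add_assoc]
        rw [hF]
        simp only [e3]
        ring
      rw [e2, coeff_add, coeff_C_mul]
    simp only [e1]
    exact continuous_const.add (continuous_id.mul continuous_const)
  have hgood : ∀ ε ∈ ({-(ν / (4 * l)) * e - ρ / (4 * l)} : Set ℂ)ᶜ, HV H (F ε) = 0 := by
    intro ε hε
    have hε' : ε ≠ -(ν / (4 * l)) * e - ρ / (4 * l) := hε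
    set m0 : ℂ := ν / (4 * l) with hm0
    set m1 : ℂ := ρ / (4 * l) + ε with hm1
    have hd : m0 * e + m1 ≠ 0 := by
      intro h
      apply hε'
      rw [hm1] at h
      linear_combination h
    set β : Fin 3 → ℂ := fun i => (e - r i) / (m0 * e + m1) with hβ
    have hβ0 : ∀ i, β i ≠ 0 := fun i => div_ne_zero (sub_ne_zero.2 (her i)) hd
    have hlinr : ∀ i, (X - C (r i) : ℂ[X]) = C (β i) *
        (lin m0 m1 - C (-(1 - β i * m0) / β i) * l2) := by
      intro i
      refine Polynomial.funext fun x => ?_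
      rw [hl2]
      simp only [lin, eval_mul, eval_add, eval_sub, eval_C, eval_X]
      have h1 := hβ0 i
      have h2 : β i * (m0 * e + m1) = e - r i := div_mul_cancel₀ _ hd
      field_simp
      linear_combination -h2
    have hAe : A = C (l * a * ∏ i, β i) * ∏ i, (lin m0 m1 - C (-(1 - β i * m0) / β i) * l2) := by
      rw [hA, Finset.prod_congr rfl fun i _ => hlinr i, Finset.prod_mul_distrib, C_mul, C_mul,
        C_mul, map_prod]
      ring
    have h3 := step3 hH (a := l * a * ∏ i, β i) (mul_ne_zero (mul_ne_zero hl0 ha)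
      (Finset.prod_ne_zero_iff.2 fun i _ => hβ0 i)) (fun i => -(1 - β i * m0) / β i)
      ![m0, m1, 1, -e]
    simp only [Matrix.cons_val_zero, Matrix.cons_val_one, Matrix.cons_val] at h3
    rw [← hl2, ← hAe] at h3
    exact h3
  have hall := Continuous.ext_on (dense_ne (Set.finite_singleton _)) hcont continuous_const hgood
  rw [← hF0]
  exact congrFun hall 0

theorem step5 {H : MvPolynomial (Fin 7) ℚ} (hH : ∀ (α : Fin 3 → ℂ) (m : Fin 4 → ℂ),
    HV H (fam 2 α m) = 0) {a : ℂ} (ha : a ≠ 0) (r r' : Fin 3 → ℂ) :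
    HV H (C a * (∏ i, (X - C (r i))) * ∏ i, (X - C (r' i))) = 0 := by
  set v : Fin 3 → ℂ := ![0, 1, 2] with hv
  set v' : Fin 3 → ℂ := ![3, 4, 6] with hv'
  set F : ℂ → ℂ[X] := fun ε => C a * (∏ i, (X - C (r i + v i * ε))) *
    ∏ i, (X - C (r' i + v' i * ε)) with hF
  have hF0 : F 0 = C a * (∏ i, (X - C (r i))) * ∏ i, (X - C (r' i)) := by
    rw [hF]
    simp only [mul_zero, add_zero]
  -- polynomial dependence on `ε`
  have hcont : Continuous fun ε => HV H (F ε) := by
    refine HV_continuous H fun i => ?_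
    set Φ : ℂ[X][X] := C (C a) * (∏ i, (X - C (C (r i) + C (v i) * X))) *
      ∏ i, (X - C (C (r' i) + C (v' i) * X)) with hΦ
    have e1 : ∀ ε, (F ε).coeff i = (Φ.coeff i).eval ε := by
      intro ε
      have e2 : F ε = Φ.map (evalRingHom ε) := by
        rw [hΦ, hF]
        simp [Polynomial.map_prod, Polynomial.map_mul]
      rw [e2, coeff_map]
      rfl
    simp only [e1]
    exact (Φ.coeff i).continuous
  set S : Set ℂ := (Set.range fun p : Fin 3 × Fin 3 => -(r p.1 - r p.2) / (v p.1 - v p.2)) ∪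
    (Set.range fun p : Fin 3 × Fin 3 => -(r' p.1 - r' p.2) / (v' p.1 - v' p.2)) ∪
    (Set.range fun p : Fin 3 × Fin 3 => -(r p.1 - r' p.2) / (v p.1 - v' p.2)) ∪
    {-(∑ i, r i - ∑ i, r' i) / (∑ i, v i - ∑ i, v' i)} with hS
  have hSf : S.Finite := (((Set.finite_range _).union (Set.finite_range _)).union
    (Set.finite_range _)).union (Set.finite_singleton _)
  have hvi : Function.Injective v := by
    intro i j hij
    fin_cases i <;> fin_cases j <;> simp [hv] at hij ⊢
  have hvi' : Function.Injective v' := by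
    intro i j hij
    fin_cases i <;> fin_cases j <;> simp [hv'] at hij ⊢ <;> norm_num at hij
  have hvv : ∀ i j, v i ≠ v' j := by
    intro i j
    fin_cases i <;> fin_cases j <;> simp [hv, hv'] <;> norm_num
  have hvs : ∑ i, v i - ∑ i, v' i ≠ 0 := by
    rw [hv, hv', Fin.sum_univ_three, Fin.sum_univ_three]
    simp
    norm_num
  have hgood : ∀ ε ∈ Sᶜ, HV H (F ε) = 0 := by
    intro ε hε
    refine step4 hH ha (r := fun i => r i + v i * ε) (r' := fun i => r' i + v' i * ε) ?_ ?_ ?_ ?_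
    · intro i j hij
      by_contra hne
      apply hε
      refine Or.inl (Or.inl (Or.inl ⟨(i, j), ?_⟩))
      have h1 : v i - v j ≠ 0 := sub_ne_zero.2 (hvi.ne hne)
      have h2 : r i + v i * ε = r j + v j * ε := hij
      show -(r i - r j) / (v i - v j) = ε
      field_simp
      linear_combination -h2
    · intro i j hij
      by_contra hne
      apply hε
      refine Or.inl (Or.inl (Or.inr ⟨(i, j), ?_⟩))
      have h1 : v' i - v' j ≠ 0 := sub_ne_zero.2 (hvi'.ne hne)
      have h2 : r' i + v' i * ε = r' j + v' j * ε := hij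
      show -(r' i - r' j) / (v' i - v' j) = ε
      field_simp
      linear_combination -h2
    · intro i j hij
      apply hε
      refine Or.inl (Or.inr ⟨(i, j), ?_⟩)
      have h1 : v i - v' j ≠ 0 := sub_ne_zero.2 (hvv i j)
      show -(r i - r' j) / (v i - v' j) = ε
      field_simp
      linear_combination -hij
    · intro hij
      apply hε
      refine Or.inr ?_
      rw [Set.mem_singleton_iff]
      rw [Finset.sum_add_distrib, Finset.sum_add_distrib, ← Finset.sum_mul, ← Finset.sum_mul]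
        at hij
      field_simp
      linear_combination hij
  have hall := Continuous.ext_on (dense_ne hSf) hcont continuous_const hgood
  rw [← hF0]
  exact congrFun hall 0

theorem exists_roots (n : ℕ) : ∀ f : ℂ[X], f.natDegree = n → f ≠ 0 →
    ∃ ρ : Fin n → ℂ, f = C f.leadingCoeff * ∏ i, (X - C (ρ i)) := by
  induction n with
  | zero =>
    intro f hf _
    refine ⟨Fin.elim0, ?_⟩
    rw [Finset.univ_eq_empty, Finset.prod_empty, mul_one]
    have h1 := eq_C_of_natDegree_eq_zero hf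
    conv_lhs => rw [h1]
    rw [leadingCoeff, hf]
  | succ n ih =>
    intro f hf hf0
    have hd : f.degree ≠ 0 := by
      rw [degree_eq_natDegree hf0, hf]
      exact_mod_cast Nat.succ_ne_zero n
    obtain ⟨e, he⟩ := IsAlgClosed.exists_root f hd
    obtain ⟨g, hg⟩ := dvd_iff_isRoot.2 he
    have hg0 : g ≠ 0 := by
      rintro rfl
      rw [mul_zero] at hg
      exact hf0 hg
    have hgd : g.natDegree = n := by
      rw [hg, natDegree_mul (X_sub_C_ne_zero e) hg0, natDegree_X_sub_C] at hf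
      omega
    obtain ⟨ρ, hρ⟩ := ih g hgd hg0
    refine ⟨Fin.cons e ρ, ?_⟩
    have hl : f.leadingCoeff = g.leadingCoeff := by
      rw [hg, leadingCoeff_mul, leadingCoeff_X_sub_C, one_mul]
    rw [Fin.prod_univ_succ]
    simp only [Fin.cons_zero, Fin.cons_succ]
    rw [hl]
    conv_lhs => rw [hg, hρ]
    ring

/-- Zariski density. -/
theorem dens {s : ℕ} (hs : 2 ≤ s) {H : MvPolynomial (Fin 7) ℚ} (hH : H ≠ 0) :
    ∃ a : Fin 3 → ℕ, Function.Injective a ∧ ∃ m : Fin 4 → ℚ, m 0 * m 3 - m 1 * m 2 ≠ 0 ∧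
      MvPolynomial.aeval (fun i : Fin 7 => (fam 2 (fun i => (s : ℚ) ^ (a i + 1)) m).coeff i) H ≠
        0 := by
  by_contra hcon
  push Not at hcon
  have h1 : ∀ (α : Fin 3 → ℂ) (m : Fin 4 → ℂ), HV H (fam 2 α m) = 0 := fun α m =>
    step1 hs H hcon α m
  have h2 : ∀ c : Fin 7 → ℂ, c 6 ≠ 0 → MvPolynomial.aeval c H = 0 := by
    intro c hc
    set f : ℂ[X] := ∑ i : Fin 7, C (c i) * X ^ (i : ℕ) with hf
    have hcoeff : ∀ i : Fin 7, f.coeff i = c i := by
      intro i
      rw [hf, finsetSum_coeff, Finset.sum_eq_single i]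
      · rw [coeff_C_mul, coeff_X_pow, if_pos rfl, mul_one]
      · intro j _ hj
        rw [coeff_C_mul, coeff_X_pow, if_neg (fun h => hj (Fin.ext h.symm)), mul_zero]
      · intro h
        exact absurd (Finset.mem_univ i) h
    have hle : f.natDegree ≤ 6 := by
      rw [hf]
      refine natDegree_sum_le_of_forall_le _ _ fun i _ => ?_
      refine (natDegree_C_mul_X_pow_le _ _).trans ?_
      omega
    have hdeg : f.natDegree = 6 := by
      refine le_antisymm hle (le_natDegree_of_ne_zero ?_)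
      have := hcoeff 6
      rw [show ((6 : Fin 7) : ℕ) = 6 from rfl] at this
      rw [this]
      exact hc
    have hf0 : f ≠ 0 := by
      intro h
      rw [h, natDegree_zero] at hdeg
      omega
    obtain ⟨ρ, hρ⟩ := exists_roots (3 + 3) f (by rw [hdeg]) hf0
    have h3 : ∏ i, (X - C (ρ i)) = (∏ i : Fin 3, (X - C (ρ (Fin.castAdd 3 i)))) *
        ∏ i : Fin 3, (X - C (ρ (Fin.natAdd 3 i))) := Fin.prod_univ_add _
    rw [h3, ← mul_assoc] at hρ
    have h4 := step5 h1 (leadingCoeff_ne_zero.2 hf0) (fun i => ρ (Fin.castAdd 3 i))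
      (fun i => ρ (Fin.natAdd 3 i))
    rw [← hρ] at h4
    unfold HV at h4
    simp only [hcoeff] at h4
    exact h4
  have h3 : MvPolynomial.map (algebraMap ℚ ℂ) H * MvPolynomial.X 6 = 0 := by
    refine MvPolynomial.funext fun c => ?_
    rw [map_mul, MvPolynomial.eval_X, map_zero, MvPolynomial.eval_map,
      ← MvPolynomial.aeval_def]
    by_cases hc : c 6 = 0
    · rw [hc, mul_zero]
    · rw [h2 c hc, zero_mul]
  rcases mul_eq_zero.1 h3 with h4 | h4
  · apply hH
    apply MvPolynomial.map_injective (algebraMap ℚ ℂ) (algebraMap ℚ ℂ).injective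
    rw [h4, map_zero]
  · exact MvPolynomial.X_ne_zero _ h4

end Pool.Agent.H442
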