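import Pool.Agent.H442.Spec2
set_option autoImplicit false

/-!
The polynomials `κ² (A (A + 4 D))(μ x + ν)` with `A = X R`, `D = ∏ (X - β_l)`,
`R = D + (X^j mod D)`, where the `β_l` are different prime numbers and `j` is large, are Zariski
dense among all the polynomials of degree `2g + 2`.
-/

namespace Pool.Agent.H442

open Polynomial

/-- the value of a polynomial in the coefficients of `f` -/
noncomputable def HW {N : ℕ} (H : MvPolynomial (Fin N) ℚ) (f : ℂ[X]) : ℂ :=
  MvPolynomial.aeval (fun i : Fin N => f.coeff i) H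

theorem HW_continuous {N : ℕ} (H : MvPolynomial (Fin N) ℚ) {T : Type*} [TopologicalSpace T]
    {f : T → ℂ[X]} (hf : ∀ i : Fin N, Continuous fun τ => (f τ).coeff i) :
    Continuous fun τ => HW H (f τ) := by
  have e : ∀ τ, HW H (f τ) = MvPolynomial.eval (fun i : Fin N => (f τ).coeff i)
      (MvPolynomial.map (algebraMap ℚ ℂ) H) := by
    intro τ
    unfold HW
    rw [MvPolynomial.aeval_def, MvPolynomial.eval_map]
  simp only [e]
  exact (MvPolynomial.continuous_eval _).comp (continuous_pi hf)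

/-- A polynomial family of polynomials. -/
theorem HW_gen {N : ℕ} (H : MvPolynomial (Fin N) ℚ) {ι : Type*} (F : (MvPolynomial ι ℂ)[X])
    (y : ι → ℂ) : MvPolynomial.eval y (MvPolynomial.aeval (fun i : Fin N => F.coeff i) H) =
      HW H (F.map (MvPolynomial.eval y)) := by
  unfold HW
  rw [MvPolynomial.aeval_def, MvPolynomial.aeval_def, MvPolynomial.hom_eval₂]
  congr 1
  · exact Subsingleton.elim _ _
  · funext i
    simp only [coeff_map]

theorem prod_pow_inj {g : ℕ} {β : Fin g → ℕ} (h : Function.Injective β)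
    (hp : ∀ l, (β l).Prime) {m m' : Fin g →₀ ℕ} (he : ∏ l, β l ^ m l = ∏ l, β l ^ m' l) :
    m = m' := by
  have key : ∀ (n : Fin g →₀ ℕ) (l : Fin g), (∏ i, β i ^ n i).factorization (β l) = n l := by
    intro n l
    rw [Nat.factorization_prod fun i _ => pow_ne_zero _ (hp i).ne_zero, Finset.sum_apply']
    rw [Finset.sum_eq_single l]
    · rw [Nat.factorization_pow, (hp l).factorization]
      simp
    · intro i _ hi
      rw [Nat.factorization_pow, (hp i).factorization]
      have : β i ≠ β l := fun e => hi (h e)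
      simp [this]
    · intro hl
      exact absurd (Finset.mem_univ l) hl
  ext l
  rw [← key m l, ← key m' l, he]

/-- The points `(β_l^j)_l`, `j ≥ j₀`, are Zariski dense, if the `β_l` are different primes. -/
theorem pow_dense {g : ℕ} {β : Fin g → ℕ} (h : Function.Injective β) (hp : ∀ l, (β l).Prime)
    {G : MvPolynomial (Fin g) ℂ} {j₀ : ℕ}
    (hG : ∀ j ≥ j₀, MvPolynomial.eval (fun l => (β l : ℂ) ^ j) G = 0) : G = 0 := by
  set b : (Fin g →₀ ℕ) → ℂ := fun m => ((∏ l, β l ^ m l : ℕ) : ℂ) with hb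
  have hb0 : ∀ m, b m ≠ 0 := by
    intro m
    rw [hb]
    simp only
    rw [Nat.cast_ne_zero]
    exact Finset.prod_ne_zero_iff.2 fun l _ => pow_ne_zero _ (hp l).ne_zero
  have hbinj : Function.Injective b := by
    intro m m' he
    exact prod_pow_inj h hp (Nat.cast_injective he)
  have hev : ∀ j, MvPolynomial.eval (fun l => (β l : ℂ) ^ j) G =
      ∑ m ∈ G.support, G.coeff m * b m ^ j := by
    intro j
    rw [MvPolynomial.eval_eq']
    refine Finset.sum_congr rfl fun m _ => ?_
    congr 1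
    rw [hb]
    simp only
    push_cast
    rw [← Finset.prod_pow]
    refine Finset.prod_congr rfl fun l _ => ?_
    rw [← pow_mul, ← pow_mul, mul_comm]
  have hind := linearIndependent_monoidHom (Multiplicative ℕ) ℂ
  have hind2 : LinearIndependent ℂ (fun m : (Fin g →₀ ℕ) =>
      ((powersHom ℂ (b m) : Multiplicative ℕ →* ℂ) : Multiplicative ℕ → ℂ)) := by
    refine hind.comp (fun m => powersHom ℂ (b m)) ?_
    intro m m' he
    apply hbinj
    have h1 := DFunLike.congr_fun he (Multiplicative.ofAdd 1)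
    simpa using h1
  rw [linearIndependent_iff'] at hind2
  have h2 := hind2 G.support (fun m => G.coeff m * b m ^ j₀) (by
    funext a
    rw [Finset.sum_apply]
    have h3 := hG (j₀ + a.toAdd) (by omega)
    rw [hev] at h3
    rw [Pi.zero_apply, ← h3]
    refine Finset.sum_congr rfl fun m _ => ?_
    rw [Pi.smul_apply, smul_eq_mul, powersHom_apply, pow_add]
    ring)
  by_contra hne
  obtain ⟨m, hm⟩ := MvPolynomial.support_nonempty.2 hne
  have h3 := h2 m hm
  rcases mul_eq_zero.1 h3 with h4 | h4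
  · exact (MvPolynomial.mem_support_iff.1 hm) h4
  · exact pow_ne_zero _ (hb0 m) h4

variable {g : ℕ}

/-- the property of the special members -/
def Van {N : ℕ} (g : ℕ) (H : MvPolynomial (Fin N) ℚ) : Prop :=
  ∀ β : Fin g → ℕ, Function.Injective β → (∀ l, (β l).Prime) → ∃ j₀ : ℕ, ∀ j ≥ j₀,
    ∀ κ μ ν : ℚ, κ ≠ 0 → μ ≠ 0 →
      MvPolynomial.aeval (fun i : Fin N => (fc 2 (X * (Rz β j).map (algebraMap ℤ ℚ))
        ((Dz β).map (algebraMap ℤ ℚ)) κ μ ν).coeff i) H = 0

theorem HW_rat {N : ℕ} (H : MvPolynomial (Fin N) ℚ) (f : ℚ[X]) :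
    HW H (f.map (algebraMap ℚ ℂ)) =
      algebraMap ℚ ℂ (MvPolynomial.aeval (fun i : Fin N => f.coeff i) H) := by
  unfold HW
  simp only [coeff_map]
  exact MvPolynomial.aeval_algebraMap_apply ℂ (fun i : Fin N => f.coeff i) H

/-- the nodal polynomial -/
noncomputable def Nd (g : ℕ) {F : Type*} [CommRing F] (b : Fin g → F) : F[X] := ∏ l, (X - C (b l))

theorem Nd_map {F F' : Type*} [CommRing F] [CommRing F'] (φ : F →+* F') (b : Fin g → F) :
    (Nd g b).map φ = Nd g fun l => φ (b l) := by
  unfold Nd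
  rw [Polynomial.map_prod]
  simp

theorem dstep1 {N : ℕ} {H : MvPolynomial (Fin N) ℚ} (hH : Van g H) {β : Fin g → ℕ}
    (h : Function.Injective β) (hp : ∀ l, (β l).Prime) {κ μ ν : ℚ} (hκ : κ ≠ 0) (hμ : μ ≠ 0)
    (y : Fin g → ℂ) : HW H (fc 2 (X * (Nd g (bc β) +
      Lagrange.interpolate Finset.univ (bc β) y)) (Nd g (bc β)) (κ : ℂ) (μ : ℂ) (ν : ℂ)) = 0 := by
  classical
  set P := MvPolynomial (Fin g) ℂ
  set F : P[X] := fc 2 (X * ((Nd g (bc β)).map MvPolynomial.C +
    ∑ l, C (MvPolynomial.X l : P) * (Lagrange.basis Finset.univ (bc β) l).map MvPolynomial.C))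
    ((Nd g (bc β)).map MvPolynomial.C) (MvPolynomial.C (κ : ℂ)) (MvPolynomial.C (μ : ℂ))
    (MvPolynomial.C (ν : ℂ)) with hF
  have hFy : ∀ y : Fin g → ℂ, F.map (MvPolynomial.eval y) = fc 2 (X * (Nd g (bc β) +
      Lagrange.interpolate Finset.univ (bc β) y)) (Nd g (bc β)) (κ : ℂ) (μ : ℂ) (ν : ℂ) := by
    intro y
    have hc : (MvPolynomial.eval y).comp (MvPolynomial.C (σ := Fin g) (R := ℂ)) =
        RingHom.id ℂ := by
      ext a
      simp
    rw [hF, fc_map]
    simp only [Polynomial.map_mul, Polynomial.map_X, Polynomial.map_add, Polynomial.map_sum,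
      Polynomial.map_C, Polynomial.map_map, hc, Polynomial.map_id, MvPolynomial.eval_X,
      MvPolynomial.eval_C, Lagrange.interpolate_apply]
  set G : P := MvPolynomial.aeval (fun i : Fin N => F.coeff i) H with hG
  have hGy : ∀ y, MvPolynomial.eval y G = HW H (fc 2 (X * (Nd g (bc β) +
      Lagrange.interpolate Finset.univ (bc β) y)) (Nd g (bc β)) (κ : ℂ) (μ : ℂ) (ν : ℂ)) := by
    intro y
    rw [hG, HW_gen, hFy]
  obtain ⟨j₀, hj₀⟩ := hH β h hp
  have hG0 : G = 0 := by
    refine pow_dense h hp (j₀ := j₀) fun j hj => ?_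
    rw [hGy]
    have h1 := hj₀ j hj κ μ ν hκ hμ
    have h2 := HW_rat H (fc 2 (X * (Rz β j).map (algebraMap ℤ ℚ))
        ((Dz β).map (algebraMap ℤ ℚ)) κ μ ν)
    rw [h1, map_zero, fc_map] at h2
    have e1 : ∀ Q : ℤ[X], (Q.map (algebraMap ℤ ℚ)).map (algebraMap ℚ ℂ) =
        Q.map (Int.castRingHom ℂ) := by
      intro Q
      rw [Polynomial.map_map]
      congr 1
    rw [Polynomial.map_mul, Polynomial.map_X, e1, e1] at h2
    have e2 : (Dz β).map (Int.castRingHom ℂ) = Nd g (bc β) := by
      rw [Dz_map]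
      rfl
    have e3 : (Rz β j).map (Int.castRingHom ℂ) = Nd g (bc β) +
        Lagrange.interpolate Finset.univ (bc β) fun l => (β l : ℂ) ^ j := by
      unfold Rz
      rw [Polynomial.map_add, e2, mod_map h]
      rfl
    rw [e2, e3] at h2
    exact h2
  rw [← hGy, hG0, map_zero]

theorem Nd_monic {F : Type*} [CommRing F] (b : Fin g → F) : (Nd g b).Monic :=
  monic_prod_of_monic _ _ fun _ _ => monic_X_sub_C _

theorem Nd_natDegree {F : Type*} [CommRing F] [Nontrivial F] (b : Fin g → F) :
    (Nd g b).natDegree = g := by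
  unfold Nd
  rw [natDegree_prod_of_monic _ _ fun _ _ => monic_X_sub_C _]
  simp only [natDegree_X_sub_C, Finset.sum_const, Finset.card_univ, Fintype.card_fin,
    smul_eq_mul, mul_one]

theorem dstep2 {N : ℕ} {H : MvPolynomial (Fin N) ℚ} (hH : Van g H) {β : Fin g → ℕ}
    (h : Function.Injective β) (hp : ∀ l, (β l).Prime) {κ μ ν : ℚ} (hκ : κ ≠ 0) (hμ : μ ≠ 0)
    {R : ℂ[X]} (hR : R.Monic) (hRd : R.natDegree = g) :
    HW H (fc 2 (X * R) (Nd g (bc β)) (κ : ℂ) (μ : ℂ) (ν : ℂ)) = 0 := by
  classical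
  have hD := Nd_monic (bc β)
  have hDd := Nd_natDegree (bc β)
  have h1 : (R - Nd g (bc β)).degree < (g : ℕ) := by
    have h2 : R.degree = (Nd g (bc β)).degree := by
      rw [degree_eq_natDegree hR.ne_zero, degree_eq_natDegree hD.ne_zero, hRd, hDd]
    have h3 := degree_sub_lt h2 hR.ne_zero (by rw [hR.leadingCoeff, hD.leadingCoeff])
    rw [degree_eq_natDegree hR.ne_zero, hRd] at h3
    exact h3
  have h2 : R - Nd g (bc β) = Lagrange.interpolate Finset.univ (bc β)
      fun l => (R - Nd g (bc β)).eval (bc β l) := by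
    refine Lagrange.eq_interpolate_of_eval_eq _ (bc_inj h).injOn ?_ fun l _ => rfl
    rw [Finset.card_univ, Fintype.card_fin]
    exact h1
  have h3 : R = Nd g (bc β) + Lagrange.interpolate Finset.univ (bc β)
      fun l => (R - Nd g (bc β)).eval (bc β l) := by
    rw [← h2]
    ring
  rw [h3]
  exact dstep1 hH h hp hκ hμ _

theorem dstep3 {N : ℕ} {H : MvPolynomial (Fin N) ℚ} (hH : Van g H) {R : ℂ[X]} (hR : R.Monic)
    (hRd : R.natDegree = g) (b : Fin g → ℂ) (κ μ ν : ℂ) :
    HW H (fc 2 (X * R) (Nd g b) κ μ ν) = 0 := by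
  classical
  set P := MvPolynomial (Fin g ⊕ Fin 3) ℂ
  set F : P[X] := fc 2 (X * R.map MvPolynomial.C)
    (Nd g fun l => (MvPolynomial.X (Sum.inl l) : P)) (MvPolynomial.X (Sum.inr 0))
    (MvPolynomial.X (Sum.inr 1)) (MvPolynomial.X (Sum.inr 2)) with hF
  have hFy : ∀ y : Fin g ⊕ Fin 3 → ℂ, F.map (MvPolynomial.eval y) =
      fc 2 (X * R) (Nd g fun l => y (Sum.inl l)) (y (Sum.inr 0)) (y (Sum.inr 1))
        (y (Sum.inr 2)) := by
    intro y
    have hc : (MvPolynomial.eval y).comp (MvPolynomial.C (σ := Fin g ⊕ Fin 3) (R := ℂ)) =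
        RingHom.id ℂ := by
      ext a
      simp
    rw [hF, fc_map]
    simp only [Polynomial.map_mul, Polynomial.map_X, Nd_map, Polynomial.map_map, hc,
      Polynomial.map_id, MvPolynomial.eval_X]
  set G : P := MvPolynomial.aeval (fun i : Fin N => F.coeff i) H with hG
  set V : P := (∏ i, ∏ j ∈ Finset.univ.erase i, ((MvPolynomial.X (Sum.inl i) : P) -
    MvPolynomial.X (Sum.inl j))) * (MvPolynomial.X (Sum.inr 0) * MvPolynomial.X (Sum.inr 1))
    with hV
  have hV0 : V ≠ 0 := by
    rw [hV]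
    refine mul_ne_zero ?_ (mul_ne_zero (MvPolynomial.X_ne_zero _) (MvPolynomial.X_ne_zero _))
    refine Finset.prod_ne_zero_iff.2 fun i _ => Finset.prod_ne_zero_iff.2 fun j hj => ?_
    rw [sub_ne_zero]
    intro he
    have h1 := MvPolynomial.X_injective he
    exact Finset.ne_of_mem_erase hj (Sum.inl_injective h1).symm
  have hVG : V * G = 0 := by
    refine MvPolynomial.funext_set (Sum.elim (fun _ => (fun n : ℕ => (n : ℂ)) '' {p | p.Prime})
      (fun _ => Set.range fun q : ℚ => (q : ℂ))) ?_ ?_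
    · rintro (i | j)
      · exact Nat.infinite_setOf_prime.image (Nat.cast_injective.injOn)
      · exact Set.infinite_range_of_injective Rat.cast_injective
    · intro x hx
      rw [map_zero, map_mul]
      by_cases hz : MvPolynomial.eval x V = 0
      · rw [hz, zero_mul]
      have hx1 : ∀ l : Fin g, ∃ p : ℕ, p.Prime ∧ (p : ℂ) = x (Sum.inl l) := fun l => by
        obtain ⟨p, hp, hpx⟩ := hx (Sum.inl l) (Set.mem_univ _)
        exact ⟨p, hp, hpx⟩
      have hx2 : ∀ l : Fin 3, ∃ q : ℚ, (q : ℂ) = x (Sum.inr l) := fun l =>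
        hx (Sum.inr l) (Set.mem_univ _)
      choose β hβp hβ using hx1
      choose q hq using hx2
      rw [hV] at hz
      simp only [map_mul, map_prod, map_sub, MvPolynomial.eval_X] at hz
      have hz1 := left_ne_zero_of_mul hz
      have hz2 := right_ne_zero_of_mul hz
      have hinj : Function.Injective β := by
        intro i j hij
        by_contra hne
        rw [Finset.prod_ne_zero_iff] at hz1
        have h1 := hz1 i (Finset.mem_univ i)
        rw [Finset.prod_ne_zero_iff] at h1
        have h2 := h1 j (Finset.mem_erase.2 ⟨fun e => hne e.symm, Finset.mem_univ j⟩)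
        apply h2
        rw [← hβ i, ← hβ j, hij, sub_self]
      have hκ : q 0 ≠ 0 := by
        intro h0
        apply left_ne_zero_of_mul hz2
        rw [← hq 0, h0, Rat.cast_zero]
      have hμ : q 1 ≠ 0 := by
        intro h0
        apply right_ne_zero_of_mul hz2
        rw [← hq 1, h0, Rat.cast_zero]
      have h1 := dstep2 hH hinj hβp hκ hμ (ν := q 2) hR hRd
      rw [hG, HW_gen, hFy]
      have h2 : (fun l => x (Sum.inl l)) = bc β := by
        funext l
        rw [← hβ l]
        rfl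
      rw [h2, ← hq 0, ← hq 1, ← hq 2, h1, mul_zero]
  have hG0 : G = 0 := (mul_eq_zero.1 hVG).resolve_left hV0
  have h1 := HW_gen H F (Sum.elim b ![κ, μ, ν])
  rw [← hG, hG0, map_zero, hFy] at h1
  simp only [Sum.elim_inl, Sum.elim_inr, Matrix.cons_val_zero, Matrix.cons_val_one,
    Matrix.cons_val] at h1
  exact h1.symm

theorem Monic.exists_Nd {D : ℂ[X]} (hD : D.Monic) (hd : D.natDegree = g) :
    ∃ b : Fin g → ℂ, D = Nd g b := by
  obtain ⟨b, hb⟩ := exists_roots0 g D hd hD.ne_zero
  refine ⟨b, ?_⟩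
  rw [hD.leadingCoeff, C_1, one_mul] at hb
  exact hb

/-- Products of two monic polynomials of degree `g + 1` whose difference has degree `g`. -/
theorem dstep4 {N : ℕ} {H : MvPolynomial (Fin N) ℚ} (hH : Van g H) {A₁ B₁ : ℂ[X]}
    (hA : A₁.Monic) (hAd : A₁.natDegree = g + 1) (hB : B₁.Monic) (hBd : B₁.natDegree = g + 1)
    (hAB : (B₁ - A₁).coeff g ≠ 0) (a : ℂ) : HW H (C a * A₁ * B₁) = 0 := by
  set c : ℂ := (B₁ - A₁).coeff g / 4 with hc
  have hc0 : c ≠ 0 := div_ne_zero hAB (by norm_num)
  set μ : ℂ := c⁻¹ with hμ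
  have hμ0 : μ ≠ 0 := inv_ne_zero hc0
  obtain ⟨r₀, hr₀⟩ := IsAlgClosed.exists_root A₁ (by
    rw [degree_eq_natDegree hA.ne_zero, hAd]
    exact_mod_cast Nat.succ_ne_zero g)
  set ν : ℂ := -μ * r₀ with hν
  -- the substitution `x = (X - ν) / μ`
  set s : ℂ[X] := C μ⁻¹ * X + C (-ν / μ) with hs
  have hs1 : s.natDegree = 1 := natDegree_linear (inv_ne_zero hμ0)
  have hsl : s.leadingCoeff = μ⁻¹ := leadingCoeff_linear (inv_ne_zero hμ0)
  have hs0 : s.eval 0 = r₀ := by
    rw [hs]
    simp only [eval_add, eval_mul, eval_C, eval_X, mul_zero, zero_add]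
    rw [hν]
    field_simp
  have hcomp : s.comp (C μ * X + C ν) = X := by
    rw [hs]
    simp only [add_comp, mul_comp, C_comp, X_comp]
    refine Polynomial.funext fun x => ?_
    simp only [eval_add, eval_mul, eval_C, eval_X]
    field_simp
    ring
  have hmon : ∀ P : ℂ[X], P.Monic → (C (μ ^ P.natDegree) * P.comp s).Monic := by
    intro P hP
    rw [Monic, leadingCoeff_mul, leadingCoeff_C, leadingCoeff_comp (by rw [hs1]; norm_num),
      hP.leadingCoeff, one_mul, hsl, ← mul_pow, mul_inv_cancel₀ hμ0, one_pow]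
  set A : ℂ[X] := C (μ ^ (g + 1)) * A₁.comp s with hA'
  set B : ℂ[X] := C (μ ^ (g + 1)) * B₁.comp s with hB'
  have hAm : A.Monic := by
    have := hmon A₁ hA
    rwa [hAd] at this
  have hAd' : A.natDegree = g + 1 := by
    rw [hA', natDegree_C_mul (pow_ne_zero _ hμ0), natDegree_comp, hs1, mul_one, hAd]
  -- `B₁ - A₁ = 4 c D₁`
  have hdeg : (B₁ - A₁).natDegree = g := by
    refine le_antisymm ?_ (le_natDegree_of_ne_zero hAB)
    have h2 : B₁.degree = A₁.degree := by
      rw [degree_eq_natDegree hA.ne_zero, degree_eq_natDegree hB.ne_zero, hAd, hBd]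
    have h3 := degree_sub_lt h2 hB.ne_zero (by rw [hA.leadingCoeff, hB.leadingCoeff])
    rw [degree_eq_natDegree hB.ne_zero, hBd] at h3
    have h4 := natDegree_lt_iff_degree_lt (p := B₁ - A₁) (n := g + 1) (by
      intro h0
      rw [h0, coeff_zero] at hAB
      exact hAB rfl)
    have h5 := h4.2 h3
    omega
  set D : ℂ[X] := C (μ ^ (g + 1) / 4) * (B₁ - A₁).comp s with hD
  have hDd : D.natDegree = g := by
    rw [hD, natDegree_C_mul (div_ne_zero (pow_ne_zero _ hμ0) (by norm_num)), natDegree_comp, hs1,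
      mul_one, hdeg]
  have hDm : D.Monic := by
    have hl : (B₁ - A₁).leadingCoeff = 4 * c := by
      rw [leadingCoeff, hdeg, hc]
      ring
    rw [Monic, hD, leadingCoeff_mul, leadingCoeff_C, leadingCoeff_comp (by rw [hs1]; norm_num),
      hsl, hdeg, hl, pow_succ]
    have h1 : μ⁻¹ ^ g * μ ^ g = 1 := by
      rw [← mul_pow, inv_mul_cancel₀ hμ0, one_pow]
    have h2 : μ * c = 1 := inv_mul_cancel₀ hc0
    linear_combination μ * c * h1 + h2
  have hBA : B = A + 4 * D := by
    rw [hA', hB', hD, sub_comp]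
    refine Polynomial.funext fun x => ?_
    simp only [eval_add, eval_mul, eval_C, eval_sub, eval_ofNat]
    ring
  obtain ⟨b, hb⟩ := Monic.exists_Nd hDm hDd
  -- `A = X R`
  have hA0 : A.eval 0 = 0 := by
    rw [hA', eval_mul, eval_comp, hs0, (show A₁.eval r₀ = 0 from hr₀), mul_zero]
  obtain ⟨R, hR⟩ : X ∣ A := by
    rw [X_dvd_iff, coeff_zero_eq_eval_zero]
    exact hA0
  have hRm : R.Monic := by
    have h1 : (X * R).Monic := by rw [← hR]; exact hAm
    exact monic_X.of_mul_monic_left h1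
  have hRd : R.natDegree = g := by
    have h1 : (X * R).natDegree = g + 1 := by rw [← hR]; exact hAd'
    rw [monic_X.natDegree_mul hRm, natDegree_X] at h1
    omega
  obtain ⟨κ, hκ⟩ := IsAlgClosed.exists_pow_nat_eq (a / μ ^ (2 * (g + 1))) (n := 2) (by norm_num)
  have h1 := dstep3 hH hRm hRd b κ μ ν
  rw [← hb, ← hR] at h1
  have h2 : fc 2 A D κ μ ν = C a * A₁ * B₁ := by
    unfold fc
    have e1 : (A + ((2 : ℤ) : ℂ[X]) * D) ^ 2 - 4 * D ^ 2 = A * B := by
      rw [hBA]
      push_cast
      ring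
    have e2 : A.comp (C μ * X + C ν) = C (μ ^ (g + 1)) * A₁ := by
      rw [hA', mul_comp, C_comp, comp_assoc, hcomp, comp_X]
    have e3 : B.comp (C μ * X + C ν) = C (μ ^ (g + 1)) * B₁ := by
      rw [hB', mul_comp, C_comp, comp_assoc, hcomp, comp_X]
    rw [e1, mul_comp, e2, e3, ← C_pow, hκ]
    have e4 : C (a / μ ^ (2 * (g + 1))) * (C (μ ^ (g + 1)) * C (μ ^ (g + 1))) = C a := by
      rw [← C_mul, ← C_mul]
      congr 1
      field_simp
      ring
    linear_combination (A₁ * B₁) * e4
  rw [h2] at h1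
  exact h1

/-- Products of two monic polynomials of degree `g + 1`. -/
theorem dstep5 {N : ℕ} {H : MvPolynomial (Fin N) ℚ} (hH : Van g H) {A₁ B₁ : ℂ[X]}
    (hA : A₁.Monic) (hAd : A₁.natDegree = g + 1) (hB : B₁.Monic) (hBd : B₁.natDegree = g + 1)
    (a : ℂ) : HW H (C a * A₁ * B₁) = 0 := by
  set F : ℂ → ℂ[X] := fun ε => C a * A₁ * (B₁ + C ε * X ^ g) with hF
  have hcont : Continuous fun ε => HW H (F ε) := by
    refine HW_continuous H fun i => ?_
    have e1 : ∀ ε, (F ε).coeff i = (C a * A₁ * B₁).coeff i +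
        ε * (C a * A₁ * X ^ g).coeff i := by
      intro ε
      have e2 : F ε = C a * A₁ * B₁ + C ε * (C a * A₁ * X ^ g) := by
        rw [hF]
        simp only
        ring
      rw [e2, coeff_add, coeff_C_mul]
    simp only [e1]
    exact continuous_const.add (continuous_id.mul continuous_const)
  set c₀ : ℂ := (B₁ - A₁).coeff g with hc₀
  have hgood : ∀ ε ∈ ({-c₀} : Set ℂ)ᶜ, HW H (F ε) = 0 := by
    intro ε hε
    have hε' : ε ≠ -c₀ := hε
    have hd : (C ε * X ^ g : ℂ[X]).degree < B₁.degree := by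
      refine (degree_C_mul_X_pow_le g ε).trans_lt ?_
      rw [degree_eq_natDegree hB.ne_zero, hBd]
      exact_mod_cast Nat.lt_succ_self g
    have hm : (B₁ + C ε * X ^ g).Monic := hB.add_of_left hd
    have hdd : (B₁ + C ε * X ^ g).natDegree = g + 1 := by
      rw [natDegree_eq_of_degree_eq (degree_add_eq_left_of_degree_lt hd), hBd]
    refine dstep4 hH hA hAd hm hdd ?_ a
    have e1 : (B₁ + C ε * X ^ g - A₁).coeff g = c₀ + ε := by
      rw [coeff_sub, coeff_add, coeff_C_mul, coeff_X_pow, if_pos rfl, hc₀, coeff_sub]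
      ring
    rw [e1]
    intro h0
    apply hε'
    linear_combination h0
  have hdense : Dense ({-c₀} : Set ℂ)ᶜ := (Set.countable_singleton _).dense_compl ℂ
  have h1 := Continuous.ext_on hdense hcont continuous_const hgood
  have h2 := congrFun h1 0
  rw [hF] at h2
  simpa using h2

/-- The special polynomials are Zariski dense. -/
theorem dens2 {H : MvPolynomial (Fin (2 * g + 3)) ℚ} (hH : Van g H) : H = 0 := by
  have h2 : ∀ c : Fin (2 * g + 3) → ℂ, c (Fin.last _) ≠ 0 → MvPolynomial.aeval c H = 0 := by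
    intro c hc
    set f : ℂ[X] := ∑ i : Fin (2 * g + 3), C (c i) * X ^ (i : ℕ) with hf
    have hcoeff : ∀ i : Fin (2 * g + 3), f.coeff i = c i := by
      intro i
      rw [hf, finsetSum_coeff]
      simp only [coeff_C_mul, coeff_X_pow]
      rw [Finset.sum_eq_single i]
      · simp
      · intro j _ hj
        rw [if_neg fun h => hj (Fin.ext h.symm), mul_zero]
      · intro h
        exact absurd (Finset.mem_univ i) h
    have hdeg : f.natDegree = (g + 1) + (g + 1) := by
      refine le_antisymm ?_ ?_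
      · rw [hf]
        refine natDegree_sum_le_of_forall_le _ _ fun i _ => ?_
        refine (natDegree_C_mul_X_pow_le _ _).trans ?_
        omega
      · have h1 : f.coeff ((g + 1) + (g + 1)) ≠ 0 := by
          have h3 := hcoeff (Fin.last _)
          rw [Fin.val_last] at h3
          have e : (g + 1) + (g + 1) = 2 * g + 2 := by ring
          rw [e, h3]
          exact hc
        exact le_natDegree_of_ne_zero h1
    have hf0 : f ≠ 0 := by
      intro h
      rw [h, natDegree_zero] at hdeg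
      omega
    obtain ⟨ρ, hρ⟩ := exists_roots0 ((g + 1) + (g + 1)) f hdeg hf0
    have h3 : ∏ i, (X - C (ρ i)) = Nd (g + 1) (fun i => ρ (Fin.castAdd (g + 1) i)) *
        Nd (g + 1) (fun i => ρ (Fin.natAdd (g + 1) i)) := Fin.prod_univ_add _
    rw [h3, ← mul_assoc] at hρ
    have h4 := dstep5 hH (Nd_monic fun i => ρ (Fin.castAdd (g + 1) i))
      (Nd_natDegree fun i => ρ (Fin.castAdd (g + 1) i))
      (Nd_monic fun i => ρ (Fin.natAdd (g + 1) i))
      (Nd_natDegree fun i => ρ (Fin.natAdd (g + 1) i)) f.leadingCoeff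
    rw [← hρ] at h4
    unfold HW at h4
    simp only [hcoeff] at h4
    exact h4
  have h3 : MvPolynomial.map (algebraMap ℚ ℂ) H * MvPolynomial.X (Fin.last _) = 0 := by
    refine MvPolynomial.funext fun c => ?_
    rw [map_mul, MvPolynomial.eval_X, map_zero, MvPolynomial.eval_map,
      ← MvPolynomial.aeval_def]
    by_cases hc : c (Fin.last _) = 0
    · rw [hc, mul_zero]
    · rw [h2 c hc, zero_mul]
  rcases mul_eq_zero.1 h3 with h4 | h4
  · apply MvPolynomial.map_injective (algebraMap ℚ ℂ) (algebraMap ℚ ℂ).injective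
    rw [h4, map_zero]
  · exact absurd h4 (MvPolynomial.X_ne_zero _)

/-- The discriminant as a polynomial in the coefficients. -/
theorem exists_disc (n : ℕ) (hn : 1 ≤ n) : ∃ Δ : MvPolynomial (Fin (n + 1)) ℚ, Δ ≠ 0 ∧
    ∀ f : ℚ[X], f.natDegree ≤ n → MvPolynomial.aeval (fun i : Fin (n + 1) => f.coeff i) Δ ≠ 0 →
      Squarefree f := by
  set P := MvPolynomial (Fin (n + 1)) ℚ
  set F : P[X] := ∑ i : Fin (n + 1), C (MvPolynomial.X i : P) * X ^ (i : ℕ) with hF
  set Δ : P := resultant F (derivative F) n (n - 1) with hΔ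
  have hmap : ∀ f : ℚ[X], f.natDegree ≤ n →
      F.map (MvPolynomial.aeval (fun i : Fin (n + 1) => f.coeff i) : P →ₐ[ℚ] ℚ).toRingHom =
        f := by
    intro f hf
    rw [hF]
    simp only [Polynomial.map_sum, Polynomial.map_mul, Polynomial.map_C, Polynomial.map_pow,
      Polynomial.map_X]
    have e : ∀ i : Fin (n + 1), (MvPolynomial.aeval (fun i : Fin (n + 1) => f.coeff i) :
        P →ₐ[ℚ] ℚ).toRingHom (MvPolynomial.X i) = f.coeff i := by
      intro i
      exact MvPolynomial.aeval_X _ i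
    simp only [e]
    rw [Fin.sum_univ_eq_sum_range (fun i => C (f.coeff i) * X ^ i) (n + 1)]
    exact (as_sum_range_C_mul_X_pow' _ (by omega)).symm
  have hval : ∀ f : ℚ[X], f.natDegree ≤ n →
      MvPolynomial.aeval (fun i : Fin (n + 1) => f.coeff i) Δ =
        resultant f (derivative f) n (n - 1) := by
    intro f hf
    have h1 := resultant_map_map F (derivative F) n (n - 1)
      (MvPolynomial.aeval (fun i : Fin (n + 1) => f.coeff i) : P →ₐ[ℚ] ℚ).toRingHom
    rw [← derivative_map, hmap f hf] at h1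
    rw [h1]
    rfl
  refine ⟨Δ, ?_, ?_⟩
  · intro h0
    set f : ℚ[X] := X ^ n - 1 with hf
    have hfd : f.natDegree = n := by
      rw [hf]
      exact natDegree_X_pow_sub_C (r := (1 : ℚ))
    have hfd' : (derivative f).natDegree = n - 1 := by
      have hn0 : (n : ℚ) ≠ 0 := by
        have : n ≠ 0 := by omega
        exact_mod_cast this
      have e : derivative f = C (n : ℚ) * X ^ (n - 1) := by
        rw [hf, derivative_sub, derivative_one, sub_zero, derivative_X_pow]
      rw [e, natDegree_C_mul_X_pow _ _ hn0]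
    have hsep : IsCoprime f (derivative f) := by
      have h1 : f.Separable := by
        rw [hf]
        exact separable_X_pow_sub_C_unit (1 : ℚˣ) (by
          have : n ≠ 0 := by omega
          exact isUnit_iff_ne_zero.2 (by exact_mod_cast this))
      exact h1
    have h1 := resultant_ne_zero f (derivative f) hsep
    have h2 := hval f hfd.le
    rw [h0, map_zero] at h2
    rw [hfd, hfd'] at h1
    exact h1 h2.symm
  · intro f hf hne
    rw [hval f hf] at hne
    obtain ⟨p, q, -, -, h1⟩ := exists_mul_add_mul_eq_C_resultant (m := n) (n := n - 1) f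
      (derivative f) hf ((natDegree_derivative_le f).trans (by omega)) (Or.inl (by omega))
    have h2 : IsCoprime f (derivative f) := by
      refine ⟨C (resultant f (derivative f) n (n - 1))⁻¹ * p,
        C (resultant f (derivative f) n (n - 1))⁻¹ * q, ?_⟩
      have h3 : C (resultant f (derivative f) n (n - 1))⁻¹ *
          C (resultant f (derivative f) n (n - 1)) = (1 : ℚ[X]) := by
        rw [← C_mul, inv_mul_cancel₀ hne, C_1]
      linear_combination C (resultant f (derivative f) n (n - 1))⁻¹ * h1 + h3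
    exact (show f.Separable from h2).squarefree

end Pool.Agent.H442
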