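import Pool.Agent.H442.Dens2
set_option autoImplicit false

/-!
The pairs `(A, D)`, `A = X ∏ R_k ∏ (X - λ_i)`, `R_k = D + (X^{j_k} mod D)`, `D = ∏ (X - β_l)`,
`β_l` different prime numbers (up to translations of `X`), are Zariski dense in the space of all
pairs of monic polynomials.
-/

namespace Pool.Agent.H442

open Polynomial

variable {g p r m : ℕ}

/-- the value of a polynomial in the coefficients of `A` and `D` -/
noncomputable def HP (H : MvPolynomial (Fin (g + 1) ⊕ Fin p) ℚ) (A D : ℂ[X]) : ℂ :=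
  MvPolynomial.aeval (Sum.elim (fun i : Fin (g + 1) => A.coeff i)
    (fun l : Fin p => D.coeff l)) H

theorem HP_gen (H : MvPolynomial (Fin (g + 1) ⊕ Fin p) ℚ) {ι : Type*}
    (A D : (MvPolynomial ι ℂ)[X]) (y : ι → ℂ) :
    MvPolynomial.eval y (MvPolynomial.aeval (Sum.elim (fun i : Fin (g + 1) => A.coeff i)
      (fun l : Fin p => D.coeff l)) H) =
      HP H (A.map (MvPolynomial.eval y)) (D.map (MvPolynomial.eval y)) := by
  unfold HP
  rw [MvPolynomial.aeval_def, MvPolynomial.aeval_def, MvPolynomial.hom_eval₂]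
  congr 1
  · exact Subsingleton.elim _ _
  · funext i
    rcases i with i | l
    · simp only [Sum.elim_inl, coeff_map]
    · simp only [Sum.elim_inr, coeff_map]

theorem HP_int (H : MvPolynomial (Fin (g + 1) ⊕ Fin p) ℚ) (A D : ℤ[X]) :
    HP H (A.map (Int.castRingHom ℂ)) (D.map (Int.castRingHom ℂ)) =
      algebraMap ℚ ℂ (MvPolynomial.aeval (Sum.elim (fun i : Fin (g + 1) => (A.coeff i : ℚ))
        (fun l : Fin p => (D.coeff l : ℚ))) H) := by
  unfold HP
  rw [← MvPolynomial.aeval_algebraMap_apply]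
  congr 2
  funext i
  rcases i with i | l
  · simp
  · simp

/-- the polynomial `A` -/
noncomputable def AF {F : Type*} [CommRing F] (R : Fin r → F[X]) (lam : Fin m → F) (ν : F) :
    F[X] := (X * (∏ k, R k) * ∏ i, (X - C (lam i))).comp (X + C ν)

/-- the polynomial `D` -/
noncomputable def DF {F : Type*} [CommRing F] (b : Fin p → F) (ν : F) : F[X] :=
  (Nd p b).comp (X + C ν)

theorem AF_map {F F' : Type*} [CommRing F] [CommRing F'] (φ : F →+* F') (R : Fin r → F[X])
    (lam : Fin m → F) (ν : F) : (AF R lam ν).map φ =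
      AF (fun k => (R k).map φ) (fun i => φ (lam i)) (φ ν) := by
  unfold AF
  simp only [Polynomial.map_comp, Polynomial.map_mul, Polynomial.map_X, Polynomial.map_prod,
    Polynomial.map_sub, Polynomial.map_C, Polynomial.map_add]

theorem DF_map {F F' : Type*} [CommRing F] [CommRing F'] (φ : F →+* F') (b : Fin p → F) (ν : F) :
    (DF b ν).map φ = DF (fun l => φ (b l)) (φ ν) := by
  unfold DF
  simp only [Polynomial.map_comp, Nd_map, Polynomial.map_X, Polynomial.map_C, Polynomial.map_add]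

/-- The points `(β_l^{j_k})`, `j_k ≥ J`, are Zariski dense. -/
theorem pow_dense3 {β : Fin p → ℕ} (h : Function.Injective β) (hp : ∀ l, (β l).Prime)
    {G : MvPolynomial (Fin r × Fin p) ℂ} {J : ℕ}
    (hG : ∀ j : Fin r → ℕ, (∀ k, J ≤ j k) →
      MvPolynomial.eval (fun q => (β q.2 : ℂ) ^ j q.1) G = 0) : G = 0 := by
  classical
  set b : (Fin r × Fin p →₀ ℕ) → Fin r → ℂ := fun n k => ((∏ l, β l ^ n (k, l) : ℕ) : ℂ) with hb
  have hb0 : ∀ n k, b n k ≠ 0 := by
    intro n k
    rw [hb]
    simp only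
    rw [Nat.cast_ne_zero]
    exact Finset.prod_ne_zero_iff.2 fun l _ => pow_ne_zero _ (hp l).ne_zero
  have hev : ∀ j : Fin r → ℕ, MvPolynomial.eval (fun q => (β q.2 : ℂ) ^ j q.1) G =
      ∑ n ∈ G.support, G.coeff n * ∏ k, b n k ^ j k := by
    intro j
    rw [MvPolynomial.eval_eq']
    refine Finset.sum_congr rfl fun n _ => ?_
    congr 1
    rw [hb, Fintype.prod_prod_type]
    refine Finset.prod_congr rfl fun k _ => ?_
    simp only
    push_cast
    rw [← Finset.prod_pow]
    refine Finset.prod_congr rfl fun l _ => ?_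
    rw [← pow_mul, ← pow_mul, mul_comm]
  -- the characters
  let χ : (Fin r × Fin p →₀ ℕ) → (Multiplicative (Fin r → ℕ) →* ℂ) := fun n =>
    { toFun := fun t => ∏ k, b n k ^ (t.toAdd k)
      map_one' := by simp
      map_mul' := fun s t => by
        rw [← Finset.prod_mul_distrib]
        refine Finset.prod_congr rfl fun k _ => ?_
        rw [toAdd_mul, Pi.add_apply, pow_add] }
  have hχ : ∀ n (t : Fin r → ℕ), χ n (Multiplicative.ofAdd t) = ∏ k, b n k ^ t k := fun _ _ => rfl
  have hinj : Function.Injective χ := by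
    intro n n' he
    ext ⟨k, l⟩
    have h1 := DFunLike.congr_fun he (Multiplicative.ofAdd (Pi.single k 1))
    rw [hχ, hχ] at h1
    have h2 : ∀ n, ∏ k', b n k' ^ (Pi.single k 1 : Fin r → ℕ) k' = b n k := by
      intro n
      rw [Finset.prod_eq_single k]
      · rw [Pi.single_eq_same, pow_one]
      · intro k' _ hk'
        rw [Pi.single_eq_of_ne hk', pow_zero]
      · intro hk
        exact absurd (Finset.mem_univ k) hk
    rw [h2, h2] at h1
    have h3 : ∏ i, β i ^ n (k, i) = ∏ i, β i ^ n' (k, i) := Nat.cast_injective h1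
    have h4 := prod_pow_inj h hp (m := Finsupp.equivFunOnFinite.symm fun i => n (k, i))
      (m' := Finsupp.equivFunOnFinite.symm fun i => n' (k, i)) (by simpa using h3)
    have h5 := DFunLike.congr_fun h4 l
    simpa using h5
  have hind2 : LinearIndependent ℂ (fun n : (Fin r × Fin p →₀ ℕ) =>
      ((χ n : Multiplicative (Fin r → ℕ) →* ℂ) : Multiplicative (Fin r → ℕ) → ℂ)) :=
    (linearIndependent_monoidHom (Multiplicative (Fin r → ℕ)) ℂ).comp χ hinj
  rw [linearIndependent_iff'] at hind2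
  have h2 := hind2 G.support (fun n => G.coeff n * ∏ k, b n k ^ J) (by
    funext a
    rw [Finset.sum_apply]
    have h3 := hG (fun k => J + a.toAdd k) (fun k => Nat.le_add_right _ _)
    have h3' := hev (fun k => J + a.toAdd k)
    rw [h3] at h3'
    replace h3 := h3'.symm
    rw [Pi.zero_apply, ← h3]
    refine Finset.sum_congr rfl fun n _ => ?_
    rw [Pi.smul_apply, smul_eq_mul]
    have h4 : χ n a = ∏ k, b n k ^ (a.toAdd k) := rfl
    rw [h4, mul_assoc, ← Finset.prod_mul_distrib]
    congr 1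
    refine Finset.prod_congr rfl fun k _ => ?_
    rw [pow_add])
  by_contra hne
  obtain ⟨n, hn⟩ := MvPolynomial.support_nonempty.2 hne
  have h3 := h2 n hn
  rcases mul_eq_zero.1 h3 with h4 | h4
  · exact (MvPolynomial.mem_support_iff.1 hn) h4
  · exact Finset.prod_ne_zero_iff.2 (fun k _ => pow_ne_zero _ (hb0 n k)) h4

/-- the property of the special members -/
def Van3 (r m : ℕ) (H : MvPolynomial (Fin (g + 1) ⊕ Fin p) ℚ) : Prop :=
  ∀ β : Fin p → ℕ, Function.Injective β → (∀ l, (β l).Prime) → ∀ lam : Fin m → ℤ,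
    ∃ J : ℕ, ∀ j : Fin r → ℕ, Function.Injective j → (∀ k, J ≤ j k) → ∀ ν : ℤ,
      MvPolynomial.aeval (Sum.elim
        (fun i : Fin (g + 1) => ((AF (fun k => Rz β (j k)) lam ν).coeff i : ℚ))
        (fun l : Fin p => (((Dz β).comp (X + C ν)).coeff l : ℚ))) H = 0

theorem estep1 (hp1 : 1 ≤ p) {H : MvPolynomial (Fin (g + 1) ⊕ Fin p) ℚ} (hH : Van3 r m H)
    {β : Fin p → ℕ} (h : Function.Injective β) (hp : ∀ l, (β l).Prime) (lam : Fin m → ℤ) (ν : ℤ)
    (y : Fin r × Fin p → ℂ) : HP H (AF (fun k => Nd p (bc β) +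
      Lagrange.interpolate Finset.univ (bc β) fun l => y (k, l)) (fun i => (lam i : ℂ)) (ν : ℂ))
      (DF (bc β) (ν : ℂ)) = 0 := by
  classical
  set P := MvPolynomial (Fin r × Fin p) ℂ
  set FA : P[X] := AF (fun k => (Nd p (bc β)).map MvPolynomial.C +
    ∑ l, C (MvPolynomial.X (k, l) : P) * (Lagrange.basis Finset.univ (bc β) l).map
      MvPolynomial.C) (fun i => MvPolynomial.C (lam i : ℂ)) (MvPolynomial.C (ν : ℂ)) with hFA
  set FD : P[X] := DF (fun l => MvPolynomial.C (bc β l)) (MvPolynomial.C (ν : ℂ)) with hFD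
  have hc : ∀ y : Fin r × Fin p → ℂ, (MvPolynomial.eval y).comp
      (MvPolynomial.C (σ := Fin r × Fin p) (R := ℂ)) = RingHom.id ℂ := by
    intro y
    ext a
    simp
  have hFAy : ∀ y : Fin r × Fin p → ℂ, FA.map (MvPolynomial.eval y) = AF (fun k => Nd p (bc β) +
      Lagrange.interpolate Finset.univ (bc β) fun l => y (k, l)) (fun i => (lam i : ℂ))
        (ν : ℂ) := by
    intro y
    rw [hFA, AF_map]
    simp only [Polynomial.map_add, Polynomial.map_sum, Polynomial.map_mul,
      Polynomial.map_C, Polynomial.map_map, hc, Polynomial.map_id, MvPolynomial.eval_X,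
      MvPolynomial.eval_C, Lagrange.interpolate_apply]
  have hFDy : ∀ y : Fin r × Fin p → ℂ, FD.map (MvPolynomial.eval y) = DF (bc β) (ν : ℂ) := by
    intro y
    rw [hFD, DF_map]
    simp only [MvPolynomial.eval_C]
  set G : P := MvPolynomial.aeval (Sum.elim (fun i : Fin (g + 1) => FA.coeff i)
    (fun l : Fin p => FD.coeff l)) H with hG
  have hGy : ∀ y, MvPolynomial.eval y G = HP H (AF (fun k => Nd p (bc β) +
      Lagrange.interpolate Finset.univ (bc β) fun l => y (k, l)) (fun i => (lam i : ℂ)) (ν : ℂ))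
      (DF (bc β) (ν : ℂ)) := by
    intro y
    rw [hG, HP_gen, hFAy, hFDy]
  obtain ⟨J, hJ⟩ := hH β h hp lam
  -- the exponents have to be different
  set l₀ : Fin p := ⟨0, hp1⟩
  set V : P := ∏ a : Fin r, ∏ b ∈ Finset.univ.erase a, ((MvPolynomial.X (a, l₀) : P) -
    MvPolynomial.X (b, l₀)) with hV
  have hV0 : V ≠ 0 := by
    rw [hV]
    refine Finset.prod_ne_zero_iff.2 fun a _ => Finset.prod_ne_zero_iff.2 fun b hb => ?_
    rw [sub_ne_zero]
    intro he
    have h1 := MvPolynomial.X_injective he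
    exact Finset.ne_of_mem_erase hb (Prod.ext_iff.1 h1).1.symm
  have hVG : V * G = 0 := by
    refine pow_dense3 h hp (J := J) fun j hj => ?_
    rw [map_mul]
    by_cases hinj : Function.Injective j
    · have h1 := hJ j hinj hj ν
      have h2 := HP_int H (AF (fun k => Rz β (j k)) lam ν) ((Dz β).comp (X + C ν))
      rw [h1, map_zero] at h2
      have e2 : (Dz β).map (Int.castRingHom ℂ) = Nd p (bc β) := by
        rw [Dz_map]
        rfl
      have e3 : ∀ k, (Rz β (j k)).map (Int.castRingHom ℂ) = Nd p (bc β) +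
          Lagrange.interpolate Finset.univ (bc β) fun l => (β l : ℂ) ^ j k := by
        intro k
        unfold Rz
        rw [Polynomial.map_add, e2, mod_map h]
        rfl
      have e4 : ((Dz β).comp (X + C ν)).map (Int.castRingHom ℂ) = DF (bc β) (ν : ℂ) := by
        rw [Polynomial.map_comp, e2]
        unfold DF
        simp
      have e5 : (AF (fun k => Rz β (j k)) lam ν).map (Int.castRingHom ℂ) =
          AF (fun k => Nd p (bc β) + Lagrange.interpolate Finset.univ (bc β)
            fun l => (β l : ℂ) ^ j k) (fun i => (lam i : ℂ)) (ν : ℂ) := by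
        rw [AF_map]
        simp only [e3]
        rfl
      rw [e4, e5] at h2
      rw [hGy, h2, mul_zero]
    · have h1 : MvPolynomial.eval (fun q : Fin r × Fin p => (β q.2 : ℂ) ^ j q.1) V = 0 := by
        rw [Function.not_injective_iff] at hinj
        obtain ⟨a, b, hab, hne⟩ := hinj
        rw [hV, map_prod]
        refine Finset.prod_eq_zero (Finset.mem_univ a) ?_
        rw [map_prod]
        refine Finset.prod_eq_zero (Finset.mem_erase.2 ⟨fun e => hne e.symm,
          Finset.mem_univ b⟩) ?_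
        rw [map_sub, MvPolynomial.eval_X, MvPolynomial.eval_X]
        simp only [hab, sub_self]
      rw [h1, zero_mul]
  have hG0 : G = 0 := (mul_eq_zero.1 hVG).resolve_left hV0
  rw [← hGy, hG0, map_zero]

theorem estep2 (hp1 : 1 ≤ p) {H : MvPolynomial (Fin (g + 1) ⊕ Fin p) ℚ} (hH : Van3 r m H)
    {β : Fin p → ℕ} (h : Function.Injective β) (hp : ∀ l, (β l).Prime) (lam : Fin m → ℤ) (ν : ℤ)
    {R : Fin r → ℂ[X]} (hR : ∀ k, (R k).Monic) (hRd : ∀ k, (R k).natDegree = p) :
    HP H (AF R (fun i => (lam i : ℂ)) (ν : ℂ)) (DF (bc β) (ν : ℂ)) = 0 := by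
  classical
  have hD := Nd_monic (bc β)
  have hDd := Nd_natDegree (bc β)
  have h1 : ∀ k, (R k - Nd p (bc β)).degree < (p : ℕ) := by
    intro k
    have h2 : (R k).degree = (Nd p (bc β)).degree := by
      rw [degree_eq_natDegree (hR k).ne_zero, degree_eq_natDegree hD.ne_zero, hRd, hDd]
    have h3 := degree_sub_lt_left h2 (hR k).ne_zero
      (by rw [(hR k).leadingCoeff, hD.leadingCoeff])
    rw [degree_eq_natDegree (hR k).ne_zero, hRd] at h3
    exact h3
  have h2 : ∀ k, R k - Nd p (bc β) = Lagrange.interpolate Finset.univ (bc β)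
      fun l => (R k - Nd p (bc β)).eval (bc β l) := by
    intro k
    refine Lagrange.eq_interpolate_of_eval_eq _ (bc_inj h).injOn ?_ fun l _ => rfl
    rw [Finset.card_univ, Fintype.card_fin]
    exact h1 k
  have h3 : R = fun k => Nd p (bc β) + Lagrange.interpolate Finset.univ (bc β)
      fun l => (R k - Nd p (bc β)).eval (bc β l) := by
    funext k
    rw [← h2 k]
    ring
  rw [h3]
  exact estep1 hp1 hH h hp lam ν fun q => (R q.1 - Nd p (bc β)).eval (bc β q.2)

theorem estep3 (hp1 : 1 ≤ p) {H : MvPolynomial (Fin (g + 1) ⊕ Fin p) ℚ} (hH : Van3 r m H)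
    {R : Fin r → ℂ[X]} (hR : ∀ k, (R k).Monic) (hRd : ∀ k, (R k).natDegree = p)
    (b : Fin p → ℂ) (lam : Fin m → ℂ) (ν : ℂ) : HP H (AF R lam ν) (DF b ν) = 0 := by
  classical
  set P := MvPolynomial (Fin p ⊕ (Fin m ⊕ Unit)) ℂ
  set FA : P[X] := AF (fun k => (R k).map MvPolynomial.C)
    (fun i => (MvPolynomial.X (Sum.inr (Sum.inl i)) : P))
    (MvPolynomial.X (Sum.inr (Sum.inr ()))) with hFA
  set FD : P[X] := DF (fun l => (MvPolynomial.X (Sum.inl l) : P))
    (MvPolynomial.X (Sum.inr (Sum.inr ()))) with hFD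
  have hc : ∀ y : Fin p ⊕ (Fin m ⊕ Unit) → ℂ, (MvPolynomial.eval y).comp
      (MvPolynomial.C (σ := Fin p ⊕ (Fin m ⊕ Unit)) (R := ℂ)) = RingHom.id ℂ := by
    intro y
    ext a
    simp
  have hFAy : ∀ y : Fin p ⊕ (Fin m ⊕ Unit) → ℂ, FA.map (MvPolynomial.eval y) =
      AF R (fun i => y (Sum.inr (Sum.inl i))) (y (Sum.inr (Sum.inr ()))) := by
    intro y
    rw [hFA, AF_map]
    simp only [Polynomial.map_map, hc, Polynomial.map_id, MvPolynomial.eval_X]
  have hFDy : ∀ y : Fin p ⊕ (Fin m ⊕ Unit) → ℂ, FD.map (MvPolynomial.eval y) =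
      DF (fun l => y (Sum.inl l)) (y (Sum.inr (Sum.inr ()))) := by
    intro y
    rw [hFD, DF_map]
    simp only [MvPolynomial.eval_X]
  set G : P := MvPolynomial.aeval (Sum.elim (fun i : Fin (g + 1) => FA.coeff i)
    (fun l : Fin p => FD.coeff l)) H with hG
  set V : P := ∏ i : Fin p, ∏ j ∈ Finset.univ.erase i, ((MvPolynomial.X (Sum.inl i) : P) -
    MvPolynomial.X (Sum.inl j)) with hV
  have hV0 : V ≠ 0 := by
    rw [hV]
    refine Finset.prod_ne_zero_iff.2 fun i _ => Finset.prod_ne_zero_iff.2 fun j hj => ?_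
    rw [sub_ne_zero]
    intro he
    have h1 := MvPolynomial.X_injective he
    exact Finset.ne_of_mem_erase hj (Sum.inl_injective h1).symm
  have hVG : V * G = 0 := by
    refine MvPolynomial.funext_set (Sum.elim (fun _ => (fun n : ℕ => (n : ℂ)) '' {p | p.Prime})
      (fun _ => Set.range fun q : ℤ => (q : ℂ))) ?_ ?_
    · rintro (i | j)
      · exact Nat.infinite_setOfPred_prime.image (Nat.cast_injective.injOn)
      · exact Set.infinite_range_of_injective Int.cast_injective
    · intro x hx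
      rw [map_zero, map_mul]
      by_cases hz : MvPolynomial.eval x V = 0
      · rw [hz, zero_mul]
      have hx1 : ∀ l : Fin p, ∃ q : ℕ, q.Prime ∧ (q : ℂ) = x (Sum.inl l) := fun l => by
        obtain ⟨q, hq, hqx⟩ := hx (Sum.inl l) (Set.mem_univ _)
        exact ⟨q, hq, hqx⟩
      have hx2 : ∀ l : Fin m ⊕ Unit, ∃ q : ℤ, (q : ℂ) = x (Sum.inr l) := fun l =>
        hx (Sum.inr l) (Set.mem_univ _)
      choose β hβp hβ using hx1
      choose q hq using hx2
      rw [hV] at hz
      simp only [map_prod, map_sub, MvPolynomial.eval_X] at hz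
      have hinj : Function.Injective β := by
        intro i j hij
        by_contra hne
        have h1 := Finset.prod_ne_zero_iff.1 hz i (Finset.mem_univ i)
        have h2 := Finset.prod_ne_zero_iff.1 h1 j
          (Finset.mem_erase.2 ⟨fun e => hne e.symm, Finset.mem_univ j⟩)
        apply h2
        rw [← hβ i, ← hβ j, hij, sub_self]
      have h1 := estep2 hp1 hH hinj hβp (fun i => q (Sum.inl i)) (q (Sum.inr ())) hR hRd
      rw [hG, HP_gen, hFAy, hFDy]
      have h2 : (fun l => x (Sum.inl l)) = bc β := by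
        funext l
        rw [← hβ l]
        rfl
      have h3 : (fun i => x (Sum.inr (Sum.inl i))) = fun i => ((q (Sum.inl i) : ℤ) : ℂ) := by
        funext i
        rw [hq]
      rw [h2, h3, ← hq (Sum.inr ()), h1, mul_zero]
  have hG0 : G = 0 := (mul_eq_zero.1 hVG).resolve_left hV0
  have h1 := HP_gen H FA FD (Sum.elim b (Sum.elim lam fun _ => ν))
  rw [← hG, hG0, map_zero, hFAy, hFDy] at h1
  exact h1.symm

/-- All pairs of monic polynomials. -/
theorem estep4 (hp1 : 1 ≤ p) (hg : r * p + m = g) {H : MvPolynomial (Fin (g + 1) ⊕ Fin p) ℚ}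
    (hH : Van3 r m H) {A D : ℂ[X]} (hA : A.Monic) (hAd : A.natDegree = g + 1) (hD : D.Monic)
    (hDd : D.natDegree = p) : HP H A D = 0 := by
  classical
  obtain ⟨ρ, hρ⟩ := exists_roots0 (g + 1) A hAd hA.ne_zero
  rw [hA.leadingCoeff, C_1, one_mul, Fin.prod_univ_succ] at hρ
  set ν : ℂ := -ρ 0 with hν
  obtain ⟨b, hb⟩ := Monic.exists_Nd (hD.comp (monic_X_sub_C ν) (by
    rw [natDegree_X_sub_C]
    exact one_ne_zero)) (g := p) (by
    rw [natDegree_comp, natDegree_X_sub_C, mul_one, hDd])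
  -- the other roots
  let e : (Fin r × Fin p) ⊕ Fin m ≃ Fin g :=
    (Equiv.sumCongr finProdFinEquiv (Equiv.refl _)).trans (finSumFinEquiv.trans (finCongr hg))
  set R : Fin r → ℂ[X] := fun k => ∏ l, (X - C (ρ (e (Sum.inl (k, l))).succ + ν)) with hR
  have hRm : ∀ k, (R k).Monic := fun k => monic_prod_of_monic _ _ fun _ _ => monic_X_sub_C _
  have hRd : ∀ k, (R k).natDegree = p := by
    intro k
    rw [hR]
    simp only
    rw [natDegree_prod_of_monic _ _ fun _ _ => monic_X_sub_C _]
    simp only [natDegree_X_sub_C, Finset.sum_const, Finset.card_univ, Fintype.card_fin,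
      smul_eq_mul, mul_one]
  have h1 := estep3 hp1 hH hRm hRd b (fun i => ρ (e (Sum.inr i)).succ + ν) ν
  have hc : ∀ c : ℂ, (X - C (c + ν) : ℂ[X]).comp (X + C ν) = X - C c := by
    intro c
    rw [sub_comp, X_comp, C_comp, C_add]
    ring
  have h2 : DF b ν = D := by
    unfold DF
    rw [← hb, comp_assoc, sub_comp, X_comp, C_comp, add_sub_cancel_right, comp_X]
  have h3 : AF R (fun i => ρ (e (Sum.inr i)).succ + ν) ν = A := by
    unfold AF
    rw [mul_comp, mul_comp, X_comp, Polynomial.prod_comp, Polynomial.prod_comp, hρ, hR]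
    simp only [Polynomial.prod_comp, hc]
    have h4 : ∏ i : Fin g, (X - C (ρ i.succ)) = (∏ k, ∏ l, (X - C (ρ (e (Sum.inl (k, l))).succ))) *
        ∏ i, (X - C (ρ (e (Sum.inr i)).succ)) := by
      rw [← Equiv.prod_comp e, Fintype.prod_sum_type, Fintype.prod_prod_type]
    rw [h4, hν, C_neg, ← sub_eq_add_neg, mul_assoc]
  rw [h2, h3] at h1
  exact h1

/-- The special pairs are Zariski dense. -/
theorem dens3 (hp1 : 1 ≤ p) (hg : r * p + m = g) {H : MvPolynomial (Fin (g + 1) ⊕ Fin p) ℚ}
    (hH : Van3 r m H) : H = 0 := by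
  have key : ∀ (n : ℕ) (c : Fin n → ℂ), (X ^ n + ∑ i : Fin n, C (c i) * X ^ (i : ℕ)).Monic ∧
      (X ^ n + ∑ i : Fin n, C (c i) * X ^ (i : ℕ)).natDegree = n ∧
      ∀ i : Fin n, (X ^ n + ∑ i : Fin n, C (c i) * X ^ (i : ℕ)).coeff i = c i := by
    intro n c
    have h1 : (∑ i : Fin n, C (c i) * X ^ (i : ℕ)).degree < (n : WithBot ℕ) :=
      degree_sum_fin_lt c
    have h2 : (∑ i : Fin n, C (c i) * X ^ (i : ℕ)).degree < (X ^ n : ℂ[X]).degree := by
      rw [degree_X_pow]
      exact h1
    refine ⟨(monic_X_pow n).add_of_left h2, ?_, fun i => ?_⟩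
    · rw [natDegree_eq_of_degree_eq (degree_add_eq_left_of_degree_lt h2), natDegree_X_pow]
    · rw [coeff_add, coeff_X_pow, if_neg (by
        have := i.2
        omega), zero_add, finsetSum_coeff]
      simp only [coeff_C_mul, coeff_X_pow]
      rw [Finset.sum_eq_single i]
      · simp
      · intro j _ hj
        rw [if_neg fun h => hj (Fin.ext h.symm), mul_zero]
      · intro h
        exact absurd (Finset.mem_univ i) h
  apply MvPolynomial.map_injective (algebraMap ℚ ℂ) (algebraMap ℚ ℂ).injective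
  rw [map_zero]
  refine MvPolynomial.funext fun c => ?_
  rw [map_zero, MvPolynomial.eval_map, ← MvPolynomial.aeval_def]
  obtain ⟨a1, a2, a3⟩ := key (g + 1) fun i => c (Sum.inl i)
  obtain ⟨b1, b2, b3⟩ := key p fun l => c (Sum.inr l)
  have h1 := estep4 hp1 hg hH a1 a2 b1 b2
  unfold HP at h1
  simp only [a3, b3] at h1
  have e : (Sum.elim (fun i => c (Sum.inl i)) (fun l => c (Sum.inr l)) :
      Fin (g + 1) ⊕ Fin p → ℂ) = c := by
    funext i
    rcases i with i | l <;> rfl
  rw [e] at h1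
  exact h1

end Pool.Agent.H442
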