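import Pool.Agent.H442.Dens3
set_option autoImplicit false

/-!
The discriminant of `A (A + 4 D)` as a polynomial in the coefficients of `A` and `D`.
-/

namespace Pool.Agent.H442

open Polynomial

/-- The discriminant as a polynomial in the coefficients. -/
theorem exists_disc' (n : ℕ) (hn : 1 ≤ n) : ∃ Δ : MvPolynomial (Fin (n + 1)) ℚ,
    (∀ f : ℚ[X], f.natDegree ≤ n → MvPolynomial.aeval (fun i : Fin (n + 1) => f.coeff i) Δ ≠ 0 →
      Squarefree f) ∧ ∀ f : ℚ[X], f.natDegree = n → f.Separable →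
      MvPolynomial.aeval (fun i : Fin (n + 1) => f.coeff i) Δ ≠ 0 := by
  set P := MvPolynomial (Fin (n + 1)) ℚ
  set F : P[X] := ∑ i : Fin (n + 1), C (MvPolynomial.X i : P) * X ^ (i : ℕ) with hF
  set Δ : P := resultant F (derivative F) n (n - 1) with hΔ
  have hmap : ∀ f : ℚ[X], f.natDegree ≤ n →
      F.map (MvPolynomial.aeval (fun i : Fin (n + 1) => f.coeff i) : P →ₐ[ℚ] ℚ).toRingHom =
        f := by
    intro f hf
    rw [hF]
    simp only [Polynomial.map_sum, Polynomial.map_mul, Polynomial.map_C, Polynomial.map_pow,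
      Polynomial.map_X]
    have e : ∀ i : Fin (n + 1), (MvPolynomial.aeval (fun i : Fin (n + 1) => f.coeff i) :
        P →ₐ[ℚ] ℚ).toRingHom (MvPolynomial.X i) = f.coeff i := by
      intro i
      exact MvPolynomial.aeval_X _ i
    simp only [e]
    rw [Fin.sum_univ_eq_sum_range (fun i => C (f.coeff i) * X ^ i) (n + 1)]
    exact (as_sum_range_C_mul_X_pow' _ (by omega)).symm
  have hval : ∀ f : ℚ[X], f.natDegree ≤ n →
      MvPolynomial.aeval (fun i : Fin (n + 1) => f.coeff i) Δ =
        resultant f (derivative f) n (n - 1) := by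
    intro f hf
    have h1 := resultant_map_map F (derivative F) n (n - 1)
      (MvPolynomial.aeval (fun i : Fin (n + 1) => f.coeff i) : P →ₐ[ℚ] ℚ).toRingHom
    rw [← derivative_map, hmap f hf] at h1
    rw [h1]
    rfl
  refine ⟨Δ, ?_, ?_⟩
  · intro f hf hne
    rw [hval f hf] at hne
    obtain ⟨p, q, -, -, h1⟩ := exists_mul_add_mul_eq_C_resultant (m := n) (n := n - 1) f
      (derivative f) hf ((natDegree_derivative_le f).trans (by omega)) (Or.inl (by omega))
    have h2 : IsCoprime f (derivative f) := by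
      refine ⟨C (resultant f (derivative f) n (n - 1))⁻¹ * p,
        C (resultant f (derivative f) n (n - 1))⁻¹ * q, ?_⟩
      have h3 : C (resultant f (derivative f) n (n - 1))⁻¹ *
          C (resultant f (derivative f) n (n - 1)) = (1 : ℚ[X]) := by
        rw [← C_mul, inv_mul_cancel₀ hne, C_1]
      linear_combination C (resultant f (derivative f) n (n - 1))⁻¹ * h1 + h3
    exact (show f.Separable from h2).squarefree
  · intro f hfd hsep h0
    have hfd' : (derivative f).natDegree = n - 1 := by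
      rw [natDegree_derivative, hfd]
    have h1 := resultant_ne_zero f (derivative f) hsep
    have h2 := hval f hfd.le
    rw [h0] at h2
    rw [hfd, hfd'] at h1
    exact h1 h2.symm

/-- A nonconstant polynomial becomes separable after the addition of a suitable constant. -/
theorem exists_sep_add {P : ℚ[X]} (hP : P.natDegree ≠ 0) : ∃ c : ℤ, c ≠ 0 ∧
    (P + C (c : ℚ)).Separable := by
  classical
  have hd : derivative P ≠ 0 := by
    intro h
    exact hP (derivative_eq_zero.1 h)
  set S : Set ℂ := (fun ρ => -(aeval ρ P)) '' {ρ : ℂ | aeval ρ (derivative P) = 0} with hS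
  have hfin : {ρ : ℂ | aeval ρ (derivative P) = 0}.Finite := by
    have h1 : ((derivative P).map (algebraMap ℚ ℂ)) ≠ 0 :=
      (Polynomial.map_ne_zero_iff (algebraMap ℚ ℂ).injective).2 hd
    refine (((derivative P).map (algebraMap ℚ ℂ)).roots.toFinset.finite_toSet).subset ?_
    intro ρ hρ
    have h2 : aeval ρ (derivative P) = 0 := hρ
    rw [Finset.mem_coe, Multiset.mem_toFinset, mem_roots h1, IsRoot.def, eval_map_algebraMap]
    exact h2
  have hSf : S.Finite := hfin.image _
  have hinf : (Set.range fun c : ℤ => (c : ℂ)).Infinite :=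
    Set.infinite_range_of_injective Int.cast_injective
  obtain ⟨c', ⟨c, rfl⟩, hc⟩ := hinf.exists_notMem_finite (hSf.union (Set.finite_singleton (0 : ℂ)))
  simp only [Set.mem_union, Set.mem_singleton_iff, not_or] at hc
  refine ⟨c, fun h => hc.2 (by rw [h]; simp), ?_⟩
  rw [separable_def]
  refine (Polynomial.isCoprime_iff_aeval_ne_zero_of_isAlgClosed (k := ℚ) ℂ _ _).2 ?_
  intro ρ
  by_cases hρ : aeval ρ (derivative P) = 0
  · left
    intro h0
    apply hc.1
    refine ⟨ρ, hρ, ?_⟩
    rw [map_add, aeval_C, map_intCast] at h0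
    simp only
    linear_combination -h0
  · right
    rw [derivative_add, derivative_C, add_zero]
    exact hρ

theorem exists_pair {g p : ℕ} (hpg : p ≤ g) : ∃ A D : ℚ[X], A.Monic ∧
    A.natDegree = g + 1 ∧ D.Monic ∧ D.natDegree = p ∧ (A * (A + 4 * D)).Separable := by
  have hlt : (4 * X ^ p : ℚ[X]).degree < (X ^ (g + 1) : ℚ[X]).degree := by
    rw [degree_X_pow]
    have e : (4 * X ^ p : ℚ[X]) = C 4 * X ^ p := by rw [C_ofNat]
    rw [e, degree_C_mul_X_pow _ (by norm_num)]
    exact_mod_cast Nat.lt_succ_of_le hpg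
  have hPd : (X ^ (g + 1) + 4 * X ^ p : ℚ[X]).natDegree = g + 1 := by
    rw [natDegree_eq_of_degree_eq (degree_add_eq_left_of_degree_lt hlt), natDegree_X_pow]
  obtain ⟨c, hc, hsep⟩ := exists_sep_add (P := (X ^ (g + 1) + 4 * X ^ p : ℚ[X])) (by omega)
  have hcq : (c : ℚ) ≠ 0 := by exact_mod_cast hc
  refine ⟨X ^ (g + 1) + C (c : ℚ), X ^ p, monic_X_pow_add_C _ (by omega), natDegree_X_pow_add_C,
    monic_X_pow p, natDegree_X_pow p, ?_⟩
  have h1 : (X ^ (g + 1) + C (c : ℚ) : ℚ[X]).Separable := by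
    have h2 := separable_X_pow_sub_C_unit (n := g + 1) (Units.mk0 (-(c : ℚ)) (neg_ne_zero.2 hcq))
      (isUnit_iff_ne_zero.2 (by positivity))
    rw [Units.val_mk0, C_neg, sub_neg_eq_add] at h2
    exact h2
  refine h1.mul ?_ ?_
  · have e : (X ^ (g + 1) + C (c : ℚ) + 4 * X ^ p : ℚ[X]) = X ^ (g + 1) + 4 * X ^ p + C (c : ℚ) := by
      ring
    rw [e]
    exact hsep
  · -- `(A, A + 4 X^p) = 1`
    have h3 : IsCoprime (X ^ (g + 1) + C (c : ℚ) : ℚ[X]) (X ^ p) := by
      have h4 : IsCoprime (X ^ (g + 1) + C (c : ℚ) : ℚ[X]) X := by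
        refine ⟨C (c : ℚ)⁻¹, -(C (c : ℚ)⁻¹ * X ^ g), ?_⟩
        have h5 : C (c : ℚ)⁻¹ * C (c : ℚ) = (1 : ℚ[X]) := by
          rw [← C_mul, inv_mul_cancel₀ hcq, C_1]
        linear_combination h5
      exact h4.pow_right
    have h4 : IsCoprime (X ^ (g + 1) + C (c : ℚ) : ℚ[X]) (4 * X ^ p) := by
      refine IsCoprime.mul_right ?_ h3
      refine ⟨0, C (1 / 4), ?_⟩
      have e : (4 : ℚ[X]) = C 4 := (C_ofNat 4).symm
      rw [e, zero_mul, zero_add, ← C_mul]
      norm_num
    have h5 := h4.add_mul_left_right 1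
    rw [mul_one, add_comm (4 * X ^ p : ℚ[X])] at h5
    exact h5

theorem exists_discAD {g p : ℕ} (hpg : p ≤ g) :
    ∃ Δ : MvPolynomial (Fin (g + 1) ⊕ Fin p) ℚ, Δ ≠ 0 ∧ ∀ A D : ℚ[X], A.Monic →
      A.natDegree = g + 1 → D.Monic → D.natDegree = p →
      MvPolynomial.aeval (Sum.elim (fun i : Fin (g + 1) => A.coeff i)
        (fun l : Fin p => D.coeff l)) Δ ≠ 0 → Squarefree (A * (A + 4 * D)) := by
  obtain ⟨Δ, hΔ1, hΔ2⟩ := exists_disc' (2 * g + 2) (by omega)
  set P := MvPolynomial (Fin (g + 1) ⊕ Fin p) ℚ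
  set GA : P[X] := X ^ (g + 1) + ∑ i : Fin (g + 1), C (MvPolynomial.X (Sum.inl i) : P) *
    X ^ (i : ℕ) with hGA
  set GD : P[X] := X ^ p + ∑ l : Fin p, C (MvPolynomial.X (Sum.inr l) : P) * X ^ (l : ℕ) with hGD
  set Δ' : P := MvPolynomial.aeval (fun i : Fin (2 * g + 2 + 1) => (GA * (GA + 4 * GD)).coeff i) Δ
    with hΔ'
  have hmon : ∀ (n : ℕ) (Q : ℚ[X]), Q.Monic → Q.natDegree = n →
      X ^ n + ∑ i : Fin n, C (Q.coeff i) * X ^ (i : ℕ) = Q := by
    intro n Q hQ hn
    rw [Fin.sum_univ_eq_sum_range (fun i => C (Q.coeff i) * X ^ i) n, ← hn]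
    conv_rhs => rw [hQ.as_sum]
  have hval : ∀ A D : ℚ[X], A.Monic → A.natDegree = g + 1 → D.Monic → D.natDegree = p →
      MvPolynomial.aeval (Sum.elim (fun i : Fin (g + 1) => A.coeff i)
        (fun l : Fin p => D.coeff l)) Δ' =
      MvPolynomial.aeval (fun i : Fin (2 * g + 2 + 1) => (A * (A + 4 * D)).coeff i) Δ := by
    intro A D hA hAd hD hDd
    set φ : P →ₐ[ℚ] ℚ := MvPolynomial.aeval (Sum.elim (fun i : Fin (g + 1) => A.coeff i)
        (fun l : Fin p => D.coeff l)) with hφ
    have e1 : GA.map φ.toRingHom = A := by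
      rw [hGA]
      simp only [Polynomial.map_add, Polynomial.map_pow, Polynomial.map_X, Polynomial.map_sum,
        Polynomial.map_mul, Polynomial.map_C]
      have e : ∀ i : Fin (g + 1), φ.toRingHom (MvPolynomial.X (Sum.inl i)) = A.coeff i := by
        intro i
        exact MvPolynomial.aeval_X _ (Sum.inl i)
      simp only [e]
      exact hmon _ A hA hAd
    have e2 : GD.map φ.toRingHom = D := by
      rw [hGD]
      simp only [Polynomial.map_add, Polynomial.map_pow, Polynomial.map_X, Polynomial.map_sum,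
        Polynomial.map_mul, Polynomial.map_C]
      have e : ∀ i : Fin p, φ.toRingHom (MvPolynomial.X (Sum.inr i)) = D.coeff i := by
        intro i
        exact MvPolynomial.aeval_X _ (Sum.inr i)
      simp only [e]
      exact hmon _ D hD hDd
    have e3 : (GA * (GA + 4 * GD)).map φ.toRingHom = A * (A + 4 * D) := by
      have e3' : ((4 : P[X]).map φ.toRingHom) = 4 := Polynomial.map_ofNat _ 4
      rw [Polynomial.map_mul, Polynomial.map_add (q := 4 * GD), Polynomial.map_mul (p := 4), e1,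
        e2, e3']
    rw [hΔ']
    have e4 : φ (MvPolynomial.aeval (fun i : Fin (2 * g + 2 + 1) =>
        (GA * (GA + 4 * GD)).coeff i) Δ) = MvPolynomial.aeval (fun i : Fin (2 * g + 2 + 1) =>
        φ ((GA * (GA + 4 * GD)).coeff i)) Δ := by
      rw [← AlgHom.comp_apply, MvPolynomial.comp_aeval]
    rw [e4]
    congr 2
    funext i
    rw [← e3, coeff_map]
    rfl
  refine ⟨Δ', ?_, ?_⟩
  · intro h0
    obtain ⟨A, D, hA, hAd, hD, hDd, hsep⟩ := exists_pair hpg
    have h1 := hval A D hA hAd hD hDd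
    rw [h0, map_zero] at h1
    refine hΔ2 _ ?_ hsep h1.symm
    have h2 : (4 * D).natDegree < A.natDegree := by
      have e : (4 * D : ℚ[X]) = C 4 * D := by rw [C_ofNat]
      rw [e, natDegree_C_mul (by norm_num), hDd, hAd]
      omega
    have h3 : (A + 4 * D).Monic := hA.add_of_left (degree_lt_degree h2)
    have h4 : (A + 4 * D).natDegree = g + 1 := by
      rw [natDegree_add_eq_left_of_natDegree_lt h2, hAd]
    rw [hA.natDegree_mul h3, hAd, h4]
    ring
  · intro A D hA hAd hD hDd hne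
    rw [hval A D hA hAd hD hDd] at hne
    refine hΔ1 _ ?_ hne
    refine natDegree_mul_le.trans ?_
    have h2 : (A + 4 * D).natDegree ≤ g + 1 := by
      refine (natDegree_add_le _ _).trans (max_le hAd.le ?_)
      have e : (4 * D : ℚ[X]) = C 4 * D := by rw [C_ofNat]
      rw [e]
      exact (natDegree_C_mul_le _ _).trans (by omega)
    omega

end Pool.Agent.H442
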