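import Mathlib
set_option autoImplicit false

/-!
A positivity argument: matrices close to `max (ℓ_i, ℓ_j)` off the diagonal with row sums `ℓ_i`.
-/

namespace Pool.Agent.H442

open Finset

/-- The quadratic form of a matrix `P` with row sums `ℓ_i` whose off-diagonal entries are at
distance at most `C0` from `max (ℓ_i, ℓ_j)` has no isotropic vector in the hyperplane
`∑ ℓ_i c_i = 0`, if one of the `ℓ_i` is larger than `4 C0 k²`. -/
theorem quad_zero {k : ℕ} {ℓ : Fin k → ℝ} (hℓ : ∀ i, 0 ≤ ℓ i) {P : Fin k → Fin k → ℝ} {C0 : ℝ}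
    (hrow : ∀ i, ∑ j, P i j = ℓ i) (hP : ∀ i j, i ≠ j → |P i j - max (ℓ i) (ℓ j)| ≤ C0)
    {m : Fin k} (hbig : 4 * C0 * (k : ℝ) ^ 2 < ℓ m) (hC0 : 0 ≤ C0) {c : Fin k → ℝ}
    (h1 : ∑ i, ℓ i * c i = 0) (h2 : ∑ j, c j * ∑ i, c i * P i j = 0) : ∀ i, c i = 0 := by
  classical
  have hm0 : 0 < ℓ m := lt_of_le_of_lt (by positivity) hbig
  set T : ℝ := ∑ i, ℓ i with hT
  have hTm : ∀ i j, i ≠ j → ℓ i + ℓ j ≤ T := by
    intro i j hij
    rw [hT, ← add_sum_erase _ _ (mem_univ i), ← add_sum_erase _ _ (mem_erase.2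
      ⟨hij.symm, mem_univ j⟩)]
    have : 0 ≤ ∑ x ∈ (univ.erase i).erase j, ℓ x := sum_nonneg fun x _ => hℓ x
    linarith
  have hT0 : 0 < T := lt_of_lt_of_le hm0 (by
    rw [hT]
    exact single_le_sum (fun i _ => hℓ i) (mem_univ m))
  -- the identity
  have hid : ∑ i, ∑ j, (if i = j then 0 else P i j) * (c i ^ 2 - c i * c j) =
      ∑ i, ℓ i * c i ^ 2 := by
    have e1 : ∀ i, ∑ j, (if i = j then 0 else P i j) * (c i ^ 2 - c i * c j) =
        c i ^ 2 * ℓ i - ∑ j, c i * c j * P i j := by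
      intro i
      rw [← hrow i, mul_sum, ← sum_sub_distrib]
      refine sum_congr rfl fun j _ => ?_
      by_cases h : i = j
      · rw [if_pos h, h]; ring
      · rw [if_neg h]; ring
    simp only [e1, sum_sub_distrib]
    have e2 : ∑ i, ∑ j, c i * c j * P i j = 0 := by
      rw [← h2, sum_comm]
      refine sum_congr rfl fun j _ => ?_
      rw [mul_sum]
      exact sum_congr rfl fun i _ => by ring
    rw [e2, sub_zero]
    exact sum_congr rfl fun i _ => by ring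
  -- symmetrisation of the main term
  have hmax : ∑ i, ∑ j, (if i = j then 0 else max (ℓ i) (ℓ j)) * (c i ^ 2 - c i * c j) =
      (1 / 2) * ∑ i, ∑ j, max (ℓ i) (ℓ j) * (c i - c j) ^ 2 := by
    have e1 : ∑ i, ∑ j, (if i = j then 0 else max (ℓ i) (ℓ j)) * (c i ^ 2 - c i * c j) =
        ∑ i, ∑ j, max (ℓ i) (ℓ j) * (c i ^ 2 - c i * c j) := by
      refine sum_congr rfl fun i _ => sum_congr rfl fun j _ => ?_
      by_cases h : i = j
      · rw [if_pos h, h]; ring
      · rw [if_neg h]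
    have e2 : ∑ i, ∑ j, max (ℓ i) (ℓ j) * (c i ^ 2 - c i * c j) =
        ∑ i, ∑ j, max (ℓ i) (ℓ j) * (c j ^ 2 - c i * c j) := by
      rw [sum_comm]
      refine sum_congr rfl fun i _ => sum_congr rfl fun j _ => ?_
      rw [max_comm]
      ring
    have e3 : ∑ i, ∑ j, max (ℓ i) (ℓ j) * (c i - c j) ^ 2 =
        ∑ i, ∑ j, max (ℓ i) (ℓ j) * (c i ^ 2 - c i * c j) +
        ∑ i, ∑ j, max (ℓ i) (ℓ j) * (c j ^ 2 - c i * c j) := by
      rw [← sum_add_distrib]
      refine sum_congr rfl fun i _ => ?_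
      rw [← sum_add_distrib]
      exact sum_congr rfl fun j _ => by ring
    rw [e1, e3, ← e2]
    ring
  have hsq : ∑ i, ∑ j, ℓ i * ℓ j * (c i - c j) ^ 2 = 2 * T * ∑ i, ℓ i * c i ^ 2 := by
    have e1 : ∑ i, ∑ j, ℓ i * ℓ j * (c i - c j) ^ 2 =
        (∑ i, ∑ j, ℓ j * (ℓ i * c i ^ 2)) + (∑ i, ∑ j, ℓ i * (ℓ j * c j ^ 2)) -
        2 * ∑ i, ∑ j, (ℓ i * c i) * (ℓ j * c j) := by
      rw [mul_sum, ← sum_add_distrib, ← sum_sub_distrib]
      refine sum_congr rfl fun i _ => ?_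
      rw [mul_sum, ← sum_add_distrib, ← sum_sub_distrib]
      exact sum_congr rfl fun j _ => by ring
    have e2 : ∑ i, ∑ j, (ℓ i * c i) * (ℓ j * c j) = 0 := by
      simp only [← mul_sum, h1, mul_zero, sum_const_zero]
    have e3 : ∑ i, ∑ j, ℓ j * (ℓ i * c i ^ 2) = T * ∑ i, ℓ i * c i ^ 2 := by
      rw [mul_sum]
      exact sum_congr rfl fun i _ => by rw [← sum_mul]
    have e4 : ∑ i, ∑ j, ℓ i * (ℓ j * c j ^ 2) = T * ∑ i, ℓ i * c i ^ 2 := by
      rw [sum_comm, ← e3]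
    rw [e1, e2, e3, e4]
    ring
  -- the error term
  obtain ⟨p, -, hp⟩ := exists_max_image univ c ⟨m, mem_univ m⟩
  obtain ⟨q, -, hq⟩ := exists_min_image univ c ⟨m, mem_univ m⟩
  set Δ : ℝ := c p - c q with hΔ
  have hΔ0 : 0 ≤ Δ := sub_nonneg.2 (hp q (mem_univ q))
  have hdiff : ∀ i j, |c i - c j| ≤ Δ := by
    intro i j
    rw [abs_le]
    have a1 := hp i (mem_univ i)
    have a2 := hp j (mem_univ j)
    have a3 := hq i (mem_univ i)
    have a4 := hq j (mem_univ j)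
    constructor <;> linarith
  have hcp : 0 ≤ c p := by
    by_contra hcon
    have : ∑ i, ℓ i * c i < 0 := by
      refine sum_neg' (fun i _ => mul_nonpos_of_nonneg_of_nonpos (hℓ i)
        ((hp i (mem_univ i)).trans (not_le.1 hcon).le)) ⟨m, mem_univ m, ?_⟩
      exact mul_neg_of_pos_of_neg hm0 ((hp m (mem_univ m)).trans_lt (not_le.1 hcon))
    exact this.ne h1
  have hcq : c q ≤ 0 := by
    by_contra hcon
    have : 0 < ∑ i, ℓ i * c i := by
      refine sum_pos' (fun i _ => mul_nonneg (hℓ i)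
        ((not_le.1 hcon).le.trans (hq i (mem_univ i)))) ⟨m, mem_univ m, ?_⟩
      exact mul_pos hm0 ((not_le.1 hcon).trans_le (hq m (mem_univ m)))
    exact this.ne' h1
  have hci : ∀ i, |c i| ≤ Δ := by
    intro i
    rw [abs_le]
    have a1 := hp i (mem_univ i)
    have a3 := hq i (mem_univ i)
    constructor <;> linarith
  have herr : |∑ i, ∑ j, (if i = j then 0 else (P i j - max (ℓ i) (ℓ j))) *
      (c i ^ 2 - c i * c j)| ≤ (k : ℝ) ^ 2 * (C0 * Δ ^ 2) := by
    refine (abs_sum_le_sum_abs _ _).trans ?_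
    have e1 : ∀ i, |∑ j, (if i = j then 0 else (P i j - max (ℓ i) (ℓ j))) *
      (c i ^ 2 - c i * c j)| ≤ k * (C0 * Δ ^ 2) := by
      intro i
      refine (abs_sum_le_sum_abs _ _).trans ?_
      calc ∑ j, |(if i = j then 0 else (P i j - max (ℓ i) (ℓ j))) * (c i ^ 2 - c i * c j)|
          ≤ ∑ _j : Fin k, C0 * Δ ^ 2 := by
            refine sum_le_sum fun j _ => ?_
            by_cases h : i = j
            · rw [if_pos h, zero_mul, abs_zero]; positivity
            · rw [if_neg h, abs_mul]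
              refine mul_le_mul (hP i j h) ?_ (abs_nonneg _) hC0
              have : c i ^ 2 - c i * c j = c i * (c i - c j) := by ring
              rw [this, abs_mul, pow_two]
              exact mul_le_mul (hci i) (hdiff i j) (abs_nonneg _) hΔ0
        _ = k * (C0 * Δ ^ 2) := by
            rw [sum_const, card_univ, Fintype.card_fin, nsmul_eq_mul]
    calc ∑ i, |∑ j, (if i = j then 0 else (P i j - max (ℓ i) (ℓ j))) * (c i ^ 2 - c i * c j)|
        ≤ ∑ _i : Fin k, k * (C0 * Δ ^ 2) := sum_le_sum fun i _ => e1 i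
      _ = (k : ℝ) ^ 2 * (C0 * Δ ^ 2) := by
          rw [sum_const, card_univ, Fintype.card_fin, nsmul_eq_mul]
          ring
  -- the main inequality
  have hsplit : ∑ i, ∑ j, (if i = j then 0 else P i j) * (c i ^ 2 - c i * c j) =
      ∑ i, ∑ j, (if i = j then 0 else max (ℓ i) (ℓ j)) * (c i ^ 2 - c i * c j) +
      ∑ i, ∑ j, (if i = j then 0 else (P i j - max (ℓ i) (ℓ j))) * (c i ^ 2 - c i * c j) := by
    rw [← sum_add_distrib]
    refine sum_congr rfl fun i _ => ?_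
    rw [← sum_add_distrib]
    refine sum_congr rfl fun j _ => ?_
    by_cases h : i = j
    · simp only [if_pos h]; ring
    · simp only [if_neg h]; ring
  have hmain : (1 / 4) * ∑ i, ∑ j, max (ℓ i) (ℓ j) * (c i - c j) ^ 2 ≤
      (1 / 2) * ∑ i, ∑ j, max (ℓ i) (ℓ j) * (c i - c j) ^ 2 - ∑ i, ℓ i * c i ^ 2 := by
    have e1 : ∑ i, ℓ i * c i ^ 2 = (1 / 2) * ∑ i, ∑ j, (ℓ i * ℓ j / T) * (c i - c j) ^ 2 := by
      have : ∑ i, ∑ j, (ℓ i * ℓ j / T) * (c i - c j) ^ 2 =
          (∑ i, ∑ j, ℓ i * ℓ j * (c i - c j) ^ 2) / T := by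
        rw [sum_div]
        refine sum_congr rfl fun i _ => ?_
        rw [sum_div]
        exact sum_congr rfl fun j _ => by ring
      rw [this, hsq]
      field_simp
    have e2 : ∑ i, ∑ j, (ℓ i * ℓ j / T) * (c i - c j) ^ 2 ≤
        (1 / 2) * ∑ i, ∑ j, max (ℓ i) (ℓ j) * (c i - c j) ^ 2 := by
      rw [mul_sum]
      refine sum_le_sum fun i _ => ?_
      rw [mul_sum]
      refine sum_le_sum fun j _ => ?_
      by_cases h : i = j
      · rw [h]; simp
      · rw [← mul_assoc]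
        refine mul_le_mul_of_nonneg_right ?_ (sq_nonneg _)
        rw [div_le_iff₀ hT0]
        have a1 := hTm i j h
        have a2 := hℓ i
        have a3 := hℓ j
        rcases le_total (ℓ i) (ℓ j) with h4 | h4
        · rw [max_eq_right h4]
          nlinarith
        · rw [max_eq_left h4]
          nlinarith
    rw [e1]
    linarith
  have hlow : ℓ m * Δ ^ 2 ≤ ∑ i, ∑ j, max (ℓ i) (ℓ j) * (c i - c j) ^ 2 := by
    have hnn : ∀ i j, 0 ≤ max (ℓ i) (ℓ j) * (c i - c j) ^ 2 := fun i j =>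
      mul_nonneg ((hℓ i).trans (le_max_left _ _)) (sq_nonneg _)
    have e1 : ∀ i, ℓ m * (c i - c m) ^ 2 ≤ ∑ j, max (ℓ i) (ℓ j) * (c i - c j) ^ 2 := by
      intro i
      refine le_trans ?_ (single_le_sum (fun j _ => hnn i j) (mem_univ m))
      exact mul_le_mul_of_nonneg_right (le_max_right _ _) (sq_nonneg _)
    have e2 : ∑ i, ℓ m * (c i - c m) ^ 2 ≤ ∑ j, max (ℓ m) (ℓ j) * (c m - c j) ^ 2 := by
      refine sum_le_sum fun j _ => ?_
      rw [show (c m - c j) ^ 2 = (c j - c m) ^ 2 by ring]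
      exact mul_le_mul_of_nonneg_right (le_max_left _ _) (sq_nonneg _)
    by_cases hpq : p = q
    · have : Δ = 0 := by rw [hΔ, hpq, sub_self]
      rw [this]
      simp only [ne_eq, OfNat.ofNat_ne_zero, not_false_eq_true, zero_pow, mul_zero]
      exact sum_nonneg fun i _ => sum_nonneg fun j _ => hnn i j
    have e3 : ℓ m * ((c p - c m) ^ 2 + (c q - c m) ^ 2) ≤ ∑ i, ℓ m * (c i - c m) ^ 2 := by
      rw [← add_sum_erase _ _ (mem_univ p), ← add_sum_erase _ _ (mem_erase.2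
        ⟨Ne.symm hpq, mem_univ q⟩)]
      have : 0 ≤ ∑ x ∈ (univ.erase p).erase q, ℓ m * (c x - c m) ^ 2 :=
        sum_nonneg fun x _ => mul_nonneg hm0.le (sq_nonneg _)
      linarith
    have e4 : Δ ^ 2 ≤ 2 * ((c p - c m) ^ 2 + (c q - c m) ^ 2) := by
      rw [hΔ]
      nlinarith [sq_nonneg (c p + c q - 2 * c m)]
    -- the rows and the column `m`
    have e5 : 2 * ∑ i, ℓ m * (c i - c m) ^ 2 ≤ ∑ i, ∑ j, max (ℓ i) (ℓ j) * (c i - c j) ^ 2 := by
      have f1 : ∑ i, ∑ j, max (ℓ i) (ℓ j) * (c i - c j) ^ 2 =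
          ∑ j, max (ℓ m) (ℓ j) * (c m - c j) ^ 2 +
          ∑ i ∈ univ.erase m, ∑ j, max (ℓ i) (ℓ j) * (c i - c j) ^ 2 :=
        (add_sum_erase _ _ (mem_univ m)).symm
      have f2 : ∑ i, ℓ m * (c i - c m) ^ 2 ≤
          ∑ i ∈ univ.erase m, ∑ j, max (ℓ i) (ℓ j) * (c i - c j) ^ 2 := by
        rw [← add_sum_erase _ _ (mem_univ m)]
        have : ℓ m * (c m - c m) ^ 2 = 0 := by rw [sub_self]; ring
        rw [this, zero_add]
        exact sum_le_sum fun i _ => e1 i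
      rw [f1]
      linarith
    nlinarith
  have hfin : ℓ m * Δ ^ 2 ≤ 4 * ((k : ℝ) ^ 2 * (C0 * Δ ^ 2)) := by
    have e1 := (abs_le.1 herr).1
    rw [hsplit, hmax] at hid
    linarith
  have hΔz : Δ = 0 := by
    by_contra hne
    have hpos : 0 < Δ ^ 2 := by positivity
    have : (ℓ m - 4 * C0 * (k : ℝ) ^ 2) * Δ ^ 2 ≤ 0 := by linarith
    have h3 : 0 < (ℓ m - 4 * C0 * (k : ℝ) ^ 2) * Δ ^ 2 := mul_pos (by linarith) hpos
    linarith
  intro i
  have := hci i
  rw [hΔz] at this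
  exact abs_eq_zero.1 (le_antisymm this (abs_nonneg _))

end Pool.Agent.H442
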