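import Pool.Agent.H442.Br
import Pool.Agent.H442.Quad
set_option autoImplicit false

/-!
The regulator integrals of the symbols `{z, X - α_i}` over the loops `|z| = R` in the branches of
the curve `z + 1/z = t + ∏ (X - α_i) / X`.
-/

namespace Pool.Agent.H442

open MeasureTheory Metric Set

open Pool.Agent.TH826.MK (circ norm_circ contDiff_circ circ_add_one)

open Pool.Agent.TH826.UH

open scoped Real

theorem exists_radius_tr {η : ℝ} (hη : 0 < η) :
    ∃ R : ℝ, 1 < R ∧ R + R⁻¹ < 2 + η ∧ Transcendental ℚ R := by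
  obtain ⟨R₀, h1, h2⟩ := exists_radius hη
  have hd : Dense {x : ℝ | IsAlgebraic ℚ x}ᶜ := (Algebraic.countable ℚ ℝ).dense_compl ℝ
  obtain ⟨R, hR, h3, h4⟩ := hd.exists_between h1
  refine ⟨R, h3, ?_, hR⟩
  have h5 : R + R⁻¹ < R₀ + R₀⁻¹ := by
    have h6 : (0 : ℝ) < R := by linarith
    have h7 : (0 : ℝ) < R₀ := by linarith
    have h8 : R₀ + R₀⁻¹ - (R + R⁻¹) = (R₀ - R) * (R * R₀ - 1) / (R * R₀) := by
      field_simp
      ring
    have h9 : 0 < (R₀ - R) * (R * R₀ - 1) / (R * R₀) := by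
      apply div_pos
      · apply mul_pos
        · linarith
        · nlinarith
      · positivity
    linarith
  linarith

/-- The numbers `t ∈ [-2, 2]` are of the form `ζ + 1/ζ` with `|ζ| = 1`. -/
theorem exists_zeta {t : ℤ} (ht : |t| ≤ 2) : ∃ ζ : ℂ, ‖ζ‖ = 1 ∧ (t : ℂ) = ζ + ζ⁻¹ := by
  rw [abs_le] at ht
  have h1 : (-1 : ℝ) ≤ t / 2 := by
    have : (-2 : ℝ) ≤ t := by exact_mod_cast ht.1
    linarith
  have h2 : (t / 2 : ℝ) ≤ 1 := by
    have : (t : ℝ) ≤ 2 := by exact_mod_cast ht.2
    linarith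
  refine ⟨Complex.exp (Real.arccos (t / 2) * Complex.I), Complex.norm_exp_ofReal_mul_I _, ?_⟩
  rw [← Complex.exp_neg]
  have h3 := Complex.two_cos (Real.arccos (t / 2) : ℂ)
  rw [← neg_mul, ← h3, ← Complex.ofReal_cos, Real.cos_arccos h1 h2]
  push_cast
  ring

/-- The integral for a function with values in a disc that does not contain the zero. -/
theorem pr_of_disc {R : ℝ} (hR : 1 < R) {X : ℝ → ℂ} (hX : ContDiff ℝ 2 X)
    (hper : ∀ s, X (s + 1) = X s) {c c' : ℂ} (hdisc : ∀ s, ‖X s - c‖ < ‖c - c'‖) :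
    pr (circ R) (fun s => X s - c') = -(2 * π * ∫ s in (0 : ℝ)..1, Real.log ‖X s - c'‖) := by
  have hR0 : 0 < R := one_pos.trans hR
  have hcc : c - c' ≠ 0 := by
    rw [← norm_pos_iff]
    exact (norm_nonneg _).trans_lt (hdisc 0)
  have hne : ∀ s, X s - c' ≠ 0 := by
    intro s h0
    have h1 : X s - c = -(c - c') := by linear_combination h0
    have h2 := hdisc s
    rw [h1, norm_neg] at h2
    exact lt_irrefl _ h2
  have nX : NZ fun s => X s - c' := ⟨hX.sub contDiff_const, hne⟩
  -- the winding number vanishes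
  set w : ℝ → ℂ := fun s => 1 + (X s - c) / (c - c') with hw
  have hws : ∀ s, w s ∈ Complex.slitPlane := by
    intro s
    refine Complex.mem_slitPlane_iff.2 (Or.inl ?_)
    have h1 : ‖(X s - c) / (c - c')‖ < 1 := by
      rw [norm_div, div_lt_one (norm_pos_iff.2 hcc)]
      exact hdisc s
    have h2 := Complex.abs_re_le_norm ((X s - c) / (c - c'))
    have h3 := (abs_le.1 h2).1
    rw [hw]
    simp only [Complex.add_re, Complex.one_re]
    linarith
  have hXd : ∀ s, HasDerivAt X (deriv X s) s := fun s =>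
    (hX.differentiable (by norm_num) s).hasDerivAt
  have hlog : ∀ s, HasDerivAt (fun s => Complex.log (w s))
      (deriv (fun s => X s - c') s / (X s - c')) s := by
    intro s
    have h1 : HasDerivAt w (deriv X s / (c - c')) s := by
      rw [hw]
      exact (((hXd s).sub_const c).div_const (c - c')).const_add 1
    have h2 := h1.clog_real (hws s)
    refine h2.congr_deriv ?_
    rw [((hXd s).sub_const c').deriv]
    have h3 : w s = (X s - c') / (c - c') := by
      rw [hw]
      simp only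
      field_simp
      ring
    rw [h3]
    have := hne s
    field_simp
  have hwind : ∫ s in (0 : ℝ)..1, (deriv (fun s => X s - c') s / (X s - c')) = 0 := by
    rw [intervalIntegral.integral_eq_sub_of_hasDerivAt (fun s _ => hlog s)
      (nX.cont_ld.intervalIntegrable _ _)]
    have h1 : X 1 = X 0 := by
      have := hper 0
      rwa [zero_add] at this
    simp only [hw, h1, sub_self]
  have hwim : ∫ s in (0 : ℝ)..1, (deriv (fun s => X s - c') s / (X s - c')).im = 0 := by
    have h1 := Complex.imCLM.intervalIntegral_comp_comm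
      (nX.cont_ld.intervalIntegrable (μ := volume) 0 1)
    rw [hwind, map_zero] at h1
    exact h1
  unfold pr
  simp only [ld_circ hR0, norm_circ hR0.le]
  have i1 : IntervalIntegrable (fun s => Real.log R *
      (deriv (fun s => X s - c') s / (X s - c')).im) volume 0 1 :=
    (continuous_const.mul nX.cont_im).intervalIntegrable _ _
  have i2 : IntervalIntegrable (fun s => Real.log ‖X s - c'‖ * (2 * π)) volume 0 1 :=
    (nX.cont_log.mul continuous_const).intervalIntegrable _ _
  rw [intervalIntegral.integral_sub i1 i2,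
    intervalIntegral.integral_const_mul, hwim, mul_zero, zero_sub,
    intervalIntegral.integral_mul_const, mul_comm]

theorem log_bounds {R : ℝ} (hR : 1 < R) {X : ℝ → ℂ} (hX : ContDiff ℝ 2 X)
    (hper : ∀ s, X (s + 1) = X s) {c c' : ℂ} (hdisc : ∀ s, ‖X s - c‖ < ‖c - c'‖) {M : ℝ}
    (hM : 0 < M) (h : ∀ s, M / 4 ≤ ‖X s - c'‖ ∧ ‖X s - c'‖ ≤ 4 * M) :
    |-(pr (circ R) (fun s => X s - c')) / (2 * π) - Real.log M| ≤ Real.log 4 := by
  have hπ := Real.pi_pos
  rw [pr_of_disc hR hX hper hdisc, neg_neg, mul_div_cancel_left₀ _ (by positivity)]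
  have hne : ∀ s, X s - c' ≠ 0 := by
    intro s h0
    have h1 := (h s).1
    rw [h0, norm_zero] at h1
    linarith
  have nX : NZ fun s => X s - c' := ⟨hX.sub contDiff_const, hne⟩
  have hup : ∫ s in (0 : ℝ)..1, Real.log ‖X s - c'‖ ≤ Real.log 4 + Real.log M := by
    have h1 : ∫ s in (0 : ℝ)..1, Real.log ‖X s - c'‖ ≤
        ∫ _s in (0 : ℝ)..1, (Real.log 4 + Real.log M) := by
      refine intervalIntegral.integral_mono_on zero_le_one
        (nX.cont_log.intervalIntegrable _ _) (continuous_const.intervalIntegrable _ _) ?_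
      intro s _
      rw [← Real.log_mul (by norm_num) hM.ne']
      exact Real.log_le_log (norm_pos_iff.2 (hne s)) (h s).2
    simpa using h1
  have hlo : Real.log M - Real.log 4 ≤ ∫ s in (0 : ℝ)..1, Real.log ‖X s - c'‖ := by
    have h1 : ∫ _s in (0 : ℝ)..1, (Real.log M - Real.log 4) ≤
        ∫ s in (0 : ℝ)..1, Real.log ‖X s - c'‖ := by
      refine intervalIntegral.integral_mono_on zero_le_one
        (continuous_const.intervalIntegrable _ _) (nX.cont_log.intervalIntegrable _ _) ?_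
      intro s _
      rw [← Real.log_div hM.ne' (by norm_num)]
      exact Real.log_le_log (by positivity) (h s).1
    simpa using h1
  rw [abs_le]
  constructor <;> linarith

/-- the loops in the curve `z + 1/z = t + ∏ (X - α_i) / X` -/
structure Lp {k : ℕ} (α : Fin k → ℂ) (t : ℤ) (R : ℝ) (X : Fin k → ℝ → ℂ) : Prop where
  R1 : 1 < R
  smooth : ∀ j, ContDiff ℝ 2 (X j)
  per : ∀ j s, X j (s + 1) = X j s
  ne0 : ∀ j s, X j s ≠ 0
  ne : ∀ i j s, X j s ≠ α i
  eq : ∀ j s, X j s * ((circ R s) ^ 2 + 1) = (t * X j s + ∏ i, (X j s - α i)) * circ R s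
  row : ∀ i, ∑ j, pr (circ R) (fun s => X j s - α i) = -(2 * π * Real.log ‖α i‖)
  off : ∀ i j, i ≠ j → |-(pr (circ R) (fun s => X j s - α i)) / (2 * π) -
    max (Real.log ‖α i‖) (Real.log ‖α j‖)| ≤ Real.log 4

theorem Sp.exists_Lp {k : ℕ} {α : Fin k → ℂ} (H : Sp α) {t : ℤ} (ht : |t| ≤ 2) :
    ∃ (R : ℝ) (X : Fin k → ℝ → ℂ), Transcendental ℚ R ∧ Lp α t R X := by
  have ht' : ‖(t : ℂ)‖ ≤ 2 := by
    rw [Complex.norm_intCast]
    exact_mod_cast ht
  obtain ⟨x, han, hdisc, hprod⟩ := H.exists_branches ht'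
  obtain ⟨R, hR, hRη, hRt⟩ := exists_radius_tr (η := 1 / 2) (by norm_num)
  have hR0 : 0 < R := one_pos.trans hR
  have hz := nz_circ hR0
  set u : ℝ → ℂ := fun s => circ R s + (circ R s)⁻¹ with hu
  have hucd : ContDiff ℝ 2 u := (contDiff_circ R).add ((contDiff_circ R).inv hz.ne_zero)
  have hub : ∀ s, u s ∈ ball (0 : ℂ) (5 / 2) := by
    intro s
    rw [mem_ball_zero_iff]
    refine (norm_add_le _ _).trans_lt ?_
    rw [norm_inv, norm_circ hR0.le]
    linarith
  have hper : ∀ s, u (s + 1) = u s := fun s => by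
    simp only [hu, circ_add_one]
  set Y : Fin k → ℝ → ℂ := fun j s => x j (u s) with hY
  have hYcd : ∀ j, ContDiff ℝ 2 (Y j) := by
    intro j
    rw [contDiff_iff_contDiffAt]
    intro s
    exact ((han j _ (hub s)).contDiffAt.restrict_scalars ℝ).comp s hucd.contDiffAt
  have hYper : ∀ j s, Y j (s + 1) = Y j s := fun j s => by
    simp only [hY, hper]
  have hYd : ∀ j s, ‖Y j s - α j‖ < ‖α j‖ / 5 := fun j s => hdisc j _ (hub s)
  have hval : ∀ j s, ∏ i, (Y j s - α i) - (u s - t) * Y j s = 0 := by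
    intro j s
    rw [eval_branches (hprod _ (hub s))]
    exact Finset.prod_eq_zero (Finset.mem_univ j) (sub_self _)
  obtain ⟨ζ, hζ, hζt⟩ := exists_zeta ht
  have hζ0 : ζ ≠ 0 := fun h0 => by rw [h0, norm_zero] at hζ; exact zero_ne_one hζ
  have hut : ∀ s, u s - t ≠ 0 := by
    intro s h0
    have h2 := hz.ne_zero s
    have h3 : (circ R s - ζ) * (circ R s - ζ⁻¹) = 0 := by
      have h4 : u s = circ R s + (circ R s)⁻¹ := rfl
      rw [h4, hζt] at h0
      have h5 : circ R s * (circ R s)⁻¹ = 1 := mul_inv_cancel₀ h2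
      have h6 : ζ * ζ⁻¹ = 1 := mul_inv_cancel₀ hζ0
      linear_combination (circ R s) * h0 - h5 + h6
    rcases mul_eq_zero.1 h3 with h4 | h4
    · have h5 := congrArg norm (sub_eq_zero.1 h4)
      rw [norm_circ hR0.le, hζ] at h5
      exact hR.ne' h5
    · have h5 := congrArg norm (sub_eq_zero.1 h4)
      rw [norm_circ hR0.le, norm_inv, hζ, inv_one] at h5
      exact hR.ne' h5
  have hY0 : ∀ j s, Y j s ≠ 0 := fun j s => H.ne_zero (hYd j s).le
  have hne : ∀ i j s, Y j s ≠ α i := by
    intro i j s h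
    have h1 := hval j s
    rw [Finset.prod_eq_zero (Finset.mem_univ i) (sub_eq_zero.2 h), zero_sub, neg_eq_zero] at h1
    rcases mul_eq_zero.1 h1 with h2 | h2
    · exact hut s h2
    · exact hY0 j s h2
  refine ⟨R, Y, hRt, hR, hYcd, hYper, hY0, hne, fun j s => ?_, fun i => ?_, fun i j hij => ?_⟩
  · have h2 : circ R s * (circ R s)⁻¹ = 1 := mul_inv_cancel₀ (hz.ne_zero s)
    have h4 : u s = circ R s + (circ R s)⁻¹ := rfl
    have h5 := hval j s
    rw [h4] at h5
    linear_combination (-circ R s) * h5 - Y j s * h2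
  · have hneg : ∀ j, pr (circ R) (fun s => Y j s - α i) = pr (circ R) (fun s => α i - Y j s) := by
      intro j
      rw [← pr_neg]
      congr 1
      funext s
      ring
    have nY : ∀ j, NZ fun s => α i - Y j s := fun j =>
      ⟨contDiff_const.sub (hYcd j), fun s => sub_ne_zero.2 (hne i j s).symm⟩
    simp only [hneg]
    rw [← pr_prod Finset.univ hz nY]
    have hc : NZ fun _ : ℝ => -α i := ⟨contDiff_const, fun _ => neg_ne_zero.2 (H.ne i)⟩
    have hut' : NZ fun s => u s - (ζ + ζ⁻¹) :=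
      ⟨hucd.sub contDiff_const, fun s => by rw [← hζt]; exact hut s⟩
    have e : (fun s => ∏ j, (α i - Y j s)) = fun s => (-α i) * (u s - (ζ + ζ⁻¹)) := by
      funext s
      have h1 := eval_branches (hprod _ (hub s)) (α i)
      have h2 : ∏ j, (α i - Y j s) = ∏ j, (α i - x j (u s)) := rfl
      rw [h2, ← h1, Finset.prod_eq_zero (Finset.mem_univ i) (sub_self _), hζt]
      ring
    rw [e, pr_mul hz hc hut', pr_const hR0, norm_neg]
    have h3 : pr (circ R) (fun s => u s - (ζ + ζ⁻¹)) = 0 := pr_circ hR hζ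
    rw [h3, add_zero]
  · have hmax : max (Real.log ‖α i‖) (Real.log ‖α j‖) = Real.log (max ‖α i‖ ‖α j‖) := by
      rcases le_total ‖α i‖ ‖α j‖ with h | h
      · rw [max_eq_right h, max_eq_right (Real.log_le_log (H.pos i) h)]
      · rw [max_eq_left h, max_eq_left (Real.log_le_log (H.pos j) h)]
    rw [hmax]
    refine log_bounds hR (hYcd j) (hYper j) (c := α j) (fun s => ?_)
      (lt_max_of_lt_left (H.pos i)) fun s => H.near i j _ hij (hYd j s).le
    refine (hYd j s).trans ?_
    have h1 := (H.near i j (α j) hij (by rw [sub_self, norm_zero]; have := H.pos j; linarith)).1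
    have h2 : ‖α j‖ ≤ max ‖α i‖ ‖α j‖ := le_max_right _ _
    have h3 := H.pos j
    linarith

/-- On the hyperplane `∑ c_i log |α_i| = 0` the regulator is injective. -/
theorem Lp.inj {k : ℕ} {α : Fin k → ℂ} {t : ℤ} {R : ℝ} {X : Fin k → ℝ → ℂ} (H : Lp α t R X)
    (h1 : ∀ i, 1 ≤ ‖α i‖) {m : Fin k} (hm : 4 * Real.log 4 * (k : ℝ) ^ 2 < Real.log ‖α m‖)
    {c : Fin k → ℝ} (hc : ∑ i, Real.log ‖α i‖ * c i = 0)
    (h : ∀ j, ∑ i, c i * pr (circ R) (fun s => X j s - α i) = 0) : ∀ i, c i = 0 := by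
  have hπ := Real.pi_pos
  refine quad_zero (ℓ := fun i => Real.log ‖α i‖)
    (P := fun i j => -(pr (circ R) (fun s => X j s - α i)) / (2 * π)) (C0 := Real.log 4)
    (fun i => Real.log_nonneg (h1 i)) (fun i => ?_) H.off hm (Real.log_nonneg (by norm_num))
    hc ?_
  · rw [← Finset.sum_div, Finset.sum_neg_distrib, H.row i, neg_neg]
    field_simp
  · refine Finset.sum_eq_zero fun j _ => ?_
    have e : ∑ i, c i * (-(pr (circ R) (fun s => X j s - α i)) / (2 * π)) =
        -(∑ i, c i * pr (circ R) (fun s => X j s - α i)) / (2 * π) := by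
      rw [← Finset.sum_neg_distrib, Finset.sum_div]
      exact Finset.sum_congr rfl fun i _ => by ring
    rw [e, h j]
    simp

end Pool.Agent.H442
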