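import Pool.Graph.R_pool_sql_team_seeded_620a6dc7.Helper537_Cos.Hor
set_option autoImplicit false

/-!
A quadratic extension `L = ℚ(x)(y)`, `y² = f(x)`: the involution `σ : y ↦ -y` acts by `-1` on the
classes of `K_2 ⊗ ℚ` which are unramified at the closed points.
-/

namespace Pool.Agent.H442

open scoped WithZero
open Polynomial
open Pool.Agent.TH826.MK (KQ symb unitPart Unramified)
open Pool.Agent.Helper537_Sym
open Pool.Agent.Helper537_All (pu pu_val pu_mul pu_pow pu_C ec e_ne e_eq_sum vc_le vX_le ve_le ve_one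
  ve_lt_iff RF ru ru_val residue_eq_zero exists_lg_res exists_detect swap_mem Md md_mem closure_mem
  md_mono tame_f1z)
open Pool.Agent.Helper537_Cos (HUnr unr_le_hor tame_hor md_hor f1_inf_hor)

/-- `L` is the function field of the curve `y² = f(x)`, `e` the embedding of the polynomials and
`σ` the involution. -/
structure Cv {L : Type*} [Field L] (e : ℚ[X] →+* L) (σ : L →+* L) (y : L) (f : ℚ[X]) : Prop where
  inj : Function.Injective e
  sq : y ^ 2 = e f
  form : ∀ l : L, ∃ P Q N : ℚ[X], N ≠ 0 ∧ l * e N = e P + e Q * y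
  se : ∀ P, σ (e P) = e P
  sy : σ y = -y

variable {L : Type*} [Field L] {e : ℚ[X] →+* L} {σ : L →+* L} {y : L} {f : ℚ[X]}

theorem Cv.sig_sig (H : Cv e σ y f) (l : L) : σ (σ l) = l := by
  obtain ⟨P, Q, N, hN, h⟩ := H.form l
  have h1 := congrArg (fun x => σ (σ x)) h
  simp only [map_mul, map_add, H.se, H.sy, map_neg, neg_neg] at h1
  rw [← h] at h1
  exact mul_right_cancel₀ (e_ne H.inj hN) h1

theorem Cv.eval (_ : Cv e σ y f) (P : ℚ[X]) : P.eval₂ (e.comp C) (e X) = e P := by
  rw [← hom_eval₂, eval₂_C_X]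

theorem Cv.exists_val_e (H : Cv e σ y f) (w : L)
    (hw : (∃ π : ℚ[X], π.Monic ∧ 0 < π.natDegree ∧ w = e π) ∨ w = (e X)⁻¹) :
    ∃ v : Valuation L ℤᵐ⁰, Function.Surjective v ∧
      (∀ q : ℚ, q ≠ 0 → v (ec e q) = 1) ∧ v w < 1 := by
  let _ : Algebra ℚ L := (ec e).toAlgebra
  have halg : algebraMap ℚ L = ec e := rfl
  have hinj := H.inj
  have htr : ∀ π : ℚ[X], 0 < π.natDegree → Transcendental ℚ (e π) := by
    intro π hπ h
    obtain ⟨p, hp, hp0⟩ := h
    have h1 : e (p.comp π) = 0 := by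
      rw [← H.eval, eval₂_comp, H.eval]
      exact hp0
    have h2 : p.comp π = 0 := hinj (by rw [h1, map_zero])
    rw [comp_eq_zero_iff] at h2
    rcases h2 with h2 | ⟨_, h2⟩
    · exact hp h2
    · rw [h2, natDegree_C] at hπ
      exact lt_irrefl _ hπ
  have hwt : Transcendental ℚ w := by
    rcases hw with ⟨π, _, hπ, rfl⟩ | rfl
    · exact htr π hπ
    · intro h
      have h2 := h.inv
      rw [inv_inv] at h2
      exact htr X (by rw [natDegree_X]; norm_num) h2
  set K := IntermediateField.adjoin ℚ {w} with hK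
  have hwK : w ∈ K := IntermediateField.mem_adjoin_simple_self ℚ w
  have hcomp : (algebraMap K L).comp (algebraMap ℚ K) = ec e := by
    rw [← IsScalarTower.algebraMap_eq]
    exact halg
  have hcI : ∀ q : ℚ, IsIntegral K (e.comp C q) := by
    intro q
    have h1 : (e.comp C) q = algebraMap K L (algebraMap ℚ K q) := by
      rw [← RingHom.comp_apply, hcomp]
    rw [h1]
    exact isIntegral_algebraMap
  have hxi : IsIntegral K (e X) := by
    rcases hw with ⟨π, hm, hπ, rfl⟩ | rfl
    · refine ⟨π.map (algebraMap ℚ K) - C ⟨_, hwK⟩, ?_, ?_⟩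
      · refine (hm.map _).sub_of_left ?_
        refine lt_of_le_of_lt degree_C_le ?_
        rw [degree_map, ← natDegree_pos_iff_degree_pos]
        exact hπ
      · rw [eval₂_sub, eval₂_C, eval₂_map, hcomp, H.eval]
        exact sub_self _
    · have h1 : e X ∈ K := by
        have h2 := inv_mem hwK
        rwa [inv_inv] at h2
      exact isIntegral_algebraMap (R := K) (A := L) (x := ⟨_, h1⟩)
  have hPi : ∀ P : ℚ[X], IsIntegral K (e P) := by
    intro P
    rw [← H.eval, eval₂_eq_sum_range]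
    refine IsIntegral.sum _ fun i _ => ?_
    exact IsIntegral.mul (hcI _) (hxi.pow i)
  have hyi : IsIntegral K y := by
    refine IsIntegral.of_pow (n := 2) (by norm_num) ?_
    rw [H.sq]
    exact hPi f
  have hfin : FiniteDimensional K L := by
    have h1 : FiniteDimensional K
        (IntermediateField.adjoin K ({e X, y} : Set L)) :=
      IntermediateField.finiteDimensional_adjoin fun u hu => by
        rcases hu with rfl | hu
        · exact hxi
        · rw [Set.mem_singleton_iff] at hu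
          rw [hu]
          exact hyi
    have htop : IntermediateField.adjoin K ({e X, y} : Set L) = ⊤ := by
      rw [eq_top_iff]
      intro l _
      have hx : e X ∈ IntermediateField.adjoin K ({e X, y} : Set L) :=
        IntermediateField.subset_adjoin K _ (Or.inl rfl)
      have hz : y ∈ IntermediateField.adjoin K ({e X, y} : Set L) :=
        IntermediateField.subset_adjoin K _ (Or.inr rfl)
      have hP : ∀ P : ℚ[X], e P ∈ IntermediateField.adjoin K ({e X, y} : Set L) := by
        intro P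
        have h1 := H.eval P
        rw [eval₂_eq_sum_range] at h1
        rw [← h1]
        refine _root_.sum_mem fun i _ => mul_mem ?_ (pow_mem hx i)
        have h2 : (e.comp C) (P.coeff i) = algebraMap K L (algebraMap ℚ K (P.coeff i)) := by
          rw [← RingHom.comp_apply, hcomp]
        rw [h2]
        exact IntermediateField.algebraMap_mem _ (algebraMap ℚ K (P.coeff i))
      obtain ⟨P, Q, N, hN, h⟩ := H.form l
      have h2 : l = (e P + e Q * y) / e N := by
        rw [eq_div_iff (e_ne H.inj hN), h]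
      rw [h2]
      exact div_mem (add_mem (hP _) (mul_mem (hP _) hz)) (hP _)
    rw [htop] at h1
    exact Module.Finite.equiv (IntermediateField.topEquiv (F := K) (E := L)).toLinearEquiv
  exact exists_val w hwt

theorem Cv.hval (H : Cv e σ y f) (π : ℚ[X]) (hm : π.Monic) (hi : Irreducible π) :
    ∃ v : Valuation L ℤᵐ⁰, Function.Surjective v ∧ (∀ q : ℚ, q ≠ 0 → v (ec e q) = 1) ∧
      v (e π) < 1 :=
  H.exists_val_e _ (Or.inl ⟨π, hm, hi.natDegree_pos, rfl⟩)

theorem Cv.map_pu (H : Cv e σ y f) {P : ℚ[X]} (hP : P ≠ 0) :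
    Units.map (σ : L →* L) (pu e P) = pu e P := by
  apply Units.ext
  show σ (pu e P : L) = _
  rw [pu_val H.inj hP, H.se]

theorem map_sy' (f : L →+* L) (u w : Lˣ) : KQ.map 2 f (Helper537_Sym.sy u w) =
    Helper537_Sym.sy (Units.map (f : L →* L) u) (Units.map (f : L →* L) w) := map_sy f u w

theorem Cv.nrm_form (H : Cv e σ y f) (u : Lˣ) : ∃ P R : ℚ[X], P ≠ 0 ∧ R ≠ 0 ∧
    u * Units.map (σ : L →* L) u = pu e P * (pu e R)⁻¹ := by
  obtain ⟨P, Q, N, hN, h⟩ := H.form (u : L)
  have h2 : σ (u : L) * e N = e P - e Q * y := by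
    have h3 := congrArg σ h
    rw [map_mul, map_add, map_mul, H.se, H.se, H.se, H.sy] at h3
    rw [h3]
    ring
  have h3 : ((u * Units.map (σ : L →* L) u : Lˣ) : L) * e (N ^ 2) = e (P ^ 2 - Q ^ 2 * f) := by
    have h4 : ((u * Units.map (σ : L →* L) u : Lˣ) : L) = u * σ (u : L) := rfl
    rw [h4]
    have h5 : (u : L) * σ u * e (N ^ 2) = (u * e N) * (σ u * e N) := by
      rw [map_pow]
      ring
    rw [h5, h, h2]
    simp only [map_sub, map_mul, map_pow, ← H.sq]
    ring
  have hN2 : N ^ 2 ≠ 0 := pow_ne_zero 2 hN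
  have hP : P ^ 2 - Q ^ 2 * f ≠ 0 := by
    intro h0
    rw [h0, map_zero] at h3
    exact mul_ne_zero (Units.ne_zero _) (e_ne H.inj hN2) h3
  refine ⟨_, _, hP, hN2, ?_⟩
  rw [eq_mul_inv_iff_mul_eq]
  apply Units.ext
  rw [Units.val_mul, pu_val H.inj hN2, pu_val H.inj hP, h3]

variable (e) in
/-- The symbols of polynomials. -/
noncomputable def Bs : Submodule ℚ (KQ L 2) :=
  Submodule.span ℚ {s | ∃ P Q : ℚ[X], P ≠ 0 ∧ Q ≠ 0 ∧ s = Helper537_Sym.sy (pu e P) (pu e Q)}

theorem md_mono' {d d' : ℕ} (h : d ≤ d') : Md e d ≤ Md e d' := by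
  unfold Md
  refine Submodule.span_mono ?_
  rintro _ ⟨P, Q, hP, hQ, hPd, hQd, rfl⟩
  exact ⟨P, Q, hP, hQ, hPd.trans_le h, hQd.trans_le h, rfl⟩

theorem bs_md {s : KQ L 2} (hs : s ∈ Bs e) : ∃ d, s ∈ Md e d := by
  unfold Bs at hs
  induction hs using Submodule.span_induction with
  | mem x hx =>
    obtain ⟨P, Q, hP, hQ, rfl⟩ := hx
    exact ⟨max P.natDegree Q.natDegree + 1, md_mem hP hQ
      (Nat.lt_succ_of_le (le_max_left _ _)) (Nat.lt_succ_of_le (le_max_right _ _))⟩
  | zero => exact ⟨0, Submodule.zero_mem _⟩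
  | add x y _ _ hx hy =>
    obtain ⟨d, hd⟩ := hx
    obtain ⟨d', hd'⟩ := hy
    exact ⟨max d d', Submodule.add_mem _ (md_mono' (le_max_left _ _) hd)
      (md_mono' (le_max_right _ _) hd')⟩
  | smul a x _ hx =>
    obtain ⟨d, hd⟩ := hx
    exact ⟨d, Submodule.smul_mem _ _ hd⟩

variable (e σ) in
/-- The classes `κ` with `κ + σ κ` in the space of the symbols of polynomials. -/
noncomputable def Mb : Submodule ℚ (KQ L 2) := (Bs e).comap (LinearMap.id + KQ.map 2 σ)

theorem mem_Mb {κ : KQ L 2} : κ ∈ Mb e σ ↔ κ + KQ.map 2 σ κ ∈ Bs e := Iff.rfl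

open Helper537_Sym (sy)

theorem Cv.sy_pu_mem (H : Cv e σ y f) {P : ℚ[X]} (hP : P ≠ 0) (u : Lˣ) :
    Helper537_Sym.sy (pu e P) u ∈ Mb e σ := by
  rw [mem_Mb, map_sy', H.map_pu hP, ← sy_mul_right]
  obtain ⟨A, B, hA, hB, h⟩ := H.nrm_form u
  rw [h, sy_mul_right, sy_inv_right]
  exact Submodule.add_mem _ (Submodule.subset_span ⟨P, A, hP, hA, rfl⟩)
    (Submodule.neg_mem _ (Submodule.subset_span ⟨P, B, hP, hB, rfl⟩))

theorem Cv.sy_pu_mem' (H : Cv e σ y f) {P : ℚ[X]} (hP : P ≠ 0) (u : Lˣ) :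
    Helper537_Sym.sy u (pu e P) ∈ Mb e σ :=
  swap_mem (H.sy_pu_mem hP u)

theorem Cv.sy_mem_Mb (H : Cv e σ y f) (a u : Lˣ) : Helper537_Sym.sy a u ∈ Mb e σ := by
  obtain ⟨P, Q, N, hN, h⟩ := H.form (a : L)
  obtain ⟨P', Q', N', hN', h'⟩ := H.form (u : L)
  set A : Lˣ := a * pu e N with hA
  set U : Lˣ := u * pu e N' with hU
  have hAv : (A : L) = e P + e Q * y := by
    rw [hA, Units.val_mul, pu_val H.inj hN, h]
  have hUv : (U : L) = e P' + e Q' * y := by
    rw [hU, Units.val_mul, pu_val H.inj hN', h']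
  clear_value A U
  have key : Helper537_Sym.sy A U ∈ Mb e σ := by
    by_cases hQ : Q = 0
    · have hP : P ≠ 0 := by
        rintro rfl
        rw [hQ, map_zero, zero_mul, add_zero] at hAv
        exact A.ne_zero hAv
      have : A = pu e P := by
        apply Units.ext
        rw [hAv, hQ, map_zero, zero_mul, add_zero, pu_val H.inj hP]
      rw [this]
      exact H.sy_pu_mem hP U
    by_cases hQ' : Q' = 0
    · have hP' : P' ≠ 0 := by
        rintro rfl
        rw [hQ', map_zero, zero_mul, add_zero] at hUv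
        exact U.ne_zero hUv
      have : U = pu e P' := by
        apply Units.ext
        rw [hUv, hQ', map_zero, zero_mul, add_zero, pu_val H.inj hP']
      rw [this]
      exact H.sy_pu_mem' hP' A
    by_cases hD : P * Q' - P' * Q = 0
    · have h1 : A * pu e Q' = U * pu e Q := by
        apply Units.ext
        rw [Units.val_mul, Units.val_mul, pu_val H.inj hQ, pu_val H.inj hQ', hAv, hUv]
        have h2 := congrArg e hD
        rw [map_sub, map_mul, map_mul, map_zero] at h2
        linear_combination h2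
      have h2 : A = U * pu e Q * (pu e Q')⁻¹ := by
        rw [← h1, mul_inv_cancel_right]
      rw [h2, sy_mul_left, sy_mul_left, sy_self, zero_add, sy_inv_left]
      exact Submodule.add_mem _ (H.sy_pu_mem hQ U) (Submodule.neg_mem _ (H.sy_pu_mem hQ' U))
    · set D : Lˣ := pu e (P * Q' - P' * Q) with hDdef
      have hDv : (D : L) = e P * e Q' - e P' * e Q := by
        rw [hDdef, pu_val H.inj hD, map_sub, map_mul, map_mul]
      have h1 : Helper537_Sym.sy (A * pu e Q' * D⁻¹) (-(U * pu e Q) * D⁻¹) = 0 := by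
        apply sy_steinberg
        rw [Units.val_mul (A * _), Units.val_mul (-(U * _)), ← add_mul,
          Units.val_inv_eq_inv_val, ← div_eq_mul_inv, div_eq_one_iff_eq D.ne_zero, Units.val_neg,
          Units.val_mul, Units.val_mul, pu_val H.inj hQ, pu_val H.inj hQ', hAv, hUv, hDv]
        ring
      rw [sy_mul_left, sy_mul_left, sy_mul_right A, sy_neg_right, sy_mul_right A] at h1
      have h2 : Helper537_Sym.sy A U = -(Helper537_Sym.sy A (pu e Q) + Helper537_Sym.sy A D⁻¹ +
          Helper537_Sym.sy (pu e Q') (-(U * pu e Q) * D⁻¹) +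
          Helper537_Sym.sy D⁻¹ (-(U * pu e Q) * D⁻¹)) := by
        rw [eq_neg_iff_add_eq_zero, ← h1]
        abel
      rw [h2]
      refine Submodule.neg_mem _ (Submodule.add_mem _ (Submodule.add_mem _
        (Submodule.add_mem _ (H.sy_pu_mem' hQ A) ?_) (H.sy_pu_mem hQ' _)) ?_)
      · rw [sy_inv_right]
        exact Submodule.neg_mem _ (H.sy_pu_mem' hD A)
      · rw [sy_inv_left]
        exact Submodule.neg_mem _ (H.sy_pu_mem hD _)
  rw [hA, hU, sy_mul_left, sy_mul_right, sy_mul_right] at key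
  have h1 : Helper537_Sym.sy a u = (Helper537_Sym.sy a u + Helper537_Sym.sy a (pu e N') +
      (Helper537_Sym.sy (pu e N) u + Helper537_Sym.sy (pu e N) (pu e N'))) -
      (Helper537_Sym.sy a (pu e N') + (Helper537_Sym.sy (pu e N) u +
      Helper537_Sym.sy (pu e N) (pu e N'))) := by abel
  rw [h1]
  exact Submodule.sub_mem _ key (Submodule.add_mem _ (H.sy_pu_mem' hN' a)
    (Submodule.add_mem _ (H.sy_pu_mem hN u) (H.sy_pu_mem hN _)))

theorem Cv.all_mem_Mb (H : Cv e σ y f) (κ : KQ L 2) : κ ∈ Mb e σ := by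
  obtain ⟨z, hz⟩ := Submodule.mkQ_surjective _ κ
  have key : ∀ z : (Fin 2 → Lˣ) →₀ ℚ, KQ.mkQ z ∈ Mb e σ := by
    intro z
    induction z using Finsupp.induction_linear with
    | zero => rw [map_zero]; exact Submodule.zero_mem _
    | add z w hz hw => rw [map_add]; exact Submodule.add_mem _ hz hw
    | single a q =>
      have e' : Finsupp.single a q = q • Finsupp.single a (1 : ℚ) := by simp
      rw [e', map_smul]
      refine Submodule.smul_mem _ _ ?_
      show symb a ∈ Mb e σ
      rw [eq_cons a]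
      exact H.sy_mem_Mb _ _
  have h4 : KQ.mkQ z = κ := hz
  rw [← h4]
  exact key z

theorem Cv.sig_hor (H : Cv e σ y f) {s : KQ L 2} (hs : s ∈ HUnr L) :
    KQ.map 2 σ s ∈ HUnr L := by
  unfold HUnr at hs ⊢
  rw [Submodule.mem_iInf]
  intro v
  rw [Submodule.mem_iInf]
  rintro ⟨hv, hn⟩
  have h1 : Function.Surjective (v.comap σ) := by
    intro a
    obtain ⟨b, hb⟩ := hv a
    refine ⟨σ b, ?_⟩
    rw [Valuation.comap_apply, H.sig_sig, hb]
  rw [Submodule.mem_iInf] at hs
  have h2 := hs (v.comap σ)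
  rw [Submodule.mem_iInf] at h2
  have h3 := h2 ⟨h1, fun n hn0 => by rw [Valuation.comap_apply, map_natCast]; exact hn n hn0⟩
  have h4 : unitPart (v.comap σ) 2 ≤ (unitPart v 2).comap (KQ.map 2 σ) := by
    conv_lhs => unfold unitPart
    rw [Submodule.span_le]
    rintro _ ⟨a, ha, rfl⟩
    show KQ.map 2 σ (symb a) ∈ unitPart v 2
    rw [KQ.map_symb]
    exact Submodule.subset_span ⟨fun i => Units.map (σ : L →* L) (a i), fun i => ha i, rfl⟩
  exact h4 h3

/-- The involution acts by `-1` on the classes which are unramified at the closed points. -/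
theorem Cv.hor_sig (H : Cv e σ y f) {κ : KQ L 2} (h : κ ∈ HUnr L) : KQ.map 2 σ κ = -κ := by
  have h1 := H.all_mem_Mb κ
  rw [mem_Mb] at h1
  have h2 : κ + KQ.map 2 σ κ ∈ HUnr L := Submodule.add_mem _ h (H.sig_hor h)
  obtain ⟨d, hd⟩ := bs_md h1
  have h3 := md_hor H.inj (fun π => H.hval π) d _ hd h2
  exact (neg_eq_of_add_eq_zero_right h3).symm

end Pool.Agent.H442
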