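import Pool.Agent.H442.Unr
set_option autoImplicit false

/-!
The classes `{z, lam^m ∏ (X - α_i)^{n_i}}` on the curves `z + 1/z = t + lam ∏ (X - α_i) / X`:
they are unramified at all discrete valuations if `∑ n_i = m (k - 1)` and
`lam^m ∏ α_i^{n_i}` is a root of unity.
-/

namespace Pool.Agent.H442

open scoped WithZero

open Pool.Agent.TH826.MK (KQ symb unitPart Unramified mem_unitPart_of_oneUnit'
  mem_unitPart_of_pow val_one_of_sub_one val_le_one_of_integral)

open Pool.Agent.Helper537_Sym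

variable {L : Type*} [Field L] {v : Valuation L ℤᵐ⁰} {k : ℕ}

/-- The equation `z + 1/z = t + lam ∏ (X - α_i) / X`. -/
structure EqL {L : Type*} [Field L] {k : ℕ} (t : ℤ) (lam : Lˣ) (α : Fin k → L) (X z : Lˣ) :
    Prop where
  eq : (X : L) * ((z : L) ^ 2 + 1) = (t * X + lam * ∏ i, ((X : L) - α i)) * z

theorem EqL.inv {t : ℤ} {lam : Lˣ} {α : Fin k → L} {X z : Lˣ} (h : EqL t lam α X z) :
    EqL t lam α X z⁻¹ := by
  refine ⟨?_⟩
  have hz : (z : L) ≠ 0 := z.ne_zero
  have h1 := h.eq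
  rw [Units.val_inv_eq_inv_val]
  field_simp
  linear_combination h1

theorem prod_zpow_gp {G : Type*} [CommGroup G] {k : ℕ} (x : G) (n : Fin k → ℤ) :
    ∏ i, x ^ n i = x ^ (∑ i, n i) := by
  classical
  refine Finset.induction_on (Finset.univ : Finset (Fin k)) (by simp) fun i s hi ih => ?_
  rw [Finset.prod_insert hi, Finset.sum_insert hi, ih, zpow_add]

theorem prod_zpow_gp₀ {G : Type*} [CommGroupWithZero G] {k : ℕ} {x : G} (hx : x ≠ 0)
    (n : Fin k → ℤ) : ∏ i, x ^ n i = x ^ (∑ i, n i) := by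
  classical
  refine Finset.induction_on (Finset.univ : Finset (Fin k)) (by simp) fun i s hi ih => ?_
  rw [Finset.prod_insert hi, Finset.sum_insert hi, ih, zpow_add₀ hx]

theorem one_sub_div {X : L} {a : L} (hX0 : X ≠ 0) (ha : v a ≤ 1) (hX : 1 < v X) :
    v ((X - a) / X - 1) < 1 := by
  have e : (X - a) / X - 1 = -(a / X) := by
    field_simp
    ring
  rw [e, Valuation.map_neg, map_div₀, div_lt_one₀ (zero_lt_one.trans hX)]
  exact ha.trans_lt hX

/-- `z / (lam X^{k-1})` is a one-unit -/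
theorem EqL.one_inf {t : ℤ} {lam : Lˣ} {α : Fin k → L} {X z : Lˣ} (hk : 2 ≤ k)
    (h : EqL t lam α X z) (hα : ∀ i, v (α i) ≤ 1) (hX : 1 < v (X : L))
    (hb : 1 < v ((lam * X ^ (k - 1) : Lˣ) : L)) (hz : 1 ≤ v (z : L)) :
    v (((z / (lam * X ^ (k - 1)) : Lˣ) : L) - 1) < 1 := by
  have hX0 : (X : L) ≠ 0 := X.ne_zero
  have hz0 : (z : L) ≠ 0 := z.ne_zero
  have hl0 : (lam : L) ≠ 0 := lam.ne_zero
  have hu : ∀ i, v (((X : L) - α i) / X - 1) < 1 := fun i => one_sub_div hX0 (hα i) hX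
  have h1 : v (∏ i, (((X : L) - α i) / X) - 1) < 1 := one_prod' v _ hu
  have hXk : (X : L) ^ (k - 1) * X = X ^ k := by
    rw [← pow_succ]
    congr 1
    omega
  have h2 : (∏ i, (((X : L) - α i) / X)) = (∏ i, ((X : L) - α i)) / (X : L) ^ k := by
    simp only [Finset.prod_div_distrib, Finset.prod_const, Finset.card_univ, Fintype.card_fin]
  have e : ((z / (lam * X ^ (k - 1)) : Lˣ) : L) - 1 = (∏ i, (((X : L) - α i) / X) - 1) +
      (t - (z : L)⁻¹) / ((lam * X ^ (k - 1) : Lˣ) : L) := by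
    rw [h2, Units.val_div_eq_div_val, Units.val_mul, Units.val_pow_eq_pow_val, ← hXk]
    have h3 := h.eq
    have h4 : (X : L) ^ (k - 1) ≠ 0 := pow_ne_zero _ hX0
    field_simp
    linear_combination h3
  rw [e]
  refine (v.map_add _ _).trans_lt (max_lt h1 ?_)
  rw [map_div₀, div_lt_one₀ (zero_lt_one.trans hb)]
  refine lt_of_le_of_lt ((v.map_sub _ _).trans (max_le (val_int_le v t) ?_)) hb
  rw [map_inv₀]
  exact inv_le_one_of_one_le₀ hz

/-- the points with a pole of `lam X^{k-1}` -/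
theorem EqL.mem_inf_aux {t : ℤ} {lam : Lˣ} {α : Fin k → L} {X z : Lˣ} (hk : 2 ≤ k)
    (h : EqL t lam α X z) (hα : ∀ i, v (α i) ≤ 1) (hX : 1 < v (X : L))
    (hb : 1 < v ((lam * X ^ (k - 1) : Lˣ) : L)) (hz : 1 ≤ v (z : L)) (w : Fin k → Lˣ)
    (hw : ∀ i, (w i : L) = X - α i) (n : Fin k → ℤ) (m : ℤ) (hm : ∑ i, n i = m * (k - 1 : ℕ)) :
    sy z (lam ^ m * ∏ i, w i ^ n i) ∈ unitPart v 2 := by
  have hX0 : (X : L) ≠ 0 := X.ne_zero
  set b : Lˣ := lam * X ^ (k - 1) with hbdef
  have hz1 := h.one_inf hk hα hX hb hz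
  have hu : ∀ i, v (((w i / X : Lˣ) : L) - 1) < 1 := by
    intro i
    rw [Units.val_div_eq_div_val, hw]
    exact one_sub_div hX0 (hα i) hX
  have hsum : ∏ i, X ^ n i = X ^ (∑ i, n i) := prod_zpow_gp X n
  have e1 : lam ^ m * ∏ i, w i ^ n i = b ^ m * ∏ i, (w i / X) ^ n i := by
    have h1 : ∏ i, (w i / X) ^ n i = (∏ i, w i ^ n i) / X ^ (∑ i, n i) := by
      rw [← hsum, ← Finset.prod_div_distrib]
      exact Finset.prod_congr rfl fun i _ => div_zpow _ _ _
    rw [h1, hm, hbdef, mul_zpow, ← zpow_natCast X (k - 1), ← zpow_mul, mul_comm ((k - 1 : ℕ) : ℤ) m]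
    rw [mul_assoc, mul_div_cancel]
  have e2 : z = (z / b) * b := by rw [div_mul_cancel]
  rw [e2, sy_mul_left]
  refine Submodule.add_mem _ (sy_mem_left v hz1) ?_
  rw [e1, sy_mul_right, sy_zpow_right, sy_self, smul_zero, zero_add]
  refine sy_mem_right v ?_
  rw [Units.coe_prod]
  refine one_prod' v _ fun i => ?_
  rw [Units.val_zpow_eq_zpow_val]
  exact one_zpow' v (hu i) (n i)

theorem EqL.mem_inf {t : ℤ} {lam : Lˣ} {α : Fin k → L} {X z : Lˣ} (hk : 2 ≤ k)
    (h : EqL t lam α X z) (hα : ∀ i, v (α i) ≤ 1) (hX : 1 < v (X : L))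
    (hb : 1 < v ((lam * X ^ (k - 1) : Lˣ) : L)) (w : Fin k → Lˣ)
    (hw : ∀ i, (w i : L) = X - α i) (n : Fin k → ℤ) (m : ℤ) (hm : ∑ i, n i = m * (k - 1 : ℕ)) :
    sy z (lam ^ m * ∏ i, w i ^ n i) ∈ unitPart v 2 := by
  rcases le_or_gt 1 (v (z : L)) with h1 | h1
  · exact h.mem_inf_aux hk hα hX hb h1 w hw n m hm
  · have h2 : 1 ≤ v ((z⁻¹ : Lˣ) : L) := by
      rw [Units.val_inv_eq_inv_val, map_inv₀]
      have h3 : 0 < v (z : L) := zero_lt_iff.2 ((Valuation.ne_zero_iff v).2 z.ne_zero)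
      exact (one_le_inv₀ h3).2 h1.le
    have h3 := h.inv.mem_inf_aux hk hα hX hb h2 w hw n m hm
    rw [sy_inv_left] at h3
    exact (Submodule.neg_mem_iff _).1 h3

/-- If `lam ∏ (X - α_i) / X` is integral, then `z` is a unit. -/
theorem EqL.val_z {t : ℤ} {lam : Lˣ} {α : Fin k → L} {X z : Lˣ} (h : EqL t lam α X z)
    (hA : v (lam * ∏ i, ((X : L) - α i)) ≤ v (X : L)) : v (z : L) = 1 := by
  have hX0 : (X : L) ≠ 0 := X.ne_zero
  have hz0 : (z : L) ≠ 0 := z.ne_zero
  have hvX : 0 < v (X : L) := zero_lt_iff.2 ((Valuation.ne_zero_iff v).2 hX0)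
  set q : L := t + (lam * ∏ i, ((X : L) - α i)) / X with hq
  have hq1 : v q ≤ 1 := by
    refine (v.map_add _ _).trans (max_le (val_int_le v t) ?_)
    rw [map_div₀]
    exact (div_le_one₀ hvX).2 hA
  have he : (z : L) ^ 2 + 1 = q * z := by
    have h1 := h.eq
    rw [hq]
    field_simp
    linear_combination h1
  rcases lt_trichotomy (v (z : L)) 1 with h1 | h1 | h1
  · exfalso
    have h2 : v ((z : L) ^ 2 + 1) = 1 := by
      rw [add_comm]
      refine Valuation.map_one_add_of_lt v ?_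
      rw [map_pow]
      exact pow_lt_one₀ zero_le h1 (by norm_num)
    rw [he, map_mul] at h2
    have h3 : v q * v (z : L) < 1 := by
      calc v q * v (z : L) ≤ 1 * v (z : L) := mul_le_mul_left hq1 _
        _ = v (z : L) := one_mul _
        _ < 1 := h1
    exact h3.ne h2
  · exact h1
  · exfalso
    have h2 : v ((z : L) ^ 2 + 1) = v (z : L) ^ 2 := by
      rw [← map_pow]
      refine Valuation.map_add_eq_of_lt_left v ?_
      rw [map_one, map_pow]
      exact one_lt_pow₀ h1 (by norm_num)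
    rw [he, map_mul, pow_two] at h2
    have h3 : v q = v (z : L) := mul_right_cancel₀ ((Valuation.ne_zero_iff v).2 hz0) h2
    rw [h3] at hq1
    exact absurd h1 (not_lt.2 hq1)

/-- If `lam ∏ (X - α_i) / X` is topologically nilpotent, then `z` is a root of unity modulo `v`. -/
theorem EqL.mem_tors {t : ℤ} (ht : |t| ≤ 2) {lam : Lˣ} {α : Fin k → L} {X z : Lˣ}
    (h : EqL t lam α X z) (hA : v (lam * ∏ i, ((X : L) - α i)) < v (X : L)) (w : Lˣ) :
    sy z w ∈ unitPart v 2 := by
  have hX0 : (X : L) ≠ 0 := X.ne_zero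
  have hz0 : (z : L) ≠ 0 := z.ne_zero
  have hvX : 0 < v (X : L) := zero_lt_iff.2 ((Valuation.ne_zero_iff v).2 hX0)
  have hz := h.val_z hA.le
  refine sy_mem_left_pow v (m := 12) (by norm_num) (pow12 v ht hz.le ?_)
  have e : (z : L) ^ 2 - t * z + 1 = (lam * ∏ i, ((X : L) - α i)) / X * z := by
    have h1 := h.eq
    field_simp
    linear_combination h1
  rw [e, map_mul, hz, mul_one, map_div₀]
  exact (div_lt_one₀ hvX).2 hA

/-- The classes `{z, lam^m ∏ (X - α_i)^{n_i}}` are unramified at `v`. -/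
theorem EqL.mem_unitPart {t : ℤ} (ht : |t| ≤ 2) {lam : Lˣ} {α : Fin k → L} {X z : Lˣ}
    (hk : 2 ≤ k) (h : EqL t lam α X z) (hα : ∀ i, v (α i) ≤ 1) (hα0 : ∀ i, α i ≠ 0)
    (hlam : v (lam : L) ≤ 1) (w : Fin k → Lˣ)
    (hw : ∀ i, (w i : L) = X - α i) (n : Fin k → ℤ) (m : ℤ) (hm : ∑ i, n i = m * (k - 1 : ℕ))
    {M : ℕ} (hM : M ≠ 0) (hn : ((lam : L) ^ m * ∏ i, α i ^ n i) ^ M = 1) :
    sy z (lam ^ m * ∏ i, w i ^ n i) ∈ unitPart v 2 := by
  classical
  have hX0 : (X : L) ≠ 0 := X.ne_zero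
  have hl0 : (lam : L) ≠ 0 := lam.ne_zero
  have hvX : 0 < v (X : L) := zero_lt_iff.2 ((Valuation.ne_zero_iff v).2 hX0)
  rcases lt_or_ge 1 (v (X : L)) with hX | hX
  · -- poles of `X`
    have hvA : v (lam * ∏ i, ((X : L) - α i)) =
        v ((lam * X ^ (k - 1) : Lˣ) : L) * v (X : L) := by
      have h1 : ∀ i, v ((X : L) - α i) = v (X : L) := fun i =>
        Valuation.map_sub_eq_of_lt_left v ((hα i).trans_lt hX)
      rw [map_mul, map_prod, Finset.prod_congr rfl fun i _ => h1 i, Finset.prod_const,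
        Finset.card_univ, Fintype.card_fin, Units.val_mul, Units.val_pow_eq_pow_val, map_mul,
        map_pow, mul_assoc, ← pow_succ]
      congr 2
      omega
    rcases lt_trichotomy (v ((lam * X ^ (k - 1) : Lˣ) : L)) 1 with hb | hb | hb
    · refine h.mem_tors ht ?_ _
      rw [hvA]
      calc v ((lam * X ^ (k - 1) : Lˣ) : L) * v (X : L) < 1 * v (X : L) :=
            mul_lt_mul_of_pos_right hb hvX
        _ = v (X : L) := one_mul _
    · have hz := h.val_z (v := v) (by rw [hvA, hb, one_mul])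
      refine sy_mem_units v hz ?_
      have h1 : ∀ i, v (w i : L) = v (X : L) := fun i => by
        rw [hw]
        exact Valuation.map_sub_eq_of_lt_left v ((hα i).trans_lt hX)
      have h2 : v (∏ i, w i ^ n i : Lˣ) = v (X : L) ^ (∑ i, n i) := by
        rw [Units.coe_prod, map_prod, ← prod_zpow_gp₀ hvX.ne']
        refine Finset.prod_congr rfl fun i _ => ?_
        rw [Units.val_zpow_eq_zpow_val, map_zpow₀, h1]
      have h3 : v ((lam ^ m * ∏ i, w i ^ n i : Lˣ) : L) =
          v ((lam * X ^ (k - 1) : Lˣ) : L) ^ m := by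
        rw [Units.val_mul, map_mul, h2, hm, Units.val_zpow_eq_zpow_val, map_zpow₀, Units.val_mul,
          map_mul, mul_zpow, Units.val_pow_eq_pow_val, map_pow, ← zpow_natCast (v (X : L)) (k - 1),
          ← zpow_mul, mul_comm m]
      rw [h3, hb, one_zpow]
    · exact h.mem_inf hk hα hX hb w hw n m hm
  have hle : ∀ i, v ((X : L) - α i) ≤ 1 := fun i => (v.map_sub _ _).trans (max_le hX (hα i))
  have hval : ∀ s : Finset (Fin k), v (∏ i ∈ s, ((X : L) - α i)) ≤ 1 := by
    intro s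
    rw [map_prod]
    exact Finset.prod_le_one' fun i _ => hle i
  rcases lt_trichotomy (v (lam * ∏ i, ((X : L) - α i))) (v (X : L)) with hA | hA | hA
  · exact h.mem_tors ht hA _
  all_goals
    by_cases hC : ∃ i, v (α i) ≤ v (X : L)
  · -- all the factors but one are units
    obtain ⟨i₀, hi₀⟩ := hC
    have hXi : v ((X : L) - α i₀) ≤ v (X : L) := (v.map_sub _ _).trans (max_le le_rfl hi₀)
    have hz := h.val_z hA.le
    have hle2 : ∀ j, v (lam : L) * v (∏ i ∈ Finset.univ.erase j, ((X : L) - α i)) ≤ 1 := fun j =>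
      mul_le_one' hlam (hval _)
    have h0 : v (lam : L) * v (∏ i ∈ Finset.univ.erase i₀, ((X : L) - α i)) = 1 := by
      refine le_antisymm (hle2 _) ?_
      by_contra hcon
      rw [← Finset.mul_prod_erase _ _ (Finset.mem_univ i₀), mul_left_comm, map_mul, map_mul] at hA
      have h2 : v ((X : L) - α i₀) * (v (lam : L) *
          v (∏ i ∈ Finset.univ.erase i₀, ((X : L) - α i))) < v (X : L) := by
        calc v ((X : L) - α i₀) * (v (lam : L) *
            v (∏ i ∈ Finset.univ.erase i₀, ((X : L) - α i)))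
            ≤ v (X : L) * (v (lam : L) * v (∏ i ∈ Finset.univ.erase i₀, ((X : L) - α i))) :=
              mul_le_mul_left hXi _
          _ < v (X : L) * 1 := mul_lt_mul_of_pos_left (not_le.1 hcon) hvX
          _ = v (X : L) := mul_one _
      exact h2.ne hA
    have hl1 : v (lam : L) = 1 := by
      refine le_antisymm hlam ?_
      by_contra hcon
      have h3 := mul_lt_one_of_lt_of_le (not_le.1 hcon) (hval (Finset.univ.erase i₀))
      exact h3.ne h0
    have h1 : v (∏ i ∈ Finset.univ.erase i₀, ((X : L) - α i)) = 1 := by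
      rwa [hl1, one_mul] at h0
    have h2 : ∀ i, i ≠ i₀ → v ((X : L) - α i) = 1 := by
      intro i hi
      refine le_antisymm (hle i) ?_
      by_contra hcon
      rw [← Finset.mul_prod_erase _ _ (Finset.mem_erase.2 ⟨hi, Finset.mem_univ i⟩),
        map_mul] at h1
      have h3 := mul_lt_one_of_lt_of_le (not_le.1 hcon)
        (hval ((Finset.univ.erase i₀).erase i))
      exact h3.ne h1
    have hunit : (∀ i, v ((X : L) - α i) = 1 ∨ n i = 0) →
        sy z (lam ^ m * ∏ i, w i ^ n i) ∈ unitPart v 2 := by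
      intro hi
      refine sy_mem_units v hz ?_
      rw [Units.val_mul, map_mul, Units.val_zpow_eq_zpow_val, map_zpow₀, hl1, one_zpow, one_mul,
        Units.coe_prod, map_prod]
      refine Finset.prod_eq_one fun i _ => ?_
      rw [Units.val_zpow_eq_zpow_val, map_zpow₀, hw]
      rcases hi i with h1 | h1
      · rw [h1, one_zpow]
      · rw [h1, zpow_zero]
    rcases hX.eq_or_lt with hX1 | hX1
    · -- `X` is a unit
      refine hunit fun i => Or.inl ?_
      by_cases hi : i = i₀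
      · rw [hi]
        rw [← Finset.mul_prod_erase _ _ (Finset.mem_univ i₀), map_mul, map_mul, hl1, one_mul, h1,
          mul_one, hX1] at hA
        exact hA
      · exact h2 i hi
    have h3 : ∀ i, i ≠ i₀ → v (α i) = 1 := by
      intro i hi
      refine le_antisymm (hα i) ?_
      by_contra hcon
      have h4 : v ((X : L) - α i) < 1 := (v.map_sub _ _).trans_lt (max_lt hX1
        (not_le.1 hcon))
      exact h4.ne (h2 i hi)
    have h4 : v (α i₀) ^ n i₀ = 1 := by
      have h5 := congrArg v hn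
      rw [map_pow, map_mul, map_zpow₀, hl1, one_zpow, one_mul, map_prod, map_one,
        ← Finset.mul_prod_erase _ _ (Finset.mem_univ i₀),
        Finset.prod_eq_one (s := Finset.univ.erase i₀), mul_one, map_zpow₀] at h5
      · rcases lt_trichotomy (v (α i₀) ^ n i₀) 1 with h6 | h6 | h6
        · exact absurd h5 (pow_lt_one₀ zero_le h6 hM).ne
        · exact h6
        · exact absurd h5 (one_lt_pow₀ h6 hM).ne'
      · intro i hi
        rw [map_zpow₀, h3 i (Finset.ne_of_mem_erase hi), one_zpow]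
    have h5 : n i₀ = 0 := by
      by_contra hne
      have h6 : 0 < v (α i₀) := zero_lt_iff.2 ((Valuation.ne_zero_iff v).2 (hα0 i₀))
      have h7 : v (α i₀) < 1 := hi₀.trans_lt hX1
      have h8 : (v (α i₀)) ^ (n i₀).natAbs = 1 := by
        rcases Int.natAbs_eq (n i₀) with h9 | h9
        · rw [h9, zpow_natCast] at h4
          exact h4
        · rw [h9, zpow_neg, zpow_natCast, inv_eq_one] at h4
          exact h4
      have h9 : (v (α i₀)) ^ (n i₀).natAbs < 1 :=
        pow_lt_one₀ h6.le h7 (Int.natAbs_ne_zero.2 hne)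
      exact h9.ne h8
    refine hunit fun i => ?_
    by_cases hi : i = i₀
    · right
      rw [hi]
      exact h5
    · exact Or.inl (h2 i hi)
  rotate_left
  · exfalso
    obtain ⟨i₀, hi₀⟩ := hC
    have hXi : v ((X : L) - α i₀) ≤ v (X : L) := (v.map_sub _ _).trans (max_le le_rfl hi₀)
    rw [← Finset.mul_prod_erase _ _ (Finset.mem_univ i₀), mul_left_comm, map_mul, map_mul] at hA
    have h2 : v ((X : L) - α i₀) * (v (lam : L) *
        v (∏ i ∈ Finset.univ.erase i₀, ((X : L) - α i))) ≤ v (X : L) := by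
      calc v ((X : L) - α i₀) * (v (lam : L) *
          v (∏ i ∈ Finset.univ.erase i₀, ((X : L) - α i))) ≤ v (X : L) * 1 :=
            mul_le_mul' hXi (mul_le_one' hlam (hval _))
        _ = v (X : L) := mul_one _
    exact absurd hA (not_lt.2 h2)
  all_goals
    -- `lam^m ∏ (X - α_i)^{n_i}` is a root of unity modulo `v`
    push Not at hC
    have hu : ∀ i, v (1 - (X : L) / α i - 1) < 1 := by
      intro i
      have e : 1 - (X : L) / α i - 1 = -((X : L) / α i) := by ring
      rw [e, Valuation.map_neg, map_div₀, div_lt_one₀ (zero_lt_iff.2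
        ((Valuation.ne_zero_iff v).2 (hα0 i)))]
      exact hC i
    refine sy_mem_right_pow v (m := M * 2) (mul_ne_zero hM two_ne_zero) ?_
    have e : (((lam ^ m * ∏ i, w i ^ n i : Lˣ) : L)) ^ (M * 2) =
        (∏ i, (1 - (X : L) / α i) ^ n i) ^ (M * 2) := by
      have h1 : ((lam ^ m * ∏ i, w i ^ n i : Lˣ) : L) = (∏ i, (-1 : L) ^ n i) *
          (((lam : L) ^ m * ∏ i, α i ^ n i) * ∏ i, (1 - (X : L) / α i) ^ n i) := by
        have h2 : ((∏ i, w i ^ n i : Lˣ) : L) = (∏ i, (-1 : L) ^ n i) * ((∏ i, α i ^ n i) *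
            ∏ i, (1 - (X : L) / α i) ^ n i) := by
          rw [Units.coe_prod, ← Finset.prod_mul_distrib, ← Finset.prod_mul_distrib]
          refine Finset.prod_congr rfl fun i _ => ?_
          rw [Units.val_zpow_eq_zpow_val, hw, ← mul_zpow, ← mul_zpow]
          congr 1
          have := hα0 i
          field_simp
          ring
        rw [Units.val_mul, h2, Units.val_zpow_eq_zpow_val]
        ring
      have h2 : ((∏ i, (-1 : L) ^ n i)) ^ 2 = 1 := by
        rw [← Finset.prod_pow]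
        refine Finset.prod_eq_one fun i _ => ?_
        rw [← zpow_natCast, ← zpow_mul, mul_comm, zpow_mul]
        norm_num
      rw [h1, mul_pow, mul_pow, mul_comm M 2, pow_mul, h2, one_pow, one_mul, mul_comm 2 M,
        pow_mul ((lam : L) ^ m * ∏ i, α i ^ n i), hn, one_pow, one_mul]
    rw [e, ← Finset.prod_pow]
    refine one_prod' v _ fun i => ?_
    have h1 := one_zpow' v (one_zpow' v (hu i) (n i)) ((M * 2 : ℕ) : ℤ)
    rwa [zpow_natCast] at h1

end Pool.Agent.H442
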