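import Pool.Agent.H442.Ex1
import Pool.Agent.H442.UnrL
import Pool.Graph.R_pool_sql_team_seeded_620a6dc7.Helper537_All.Final
set_option autoImplicit false

/-!
The curves `z + 1/z = t + lam ∏ (x - α_i) / x` over `ℚ`: the combinations of symbols `{z, P(x)}`
which are unramified at the closed points.
-/

namespace Pool.Agent.H442

open scoped WithZero
open Polynomial
open Pool.Agent.TH826.MK (KQ symb unitPart Unramified)
open Pool.Agent.Helper537_Sym
open Pool.Agent.Helper537_All (pu pu_val pu_mul pu_pow pu_C ec e_ne e_eq_sum vc_le vX_le ve_le ve_one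
  ve_lt_iff RF ru ru_val residue_eq_zero exists_lg_res exists_detect swap_mem Md md_mem closure_mem
  md_mono tame_f1z v_n0 n0 n0_dvd)
open Pool.Agent.Helper537_Cos (HUnr unr_le_hor tame_hor md_hor f1_inf_hor)

/-- The polynomial `t x + lam ∏ (x - α_i)`. -/
noncomputable def Gx {k : ℕ} (t : ℤ) (lam : ℚ) (α : Fin k → ℚ) : ℚ[X] :=
  C (t : ℚ) * X + C lam * ∏ i, (X - C (α i))

/-- The curve `z + 1/z = t + lam ∏ (x - α_i) / x`. -/
structure Cx {L : Type*} [Field L] (e : ℚ[X] →+* L) (σ : L →+* L) (y : L) (f : ℚ[X]) {k : ℕ}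
    (t : ℤ) (lam : ℚ) (α : Fin k → ℚ) (z : Lˣ) : Prop extends Cv e σ y f where
  two : 2 ≤ k
  ht : |t| ≤ 2
  l0 : lam ≠ 0
  a0 : ∀ i, α i ≠ 0
  zeq : e X * ((z : L) + ((z⁻¹ : Lˣ) : L)) = e (Gx t lam α)
  sz : Units.map (σ : L →* L) z = z⁻¹

variable {L : Type*} [Field L] {e : ℚ[X] →+* L} {σ : L →+* L} {y : L} {f : ℚ[X]} {k : ℕ} {t : ℤ}
  {lam : ℚ} {α : Fin k → ℚ} {z : Lˣ}

theorem natDegree_prodX (α : Fin k → ℚ) : (∏ i, (X - C (α i))).natDegree = k := by
  rw [natDegree_prod_of_monic _ _ fun _ _ => monic_X_sub_C _]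
  simp

theorem monic_prodX (α : Fin k → ℚ) : (∏ i, (X - C (α i))).Monic :=
  monic_prod_of_monic _ _ fun _ _ => monic_X_sub_C _

theorem natDegree_Gx (hk : 2 ≤ k) (hl : lam ≠ 0) (t : ℤ) (α : Fin k → ℚ) :
    (Gx t lam α).natDegree = k := by
  unfold Gx
  have h1 : (C lam * ∏ i, (X - C (α i))).natDegree = k := by
    rw [natDegree_C_mul hl, natDegree_prodX]
  have h2 : (C (t : ℚ) * X : ℚ[X]).natDegree ≤ 1 := by
    refine (natDegree_C_mul_le _ _).trans ?_
    rw [natDegree_X]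
  rw [natDegree_add_eq_right_of_natDegree_lt, h1]
  rw [h1]
  omega

theorem Gx_coeff_zero (t : ℤ) (lam : ℚ) (α : Fin k → ℚ) :
    (Gx t lam α).coeff 0 = lam * ∏ i, (-α i) := by
  rw [coeff_zero_eq_eval_zero]
  unfold Gx
  simp [eval_prod]

theorem not_X_dvd_Gx (hl : lam ≠ 0) (ha : ∀ i, α i ≠ 0) (t : ℤ) : ¬ X ∣ Gx t lam α := by
  rw [X_dvd_iff, Gx_coeff_zero]
  exact mul_ne_zero hl (Finset.prod_ne_zero_iff.2 fun i _ => neg_ne_zero.2 (ha i))

theorem not_X_dvd_sub {a : ℚ} (ha : a ≠ 0) : ¬ (X : ℚ[X]) ∣ X - C a := by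
  rw [X_dvd_iff]
  simpa using ha

/-- The equation in the form of `EqL`. -/
theorem Cx.eqn (H : Cx e σ y f t lam α z) :
    EqL t (pu e (C lam)) (fun i => e (C (α i))) (pu e X) z := by
  refine ⟨?_⟩
  have h1 := H.zeq
  unfold Gx at h1
  rw [pu_val H.inj X_ne_zero, pu_val H.inj (C_ne_zero.2 H.l0)]
  simp only [map_add, map_mul, map_prod, map_sub] at h1
  have h2 : e (C (t : ℚ)) = t := map_intCast (ec e) t
  rw [h2, Units.val_inv_eq_inv_val] at h1
  have hz := z.ne_zero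
  field_simp at h1
  linear_combination h1

theorem vz_one' {v : Valuation L ℤᵐ⁰} {z : Lˣ} (h : v ((z : L) + ((z⁻¹ : Lˣ) : L)) ≤ 1) :
    v (z : L) = 1 := by
  have h0 : v (z : L) ≠ 0 := v_ne v _
  have hi : v ((z⁻¹ : Lˣ) : L) = (v (z : L))⁻¹ := by
    rw [Units.val_inv_eq_inv_val, map_inv₀]
  rcases lt_trichotomy (v (z : L)) 1 with hz | hz | hz
  · exfalso
    have h2 : 1 < v ((z⁻¹ : Lˣ) : L) := by
      rw [hi]
      exact (one_lt_inv₀ (zero_lt_iff.2 h0)).2 hz
    rw [Valuation.map_add_eq_of_lt_right v (hz.trans h2)] at h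
    exact absurd h2 (not_lt.2 h)
  · exact hz
  · exfalso
    have h2 : v ((z⁻¹ : Lˣ) : L) < 1 := by
      rw [hi]
      exact inv_lt_one_of_one_lt₀ hz
    rw [Valuation.map_add_eq_of_lt_left v (h2.trans hz)] at h
    exact absurd hz (not_lt.2 h)

/-- Above a polynomial which does not divide `x` the function `z` is a unit. -/
theorem Cx.vz (H : Cx e σ y f t lam α z) {v : Valuation L ℤᵐ⁰}
    (hv : ∀ q : ℚ, q ≠ 0 → v (ec e q) = 1) {π : ℚ[X]} (hm : π.Monic) (hi : Irreducible π)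
    (hX : ¬ π ∣ X) (hπ : v (e π) < 1) : v (z : L) = 1 := by
  apply vz_one'
  have h1 := congrArg v H.zeq
  rw [map_mul, ve_one hv hm hi hπ hX, one_mul] at h1
  rw [h1]
  exact ve_le hv hm hπ _

theorem comap_surj (H : Cv e σ y f) {v : Valuation L ℤᵐ⁰} (hv : Function.Surjective v) :
    Function.Surjective (v.comap σ) := by
  intro a
  obtain ⟨b, hb⟩ := hv a
  refine ⟨σ b, ?_⟩
  rw [Valuation.comap_apply, H.sig_sig, hb]

/-- One of the two valuations has a pole of `z`. -/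
theorem Cx.pole (H : Cx e σ y f t lam α z) {v : Valuation L ℤᵐ⁰} (hs : Function.Surjective v)
    (hv : ∀ q : ℚ, q ≠ 0 → v (ec e q) = 1) (hz : v (z : L) ≠ 1) :
    ∃ v' : Valuation L ℤᵐ⁰, Function.Surjective v' ∧ (∀ q : ℚ, q ≠ 0 → v' (ec e q) = 1) ∧
      (∀ P, v' (e P) = v (e P)) ∧ 1 < v' (z : L) := by
  rcases lt_or_gt_of_ne hz with h | h
  · refine ⟨v.comap σ, comap_surj H.toCv hs, fun q hq => ?_, fun P => ?_, ?_⟩
    · rw [Valuation.comap_apply]
      have h1 : σ (ec e q) = ec e q := H.se (C q)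
      rw [h1, hv q hq]
    · rw [Valuation.comap_apply, H.se]
    · rw [Valuation.comap_apply]
      have h1 : σ (z : L) = ((z⁻¹ : Lˣ) : L) := by
        rw [← H.sz]
        rfl
      rw [h1, Units.val_inv_eq_inv_val, map_inv₀]
      exact (one_lt_inv₀ (zero_lt_iff.2 (v_ne v _))).2 h
  · exact ⟨v, hs, hv, fun _ => rfl, h⟩

theorem ve_pow' {v : Valuation L ℤᵐ⁰} (hv : ∀ q : ℚ, q ≠ 0 → v (ec e q) = 1)
    (hx : 1 < v (e X)) {P : ℚ[X]} (hP0 : P ≠ 0) : v (e P) = v (e X) ^ P.natDegree :=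
  Pool.Agent.Helper537_All.ve_pow hv hx hP0

/-- A point at infinity with a pole of `z`. -/
theorem Cx.exists_inf (H : Cx e σ y f t lam α z) :
    ∃ v : Valuation L ℤᵐ⁰, Function.Surjective v ∧ (∀ q : ℚ, q ≠ 0 → v (ec e q) = 1) ∧
      1 < v (e X) ∧ 1 < v (z : L) := by
  obtain ⟨v, hvs, hv, hvm⟩ := H.exists_val_e (e X)⁻¹ (Or.inr rfl)
  have hx0 : v (e X) ≠ 0 := (Valuation.ne_zero_iff v).2 (e_ne H.inj X_ne_zero)
  have hx : 1 < v (e X) := by
    rw [map_inv₀] at hvm
    exact (inv_lt_one₀ (zero_lt_iff.2 hx0)).1 hvm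
  have hd := natDegree_Gx H.two H.l0 t α
  have hG0 : Gx t lam α ≠ 0 := by
    intro h
    have := H.two
    rw [h, natDegree_zero] at hd
    omega
  have hz : v (z : L) ≠ 1 := by
    intro hz
    have h1 := congrArg v H.zeq
    rw [map_mul, ve_pow' hv hx hG0, hd] at h1
    have h2 : v ((z : L) + ((z⁻¹ : Lˣ) : L)) ≤ 1 := by
      refine (v.map_add _ _).trans (max_le hz.le ?_)
      rw [Units.val_inv_eq_inv_val, map_inv₀, hz, inv_one]
    have h3 : v (e X) ^ k ≤ v (e X) := by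
      rw [← h1]
      calc v (e X) * v ((z : L) + ((z⁻¹ : Lˣ) : L)) ≤ v (e X) * 1 := mul_le_mul_right h2 _
        _ = v (e X) := mul_one _
    have h4 : v (e X) ^ 1 < v (e X) ^ k := pow_lt_pow_right₀ hx H.two
    rw [pow_one] at h4
    exact absurd h4 (not_lt.2 h3)
  obtain ⟨v', h1, h2, h3, h4⟩ := H.pole hvs hv hz
  exact ⟨v', h1, h2, by rw [h3]; exact hx, h4⟩

/-- A point above `x = 0` with a pole of `z`. -/
theorem Cx.exists_zero (H : Cx e σ y f t lam α z) :
    ∃ v : Valuation L ℤᵐ⁰, Function.Surjective v ∧ (∀ q : ℚ, q ≠ 0 → v (ec e q) = 1) ∧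
      v (e X) < 1 ∧ 1 < v (z : L) := by
  obtain ⟨v, hvs, hv, hx⟩ := H.hval X monic_X irreducible_X
  have hG : v (e (Gx t lam α)) = 1 := ve_one hv monic_X irreducible_X hx
    (not_X_dvd_Gx H.l0 H.a0 t)
  have hz : v (z : L) ≠ 1 := by
    intro hz
    have h1 := congrArg v H.zeq
    rw [map_mul, hG] at h1
    have h2 : v ((z : L) + ((z⁻¹ : Lˣ) : L)) ≤ 1 := by
      refine (v.map_add _ _).trans (max_le hz.le ?_)
      rw [Units.val_inv_eq_inv_val, map_inv₀, hz, inv_one]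
    have h3 := mul_lt_one_of_lt_of_le hx h2
    exact h3.ne h1
  obtain ⟨v', h1, h2, h3, h4⟩ := H.pole hvs hv hz
  exact ⟨v', h1, h2, by rw [h3]; exact hx, h4⟩

/-! ### the polynomials -/

/-- The irreducible polynomials different from `x` with a point above them where `z` is not a root
of unity. -/
def TBd (e : ℚ[X] →+* L) (z : Lˣ) : Set ℚ[X] := {π | π.Monic ∧ Irreducible π ∧ ¬ π ∣ X ∧
  ∃ v : Valuation L ℤᵐ⁰, Function.Surjective v ∧ (∀ q : ℚ, q ≠ 0 → v (ec e q) = 1) ∧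
    v (e π) < 1 ∧ ∀ n : ℕ, v ((z : L) ^ n - 1) < 1 → n = 0}

/-- The symbols of `z` and such a polynomial. -/
noncomputable def Nbd (e : ℚ[X] →+* L) (z : Lˣ) : Submodule ℚ (KQ L 2) :=
  Submodule.span ℚ (Set.range fun π : TBd e z => sy z (pu e π.1))

/-- The symbols of `z` and a constant. -/
noncomputable def Fzd (e : ℚ[X] →+* L) (z : Lˣ) : Submodule ℚ (KQ L 2) :=
  F1 (ec e) (fun _ : Unit => z)

/-- The symbols of `z` and the `x - α_i`. -/
noncomputable def Wd (e : ℚ[X] →+* L) (z : Lˣ) (α : Fin k → ℚ) : Submodule ℚ (KQ L 2) :=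
  Submodule.span ℚ (Set.range fun i => sy z (pu e (X - C (α i))))

theorem fz_const (q : ℚˣ) : sy z (qc (ec e) q) ∈ Fzd e z :=
  sy_const_mem' (ec e) (fun _ : Unit => z) () q

theorem not_dvd_X {π : ℚ[X]} (hm : π.Monic) (hi : Irreducible π) (h : π ≠ X) : ¬ π ∣ X := by
  intro hd
  exact h (eq_of_monic_of_associated hm monic_X (hi.associated_of_dvd irreducible_X hd))

theorem Cx.alpha_not_tb (H : Cx e σ y f t lam α z) (i : Fin k) : X - C (α i) ∉ TBd e z := by
  rintro ⟨hm, hi, hX, v, hvs, hv, hπ, hn⟩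
  have hz := H.vz hv hm hi hX hπ
  have h1 := H.zeq
  have h2 : e X * ((z : L) + ((z⁻¹ : Lˣ) : L) - t) = e (C lam * ∏ i, (X - C (α i))) := by
    unfold Gx at h1
    rw [map_add, map_mul e (C (t : ℚ))] at h1
    have h3 : e (C (t : ℚ)) = t := map_intCast (ec e) t
    rw [h3] at h1
    linear_combination h1
  have h3 : v ((z : L) + (z : L)⁻¹ - t) < 1 := by
    have h4 := congrArg v h2
    rw [map_mul, ve_one hv hm hi hπ hX, one_mul, Units.val_inv_eq_inv_val] at h4
    rw [h4, ve_lt_iff hv hm hi hπ]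
    exact (Finset.dvd_prod_of_mem _ (Finset.mem_univ i)).mul_left _
  have h4 := hn _ (v_n0 H.ht hz h3)
  have h5 := n0_dvd t
  rw [h4] at h5
  norm_num at h5

theorem cx_sy_X (H : Cx e σ y f t lam α z) : sy z (pu e X) =
    sy z (qc (ec e) (Units.mk0 lam H.l0)) + ∑ i, sy z (pu e (X - C (α i))) := by
  set lu : Lˣ := qc (ec e) (Units.mk0 lam H.l0) with hlu
  have h1 : sy z (lu * (∏ m, pu e (X - C (α m))) * (pu e X)⁻¹ * z) = 0 := by
    refine sy_quad H.ht ?_
    rw [Units.val_mul, Units.val_mul, Units.val_mul, Units.coe_prod]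
    have h2 : ∏ m, ((pu e (X - C (α m)) : Lˣ) : L) = e (∏ m, (X - C (α m))) := by
      rw [map_prod]
      exact Finset.prod_congr rfl fun m _ => pu_val H.inj (X_sub_C_ne_zero _)
    have h3 : (lu : L) = e (C lam) := rfl
    have h5 := H.eqn.eq
    rw [pu_val H.inj (C_ne_zero.2 H.l0)] at h5
    have h6 : e (∏ m, (X - C (α m))) = ∏ i, (((pu e X : Lˣ) : L) - e (C (α i))) := by
      rw [map_prod, pu_val H.inj X_ne_zero]
      exact Finset.prod_congr rfl fun m _ => map_sub _ _ _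
    rw [h2, h3, h6, Units.val_inv_eq_inv_val]
    have h7 : ((pu e X : Lˣ) : L) ≠ 0 := Units.ne_zero _
    field_simp
    linear_combination -h5
  rw [sy_mul_right, sy_mul_right, sy_mul_right, sy_self, add_zero, sy_prod_right,
    sy_inv_right] at h1
  exact (eq_of_sub_eq_zero (by rw [sub_eq_add_neg]; exact h1)).symm

theorem zpoly_mem' (he : Function.Injective e) {M : Submodule ℚ (KQ L 2)} (hM : Fzd e z ≤ M)
    (n : ℕ) : ∀ P : ℚ[X], P ≠ 0 → P.natDegree = n → (∀ π : ℚ[X], π.Monic → Irreducible π →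
      π ∣ P → sy z (pu e π) ∈ M) → sy z (pu e P) ∈ M := by
  induction n using Nat.strong_induction_on with
  | _ n ih =>
    intro P hP hn h
    by_cases hu : IsUnit P
    · obtain ⟨c, hc, rfl⟩ := isUnit_iff.1 hu
      rw [pu_C he hc.ne_zero]
      exact hM (fz_const _)
    · obtain ⟨π, hm, hi, Q, rfl⟩ := exists_monic_irreducible_factor P hu
      have hQ : Q ≠ 0 := right_ne_zero_of_mul hP
      rw [pu_mul he hm.ne_zero hQ, sy_mul_right]
      refine Submodule.add_mem _ (h π hm hi (dvd_mul_right _ _)) ?_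
      refine ih Q.natDegree ?_ Q hQ rfl fun π' hm' hi' hd => h π' hm' hi' (hd.mul_left _)
      rw [natDegree_mul hm.ne_zero hQ] at hn
      have := hi.natDegree_pos
      omega

theorem Cx.exists_lg_tb (H : Cx e σ y f t lam α z) (π : TBd e z) :
    ∃ (v : Valuation L ℤᵐ⁰) (l : Lg L),
    Function.Surjective v ∧ (∀ q : ℚ, q ≠ 0 → v (ec e q) = 1) ∧
    ∃ _ : ∀ a : Lˣ, v ((a : L) - 1) < 1 → l.toFun a = 0,
    l.toFun z = 1 ∧ ord v z = 0 ∧
    ord v (pu e π.1) ≠ 0 ∧ ∀ π' : ℚ[X], π'.Monic → Irreducible π' → π' ≠ π.1 →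
      ord v (pu e π') = 0 := by
  obtain ⟨π, hm, hi, hX, v, hvs, hv, hvπ, hn⟩ := π
  have hz := H.vz hv hm hi hX hvπ
  obtain ⟨ψ, h1, h2⟩ := exists_detect (ru v z hz) (by
    intro n h
    apply hn
    have h3 := congrArg (fun u : (RF v)ˣ => (u : RF v)) h
    rw [Units.val_pow_eq_pow_val, Units.val_one, ru_val, ← map_pow,
      ← map_one (IsLocalRing.residue v.valuationSubring), ← sub_eq_zero, ← map_sub,
      residue_eq_zero] at h3
    exact h3)
  obtain ⟨l, h3, h4⟩ := exists_lg_res v ψ h1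
  refine ⟨v, l, hvs, hv, h3, ?_, ord_of_one hz, ?_, ?_⟩
  · rw [h4 _ hz, h2]
  · intro h5
    have h6 := ord_eq_zero h5
    rw [pu_val H.inj hm.ne_zero] at h6
    exact hvπ.ne h6
  · intro π' hm' hi' hne
    refine ord_of_one ?_
    rw [pu_val H.inj hm'.ne_zero]
    refine ve_one hv hm hi hvπ fun hd => hne ?_
    have h5 := hi.associated_of_dvd hi' hd
    exact (eq_of_monic_of_associated hm hm' h5).symm

/-- The coefficients at the polynomials of `TBd` vanish. -/
theorem Cx.kill (H : Cx e σ y f t lam α z) {s : KQ L 2}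
    (hs : s ∈ Fzd e z ⊔ (Nbd e z ⊔ Wd e z α)) (hu : s ∈ HUnr L) : s ∈ Fzd e z ⊔ Wd e z α := by
  obtain ⟨s₁, h3, s', h4, h5⟩ := Submodule.mem_sup.1 hs
  obtain ⟨s₂, h6, s₃, h7, h8⟩ := Submodule.mem_sup.1 h4
  obtain ⟨a, ha⟩ := Finsupp.mem_span_range_iff_exists_finsupp.1 h6
  have ha0 : a = 0 := by
    ext c
    obtain ⟨v, l, hv, hq, hl, hlz, hz, hc, hd⟩ := H.exists_lg_tb c
    have hW : tame v l hl s₃ = 0 := by
      have h10 : Wd e z α ≤ LinearMap.ker (tame v l hl) := by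
        unfold Wd
        rw [Submodule.span_le]
        rintro _ ⟨i, rfl⟩
        show tame v l hl _ = 0
        rw [tame_sy, hz, hd (X - C (α i)) (monic_X_sub_C _) (irreducible_X_sub_C _)]
        · simp
        · intro h9
          exact H.alpha_not_tb i (h9 ▸ c.2)
      exact h10 h7
    have e1 := tame_hor hv (ec e) hq l hl hu
    rw [← h5, ← h8, map_add, map_add,
      tame_f1z (fun q : ℚˣ => hq q q.ne_zero) l hl (fun _ => hz) h3,
      hW, zero_add, add_zero, ← ha, Finsupp.sum, map_sum] at e1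
    have e2 : ∀ d : TBd e z, tame v l hl (a d • sy z (pu e d.1)) =
        a d * ord v (pu e d.1) := by
      intro d
      rw [map_smul, tame_sy, hlz, hz]
      simp
    rw [Finset.sum_congr rfl fun d _ => e2 d] at e1
    by_cases hcs : c ∈ a.support
    · rw [Finset.sum_eq_single_of_mem c hcs] at e1
      · exact (mul_eq_zero.1 e1).resolve_right (Int.cast_ne_zero.2 hc)
      · intro d _ hdc
        rw [hd d.1 d.2.1 d.2.2.1 (fun h => hdc (Subtype.ext h)), Int.cast_zero, mul_zero]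
    · exact Finsupp.notMem_support_iff.1 hcs
  have hs2 : s₂ = 0 := by rw [← ha, ha0, Finsupp.sum_zero_index]
  rw [hs2, zero_add] at h8
  rw [← h5, ← h8]
  exact Submodule.add_mem_sup h3 h7

/-- A combination of symbols of `z` and constants vanishes if its tame symbols vanish at a point
where `z` has a zero or a pole. -/
theorem fz_zero {v : Valuation L ℤᵐ⁰} (hv : ∀ q : ℚ, q ≠ 0 → v (ec e q) = 1)
    (ho : ord v z ≠ 0) {s : KQ L 2} (hs : s ∈ Fzd e z)
    (h : ∀ (p : Nat.Primes) (l : Lg L) (hl : ∀ a : Lˣ, v ((a : L) - 1) < 1 → l.toFun a = 0),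
      (∀ q : ℚˣ, l.toFun (qc (ec e) q) = chi p q) → tame v l hl s = 0) : s = 0 := by
  obtain ⟨c, rfl⟩ := hs
  have h2 : c = 0 := by
    refine Finsupp.ext fun j => Finsupp.ext fun p => ?_
    obtain ⟨l, hl, hlq⟩ := exists_lg v (ec e) (fun q => hv q q.ne_zero) (chi p) (chi_mul p)
    have h3 := h p l hl hlq
    rw [tame_theta (ec e) (fun _ : Unit => z) c v (fun q => hv q q.ne_zero) l hl p hlq] at h3
    have h4 : (c.sum fun _ cj => cj p * (ord v z : ℚ)) = c j p * ord v z := by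
      by_cases hj : j ∈ c.support
      · rw [Finsupp.sum, Finset.sum_eq_single_of_mem j hj (fun i _ hi => absurd rfl hi)]
      · rw [Finsupp.sum, Finset.sum_eq_zero, Finsupp.notMem_support_iff.1 hj, Finsupp.zero_apply,
          zero_mul]
        intro i hi
        exact absurd hi hj
    rw [h4] at h3
    exact (mul_eq_zero.1 h3).resolve_right (Int.cast_ne_zero.2 ho)
  rw [h2, map_zero]

/-- The class `∑ n_i ({z, x - α_i} + {z, lam} / (k - 1))`. -/
noncomputable def cls (e : ℚ[X] →+* L) (z : Lˣ) (lam : ℚ) (α : Fin k → ℚ) (n : Fin k → ℚ) :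
    KQ L 2 :=
  ∑ i, n i • (sy z (pu e (X - C (α i))) + ((k - 1 : ℕ) : ℚ)⁻¹ • sy z (pu e (C lam)))

/-- The relations. -/
def RelP (lam : ℚ) (α : Fin k → ℚ) (n : Fin k → ℚ) : Prop :=
  ∀ p : Nat.Primes, ∑ i, n i * ((k - 1 : ℕ) * padicValRat p (α i) + padicValRat p lam : ℚ) = 0

theorem ord_pu {v : Valuation L ℤᵐ⁰} (he : Function.Injective e) {P : ℚ[X]} (hP : P ≠ 0) :
    ord v (pu e P) = WithZero.log (v (e P)) := by
  unfold ord
  rw [pu_val he hP]

theorem lg_eq_of_one (l : Lg L) {v : Valuation L ℤᵐ⁰}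
    (hl : ∀ a : Lˣ, v ((a : L) - 1) < 1 → l.toFun a = 0) {a b : Lˣ}
    (h : v (((a / b : Lˣ) : L) - 1) < 1) : l.toFun a = l.toFun b := by
  have h1 : a = (a / b) * b := by rw [div_mul_cancel]
  rw [h1, l.map_mul', hl _ h, zero_add]

theorem lg_one (l : Lg L) : l.toFun 1 = 0 := by
  have := l.map_mul' 1 1
  rw [one_mul] at this
  linarith

theorem lg_pow (l : Lg L) (a : Lˣ) (n : ℕ) : l.toFun (a ^ n) = n * l.toFun a := by
  induction n with
  | zero => rw [pow_zero, lg_one, Nat.cast_zero, zero_mul]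
  | succ n ih => rw [pow_succ, l.map_mul', ih]; push_cast; ring

theorem ord_pow' (v : Valuation L ℤᵐ⁰) (a : Lˣ) (n : ℕ) : ord v (a ^ n) = n * ord v a := by
  induction n with
  | zero => rw [pow_zero, Nat.cast_zero, zero_mul]; exact ord_of_one (by simp)
  | succ n ih => rw [pow_succ, ord_mul, ih]; push_cast; ring

/-- The combinations of the symbols which are unramified at the closed points. -/
theorem Cx.z_part (H : Cx e σ y f t lam α z) {s : KQ L 2}
    (hs : s ∈ Fzd e z ⊔ (Nbd e z ⊔ Wd e z α)) (hu : s ∈ HUnr L) :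
    ∃ n : Fin k → ℚ, s = cls e z lam α n ∧ RelP lam α n := by
  have hk := H.two
  have hk1 : ((k - 1 : ℕ) : ℚ) ≠ 0 := Nat.cast_ne_zero.2 (by omega)
  obtain ⟨s₁, h1, s₂, h2, h3⟩ := Submodule.mem_sup.1 (H.kill hs hu)
  obtain ⟨n, hn⟩ := (Submodule.mem_span_range_iff_exists_fun ℚ).1 h2
  have hlpu : pu e (C lam) = qc (ec e) (Units.mk0 lam H.l0) := pu_C H.inj H.l0
  -- the points at infinity
  have key : s = cls e z lam α n := by
    obtain ⟨v, hvs, hv, hx, hz⟩ := H.exists_inf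
    have hb : 1 < v ((pu e (C lam) * pu e X ^ (k - 1) : Lˣ) : L) := by
      rw [Units.val_mul, Units.val_pow_eq_pow_val, pu_val H.inj (C_ne_zero.2 H.l0),
        pu_val H.inj X_ne_zero, map_mul, map_pow, show v (e (C lam)) = 1 from hv _ H.l0, one_mul]
      exact one_lt_pow₀ hx (by omega)
    have hX1 : 1 < v ((pu e X : Lˣ) : L) := by rw [pu_val H.inj X_ne_zero]; exact hx
    have hz1 := H.eqn.one_inf (v := v) hk (fun i => vc_le hv (α i)) hX1 hb hz.le
    have hw1 : ∀ i, v (((pu e (X - C (α i)) / pu e X : Lˣ) : L) - 1) < 1 := by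
      intro i
      rw [Units.val_div_eq_div_val, pu_val H.inj (X_sub_C_ne_zero _), map_sub e,
        pu_val H.inj X_ne_zero]
      exact one_sub_div (e_ne H.inj X_ne_zero) (vc_le hv (α i)) hx
    have hox : ord v (pu e X) ≠ 0 := fun h => hX1.ne' (ord_eq_zero h)
    have hozx : ord v z = (k - 1 : ℕ) * ord v (pu e X) := by
      have h4 : z = (z / (pu e (C lam) * pu e X ^ (k - 1))) *
          (pu e (C lam) * pu e X ^ (k - 1)) := by rw [div_mul_cancel]
      have h5 : ord v (z / (pu e (C lam) * pu e X ^ (k - 1))) = 0 :=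
        ord_of_one (Pool.Agent.TH826.MK.val_one_of_sub_one hz1)
      have h6 : ord v (pu e (C lam)) = 0 := ord_of_one (by
        rw [pu_val H.inj (C_ne_zero.2 H.l0)]
        exact hv _ H.l0)
      conv_lhs => rw [h4]
      rw [ord_mul, ord_mul, h5, h6, ord_pow', zero_add, zero_add]
    have how : ∀ i, ord v (pu e (X - C (α i))) = ord v (pu e X) := by
      intro i
      have h4 : pu e (X - C (α i)) = (pu e (X - C (α i)) / pu e X) * pu e X := by
        rw [div_mul_cancel]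
      rw [h4, ord_mul, ord_of_one (Pool.Agent.TH826.MK.val_one_of_sub_one (hw1 i)), zero_add]
    have hoz : ord v z ≠ 0 := by
      rw [hozx]
      refine mul_ne_zero ?_ hox
      exact_mod_cast (by omega : k - 1 ≠ 0)
    have hdiff : s - cls e z lam α n ∈ Fzd e z := by
      have h4 : s - cls e z lam α n = s₁ - (∑ i, n i * ((k - 1 : ℕ) : ℚ)⁻¹) •
          sy z (pu e (C lam)) := by
        rw [← h3, ← hn]
        unfold cls
        simp only [smul_add, Finset.sum_add_distrib, smul_smul, Finset.sum_smul]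
        abel
      rw [h4, hlpu]
      exact Submodule.sub_mem _ h1 (Submodule.smul_mem _ _ (fz_const _))
    have h5 : s - cls e z lam α n = 0 := by
      refine fz_zero hv hoz hdiff fun p l hl hlq => ?_
      have hlz : l.toFun z = l.toFun (pu e (C lam)) + (k - 1 : ℕ) * l.toFun (pu e X) := by
        rw [lg_eq_of_one l hl hz1, l.map_mul', lg_pow]
      have hlw : ∀ i, l.toFun (pu e (X - C (α i))) = l.toFun (pu e X) := fun i =>
        lg_eq_of_one l hl (hw1 i)
      have h6 : ord v (pu e (C lam)) = 0 := ord_of_one (by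
        rw [pu_val H.inj (C_ne_zero.2 H.l0)]
        exact hv _ H.l0)
      rw [map_sub, tame_hor hvs (ec e) hv l hl hu, zero_sub, neg_eq_zero]
      unfold cls
      rw [map_sum]
      refine Finset.sum_eq_zero fun i _ => ?_
      rw [map_smul, map_add, map_smul, tame_sy, tame_sy, how, hlw, hlz, h6, hozx]
      simp only [smul_eq_mul]
      push_cast
      field_simp
      ring
    exact sub_eq_zero.1 h5
  refine ⟨n, key, fun p => ?_⟩
  obtain ⟨v, hvs, hv, hx, hz⟩ := H.exists_zero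
  have : Fact (Nat.Prime (p : ℕ)) := ⟨p.2⟩
  obtain ⟨l, hl, hlq⟩ := exists_lg v (ec e) (fun q => hv q q.ne_zero) (chi p) (chi_mul p)
  have hlc : ∀ {q : ℚ}, q ≠ 0 → l.toFun (pu e (C q)) = padicValRat p q := by
    intro q hq
    rw [pu_C H.inj hq, hlq]
    rfl
  have hoc : ∀ {q : ℚ}, q ≠ 0 → ord v (pu e (C q)) = 0 := by
    intro q hq
    refine ord_of_one ?_
    rw [pu_val H.inj (C_ne_zero.2 hq)]
    exact hv _ hq
  have hw1 : ∀ i, v (((pu e (X - C (α i)) / -pu e (C (α i)) : Lˣ) : L) - 1) < 1 := by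
    intro i
    have h4 : e (C (α i)) ≠ 0 := e_ne H.inj (C_ne_zero.2 (H.a0 i))
    have e1 : ((pu e (X - C (α i)) / -pu e (C (α i)) : Lˣ) : L) - 1 = -(e X / e (C (α i))) := by
      rw [Units.val_div_eq_div_val, pu_val H.inj (X_sub_C_ne_zero _), Units.val_neg,
        pu_val H.inj (C_ne_zero.2 (H.a0 i)), map_sub e]
      field_simp
      ring
    rw [e1, Valuation.map_neg, map_div₀, show v (e (C (α i))) = 1 from hv _ (H.a0 i), div_one]
    exact hx
  have hlw : ∀ i, l.toFun (pu e (X - C (α i))) = padicValRat p (α i) := by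
    intro i
    rw [lg_eq_of_one l hl (hw1 i), ← neg_one_mul, l.map_mul', l.neg_one, zero_add, hlc (H.a0 i)]
  have how : ∀ i, ord v (pu e (X - C (α i))) = 0 := by
    intro i
    have h4 : pu e (X - C (α i)) = (pu e (X - C (α i)) / -pu e (C (α i))) *
        -pu e (C (α i)) := by rw [div_mul_cancel]
    rw [h4, ord_mul, ord_of_one (Pool.Agent.TH826.MK.val_one_of_sub_one (hw1 i)), zero_add]
    refine ord_of_one ?_
    rw [Units.val_neg, Valuation.map_neg, pu_val H.inj (C_ne_zero.2 (H.a0 i))]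
    exact hv _ (H.a0 i)
  have hoz : (ord v z : ℚ) ≠ 0 := by
    intro h
    exact hz.ne' (ord_eq_zero (by exact_mod_cast h))
  have h6 := tame_hor hvs (ec e) hv l hl hu
  rw [key] at h6
  unfold cls at h6
  rw [map_sum] at h6
  have h7 : ∀ i, tame v l hl (n i • (sy z (pu e (X - C (α i))) +
      ((k - 1 : ℕ) : ℚ)⁻¹ • sy z (pu e (C lam)))) = -(ord v z : ℚ) * ((k - 1 : ℕ) : ℚ)⁻¹ *
      (n i * ((k - 1 : ℕ) * padicValRat p (α i) + padicValRat p lam : ℚ)) := by
    intro i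
    rw [map_smul, map_add, map_smul, tame_sy, tame_sy, how, hlw, hlc H.l0, hoc H.l0]
    simp only [smul_eq_mul]
    push_cast
    field_simp
    ring
  rw [Finset.sum_congr rfl fun i _ => h7 i, ← Finset.mul_sum] at h6
  exact (mul_eq_zero.1 h6).resolve_left (mul_ne_zero (neg_ne_zero.2 hoz) (inv_ne_zero hk1))

end Pool.Agent.H442
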