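import Pool.Agent.H442.Ex2
set_option autoImplicit false

/-!
All classes of the form `∑ {z, u} + (invariant class)` which are unramified at the closed points of
the curve `z + 1/z = t + lam ∏ (x - α_i) / x` over `ℚ`.
-/

namespace Pool.Agent.H442

open scoped WithZero
open Polynomial IntermediateField
open Pool.Agent.TH826.MK (KQ symb unitPart Unramified)
open Pool.Agent.Helper537_Sym
open Pool.Agent.Helper537_All (pu pu_val pu_mul pu_pow pu_C ec e_ne e_eq_sum vc_le vX_le ve_le ve_one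
  ve_lt_iff RF ru ru_val residue_eq_zero exists_lg_res exists_detect swap_mem Md md_mem closure_mem
  md_mono tame_f1z v_n0 n0 n0_dvd exists_w pow_one_of sq_aux exists_croot rcp rcp_eval₂ rcp_zero)
open Pool.Agent.Helper537_Cos (HUnr unr_le_hor tame_hor md_hor f1_inf_hor)

variable {L : Type*} [Field L] {e : ℚ[X] →+* L} {σ : L →+* L} {y : L} {f : ℚ[X]} {k : ℕ} {t : ℤ}
  {lam : ℚ} {α : Fin k → ℚ} {z : Lˣ}

/-- The space generated by the symbols `{z, u}` and the invariant classes. -/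
noncomputable def Vall (σ : L →+* L) (z : Lˣ) : Submodule ℚ (KQ L 2) :=
  Submodule.span ℚ {s | ∃ u : Lˣ, s = sy z u} ⊔ LinearMap.eqLocus (KQ.map 2 σ) LinearMap.id

/-- The symbols of `z` and polynomials. -/
noncomputable def Zall (e : ℚ[X] →+* L) (z : Lˣ) : Submodule ℚ (KQ L 2) :=
  Submodule.span ℚ {s | ∃ P : ℚ[X], P ≠ 0 ∧ s = sy z (pu e P)}

theorem cx_sub_mem (H : Cx e σ y f t lam α z) {κ : KQ L 2} (h : κ ∈ Vall σ z) :
    κ - KQ.map 2 σ κ ∈ Zall e z := by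
  have h0 : Vall σ z ≤ (Zall e z).comap (LinearMap.id - KQ.map 2 σ) := by
    unfold Vall
    refine sup_le ?_ ?_
    · rw [Submodule.span_le]
      rintro _ ⟨u, rfl⟩
      show sy z u - KQ.map 2 σ (sy z u) ∈ Zall e z
      rw [map_sy', H.sz, sy_inv_left, sub_neg_eq_add, ← sy_mul_right]
      obtain ⟨P, R, hP, hR, h⟩ := H.nrm_form u
      rw [h, sy_mul_right, sy_inv_right]
      exact Submodule.add_mem _ (Submodule.subset_span ⟨P, hP, rfl⟩)
        (Submodule.neg_mem _ (Submodule.subset_span ⟨R, hR, rfl⟩))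
    · intro s hs
      show s - KQ.map 2 σ s ∈ Zall e z
      have h1 : KQ.map 2 σ s = s := hs
      rw [h1, sub_self]
      exact Submodule.zero_mem _
  exact h0 h

theorem cx_hor_mem (H : Cx e σ y f t lam α z) {κ : KQ L 2} (h : κ ∈ Vall σ z)
    (hu : κ ∈ HUnr L) : κ ∈ Zall e z := by
  have h1 := cx_sub_mem H h
  rw [H.hor_sig hu, sub_neg_eq_add] at h1
  have h2 := Submodule.smul_mem _ (2 : ℚ)⁻¹ h1
  rwa [← two_smul ℚ κ, smul_smul, inv_mul_cancel₀ two_ne_zero, one_smul] at h2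

/-- All classes in `V` which are unramified at the closed points. -/
theorem cx_cls (H : Cx e σ y f t lam α z)
    (hQ : ∀ π : ℚ[X], π.Monic → Irreducible π → π ≠ X → π ∉ TBd e z →
      (∃ i, π = X - C (α i)) ∨ sy z (pu e π) ∈ Fzd e z ⊔ Wd e z α)
    {κ : KQ L 2} (h : κ ∈ Vall σ z) (hu : κ ∈ HUnr L) :
    ∃ n : Fin k → ℚ, κ = cls e z lam α n ∧ RelP lam α n := by
  refine H.z_part ?_ hu
  have h9 : Zall e z ≤ Fzd e z ⊔ (Nbd e z ⊔ Wd e z α) := by
    unfold Zall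
    rw [Submodule.span_le]
    rintro _ ⟨P, hP, rfl⟩
    have hFW : Fzd e z ⊔ Wd e z α ≤ Fzd e z ⊔ (Nbd e z ⊔ Wd e z α) :=
      sup_le_sup_left le_sup_right _
    have hWi : ∀ i, sy z (pu e (X - C (α i))) ∈ Wd e z α := fun i =>
      Submodule.subset_span ⟨i, rfl⟩
    refine zpoly_mem' H.inj le_sup_left _ P hP rfl fun π hm hi _ => ?_
    by_cases hX : π = X
    · rw [hX, cx_sy_X H]
      exact hFW (Submodule.add_mem_sup (fz_const _) (Submodule.sum_mem _ fun i _ => hWi i))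
    by_cases hπ : π ∈ TBd e z
    · refine (le_sup_right : Nbd e z ⊔ Wd e z α ≤ _) ((le_sup_left : Nbd e z ≤ _) ?_)
      exact Submodule.subset_span ⟨⟨π, hπ⟩, rfl⟩
    · rcases hQ π hm hi hX hπ with ⟨i, rfl⟩ | h
      · exact hFW ((le_sup_right : Wd e z α ≤ _) (hWi i))
      · exact hFW h
  exact h9 (cx_hor_mem H h hu)

/-! ### points where `z` is a root of unity -/

/-- `D^n (w^n + w^{-n})` as a polynomial in `G = D (w + 1/w)` and `D`. -/
noncomputable def hdk (G D : ℚ[X]) : ℕ → ℚ[X]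
  | 0 => 2
  | 1 => G
  | n + 2 => G * hdk G D (n + 1) - D ^ 2 * hdk G D n

theorem hdk_eval {K : Type*} [Field K] (φ : ℚ[X] →+* K) (G D : ℚ[X]) {w w' : K} (hw : w * w' = 1)
    (h : φ D * (w + w') = φ G) (n : ℕ) :
    φ (hdk G D n) = φ D ^ n * (w ^ n + w' ^ n) ∧
      φ (hdk G D (n + 1)) = φ D ^ (n + 1) * (w ^ (n + 1) + w' ^ (n + 1)) := by
  induction n with
  | zero =>
    constructor
    · show φ 2 = _
      rw [map_ofNat]
      norm_num
    · show φ G = _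
      rw [← h]
      ring
  | succ n ih =>
    refine ⟨ih.2, ?_⟩
    show φ (G * hdk G D (n + 1) - D ^ 2 * hdk G D n) = _
    rw [map_sub, map_mul, map_mul, map_pow, ih.1, ih.2, ← h]
    linear_combination (φ D ^ (n + 2) * (w ^ n + w' ^ n)) * hw

theorem cx_not_tb (H : Cx e σ y f t lam α z) {π : ℚ[X]} (hm : π.Monic) (hi : Irreducible π)
    (hX : π ≠ X) (hπ : π ∉ TBd e z) : ∃ n : ℕ, n ≠ 0 ∧ ∀ x : ℂ, aeval x π = 0 → x ≠ 0 ∧
      ∃ ζ : ℂ, ζ ≠ 0 ∧ ζ ^ n = 1 ∧ aeval x (Gx t lam α) = x * (ζ + ζ⁻¹) := by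
  obtain ⟨v, hvs, hv, hvπ⟩ := H.hval π hm hi
  have hXd := not_dvd_X hm hi hX
  have h1 : ¬ ∀ n : ℕ, v ((z : L) ^ n - 1) < 1 → n = 0 := fun h =>
    hπ ⟨hm, hi, hXd, v, hvs, hv, hvπ, h⟩
  push Not at h1
  obtain ⟨n, hn, hn0⟩ := h1
  refine ⟨n, hn0, ?_⟩
  have hz := H.vz hv hm hi hXd hvπ
  have hzz : (z : L) * ((z⁻¹ : Lˣ) : L) = 1 := by rw [← Units.val_mul, mul_inv_cancel, Units.val_one]
  have hdvd : π ∣ hdk (Gx t lam α) X n - 2 * X ^ n := by
    rw [← ve_lt_iff hv hm hi hvπ, map_sub, (hdk_eval e _ X hzz H.zeq n).1, map_mul, map_pow,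
      map_ofNat]
    have h3 : (z : L) ^ n * ((z⁻¹ : Lˣ) : L) ^ n = 1 := by rw [← mul_pow, hzz, one_pow]
    have h4 : e X ^ n * ((z : L) ^ n + ((z⁻¹ : Lˣ) : L) ^ n) - 2 * e X ^ n =
        e X ^ n * (((z : L) ^ n - 1) ^ 2 * ((z⁻¹ : Lˣ) : L) ^ n) := by
      rw [← sq_aux h3]
      ring
    rw [h4, map_mul, map_pow, ve_one hv hm hi hvπ hXd, one_pow, one_mul, map_mul, map_pow,
      map_pow, Units.val_inv_eq_inv_val, map_inv₀, hz, inv_one, one_pow, mul_one]
    exact pow_lt_one₀ zero_le hn (by norm_num)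
  intro x hx
  have hx0 : x ≠ 0 := by
    rintro rfl
    apply hXd
    have h2 : π.coeff 0 = 0 := by
      rw [coeff_zero_eq_aeval_zero]
      have h3 : algebraMap ℚ ℂ (aeval (0 : ℚ) π) = aeval (0 : ℂ) π := by
        rw [← aeval_algebraMap_apply, map_zero]
      rw [hx] at h3
      exact (_root_.map_eq_zero _).1 h3
    rw [← X_dvd_iff] at h2
    have h4 := irreducible_X.associated_of_dvd hi h2
    rw [eq_of_monic_of_associated monic_X hm h4]
  refine ⟨hx0, ?_⟩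
  obtain ⟨ζ, h0, hζ⟩ := exists_w (aeval x (Gx t lam α) / x)
  have hG : aeval x (Gx t lam α) = x * (ζ + ζ⁻¹) := by
    rw [← hζ]
    field_simp
  refine ⟨ζ, h0, ?_, hG⟩
  apply pow_one_of h0
  obtain ⟨R, hR⟩ := hdvd
  have h5 := congrArg (aeval x) hR
  have h6 := (hdk_eval (aeval x : ℚ[X] →ₐ[ℚ] ℂ).toRingHom (Gx t lam α) X (mul_inv_cancel₀ h0)
    (by
      show aeval x X * (ζ + ζ⁻¹) = aeval x (Gx t lam α)
      rw [aeval_X, hG]) n).1
  have h7 : aeval x (hdk (Gx t lam α) X n) = x ^ n * (ζ ^ n + ζ⁻¹ ^ n) := by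
    have h8 : aeval x (hdk (Gx t lam α) X n) = (aeval x X) ^ n * (ζ ^ n + ζ⁻¹ ^ n) := h6
    rwa [aeval_X] at h8
  rw [map_mul, hx, zero_mul, map_sub, h7, map_mul, map_pow, aeval_X, map_ofNat] at h5
  have h9 : x ^ n * (ζ ^ n + ζ⁻¹ ^ n - 2) = 0 := by linear_combination h5
  exact sub_eq_zero.1 ((mul_eq_zero.1 h9).resolve_left (pow_ne_zero _ hx0))

/-! ### the symbols of `z` and polynomials in `z` -/

/-- Polynomials in `z`. -/
noncomputable def eZ' (e : ℚ[X] →+* L) (z : Lˣ) : ℚ[X] →+* L := eval₂RingHom (ec e) (z : L)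

theorem eZ'_apply (P : ℚ[X]) : eZ' e z P = P.eval₂ (ec e) (z : L) := rfl

theorem eZ'_X : eZ' e z X = z := by rw [eZ'_apply, eval₂_X]

theorem ec_eZ' : ec (eZ' e z) = ec e := Subsingleton.elim _ _

theorem cx_eZ_inj (H : Cx e σ y f t lam α z) : Function.Injective (eZ' e z) := by
  rw [injective_iff_map_eq_zero]
  intro P hP
  by_contra hne
  obtain ⟨v, -, hv, -, hz⟩ := H.exists_inf
  have h1 := ve_pow' (e := eZ' e z) (v := v) (by rw [ec_eZ']; exact hv) (by rw [eZ'_X]; exact hz)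
    hne
  rw [hP, map_zero, eZ'_X] at h1
  exact pow_ne_zero _ (v_ne v _) h1.symm

section zz

variable (hzi : Function.Injective (eZ' e z))

include hzi

theorem zC_mem' {c : ℚ} (hc : c ≠ 0) : sy z (pu (eZ' e z) (C c)) ∈ Fzd e z := by
  rw [pu_C hzi hc, ec_eZ']
  exact fz_const _

theorem zpow_sub_mem' {m : ℕ} (hm : 0 < m) : sy z (pu (eZ' e z) (X ^ m - 1)) = 0 := by
  have h0 : (X ^ m - 1 : ℚ[X]) ≠ 0 := by
    have := X_pow_sub_C_ne_zero hm (1 : ℚ)
    rwa [C_1] at this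
  have h1 : sy (z ^ m) (-pu (eZ' e z) (X ^ m - 1)) = 0 := by
    refine sy_steinberg ?_
    rw [Units.val_neg, pu_val hzi h0, map_sub, map_pow, map_one, eZ'_X,
      Units.val_pow_eq_pow_val]
    ring
  rw [sy_neg_right, sy_pow_left] at h1
  exact eq_zero_of_two_smul (Nat.cast_ne_zero.2 hm.ne') h1

theorem zcyc_mem' (m : ℕ) : 0 < m → sy z (pu (eZ' e z) (cyclotomic m ℚ)) ∈ Fzd e z := by
  induction m using Nat.strong_induction_on with
  | _ m ih =>
    intro hm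
    have h1 := zpow_sub_mem' hzi hm
    have hpu : ∀ s : Finset ℕ, pu (eZ' e z) (∏ d ∈ s, cyclotomic d ℚ) =
        ∏ d ∈ s, pu (eZ' e z) (cyclotomic d ℚ) := by
      intro s
      apply Units.ext
      rw [pu_val hzi (Finset.prod_ne_zero_iff.2 fun d _ => cyclotomic_ne_zero d ℚ),
        map_prod, Units.coe_prod]
      exact Finset.prod_congr rfl fun d _ => (pu_val hzi (cyclotomic_ne_zero d ℚ)).symm
    rw [← prod_cyclotomic_eq_X_pow_sub_one hm ℚ, hpu, sy_prod_right,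
      ← Nat.insert_self_properDivisors hm.ne', Finset.sum_insert Nat.self_notMem_properDivisors]
      at h1
    rw [eq_neg_of_add_eq_zero_left h1]
    refine Submodule.neg_mem _ (Submodule.sum_mem _ fun d hd => ?_)
    rw [Nat.mem_properDivisors] at hd
    exact ih d hd.2 (Nat.pos_of_dvd_of_pos hd.1 hm)

theorem zroots_mem' (n : ℕ) : ∀ R : ℚ[X], R ≠ 0 → R.natDegree = n →
    (∀ w : ℂ, aeval w R = 0 → ∃ k, 0 < k ∧ w ^ k = 1) →
      sy z (pu (eZ' e z) R) ∈ Fzd e z := by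
  induction n using Nat.strong_induction_on with
  | _ n ih =>
    intro P hP hn h
    by_cases hu : IsUnit P
    · obtain ⟨c, hc, rfl⟩ := isUnit_iff.1 hu
      exact zC_mem' hzi hc.ne_zero
    · obtain ⟨π, hm, hi, Q, rfl⟩ := exists_monic_irreducible_factor P hu
      have hQ : Q ≠ 0 := right_ne_zero_of_mul hP
      rw [pu_mul hzi hm.ne_zero hQ, sy_mul_right]
      refine Submodule.add_mem _ ?_ ?_
      · obtain ⟨w, hw⟩ := exists_croot hi
        obtain ⟨k, hk, hwk⟩ := h w (by rw [map_mul, hw, zero_mul])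
        have hfin : 0 < orderOf w := orderOf_pos_iff.2 (isOfFinOrder_iff_pow_eq_one.2 ⟨k, hk, hwk⟩)
        have h1 : π = cyclotomic (orderOf w) ℚ := by
          rw [cyclotomic_eq_minpoly_rat (IsPrimitiveRoot.orderOf w) hfin]
          exact minpoly.eq_of_irreducible_of_monic hi hw hm
        rw [h1]
        exact zcyc_mem' hzi _ hfin
      · refine ih Q.natDegree ?_ Q hQ rfl fun w hw => h w (by rw [map_mul, hw, mul_zero])
        rw [natDegree_mul hm.ne_zero hQ] at hn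
        have := hi.natDegree_pos
        omega

end zz

/-! ### homogenisation -/

/-- The polynomial `D^k Ψ(G / D)`. -/
noncomputable def hom (Ψ G D : ℚ[X]) : ℚ[X] :=
  ∑ i ∈ Finset.range (Ψ.natDegree + 1), C (Ψ.coeff i) * G ^ i * D ^ (Ψ.natDegree - i)

theorem hom_eval {K : Type*} [Field K] (φ : ℚ[X] →+* K) (Ψ G D : ℚ[X]) {u : K}
    (h : φ D * u = φ G) :
    φ (hom Ψ G D) = φ D ^ Ψ.natDegree * Ψ.eval₂ (φ.comp C) u := by
  unfold hom
  rw [map_sum, eval₂_eq_sum_range, Finset.mul_sum]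
  refine Finset.sum_congr rfl fun i hi => ?_
  rw [Finset.mem_range] at hi
  have h2 : φ D ^ Ψ.natDegree = φ D ^ (Ψ.natDegree - i) * φ D ^ i := by
    rw [← pow_add]
    congr 1
    omega
  rw [map_mul, map_mul, map_pow, map_pow, ← h, h2, mul_pow]
  show φ (C (Ψ.coeff i)) * _ * _ = _ * _ * (φ (C (Ψ.coeff i)) * _)
  ring

theorem natDegree_hom {Ψ : ℚ[X]} {G D : ℚ[X]} (hG : D.natDegree < G.natDegree) :
    (hom Ψ G D).natDegree ≤ Ψ.natDegree * G.natDegree := by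
  unfold hom
  refine natDegree_sum_le_of_forall_le _ _ fun i hi => ?_
  rw [Finset.mem_range] at hi
  refine (natDegree_mul_le).trans ?_
  have h1 : (C (Ψ.coeff i) * G ^ i).natDegree ≤ i * G.natDegree :=
    (natDegree_C_mul_le _ _).trans natDegree_pow_le
  have h2 : (D ^ (Ψ.natDegree - i)).natDegree ≤ (Ψ.natDegree - i) * G.natDegree :=
    natDegree_pow_le.trans (Nat.mul_le_mul_left _ hG.le)
  calc (C (Ψ.coeff i) * G ^ i).natDegree + (D ^ (Ψ.natDegree - i)).natDegree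
      ≤ i * G.natDegree + (Ψ.natDegree - i) * G.natDegree := add_le_add h1 h2
    _ = (i + (Ψ.natDegree - i)) * G.natDegree := by ring
    _ = Ψ.natDegree * G.natDegree := by congr 1; omega

/-- The polynomials above which `z` is a root of unity, when the degree is large. -/
theorem cx_zπ_mem (H : Cx e σ y f t lam α z) {π : ℚ[X]} (hm : π.Monic) (hi : Irreducible π)
    {x : ℂ} (hx : aeval x π = 0) {ζ : ℂ} (h0 : ζ ≠ 0) {n : ℕ} (hn : 0 < n)
    (hζ : ζ ^ n = 1) (hG : aeval x (Gx t lam α) = x * (ζ + ζ⁻¹)) {Ψ : ℚ[X]}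
    (hΨ : Ψ = minpoly ℚ (ζ + ζ⁻¹)) (hΨ0 : Ψ ≠ 0)
    (hdeg : Ψ.natDegree * k ≤ π.natDegree) : sy z (pu e π) ∈ Fzd e z ⊔ Wd e z α := by
  have hzi := cx_eZ_inj H
  have hk := H.two
  have hGd := natDegree_Gx hk H.l0 t α
  -- the homogenised polynomial
  set Θ := hom Ψ (Gx t lam α) X with hΘ
  have hz0 : (z : L) ≠ 0 := z.ne_zero
  have hR : eZ' e z (rcp Ψ) * e X ^ Ψ.natDegree = (z : L) ^ Ψ.natDegree * e Θ := by
    have h1 : e X * ((z : L) + (z : L)⁻¹) = e (Gx t lam α) := by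
      rw [← H.zeq, Units.val_inv_eq_inv_val]
    rw [eZ'_apply, rcp_eval₂ _ _ hz0, hΘ, hom_eval e Ψ _ X h1]
    ring
  have hR0 : rcp Ψ ≠ 0 := by
    intro h
    have h1 := rcp_zero (RingHom.id ℚ) Ψ
    rw [h, eval₂_zero] at h1
    exact hΨ0 (leadingCoeff_eq_zero.1 h1.symm)
  have hΘ0 : Θ ≠ 0 := by
    intro h
    rw [h, map_zero, mul_zero] at hR
    exact mul_ne_zero (e_ne hzi hR0) (pow_ne_zero _ (e_ne H.inj X_ne_zero)) hR
  -- it is a multiple of `π`
  have hdvd : π ∣ Θ := by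
    have h2 : π = minpoly ℚ x := minpoly.eq_of_irreducible_of_monic hi hx hm
    rw [h2]
    refine minpoly.dvd ℚ _ ?_
    have h3 := hom_eval (aeval x : ℚ[X] →ₐ[ℚ] ℂ).toRingHom Ψ (Gx t lam α) X (u := ζ + ζ⁻¹) (by
      show aeval x X * (ζ + ζ⁻¹) = aeval x (Gx t lam α)
      rw [aeval_X, hG])
    have h4 : ((aeval x : ℚ[X] →ₐ[ℚ] ℂ).toRingHom.comp C) = algebraMap ℚ ℂ :=
      Subsingleton.elim _ _
    have h5 : aeval (ζ + ζ⁻¹) Ψ = 0 := by rw [hΨ, minpoly.aeval]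
    rw [h4, ← aeval_def, h5, mul_zero] at h3
    exact h3
  obtain ⟨R, hRe⟩ := hdvd
  have hRne : R ≠ 0 := by
    rintro rfl
    rw [mul_zero] at hRe
    exact hΘ0 hRe
  have h3 := natDegree_hom (Ψ := Ψ) (G := Gx t lam α) (D := X) (by
    rw [natDegree_X, hGd]
    omega)
  rw [← hΘ, hRe, natDegree_mul hm.ne_zero hRne, hGd] at h3
  have h5 : R.natDegree = 0 := by omega
  obtain ⟨c, rfl⟩ := natDegree_eq_zero.1 h5
  have hc : c ≠ 0 := C_ne_zero.1 hRne
  have h1 : pu (eZ' e z) (rcp Ψ) * pu e X ^ Ψ.natDegree =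
      z ^ Ψ.natDegree * (pu e π * pu e (C c)) := by
    apply Units.ext
    rw [Units.val_mul, Units.val_mul, Units.val_mul, Units.val_pow_eq_pow_val,
      Units.val_pow_eq_pow_val, pu_val hzi hR0, pu_val H.inj X_ne_zero, hR, hRe, map_mul,
      pu_val H.inj hm.ne_zero, pu_val H.inj hRne]
  have h2 : sy z (pu (eZ' e z) (rcp Ψ)) ∈ Fzd e z := by
    refine zroots_mem' hzi _ _ hR0 rfl fun w hw => ⟨n, hn, ?_⟩
    have hw0 : w ≠ 0 := by
      rintro rfl
      rw [aeval_def, rcp_zero] at hw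
      exact hΨ0 (leadingCoeff_eq_zero.1 ((_root_.map_eq_zero _).1 hw))
    rw [aeval_def, rcp_eval₂ _ _ hw0] at hw
    have h3 : aeval (w + w⁻¹) Ψ = 0 := (mul_eq_zero.1 hw).resolve_left (pow_ne_zero _ hw0)
    apply pow_one_of hw0
    have hd : Ψ ∣ dickson 1 (1 : ℚ) n - C 2 := by
      rw [hΨ]
      refine minpoly.dvd ℚ _ ?_
      rw [map_sub, aeval_C, aeval_def, ← eval_map, map_dickson, map_one,
        dickson_one_one_eval_add_inv _ _ (mul_inv_cancel₀ h0), inv_pow, hζ]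
      norm_num
    obtain ⟨R, hR⟩ := hd
    have h5 := congrArg (aeval (w + w⁻¹)) hR
    rw [map_mul, h3, zero_mul, map_sub, aeval_C, aeval_def, ← eval_map,
      map_dickson, map_one, dickson_one_one_eval_add_inv _ _ (mul_inv_cancel₀ hw0),
      sub_eq_zero] at h5
    rw [h5]
    simp
  have h6 := congrArg (sy z) h1
  rw [sy_mul_right, sy_mul_right, sy_mul_right, sy_pow_right, sy_pow_right, sy_self, smul_zero,
    zero_add, cx_sy_X H, pu_C H.inj hc] at h6
  have h7 : sy z (pu e π) = (sy z (pu (eZ' e z) (rcp Ψ)) + (Ψ.natDegree : ℚ) •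
      sy z (qc (ec e) (Units.mk0 lam H.l0)) - sy z (qc (ec e) (Units.mk0 c hc))) +
      (Ψ.natDegree : ℚ) • ∑ i, sy z (pu e (X - C (α i))) := by
    rw [smul_add] at h6
    rw [eq_sub_of_add_eq h6.symm]
    abel
  rw [h7]
  refine Submodule.add_mem_sup ?_ ?_
  · exact Submodule.sub_mem _ (Submodule.add_mem _ h2 (Submodule.smul_mem _ _ (fz_const _)))
      (fz_const _)
  · exact Submodule.smul_mem _ _ (Submodule.sum_mem _ fun i _ => Submodule.subset_span ⟨i, rfl⟩)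

end Pool.Agent.H442
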