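import Pool.Graph.R_pool_sql_team_seeded_620a6dc7.Helper537_All.Final
set_option autoImplicit false

/-!
The solutions of `lam ∏ (x - a_i) = (ζ + 1/ζ - t) x`, `ζ` a root of unity: their degree over
`ℚ(ζ + 1/ζ)`.
-/

namespace Pool.Agent.H442

open scoped WithZero
open Polynomial IntermediateField
open Pool.Agent.Helper537_All (v_int_one v_root unit_cond s_int n0 n0_dvd log_val adjoin_cyc
  exists_val_cyc eq_of_root)

section dich

variable {F : Type*} [Field F] {Γ₀ : Type*} [LinearOrderedCommGroupWithZero Γ₀]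
  (v : Valuation F Γ₀) {k : ℕ} {a : Fin k → F} {l c : F}

/-- The two possibilities for the valuation of a solution of `l ∏ (β - a_i) = c β`. -/
theorem dich (hk : 1 ≤ k) (ha : ∀ i, v (a i) ≤ 1) (hl : v l < 1) (hc : v c = 1) {β : F}
    (hβ : β ≠ 0) (h : l * ∏ i, (β - a i) = c * β) :
    (1 < v β ∧ v l * v β ^ (k - 1) = 1) ∨ (v β ≤ 1 ∧ v β = v l * ∏ i, v (a i)) := by
  classical
  have hβ0 : 0 < v β := zero_lt_iff.2 ((Valuation.ne_zero_iff v).2 hβ)
  rcases lt_or_ge 1 (v β) with hb | hb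
  · refine Or.inl ⟨hb, ?_⟩
    have h1 : ∀ i, v (β - a i) = v β := fun i =>
      Valuation.map_sub_eq_of_lt_left v ((ha i).trans_lt hb)
    have h2 := congrArg v h
    rw [map_mul, map_prod, Finset.prod_congr rfl fun i _ => h1 i, Finset.prod_const,
      Finset.card_univ, Fintype.card_fin, map_mul, hc, one_mul] at h2
    have h3 : v l * v β ^ (k - 1) * v β = 1 * v β := by
      rw [mul_assoc, ← pow_succ, one_mul, show k - 1 + 1 = k by omega]
      exact h2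
    exact mul_right_cancel₀ hβ0.ne' h3
  · refine Or.inr ⟨hb, ?_⟩
    have h2 := congrArg v h
    rw [map_mul, map_prod, map_mul, hc, one_mul] at h2
    have hle : ∀ i, v (β - a i) ≤ 1 := fun i => (v.map_sub _ _).trans (max_le hb (ha i))
    have hlt : ∀ i, v β < v (a i) := by
      intro i₀
      by_contra hcon
      rw [not_lt] at hcon
      have h3 : v (β - a i₀) ≤ v β := (v.map_sub _ _).trans (max_le le_rfl hcon)
      rw [← Finset.mul_prod_erase _ _ (Finset.mem_univ i₀)] at h2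
      have h4 : ∏ i ∈ Finset.univ.erase i₀, v (β - a i) ≤ 1 :=
        Finset.prod_le_one' fun i _ => hle i
      have h5 : v l * (v (β - a i₀) * ∏ i ∈ Finset.univ.erase i₀, v (β - a i)) < v β := by
        calc v l * (v (β - a i₀) * ∏ i ∈ Finset.univ.erase i₀, v (β - a i))
            ≤ v l * (v β * 1) := mul_le_mul_right (mul_le_mul' h3 h4) _
          _ = v l * v β := by rw [mul_one]
          _ < 1 * v β := mul_lt_mul_of_pos_right hl hβ0
          _ = v β := one_mul _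
      exact h5.ne h2
    rw [← h2]
    congr 1
    refine Finset.prod_congr rfl fun i _ => ?_
    rw [Valuation.map_sub_eq_of_lt_right v (hlt i)]

/-- There is at most one integral solution. -/
theorem small_unique (ha : ∀ i, v (a i) ≤ 1) (hl : v l < 1) (hc : v c = 1) {β β' : F}
    (hβ : v β ≤ 1) (hβ' : v β' ≤ 1) (h : l * ∏ i, (β - a i) = c * β)
    (h' : l * ∏ i, (β' - a i) = c * β') : β = β' := by
  by_contra hne
  have hd : β - β' ≠ 0 := sub_ne_zero.2 hne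
  let b : v.integer := ⟨β, hβ⟩
  let b' : v.integer := ⟨β', hβ'⟩
  let A : Fin k → v.integer := fun i => ⟨a i, ha i⟩
  obtain ⟨q, hq⟩ := sub_dvd_eval_sub b b' (∏ i, (X - C (A i)))
  have hq' := congrArg (Subring.subtype v.integer) hq
  simp only [eval_prod, eval_sub, eval_X, eval_C, map_sub, map_mul, map_prod] at hq'
  have h1 : (∏ i, (β - a i)) - ∏ i, (β' - a i) = (β - β') * (q : F) := hq'
  have h2 : l * (q : F) = c := by
    have h3 : (l * (q : F)) * (β - β') = c * (β - β') := by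
      linear_combination h - h' - l * h1
    exact mul_right_cancel₀ hd h3
  have h3 := congrArg v h2
  rw [map_mul, hc] at h3
  have h4 : v l * v (q : F) < 1 := mul_lt_one_of_lt_of_le hl q.2
  exact h4.ne h3

end dich

theorem prod_pow_aux {Γ₀ : Type*} [CommMonoidWithZero Γ₀] {A : Type*} (w : A → Γ₀) (l : Γ₀)
    (N : ℕ) (S : Multiset A) (h : ∀ β ∈ S, l * w β ^ N = 1) :
    l ^ Multiset.card S * (S.map w).prod ^ N = 1 := by
  induction S using Multiset.induction_on with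
  | empty => simp
  | cons a S ih =>
    rw [Multiset.card_cons, Multiset.map_cons, Multiset.prod_cons, mul_pow, pow_succ]
    have h1 := h a (Multiset.mem_cons_self _ _)
    have h2 := ih fun β hβ => h β (Multiset.mem_cons_of_mem hβ)
    calc l ^ Multiset.card S * l * (w a ^ N * (S.map w).prod ^ N)
        = (l * w a ^ N) * (l ^ Multiset.card S * (S.map w).prod ^ N) := by
          simp only [mul_assoc, mul_comm, mul_left_comm]
      _ = 1 := by rw [h1, h2, mul_one]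

theorem ext_val {k : Type*} [Field k] [Algebra k ℂ] (v : Valuation k ℤᵐ⁰) :
    ∃ B : ValuationSubring ℂ, (∀ x : k, v x ≤ 1 → B.valuation (algebraMap k ℂ x) ≤ 1) ∧
      (∀ x : k, v x < 1 → B.valuation (algebraMap k ℂ x) < 1) ∧
      (∀ x : k, v x = 1 → B.valuation (algebraMap k ℂ x) = 1) ∧
      (∀ x : k, x ≠ 0 → B.valuation (algebraMap k ℂ x) = 1 → v x = 1) := by
  obtain ⟨B, hB, hloc⟩ := IsLocalRing.exists_factor_valuationRing
    ((algebraMap k ℂ).comp v.valuationSubring.subtype)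
  set w := B.valuation with hw
  have hle : ∀ x : k, v x ≤ 1 → w (algebraMap k ℂ x) ≤ 1 := by
    intro x hx
    rw [hw, B.valuation_le_one_iff]
    exact hB ⟨x, (v.mem_valuationSubring_iff _).2 hx⟩
  have hone : ∀ x : k, v x = 1 → w (algebraMap k ℂ x) = 1 := by
    intro x hx
    have hx0 : x ≠ 0 := by
      rintro rfl
      rw [map_zero] at hx
      exact zero_ne_one hx
    refine le_antisymm (hle x hx.le) ?_
    have h1 := hle x⁻¹ (by rw [map_inv₀, hx, inv_one])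
    rw [map_inv₀, map_inv₀] at h1
    have h2 : w (algebraMap k ℂ x) ≠ 0 := by
      rw [Valuation.ne_zero_iff]
      exact (_root_.map_ne_zero _).2 hx0
    exact (inv_le_one₀ (zero_lt_iff.2 h2)).1 h1
  have hlt : ∀ x : k, v x < 1 → w (algebraMap k ℂ x) < 1 := by
    intro x hx
    refine lt_of_le_of_ne (hle x hx.le) fun h1 => ?_
    have hx' : x ∈ v.valuationSubring := (v.mem_valuationSubring_iff _).2 hx.le
    have h2 : IsUnit ((((algebraMap k ℂ).comp v.valuationSubring.subtype).codRestrict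
        B.toSubring hB) ⟨x, hx'⟩) := by
      have h3 : IsUnit (⟨algebraMap k ℂ x, hB ⟨x, hx'⟩⟩ : B) :=
        (B.valuation_eq_one_iff _).2 h1
      exact h3
    have h4 := hloc.map_nonunit _ h2
    have h5 : v x = 1 := by
      obtain ⟨u, hu⟩ := h4
      have h6 : ((u : v.valuationSubring) : k) = x := congrArg Subtype.val hu
      have h7 : v ((u : v.valuationSubring) : k) * v (((u⁻¹ : (v.valuationSubring)ˣ) :
          v.valuationSubring) : k) = 1 := by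
        rw [← map_mul]
        have h8 : ((u : v.valuationSubring) : k) * (((u⁻¹ : (v.valuationSubring)ˣ) :
            v.valuationSubring) : k) = 1 := congrArg Subtype.val (Units.mul_inv u)
        rw [h8, map_one]
      have h8 : v (((u⁻¹ : (v.valuationSubring)ˣ) : v.valuationSubring) : k) ≤ 1 :=
        (v.mem_valuationSubring_iff _).1 (Subtype.mem _)
      rw [h6] at h7
      refine le_antisymm hx.le ?_
      calc (1 : ℤᵐ⁰) = _ := h7.symm
        _ ≤ v x * 1 := mul_le_mul_right h8 _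
        _ = v x := mul_one _
    exact hx.ne h5
  refine ⟨B, hle, hlt, hone, ?_⟩
  intro x hx0 hx
  rcases lt_trichotomy (v x) 1 with h1 | h1 | h1
  · exact absurd hx (hlt x h1).ne
  · exact h1
  · exfalso
    have h2 := hlt x⁻¹ (by rw [map_inv₀]; exact inv_lt_one_of_one_lt₀ h1)
    rw [map_inv₀, map_inv₀, hx, inv_one] at h2
    exact lt_irrefl _ h2

/-- The degree of a solution is `k`, or there is a solution in the ground field. -/
theorem root_in_K {K : Type*} [Field K] [Algebra K ℂ] (v : Valuation K ℤᵐ⁰) {k : ℕ} (hk : 2 ≤ k)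
    {a : Fin k → K} (ha : ∀ i, v (a i) ≤ 1) (ha0 : ∀ i, a i ≠ 0) {l c : K} (hl : v l < 1)
    (hl0 : l ≠ 0) (hc : v c = 1) (hco : IsCoprime ((k - 1 : ℕ) : ℤ) (WithZero.log (v l)))
    {x : ℂ} (hx : algebraMap K ℂ l * ∏ i, (x - algebraMap K ℂ (a i)) = algebraMap K ℂ c * x) :
    k ≤ (minpoly K x).natDegree ∨ ∃ b : K, b ≠ 0 ∧ l * ∏ i, (b - a i) = c * b := by
  classical
  have : CharZero K := by
    constructor
    intro m n hmn
    have h1 := congrArg (algebraMap K ℂ) hmn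
    rw [map_natCast, map_natCast] at h1
    exact_mod_cast h1
  rw [or_iff_not_imp_left]
  intro hlt
  rw [not_le] at hlt
  set M : K[X] := ∏ i, (X - C (a i)) - C (c / l) * X with hM
  have hMd1 : (∏ i, (X - C (a i))).natDegree = k := by
    rw [natDegree_prod_of_monic _ _ fun _ _ => monic_X_sub_C _]
    simp
  have hMm1 : (∏ i, (X - C (a i))).Monic := monic_prod_of_monic _ _ fun _ _ => monic_X_sub_C _
  have hdlt : (C (c / l) * X : K[X]).degree < (∏ i, (X - C (a i))).degree := by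
    refine lt_of_le_of_lt (degree_C_mul_X_le _) ?_
    rw [degree_eq_natDegree hMm1.ne_zero, hMd1]
    exact_mod_cast (by omega : 1 < k)
  have hMm : M.Monic := hMm1.sub_of_left hdlt
  have hMd : M.natDegree = k := by
    rw [hM, natDegree_sub_eq_left_of_natDegree_lt, hMd1]
    rw [hMd1]
    refine lt_of_le_of_lt (natDegree_C_mul_le _ _) ?_
    rw [natDegree_X]
    omega
  have hMe : ∀ β : ℂ, aeval β M = 0 ↔
      algebraMap K ℂ l * ∏ i, (β - algebraMap K ℂ (a i)) = algebraMap K ℂ c * β := by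
    intro β
    have hl' : algebraMap K ℂ l ≠ 0 := (_root_.map_ne_zero _).2 hl0
    have h1 : aeval β M = ∏ i, (β - algebraMap K ℂ (a i)) -
        algebraMap K ℂ c / algebraMap K ℂ l * β := by
      rw [hM, map_sub, map_prod, map_mul, aeval_C, aeval_X, map_div₀]
      simp only [map_sub, aeval_X, aeval_C]
    rw [h1, sub_eq_zero]
    constructor
    · intro h
      rw [h]
      field_simp
    · intro h
      field_simp
      linear_combination h
  have hMx : aeval x M = 0 := (hMe x).2 hx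
  have hint : IsIntegral K x := ⟨M, hMm, hMx⟩
  set P := minpoly K x with hP
  have hPm : P.Monic := minpoly.monic hint
  obtain ⟨Q, hQ⟩ := minpoly.dvd K x hMx
  rw [← hP] at hQ
  have hQm : Q.Monic := hPm.of_mul_monic_left (by rw [← hQ]; exact hMm)
  have hPQ : P.natDegree + Q.natDegree = k := by
    rw [← hPm.natDegree_mul hQm, ← hQ, hMd]
  have hPpos : 0 < P.natDegree := minpoly.natDegree_pos hint
  obtain ⟨B, hBle, hBlt, hBone, hBiff⟩ := ext_val v
  set w := B.valuation with hw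
  have hwa : ∀ i, w (algebraMap K ℂ (a i)) ≤ 1 := fun i => hBle _ (ha i)
  have hwl := hBlt l hl
  have hwc := hBone c hc
  have hsol : ∀ β : ℂ, algebraMap K ℂ l * ∏ i, (β - algebraMap K ℂ (a i)) =
      algebraMap K ℂ c * β → β ≠ 0 := by
    rintro β h rfl
    rw [mul_zero] at h
    have h1 := (mul_eq_zero.1 h).resolve_left ((_root_.map_ne_zero _).2 hl0)
    obtain ⟨i, -, hi⟩ := Finset.prod_eq_zero_iff.1 h1
    rw [zero_sub, neg_eq_zero, _root_.map_eq_zero] at hi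
    exact ha0 i hi
  set R := (P.map (algebraMap K ℂ)).roots with hR
  have hsplit : (P.map (algebraMap K ℂ)).Splits := IsAlgClosed.splits _
  have hcard : R.card = P.natDegree := by
    rw [hR, ← hsplit.natDegree_eq_card_roots, natDegree_map]
  have hroot : ∀ β ∈ R, algebraMap K ℂ l * ∏ i, (β - algebraMap K ℂ (a i)) =
      algebraMap K ℂ c * β := by
    intro β hβ
    have hβ0 : aeval β P = 0 := by
      rw [hR, mem_roots (hPm.map _).ne_zero, IsRoot.def, eval_map_algebraMap] at hβ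
      exact hβ
    apply (hMe β).1
    rw [hQ, map_mul, hβ0, zero_mul]
  have hnodup : R.Nodup := nodup_roots ((minpoly.irreducible hint).separable.map)
  set ν := P.coeff 0 with hν
  have hprod : w (algebraMap K ℂ ν) = (R.map w).prod := by
    have h1 := hsplit.coeff_zero_eq_prod_roots_of_monic (hPm.map _)
    rw [coeff_map] at h1
    rw [hν, h1, map_mul, map_pow, Valuation.map_neg, map_one, one_pow, one_mul,
      map_multiset_prod]
  have hν0 : ν ≠ 0 := by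
    intro h0
    have h1 : aeval (0 : ℂ) P = 0 := by
      have h2 : aeval (algebraMap K ℂ 0) P = algebraMap K ℂ (P.coeff 0) := by
        rw [aeval_algebraMap_apply, coeff_zero_eq_aeval_zero]
      rw [map_zero] at h2
      rw [h2, ← hν, h0, map_zero]
    have h2 : (0 : ℂ) ∈ R := by
      rw [hR, mem_roots (hPm.map _).ne_zero, IsRoot.def, eval_map_algebraMap]
      exact h1
    exact hsol 0 (hroot 0 h2) rfl
  have hvν : v ν ≠ 0 := (Valuation.ne_zero_iff v).2 hν0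
  have hvl : v l ≠ 0 := (Valuation.ne_zero_iff v).2 hl0
  have hva : ∀ i, v (a i) ≠ 0 := fun i => (Valuation.ne_zero_iff v).2 (ha0 i)
  -- a root of `M` in `K` gives the result
  have hfin : ∀ b : K, M.eval b = 0 → ∃ b : K, b ≠ 0 ∧ l * ∏ i, (b - a i) = c * b := by
    intro b hb
    have h1 : aeval (algebraMap K ℂ b) M = 0 := by
      rw [aeval_algebraMap_apply, coe_aeval_eq_eval, hb, map_zero]
    have h2 := (hMe _).1 h1
    refine ⟨b, fun h0 => hsol _ h2 (by rw [h0, map_zero]), ?_⟩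
    apply (algebraMap K ℂ).injective
    rw [map_mul, map_prod, map_mul]
    simp only [map_sub]
    exact h2
  by_cases hsm : ∃ β ∈ R, w β ≤ 1
  · obtain ⟨β, hβR, hβ⟩ := hsm
    have hβe := hroot β hβR
    have hβw : w β = w (algebraMap K ℂ l) * ∏ i, w (algebraMap K ℂ (a i)) := by
      rcases dich w (by omega) hwa hwl hwc (hsol β hβe) hβe with ⟨h1, -⟩ | ⟨-, h2⟩
      · exact absurd h1 (not_lt.2 hβ)
      · exact h2
    obtain ⟨S, hS⟩ := Multiset.exists_cons_of_mem hβR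
    have hSbig : ∀ β' ∈ S, w (algebraMap K ℂ l) * w β' ^ (k - 1) = 1 := by
      intro β' hβ'
      have h1 : β' ∈ R := by rw [hS]; exact Multiset.mem_cons_of_mem hβ'
      have h2 := hroot β' h1
      rcases dich w (by omega) hwa hwl hwc (hsol β' h2) h2 with ⟨-, h3⟩ | ⟨h3, -⟩
      · exact h3
      · exfalso
        have h4 := small_unique w hwa hwl hwc hβ h3 hβe h2
        rw [hS, Multiset.nodup_cons] at hnodup
        exact hnodup.1 (h4 ▸ hβ')
    have h1 := prod_pow_aux w (w (algebraMap K ℂ l)) (k - 1) S hSbig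
    have hSc : S.card + 1 = P.natDegree := by rw [← hcard, hS, Multiset.card_cons]
    have h2 : w (algebraMap K ℂ ν) ^ (k - 1) * w (algebraMap K ℂ l) ^ S.card =
        (w (algebraMap K ℂ l) * ∏ i, w (algebraMap K ℂ (a i))) ^ (k - 1) := by
      rw [hprod, hS, Multiset.map_cons, Multiset.prod_cons, mul_pow, mul_assoc,
        mul_comm (_ ^ (k - 1)) (w (algebraMap K ℂ l) ^ S.card), h1, mul_one, hβw]
    have h3 : v (ν ^ (k - 1) * l ^ S.card / (l * ∏ i, a i) ^ (k - 1)) = 1 := by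
      apply hBiff
      · refine div_ne_zero (mul_ne_zero (pow_ne_zero _ hν0) (pow_ne_zero _ hl0))
          (pow_ne_zero _ (mul_ne_zero hl0 (Finset.prod_ne_zero_iff.2 fun i _ => ha0 i)))
      · rw [map_div₀, map_div₀, map_mul, map_mul, map_pow, map_pow, map_pow, map_pow, h2,
          map_pow, map_pow, map_mul, map_mul, map_prod, map_prod]
        refine div_self (pow_ne_zero _ (mul_ne_zero ?_ (Finset.prod_ne_zero_iff.2 fun i _ => ?_)))
        · rw [Valuation.ne_zero_iff]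
          exact (_root_.map_ne_zero _).2 hl0
        · rw [Valuation.ne_zero_iff]
          exact (_root_.map_ne_zero _).2 (ha0 i)
    have h4 := congrArg WithZero.log h3
    have hpa : v (∏ i, a i) ≠ 0 := by
      rw [map_prod]
      exact Finset.prod_ne_zero_iff.2 fun i _ => hva i
    rw [map_div₀, map_mul, map_pow, map_pow, map_pow, map_mul, WithZero.log_div
      (mul_ne_zero (pow_ne_zero _ hvν) (pow_ne_zero _ hvl))
      (pow_ne_zero _ (mul_ne_zero hvl hpa)),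
      WithZero.log_mul (pow_ne_zero _ hvν) (pow_ne_zero _ hvl),
      WithZero.log_pow, WithZero.log_pow, WithZero.log_pow, WithZero.log_one] at h4
    simp only [nsmul_eq_mul] at h4
    have h5 : ((k - 1 : ℕ) : ℤ) ∣ S.card * WithZero.log (v l) :=
      ⟨WithZero.log (v l * v (∏ i, a i)) - WithZero.log (v ν), by linarith⟩
    have h6 := hco.dvd_of_dvd_mul_right h5
    have h7 : (k - 1) ∣ S.card := by exact_mod_cast h6
    have h8 : S.card = 0 := Nat.eq_zero_of_dvd_of_lt h7 (by omega)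
    have h9 : P.natDegree = 1 := by omega
    -- `x` is in `K`
    refine hfin (-ν) ?_
    have h10 : P = X + C ν := hPm.eq_X_add_C h9
    have h11 : P.eval (-ν) = 0 := by
      rw [h10]
      simp
    rw [hQ, eval_mul, h11, zero_mul]
  · push Not at hsm
    have hbig : ∀ β' ∈ R, w (algebraMap K ℂ l) * w β' ^ (k - 1) = 1 := by
      intro β' h1
      have h2 := hroot β' h1
      rcases dich w (by omega) hwa hwl hwc (hsol β' h2) h2 with ⟨-, h3⟩ | ⟨h3, -⟩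
      · exact h3
      · exact absurd h3 (not_le.2 (hsm β' h1))
    have h1 := prod_pow_aux w (w (algebraMap K ℂ l)) (k - 1) R hbig
    rw [← hprod, hcard] at h1
    have h3 : v (l ^ P.natDegree * ν ^ (k - 1)) = 1 := by
      apply hBiff _ (mul_ne_zero (pow_ne_zero _ hl0) (pow_ne_zero _ hν0))
      rw [map_mul, map_mul, map_pow, map_pow, map_pow, map_pow]
      exact h1
    have h4 := congrArg WithZero.log h3
    rw [map_mul, map_pow, map_pow, WithZero.log_mul (pow_ne_zero _ hvl) (pow_ne_zero _ hvν),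
      WithZero.log_pow, WithZero.log_pow, WithZero.log_one] at h4
    simp only [nsmul_eq_mul] at h4
    have h5 : ((k - 1 : ℕ) : ℤ) ∣ P.natDegree * WithZero.log (v l) :=
      ⟨-WithZero.log (v ν), by linarith⟩
    have h6 := hco.dvd_of_dvd_mul_right h5
    have h7 : (k - 1) ∣ P.natDegree := by exact_mod_cast h6
    have h8 : k - 1 ≤ P.natDegree := Nat.le_of_dvd hPpos h7
    have h9 : Q.natDegree = 1 := by omega
    refine hfin (-(Q.coeff 0)) ?_
    have h10 : Q = X + C (Q.coeff 0) := hQm.eq_X_add_C h9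
    rw [hQ, eval_mul]
    have h11 : Q.eval (-(Q.coeff 0)) = 0 := by
      conv_lhs => rw [h10]
      simp
    rw [h11, mul_zero]

/-! ### the good valuation -/

theorem exists_good {m : ℕ} [NeZero m] {ζ : ℂ} (hζ : IsPrimitiveRoot ζ m) {N : ℕ}
    (hN1 : N ≠ 1) {lam t : ℤ} (hl : lam ≠ 0) (ht : |t| ≤ 2) {p q : ℕ}
    (hp : p.Prime) (hq : q.Prime) (hpq : p ≠ q) (hq5 : 5 ≤ q)
    (hcp : (p * (p - 1) * padicValInt p lam).Coprime N)
    (hcq : (padicValInt q lam).Coprime N) (hs : ζ + ζ⁻¹ - t ≠ 0) :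
    ∃ (r : ℕ) (v : Valuation ℚ⟮ζ⟯ ℤᵐ⁰) (e : ℕ), (r = p ∨ r = q) ∧ r.Prime ∧ 0 < e ∧
      v (r : ℚ⟮ζ⟯) = WithZero.exp (-(e : ℤ)) ∧ (∀ n : ℤ, v (n : ℚ⟮ζ⟯) ≤ 1) ∧
      (∀ τ : ℚ⟮ζ⟯ →ₐ[ℚ] ℚ⟮ζ⟯, v (τ (AdjoinSimple.gen ℚ ζ) + (τ (AdjoinSimple.gen ℚ ζ))⁻¹ - t) = 1) ∧
      v (lam : ℚ⟮ζ⟯) < 1 ∧ IsCoprime (N : ℤ) (WithZero.log (v (lam : ℚ⟮ζ⟯))) := by
  have hcyc := adjoin_cyc hζ
  have hnf : NumberField ℚ⟮ζ⟯ := IsCyclotomicExtension.numberField {m} ℚ ℚ⟮ζ⟯
  have hm : m ≠ 0 := NeZero.ne m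
  set z := AdjoinSimple.gen ℚ ζ with hz
  have hzp0 : IsPrimitiveRoot z m := by
    rw [← IsPrimitiveRoot.coe_submonoidClass_iff]
    exact hζ
  have hzp : ∀ τ : ℚ⟮ζ⟯ →ₐ[ℚ] ℚ⟮ζ⟯, IsPrimitiveRoot (τ z) m := fun τ =>
    hzp0.map_of_injective τ.toRingHom.injective
  have hzm : ∀ τ : ℚ⟮ζ⟯ →ₐ[ℚ] ℚ⟮ζ⟯, (τ z) ^ m = 1 := fun τ => (hzp τ).pow_eq_one
  have hs' : ∀ τ : ℚ⟮ζ⟯ →ₐ[ℚ] ℚ⟮ζ⟯, τ z + (τ z)⁻¹ - t ≠ 0 := by
    intro τ h
    have h0 : τ (z + z⁻¹ - t) = 0 := by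
      rw [map_sub, map_add, map_inv₀, map_intCast]
      exact h
    have h0' : z + z⁻¹ - t = 0 := (_root_.map_eq_zero τ).1 h0
    apply hs
    have h1 := congrArg (algebraMap ℚ⟮ζ⟯ ℂ) h0'
    rw [map_sub, map_add, map_inv₀, map_intCast, map_zero] at h1
    exact h1
  -- a valuation above `r` gives the result as soon as the differences are units
  have main : ∀ r : ℕ, (r = p ∨ r = q) → r.Prime → (padicValInt r lam).Coprime N →
      (r ∣ m → (r * (r - 1)).Coprime N) → (∀ τ : ℚ⟮ζ⟯ →ₐ[ℚ] ℚ⟮ζ⟯, ∀ v : Valuation ℚ⟮ζ⟯ ℤᵐ⁰,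
        v (r : ℚ⟮ζ⟯) < 1 → (∀ n : ℤ, v (n : ℚ⟮ζ⟯) ≤ 1) → v (τ z + (τ z)⁻¹ - t) ≤ 1 →
          v (τ z + (τ z)⁻¹ - t) = 1) →
      ∃ (r : ℕ) (v : Valuation ℚ⟮ζ⟯ ℤᵐ⁰) (e : ℕ), (r = p ∨ r = q) ∧ r.Prime ∧ 0 < e ∧
        v (r : ℚ⟮ζ⟯) = WithZero.exp (-(e : ℤ)) ∧ (∀ n : ℤ, v (n : ℚ⟮ζ⟯) ≤ 1) ∧
        (∀ τ : ℚ⟮ζ⟯ →ₐ[ℚ] ℚ⟮ζ⟯, v (τ z + (τ z)⁻¹ - t) = 1) ∧ v (lam : ℚ⟮ζ⟯) < 1 ∧
        IsCoprime (N : ℤ) (WithZero.log (v (lam : ℚ⟮ζ⟯))) := by
    intro r hrr hr hc hrm hu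
    have : Fact r.Prime := ⟨hr⟩
    obtain ⟨v, hv, e, hvp, he, he1, he2⟩ := exists_val_cyc m r ℚ⟮ζ⟯
    have hvi : ∀ n : ℤ, v (n : ℚ⟮ζ⟯) ≤ 1 := fun n => hv _ (by
      have := isIntegral_algebraMap (R := ℤ) (A := ℚ⟮ζ⟯) (x := n)
      rwa [algebraMap_int_eq, eq_intCast] at this)
    have hvp1 : v (r : ℚ⟮ζ⟯) < 1 := by
      rw [hvp, ← WithZero.exp_zero, WithZero.exp_lt_exp]
      omega
    obtain ⟨hlog, hne⟩ := log_val hr he hvp hvi hl
    have hsle : ∀ τ : ℚ⟮ζ⟯ →ₐ[ℚ] ℚ⟮ζ⟯, v (τ z + (τ z)⁻¹ - t) ≤ 1 := by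
      intro τ
      have hz1 := v_root (v := v) hm (hzm τ)
      refine (v.map_sub _ _).trans (max_le ((v.map_add _ _).trans (max_le hz1.le ?_)) (hvi t))
      rw [map_inv₀, hz1, inv_one]
    have hce : e.Coprime N := by
      by_cases h : r ∣ m
      · obtain ⟨k, rfl⟩ := he2 h
        have h1 := hrm h
        exact Nat.Coprime.mul_left (Nat.Coprime.pow_left _ (Nat.coprime_mul_iff_left.1 h1).1)
          (Nat.coprime_mul_iff_left.1 h1).2
      · rw [he1 h]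
        exact Nat.coprime_one_left N
    have hcc : (e * padicValInt r lam).Coprime N := Nat.Coprime.mul_left hce hc
    have hpos : 0 < e * padicValInt r lam := by
      refine Nat.pos_of_ne_zero fun h0 => ?_
      rw [h0, Nat.coprime_zero_left] at hcc
      exact hN1 hcc
    refine ⟨r, v, e, hrr, hr, he, hvp, hvi, fun τ => hu τ v hvp1 hvi (hsle τ), ?_, ?_⟩
    · rw [← WithZero.exp_log hne, hlog, ← WithZero.exp_zero, WithZero.exp_lt_exp]
      omega
    · rw [hlog]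
      refine IsCoprime.neg_right ?_
      rw [Nat.isCoprime_iff_coprime]
      exact hcc.symm
  by_cases hm12 : ∃ a, m ∣ 12 * p ^ a
  · -- use the prime `q`
    obtain ⟨a, ha⟩ := hm12
    have hqm : ¬ q ∣ m := by
      intro h
      have h3 := h.trans ha
      rcases (Nat.Prime.dvd_mul hq).1 h3 with h4 | h4
      · have h5 : q ∣ 2 ^ 2 * 3 := by norm_num; exact h4
        rcases (Nat.Prime.dvd_mul hq).1 h5 with h6 | h6
        · have := Nat.le_of_dvd (by norm_num) (hq.dvd_of_dvd_pow h6)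
          omega
        · have := Nat.le_of_dvd (by norm_num) h6
          omega
      · exact hpq ((Nat.prime_dvd_prime_iff_eq hq hp).1 (hq.dvd_of_dvd_pow h4)).symm
    refine main q (Or.inr rfl) hq hcq (fun h => absurd h hqm) fun τ v hvp hvi hle => ?_
    by_contra hne
    have hlt := lt_of_le_of_ne hle hne
    obtain ⟨c, hc⟩ := unit_cond hq hvp hvi hm (hzm τ) ht hlt
    have h3 : m ∣ n0 t * q ^ c := (hzp τ).dvd_of_pow_eq_one _ hc
    have h4 : m ∣ n0 t := by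
      refine (Nat.Coprime.dvd_mul_right ?_).1 h3
      refine Nat.Coprime.pow_right _ ?_
      exact ((Nat.Prime.coprime_iff_not_dvd hq).2 hqm).symm
    have h5 : (τ z) ^ n0 t = 1 := ((hzp τ).pow_eq_one_iff_dvd _).2 h4
    obtain ⟨s, hs4, hse⟩ := s_int ht h5
    have hs0 : s ≠ 0 := by
      rintro rfl
      rw [Int.cast_zero] at hse
      exact hs' τ hse
    have h6 : ¬ (q : ℤ) ∣ s := by
      intro h
      have h7 := Int.le_of_dvd (abs_pos.2 hs0) ((dvd_abs _ _).2 h)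
      have h8 : (5 : ℤ) ≤ q := by exact_mod_cast hq5
      omega
    have h7 := v_int_one hq hvp hvi h6
    rw [← hse] at h7
    exact hne h7
  · refine main p (Or.inl rfl) hp (Nat.coprime_mul_iff_left.1 hcp).2
      (fun _ => (Nat.coprime_mul_iff_left.1 hcp).1) fun τ v hvp hvi hle => ?_
    by_contra hne
    have hlt := lt_of_le_of_ne hle hne
    obtain ⟨c, hc⟩ := unit_cond hp hvp hvi hm (hzm τ) ht hlt
    have h3 : m ∣ n0 t * p ^ c := (hzp τ).dvd_of_pow_eq_one _ hc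
    exact hm12 ⟨c, h3.trans (mul_dvd_mul_right (n0_dvd t) _)⟩

/-! ### there is no solution in the cyclotomic field -/

/-- The archimedean size of the solutions. -/
theorem arch {k : ℕ} (hk : 2 ≤ k) {α : Fin k → ℤ} {lam : ℤ} {M : ℕ}
    (hM : ∀ i, |α i| ≤ M) (hbig : 8 * 2 ^ (k - 1) ≤ |lam| * M ^ (k - 1)) {c β : ℂ}
    (hc : ‖c‖ ≤ 4) (h : (lam : ℂ) * ∏ i, (β - α i) = c * β) : ‖β‖ ≤ 2 * M := by
  by_contra hcon
  rw [not_le] at hcon
  have hM0 : (0 : ℝ) ≤ M := Nat.cast_nonneg M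
  have hβ : 0 < ‖β‖ := by linarith
  have h1 : ∀ i, ‖β‖ / 2 ≤ ‖β - α i‖ := by
    intro i
    have h2 := norm_sub_norm_le β (α i : ℂ)
    rw [Complex.norm_intCast] at h2
    have h3 : |(α i : ℝ)| ≤ M := by exact_mod_cast hM i
    linarith
  have h2 : (‖β‖ / 2) ^ k ≤ ∏ i, ‖β - α i‖ := by
    calc (‖β‖ / 2) ^ k = ∏ _i : Fin k, (‖β‖ / 2) := by
          rw [Finset.prod_const, Finset.card_univ, Fintype.card_fin]
      _ ≤ ∏ i, ‖β - α i‖ := Finset.prod_le_prod (fun i _ => by positivity) fun i _ => h1 i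
  have h3 := congrArg norm h
  rw [norm_mul, norm_mul, norm_prod, Complex.norm_intCast] at h3
  have hkk : k = (k - 1) + 1 := by omega
  have h4 : |(lam : ℝ)| * ((‖β‖ / 2) ^ (k - 1) * (‖β‖ / 2)) ≤ 4 * ‖β‖ := by
    rw [← pow_succ, ← hkk]
    calc |(lam : ℝ)| * (‖β‖ / 2) ^ k ≤ |(lam : ℝ)| * ∏ i, ‖β - α i‖ :=
          mul_le_mul_of_nonneg_left h2 (abs_nonneg _)
      _ = ‖c‖ * ‖β‖ := h3
      _ ≤ 4 * ‖β‖ := mul_le_mul_of_nonneg_right hc hβ.le
  have h5 : |(lam : ℝ)| * (‖β‖ / 2) ^ (k - 1) ≤ 8 := by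
    have h6 : |(lam : ℝ)| * (‖β‖ / 2) ^ (k - 1) * (‖β‖ / 2) ≤ 8 * (‖β‖ / 2) := by
      calc |(lam : ℝ)| * (‖β‖ / 2) ^ (k - 1) * (‖β‖ / 2)
          = |(lam : ℝ)| * ((‖β‖ / 2) ^ (k - 1) * (‖β‖ / 2)) := by ring
        _ ≤ 4 * ‖β‖ := h4
        _ = 8 * (‖β‖ / 2) := by ring
    exact le_of_mul_le_mul_right h6 (by positivity)
  have hbig' : (8 : ℝ) * 2 ^ (k - 1) ≤ |(lam : ℝ)| * M ^ (k - 1) := by exact_mod_cast hbig
  have h0 : k - 1 ≠ 0 := by omega
  have h7 : (M : ℝ) ^ (k - 1) < (‖β‖ / 2) ^ (k - 1) :=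
    pow_lt_pow_left₀ (by linarith) hM0 h0
  have hlam : 0 < |(lam : ℝ)| := by
    rcases (abs_nonneg (lam : ℝ)).eq_or_lt with h8 | h8
    · rw [← h8, zero_mul] at hbig'
      have : (0 : ℝ) < 8 * 2 ^ (k - 1) := by positivity
      linarith
    · exact h8
  have h8 : |(lam : ℝ)| * M ^ (k - 1) < |(lam : ℝ)| * (‖β‖ / 2) ^ (k - 1) :=
    mul_lt_mul_of_pos_left h7 hlam
  have h9 : (1 : ℝ) ≤ 2 ^ (k - 1) := one_le_pow₀ (by norm_num)
  linarith

theorem natDegree_prodZ {k : ℕ} (b : Fin k → ℤ) : (∏ i, (X - C (b i))).natDegree = k := by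
  rw [natDegree_prod_of_monic _ _ fun _ _ => monic_X_sub_C _]
  simp only [natDegree_X_sub_C, Finset.sum_const, Finset.card_univ, Fintype.card_fin, smul_eq_mul,
    mul_one]

theorem eval_prodZ {E : Type*} [Field E] {k : ℕ} (b : Fin k → ℤ) (x : E) :
    eval x ((∏ i, (X - C (b i))).map (algebraMap ℤ E)) = ∏ i, (x - b i) := by
  rw [Polynomial.map_prod, eval_prod]
  refine Finset.prod_congr rfl fun i _ => ?_
  rw [Polynomial.map_sub, map_X, Polynomial.map_C, eval_sub, eval_X, eval_C, algebraMap_int_eq,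
    eq_intCast]

/-- `lam x` is integral if `lam ∏ (x - α_i) = c x` with `c` integral. -/
theorem lam_integral {E : Type*} [Field E] {k : ℕ} (hk : 2 ≤ k) {α : Fin k → ℤ} {lam : ℤ} {c x : E}
    (hc : IsIntegral ℤ c) (h : (lam : E) * ∏ i, (x - α i) = c * x) :
    IsIntegral ℤ ((lam : E) * x) := by
  set A : ℤ[X] := ∏ i, (X - C (lam * α i)) with hA
  have hAm : A.Monic := monic_prod_of_monic _ _ fun _ _ => monic_X_sub_C _
  have hAd : A.natDegree = k := natDegree_prodZ _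
  set d : E := (lam : E) ^ (k - 2) * c with hd
  have hdi : IsIntegral ℤ d := by
    refine IsIntegral.mul ?_ hc
    exact (isIntegral_algebraMap (R := ℤ) (A := E) (x := lam)).pow _ |> fun h => by
      rwa [algebraMap_int_eq, eq_intCast] at h
  set p : E[X] := A.map (algebraMap ℤ E) - C d * X with hp
  have hAm' : (A.map (algebraMap ℤ E)).Monic := hAm.map _
  have hAd' : (A.map (algebraMap ℤ E)).natDegree = k := by rw [hAm.natDegree_map, hAd]
  have hpm : p.Monic := by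
    refine hAm'.sub_of_left ?_
    refine lt_of_le_of_lt (degree_C_mul_X_le _) ?_
    rw [degree_eq_natDegree hAm'.ne_zero, hAd']
    exact_mod_cast (by omega : 1 < k)
  have hpd : p.natDegree = k := by
    rw [hp, natDegree_sub_eq_left_of_natDegree_lt, hAd']
    rw [hAd']
    refine lt_of_le_of_lt (natDegree_C_mul_le _ _) ?_
    rw [natDegree_X]
    omega
  refine IsIntegral.of_aeval_monic_of_isIntegral_coeff hpm (by rw [hpd]; omega) ?_ fun i => ?_
  · have h1 : eval ((lam : E) * x) p = 0 := by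
      rw [hp, eval_sub, eval_mul, eval_C, eval_X, hA, eval_prodZ]
      have h2 : ∀ i, (lam : E) * x - ((lam * α i : ℤ) : E) = lam * (x - α i) := fun i => by
        push_cast
        ring
      simp only [h2, Finset.prod_mul_distrib, Finset.prod_const, Finset.card_univ,
        Fintype.card_fin]
      have h3 : (lam : E) ^ k = lam ^ (k - 2) * lam * lam := by
        rw [mul_assoc, ← sq, ← pow_add]
        congr 1
        omega
      rw [h3, hd]
      linear_combination (lam : E) ^ (k - 2) * lam * h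
    rw [h1]
    exact isIntegral_zero
  · rw [hp, coeff_sub, coeff_map, coeff_C_mul]
    refine isIntegral_algebraMap.sub (hdi.mul ?_)
    rw [coeff_X]
    split_ifs
    · exact isIntegral_one
    · exact isIntegral_zero

theorem no_root {m : ℕ} [NeZero m] {ζ : ℂ} (hζ : IsPrimitiveRoot ζ m) {k : ℕ} (hk : 3 ≤ k)
    {α : Fin k → ℤ} (hα0 : ∀ i, α i ≠ 0) {lam t : ℤ} (hl : lam ≠ 0) (ht : |t| ≤ 2) {p q : ℕ}
    {M : ℕ} (hM : ∀ i, |α i| ≤ M) (hbig : 8 * 2 ^ (k - 1) ≤ |lam| * M ^ (k - 1))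
    (hpM : ∀ r, r = p ∨ r = q →
      2 * lam.natAbs * M < r ^ (2 * padicValInt r lam + ∑ i, padicValInt r (α i)))
    {r : ℕ} {v : Valuation ℚ⟮ζ⟯ ℤᵐ⁰} {e : ℕ} (hr : r = p ∨ r = q) (hrp : r.Prime) (he : 0 < e)
    (hvr : v (r : ℚ⟮ζ⟯) = WithZero.exp (-(e : ℤ))) (hvi : ∀ n : ℤ, v (n : ℚ⟮ζ⟯) ≤ 1)
    (hv1 : ∀ τ : ℚ⟮ζ⟯ →ₐ[ℚ] ℚ⟮ζ⟯, v (τ (AdjoinSimple.gen ℚ ζ) + (τ (AdjoinSimple.gen ℚ ζ))⁻¹ - t) = 1)
    (hvl : v (lam : ℚ⟮ζ⟯) < 1)
    (hco : IsCoprime ((k - 1 : ℕ) : ℤ) (WithZero.log (v (lam : ℚ⟮ζ⟯))))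
    {x : ℚ⟮ζ⟯} (hx0 : x ≠ 0)
    (hx : (lam : ℚ⟮ζ⟯) * ∏ i, (x - α i) = (AdjoinSimple.gen ℚ ζ + (AdjoinSimple.gen ℚ ζ)⁻¹ - t) * x) :
    False := by
  have hcyc := adjoin_cyc hζ
  have hnf : NumberField ℚ⟮ζ⟯ := IsCyclotomicExtension.numberField {m} ℚ ℚ⟮ζ⟯
  have hgal : IsGalois ℚ ℚ⟮ζ⟯ := IsCyclotomicExtension.isGalois {m} ℚ ℚ⟮ζ⟯
  have hm : m ≠ 0 := NeZero.ne m
  set z := AdjoinSimple.gen ℚ ζ with hz
  have hzp0 : IsPrimitiveRoot z m := by
    rw [← IsPrimitiveRoot.coe_submonoidClass_iff]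
    exact hζ
  have hzint : ∀ w : ℚ⟮ζ⟯, w ^ m = 1 → IsIntegral ℤ w := fun w hw =>
    IsIntegral.of_pow (Nat.pos_of_ne_zero hm) (by rw [hw]; exact isIntegral_one)
  have hcint : IsIntegral ℤ (z + z⁻¹ - t) := by
    refine ((hzint z hzp0.pow_eq_one).add (hzint z⁻¹ ?_)).sub ?_
    · rw [inv_pow, hzp0.pow_eq_one, inv_one]
    · have := isIntegral_algebraMap (R := ℤ) (A := ℚ⟮ζ⟯) (x := t)
      rwa [algebraMap_int_eq, eq_intCast] at this
  have hyint := lam_integral (by omega) hcint hx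
  -- the norm
  have hNint := Algebra.isIntegral_norm (R := ℤ) ℚ hyint
  obtain ⟨n, hn⟩ := IsIntegrallyClosed.isIntegral_iff.1 hNint
  have hnorm := Algebra.norm_eq_prod_automorphisms ℚ ((lam : ℚ⟮ζ⟯) * x)
  rw [← hn] at hnorm
  have hnE : (n : ℚ⟮ζ⟯) = ∏ τ : ℚ⟮ζ⟯ ≃ₐ[ℚ] ℚ⟮ζ⟯, ((lam : ℚ⟮ζ⟯) * τ x) := by
    have h1 : algebraMap ℚ ℚ⟮ζ⟯ (algebraMap ℤ ℚ n) = (n : ℚ⟮ζ⟯) := by simp
    rw [← h1, hnorm]
    refine Finset.prod_congr rfl fun τ _ => ?_
    rw [map_mul, map_intCast]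
  have heq : ∀ τ : ℚ⟮ζ⟯ ≃ₐ[ℚ] ℚ⟮ζ⟯, (lam : ℚ⟮ζ⟯) * ∏ i, (τ x - α i) =
      (τ z + (τ z)⁻¹ - t) * τ x := by
    intro τ
    have h1 := congrArg τ hx
    simp only [map_mul, map_prod, map_sub, map_add, map_inv₀, map_intCast] at h1
    exact h1
  have hτx : ∀ τ : ℚ⟮ζ⟯ ≃ₐ[ℚ] ℚ⟮ζ⟯, τ x ≠ 0 := fun τ h => hx0 ((_root_.map_eq_zero τ).1 h)
  have hlE : (lam : ℚ⟮ζ⟯) ≠ 0 := by exact_mod_cast hl
  have hvl0 : v (lam : ℚ⟮ζ⟯) ≠ 0 := (Valuation.ne_zero_iff v).2 hlE
  have hvx : ∀ τ : ℚ⟮ζ⟯ ≃ₐ[ℚ] ℚ⟮ζ⟯, v (τ x) = v (lam : ℚ⟮ζ⟯) * ∏ i, v (α i : ℚ⟮ζ⟯) := by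
    intro τ
    rcases dich v (by omega) (fun i => hvi (α i)) hvl (hv1 τ) (hτx τ) (heq τ) with
      ⟨-, h2⟩ | ⟨-, h2⟩
    · exfalso
      have h3 := congrArg WithZero.log h2
      rw [WithZero.log_mul hvl0 (pow_ne_zero _ ((Valuation.ne_zero_iff v).2 (hτx τ))),
        WithZero.log_pow, WithZero.log_one] at h3
      simp only [nsmul_eq_mul] at h3
      have h4 : ((k - 1 : ℕ) : ℤ) ∣ WithZero.log (v (lam : ℚ⟮ζ⟯)) :=
        ⟨-WithZero.log (v (τ x)), by linarith⟩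
      have h5 : IsUnit ((k - 1 : ℕ) : ℤ) := hco.isUnit_of_dvd' dvd_rfl h4
      rw [Int.isUnit_iff] at h5
      omega
    · exact h2
  have hn0 : n ≠ 0 := by
    rintro rfl
    rw [Int.cast_zero] at hnE
    exact Finset.prod_ne_zero_iff.2 (fun τ _ => mul_ne_zero hlE (hτx τ)) hnE.symm
  set G := Fintype.card (ℚ⟮ζ⟯ ≃ₐ[ℚ] ℚ⟮ζ⟯) with hG
  have hG0 : 0 < G := Fintype.card_pos
  have hvn : v (n : ℚ⟮ζ⟯) = (v (lam : ℚ⟮ζ⟯) * (v (lam : ℚ⟮ζ⟯) * ∏ i, v (α i : ℚ⟮ζ⟯))) ^ G := by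
    rw [hnE, map_prod]
    have : ∀ τ : ℚ⟮ζ⟯ ≃ₐ[ℚ] ℚ⟮ζ⟯, v ((lam : ℚ⟮ζ⟯) * τ x) =
        v (lam : ℚ⟮ζ⟯) * (v (lam : ℚ⟮ζ⟯) * ∏ i, v (α i : ℚ⟮ζ⟯)) := by
      intro τ
      rw [map_mul, hvx]
    simp only [this, Finset.prod_const, Finset.card_univ, hG]
  have : Fact r.Prime := ⟨hrp⟩
  obtain ⟨hlogn, -⟩ := log_val hrp he hvr hvi hn0
  obtain ⟨hlogl, -⟩ := log_val hrp he hvr hvi hl
  have hloga : ∀ i, WithZero.log (v (α i : ℚ⟮ζ⟯)) = -((e * padicValInt r (α i) : ℕ) : ℤ) ∧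
    v (α i : ℚ⟮ζ⟯) ≠ 0 := fun i => log_val hrp he hvr hvi (hα0 i)
  have hlogp : ∀ s : Finset (Fin k), WithZero.log (∏ i ∈ s, v (α i : ℚ⟮ζ⟯)) =
      -((e * ∑ i ∈ s, padicValInt r (α i) : ℕ) : ℤ) := by
    classical
    intro s
    induction s using Finset.induction_on with
    | empty => simp
    | insert i s hi ih =>
      rw [Finset.prod_insert hi, Finset.sum_insert hi, WithZero.log_mul (hloga i).2
        (Finset.prod_ne_zero_iff.2 fun j _ => (hloga j).2), ih, (hloga i).1]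
      push_cast
      ring
  have hpa : (∏ i, v (α i : ℚ⟮ζ⟯)) ≠ 0 := Finset.prod_ne_zero_iff.2 fun j _ => (hloga j).2
  have h1 := congrArg WithZero.log hvn
  rw [WithZero.log_pow, WithZero.log_mul hvl0 (mul_ne_zero hvl0 hpa), WithZero.log_mul hvl0 hpa,
    hlogn, hlogl, hlogp] at h1
  simp only [nsmul_eq_mul] at h1
  set A := 2 * padicValInt r lam + ∑ i, padicValInt r (α i) with hA
  have h2 : padicValInt r n = G * A := by
    have h3 : ((e : ℤ)) * padicValInt r n = e * (G * A) := by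
      rw [hA]
      push_cast at h1 ⊢
      linarith
    have h4 : (e : ℤ) ≠ 0 := by omega
    exact_mod_cast mul_left_cancel₀ h4 h3
  have h3 : (r ^ A) ^ G ≤ n.natAbs := by
    have h4 : (r : ℤ) ^ (G * A) ∣ n := (padicValInt_dvd_iff _ _).2 (Or.inr h2.ge)
    have h5 : r ^ (G * A) ∣ n.natAbs := by
      have h6 := Int.natAbs_dvd_natAbs.2 h4
      rwa [Int.natAbs_pow, Int.natAbs_natCast] at h6
    rw [← pow_mul, mul_comm A G]
    exact Nat.le_of_dvd (Int.natAbs_pos.2 hn0) h5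
  -- the archimedean size
  have h4 : (n.natAbs : ℝ) ≤ (2 * lam.natAbs * M : ℝ) ^ G := by
    have h5 : ((n : ℤ) : ℂ) = ∏ τ : ℚ⟮ζ⟯ ≃ₐ[ℚ] ℚ⟮ζ⟯, ((lam : ℂ) * algebraMap ℚ⟮ζ⟯ ℂ (τ x)) := by
      have h6 := congrArg (algebraMap ℚ⟮ζ⟯ ℂ) hnE
      rw [map_intCast, map_prod] at h6
      rw [h6]
      refine Finset.prod_congr rfl fun τ _ => ?_
      rw [map_mul, map_intCast]
    have h6 := congrArg norm h5
    rw [Complex.norm_intCast, norm_prod] at h6
    have h7 : ∀ τ : ℚ⟮ζ⟯ ≃ₐ[ℚ] ℚ⟮ζ⟯, ‖(lam : ℂ) * algebraMap ℚ⟮ζ⟯ ℂ (τ x)‖ ≤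
        2 * lam.natAbs * M := by
      intro τ
      have h8 := congrArg (algebraMap ℚ⟮ζ⟯ ℂ) (heq τ)
      simp only [map_mul, map_prod, map_sub, map_add, map_inv₀, map_intCast] at h8
      have h9 : ‖algebraMap ℚ⟮ζ⟯ ℂ (τ z)‖ = 1 := by
        have h10 : (algebraMap ℚ⟮ζ⟯ ℂ (τ z)) ^ m = 1 := by
          rw [← map_pow, ← map_pow, hzp0.pow_eq_one, map_one, map_one]
        have h11 := congrArg norm h10
        rw [norm_pow, norm_one] at h11
        exact (pow_eq_one_iff_of_nonneg (norm_nonneg _) hm).1 h11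
      have h10 : ‖algebraMap ℚ⟮ζ⟯ ℂ (τ z) + (algebraMap ℚ⟮ζ⟯ ℂ (τ z))⁻¹ - (t : ℂ)‖ ≤ 4 := by
        refine (norm_sub_le _ _).trans ?_
        refine (add_le_add (norm_add_le _ _) le_rfl).trans ?_
        rw [norm_inv, h9, Complex.norm_intCast]
        have : |(t : ℝ)| ≤ 2 := by exact_mod_cast ht
        linarith
      have h11 := arch (by omega) hM hbig h10 h8
      rw [norm_mul, Complex.norm_intCast]
      have h12 : |(lam : ℝ)| = lam.natAbs := by
        rw [Nat.cast_natAbs, Int.cast_abs]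
      rw [h12]
      calc (lam.natAbs : ℝ) * ‖algebraMap ℚ⟮ζ⟯ ℂ (τ x)‖ ≤ lam.natAbs * (2 * M) :=
            mul_le_mul_of_nonneg_left h11 (Nat.cast_nonneg _)
        _ = 2 * lam.natAbs * M := by ring
    have h8 : (n.natAbs : ℝ) = |(n : ℝ)| := by rw [Nat.cast_natAbs, Int.cast_abs]
    rw [h8, h6]
    calc ∏ τ : ℚ⟮ζ⟯ ≃ₐ[ℚ] ℚ⟮ζ⟯, ‖(lam : ℂ) * algebraMap ℚ⟮ζ⟯ ℂ (τ x)‖
        ≤ ∏ _τ : ℚ⟮ζ⟯ ≃ₐ[ℚ] ℚ⟮ζ⟯, (2 * lam.natAbs * M : ℝ) :=
          Finset.prod_le_prod (fun _ _ => norm_nonneg _) fun τ _ => h7 τ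
      _ = (2 * lam.natAbs * M : ℝ) ^ G := by
          rw [Finset.prod_const, Finset.card_univ, hG]
  have h5 : n.natAbs ≤ (2 * lam.natAbs * M) ^ G := by exact_mod_cast h4
  have h6 := hpM r hr
  rw [← hA] at h6
  have h7 : (2 * lam.natAbs * M) ^ G < (r ^ A) ^ G := Nat.pow_lt_pow_left h6 hG0.ne'
  omega

/-! ### degrees -/

theorem deg_tower' {π : ℚ[X]} (hm : π.Monic) (hi : Irreducible π) {x η : ℂ} (hx : aeval x π = 0)
    (hmem : η ∈ ℚ⟮x⟯) : π.natDegree = (minpoly ℚ η).natDegree * (minpoly ℚ⟮η⟯ x).natDegree := by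
  have hint : IsIntegral ℚ x := ⟨π, hm, hx⟩
  have hη : IsIntegral ℚ η := by
    have : Algebra.IsIntegral ℚ ℚ⟮x⟯ := by
      have := adjoin.finiteDimensional hint
      infer_instance
    have h2 : IsIntegral ℚ (⟨η, hmem⟩ : ℚ⟮x⟯) := Algebra.IsIntegral.isIntegral _
    exact h2.algebraMap
  have h1 : π = minpoly ℚ x := minpoly.eq_of_irreducible_of_monic hi hx hm
  rw [h1, ← adjoin.finrank hint, ← adjoin.finrank hη,
    ← adjoin.finrank (hint.tower_top (A := ℚ⟮η⟯)), Module.finrank_mul_finrank ℚ ℚ⟮η⟯ ℚ⟮η⟯⟮x⟯]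
  have h2 : (ℚ⟮η⟯⟮x⟯).restrictScalars ℚ = ℚ⟮x⟯ := by
    have h3 := IntermediateField.adjoin_adjoin_left ℚ ({η} : Set ℂ) {x}
    refine h3.trans ?_
    apply le_antisymm
    · rw [IntermediateField.adjoin_le_iff]
      rintro w (hw | hw)
      · rw [Set.mem_singleton_iff] at hw
        rw [hw]
        exact hmem
      · rw [Set.mem_singleton_iff] at hw
        rw [hw]
        exact mem_adjoin_simple_self ℚ x
    · exact IntermediateField.adjoin.mono _ _ _ (Set.subset_union_right)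
  rw [← h2]
  rfl

/-- The numerical conditions. -/
structure NumC (k : ℕ) (lam : ℤ) (α : Fin k → ℤ) : Prop where
  three : 3 ≤ k
  l0 : lam ≠ 0
  a0 : ∀ i, α i ≠ 0
  primes : ∃ (p q M : ℕ), p.Prime ∧ q.Prime ∧ p ≠ q ∧ 5 ≤ q ∧
    (p * (p - 1) * padicValInt p lam).Coprime (k - 1) ∧ (padicValInt q lam).Coprime (k - 1) ∧
    (∀ i, |α i| ≤ M) ∧ 8 * 2 ^ (k - 1) ≤ |lam| * M ^ (k - 1) ∧
    ∀ r, r = p ∨ r = q →
      2 * lam.natAbs * M < r ^ (2 * padicValInt r lam + ∑ i, padicValInt r (α i))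

/-- The degree of the special points. -/
theorem special_deg {k : ℕ} {lam t : ℤ} {α : Fin k → ℤ} (hN : NumC k lam α) (ht : |t| ≤ 2)
    {π : ℚ[X]} (hm : π.Monic) (hi : Irreducible π) {x : ℂ} (hx : aeval x π = 0) (hx0 : x ≠ 0)
    {ζ : ℂ} {n : ℕ} (hn : n ≠ 0) (hζ : ζ ^ n = 1)
    (hG : t * x + lam * ∏ i, (x - α i) = x * (ζ + ζ⁻¹)) :
    (∃ i, π = X - C (α i : ℚ)) ∨ (minpoly ℚ (ζ + ζ⁻¹)).natDegree * k ≤ π.natDegree := by
  obtain ⟨hk, hl, hα0, p, q, M, hp, hq, hpq, hq5, hcp, hcq, hM, hbig, hpM⟩ := hN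
  have hG' : (lam : ℂ) * ∏ i, (x - α i) = (ζ + ζ⁻¹ - t) * x := by linear_combination hG
  by_cases hc : ζ + ζ⁻¹ - t = 0
  · left
    rw [hc, zero_mul] at hG'
    have h1 := (mul_eq_zero.1 hG').resolve_left (by exact_mod_cast hl)
    obtain ⟨i, -, h2⟩ := Finset.prod_eq_zero_iff.1 h1
    refine ⟨i, eq_of_root hm hi ?_⟩
    rw [sub_eq_zero] at h2
    rw [h2] at hx
    exact_mod_cast hx
  right
  have hfin : 0 < orderOf ζ := orderOf_pos_iff.2
    (isOfFinOrder_iff_pow_eq_one.2 ⟨n, Nat.pos_of_ne_zero hn, hζ⟩)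
  have : NeZero (orderOf ζ) := ⟨hfin.ne'⟩
  have hprim := IsPrimitiveRoot.orderOf ζ
  obtain ⟨r, v, e, hr, hrp, he, hvr, hvi, hv1, hvl, hco⟩ := exists_good hprim
    (N := k - 1) (by omega) hl ht hp hq hpq hq5 hcp hcq hc
  have hle : ℚ⟮ζ + ζ⁻¹⟯ ≤ ℚ⟮ζ⟯ := by
    rw [IntermediateField.adjoin_simple_le_iff]
    have hz : ζ ∈ ℚ⟮ζ⟯ := mem_adjoin_simple_self ℚ ζ
    exact add_mem hz (inv_mem hz)
  set j : ℚ⟮ζ + ζ⁻¹⟯ →+* ℚ⟮ζ⟯ := (IntermediateField.inclusion hle).toRingHom with hj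
  set c : ℚ⟮ζ + ζ⁻¹⟯ := AdjoinSimple.gen ℚ (ζ + ζ⁻¹) - t with hcdef
  have hjc : j c = AdjoinSimple.gen ℚ ζ + (AdjoinSimple.gen ℚ ζ)⁻¹ - t := by
    rw [hcdef, map_sub, map_intCast]
    congr 1
  have hηmem : ζ + ζ⁻¹ ∈ ℚ⟮x⟯ := by
    have h1 : ζ + ζ⁻¹ = (t * x + lam * ∏ i, (x - α i)) / x := by
      rw [hG]
      field_simp
    have hxm : x ∈ ℚ⟮x⟯ := mem_adjoin_simple_self ℚ x
    rw [h1]
    refine div_mem (add_mem (mul_mem (intCast_mem _ t) hxm) (mul_mem (intCast_mem _ lam)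
      (prod_mem fun i _ => sub_mem hxm (intCast_mem _ _)))) hxm
  have hres := root_in_K (v.comap j) (k := k) (by omega) (a := fun i => (α i : ℚ⟮ζ + ζ⁻¹⟯))
    (l := (lam : ℚ⟮ζ + ζ⁻¹⟯)) (c := c) (x := x)
    (fun i => by rw [Valuation.comap_apply, map_intCast]; exact hvi _)
    (fun i => by exact_mod_cast hα0 i)
    (by rw [Valuation.comap_apply, map_intCast]; exact hvl)
    (by exact_mod_cast hl)
    (by rw [Valuation.comap_apply, hjc]; exact hv1 (AlgHom.id ℚ _))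
    (by rw [Valuation.comap_apply, map_intCast]; exact hco)
    (by
      rw [map_intCast, hcdef, map_sub, map_intCast, AdjoinSimple.algebraMap_gen]
      simp only [map_intCast]
      exact hG')
  rcases hres with h | ⟨b, hb0, hb⟩
  · rw [deg_tower' hm hi hx hηmem]
    exact Nat.mul_le_mul_left _ h
  · exfalso
    refine no_root hprim hk hα0 hl ht hM hbig hpM hr hrp he hvr hvi hv1 hvl hco
      (x := j b) ((_root_.map_ne_zero j).2 hb0) ?_
    have h1 := congrArg j hb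
    rw [map_mul, map_mul, map_prod, map_intCast, hjc] at h1
    simp only [map_sub, map_intCast] at h1
    exact h1

end Pool.Agent.H442
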