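import Pool.Agent.H442.Main
import Pool.Agent.H442.Ex3
set_option autoImplicit false

/-!
The function field of the curve `y² = (t x + lam ∏ (x - α_i))² - 4 x²` over `ℚ`, and loops.
-/

namespace Pool.Agent.H442

open scoped WithZero Real
open Polynomial

open Pool.Agent.TH826.MK (Torus KQ symb pairing circ norm_circ contDiff_circ circ_add_one
  Unramified unitPart)
open Pool.Agent.TH826.UH (pr NZ pr_mul pr_const nz_circ)
open Pool.Agent.Helper537_Sym
open Pool.Agent.Helper537_All (pu pu_val pu_mul pu_pow pu_C ec e_ne)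

section fieldL

variable (f : ℚ[X]) (L : Type*) [Field L] [Algebra (HRing f) L] [IsFractionRing (HRing f) L]

/-- The embedding of the polynomials in `x`. -/
noncomputable def xe : ℚ[X] →+* L := (algebraMap (HRing f) L).comp (AdjoinRoot.of _)

/-- The function `y`. -/
noncomputable def ye : L := algebraMap (HRing f) L (AdjoinRoot.root _)

theorem xe_inj : Function.Injective (xe f L) :=
  (IsFractionRing.injective (HRing f) L).comp (of_injective _)

omit [IsFractionRing (HRing f) L] in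
theorem ye_sq : ye f L ^ 2 = xe f L f := by
  unfold ye xe
  rw [← map_pow, root_sq]
  rfl

/-- the involution of the coordinate ring -/
noncomputable def tauR : HRing f →+* HRing f :=
  AdjoinRoot.lift (AdjoinRoot.of _) (-AdjoinRoot.root _) (by
    rw [eval₂_sub, eval₂_pow, eval₂_X, eval₂_C, neg_sq, root_sq, sub_self])

theorem tauR_of (P : ℚ[X]) : tauR f (AdjoinRoot.of _ P) = AdjoinRoot.of _ P := by
  unfold tauR
  rw [AdjoinRoot.lift_of]

theorem tauR_root : tauR f (AdjoinRoot.root _) = -AdjoinRoot.root _ := by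
  unfold tauR
  rw [AdjoinRoot.lift_root]

theorem tauR_tauR (r : HRing f) : tauR f (tauR f r) = r := by
  obtain ⟨P, Q, rfl⟩ := exists_el r
  simp only [map_add, map_mul, tauR_of, tauR_root, map_neg, neg_neg]

theorem tauR_inj : Function.Injective ((algebraMap (HRing f) L).comp (tauR f)) := by
  refine (IsFractionRing.injective (HRing f) L).comp fun a b h => ?_
  rw [← tauR_tauR f a, h, tauR_tauR]

theorem exists_sigma [IsDomain (HRing f)] :
    ∃ σ : L →+* L, (∀ P, σ (xe f L P) = xe f L P) ∧ σ (ye f L) = -ye f L := by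
  refine ⟨IsFractionRing.lift (tauR_inj f L), fun P => ?_, ?_⟩
  · unfold xe
    show IsFractionRing.lift (tauR_inj f L) (algebraMap (HRing f) L (AdjoinRoot.of _ P)) = _
    rw [IsFractionRing.lift_algebraMap]
    show algebraMap (HRing f) L (tauR f (AdjoinRoot.of _ P)) = _
    rw [tauR_of]
    rfl
  · unfold ye
    rw [IsFractionRing.lift_algebraMap]
    show algebraMap (HRing f) L (tauR f (AdjoinRoot.root _)) = _
    rw [tauR_root, map_neg]

variable {f L}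

theorem mk_cv {σ : L →+* L} (h1 : ∀ P, σ (xe f L P) = xe f L P) (h2 : σ (ye f L) = -ye f L) :
    Cv (xe f L) σ (ye f L) f := by
  refine ⟨xe_inj f L, ye_sq f L, fun l => ?_, h1, h2⟩
  obtain ⟨a, b, hb, rfl⟩ := IsFractionRing.div_surjective (HRing f) l
  have hnt : Nontrivial (HRing f) := (algebraMap (HRing f) L).domain_nontrivial
  obtain ⟨P, Q, rfl⟩ := exists_el a
  obtain ⟨P', Q', rfl⟩ := exists_el b
  have hne : algebraMap (HRing f) L (AdjoinRoot.of _ P' + AdjoinRoot.of _ Q' *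
      AdjoinRoot.root _) ≠ 0 := by
    rw [Ne, map_eq_zero_iff _ (IsFractionRing.injective (HRing f) L)]
    exact nonZeroDivisors.ne_zero hb
  have e1 : ∀ P Q : ℚ[X], algebraMap (HRing f) L (AdjoinRoot.of _ P + AdjoinRoot.of _ Q *
      AdjoinRoot.root _) = xe f L P + xe f L Q * ye f L := by
    intro P Q
    rw [map_add, map_mul]
    rfl
  rw [e1] at hne
  have hne2 : xe f L P' - xe f L Q' * ye f L ≠ 0 := by
    have h3 : σ (xe f L P' + xe f L Q' * ye f L) = xe f L P' - xe f L Q' * ye f L := by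
      rw [map_add, map_mul, h1, h1, h2]
      ring
    rw [← h3]
    exact (map_ne_zero σ).2 hne
  have hN : xe f L (P' ^ 2 - Q' ^ 2 * f) =
      (xe f L P' + xe f L Q' * ye f L) * (xe f L P' - xe f L Q' * ye f L) := by
    rw [map_sub, map_mul, map_pow, map_pow, ← ye_sq]
    ring
  refine ⟨P * P' - Q * Q' * f, Q * P' - P * Q', P' ^ 2 - Q' ^ 2 * f, ?_, ?_⟩
  · intro h0
    rw [h0, map_zero] at hN
    exact mul_ne_zero hne hne2 hN.symm
  · rw [e1, e1, hN, ← mul_assoc, div_mul_cancel₀ _ hne]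
    simp only [map_sub, map_mul, ← ye_sq]
    ring

end fieldL

/-- The polynomial `(t x + lam ∏ (x - α_i))² - 4 x²`. -/
noncomputable def cvf {k : ℕ} (t : ℤ) (lam : ℚ) (α : Fin k → ℚ) : ℚ[X] :=
  Gx t lam α ^ 2 - 4 * X ^ 2

theorem map_cvf {A : Type*} [CommRing A] (e : ℚ[X] →+* A) {k : ℕ} (t : ℤ) (lam : ℚ)
    (α : Fin k → ℚ) : e (cvf t lam α) = e (Gx t lam α) ^ 2 - 4 * e X ^ 2 := by
  unfold cvf
  rw [map_sub, map_mul, map_pow, map_pow, map_ofNat]

section zz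

variable {k : ℕ} (t : ℤ) (lam : ℚ) (α : Fin k → ℚ) (L : Type*) [Field L]
  [Algebra (HRing (cvf t lam α)) L] [IsFractionRing (HRing (cvf t lam α)) L]

/-- The function `z = (t x + lam ∏ (x - α_i) + y) / (2 x)`. -/
noncomputable def ze : L :=
  (xe (cvf t lam α) L (Gx t lam α) + ye (cvf t lam α) L) / (2 * xe (cvf t lam α) L X)

omit [Algebra (HRing (cvf t lam α)) L] [IsFractionRing (HRing (cvf t lam α)) L] in
theorem two_ne' {e : ℚ[X] →+* L} (he : Function.Injective e) : (2 : L) ≠ 0 := by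
  have h3 := e_ne he (P := C 2) (C_ne_zero.2 two_ne_zero)
  rwa [C_ofNat, map_ofNat] at h3

theorem ze_mul : ze t lam α L *
    ((xe (cvf t lam α) L (Gx t lam α) - ye (cvf t lam α) L) / (2 * xe (cvf t lam α) L X)) = 1 := by
  have h2 := two_ne' L (xe_inj (cvf t lam α) L)
  have hX := e_ne (xe_inj (cvf t lam α) L) (P := X) X_ne_zero
  have hy := ye_sq (cvf t lam α) L
  have h4 := map_cvf (xe (cvf t lam α) L) t lam α
  rw [h4] at hy
  unfold ze
  field_simp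
  linear_combination -hy

theorem ze_ne : ze t lam α L ≠ 0 := left_ne_zero_of_mul_eq_one (ze_mul t lam α L)

/-- The unit `z`. -/
noncomputable def zu : Lˣ := Units.mk0 _ (ze_ne t lam α L)

theorem zu_inv : (((zu t lam α L)⁻¹ : Lˣ) : L) =
    (xe (cvf t lam α) L (Gx t lam α) - ye (cvf t lam α) L) / (2 * xe (cvf t lam α) L X) := by
  rw [Units.val_inv_eq_inv_val]
  exact inv_eq_of_mul_eq_one_right (ze_mul t lam α L)

variable {t lam α L}

theorem mk_cx (hk : 2 ≤ k) (ht : |t| ≤ 2) (hl : lam ≠ 0) (ha : ∀ i, α i ≠ 0) {σ : L →+* L}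
    (h1 : ∀ P, σ (xe (cvf t lam α) L P) = xe (cvf t lam α) L P)
    (h2 : σ (ye (cvf t lam α) L) = -ye (cvf t lam α) L) :
    Cx (xe (cvf t lam α) L) σ (ye (cvf t lam α) L) (cvf t lam α) t lam α (zu t lam α L) := by
  have hX := e_ne (xe_inj (cvf t lam α) L) (P := X) X_ne_zero
  have h2' := two_ne' L (xe_inj (cvf t lam α) L)
  refine ⟨mk_cv h1 h2, hk, ht, hl, ha, ?_, ?_⟩
  · rw [zu_inv]
    show _ * (ze t lam α L + _) = _
    unfold ze
    field_simp
    ring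
  · apply Units.ext
    rw [zu_inv]
    show σ (ze t lam α L) = _
    unfold ze
    rw [map_div₀, map_add, map_mul, h1, h1, h2, map_ofNat, ← sub_eq_add_neg]

end zz

/-! ### loops -/

section loops

variable {g : ℕ} {t : ℤ} {lam : ℚ} {α : Fin (g + 1) → ℚ} {ρ R : ℝ} {Xs : Fin (g + 1) → ℝ → ℂ}

/-- the loops in the coordinate `x` -/
noncomputable def xl5 (ρ : ℝ) (Xs : Fin (g + 1) → ℝ → ℂ) (j : Fin (g + 1)) (s : ℝ) : ℂ :=
  Xs j s / ρ

theorem gx_eval (t : ℤ) (lam : ℚ) (α : Fin (g + 1) → ℚ) (x : ℂ) :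
    (Gx t lam α).eval₂ (algebraMap ℚ ℂ) x = t * x + lam * ∏ i, (x - α i) := by
  unfold Gx
  simp only [eval₂_add, eval₂_mul, eval₂_C, eval₂_X, eval₂_finsetProd, eval₂_sub,
    eq_ratCast, Rat.cast_intCast]

theorem xl5_eq (hρ : 0 < ρ) (hρg : ρ ^ g = (lam : ℝ))
    (H : Lp (fun i => (ρ : ℂ) * (α i : ℂ)) t R Xs) (j : Fin (g + 1)) (s : ℝ) :
    xl5 ρ Xs j s * ((circ R s) ^ 2 + 1) =
      (t * xl5 ρ Xs j s + lam * ∏ i, (xl5 ρ Xs j s - α i)) * circ R s := by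
  have h1 := H.eq j s
  have hρ' : (ρ : ℂ) ≠ 0 := by exact_mod_cast hρ.ne'
  have h2 : ∏ i, (Xs j s - (ρ : ℂ) * (α i : ℂ)) = (ρ : ℂ) * (lam * ∏ i, (xl5 ρ Xs j s - α i)) := by
    have h3 : ∀ i, Xs j s - (ρ : ℂ) * (α i : ℂ) = ρ * (xl5 ρ Xs j s - α i) := by
      intro i
      unfold xl5
      field_simp
    have h4 : (ρ : ℂ) ^ (g + 1) = ρ * lam := by
      have h5 : ((ρ : ℂ)) ^ g = lam := by
        have h6 := congrArg (fun x : ℝ => (x : ℂ)) hρg
        simpa using h6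
      rw [pow_succ, h5, mul_comm]
    simp only [h3, Finset.prod_mul_distrib, Finset.prod_const, Finset.card_univ, Fintype.card_fin,
      h4]
    ring
  have h3 : Xs j s = ρ * xl5 ρ Xs j s := by
    unfold xl5
    field_simp
  rw [h2] at h1
  have h4 : (ρ : ℂ) * (xl5 ρ Xs j s * ((circ R s) ^ 2 + 1)) =
      ρ * ((t * xl5 ρ Xs j s + lam * ∏ i, (xl5 ρ Xs j s - α i)) * circ R s) := by
    calc (ρ : ℂ) * (xl5 ρ Xs j s * ((circ R s) ^ 2 + 1)) = Xs j s * ((circ R s) ^ 2 + 1) := by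
          rw [h3]; ring
      _ = _ := h1
      _ = _ := by
          rw [h3]
          ring
  exact mul_left_cancel₀ hρ' h4

theorem xl5_ne0 (hρ : 0 < ρ) (H : Lp (fun i => (ρ : ℂ) * (α i : ℂ)) t R Xs) (j : Fin (g + 1))
    (s : ℝ) : xl5 ρ Xs j s ≠ 0 :=
  div_ne_zero (H.ne0 j s) (by exact_mod_cast hρ.ne')

theorem xl5_tr (hρ : 0 < ρ) (hρg : ρ ^ g = (lam : ℝ))
    (H : Lp (fun i => (ρ : ℂ) * (α i : ℂ)) t R Xs) (hR : Transcendental ℚ R) (j : Fin (g + 1))
    (s : ℝ) : xl5 ρ Xs j s ∉ EE := by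
  intro h
  have hR0 : 0 < R := one_pos.trans H.R1
  have hz : circ R s ∉ EE := not_mem_EE.2 (transcendental_of_norm hR (norm_circ hR0.le s))
  apply hz
  have hq : ∀ q : ℚ, (q : ℂ) ∈ EE := fun q => EE.algebraMap_mem q
  refine quad_mem_EE (b := t + (lam * ∏ i, (xl5 ρ Xs j s - α i)) / xl5 ρ Xs j s) ?_ ?_
  · exact add_mem (intCast_mem _ t) (div_mem (mul_mem (hq lam)
      (prod_mem fun i _ => sub_mem h (hq (α i)))) h)
  · have h1 := xl5_eq hρ hρg H j s
    have h2 := xl5_ne0 hρ H j s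
    field_simp
    linear_combination h1

/-- the loops in the coordinate `y` -/
noncomputable def yl5 (t : ℤ) (lam : ℚ) (α : Fin (g + 1) → ℚ) (ρ R : ℝ)
    (Xs : Fin (g + 1) → ℝ → ℂ) (j : Fin (g + 1)) (s : ℝ) : ℂ :=
  2 * xl5 ρ Xs j s * circ R s - (t * xl5 ρ Xs j s + lam * ∏ i, (xl5 ρ Xs j s - α i))

theorem yl5_sq (hρ : 0 < ρ) (hρg : ρ ^ g = (lam : ℝ))
    (H : Lp (fun i => (ρ : ℂ) * (α i : ℂ)) t R Xs) (j : Fin (g + 1)) (s : ℝ) :
    yl5 t lam α ρ R Xs j s ^ 2 = (cvf t lam α).eval₂ (algebraMap ℚ ℂ) (xl5 ρ Xs j s) := by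
  have h1 := xl5_eq hρ hρg H j s
  unfold cvf yl5
  rw [eval₂_sub, eval₂_pow, gx_eval, eval₂_mul, eval₂_pow, eval₂_X, eval₂_ofNat]
  linear_combination (4 * xl5 ρ Xs j s) * h1

/-- The tori. -/
theorem exists_tori5 (hρ : 0 < ρ) (hρg : ρ ^ g = (lam : ℝ))
    (H : Lp (fun i => (ρ : ℂ) * (α i : ℂ)) t R Xs) (hR : Transcendental ℚ R)
    (hf : Squarefree (cvf t lam α)) (hd : 0 < (cvf t lam α).natDegree)
    (L : Type*) [Field L] [Algebra (HRing (cvf t lam α)) L]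
    [IsFractionRing (HRing (cvf t lam α)) L] :
    ∃ Γ : Fin (g + 1) → Torus L 1, ∀ j θ,
      (∀ P, (Γ j).e θ (xe (cvf t lam α) L P) = P.eval₂ (algebraMap ℚ ℂ) (xl5 ρ Xs j (θ 0))) ∧
      (Γ j).e θ (zu t lam α L : L) = circ R (θ 0) := by
  have hρ' : (ρ : ℂ) ≠ 0 := by exact_mod_cast hρ.ne'
  have hxc : ∀ j, ContDiff ℝ 2 (xl5 ρ Xs j) := by
    intro j
    have e1 : xl5 ρ Xs j = fun s => Xs j s * (ρ : ℂ)⁻¹ := by
      funext s
      unfold xl5
      rw [div_eq_mul_inv]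
    rw [e1]
    exact (H.smooth j).mul contDiff_const
  have hyc : ∀ j, ContDiff ℝ 2 (yl5 t lam α ρ R Xs j) := fun j =>
    ((contDiff_const.mul (hxc j)).mul (contDiff_circ R)).sub
      ((contDiff_const.mul (hxc j)).add (contDiff_const.mul (contDiff_prod fun i _ =>
        (hxc j).sub contDiff_const)))
  have hx1 : ∀ j s, xl5 ρ Xs j (s + 1) = xl5 ρ Xs j s := by
    intro j s
    unfold xl5
    rw [H.per]
  have hy1 : ∀ j s, yl5 t lam α ρ R Xs j (s + 1) = yl5 t lam α ρ R Xs j s := by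
    intro j s
    unfold yl5
    rw [hx1, circ_add_one]
  have hP := fun j s => yl5_sq hρ hρg H j s
  have hi := fun j s => evH_inj (algebraMap ℚ ℂ) hf hd (hP j s)
    (TrOver.of_rat (algebraMap ℚ ℂ) (not_mem_EE.1 (xl5_tr hρ hρg H hR j s)))
  refine ⟨fun j => mkT L (hxc j) (hyc j) (hx1 j) (hy1 j) (hP j) (hi j), fun j θ => ?_⟩
  have hphi : ∀ p : ℚ[X], (mkT L (hxc j) (hyc j) (hx1 j) (hy1 j) (hP j) (hi j)).e θ
      (xe (cvf t lam α) L p) = p.eval₂ (algebraMap ℚ ℂ) (xl5 ρ Xs j (θ 0)) := by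
    intro p
    have h1 := mkT_e (L := L) (hxc j) (hyc j) (hx1 j) (hy1 j) (hP j) (hi j) θ
      (AdjoinRoot.of _ p)
    rw [evH_of] at h1
    exact h1
  have hroot : (mkT L (hxc j) (hyc j) (hx1 j) (hy1 j) (hP j) (hi j)).e θ
      (ye (cvf t lam α) L) = yl5 t lam α ρ R Xs j (θ 0) := by
    have h1 := mkT_e (L := L) (hxc j) (hyc j) (hx1 j) (hy1 j) (hP j) (hi j) θ
      (AdjoinRoot.root _)
    rw [evH_root] at h1
    exact h1
  refine ⟨hphi, ?_⟩
  show (mkT L (hxc j) (hyc j) (hx1 j) (hy1 j) (hP j) (hi j)).e θ (ze t lam α L) = _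
  unfold ze
  rw [map_div₀, map_add, map_mul, hphi, hroot, hphi, map_ofNat, gx_eval, eval₂_X]
  have h0 := xl5_ne0 hρ H j (θ 0)
  unfold yl5
  field_simp
  ring

/-- The regulators of the classes. -/
theorem reg_cls (hg : 1 ≤ g) (hρ : 0 < ρ) (hρg : ρ ^ g = (lam : ℝ)) (hl : lam ≠ 0)
    (H : Lp (fun i => (ρ : ℂ) * (α i : ℂ)) t R Xs)
    (L : Type*) [Field L] [Algebra (HRing (cvf t lam α)) L]
    [IsFractionRing (HRing (cvf t lam α)) L] (Γ : Torus L 1) (j : Fin (g + 1))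
    (hΓ : ∀ θ, (∀ P, Γ.e θ (xe (cvf t lam α) L P) =
      P.eval₂ (algebraMap ℚ ℂ) (xl5 ρ Xs j (θ 0))) ∧
      Γ.e θ (zu t lam α L : L) = circ R (θ 0)) (n : Fin (g + 1) → ℚ) :
    Γ.reg (cls (xe (cvf t lam α) L) (zu t lam α L) lam α n) =
      ∑ i, (n i : ℝ) * pr (circ R) (fun s => Xs j s - (ρ : ℂ) * (α i : ℂ)) := by
  have hR0 : 0 < R := one_pos.trans H.R1
  have hz := nz_circ hR0
  have hρ' : (ρ : ℂ) ≠ 0 := by exact_mod_cast hρ.ne'
  have hinj := xe_inj (cvf t lam α) L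
  have hreg : ∀ (P : ℚ[X]), P ≠ 0 → NZ (fun s => P.eval₂ (algebraMap ℚ ℂ) (xl5 ρ Xs j s)) →
      Γ.reg (sy (zu t lam α L) (pu (xe (cvf t lam α) L) P)) =
        pr (circ R) (fun s => P.eval₂ (algebraMap ℚ ℂ) (xl5 ρ Xs j s)) := by
    intro P hP hNZ
    have h1 := reg_sy Γ (zu t lam α L) (fun _ : Fin 1 => pu (xe (cvf t lam α) L) P)
      (fun _ => 1) (Z := circ R) (W := fun _ s => P.eval₂ (algebraMap ℚ ℂ) (xl5 ρ Xs j s))
      (fun θ => (hΓ θ).2) (fun _ θ => by rw [pu_val hinj hP]; exact (hΓ θ).1 P) hz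
      (fun _ => hNZ)
    simpa using h1
  have nzX : ∀ i, NZ (fun s => Xs j s - (ρ : ℂ) * (α i : ℂ)) := fun i =>
    ⟨(H.smooth j).sub contDiff_const, fun s => sub_ne_zero.2 (H.ne i j s)⟩
  have nzc : ∀ c : ℂ, c ≠ 0 → NZ (fun _ : ℝ => c) := fun c hc =>
    ⟨contDiff_const, fun _ => hc⟩
  have hlog : Real.log (lam : ℝ) = g * Real.log ρ := by
    rw [← hρg, Real.log_pow]
  have hterm : ∀ i, Γ.reg (sy (zu t lam α L) (pu (xe (cvf t lam α) L) (X - C (α i))) +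
      ((g + 1 - 1 : ℕ) : ℚ)⁻¹ • sy (zu t lam α L) (pu (xe (cvf t lam α) L) (C lam))) =
      pr (circ R) (fun s => Xs j s - (ρ : ℂ) * (α i : ℂ)) := by
    intro i
    have e1 : (fun s => (X - C (α i)).eval₂ (algebraMap ℚ ℂ) (xl5 ρ Xs j s)) =
        fun s => (ρ : ℂ)⁻¹ * (Xs j s - (ρ : ℂ) * (α i : ℂ)) := by
      funext s
      rw [eval₂_sub, eval₂_X, eval₂_C, eq_ratCast]
      unfold xl5
      field_simp
    have e2 : (fun s => (C lam).eval₂ (algebraMap ℚ ℂ) (xl5 ρ Xs j s)) =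
        fun _ => (lam : ℂ) := by
      funext s
      rw [eval₂_C, eq_ratCast]
    have hlc : (lam : ℂ) ≠ 0 := by exact_mod_cast hl
    have n1 := (nzc _ (inv_ne_zero hρ')).mul (nzX i)
    rw [map_add, map_smul, hreg _ (X_sub_C_ne_zero _) (by rw [e1]; exact n1),
      hreg _ (C_ne_zero.2 hl) (by rw [e2]; exact nzc _ hlc), e1, e2,
      pr_mul hz (nzc _ (inv_ne_zero hρ')) (nzX i), pr_const hR0, pr_const hR0]
    have h1 : ‖(ρ : ℂ)⁻¹‖ = ρ⁻¹ := by
      rw [norm_inv, Complex.norm_real, Real.norm_eq_abs, abs_of_pos hρ]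
    have h2 : ‖(lam : ℂ)‖ = |(lam : ℝ)| := by
      rw [← Complex.ofReal_ratCast, Complex.norm_real, Real.norm_eq_abs]
    rw [h1, h2, Real.log_abs, hlog, Real.log_inv, Nat.add_sub_cancel, Rat.smul_def]
    have h3 : ((g : ℕ) : ℝ) ≠ 0 := by positivity
    push_cast
    field_simp
    ring
  unfold cls
  rw [map_sum]
  refine Finset.sum_congr rfl fun i _ => ?_
  rw [map_smul, hterm, Rat.smul_def]

end loops

end Pool.Agent.H442
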