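import Pool.Agent.H442.Main
set_option autoImplicit false

/-!
The case of rational numbers `α_i = ± s^{a_i}`: `g` independent classes in genus `g`.
-/

namespace Pool.Agent.H442

open Polynomial

open scoped WithZero Real

open Pool.Agent.TH826.MK (Torus KQ symb Unramified)

open Pool.Agent.Helper537_Sym (sy)

/-- The ring is a domain. -/
theorem isDomain_HRing {K : Type*} [Field K] [Algebra ℚ K] [Algebra.IsAlgebraic ℚ K]
    (σ : K →+* ℂ) {f : K[X]} (hf : Squarefree f) (hd : 0 < f.natDegree) :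
    IsDomain (HRing f) := by
  obtain ⟨R, hR, -, hRt⟩ := exists_radius_tr (η := 1) one_pos
  have hx : Transcendental ℚ (R : ℂ) :=
    transcendental_of_norm hRt (by
      rw [Complex.norm_real, Real.norm_eq_abs, abs_of_pos (one_pos.trans hR)])
  obtain ⟨y, hy⟩ := IsAlgClosed.exists_pow_nat_eq (f.eval₂ σ (R : ℂ)) (n := 2) (by norm_num)
  exact (evH_inj σ hf hd hy (TrOver.of_rat σ hx)).isDomain

theorem natDegree_lin_le {K : Type*} [Field K] (a b : K) : (lin a b).natDegree ≤ 1 :=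
  natDegree_linear_le

theorem natDegree_fam_le {K : Type*} [Field K] {k : ℕ} (hk : 1 ≤ k) (t : ℤ) (α : Fin k → K)
    (m : Fin 4 → K) : (fam t α m).natDegree ≤ 2 * k := by
  have h1 : (lin (m 0) (m 1)).natDegree ≤ 1 := natDegree_lin_le _ _
  have h2 : (lin (m 2) (m 3)).natDegree ≤ 1 := natDegree_lin_le _ _
  have h3 : (lin (m 2) (m 3) ^ (k - 1)).natDegree ≤ k - 1 :=
    (natDegree_pow_le).trans (by
      calc (k - 1) * (lin (m 2) (m 3)).natDegree ≤ (k - 1) * 1 := Nat.mul_le_mul_left _ h2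
        _ = k - 1 := mul_one _)
  have h4 : (Ufam t α m).natDegree ≤ k := by
    unfold Ufam
    refine (natDegree_add_le _ _).trans (max_le ?_ ?_)
    · refine (natDegree_prod_le _ _).trans ?_
      calc ∑ i, (lin (m 0) (m 1) - C (α i) * lin (m 2) (m 3)).natDegree ≤ ∑ _i : Fin k, 1 := by
            refine Finset.sum_le_sum fun i _ => ?_
            rw [lin_sub]
            exact natDegree_lin_le _ _
        _ = k := by simp
    · refine (natDegree_mul_le).trans ?_
      have h5 : ((t : K[X]) * lin (m 0) (m 1)).natDegree ≤ 1 := by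
        refine (natDegree_mul_le).trans ?_
        rw [natDegree_intCast]
        omega
      omega
  unfold fam
  refine (natDegree_sub_le _ _).trans (max_le ?_ ?_)
  · refine (natDegree_pow_le).trans ?_
    omega
  · refine (natDegree_mul_le).trans ?_
    have h6 : (4 * lin (m 0) (m 1) ^ 2).natDegree ≤ 2 := by
      refine (natDegree_mul_le).trans ?_
      have h7 : (lin (m 0) (m 1) ^ 2).natDegree ≤ 2 := (natDegree_pow_le).trans (by omega)
      have h8 : (4 : K[X]).natDegree = 0 := natDegree_ofNat 4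
      omega
    have h9 : ((lin (m 2) (m 3) ^ (k - 1)) ^ 2).natDegree ≤ 2 * (k - 1) :=
      (natDegree_pow_le).trans (Nat.mul_le_mul_left _ h3)
    omega

/-- The numbers `± s^a`. -/
noncomputable def al {k : ℕ} (s : ℕ) (ε : Fin k → ℤˣ) (a : Fin k → ℕ) (i : Fin k) : ℚ :=
  ((ε i : ℤ) : ℚ) * (s : ℚ) ^ a i

theorem norm_al {k : ℕ} (s : ℕ) (ε : Fin k → ℤˣ) (a : Fin k → ℕ) (i : Fin k) (σ : ℚ →+* ℂ) :
    ‖σ (al s ε a i)‖ = (s : ℝ) ^ a i := by
  unfold al
  rw [map_mul, map_pow, map_intCast, map_natCast, norm_mul, norm_pow, Complex.norm_natCast,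
    Complex.norm_intCast]
  rcases Int.units_eq_one_or (ε i) with h | h <;> simp [h]

theorem sep_al {k : ℕ} {s : ℕ} (hs : 2 ≤ s) {ε : Fin k → ℤˣ} {a : Fin k → ℕ}
    (hinj : Function.Injective fun i => (ε i, a i)) (σ : ℚ →+* ℂ) {i j : Fin k} (hij : i ≠ j) :
    max ‖σ (al s ε a i)‖ ‖σ (al s ε a j)‖ ≤ 2 * ‖σ (al s ε a i) - σ (al s ε a j)‖ := by
  have hs' : (2 : ℝ) ≤ s := by exact_mod_cast hs
  -- the case `a i < a j`
  have key : ∀ i j : Fin k, a i < a j →
      max ‖σ (al s ε a i)‖ ‖σ (al s ε a j)‖ ≤ 2 * ‖σ (al s ε a i) - σ (al s ε a j)‖ := by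
    intro i j h
    have h1 := norm_sub_norm_le (σ (al s ε a j)) (σ (al s ε a i))
    rw [norm_al, norm_al, norm_sub_rev] at h1
    have h2 : 2 * (s : ℝ) ^ a i ≤ (s : ℝ) ^ a j := by
      calc 2 * (s : ℝ) ^ a i ≤ s * (s : ℝ) ^ a i :=
            mul_le_mul_of_nonneg_right hs' (by positivity)
        _ = (s : ℝ) ^ (a i + 1) := by rw [pow_succ]; ring
        _ ≤ (s : ℝ) ^ a j := pow_le_pow_right₀ (by linarith) h
    rw [norm_al, norm_al, max_eq_right (by
      have : (0 : ℝ) ≤ (s : ℝ) ^ a i := by positivity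
      linarith)]
    linarith
  rcases lt_trichotomy (a i) (a j) with h | h | h
  · exact key i j h
  · have hε : ε i ≠ ε j := fun he => hij (hinj (Prod.ext he h))
    have hε2 : ε i = -ε j := by
      rcases Int.units_eq_one_or (ε i) with h1 | h1 <;>
        rcases Int.units_eq_one_or (ε j) with h2 | h2
      · exact absurd (h1.trans h2.symm) hε
      · rw [h1, h2, neg_neg]
      · rw [h1, h2]
      · exact absurd (h1.trans h2.symm) hε
    have e1 : al s ε a i = -al s ε a j := by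
      unfold al
      rw [hε2, h]
      push_cast
      ring
    rw [e1, map_neg, norm_neg, max_self]
    have e2 : -σ (al s ε a j) - σ (al s ε a j) = -(2 * σ (al s ε a j)) := by ring
    rw [e2, norm_neg, norm_mul]
    have := norm_nonneg (σ (al s ε a j))
    rw [show ‖(2 : ℂ)‖ = 2 by norm_num]
    linarith
  · rw [max_comm, norm_sub_rev]
    exact key j i h

theorem al_ne_zero {k : ℕ} {s : ℕ} (hs : 2 ≤ s) (ε : Fin k → ℤˣ) (a : Fin k → ℕ) (i : Fin k) :
    al s ε a i ≠ 0 := by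
  unfold al
  refine mul_ne_zero ?_ (pow_ne_zero _ (by
    have : (s : ℚ) ≠ 0 := by
      have : s ≠ 0 := by omega
      exact_mod_cast this
    exact this))
  rcases Int.units_eq_one_or (ε i) with h | h <;> simp [h]

/-- the exponents of the relations -/
def nu {g : ℕ} (a : Fin (g + 1) → ℕ) (p : Fin (g + 1)) (j : Fin g) (i : Fin (g + 1)) : ℤ :=
  if i = p.succAbove j then a p else if i = p then -(a (p.succAbove j) : ℤ) else 0

theorem rel_nu {g : ℕ} {s : ℕ} (hs : 2 ≤ s) (ε : Fin (g + 1) → ℤˣ) (a : Fin (g + 1) → ℕ)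
    (p : Fin (g + 1)) (j : Fin g) : Rel (al s ε a) (nu a p j) := by
  refine ⟨2, two_ne_zero, ?_⟩
  have hs0 : (s : ℚ) ≠ 0 := by
    have : s ≠ 0 := by omega
    exact_mod_cast this
  have hsq : ∀ i, (((ε i : ℤ) : ℚ)) ^ 2 = 1 := by
    intro i
    rcases Int.units_eq_one_or (ε i) with h | h <;> simp [h]
  have hε0 : ∀ i, (((ε i : ℤ) : ℚ)) ≠ 0 := by
    intro i h
    have := hsq i
    rw [h] at this
    norm_num at this
  have e1 : ∀ i (n : ℤ), (al s ε a i ^ n) ^ 2 = ((s : ℚ) ^ (a i * n)) ^ 2 := by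
    intro i n
    unfold al
    rw [mul_zpow, mul_pow, ← zpow_natCast (((ε i : ℤ) : ℚ) ^ n), ← zpow_mul, mul_comm n,
      zpow_mul, zpow_natCast, hsq, one_zpow, one_mul, zpow_mul]
    norm_cast
  rw [← Finset.prod_pow]
  simp only [e1]
  rw [Finset.prod_pow]
  have e2 : ∏ i, (s : ℚ) ^ ((a i : ℤ) * nu a p j i) = 1 := by
    rw [Fin.prod_univ_succAbove _ p, Finset.prod_eq_single j]
    · have h1 : nu a p j p = -(a (p.succAbove j) : ℤ) := by
        unfold nu
        rw [if_neg (Fin.succAbove_ne p j).symm, if_pos rfl]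
      have h2 : nu a p j (p.succAbove j) = a p := by
        unfold nu
        rw [if_pos rfl]
      rw [h1, h2, ← zpow_add₀ hs0]
      have : (a p : ℤ) * -(a (p.succAbove j) : ℤ) + (a (p.succAbove j) : ℤ) * a p = 0 := by ring
      rw [this, zpow_zero]
    · intro l _ hl
      have h1 : nu a p j (p.succAbove l) = 0 := by
        unfold nu
        rw [if_neg (fun h => hl (Fin.succAbove_right_injective h)),
          if_neg (Fin.succAbove_ne p l)]
      rw [h1, mul_zero, zpow_zero]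
    · intro h
      exact absurd (Finset.mem_univ j) h
  rw [e2, one_pow]

theorem nu_indep {g : ℕ} {a : Fin (g + 1) → ℕ} {p : Fin (g + 1)} (hp : a p ≠ 0)
    (c : Fin g → ℝ) (h : ∀ i, ∑ j, c j * (nu a p j i : ℝ) = 0) : ∀ j, c j = 0 := by
  intro j
  have h1 := h (p.succAbove j)
  rw [Finset.sum_eq_single j] at h1
  · have h2 : nu a p j (p.succAbove j) = a p := by
      unfold nu
      rw [if_pos rfl]
    rw [h2] at h1
    rcases mul_eq_zero.1 h1 with h3 | h3
    · exact h3
    · exact absurd (by exact_mod_cast h3) hp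
  · intro l _ hl
    have h3 : nu a p l (p.succAbove j) = 0 := by
      unfold nu
      rw [if_neg (fun h => hl (Fin.succAbove_right_injective h).symm),
        if_neg (Fin.succAbove_ne p j)]
    rw [h3]
    simp
  · intro h
    exact absurd (Finset.mem_univ j) h

/-- Full rank over the rational numbers. -/
theorem qfam {g : ℕ} (hg : 1 ≤ g) {s : ℕ} (hs : 2 ≤ s) {a : Fin (g + 1) → ℕ}
    {ε : Fin (g + 1) → ℤˣ} (hinj : Function.Injective fun i => (ε i, a i)) {p : Fin (g + 1)}
    (hbig : 2 ^ (8 * (g + 1) ^ 2) < s ^ a p) {t : ℤ} (ht : |t| ≤ 2) {m : Fin 4 → ℚ}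
    (hm : m 0 * m 3 - m 1 * m 2 ≠ 0) (hd : 0 < (fam t (al s ε a) m).natDegree)
    (L : Type*) [Field L] [Algebra (HRing (fam t (al s ε a) m)) L]
    [IsFractionRing (HRing (fam t (al s ε a) m)) L] :
    ∃ w : Fin g → KQ L 2, (∀ j, w j ∈ Unramified L 2) ∧
      ∃ Γ : Fin g → Torus L 1, (Matrix.of fun l j => (Γ l).reg (w j)).det ≠ 0 := by
  set σ : ℚ →+* ℂ := algebraMap ℚ ℂ
  have hint : ∀ i, IsIntegral ℤ (al s ε a i) := by
    intro i
    have h1 : al s ε a i = algebraMap ℤ ℚ ((ε i : ℤ) * (s : ℤ) ^ a i) := by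
      unfold al
      simp
    rw [h1]
    exact isIntegral_algebraMap
  have h1 : ∀ i, 1 ≤ ‖σ (al s ε a i)‖ := by
    intro i
    rw [norm_al]
    exact one_le_pow₀ (by
      have : 1 ≤ s := by omega
      exact_mod_cast this)
  have hbig' : (2 : ℝ) ^ (8 * (g + 1) ^ 2) < ‖σ (al s ε a p)‖ := by
    rw [norm_al]
    exact_mod_cast hbig
  have hp : a p ≠ 0 := by
    intro h
    rw [h, pow_zero] at hbig
    have : 1 ≤ 2 ^ (8 * (g + 1) ^ 2) := Nat.one_le_two_pow
    omega
  obtain ⟨z, w, Γ, hU, hI⟩ := main σ hg hint h1 (fun i j hij => sep_al hs hinj σ hij) hbig' ht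
    hm hd L
  refine ⟨fun j => sy z (∏ i, w i ^ nu a p j i), fun j => hU _ (rel_nu hs ε a p j),
    fun l => Γ l.succ, fun hdet => ?_⟩
  obtain ⟨c, hc0, hc⟩ := Matrix.exists_mulVec_eq_zero_iff.2 hdet
  apply hc0
  have h2 := hI g (nu a p) (fun j => rel_nu hs ε a p j) (nu_indep hp) c (fun l => by
    have h3 := congrFun hc l
    rw [Matrix.mulVec, dotProduct, Pi.zero_apply] at h3
    rw [← h3]
    refine Finset.sum_congr rfl fun j _ => ?_
    rw [Matrix.of_apply, mul_comm])
  exact funext h2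

end Pool.Agent.H442
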