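import Pool.Agent.H442.Ex5
import Pool.Agent.H442.Ex4
import Pool.Agent.H442.QFam
import Pool.Graph.R_pool_sql_team_seeded_620a6dc7.Helper537_Sym.Iso
set_option autoImplicit false

/-!
The exact structure of the space of classes and its regulator.
-/

namespace Pool.Agent.H442

open scoped WithZero TensorProduct
open Polynomial

open Pool.Agent.TH826.MK (Torus KQ symb pairing circ norm_circ contDiff_circ circ_add_one
  Unramified unitPart val_le_one_of_integral)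
open Pool.Agent.TH826.UH (pr NZ pr_mul pr_const nz_circ)
open Pool.Agent.Helper537_Sym
open Pool.Agent.Helper537_All (pu pu_val pu_mul pu_pow pu_C ec e_ne)
open Pool.Agent.Helper537_Cos (HUnr unr_le_hor)

/-! ### linear algebra -/

theorem regR_inj {g r : ℕ} {L : Type*} [Field L] (Γ : Fin g → Torus L 1) (e : Fin r → KQ L 2)
    (h : ∀ c : Fin r → ℝ, (∀ l, ∑ j, c j * (Γ l).reg (e j) = 0) → ∀ j, c j = 0) :
    Module.finrank ℚ (Submodule.span ℚ (Set.range e)) = r ∧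
      Function.Injective (regR Γ (Submodule.span ℚ (Set.range e))) := by
  let ℓ : KQ L 2 →ₗ[ℚ] (Fin g → ℝ) := LinearMap.pi fun l => (Γ l).reg
  have hl : LinearIndependent ℝ (fun k => ℓ (e k)) := by
    rw [Fintype.linearIndependent_iff]
    intro c hc
    refine h c fun l => ?_
    have h1 := congrFun hc l
    rw [Finset.sum_apply, Pi.zero_apply] at h1
    rw [← h1]
    exact Finset.sum_congr rfl fun j _ => rfl
  have hl2 : LinearIndependent ℚ (fun k => ℓ (e k)) :=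
    hl.restrict_scalars (by
      intro x y h
      have h2 : (x : ℝ) = (y : ℝ) := by simpa [Algebra.smul_def] using h
      exact_mod_cast h2)
  have hli : LinearIndependent ℚ e := LinearIndependent.of_comp ℓ hl2
  refine ⟨by rw [finrank_span_eq_card hli, Fintype.card_fin], ?_⟩
  set B := Module.Basis.span hli with hB
  have hval : ∀ j, regR Γ (Submodule.span ℚ (Set.range e)) (B.baseChange ℝ j) = ℓ (e j) := by
    intro j
    funext l
    rw [Module.Basis.baseChange_apply, regR_tmul, one_mul, hB, Module.Basis.span_apply]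
    rfl
  rw [injective_iff_map_eq_zero]
  intro x hx
  have h1 := (B.baseChange ℝ).sum_repr x
  rw [← h1, map_sum] at hx
  simp only [map_smul, hval] at hx
  have h2 := (Fintype.linearIndependent_iff.1 hl) _ hx
  rw [← h1]
  exact Finset.sum_eq_zero fun j _ => by rw [h2 j, zero_smul]

theorem regR_bij {g : ℕ} {L : Type*} [Field L] (Γ : Fin g → Torus L 1)
    (W : Submodule ℚ (KQ L 2)) (hfd : FiniteDimensional ℚ W) (hW : Module.finrank ℚ W = g)
    (hi : Function.Injective (regR Γ W)) : Function.Bijective (regR Γ W) := by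
  refine ⟨hi, ?_⟩
  have h1 : Module.finrank ℝ (ℝ ⊗[ℚ] W) = Module.finrank ℝ (Fin g → ℝ) := by
    rw [Module.finrank_baseChange, hW, Module.finrank_fin_fun]
  exact (LinearMap.injective_iff_surjective_of_finrank_eq_finrank h1).1 hi

/-- Rational vectors which are independent over `ℚ` are independent over `ℝ`. -/
theorem real_indep {r k : ℕ} {ν : Fin r → Fin k → ℚ} (h : LinearIndependent ℚ ν)
    (c : Fin r → ℝ) (hc : ∀ i, ∑ j, c j * (ν j i : ℝ) = 0) : ∀ j, c j = 0 := by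
  intro j
  rw [← Module.forall_dual_apply_eq_zero_iff ℚ]
  intro φ
  have h1 : ∑ j, φ (c j) • ν j = 0 := by
    funext i
    rw [Finset.sum_apply, Pi.zero_apply]
    have h2 := congrArg φ (hc i)
    rw [map_sum, map_zero] at h2
    rw [← h2]
    refine Finset.sum_congr rfl fun j _ => ?_
    rw [Pi.smul_apply, smul_eq_mul]
    have h3 : c j * (ν j i : ℝ) = ν j i • c j := by rw [Rat.smul_def, mul_comm]
    rw [h3, map_smul, smul_eq_mul, mul_comm]
  exact (Fintype.linearIndependent_iff.1 h) _ h1 j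

/-! ### relations -/

theorem sq_eq_one_of_val {q : ℚ} (hq : q ≠ 0) (h : ∀ p : ℕ, p.Prime → padicValRat p q = 0) :
    q ^ 2 = 1 := by
  have hnum : q.num.natAbs = 1 := by
    by_contra hne
    obtain ⟨p, hp, hpd⟩ := Nat.exists_prime_and_dvd hne
    have : Fact p.Prime := ⟨hp⟩
    have h1 := h p hp
    rw [padicValRat_def] at h1
    have h2 : 0 < padicValInt p q.num := by
      unfold padicValInt
      exact one_le_padicValNat_of_dvd (Int.natAbs_ne_zero.2 (Rat.num_ne_zero.2 hq)) hpd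
    have h3 : padicValNat p q.den = 0 := by
      refine padicValNat.eq_zero_of_not_dvd fun hd => ?_
      have h4 := Nat.dvd_gcd hpd hd
      rw [q.reduced] at h4
      exact hp.one_lt.ne' (Nat.dvd_one.1 h4)
    omega
  have hden : q.den = 1 := by
    by_contra hne
    obtain ⟨p, hp, hpd⟩ := Nat.exists_prime_and_dvd hne
    have : Fact p.Prime := ⟨hp⟩
    have h1 := h p hp
    rw [padicValRat_def] at h1
    have h2 : 0 < padicValNat p q.den := one_le_padicValNat_of_dvd q.den_nz hpd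
    have h3 : padicValInt p q.num = 0 := by
      unfold padicValInt
      rw [hnum]
      simp
    omega
  have h1 : q = q.num := (Rat.den_eq_one_iff q).1 hden |>.symm
  rw [h1]
  rcases Int.natAbs_eq_iff.1 hnum with h2 | h2
  · rw [h2]; norm_num
  · rw [h2]; norm_num

theorem padicValRat_prod {p : ℕ} [Fact p.Prime] {k : ℕ} (s : Finset (Fin k)) {a : Fin k → ℚ}
    (ha : ∀ i, a i ≠ 0) (n : Fin k → ℤ) :
    padicValRat p (∏ i ∈ s, a i ^ n i) = ∑ i ∈ s, n i * padicValRat p (a i) := by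
  classical
  induction s using Finset.induction_on with
  | empty => simp
  | insert i s hi ih =>
    rw [Finset.prod_insert hi, Finset.sum_insert hi, padicValRat.mul (zpow_ne_zero _ (ha i))
      (Finset.prod_ne_zero_iff.2 fun j _ => zpow_ne_zero _ (ha j)), ih, padicValRat.zpow]

/-- From rational relations to integral relations. -/
theorem RelP.int {k : ℕ} {lam : ℚ} {α n : Fin k → ℚ} (hl : lam ≠ 0)
    (ha : ∀ i, α i ≠ 0) (h : RelP lam α n) : ∃ (N : ℕ) (n' : Fin k → ℤ) (m : ℤ), N ≠ 0 ∧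
      (∀ i, (n' i : ℚ) = N * (k - 1 : ℕ) * n i) ∧ ((m : ℤ) : ℚ) = N * ∑ i, n i ∧
      ∑ i, n' i = m * (k - 1 : ℕ) ∧ (lam ^ m * ∏ i, α i ^ n' i) ^ 2 = 1 := by
  obtain ⟨N, hN0, hN⟩ : ∃ N : ℕ, N ≠ 0 ∧ ∀ i, ∃ a : ℤ, (N : ℚ) * n i = a := by
    refine ⟨∏ i, (n i).den, Finset.prod_ne_zero_iff.2 fun i _ => (n i).den_nz, fun i => ?_⟩
    classical
    refine ⟨(∏ j ∈ Finset.univ.erase i, ((n j).den : ℤ)) * (n i).num, ?_⟩
    rw [← Finset.mul_prod_erase _ _ (Finset.mem_univ i)]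
    push_cast
    have h1 : ((n i).den : ℚ) * n i = (n i).num := Rat.den_mul_eq_num _
    rw [← h1]
    ring
  choose a ha' using hN
  refine ⟨N, fun i => (k - 1 : ℕ) * a i, ∑ i, a i, hN0, fun i => ?_, ?_, ?_, ?_⟩
  · push_cast
    rw [← ha' i]
    ring
  · push_cast
    rw [Finset.mul_sum]
    exact Finset.sum_congr rfl fun i _ => (ha' i).symm
  · rw [← Finset.mul_sum]
    ring
  · apply sq_eq_one_of_val
    · exact mul_ne_zero (zpow_ne_zero _ hl) (Finset.prod_ne_zero_iff.2 fun i _ =>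
        zpow_ne_zero _ (ha i))
    · intro p hp
      have : Fact p.Prime := ⟨hp⟩
      rw [padicValRat.mul (zpow_ne_zero _ hl) (Finset.prod_ne_zero_iff.2 fun i _ =>
        zpow_ne_zero _ (ha i)), padicValRat.zpow, padicValRat_prod _ ha]
      have h1 := h ⟨p, hp⟩
      have h2 : ((((∑ i, a i) * padicValRat p lam + ∑ i, ((k - 1 : ℕ) * a i : ℤ) *
          padicValRat p (α i) : ℤ)) : ℚ) = 0 := by
        push_cast
        have h3 : (N : ℚ) * ∑ i, n i * ((k - 1 : ℕ) * padicValRat p (α i) +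
            padicValRat p lam : ℚ) = 0 := by
          rw [show (∑ i, n i * ((k - 1 : ℕ) * padicValRat p (α i) +
            padicValRat p lam : ℚ)) = 0 from h1, mul_zero]
        rw [← h3, Finset.sum_mul, Finset.mul_sum, ← Finset.sum_add_distrib]
        refine Finset.sum_congr rfl fun i _ => ?_
        rw [← ha' i]
        ring
      exact_mod_cast h2

theorem RelP.real {k : ℕ} {lam : ℚ} {α n : Fin k → ℚ} (hl : lam ≠ 0)
    (ha : ∀ i, α i ≠ 0) (h : RelP lam α n) :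
    ∑ i, (((k - 1 : ℕ) : ℝ) * Real.log |(α i : ℝ)| + Real.log |(lam : ℝ)|) * (n i : ℝ) = 0 := by
  obtain ⟨N, n', m, hN, h1, h2, -, h4⟩ := h.int hl ha
  have h5 := congrArg (fun q : ℚ => Real.log |(q : ℝ)|) h4
  simp only [Rat.cast_pow, Rat.cast_mul, Rat.cast_zpow, Rat.cast_prod, abs_pow, abs_mul,
    abs_zpow, Finset.abs_prod, Rat.cast_one, abs_one, Real.log_one, Real.log_pow] at h5
  have hl' : |(lam : ℝ)| ≠ 0 := abs_ne_zero.2 (by exact_mod_cast hl)
  have ha' : ∀ i, |(α i : ℝ)| ≠ 0 := fun i => abs_ne_zero.2 (by exact_mod_cast ha i)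
  rw [Real.log_mul (zpow_ne_zero _ hl') (Finset.prod_ne_zero_iff.2 fun i _ =>
    zpow_ne_zero _ (ha' i)), Real.log_zpow, Real.log_prod fun i _ => zpow_ne_zero _ (ha' i)] at h5
  simp only [Real.log_zpow] at h5
  have h6 : (m : ℝ) = N * ∑ i, (n i : ℝ) := by exact_mod_cast congrArg (fun q : ℚ => (q : ℝ)) h2
  have h7 : ∀ i, (n' i : ℝ) = N * (k - 1 : ℕ) * n i := fun i => by
    exact_mod_cast congrArg (fun q : ℚ => (q : ℝ)) (h1 i)
  have h8 : (m : ℝ) * Real.log |(lam : ℝ)| + ∑ i, (n' i : ℝ) * Real.log |(α i : ℝ)| = 0 := by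
    rcases mul_eq_zero.1 h5 with h9 | h9
    · norm_num at h9
    · exact h9
  have h9 : (N : ℝ) * ∑ i, (((k - 1 : ℕ) : ℝ) * Real.log |(α i : ℝ)| +
      Real.log |(lam : ℝ)|) * (n i : ℝ) = 0 := by
    rw [← h8, h6]
    have h10 : ∑ i, (n' i : ℝ) * Real.log |(α i : ℝ)| =
        N * ∑ i, ((k - 1 : ℕ) : ℝ) * n i * Real.log |(α i : ℝ)| := by
      rw [Finset.mul_sum]
      exact Finset.sum_congr rfl fun i _ => by rw [h7 i]; ring
    rw [h10, mul_assoc, ← mul_add, Finset.sum_mul, ← Finset.sum_add_distrib]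
    congr 1
    exact Finset.sum_congr rfl fun i _ => by ring
  exact (mul_eq_zero.1 h9).resolve_left (Nat.cast_ne_zero.2 hN)

/-! ### the classes are integral -/

section unr

variable {L : Type*} [Field L] {e : ℚ[X] →+* L} {σ : L →+* L} {y : L} {f : ℚ[X]} {k : ℕ} {t : ℤ}
  {lam : ℤ} {α : Fin k → ℤ} {z : Lˣ}

theorem val_int' (v : Valuation L ℤᵐ⁰) (e : ℚ[X] →+* L) (m : ℤ) : v (e (C (m : ℚ))) ≤ 1 := by
  have h : e (C (m : ℚ)) = (m : L) := map_intCast (ec e) m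
  rw [h]
  exact val_int_le v m

theorem cls_unr (H : Cx e σ y f t (lam : ℚ) (fun i => (α i : ℚ)) z) {n : Fin k → ℚ}
    (hn : RelP (lam : ℚ) (fun i => (α i : ℚ)) n) :
    cls e z (lam : ℚ) (fun i => (α i : ℚ)) n ∈ Unramified L 2 := by
  have hk := H.two
  obtain ⟨N, n', m, hN, h1, h2, h3, h4⟩ := hn.int H.l0 H.a0
  have hk1 : ((k - 1 : ℕ) : ℚ) ≠ 0 := Nat.cast_ne_zero.2 (by omega)
  have hN' : (N : ℚ) ≠ 0 := Nat.cast_ne_zero.2 hN
  set lu := pu e (C (lam : ℚ)) with hlu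
  set w : Fin k → Lˣ := fun i => pu e (X - C (α i : ℚ)) with hw
  have hmem : sy z (lu ^ m * ∏ i, w i ^ n' i) ∈ Unramified L 2 := by
    unfold Unramified
    simp only [Submodule.mem_iInf]
    intro v _
    refine H.eqn.mem_unitPart H.ht hk (fun i => val_int' v e (α i))
      (fun i => e_ne H.inj (C_ne_zero.2 (H.a0 i))) ?_ w (fun i => ?_) n' m h3 (M := 2)
      two_ne_zero ?_
    · rw [pu_val H.inj (C_ne_zero.2 H.l0)]
      exact val_int' v e lam
    · rw [hw]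
      simp only
      rw [pu_val H.inj (X_sub_C_ne_zero _), pu_val H.inj X_ne_zero, map_sub]
    · have h5 := congrArg (fun q => e (C q)) h4
      simp only [map_pow, map_mul, map_prod, map_one] at h5
      rw [pu_val H.inj (C_ne_zero.2 H.l0)]
      have h6 : ∀ (q : ℚ) (j : ℤ), e (C (q ^ j)) = (e (C q)) ^ j := fun q j =>
        map_zpow₀ (e.comp C) q j
      simp only [h6] at h5
      exact h5
  have hcls : cls e z (lam : ℚ) (fun i => (α i : ℚ)) n =
      ((N : ℚ) * (k - 1 : ℕ))⁻¹ • sy z (lu ^ m * ∏ i, w i ^ n' i) := by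
    rw [sy_mul_right, sy_zpow_right, sy_prod_right]
    simp only [sy_zpow_right, h1, h2]
    unfold cls
    simp only [smul_add, Finset.sum_add_distrib, smul_smul, Finset.smul_sum]
    rw [add_comm]
    congr 1
    · rw [← Finset.sum_smul]
      congr 1
      rw [← Finset.sum_mul]
      field_simp
    · refine Finset.sum_congr rfl fun i _ => ?_
      congr 1
      field_simp
  rw [hcls]
  exact Submodule.smul_mem _ _ hmem

end unr

/-- The map `n ↦ cls n`. -/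
noncomputable def clsL {L : Type*} [Field L] (e : ℚ[X] →+* L) (z : Lˣ) (lam : ℚ) {k : ℕ}
    (α : Fin k → ℚ) : (Fin k → ℚ) →ₗ[ℚ] KQ L 2 where
  toFun := cls e z lam α
  map_add' n n' := by
    unfold cls
    rw [← Finset.sum_add_distrib]
    exact Finset.sum_congr rfl fun i _ => by rw [Pi.add_apply, add_smul]
  map_smul' c n := by
    unfold cls
    rw [RingHom.id_apply, Finset.smul_sum]
    exact Finset.sum_congr rfl fun i _ => by rw [Pi.smul_apply, smul_eq_mul, mul_smul]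

/-- The space of the relations. -/
def relS {k : ℕ} (lam : ℚ) (α : Fin k → ℚ) : Submodule ℚ (Fin k → ℚ) where
  carrier := {n | RelP lam α n}
  add_mem' := by
    intro a b ha hb p
    have h1 := ha p
    have h2 := hb p
    simp only [Pi.add_apply, add_mul, Finset.sum_add_distrib]
    rw [h1, h2, add_zero]
  zero_mem' := by
    intro p
    simp
  smul_mem' := by
    intro c a ha p
    have h1 := ha p
    simp only [Pi.smul_apply, smul_eq_mul, mul_assoc, ← Finset.mul_sum]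
    rw [h1, mul_zero]

theorem mem_relS {k : ℕ} {lam : ℚ} {α n : Fin k → ℚ} : n ∈ relS lam α ↔ RelP lam α n := Iff.rfl

/-- The space of the classes. -/
theorem vx_eq {L : Type*} [Field L] {e : ℚ[X] →+* L} {σ : L →+* L} {y : L} {f : ℚ[X]} {k : ℕ}
    {t : ℤ} {lam : ℤ} {α : Fin k → ℤ} {z : Lˣ}
    (H : Cx e σ y f t (lam : ℚ) (fun i => (α i : ℚ)) z) (hN : NumC k lam α) :
    Vall σ z ⊓ HUnr L = (relS (lam : ℚ) (fun i => (α i : ℚ))).map
      (clsL e z (lam : ℚ) (fun i => (α i : ℚ))) := by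
  apply le_antisymm
  · rintro κ ⟨h1, h2⟩
    have hQ : ∀ π : ℚ[X], π.Monic → Irreducible π → π ≠ X → π ∉ TBd e z →
        (∃ i, π = X - C ((α i : ℚ))) ∨ sy z (pu e π) ∈ Fzd e z ⊔ Wd e z (fun i => (α i : ℚ)) := by
      intro π hm hi hX hπ
      obtain ⟨j, hj, hroots⟩ := cx_not_tb H hm hi hX hπ
      obtain ⟨x, hx⟩ := Pool.Agent.Helper537_All.exists_croot hi
      obtain ⟨hx0, ζ, hζ0, hζj, hG⟩ := hroots x hx
      have hG' : (t : ℂ) * x + lam * ∏ i, (x - α i) = x * (ζ + ζ⁻¹) := by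
        rw [← hG]
        unfold Gx
        simp only [map_add, map_mul, map_prod, map_sub, aeval_X, aeval_C, eq_ratCast,
          Rat.cast_intCast]
      rcases special_deg hN H.ht hm hi hx hx0 hj hζj hG' with h | h
      · exact Or.inl h
      · right
        have hint : IsIntegral ℚ (ζ + ζ⁻¹) := by
          have h3 : ∀ w : ℂ, w ^ j = 1 → IsIntegral ℚ w := fun w hw =>
            IsIntegral.of_pow (Nat.pos_of_ne_zero hj) (by rw [hw]; exact isIntegral_one)
          exact (h3 ζ hζj).add (h3 ζ⁻¹ (by rw [inv_pow, hζj, inv_one]))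
        exact cx_zπ_mem H hm hi hx hζ0 (Nat.pos_of_ne_zero hj) hζj hG rfl
          (minpoly.ne_zero hint) h
    obtain ⟨n, hn, hr⟩ := cx_cls H hQ h1 h2
    exact ⟨n, hr, hn.symm⟩
  · rintro _ ⟨n, hn, rfl⟩
    refine ⟨?_, unr_le_hor (cls_unr H hn)⟩
    refine (le_sup_left : _ ≤ Vall σ z) ?_
    show cls _ _ _ _ n ∈ _
    unfold cls
    refine Submodule.sum_mem _ fun i _ => Submodule.smul_mem _ _ (Submodule.add_mem _
      (Submodule.subset_span ⟨_, rfl⟩) (Submodule.smul_mem _ _ (Submodule.subset_span ⟨_, rfl⟩)))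

/-! ### the curve -/

section curve

variable {g : ℕ} {t lam : ℤ} {α : Fin (g + 1) → ℤ}

theorem natDegree_cvf {k : ℕ} (hk : 2 ≤ k) {lam : ℚ} (hl : lam ≠ 0) (t : ℤ) (α : Fin k → ℚ) :
    (cvf t lam α).natDegree = 2 * k := by
  unfold cvf
  have h1 : (Gx t lam α ^ 2).natDegree = 2 * k := by
    rw [natDegree_pow, natDegree_Gx hk hl]
  have h2 : (4 * X ^ 2 : ℚ[X]).natDegree ≤ 2 := by
    have h3 : (4 * X ^ 2 : ℚ[X]) = C 4 * X ^ 2 := by rw [C_ofNat]
    rw [h3]
    refine (natDegree_C_mul_le _ _).trans ?_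
    rw [natDegree_X_pow]
  rw [natDegree_sub_eq_left_of_natDegree_lt, h1]
  rw [h1]
  omega

theorem sqf_cvf {ρ : ℝ} (hρ : 0 < ρ) (hρg : ρ ^ g = (lam : ℝ))
    (H : Sp fun i => (ρ : ℂ) * ((α i : ℚ) : ℂ)) (ht : |t| ≤ 2) :
    Squarefree (cvf t (lam : ℚ) (fun i => (α i : ℚ))) := by
  have hρ' : (ρ : ℂ) ≠ 0 := by exact_mod_cast hρ.ne'
  have h1 := sqf_famC H ht (m := ![(ρ : ℂ), 0, 0, 1]) (by simpa using hρ')
  have hlin1 : lin ((![(ρ : ℂ), 0, 0, 1] : Fin 4 → ℂ) 0) ((![(ρ : ℂ), 0, 0, 1] : Fin 4 → ℂ) 1) =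
      C (ρ : ℂ) * X := by
    unfold lin
    simp
  have hlin2 : lin ((![(ρ : ℂ), 0, 0, 1] : Fin 4 → ℂ) 2) ((![(ρ : ℂ), 0, 0, 1] : Fin 4 → ℂ) 3) =
      1 := by
    unfold lin
    simp
  have hρc : ((ρ : ℂ)) ^ g = lam := by
    have h6 := congrArg (fun x : ℝ => (x : ℂ)) hρg
    simpa using h6
  have e1 : fam t (fun i => (ρ : ℂ) * ((α i : ℚ) : ℂ)) ![(ρ : ℂ), 0, 0, 1] =
      C ((ρ : ℂ) ^ 2) * (cvf t (lam : ℚ) (fun i => (α i : ℚ))).map (algebraMap ℚ ℂ) := by
    refine Polynomial.funext fun x => ?_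
    unfold fam Ufam
    rw [hlin1, hlin2, cvf, Polynomial.map_sub, Polynomial.map_pow, Polynomial.map_mul,
      Polynomial.map_pow, Polynomial.map_X, Polynomial.map_ofNat]
    simp only [eval_sub, eval_pow, eval_add, eval_mul, eval_prod, eval_C, eval_X,
      eval_ofNat, mul_one, one_pow, eval_map, eval_intCast]
    rw [gx_eval]
    have h3 : ∏ i, ((ρ : ℂ) * x - (ρ : ℂ) * ((α i : ℚ) : ℂ)) =
        (ρ : ℂ) * (lam * ∏ i, (x - ((α i : ℚ) : ℂ))) := by
      have h4 : ∀ i, (ρ : ℂ) * x - (ρ : ℂ) * ((α i : ℚ) : ℂ) = ρ * (x - ((α i : ℚ) : ℂ)) :=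
        fun i => by ring
      simp only [h4, Finset.prod_mul_distrib, Finset.prod_const, Finset.card_univ,
        Fintype.card_fin, pow_succ, hρc]
      ring
    rw [h3, Rat.cast_intCast]
    ring
  rw [e1] at h1
  have h2 : Squarefree ((cvf t (lam : ℚ) (fun i => (α i : ℚ))).map (algebraMap ℚ ℂ)) :=
    h1.squarefree_of_dvd (dvd_mul_left _ _)
  have h3 : ((cvf t (lam : ℚ) (fun i => (α i : ℚ))).map (algebraMap ℚ ℂ)).Separable :=
    PerfectField.separable_iff_squarefree.2 h2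
  exact ((separable_map _).1 h3).squarefree

/-- The conditions on the sizes. -/
structure Siz (g : ℕ) (lam : ℤ) (α : Fin (g + 1) → ℤ) : Prop where
  g2 : 2 ≤ g
  l0 : 0 < lam
  a0 : ∀ i, α i ≠ 0
  sep : ∀ i j, i ≠ j → max |α i| |α j| ≤ 2 * |α i - α j|
  big : ∃ i, 2 ^ (8 * g * (g + 1) ^ 2) < lam * |α i| ^ g

theorem Siz.exists_rho (H : Siz g lam α) : ∃ ρ : ℝ, 0 < ρ ∧ ρ ^ g = (lam : ℝ) ∧
    (∀ i, ‖(ρ : ℂ) * ((α i : ℚ) : ℂ)‖ = ρ * |(α i : ℝ)|) ∧
    (∀ i, 1 ≤ ‖(ρ : ℂ) * ((α i : ℚ) : ℂ)‖) ∧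
    (Sp fun i => (ρ : ℂ) * ((α i : ℚ) : ℂ)) ∧
    ∃ m, (2 : ℝ) ^ (8 * (g + 1) ^ 2) < ‖(ρ : ℂ) * ((α m : ℚ) : ℂ)‖ := by
  have hg := H.g2
  have hl1 : (1 : ℝ) ≤ lam := by exact_mod_cast H.l0
  have hg0 : g ≠ 0 := by omega
  set ρ : ℝ := (lam : ℝ) ^ ((g : ℝ)⁻¹) with hρdef
  have hρ1 : 1 ≤ ρ := Real.one_le_rpow hl1 (by positivity)
  have hρ : 0 < ρ := one_pos.trans_le hρ1
  have hρg : ρ ^ g = (lam : ℝ) := Real.rpow_inv_natCast_pow (by linarith) hg0
  have hnorm : ∀ i, ‖(ρ : ℂ) * ((α i : ℚ) : ℂ)‖ = ρ * |(α i : ℝ)| := by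
    intro i
    rw [norm_mul, Complex.norm_real, Real.norm_eq_abs, abs_of_pos hρ, Rat.cast_intCast,
      Complex.norm_intCast]
  have hα1 : ∀ i, (1 : ℝ) ≤ |(α i : ℝ)| := by
    intro i
    have h1 := Int.one_le_abs (H.a0 i)
    exact_mod_cast h1
  have h1 : ∀ i, 1 ≤ ‖(ρ : ℂ) * ((α i : ℚ) : ℂ)‖ := by
    intro i
    rw [hnorm]
    nlinarith [hα1 i]
  have h2 : ∀ i j, i ≠ j → max ‖(ρ : ℂ) * ((α i : ℚ) : ℂ)‖ ‖(ρ : ℂ) * ((α j : ℚ) : ℂ)‖ ≤
      2 * ‖(ρ : ℂ) * ((α i : ℚ) : ℂ) - (ρ : ℂ) * ((α j : ℚ) : ℂ)‖ := by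
    intro i j hij
    have h3 : (ρ : ℂ) * ((α i : ℚ) : ℂ) - (ρ : ℂ) * ((α j : ℚ) : ℂ) =
        ρ * (((α i - α j : ℤ) : ℚ) : ℂ) := by
      push_cast
      ring
    have h4 : ‖(ρ : ℂ) * (((α i - α j : ℤ) : ℚ) : ℂ)‖ = ρ * |((α i - α j : ℤ) : ℝ)| := by
      rw [norm_mul, Complex.norm_real, Real.norm_eq_abs, abs_of_pos hρ, Rat.cast_intCast,
        Complex.norm_intCast]
    rw [h3, h4, hnorm, hnorm, ← mul_max_of_nonneg _ _ hρ.le]
    have h5 : max |(α i : ℝ)| |(α j : ℝ)| ≤ 2 * |((α i - α j : ℤ) : ℝ)| := by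
      exact_mod_cast H.sep i j hij
    nlinarith
  obtain ⟨m, hm⟩ := H.big
  have hbig : (2 : ℝ) ^ (8 * (g + 1) ^ 2) < ‖(ρ : ℂ) * ((α m : ℚ) : ℂ)‖ := by
    rw [hnorm]
    have h3 : ((2 : ℝ) ^ (8 * (g + 1) ^ 2)) ^ g < (ρ * |(α m : ℝ)|) ^ g := by
      rw [← pow_mul, mul_pow, hρg]
      have h4 : 8 * (g + 1) ^ 2 * g = 8 * g * (g + 1) ^ 2 := by ring
      rw [h4]
      exact_mod_cast hm
    exact lt_of_pow_lt_pow_left₀ g (by positivity) h3
  exact ⟨ρ, hρ, hρg, hnorm, h1, Sp.mk' (by omega) h1 h2 hbig.le, m, hbig⟩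

theorem Siz.sqf (H : Siz g lam α) (ht : |t| ≤ 2) :
    Squarefree (cvf t (lam : ℚ) (fun i => (α i : ℚ))) := by
  obtain ⟨ρ, hρ, hρg, -, -, hSp, -⟩ := H.exists_rho
  exact sqf_cvf hρ hρg hSp ht

theorem Siz.l0q (H : Siz g lam α) : (lam : ℚ) ≠ 0 := by
  have := H.l0
  exact_mod_cast this.ne'

theorem Siz.dom (H : Siz g lam α) (ht : |t| ≤ 2) :
    IsDomain (HRing (cvf t (lam : ℚ) (fun i => (α i : ℚ)))) := by
  have := H.g2
  refine isDomain_HRing (algebraMap ℚ ℂ) (H.sqf ht) ?_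
  rw [natDegree_cvf (by omega) H.l0q]
  omega

/-- The main theorem on the structure of the space of classes. -/
theorem main6 (H : Siz g lam α) (hN : NumC (g + 1) lam α) (ht : |t| ≤ 2)
    (L : Type*) [Field L] [Algebra (HRing (cvf t (lam : ℚ) (fun i => (α i : ℚ)))) L]
    [IsFractionRing (HRing (cvf t (lam : ℚ) (fun i => (α i : ℚ)))) L] {σ : L →+* L}
    (h1 : ∀ P, σ (xe (cvf t (lam : ℚ) (fun i => (α i : ℚ))) L P) =
      xe (cvf t (lam : ℚ) (fun i => (α i : ℚ))) L P)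
    (h2 : σ (ye (cvf t (lam : ℚ) (fun i => (α i : ℚ))) L) =
      -ye (cvf t (lam : ℚ) (fun i => (α i : ℚ))) L) :
    Vall σ (zu t (lam : ℚ) (fun i => (α i : ℚ)) L) ⊓ HUnr L ≤ Unramified L 2 ∧
    FiniteDimensional ℚ
      (Vall σ (zu t (lam : ℚ) (fun i => (α i : ℚ)) L) ⊓ HUnr L : Submodule ℚ (KQ L 2)) ∧
    Module.finrank ℚ
      (Vall σ (zu t (lam : ℚ) (fun i => (α i : ℚ)) L) ⊓ HUnr L : Submodule ℚ (KQ L 2)) =
      Module.finrank ℚ (relS (lam : ℚ) (fun i => (α i : ℚ))) ∧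
    ∃ Γ : Fin g → Torus L 1, Function.Injective
      (regR Γ (Vall σ (zu t (lam : ℚ) (fun i => (α i : ℚ)) L) ⊓ HUnr L)) := by
  have hg := H.g2
  have hl0 := H.l0q
  have ha0 : ∀ i, ((α i : ℚ)) ≠ 0 := fun i => by exact_mod_cast H.a0 i
  set e := xe (cvf t (lam : ℚ) (fun i => (α i : ℚ))) L with he
  set z := zu t (lam : ℚ) (fun i => (α i : ℚ)) L with hz
  have HC := mk_cx (L := L) (t := t) (lam := (lam : ℚ)) (α := fun i => (α i : ℚ)) (by omega) ht
    hl0 ha0 h1 h2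
  have hVX := vx_eq HC hN
  set RS := relS (lam : ℚ) (fun i => (α i : ℚ)) with hRS
  set r := Module.finrank ℚ RS with hr
  set b := Module.finBasis ℚ RS with hb
  set ν : Fin r → Fin (g + 1) → ℚ := fun j => (b j : Fin (g + 1) → ℚ) with hν
  have hνli : LinearIndependent ℚ ν :=
    b.linearIndependent.map' RS.subtype (Submodule.ker_subtype _)
  have hspan : Submodule.span ℚ (Set.range ν) = RS := by
    have h3 := congrArg (Submodule.map RS.subtype) b.span_eq
    rw [Submodule.map_span, Submodule.map_top, Submodule.range_subtype, ← Set.range_comp] at h3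
    exact h3
  have hW : Vall σ z ⊓ HUnr L = Submodule.span ℚ (Set.range fun j : Fin r =>
      cls e z (lam : ℚ) (fun i => (α i : ℚ)) (ν j)) := by
    rw [hVX, ← hspan, Submodule.map_span, ← Set.range_comp]
    rfl
  obtain ⟨ρ, hρ, hρg, hnorm, hn1, hSp, m, hbig⟩ := H.exists_rho
  obtain ⟨R, Xs, hR, hL⟩ := hSp.exists_Lp ht
  have hf := H.sqf ht
  have hd : 0 < (cvf t (lam : ℚ) (fun i => (α i : ℚ))).natDegree := by
    rw [natDegree_cvf (by omega) hl0]
    omega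
  have hρg' : ρ ^ g = ((lam : ℚ) : ℝ) := by rw [hρg, Rat.cast_intCast]
  obtain ⟨Γ, hΓ⟩ := exists_tori5 hρ hρg' hL hR hf hd L
  have hreg : ∀ (j : Fin (g + 1)) (n : Fin (g + 1) → ℚ),
      (Γ j).reg (cls e z (lam : ℚ) (fun i => (α i : ℚ)) n) =
      ∑ i, (n i : ℝ) * pr (circ R) (fun s => Xs j s - (ρ : ℂ) * ((α i : ℚ) : ℂ)) := fun j n =>
    reg_cls (by omega) hρ hρg' hl0 hL L (Γ j) j (fun θ => hΓ j θ) n
  have hinj : ∀ c : Fin r → ℝ, (∀ l : Fin g, ∑ j, c j * (Γ l.succ).reg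
      (cls e z (lam : ℚ) (fun i => (α i : ℚ)) (ν j)) = 0) → ∀ j, c j = 0 := by
    intro c hc
    refine real_indep hνli c ?_
    refine hL.inj' hn1 (m := m) (log_big hbig) (c := fun i => ∑ j, c j * (ν j i : ℝ)) ?_ ?_
    · simp only [Finset.mul_sum]
      rw [Finset.sum_comm]
      refine Finset.sum_eq_zero fun j _ => ?_
      have h3 := RelP.real hl0 ha0 (mem_relS.1 (b j).2)
      have h4 : ∑ i, Real.log ‖(ρ : ℂ) * ((α i : ℚ) : ℂ)‖ * (c j * (ν j i : ℝ)) =
          c j * ((g : ℝ)⁻¹ * ∑ i, (((g + 1 - 1 : ℕ) : ℝ) * Real.log |((α i : ℚ) : ℝ)| +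
            Real.log |((lam : ℚ) : ℝ)|) * (ν j i : ℝ)) := by
        rw [Finset.mul_sum, Finset.mul_sum]
        refine Finset.sum_congr rfl fun i _ => ?_
        have h5 : |(α i : ℝ)| ≠ 0 := abs_ne_zero.2 (by exact_mod_cast H.a0 i)
        have h6 : |((lam : ℚ) : ℝ)| = ρ ^ g := by
          rw [← hρg', abs_of_pos (by positivity)]
        rw [hnorm, Real.log_mul hρ.ne' h5, h6, Real.log_pow, Nat.add_sub_cancel, Rat.cast_intCast]
        have h7 : (g : ℝ) ≠ 0 := by positivity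
        field_simp
        ring
      rw [h4]
      have h5 : ∑ i, (((g + 1 - 1 : ℕ) : ℝ) * Real.log |((α i : ℚ) : ℝ)| +
            Real.log |((lam : ℚ) : ℝ)|) * (ν j i : ℝ) = 0 := h3
      rw [h5, mul_zero, mul_zero]
    · intro l
      rw [← hc l]
      simp only [hreg, Finset.sum_mul, Finset.mul_sum]
      rw [Finset.sum_comm]
      refine Finset.sum_congr rfl fun j _ => Finset.sum_congr rfl fun i _ => ?_
      ring
  obtain ⟨h3, h4⟩ := regR_inj (fun l : Fin g => Γ l.succ)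
    (fun j : Fin r => cls e z (lam : ℚ) (fun i => (α i : ℚ)) (ν j)) hinj
  refine ⟨?_, ?_, ?_, fun l => Γ l.succ, ?_⟩
  · rw [hVX]
    rintro _ ⟨n, hn, rfl⟩
    exact cls_unr HC hn
  · rw [hW]
    exact FiniteDimensional.span_of_finite ℚ (Set.finite_range _)
  · rw [hW]
    exact h3
  · rw [hW]
    exact h4

/-- The case of powers of a number `s`. -/
theorem finrank_relS_pow {s b : ℕ} (hs : 2 ≤ s) {a : Fin (g + 1) → ℕ}
    {ε : Fin (g + 1) → ℤˣ} (hl : lam = (s : ℤ) ^ b) (hα : ∀ i, α i = (ε i : ℤ) * (s : ℤ) ^ a i)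
    (hne : ∃ i, g * a i + b ≠ 0) :
    Module.finrank ℚ (relS (lam : ℚ) (fun i => (α i : ℚ))) = g := by
  have hs0 : (s : ℚ) ≠ 0 := by
    have : s ≠ 0 := by omega
    exact_mod_cast this
  let φ : (Fin (g + 1) → ℚ) →ₗ[ℚ] ℚ :=
    ∑ i, ((g * a i + b : ℕ) : ℚ) • LinearMap.proj i
  have hφ : ∀ n, φ n = ∑ i, n i * ((g : ℚ) * a i + b) := by
    intro n
    simp only [φ, LinearMap.sum_apply, LinearMap.smul_apply, LinearMap.proj_apply, smul_eq_mul]
    refine Finset.sum_congr rfl fun i _ => ?_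
    push_cast
    ring
  have hval : ∀ p : Nat.Primes, ∀ i, ((g + 1 - 1 : ℕ) : ℚ) * (padicValRat p (α i : ℚ) : ℚ) +
      (padicValRat p (lam : ℚ) : ℚ) = (padicValRat p (s : ℚ) : ℚ) * ((g : ℚ) * a i + b) := by
    intro p i
    have : Fact (Nat.Prime (p : ℕ)) := ⟨p.2⟩
    have h1 : padicValRat p (lam : ℚ) = b * padicValRat p (s : ℚ) := by
      rw [hl]
      push_cast
      rw [padicValRat.pow]
    have h2 : padicValRat p (α i : ℚ) = a i * padicValRat p (s : ℚ) := by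
      rw [hα]
      push_cast
      rcases Int.units_eq_one_or (ε i) with h | h
      · rw [h, Units.val_one, Int.cast_one, one_mul, padicValRat.pow]
      · rw [h, Units.val_neg, Units.val_one, Int.cast_neg, Int.cast_one, neg_one_mul,
          padicValRat.neg, padicValRat.pow]
    rw [h1, h2, Nat.add_sub_cancel]
    push_cast
    ring
  have hker : relS (lam : ℚ) (fun i => (α i : ℚ)) = LinearMap.ker φ := by
    ext n
    rw [LinearMap.mem_ker, hφ, mem_relS]
    constructor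
    · intro h
      obtain ⟨p, hp, hps⟩ := Nat.exists_prime_and_dvd (n := s) (by omega)
      have : Fact p.Prime := ⟨hp⟩
      have h1 := h ⟨p, hp⟩
      have h2 : ∑ i, n i * ((padicValRat p (s : ℚ) : ℚ) * ((g : ℚ) * a i + b)) = 0 := by
        rw [← h1]
        exact Finset.sum_congr rfl fun i _ => by rw [← hval ⟨p, hp⟩ i]
      have h3 : (padicValRat p (s : ℚ) : ℚ) * ∑ i, n i * ((g : ℚ) * a i + b) = 0 := by
        rw [← h2, Finset.mul_sum]
        exact Finset.sum_congr rfl fun i _ => by ring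
      refine (mul_eq_zero.1 h3).resolve_left ?_
      rw [padicValRat.of_nat]
      have h4 : 1 ≤ padicValNat p s := one_le_padicValNat_of_dvd (by omega) hps
      have h5 : padicValNat p s ≠ 0 := by omega
      exact_mod_cast h5
    · intro h p
      have h2 : ∑ i, n i * (((g + 1 - 1 : ℕ) : ℚ) * (padicValRat p (α i : ℚ) : ℚ) +
          (padicValRat p (lam : ℚ) : ℚ)) = (padicValRat p (s : ℚ) : ℚ) *
          ∑ i, n i * ((g : ℚ) * a i + b) := by
        rw [Finset.mul_sum]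
        refine Finset.sum_congr rfl fun i _ => ?_
        rw [hval p i]
        ring
      show ∑ i, n i * (((g + 1 - 1 : ℕ) : ℚ) * (padicValRat p (α i : ℚ) : ℚ) +
          (padicValRat p (lam : ℚ) : ℚ)) = 0
      rw [h2, h, mul_zero]
  have hφ0 : φ ≠ 0 := by
    obtain ⟨i, hi⟩ := hne
    intro h
    have h1 := congrArg (fun ψ : (Fin (g + 1) → ℚ) →ₗ[ℚ] ℚ => ψ (Pi.single i 1)) h
    simp only [hφ, LinearMap.zero_apply] at h1
    rw [Finset.sum_eq_single i] at h1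
    · rw [Pi.single_eq_same, one_mul] at h1
      exact hi (by exact_mod_cast h1)
    · intro j _ hj
      rw [Pi.single_eq_of_ne hj, zero_mul]
    · intro h
      exact absurd (Finset.mem_univ i) h
  have h1 := Module.Dual.finrank_ker_add_one_of_ne_zero (f := φ) hφ0
  rw [Module.finrank_fin_fun] at h1
  rw [hker]
  omega

end curve

end Pool.Agent.H442
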