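import Pool.Agent.H442.Hyp
set_option autoImplicit false

/-!
The curves `z + 1/z = t + ∏ (X - α_i) / X` as hyperelliptic curves `y² = f(x)`, where
`X = (m_0 x + m_1) / (m_2 x + m_3)`: unramified classes in `K_2` and loops.
-/

namespace Pool.Agent.H442

open Polynomial

open scoped WithZero

open Pool.Agent.TH826.MK (Torus KQ symb pairing circ norm_circ contDiff_circ circ_add_one
  Unramified unitPart val_le_one_of_integral)

open Pool.Agent.TH826.UH

open Pool.Agent.Helper537_Sym (sy)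

section defs

variable {K : Type*} [CommRing K]

/-- The linear polynomial `a x + b`. -/
noncomputable def lin (a b : K) : K[X] := C a * X + C b

/-- `∏ (l₁ - α_i l₂) + t l₁ l₂^(k-1)`, where `l₁ = m_0 x + m_1`, `l₂ = m_2 x + m_3`. -/
noncomputable def Ufam {k : ℕ} (t : ℤ) (α : Fin k → K) (m : Fin 4 → K) : K[X] :=
  ∏ i, (lin (m 0) (m 1) - C (α i) * lin (m 2) (m 3)) +
    (t : K[X]) * lin (m 0) (m 1) * lin (m 2) (m 3) ^ (k - 1)

/-- The polynomial `(∏ (l₁ - α_i l₂) + t l₁ l₂^(k-1))² - 4 l₁² l₂^(2(k-1))`, where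
`l₁ = m_0 x + m_1`, `l₂ = m_2 x + m_3`. -/
noncomputable def fam {k : ℕ} (t : ℤ) (α : Fin k → K) (m : Fin 4 → K) : K[X] :=
  Ufam t α m ^ 2 - 4 * lin (m 0) (m 1) ^ 2 * (lin (m 2) (m 3) ^ (k - 1)) ^ 2

theorem lin_map {K' : Type*} [CommRing K'] (σ : K →+* K') (a b : K) :
    (lin a b).map σ = lin (σ a) (σ b) := by
  unfold lin
  simp

theorem fam_map {K' : Type*} [CommRing K'] (σ : K →+* K') {k : ℕ} (t : ℤ) (α : Fin k → K)
    (m : Fin 4 → K) : (fam t α m).map σ = fam t (fun i => σ (α i)) (fun i => σ (m i)) := by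
  unfold fam Ufam
  simp only [Polynomial.map_sub, Polynomial.map_pow, Polynomial.map_add, Polynomial.map_mul,
    Polynomial.map_prod, lin_map, Polynomial.map_C, Polynomial.map_intCast,
    Polynomial.map_ofNat]

end defs

section alg

variable {K : Type*} [Field K]

theorem lin_ne_zero {a b c d : K} (h : a * d - b * c ≠ 0) : lin a b ≠ 0 := by
  intro h0
  have h1 := congrArg (fun p => p.coeff 1) h0
  have h2 := congrArg (fun p => p.coeff 0) h0
  simp only [lin, coeff_add, coeff_C_mul, coeff_X_one, coeff_C_succ, coeff_X_zero, coeff_C_zero,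
    coeff_zero, mul_one, mul_zero, add_zero, zero_add] at h1 h2
  rw [h1, h2] at h
  simp at h

theorem lin_ne_zero' {a b c d : K} (h : a * d - b * c ≠ 0) : lin c d ≠ 0 := by
  refine lin_ne_zero (c := a) (d := b) ?_
  intro h0
  exact h (by linear_combination -h0)

theorem lin_sub (a b c d e : K) : lin a b - C e * lin c d = lin (a - e * c) (b - e * d) := by
  unfold lin
  simp only [C_sub, C_mul]
  ring

theorem lin_sub_ne_zero {a b c d : K} (h : a * d - b * c ≠ 0) (e : K) :
    lin a b - C e * lin c d ≠ 0 := by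
  rw [lin_sub]
  refine lin_ne_zero (c := c) (d := d) ?_
  intro h0
  exact h (by linear_combination h0)

theorem lin_eval₂ (σ : K →+* ℂ) (a b : K) (x : ℂ) : (lin a b).eval₂ σ x = σ a * x + σ b := by
  unfold lin
  simp only [eval₂_add, eval₂_mul, eval₂_C, eval₂_X]

/-- If `G` and `H` are the homogenisations of products of linear factors, then `U² - V²`
factors. -/
theorem fam_prod {k : ℕ} {α : Fin k → ℂ} {t : ℤ} {m : Fin 4 → ℂ} {r r' : Fin k → ℂ}
    (hk : 1 ≤ k)
    (h : ∀ y : ℂ, ∏ i, (y - α i) - (2 - t) * y = ∏ j, (y - r j))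
    (h' : ∀ y : ℂ, ∏ i, (y - α i) - (-2 - t) * y = ∏ j, (y - r' j)) :
    fam t α m = (∏ j, (lin (m 0) (m 1) - C (r j) * lin (m 2) (m 3))) *
      ∏ j, (lin (m 0) (m 1) - C (r' j) * lin (m 2) (m 3)) := by
  -- homogeneous form of the two identities
  have key : ∀ (s : ℂ) (ρ : Fin k → ℂ), (∀ y : ℂ, ∏ i, (y - α i) - (s - t) * y =
      ∏ j, (y - ρ j)) → ∀ a b : ℂ, b ≠ 0 → ∏ i, (a - α i * b) - (s - t) * a * b ^ (k - 1) =
      ∏ j, (a - ρ j * b) := by
    intro s ρ hs a b hb
    have h1 := hs (a / b)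
    have e : ∀ β : Fin k → ℂ, ∏ i, (a - β i * b) = b ^ k * ∏ i, (a / b - β i) := by
      intro β
      have : ∀ i, a - β i * b = b * (a / b - β i) := by
        intro i
        field_simp
      simp only [this, Finset.prod_mul_distrib, Finset.prod_const, Finset.card_univ,
        Fintype.card_fin]
    rw [e, e, ← h1]
    have hbk : b ^ k = b ^ (k - 1) * b := by rw [← pow_succ]; congr 1; omega
    rw [hbk]
    field_simp
  have key2 : ∀ (s : ℂ) (ρ : Fin k → ℂ), (∀ y : ℂ, ∏ i, (y - α i) - (s - t) * y =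
      ∏ j, (y - ρ j)) → (∏ i, (lin (m 0) (m 1) - C (α i) * lin (m 2) (m 3)) -
        C (s - t) * lin (m 0) (m 1) * lin (m 2) (m 3) ^ (k - 1)) =
      ∏ j, (lin (m 0) (m 1) - C (ρ j) * lin (m 2) (m 3)) := by
    intro s ρ hs
    have h3 := key s ρ hs
    -- the identity holds for all values of the two linear forms
    refine Polynomial.funext fun x => ?_
    simp only [eval_sub, eval_prod, eval_mul, eval_C, eval_pow]
    set a := (lin (m 0) (m 1)).eval x
    set b := (lin (m 2) (m 3)).eval x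
    by_cases hb : b = 0
    · have hcont1 : Continuous fun b : ℂ => ∏ i, (a - α i * b) - (s - t) * a * b ^ (k - 1) := by
        fun_prop
      have hcont2 : Continuous fun b : ℂ => ∏ j, (a - ρ j * b) := by fun_prop
      have hdense : Dense {b : ℂ | b ≠ 0} := dense_compl_singleton 0
      have := Continuous.ext_on hdense hcont1 hcont2 (fun b hb => h3 a b hb)
      exact congrFun this b
    · exact h3 a b hb
  have e1 := key2 2 r h
  have e2 := key2 (-2) r' h'
  rw [← e1, ← e2]
  unfold fam Ufam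
  simp only [C_sub, C_neg, C_ofNat, Polynomial.C_eq_intCast]
  have : (C (t : ℂ) : ℂ[X]) = (t : ℂ[X]) := by simp
  try rw [this]
  ring

theorem sqf_lin_mul {k : ℕ} {m : Fin 4 → ℂ} (hm : m 0 * m 3 - m 1 * m 2 ≠ 0) {r : Fin k → ℂ}
    (hr : Function.Injective r) :
    Squarefree (∏ j, (lin (m 0) (m 1) - C (r j) * lin (m 2) (m 3))) := by
  refine Finset.squarefree_prod_of_pairwise_isCoprime (fun i _ j _ hij => ?_) fun i _ => ?_
  · have hne : r i - r j ≠ 0 := sub_ne_zero.2 (hr.ne hij)
    set D : ℂ := m 0 * m 3 - m 1 * m 2 with hD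
    -- `m_2 l₁ - m_0 l₂ = -D`
    have hco : IsCoprime (lin (m 0) (m 1) - C (r i) * lin (m 2) (m 3))
        (lin (m 0) (m 1) - C (r j) * lin (m 2) (m 3)) := by
      refine ⟨C (-((r i - r j)⁻¹ * D⁻¹ * (m 0 - r j * m 2))), C ((r i - r j)⁻¹ * D⁻¹ *
        (m 0 - r i * m 2)), ?_⟩
      refine Polynomial.funext fun x => ?_
      simp only [eval_add, eval_mul, eval_sub, eval_C, lin, eval_X, eval_one]
      have e : m 0 * m 3 - m 1 * m 2 = D := rfl
      field_simp
      linear_combination (r i - r j) * e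
    exact hco.isRelPrime
  · rw [lin_sub]
    have h1 : lin (m 0 - r i * m 2) (m 1 - r i * m 3) ≠ 0 := by
      rw [← lin_sub]
      exact lin_sub_ne_zero hm _
    by_cases h2 : m 0 - r i * m 2 = 0
    · have h3 : m 1 - r i * m 3 ≠ 0 := by
        intro h4
        apply h1
        rw [h2, h4]
        simp [lin]
      have h4 : lin (m 0 - r i * m 2) (m 1 - r i * m 3) = C (m 1 - r i * m 3) := by
        rw [h2]
        simp [lin]
      rw [h4]
      exact (isUnit_C.2 (isUnit_iff_ne_zero.2 h3)).squarefree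
    · exact (irreducible_of_degree_eq_one (degree_linear h2)).squarefree

theorem sqf_famC {k : ℕ} {α : Fin k → ℂ} (H : Sp α) {t : ℤ} (ht : |t| ≤ 2) {m : Fin 4 → ℂ}
    (hm : m 0 * m 3 - m 1 * m 2 ≠ 0) : Squarefree (fam t α m) := by
  have ht' : ‖(t : ℂ)‖ ≤ 2 := by
    rw [Complex.norm_intCast]
    exact_mod_cast ht
  obtain ⟨x, han, hdisc, hprod⟩ := H.exists_branches ht'
  have b1 : (2 : ℂ) ∈ Metric.ball (0 : ℂ) (5 / 2) := by
    rw [mem_ball_zero_iff]; norm_num
  have b2 : (-2 : ℂ) ∈ Metric.ball (0 : ℂ) (5 / 2) := by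
    rw [mem_ball_zero_iff, norm_neg]; norm_num
  have hinj : ∀ u ∈ Metric.ball (0 : ℂ) (5 / 2), Function.Injective fun j => x j u := by
    intro u hu i j hij
    have hij' : x i u = x j u := hij
    have h1 := hdisc i u hu
    have h2 := hdisc j u hu
    rw [hij'] at h1
    exact H.disjoint h1 h2
  have hx0 : ∀ j, ∀ u ∈ Metric.ball (0 : ℂ) (5 / 2), x j u ≠ 0 := fun j u hu =>
    H.ne_zero (hdisc j u hu).le
  have e1 := fun y => eval_branches (hprod _ b1) y
  have e2 := fun y => eval_branches (hprod _ b2) y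
  rw [fam_prod (by have := H.two; omega) e1 e2]
  have hroots : ∀ i j, x i 2 ≠ x j (-2) := by
    intro i j hij
    have h1 := e1 (x i 2)
    have h2 := e2 (x i 2)
    rw [Finset.prod_eq_zero (s := Finset.univ) (f := fun j' => x i 2 - x j' 2)
      (Finset.mem_univ i) (sub_self _)] at h1
    rw [hij, Finset.prod_eq_zero (s := Finset.univ) (f := fun j' => x j (-2) - x j' (-2))
      (Finset.mem_univ j) (sub_self _), ← hij] at h2
    have h3 : x i 2 * 4 = 0 := by linear_combination h2 - h1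
    rcases mul_eq_zero.1 h3 with h4 | h4
    · exact hx0 i 2 b1 h4
    · norm_num at h4
  -- join the two families
  have hjoin : Function.Injective (Sum.elim (fun j => x j 2) (fun j => x j (-2))) := by
    refine Function.Injective.sumElim (hinj _ b1) (hinj _ b2) hroots
  have hfin : (∏ j, (lin (m 0) (m 1) - C (x j 2) * lin (m 2) (m 3))) *
      ∏ j, (lin (m 0) (m 1) - C (x j (-2)) * lin (m 2) (m 3)) =
      ∏ j : Fin (k + k), (lin (m 0) (m 1) - C (Sum.elim (fun j => x j 2) (fun j => x j (-2))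
        (finSumFinEquiv.symm j)) * lin (m 2) (m 3)) := by
    rw [Equiv.prod_comp finSumFinEquiv.symm (fun s => (lin (m 0) (m 1) -
      C (Sum.elim (fun j => x j 2) (fun j => x j (-2)) s) * lin (m 2) (m 3))),
      Fintype.prod_sum_type]
    rfl
  rw [hfin]
  exact sqf_lin_mul hm (hjoin.comp finSumFinEquiv.symm.injective)

theorem sqf_fam (σ : K →+* ℂ) {k : ℕ} {α : Fin k → K} (H : Sp fun i => σ (α i)) {t : ℤ}
    (ht : |t| ≤ 2) {m : Fin 4 → K} (hm : m 0 * m 3 - m 1 * m 2 ≠ 0) :
    Squarefree (fam t α m) := by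
  have h1 : Squarefree ((fam t α m).map σ) := by
    rw [fam_map]
    refine sqf_famC H ht ?_
    simp only [← map_mul, ← map_sub]
    exact (map_ne_zero σ).2 hm
  have h2 : ((fam t α m).map σ).Separable := PerfectField.separable_iff_squarefree.2 h1
  exact ((separable_map σ).1 h2).squarefree

end alg

end Pool.Agent.H442
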