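import Pool.Agent.H442.Spec5
import Pool.Agent.H442.Disc3
set_option autoImplicit false

/-!
Translations of the variable `x` and the irreducibility of the special members.
-/

namespace Pool.Agent.H442

open Polynomial

open Pool.Agent.TH826.MK (Torus KQ Unramified)

theorem GG_map {K K' : Type*} [CommRing K] [CommRing K'] (φ : K[X] →+* K'[X]) (P : ℤ[X])
    (A D : K[X]) : (GG P A D).map φ = GG P (φ A) (φ D) := by
  unfold GG
  rw [Polynomial.map_sub, Polynomial.map_mul, Polynomial.map_mul, map_C, map_C, map_X, map_map]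
  congr 3
  exact Subsingleton.elim _ _

theorem algOfEquiv {R S L : Type*} [CommRing R] [CommRing S] [Field L] [Algebra S L]
    [IsFractionRing S L] (e : R ≃+* S) : ∃ (_ : Algebra R L), IsFractionRing R L := by
  let i : Algebra R L := ((algebraMap S L).comp (e : R →+* S)).toAlgebra
  exact ⟨i, IsFractionRing.of_ringEquiv_left e (fun x => rfl)⟩

theorem exists_equiv {K : Type*} [Field K] (P : ℤ[X]) (A D : K[X]) (ν : K) :
    Nonempty (GRing P A D ≃+* GRing P (A.comp (X + C ν)) (D.comp (X + C ν))) := by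
  have h1 : (GG P A D).map ((taylorEquiv ν).toRingEquiv : K[X] →+* K[X]) =
      GG P (A.comp (X + C ν)) (D.comp (X + C ν)) := by
    rw [GG_map]
    rfl
  exact ⟨AdjoinRoot.mapRingEquiv (taylorEquiv ν).toRingEquiv _ _ (by rw [h1])⟩

theorem exists_alg {K : Type*} [Field K] {P : ℤ[X]} {A D : K[X]} (ν : K) (L : Type*) [Field L]
    [Algebra (GRing P (A.comp (X + C ν)) (D.comp (X + C ν))) L]
    [IsFractionRing (GRing P (A.comp (X + C ν)) (D.comp (X + C ν))) L] :
    ∃ (_ : Algebra (GRing P A D) L), IsFractionRing (GRing P A D) L := by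
  obtain ⟨e⟩ := exists_equiv P A D ν
  exact algOfEquiv e

theorem irr_spec {K : Type*} [Field K] [CharZero K] (σ : K →+* ℂ) {P : ℤ[X]} (hP : P.Monic)
    (hN : 3 ≤ P.natDegree) (hP0 : P.coeff 0 = 1 ∨ P.coeff 0 = -1) {p : ℕ} (hp : 1 ≤ p)
    {β : Fin p → ℕ} (hβ : Function.Injective β) (h2 : ∀ l, 2 ≤ β l) {A : ℤ[X]} (hA : A.Monic)
    (hX : X ∣ A) (ν : ℤ)
    (hcop : IsCoprime ((A.comp (X + C ν)).map (Int.castRingHom K))
      (((Dz β).comp (X + C ν)).map (Int.castRingHom K))) :
    Irreducible (GG P ((A.comp (X + C ν)).map (Int.castRingHom K))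
      (((Dz β).comp (X + C ν)).map (Int.castRingHom K))) := by
  have hX1 : (X + C ν : ℤ[X]).natDegree = 1 := natDegree_X_add_C ν
  have hDe : ((Dz β).comp (X + C ν)).map (Int.castRingHom K) =
      ∏ l, (X - C (((β l : ℕ) : K) - ν)) := by
    unfold Dz
    rw [prod_comp, Polynomial.map_prod]
    refine Finset.prod_congr rfl fun l _ => ?_
    simp
    ring
  set l₀ : Fin p := ⟨0, hp⟩
  refine irr5 σ hP hN hP0 ((hA.comp (monic_X_add_C ν) (by rw [hX1]; norm_num)).map _)
    (((Dz_monic β).comp (monic_X_add_C ν) (by rw [hX1]; norm_num)).map _) hcop ?_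
    (b := ((β l₀ : ℕ) : K) - ν) ?_ ?_
  · rw [hDe]
    refine (separable_prod_X_sub_C_iff.2 fun i j hij => hβ ?_).squarefree
    have h3 : ((β i : ℕ) : K) = ((β j : ℕ) : K) := by linear_combination hij
    exact_mod_cast h3
  · rw [hDe, eval_prod]
    exact Finset.prod_eq_zero (Finset.mem_univ l₀) (by simp)
  · obtain ⟨B, hB⟩ := hX
    have h3 : eval (((β l₀ : ℕ) : K) - ν) ((A.comp (X + C ν)).map (Int.castRingHom K)) =
        ((β l₀ * B.eval (β l₀ : ℤ) : ℤ) : K) := by
      rw [Polynomial.map_comp, eval_comp]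
      have h4 : eval (((β l₀ : ℕ) : K) - ν) (map (Int.castRingHom K) (X + C ν)) =
          ((β l₀ : ℤ) : K) := by
        simp
      rw [h4]
      have h5 := eval_map (f := Int.castRingHom K) (p := A) ((β l₀ : ℤ) : K)
      rw [h5, eval₂_at_intCast, hB, eval_mul, eval_X]
      simp
    rw [h3, map_intCast, Complex.norm_intCast]
    have h4 : 2 ≤ β l₀ := h2 l₀
    intro h5
    have h6 : |((β l₀ : ℤ) * B.eval (β l₀ : ℤ))| = 1 := by exact_mod_cast h5
    have h7 : IsUnit ((β l₀ : ℤ) * B.eval (β l₀ : ℤ)) := Int.isUnit_iff_abs_eq.2 h6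
    have h8 := isUnit_of_mul_isUnit_left h7
    have h9 := Int.isUnit_iff_abs_eq.1 h8
    rw [Nat.abs_cast] at h9
    omega

end Pool.Agent.H442
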