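import Pool.Agent.H442.Num6
import Pool.Agent.H442.Disc3
set_option autoImplicit false

/-!
Translations of the variable `x`, irreducibility of the special members and the reduction of
polynomial conditions over larger fields to polynomial conditions over the rational numbers.
-/

namespace Pool.Agent.H442

open Polynomial

open Pool.Agent.TH826.MK (Torus KQ Unramified)

/-- A nonzero polynomial over an extension field of `ℚ` does not vanish where a nonzero polynomial
over `ℚ` does not vanish. -/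
theorem exists_rat {ι : Type*} [Fintype ι] {F : Type*} [Field F] [Algebra ℚ F]
    (H : MvPolynomial ι F) (hH : H ≠ 0) : ∃ H' : MvPolynomial ι ℚ, H' ≠ 0 ∧ ∀ x : ι → ℚ,
      MvPolynomial.eval x H' ≠ 0 → MvPolynomial.eval (fun i => algebraMap ℚ F (x i)) H ≠ 0 := by
  classical
  obtain ⟨m, hm⟩ := MvPolynomial.ne_zero_iff.1 hH
  obtain ⟨l, hl⟩ : ∃ l : F →ₗ[ℚ] ℚ, l (MvPolynomial.coeff m H) ≠ 0 := by
    by_contra hcon
    push Not at hcon
    exact hm ((Module.forall_dual_apply_eq_zero_iff ℚ _).1 hcon)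
  obtain ⟨H', hH'⟩ : ∃ H' : MvPolynomial ι ℚ, H' = ∑ d ∈ H.support,
    MvPolynomial.monomial d (l (MvPolynomial.coeff d H)) := ⟨_, rfl⟩
  have hev : ∀ x : ι → ℚ, MvPolynomial.eval x H' =
      l (MvPolynomial.eval (fun i => algebraMap ℚ F (x i)) H) := by
    intro x
    rw [hH', map_sum, MvPolynomial.eval_eq', map_sum]
    refine Finset.sum_congr rfl fun d _ => ?_
    rw [MvPolynomial.eval_monomial]
    have e : MvPolynomial.coeff d H * ∏ i, (algebraMap ℚ F (x i)) ^ d i =
        (∏ i, (x i) ^ d i) • MvPolynomial.coeff d H := by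
      rw [Algebra.smul_def, map_prod, mul_comm]
      simp only [map_pow]
    rw [e, map_smul, smul_eq_mul, mul_comm, Finsupp.prod_fintype _ _ (fun i => pow_zero _)]
  refine ⟨H', fun h0 => ?_, fun x hx h0 => hx ?_⟩
  · apply hl
    have h1 : MvPolynomial.coeff m H' = l (MvPolynomial.coeff m H) := by
      rw [hH', MvPolynomial.coeff_sum]
      simp only [MvPolynomial.coeff_monomial]
      rw [Finset.sum_ite_eq', if_pos (MvPolynomial.mem_support_iff.2 hm)]
    rw [← h1, h0, MvPolynomial.coeff_zero]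
  · rw [hev, h0, map_zero]

theorem algOfEquiv' {R S L : Type*} [CommRing R] [CommRing S] [Field L] [Algebra S L]
    [IsFractionRing S L] (e : R ≃+* S) : ∃ (_ : Algebra R L), IsFractionRing R L ∧
      ∀ a : R, algebraMap R L a = algebraMap S L (e a) := by
  let i : Algebra R L := ((algebraMap S L).comp (e : R →+* S)).toAlgebra
  exact ⟨i, IsFractionRing.of_ringEquiv_left e (fun x => rfl), fun a => rfl⟩

section trans

variable {K : Type*} [Field K]

theorem CG_map {K' : Type*} [Field K'] (φ : K[X] →+* K'[X]) (A B : K[X]) :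
    (CG A B).map φ = CG (φ A) (φ B) := by
  unfold CG
  rw [Polynomial.map_sub, Polynomial.map_mul, Polynomial.map_pow, map_C, map_C, map_X]

theorem exists_equiv6 (A B : K[X]) (ν : K) :
    ∃ e : AdjoinRoot (CG A B) ≃+* AdjoinRoot (CG (A.comp (X + C ν)) (B.comp (X + C ν))),
      ∀ Q : K[X], e (AdjoinRoot.of _ Q) = AdjoinRoot.of _ (Q.comp (X + C ν)) := by
  have h1 : (CG A B).map ((taylorEquiv ν).toRingEquiv : K[X] →+* K[X]) =
      CG (A.comp (X + C ν)) (B.comp (X + C ν)) := by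
    rw [CG_map]
    rfl
  refine ⟨AdjoinRoot.mapRingEquiv (taylorEquiv ν).toRingEquiv _ _ (by rw [h1]), fun Q => ?_⟩
  rw [AdjoinRoot.coe_mapRingEquiv, AdjoinRoot.map_of]
  rfl

theorem CG_irr' {c : K} (hc : c ≠ 0) {B D : K[X]} (hcop : IsCoprime B D) (hs : Squarefree B)
    {a : K} (ha : B.eval a = 0) : Irreducible (CG (B + C c * D) B) := by
  refine CG_irr ?_ ha hs
  have h1 : IsCoprime (C c * D) B := IsCoprime.mul_left
    ⟨C c⁻¹, 0, by rw [zero_mul, add_zero, ← C_mul, inv_mul_cancel₀ hc, C_1]⟩ hcop.symm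
  have h2 := h1.add_mul_right_left 1
  rwa [one_mul, add_comm] at h2

theorem squarefree_map6 [CharZero K] {B : ℤ[X]} (hs : Squarefree (B.map (Int.castRingHom ℚ))) :
    Squarefree (B.map (Int.castRingHom K)) := by
  have h1 : (B.map (Int.castRingHom ℚ)).Separable := PerfectField.separable_iff_squarefree.2 hs
  have h2 := (h1.map (f := algebraMap ℚ K)).squarefree
  rw [Polynomial.map_map] at h2
  have h3 : (algebraMap ℚ K).comp (Int.castRingHom ℚ) = Int.castRingHom K := Subsingleton.elim _ _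
  rwa [h3] at h2

theorem coprime_map6 [CharZero K] {B D : ℤ[X]}
    (h : IsCoprime (B.map (Int.castRingHom ℚ)) (D.map (Int.castRingHom ℚ))) :
    IsCoprime (B.map (Int.castRingHom K)) (D.map (Int.castRingHom K)) := by
  have h2 := h.map (mapRingHom (algebraMap ℚ K))
  rw [coe_mapRingHom, Polynomial.map_map, Polynomial.map_map] at h2
  have h3 : (algebraMap ℚ K).comp (Int.castRingHom ℚ) = Int.castRingHom K := Subsingleton.elim _ _
  rwa [h3] at h2

/-- The classes and the loops after a translation of `x`. -/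
theorem transfer6 {A B : K[X]} {r : ℕ} (h : ∀ (L : Type) [Field L]
    [Algebra (AdjoinRoot (CG A B)) L] [IsFractionRing (AdjoinRoot (CG A B)) L],
      ∃ w : Fin 2 × Fin r → KQ L 2, (∀ k, w k ∈ Unramified L 2) ∧ ∀ σ : K →+* ℂ,
        ∃ Γ : Fin 2 × Fin r → Torus L 1,
          (∀ i θ a, (Γ i).e θ (pA (G := CG A B) L (C a)) = σ a) ∧
            (Matrix.of fun i k => (Γ i).reg (w k)).det ≠ 0) (ν : K) {A' B' : K[X]}
    (hA' : A' = A.comp (X + C ν)) (hB' : B' = B.comp (X + C ν)) {G : K[X][X]}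
    (hG : G = C A' * X ^ 3 - C B') (L : Type) [Field L] [i1 : Algebra (AdjoinRoot G) L]
    [i2 : IsFractionRing (AdjoinRoot G) L] :
    ∃ w : Fin 2 × Fin r → KQ L 2, (∀ k, w k ∈ Unramified L 2) ∧ ∀ σ : K →+* ℂ,
      ∃ Γ : Fin 2 × Fin r → Torus L 1,
        (∀ i θ a, (Γ i).e θ (algebraMap (AdjoinRoot G) L (AdjoinRoot.of G (C a))) = σ a) ∧
          (Matrix.of fun i k => (Γ i).reg (w k)).det ≠ 0 := by
  have hG' : G = CG (A.comp (X + C ν)) (B.comp (X + C ν)) := by
    rw [hG, hA', hB']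
    rfl
  subst hG'
  obtain ⟨e, he⟩ := exists_equiv6 A B ν
  obtain ⟨a1, a2, a3⟩ := algOfEquiv' (L := L) e
  obtain ⟨w, hw, hΓ⟩ := h L
  refine ⟨w, hw, fun σ => ?_⟩
  obtain ⟨Γ, h1, h2⟩ := hΓ σ
  refine ⟨Γ, fun i θ a => ?_, h2⟩
  rw [← h1 i θ a]
  have h3 : pA (G := CG A B) L (C a) = algebraMap (AdjoinRoot (CG A B)) L
      (AdjoinRoot.of _ (C a)) := rfl
  rw [h3, a3, he, C_comp]

end trans

end Pool.Agent.H442
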