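import Pool.Agent.H442.Num7
set_option autoImplicit false

/-!
Translations of the variable `x` and irreducibility of the special members.
-/

namespace Pool.Agent.H442

open Polynomial

open Pool.Agent.TH826.MK (Torus KQ Unramified)

theorem QG_map {K K' : Type*} [Field K] [Field K'] (φ : K[X] →+* K'[X]) (B D : K[X]) :
    (QG B D).map φ = QG (φ B) (φ D) := by
  unfold QG
  simp only [Polynomial.map_sub, Polynomial.map_mul, Polynomial.map_pow, Polynomial.map_add,
    map_C, map_X, Polynomial.map_one]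

theorem exists_equiv7 {K : Type*} [Field K] (B D : K[X]) (ν : K) :
    Nonempty (AdjoinRoot (QG B D) ≃+* AdjoinRoot (QG (B.comp (X + C ν)) (D.comp (X + C ν)))) := by
  have h1 : (QG B D).map ((taylorEquiv ν).toRingEquiv : K[X] →+* K[X]) =
      QG (B.comp (X + C ν)) (D.comp (X + C ν)) := by
    rw [QG_map]
    rfl
  exact ⟨AdjoinRoot.mapRingEquiv (taylorEquiv ν).toRingEquiv _ _ (by rw [h1])⟩

/-- The classes and the loops after a translation of `x`. -/
theorem transfer7 {K : Type*} [Field K] {B D : K[X]} {r : ℕ} (h : ∀ (L : Type) [Field L]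
    [Algebra (AdjoinRoot (QG B D)) L] [IsFractionRing (AdjoinRoot (QG B D)) L],
      ∃ w : Fin 2 × Fin r → KQ L 2, (∀ k, w k ∈ Unramified L 2) ∧
        ∃ Γ : Fin 2 × Fin r → Torus L 1, (Matrix.of fun i k => (Γ i).reg (w k)).det ≠ 0) (ν : K)
    {B' D' : K[X]} (hB' : B' = B.comp (X + C ν)) (hD' : D' = D.comp (X + C ν)) {G : K[X][X]}
    (hG : G = C D' * (X ^ 2 - X + 1) ^ 2 - C B' * (X * (1 - X))) (L : Type) [Field L]
    [i1 : Algebra (AdjoinRoot G) L] [i2 : IsFractionRing (AdjoinRoot G) L] :
    ∃ w : Fin 2 × Fin r → KQ L 2, (∀ k, w k ∈ Unramified L 2) ∧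
      ∃ Γ : Fin 2 × Fin r → Torus L 1, (Matrix.of fun i k => (Γ i).reg (w k)).det ≠ 0 := by
  have hG' : G = QG (B.comp (X + C ν)) (D.comp (X + C ν)) := by
    rw [hG, hD', hB']
    rfl
  subst hG'
  obtain ⟨e⟩ := exists_equiv7 B D ν
  obtain ⟨a1, a2, a3⟩ := algOfEquiv' (L := L) e
  exact h L

theorem squarefree_Dz {K : Type*} [Field K] [CharZero K] {p : ℕ} {β : Fin p → ℕ}
    (hβ : Function.Injective β) (ν : ℤ) :
    Squarefree (((Dz β).comp (X + C ν)).map (Int.castRingHom K)) := by
  have hDe : ((Dz β).comp (X + C ν)).map (Int.castRingHom K) =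
      ∏ l, (X - C (((β l : ℕ) : K) - ν)) := by
    unfold Dz
    rw [prod_comp, Polynomial.map_prod]
    refine Finset.prod_congr rfl fun l _ => ?_
    simp
    ring
  rw [hDe]
  refine (separable_prod_X_sub_C_iff.2 fun i j hij => hβ ?_).squarefree
  have h3 : ((β i : ℕ) : K) = ((β j : ℕ) : K) := by linear_combination hij
  exact_mod_cast h3

theorem root_Dz {K : Type*} [Field K] {p : ℕ} {β : Fin p → ℕ} (l : Fin p) (ν : ℤ) :
    (((Dz β).comp (X + C ν)).map (Int.castRingHom K)).eval (((β l : ℕ) : K) - ν) = 0 := by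
  have hDe : ((Dz β).comp (X + C ν)).map (Int.castRingHom K) =
      ∏ l, (X - C (((β l : ℕ) : K) - ν)) := by
    unfold Dz
    rw [prod_comp, Polynomial.map_prod]
    refine Finset.prod_congr rfl fun l _ => ?_
    simp
    ring
  rw [hDe, eval_prod]
  exact Finset.prod_eq_zero (Finset.mem_univ l) (by simp)

theorem root_comp {K : Type*} [Field K] {B : ℤ[X]} (hB : B.eval 0 = 0) (ν : ℤ) :
    ((B.comp (X + C ν)).map (Int.castRingHom K)).eval (((-ν : ℤ) : K)) = 0 := by
  have h5 := eval_map (f := Int.castRingHom K) (p := B.comp (X + C ν)) (((-ν : ℤ) : K))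
  rw [h5, eval₂_at_intCast, eval_comp, eval_add, eval_X, eval_C, Int.cast_id, neg_add_cancel,
    hB, map_zero]

/-- Squarefree and coprime polynomials before the translation. -/
theorem untranslate {B D : ℤ[X]} {ν : ℤ}
    (hcop : IsCoprime ((B.comp (X + C ν)).map (Int.castRingHom ℚ))
      ((D.comp (X + C ν)).map (Int.castRingHom ℚ)))
    (hsq : Squarefree ((B.comp (X + C ν)).map (Int.castRingHom ℚ))) :
    IsCoprime (B.map (Int.castRingHom ℚ)) (D.map (Int.castRingHom ℚ)) ∧
      Squarefree (B.map (Int.castRingHom ℚ)) := by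
  have h3 : ∀ P : ℤ[X], ((P.comp (X + C ν)).map (Int.castRingHom ℚ)).comp (X - C (ν : ℚ)) =
      P.map (Int.castRingHom ℚ) := by
    intro P
    rw [Polynomial.map_comp, comp_assoc]
    have h4 : ((X + C ν : ℤ[X]).map (Int.castRingHom ℚ)).comp (X - C (ν : ℚ)) = X := by
      simp
    rw [h4, comp_X]
  constructor
  · have h5 := hcop.map (compRingHom (X - C (ν : ℚ)))
    rwa [coe_compRingHom_apply, coe_compRingHom_apply, h3, h3] at h5
  · have h6 : ((B.comp (X + C ν)).map (Int.castRingHom ℚ)).Separable :=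
      PerfectField.separable_iff_squarefree.2 hsq
    have h7 : (B.map (Int.castRingHom ℚ)).Separable := by
      rw [separable_def] at h6 ⊢
      have h8 := h6.map (compRingHom (X - C (ν : ℚ)))
      rw [coe_compRingHom_apply, coe_compRingHom_apply, h3] at h8
      have h9 : (derivative ((B.comp (X + C ν)).map (Int.castRingHom ℚ))).comp
          (X - C (ν : ℚ)) = derivative (B.map (Int.castRingHom ℚ)) := by
        rw [← h3 B, derivative_comp, derivative_sub, derivative_X, derivative_C, sub_zero,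
          one_mul]
      rwa [h9] at h8
    exact h7.squarefree

end Pool.Agent.H442
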