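import Pool.Graph.R_pool_sql_team_seeded_620a6dc7.Helper537_Sym.Symb
import Pool.Graph.R_seed8.TH826.MK.Variety
set_option autoImplicit false

/-!
The classes `{z, ∏ (X - α_i)^{n_i}}` on the curves `z + 1/z = t + ∏ (X - α_i) / X`: they are
unramified at all discrete valuations if `∏ α_i^{n_i}` is a root of unity.
-/

namespace Pool.Agent.H442

open scoped WithZero

open Pool.Agent.TH826.MK (KQ symb unitPart Unramified mem_unitPart_of_oneUnit'
  mem_unitPart_of_pow val_one_of_sub_one val_le_one_of_integral)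

open Pool.Agent.Helper537_Sym

section gen

variable {L : Type*} [Field L] (v : Valuation L ℤᵐ⁰)

theorem sy_mem_left {u w : Lˣ} (h : v ((u : L) - 1) < 1) : sy u w ∈ unitPart v 2 :=
  mem_unitPart_of_oneUnit' v 0 ![u, w] h

theorem sy_mem_right {u w : Lˣ} (h : v ((w : L) - 1) < 1) : sy u w ∈ unitPart v 2 :=
  mem_unitPart_of_oneUnit' v 1 ![u, w] h

theorem sy_mem_left_pow {u w : Lˣ} {m : ℕ} (hm : m ≠ 0) (h : v ((u : L) ^ m - 1) < 1) :
    sy u w ∈ unitPart v 2 :=
  mem_unitPart_of_pow v 0 ![u, w] hm h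

theorem sy_mem_right_pow {u w : Lˣ} {m : ℕ} (hm : m ≠ 0) (h : v ((w : L) ^ m - 1) < 1) :
    sy u w ∈ unitPart v 2 :=
  mem_unitPart_of_pow v 1 ![u, w] hm h

theorem sy_mem_units {u w : Lˣ} (hu : v (u : L) = 1) (hw : v (w : L) = 1) :
    sy u w ∈ unitPart v 2 := by
  refine Submodule.subset_span ⟨![u, w], fun i => ?_, rfl⟩
  fin_cases i
  · exact hu
  · exact hw

theorem one_mul' {a b : L} (ha : v (a - 1) < 1) (hb : v (b - 1) < 1) : v (a * b - 1) < 1 := by
  have e : a * b - 1 = a * (b - 1) + (a - 1) := by ring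
  rw [e]
  refine (v.map_add _ _).trans_lt (max_lt ?_ ha)
  rw [map_mul, val_one_of_sub_one ha, one_mul]
  exact hb

theorem one_prod' {ι : Type*} (s : Finset ι) {a : ι → L} (ha : ∀ i, v (a i - 1) < 1) :
    v (∏ i ∈ s, a i - 1) < 1 := by
  classical
  induction s using Finset.induction_on with
  | empty => simp
  | insert i s hi ih => rw [Finset.prod_insert hi]; exact one_mul' v (ha i) ih

theorem one_inv' {a : L} (ha : v (a - 1) < 1) : v (a⁻¹ - 1) < 1 := by
  have h1 := val_one_of_sub_one ha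
  have h0 : a ≠ 0 := fun h => by rw [h, map_zero] at h1; exact zero_ne_one h1
  have e : a⁻¹ - 1 = -(a⁻¹ * (a - 1)) := by
    field_simp
    ring
  rw [e, Valuation.map_neg, map_mul, map_inv₀, h1, inv_one, one_mul]
  exact ha

theorem one_zpow' {a : L} (ha : v (a - 1) < 1) (n : ℤ) : v (a ^ n - 1) < 1 := by
  have hn : ∀ m : ℕ, v (a ^ m - 1) < 1 := by
    intro m
    have h := one_prod' v (Finset.range m) (a := fun _ => a) (fun _ => ha)
    rwa [Finset.prod_const, Finset.card_range] at h
  obtain ⟨m, rfl | rfl⟩ := n.eq_nat_or_neg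
  · rw [zpow_natCast]; exact hn m
  · rw [zpow_neg, zpow_natCast]; exact one_inv' v (hn m)

theorem val_int_le (m : ℤ) : v (m : L) ≤ 1 :=
  val_le_one_of_integral v (by
    have := isIntegral_algebraMap (R := ℤ) (A := L) (x := m)
    simpa using this)

/-- modulo `v` the solutions of `z² - t z + 1 = 0`, `|t| ≤ 2`, are roots of unity -/
theorem pow12 {z : L} {t : ℤ} (ht : |t| ≤ 2) (hz : v z ≤ 1)
    (h : v (z ^ 2 - t * z + 1) < 1) : v (z ^ 12 - 1) < 1 := by
  have key : ∀ q : v.integer, v ((z ^ 2 - t * z + 1) * (q : L)) < 1 := by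
    intro q
    rw [map_mul]
    exact mul_lt_one_of_lt_of_le h q.2
  have key2 : ∀ a : L, v (a ^ 2) < 1 → v a < 1 := by
    intro a ha
    rw [map_pow] at ha
    by_contra hcon
    exact absurd ha (not_lt.2 (one_le_pow₀ (not_lt.1 hcon)))
  let w : v.integer := ⟨z, hz⟩
  rw [abs_le] at ht
  obtain ⟨h1, h2⟩ := ht
  interval_cases t
  · have h3 : v (z + 1) < 1 := by
      apply key2
      have e : (z + 1) ^ 2 = z ^ 2 - ((-2 : ℤ) : L) * z + 1 := by push_cast; ring
      rw [e]; exact h
    have e : z ^ 12 - 1 = (z + 1) * ((((w - 1) * (w ^ 2 + 1 - w) * (w ^ 2 + 1 + w) *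
        (w ^ 6 + 1) : v.integer)) : L) := by
      push_cast; simp only [w]; ring
    rw [e, map_mul]
    exact mul_lt_one_of_lt_of_le h3 (Subtype.prop (_ : v.integer))
  · have e : z ^ 12 - 1 = (z ^ 2 - ((-1 : ℤ) : L) * z + 1) * ((((w - 1) * (w ^ 3 + 1) *
        (w ^ 6 + 1) : v.integer)) : L) := by
      push_cast; simp only [w]; ring
    rw [e]; exact key _
  · have e : z ^ 12 - 1 = (z ^ 2 - ((0 : ℤ) : L) * z + 1) * ((((w ^ 2 - 1) *
        (w ^ 8 + w ^ 4 + 1) : v.integer)) : L) := by
      push_cast; simp only [w]; ring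
    rw [e]; exact key _
  · have e : z ^ 12 - 1 = (z ^ 2 - ((1 : ℤ) : L) * z + 1) * ((((w + 1) * (w ^ 3 - 1) *
        (w ^ 6 + 1) : v.integer)) : L) := by
      push_cast; simp only [w]; ring
    rw [e]; exact key _
  · have h3 : v (z - 1) < 1 := by
      apply key2
      have e : (z - 1) ^ 2 = z ^ 2 - ((2 : ℤ) : L) * z + 1 := by push_cast; ring
      rw [e]; exact h
    have e : z ^ 12 - 1 = (z - 1) * ((((w + 1) * (w ^ 2 + 1 - w) * (w ^ 2 + 1 + w) *
        (w ^ 6 + 1) : v.integer)) : L) := by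
      push_cast; simp only [w]; ring
    rw [e, map_mul]
    exact mul_lt_one_of_lt_of_le h3 (Subtype.prop (_ : v.integer))

end gen

section main

variable {L : Type*} [Field L] {v : Valuation L ℤᵐ⁰} {k : ℕ}

/-- The equation `z + 1/z = t + ∏ (X - α_i) / X`. -/
structure Eqn {L : Type*} [Field L] {k : ℕ} (t : ℤ) (α : Fin k → L) (X z : Lˣ) : Prop where
  eq : (X : L) * ((z : L) ^ 2 + 1) = (t * X + ∏ i, ((X : L) - α i)) * z

theorem Eqn.inv {t : ℤ} {α : Fin k → L} {X z : Lˣ} (h : Eqn t α X z) : Eqn t α X z⁻¹ := by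
  refine ⟨?_⟩
  have hz : (z : L) ≠ 0 := z.ne_zero
  have h1 := h.eq
  rw [Units.val_inv_eq_inv_val]
  field_simp
  linear_combination h1

/-- the points with a pole of `X` -/
theorem mem_inf_aux {t : ℤ} {α : Fin k → L} {X z : Lˣ} (hk : 2 ≤ k) (h : Eqn t α X z)
    (hα : ∀ i, v (α i) ≤ 1) (hX : 1 < v (X : L)) (hz : 1 ≤ v (z : L)) (w : Fin k → Lˣ)
    (hw : ∀ i, (w i : L) = X - α i) (n : Fin k → ℤ) :
    sy z (∏ i, w i ^ n i) ∈ unitPart v 2 := by
  have hX0 : (X : L) ≠ 0 := X.ne_zero
  have hz0 : (z : L) ≠ 0 := z.ne_zero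
  -- the one-units `(X - α_i) / X`
  have hu : ∀ i, v (((w i / X : Lˣ) : L) - 1) < 1 := by
    intro i
    have e : ((w i / X : Lˣ) : L) - 1 = -(α i / X) := by
      rw [Units.val_div_eq_div_val, hw]
      field_simp
      ring
    rw [e, Valuation.map_neg, map_div₀, div_lt_one₀ (zero_lt_one.trans hX)]
    exact (hα i).trans_lt hX
  -- `z / X^{k-1}` is a one-unit
  have hz1 : v (((z / X ^ (k - 1) : Lˣ) : L) - 1) < 1 := by
    have h1 : v (∏ i, ((w i / X : Lˣ) : L) - 1) < 1 := one_prod' v _ hu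
    have hXk : (X : L) ^ (k - 1) * X = X ^ k := by
      rw [← pow_succ]
      congr 1
      omega
    have h2 : (∏ i, ((w i / X : Lˣ) : L)) = (∏ i, ((X : L) - α i)) / (X : L) ^ k := by
      have : ∀ i, ((w i / X : Lˣ) : L) = ((X : L) - α i) / X := by
        intro i
        rw [Units.val_div_eq_div_val, hw]
      simp only [this, Finset.prod_div_distrib, Finset.prod_const, Finset.card_univ,
        Fintype.card_fin]
    have e : ((z / X ^ (k - 1) : Lˣ) : L) - 1 = (∏ i, ((w i / X : Lˣ) : L) - 1) +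
        (t - (z : L)⁻¹) / (X : L) ^ (k - 1) := by
      rw [h2, Units.val_div_eq_div_val, Units.val_pow_eq_pow_val, ← hXk]
      have h3 := h.eq
      have h4 : (X : L) ^ (k - 1) ≠ 0 := pow_ne_zero _ hX0
      field_simp
      linear_combination h3
    rw [e]
    refine (v.map_add _ _).trans_lt (max_lt h1 ?_)
    rw [map_div₀, map_pow]
    have h5 : 1 < v (X : L) ^ (k - 1) := one_lt_pow₀ hX (by omega)
    rw [div_lt_one₀ (zero_lt_one.trans h5)]
    refine lt_of_le_of_lt ((v.map_sub _ _).trans (max_le (val_int_le v t) ?_)) h5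
    rw [map_inv₀]
    exact inv_le_one_of_one_le₀ hz
  have hXX : sy z X ∈ unitPart v 2 := by
    have e : z = (z / X ^ (k - 1)) * X ^ (k - 1) := by rw [div_mul_cancel]
    rw [e, sy_mul_left, sy_pow_left, sy_self, smul_zero, add_zero]
    exact sy_mem_left v hz1
  rw [sy_prod_right]
  refine Submodule.sum_mem _ fun i _ => ?_
  rw [sy_zpow_right]
  refine Submodule.smul_mem _ _ ?_
  have e : w i = (w i / X) * X := by rw [div_mul_cancel]
  rw [e, sy_mul_right]
  exact Submodule.add_mem _ (sy_mem_right v (hu i)) hXX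

theorem mem_inf {t : ℤ} {α : Fin k → L} {X z : Lˣ} (hk : 2 ≤ k) (h : Eqn t α X z)
    (hα : ∀ i, v (α i) ≤ 1) (hX : 1 < v (X : L)) (w : Fin k → Lˣ)
    (hw : ∀ i, (w i : L) = X - α i) (n : Fin k → ℤ) :
    sy z (∏ i, w i ^ n i) ∈ unitPart v 2 := by
  rcases le_or_gt 1 (v (z : L)) with h1 | h1
  · exact mem_inf_aux hk h hα hX h1 w hw n
  · have h2 : 1 ≤ v ((z⁻¹ : Lˣ) : L) := by
      rw [Units.val_inv_eq_inv_val, map_inv₀]
      have h3 : 0 < v (z : L) := zero_lt_iff.2 ((Valuation.ne_zero_iff v).2 z.ne_zero)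
      exact (one_le_inv₀ h3).2 h1.le
    have h3 := mem_inf_aux hk h.inv hα hX h2 w hw n
    rw [sy_inv_left] at h3
    exact (Submodule.neg_mem_iff _).1 h3

/-- If `∏ (X - α_i) / X` is integral, then `z` is a unit. -/
theorem val_z {t : ℤ} {α : Fin k → L} {X z : Lˣ} (h : Eqn t α X z)
    (hA : v (∏ i, ((X : L) - α i)) ≤ v (X : L)) : v (z : L) = 1 := by
  have hX0 : (X : L) ≠ 0 := X.ne_zero
  have hz0 : (z : L) ≠ 0 := z.ne_zero
  have hvX : 0 < v (X : L) := zero_lt_iff.2 ((Valuation.ne_zero_iff v).2 hX0)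
  set q : L := t + (∏ i, ((X : L) - α i)) / X with hq
  have hq1 : v q ≤ 1 := by
    refine (v.map_add _ _).trans (max_le (val_int_le v t) ?_)
    rw [map_div₀]
    exact (div_le_one₀ hvX).2 hA
  have he : (z : L) ^ 2 + 1 = q * z := by
    have h1 := h.eq
    rw [hq]
    field_simp
    linear_combination h1
  rcases lt_trichotomy (v (z : L)) 1 with h1 | h1 | h1
  · exfalso
    have h2 : v ((z : L) ^ 2 + 1) = 1 := by
      rw [add_comm]
      refine Valuation.map_one_add_of_lt v ?_
      rw [map_pow]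
      exact pow_lt_one₀ zero_le h1 (by norm_num)
    rw [he, map_mul] at h2
    have h3 : v q * v (z : L) < 1 := by
      calc v q * v (z : L) ≤ 1 * v (z : L) := mul_le_mul_left hq1 _
        _ = v (z : L) := one_mul _
        _ < 1 := h1
    exact h3.ne h2
  · exact h1
  · exfalso
    have h2 : v ((z : L) ^ 2 + 1) = v (z : L) ^ 2 := by
      rw [← map_pow]
      refine Valuation.map_add_eq_of_lt_left v ?_
      rw [map_one, map_pow]
      exact one_lt_pow₀ h1 (by norm_num)
    rw [he, map_mul, pow_two] at h2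
    have h3 : v q = v (z : L) := mul_right_cancel₀ ((Valuation.ne_zero_iff v).2 hz0) h2
    rw [h3] at hq1
    exact absurd h1 (not_lt.2 hq1)

/-- If `∏ (X - α_i) / X` is topologically nilpotent, then `z` is a root of unity modulo `v`. -/
theorem mem_tors {t : ℤ} (ht : |t| ≤ 2) {α : Fin k → L} {X z : Lˣ} (h : Eqn t α X z)
    (hA : v (∏ i, ((X : L) - α i)) < v (X : L)) (w : Lˣ) : sy z w ∈ unitPart v 2 := by
  have hX0 : (X : L) ≠ 0 := X.ne_zero
  have hz0 : (z : L) ≠ 0 := z.ne_zero
  have hvX : 0 < v (X : L) := zero_lt_iff.2 ((Valuation.ne_zero_iff v).2 hX0)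
  have hz := val_z h hA.le
  refine sy_mem_left_pow v (m := 12) (by norm_num) (pow12 v ht hz.le ?_)
  have e : (z : L) ^ 2 - t * z + 1 = (∏ i, ((X : L) - α i)) / X * z := by
    have h1 := h.eq
    field_simp
    linear_combination h1
  rw [e, map_mul, hz, mul_one, map_div₀]
  exact (div_lt_one₀ hvX).2 hA

/-- The classes `{z, ∏ (X - α_i)^{n_i}}` are unramified at `v`. -/
theorem mem_unitPart {t : ℤ} (ht : |t| ≤ 2) {α : Fin k → L} {X z : Lˣ} (hk : 2 ≤ k)
    (h : Eqn t α X z) (hα : ∀ i, v (α i) ≤ 1) (hα0 : ∀ i, α i ≠ 0) (w : Fin k → Lˣ)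
    (hw : ∀ i, (w i : L) = X - α i) (n : Fin k → ℤ) {M : ℕ} (hM : M ≠ 0)
    (hn : (∏ i, α i ^ n i) ^ M = 1) :
    sy z (∏ i, w i ^ n i) ∈ unitPart v 2 := by
  classical
  have hX0 : (X : L) ≠ 0 := X.ne_zero
  rcases lt_or_ge 1 (v (X : L)) with hX | hX
  · exact mem_inf hk h hα hX w hw n
  have hle : ∀ i, v ((X : L) - α i) ≤ 1 := fun i => (v.map_sub _ _).trans (max_le hX (hα i))
  have hval : ∀ s : Finset (Fin k), v (∏ i ∈ s, ((X : L) - α i)) ≤ 1 := by
    intro s
    rw [map_prod]
    exact Finset.prod_le_one' fun i _ => hle i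
  have hvX : 0 < v (X : L) := zero_lt_iff.2 ((Valuation.ne_zero_iff v).2 hX0)
  have hunit : v (z : L) = 1 → (∀ i, v ((X : L) - α i) = 1 ∨ n i = 0) →
      sy z (∏ i, w i ^ n i) ∈ unitPart v 2 := by
    intro hz hi
    refine sy_mem_units v hz ?_
    rw [Units.coe_prod, map_prod]
    refine Finset.prod_eq_one fun i _ => ?_
    rw [Units.val_zpow_eq_zpow_val, map_zpow₀, hw]
    rcases hi i with h1 | h1
    · rw [h1, one_zpow]
    · rw [h1, zpow_zero]
  rcases hX.eq_or_lt with hX1 | hX1
  · -- `X` is a unit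
    have hA : v (∏ i, ((X : L) - α i)) ≤ v (X : L) := by rw [hX1]; exact hval _
    by_cases hB : ∃ i, v ((X : L) - α i) < 1
    · obtain ⟨i, hi⟩ := hB
      refine mem_tors ht h ?_ _
      rw [hX1, ← Finset.mul_prod_erase _ _ (Finset.mem_univ i), map_mul]
      exact mul_lt_one_of_lt_of_le hi (hval _)
    · push Not at hB
      exact hunit (val_z h hA) fun i => Or.inl (le_antisymm (hle i) (hB i))
  · by_cases hC : ∃ i, v (α i) ≤ v (X : L)
    · obtain ⟨i₀, hi₀⟩ := hC
      have hXi : v ((X : L) - α i₀) ≤ v (X : L) := (v.map_sub _ _).trans (max_le le_rfl hi₀)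
      have hA : v (∏ i, ((X : L) - α i)) ≤ v (X : L) := by
        rw [← Finset.mul_prod_erase _ _ (Finset.mem_univ i₀), map_mul]
        exact mul_le_of_le_of_le_one hXi (hval _)
      rcases hA.lt_or_eq with hA1 | hA1
      · exact mem_tors ht h hA1 _
      · -- all the factors but one are units
        have h1 : v (∏ i ∈ Finset.univ.erase i₀, ((X : L) - α i)) = 1 := by
          refine le_antisymm (hval _) ?_
          by_contra hcon
          rw [← Finset.mul_prod_erase _ _ (Finset.mem_univ i₀), map_mul] at hA1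
          have h2 : v ((X : L) - α i₀) * v (∏ i ∈ Finset.univ.erase i₀, ((X : L) - α i)) <
              v (X : L) := by
            calc v ((X : L) - α i₀) * v (∏ i ∈ Finset.univ.erase i₀, ((X : L) - α i))
                ≤ v (X : L) * v (∏ i ∈ Finset.univ.erase i₀, ((X : L) - α i)) :=
                  mul_le_mul_left hXi _
              _ < v (X : L) * 1 := by
                  exact mul_lt_mul_of_pos_left (not_le.1 hcon) hvX
              _ = v (X : L) := mul_one _
          exact h2.ne hA1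
        have h2 : ∀ i, i ≠ i₀ → v ((X : L) - α i) = 1 := by
          intro i hi
          refine le_antisymm (hle i) ?_
          by_contra hcon
          rw [← Finset.mul_prod_erase _ _ (Finset.mem_erase.2 ⟨hi, Finset.mem_univ i⟩),
            map_mul] at h1
          have h3 := mul_lt_one_of_lt_of_le (not_le.1 hcon)
            (hval ((Finset.univ.erase i₀).erase i))
          exact h3.ne h1
        have h3 : ∀ i, i ≠ i₀ → v (α i) = 1 := by
          intro i hi
          refine le_antisymm (hα i) ?_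
          by_contra hcon
          have h4 : v ((X : L) - α i) < 1 := (v.map_sub _ _).trans_lt (max_lt hX1
            (not_le.1 hcon))
          exact h4.ne (h2 i hi)
        have h4 : v (α i₀) ^ n i₀ = 1 := by
          have h5 := congrArg v hn
          rw [map_pow, map_prod, map_one, ← Finset.mul_prod_erase _ _ (Finset.mem_univ i₀),
            Finset.prod_eq_one (s := Finset.univ.erase i₀), mul_one, map_zpow₀] at h5
          · rcases lt_trichotomy (v (α i₀) ^ n i₀) 1 with h6 | h6 | h6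
            · exact absurd h5 (pow_lt_one₀ zero_le h6 hM).ne
            · exact h6
            · exact absurd h5 (one_lt_pow₀ h6 hM).ne'
          · intro i hi
            rw [map_zpow₀, h3 i (Finset.ne_of_mem_erase hi), one_zpow]
        have h5 : n i₀ = 0 := by
          by_contra hne
          have h6 : 0 < v (α i₀) := zero_lt_iff.2 ((Valuation.ne_zero_iff v).2 (hα0 i₀))
          have h7 : v (α i₀) < 1 := hi₀.trans_lt hX1
          have h8 : (v (α i₀)) ^ (n i₀).natAbs = 1 := by
            rcases Int.natAbs_eq (n i₀) with h9 | h9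
            · rw [h9, zpow_natCast] at h4
              exact h4
            · rw [h9, zpow_neg, zpow_natCast, inv_eq_one] at h4
              exact h4
          have h9 : (v (α i₀)) ^ (n i₀).natAbs < 1 :=
            pow_lt_one₀ h6.le h7 (Int.natAbs_ne_zero.2 hne)
          exact h9.ne h8
        refine hunit (val_z h hA) fun i => ?_
        by_cases hi : i = i₀
        · right
          rw [hi]
          exact h5
        · exact Or.inl (h2 i hi)
    · -- `∏ (X - α_i)^{n_i}` is a root of unity modulo `v`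
      push Not at hC
      have hu : ∀ i, v (1 - (X : L) / α i - 1) < 1 := by
        intro i
        have e : 1 - (X : L) / α i - 1 = -((X : L) / α i) := by ring
        rw [e, Valuation.map_neg, map_div₀, div_lt_one₀ (zero_lt_iff.2
          ((Valuation.ne_zero_iff v).2 (hα0 i)))]
        exact hC i
      refine sy_mem_right_pow v (m := M * 2) (mul_ne_zero hM two_ne_zero) ?_
      have e : (((∏ i, w i ^ n i : Lˣ) : L)) ^ (M * 2) =
          (∏ i, (1 - (X : L) / α i) ^ n i) ^ (M * 2) := by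
        have h1 : ((∏ i, w i ^ n i : Lˣ) : L) = (∏ i, (-1 : L) ^ n i) * ((∏ i, α i ^ n i) *
            ∏ i, (1 - (X : L) / α i) ^ n i) := by
          rw [Units.coe_prod, ← Finset.prod_mul_distrib, ← Finset.prod_mul_distrib]
          refine Finset.prod_congr rfl fun i _ => ?_
          rw [Units.val_zpow_eq_zpow_val, hw, ← mul_zpow, ← mul_zpow]
          congr 1
          have := hα0 i
          field_simp
          ring
        have h2 : ((∏ i, (-1 : L) ^ n i)) ^ 2 = 1 := by
          rw [← Finset.prod_pow]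
          refine Finset.prod_eq_one fun i _ => ?_
          rw [← zpow_natCast, ← zpow_mul, mul_comm, zpow_mul]
          norm_num
        rw [h1, mul_pow, mul_pow, mul_comm M 2, pow_mul, h2, one_pow, one_mul, mul_comm 2 M,
          pow_mul (∏ i, α i ^ n i), hn, one_pow, one_mul]
      rw [e, ← Finset.prod_pow]
      refine one_prod' v _ fun i => ?_
      have h1 := one_zpow' v (one_zpow' v (hu i) (n i)) ((M * 2 : ℕ) : ℤ)
      rwa [zpow_natCast] at h1

end main

end Pool.Agent.H442
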