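import Pool.Agent.H442.Est
import Pool.Agent.H442.Unr
set_option autoImplicit false

/-!
The function field of a hyperelliptic curve `y² = f(x)` over a field `K ⊆ ℂ`: evaluation at
transcendental points and loops in its spectrum.
-/

namespace Pool.Agent.H442

open Polynomial

open Pool.Agent.TH826.MK (Torus KQ symb pairing circ norm_circ contDiff_circ)

open Pool.Agent.TH826.UH

open Pool.Agent.Helper537_Sym (sy)

variable {K : Type*} [Field K]

/-- The coordinate ring `K[x, y]/(y² - f(x))` of an affine hyperelliptic curve. -/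
abbrev HRing (f : K[X]) : Type _ := AdjoinRoot (X ^ 2 - C f : K[X][X])

variable {f : K[X]} (σ : K →+* ℂ) {x y : ℂ}

/-- Evaluation at the complex point `(x, y)`. -/
noncomputable def evH (h : y ^ 2 = f.eval₂ σ x) : HRing f →+* ℂ :=
  AdjoinRoot.lift (eval₂RingHom σ x) y (by
    rw [eval₂_sub, eval₂_pow, eval₂_X, eval₂_C, h, coe_eval₂RingHom, sub_self])

theorem evH_of (h : y ^ 2 = f.eval₂ σ x) (p : K[X]) :
    evH σ h (AdjoinRoot.of _ p) = p.eval₂ σ x := by
  unfold evH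
  rw [AdjoinRoot.lift_of, coe_eval₂RingHom]

theorem evH_root (h : y ^ 2 = f.eval₂ σ x) : evH σ h (AdjoinRoot.root _) = y := by
  unfold evH
  rw [AdjoinRoot.lift_root]

theorem evH_congr {x' y' : ℂ} (h : y ^ 2 = f.eval₂ σ x) (h' : y' ^ 2 = f.eval₂ σ x')
    (e : x = x') (e' : y = y') : evH σ h = evH σ h' := by
  subst e
  subst e'
  rfl

theorem root_sq (f : K[X]) :
    (AdjoinRoot.root (X ^ 2 - C f : K[X][X])) ^ 2 = AdjoinRoot.of (X ^ 2 - C f : K[X][X]) f := by
  have h := AdjoinRoot.eval₂_root (X ^ 2 - C f : K[X][X])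
  rw [eval₂_sub, eval₂_pow, eval₂_X, eval₂_C, sub_eq_zero] at h
  exact h

theorem exists_el (r : HRing f) : ∃ P Q : K[X],
    r = AdjoinRoot.of _ P + AdjoinRoot.of _ Q * AdjoinRoot.root _ := by
  obtain ⟨p, rfl⟩ := AdjoinRoot.mk_surjective (g := (X ^ 2 - C f : K[X][X])) r
  have hm : (X ^ 2 - C f : K[X][X]).Monic := monic_X_pow_sub_C f two_ne_zero
  have h1 := modByMonic_add_div p (X ^ 2 - C f : K[X][X])
  have hd : (p %ₘ (X ^ 2 - C f : K[X][X])).natDegree ≤ 1 := by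
    have h2 : (X ^ 2 - C f : K[X][X]).natDegree = 2 := natDegree_X_pow_sub_C
    have h3 := natDegree_modByMonic_lt p hm (by
      intro h4
      rw [h4, natDegree_one] at h2
      omega)
    omega
  obtain ⟨Q, P, hPQ⟩ := exists_eq_X_add_C_of_natDegree_le_one hd
  refine ⟨P, Q, ?_⟩
  have h4 : AdjoinRoot.mk (X ^ 2 - C f : K[X][X]) p =
      AdjoinRoot.mk (X ^ 2 - C f : K[X][X]) (p %ₘ (X ^ 2 - C f : K[X][X])) := by
    conv_lhs => rw [← h1]
    rw [map_add, map_mul, AdjoinRoot.mk_self, zero_mul, add_zero]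
  rw [h4, hPQ, map_add, map_mul, AdjoinRoot.mk_C, AdjoinRoot.mk_C, AdjoinRoot.mk_X, add_comm]

theorem no_square (hf : Squarefree f) (hd : 0 < f.natDegree) {P Q : K[X]}
    (h : P ^ 2 = Q ^ 2 * f) : Q = 0 := by
  by_contra hQ
  have h1 : Q ∣ P := by
    have : Q ^ 2 ∣ P ^ 2 := ⟨f, h⟩
    exact (IsIntegrallyClosed.pow_dvd_pow_iff two_ne_zero).1 this
  obtain ⟨r, rfl⟩ := h1
  have h2 : r ^ 2 = f := by
    have h3 : Q ^ 2 * r ^ 2 = Q ^ 2 * f := by rw [← h]; ring
    exact mul_left_cancel₀ (pow_ne_zero 2 hQ) h3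
  have h3 : IsUnit r := hf r ⟨1, by rw [← h2]; ring⟩
  have h4 : IsUnit f := by rw [← h2]; exact h3.pow 2
  rw [natDegree_eq_zero_of_isUnit h4] at hd
  exact lt_irrefl _ hd

/-- `x` is transcendental over `K`. -/
def TrOver (σ : K →+* ℂ) (x : ℂ) : Prop := ∀ p : K[X], p.eval₂ σ x = 0 → p = 0

theorem TrOver.of_rat [Algebra ℚ K] [Algebra.IsAlgebraic ℚ K] {x : ℂ}
    (hx : Transcendental ℚ x) : TrOver σ x := by
  intro p hp
  by_contra hne
  apply hx
  let _ : Algebra K ℂ := σ.toAlgebra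
  have : IsScalarTower ℚ K ℂ := IsScalarTower.of_algebraMap_eq' (Subsingleton.elim _ _)
  have h1 : IsAlgebraic K x := ⟨p, hne, hp⟩
  exact h1.restrictScalars ℚ

theorem evH_inj (hf : Squarefree f) (hd : 0 < f.natDegree) (h : y ^ 2 = f.eval₂ σ x)
    (hx : TrOver σ x) : Function.Injective (evH σ h) := by
  rw [injective_iff_map_eq_zero]
  intro r hr
  obtain ⟨P, Q, rfl⟩ := exists_el r
  rw [map_add, map_mul, evH_of, evH_of, evH_root] at hr
  have h1 : (P ^ 2 - Q ^ 2 * f).eval₂ σ x = 0 := by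
    rw [eval₂_sub, eval₂_mul, eval₂_pow, eval₂_pow, ← h]
    linear_combination (P.eval₂ σ x - Q.eval₂ σ x * y) * hr
  have h2 := hx _ h1
  have h3 : Q = 0 := no_square hf hd (sub_eq_zero.1 h2)
  have h4 : P = 0 := by
    rw [h3] at h2
    have h5 : P ^ 2 = 0 := by linear_combination h2
    exact pow_eq_zero_iff (two_ne_zero) |>.1 h5
  rw [h3, h4]
  simp

theorem contDiff_evH {X Y : ℝ → ℂ} (hX : ContDiff ℝ 2 X) (hY : ContDiff ℝ 2 Y)
    (hP : ∀ s, (Y s) ^ 2 = f.eval₂ σ (X s)) (r : HRing f) :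
    ContDiff ℝ 2 fun s => evH σ (hP s) r := by
  have hpol : ∀ p : K[X], ContDiff ℝ 2 fun s => p.eval₂ σ (X s) := by
    intro p
    have e : (fun s => p.eval₂ σ (X s)) = fun s =>
        ∑ i ∈ Finset.range (p.natDegree + 1), σ (p.coeff i) * (X s) ^ i := by
      funext s
      rw [Polynomial.eval₂_eq_sum_range]
    rw [e]
    exact ContDiff.sum fun i _ => contDiff_const.mul (hX.pow i)
  obtain ⟨P, Q, rfl⟩ := exists_el r
  have e : (fun s => evH σ (hP s) (AdjoinRoot.of _ P + AdjoinRoot.of _ Q * AdjoinRoot.root _)) =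
      fun s => P.eval₂ σ (X s) + Q.eval₂ σ (X s) * Y s := by
    funext s
    rw [map_add, map_mul, evH_of, evH_of, evH_root]
  rw [e]
  exact (hpol P).add ((hpol Q).mul hY)

section field

variable {σ}

theorem lift_congr {L : Type*} [Field L] [Algebra (HRing f) L] [IsFractionRing (HRing f) L]
    {g g' : HRing f →+* ℂ} (h : g = g') (hg : Function.Injective g)
    (hg' : Function.Injective g') :
    (IsFractionRing.lift (K := L) hg : L →+* ℂ) = IsFractionRing.lift hg' := by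
  subst h
  rfl

/-- A loop in the spectrum of the function field. -/
noncomputable def mkT (L : Type*) [Field L] [Algebra (HRing f) L] [IsFractionRing (HRing f) L]
    {X Y : ℝ → ℂ} (hX : ContDiff ℝ 2 X) (hY : ContDiff ℝ 2 Y)
    (hX1 : ∀ t, X (t + 1) = X t) (hY1 : ∀ t, Y (t + 1) = Y t)
    (hP : ∀ t, (Y t) ^ 2 = f.eval₂ σ (X t)) (hi : ∀ t, Function.Injective (evH σ (hP t))) :
    Torus L 1 where
  e θ := IsFractionRing.lift (hi (θ 0))
  smooth h := by
    obtain ⟨a, c, hc, rfl⟩ := IsFractionRing.div_surjective (HRing f) h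
    have hnt : Nontrivial (HRing f) := (algebraMap (HRing f) L).domain_nontrivial
    have hc0 : c ≠ 0 := nonZeroDivisors.ne_zero hc
    have e : (fun θ : Fin 1 → ℝ => (IsFractionRing.lift (hi (θ 0)) : L →+* ℂ)
        (algebraMap (HRing f) L a / algebraMap (HRing f) L c)) =
        fun θ => evH σ (hP (θ 0)) a * (evH σ (hP (θ 0)) c)⁻¹ := by
      funext θ
      rw [map_div₀, IsFractionRing.lift_algebraMap, IsFractionRing.lift_algebraMap,
        div_eq_mul_inv]
    rw [e]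
    have h0 : ContDiff ℝ 2 fun θ : Fin 1 → ℝ => θ 0 := contDiff_apply ℝ ℝ 0
    refine ((contDiff_evH σ hX hY hP a).comp h0).mul
      (((contDiff_evH σ hX hY hP c).comp h0).inv fun θ => ?_)
    intro h0
    exact hc0 ((injective_iff_map_eq_zero _).1 (hi (θ 0)) c h0)
  periodic θ i := by
    have h0 : (θ + Pi.single i 1 : Fin 1 → ℝ) 0 = θ 0 + 1 := by
      rw [Pi.add_apply, Subsingleton.elim i 0, Pi.single_eq_same]
    refine lift_congr ?_ _ _
    refine evH_congr σ _ _ ?_ ?_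
    · rw [h0, hX1]
    · rw [h0, hY1]

theorem mkT_e {L : Type*} [Field L] [Algebra (HRing f) L] [IsFractionRing (HRing f) L]
    {X Y : ℝ → ℂ} (hX : ContDiff ℝ 2 X) (hY : ContDiff ℝ 2 Y)
    (hX1 : ∀ t, X (t + 1) = X t) (hY1 : ∀ t, Y (t + 1) = Y t)
    (hP : ∀ t, (Y t) ^ 2 = f.eval₂ σ (X t)) (hi : ∀ t, Function.Injective (evH σ (hP t)))
    (θ : Fin 1 → ℝ) (r : HRing f) :
    (mkT L hX hY hX1 hY1 hP hi).e θ (algebraMap (HRing f) L r) = evH σ (hP (θ 0)) r :=
  IsFractionRing.lift_algebraMap (hi (θ 0)) r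

end field

/-- The regulator of `{z, ∏ w_i^{n_i}}` on a torus. -/
theorem reg_sy {L : Type*} [Field L] (Γ : Torus L 1) {k : ℕ} (z : Lˣ) (w : Fin k → Lˣ)
    (n : Fin k → ℤ) {Z : ℝ → ℂ} {W : Fin k → ℝ → ℂ} (hZ : ∀ θ, Γ.e θ (z : L) = Z (θ 0))
    (hW : ∀ i θ, Γ.e θ (w i : L) = W i (θ 0)) (nZ : NZ Z) (nW : ∀ i, NZ (W i)) :
    Γ.reg (sy z (∏ i, w i ^ n i)) = ∑ i, (n i : ℝ) * pr Z (W i) := by
  have h1 : ∀ i, Γ.reg (sy z (w i)) = pr Z (W i) := by
    intro i
    unfold Pool.Agent.Helper537_Sym.sy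
    rw [Torus.reg_symb, ← pairing_eq_pr nZ (nW i)]
    unfold Torus.pair
    congr 1
    funext l θ
    fin_cases l
    · exact hZ θ
    · exact hW i θ
  rw [Pool.Agent.Helper537_Sym.sy_prod_right, map_sum]
  refine Finset.sum_congr rfl fun i _ => ?_
  rw [Pool.Agent.Helper537_Sym.sy_zpow_right, map_smul, h1, Rat.smul_def]
  push_cast
  rfl

end Pool.Agent.H442
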