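import Mathlib
set_option autoImplicit false

/-!
The polynomials `D(x) P(z) - A(x) z` for a monic polynomial `P` of degree at least three with
constant coefficient `±1`: irreducibility.
-/

namespace Pool.Agent.H442

open Polynomial

/-- The polynomial `D(x) P(z) - A(x) z` in the variable `z`. -/
noncomputable def GG {K : Type*} [CommRing K] (P : ℤ[X]) (A D : K[X]) : K[X][X] :=
  C D * P.map (Int.castRingHom K[X]) - C A * X

variable {K : Type*} [Field K] {P : ℤ[X]} {A D : K[X]}

theorem GG_coeff (n : ℕ) : (GG P A D).coeff n = D * (P.coeff n : K[X]) -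
    (if n = 1 then A else 0) := by
  unfold GG
  rw [coeff_sub, coeff_C_mul, coeff_C_mul, coeff_map, coeff_X]
  congr 1
  by_cases h : n = 1
  · rw [if_pos h, if_pos h.symm, mul_one]
  · rw [if_neg h, if_neg (Ne.symm h), mul_zero]

theorem GG_natDegree (hP : P.Monic) (hN : 3 ≤ P.natDegree) (hD : D ≠ 0) :
    (GG P A D).natDegree = P.natDegree := by
  refine natDegree_eq_of_le_of_coeff_ne_zero ?_ ?_
  · rw [natDegree_le_iff_coeff_eq_zero]
    intro n hn
    rw [GG_coeff, coeff_eq_zero_of_natDegree_lt hn, if_neg (by omega)]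
    simp
  · rw [GG_coeff, hP.coeff_natDegree, if_neg (by omega)]
    simpa using hD

theorem GG_leadingCoeff (hP : P.Monic) (hN : 3 ≤ P.natDegree) (hD : D ≠ 0) :
    (GG P A D).leadingCoeff = D := by
  rw [leadingCoeff, GG_natDegree hP hN hD, GG_coeff, hP.coeff_natDegree, if_neg (by omega)]
  simp

theorem isUnit_intCast_of {m : ℤ} (hm : m = 1 ∨ m = -1) : IsUnit (m : K[X]) := by
  rcases hm with h | h
  · rw [h, Int.cast_one]
    exact isUnit_one
  · rw [h, Int.cast_neg, Int.cast_one]
    exact isUnit_one.neg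

theorem GG_isPrimitive (hP0 : P.coeff 0 = 1 ∨ P.coeff 0 = -1) (hcop : IsCoprime A D) :
    (GG P A D).IsPrimitive := by
  intro r hr
  rw [C_dvd_iff_dvd_coeff] at hr
  have h0 := hr 0
  rw [GG_coeff, if_neg (by norm_num), sub_zero] at h0
  have h1 : r ∣ D := (isUnit_intCast_of hP0).dvd_mul_right.1 h0
  have h2 := hr 1
  rw [GG_coeff, if_pos rfl] at h2
  have h3 : r ∣ A := (dvd_sub_right (h1.mul_right _)).1 h2
  exact hcop.isUnit_of_dvd' h3 h1

/-- The main step. -/
theorem irr5_aux (σ : K →+* ℂ) (hP : P.Monic) (hN : 3 ≤ P.natDegree)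
    (hP0 : P.coeff 0 = 1 ∨ P.coeff 0 = -1) (hA : A.Monic) (hD : D.Monic) (hcop : IsCoprime A D)
    (hsq : Squarefree D) {b : K} (hb : D.eval b = 0) (hAb : ‖σ (A.eval b)‖ ≠ 1)
    {f g : K[X][X]} (hfg : GG P A D = f * g)
    (hg : (g.map (evalRingHom b)).natDegree = 0) : IsUnit g := by
  have hD0 : D ≠ 0 := hD.ne_zero
  have hG0 : GG P A D ≠ 0 := by
    intro h
    have := GG_natDegree (A := A) hP hN hD0
    rw [h, natDegree_zero] at this
    omega
  have hf0 : f ≠ 0 := fun h => hG0 (by rw [hfg, h, zero_mul])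
  have hg0 : g ≠ 0 := fun h => hG0 (by rw [hfg, h, mul_zero])
  have hprim := GG_isPrimitive hP0 hcop
  rcases Nat.eq_zero_or_pos g.natDegree with h0 | h0
  · -- constant polynomials
    have h1 := eq_C_of_natDegree_eq_zero h0
    rw [h1]
    refine isUnit_C.2 (hprim _ ?_)
    rw [hfg, h1]
    exact Dvd.intro_left f (by rw [coeff_C_zero])
  exfalso
  -- the reduction at `b`
  have hAb0 : A.eval b ≠ 0 := by
    intro h
    obtain ⟨u, w, huw⟩ := hcop
    have h1 := congrArg (eval b) huw
    rw [eval_add, eval_mul, eval_mul, h, hb, mul_zero, mul_zero, add_zero, eval_one] at h1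
    exact zero_ne_one h1
  have hmap : (f.map (evalRingHom b)) * (g.map (evalRingHom b)) = -(C (A.eval b) * X) := by
    rw [← Polynomial.map_mul, ← hfg]
    unfold GG
    rw [Polynomial.map_sub, Polynomial.map_mul, Polynomial.map_mul, map_C, map_C, map_X]
    simp only [coe_evalRingHom]
    rw [hb, C_0, zero_mul, zero_sub]
  have hfm0 : f.map (evalRingHom b) ≠ 0 := by
    intro h
    rw [h, zero_mul] at hmap
    have h1 : (C (A.eval b) * X : K[X]) = 0 := neg_eq_zero.1 hmap.symm
    rw [mul_eq_zero, C_eq_zero] at h1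
    rcases h1 with h1 | h1
    · exact hAb0 h1
    · exact X_ne_zero h1
  have hgm0 : g.map (evalRingHom b) ≠ 0 := by
    intro h
    rw [h, mul_zero] at hmap
    have h1 : (C (A.eval b) * X : K[X]) = 0 := neg_eq_zero.1 hmap.symm
    rw [mul_eq_zero, C_eq_zero] at h1
    rcases h1 with h1 | h1
    · exact hAb0 h1
    · exact X_ne_zero h1
  have hfd : (f.map (evalRingHom b)).natDegree = 1 := by
    have h1 := congrArg natDegree hmap
    rw [natDegree_mul hfm0 hgm0, hg, add_zero, natDegree_neg, natDegree_C_mul hAb0,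
      natDegree_X] at h1
    exact h1
  have hlc : f.leadingCoeff * g.leadingCoeff = D := by
    rw [← leadingCoeff_mul, ← hfg, GG_leadingCoeff hP hN hD0]
  have hglc : g.leadingCoeff.eval b = 0 := by
    have h1 : (g.map (evalRingHom b)).coeff g.natDegree = 0 :=
      coeff_eq_zero_of_natDegree_lt (by rw [hg]; exact h0)
    rw [coeff_map] at h1
    exact h1
  have hdeg : f.natDegree + g.natDegree = P.natDegree := by
    rw [← natDegree_mul hf0 hg0, ← hfg, GG_natDegree hP hN hD0]
  -- the degree of `f` is one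
  have hf1 : f.natDegree = 1 := by
    have h1 : 1 ≤ f.natDegree := by
      rw [← hfd]
      exact natDegree_map_le
    by_contra hne
    have h2 : (f.map (evalRingHom b)).coeff f.natDegree = 0 :=
      coeff_eq_zero_of_natDegree_lt (by rw [hfd]; omega)
    rw [coeff_map] at h2
    have h3 : f.leadingCoeff.eval b = 0 := h2
    have h4 : (X - C b) ∣ f.leadingCoeff := dvd_iff_isRoot.2 h3
    have h5 : (X - C b) ∣ g.leadingCoeff := dvd_iff_isRoot.2 hglc
    have h6 : (X - C b) * (X - C b) ∣ D := by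
      rw [← hlc]
      exact mul_dvd_mul h4 h5
    exact not_isUnit_X_sub_C b (hsq _ h6)
  have hg2 : g.natDegree = P.natDegree - 1 := by omega
  -- the coefficients
  have c0 : f.coeff 0 * g.coeff 0 = D * (P.coeff 0 : K[X]) := by
    have h1 := congrArg (fun q => coeff q 0) hfg
    simp only [GG_coeff, mul_coeff_zero] at h1
    rw [← h1]
    simp
  have hf0D : f.coeff 0 ∣ D := (isUnit_intCast_of hP0).dvd_mul_right.1 ⟨_, c0.symm⟩
  have cN : f.coeff 1 * g.coeff (P.natDegree - 2) + f.coeff 0 * g.coeff (P.natDegree - 1) =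
      D * (P.coeff (P.natDegree - 1) : K[X]) := by
    have hfX : f = C (f.coeff 1) * X + C (f.coeff 0) := eq_X_add_C_of_natDegree_le_one hf1.le
    have h1 := congrArg (fun q => coeff q (P.natDegree - 1)) hfg
    simp only [GG_coeff] at h1
    rw [if_neg (by omega), sub_zero] at h1
    rw [h1]
    conv_rhs => rw [hfX]
    have h2 : P.natDegree - 1 = (P.natDegree - 2) + 1 := by omega
    rw [add_mul, coeff_add, mul_assoc, coeff_C_mul, coeff_C_mul, h2, coeff_X_mul]
  have hf1c : f.coeff 1 = f.leadingCoeff := by rw [leadingCoeff, hf1]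
  have hg1c : g.coeff (P.natDegree - 1) = g.leadingCoeff := by rw [leadingCoeff, hg2]
  rw [hf1c, hg1c] at cN
  have hu : IsUnit f.leadingCoeff := by
    by_contra hnu
    obtain ⟨q, hq, hqf⟩ := WfDvdMonoid.exists_irreducible_factor hnu (leadingCoeff_ne_zero.2 hf0)
    have hqp : Prime q := hq.prime
    have h1 : q ∣ D := by
      rw [← hlc]
      exact hqf.mul_right _
    have h2 : q ∣ f.coeff 0 * g.leadingCoeff := by
      have h3 : q ∣ f.leadingCoeff * g.coeff (P.natDegree - 2) + f.coeff 0 * g.leadingCoeff := by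
        rw [cN]
        exact h1.mul_right _
      exact (dvd_add_right (hqf.mul_right _)).1 h3
    rcases hqp.dvd_or_dvd h2 with h3 | h3
    · -- `q` divides all the coefficients of `f`
      apply hq.not_isUnit
      refine hprim q ?_
      rw [hfg]
      refine Dvd.dvd.mul_right ?_ _
      rw [C_dvd_iff_dvd_coeff]
      intro i
      rcases Nat.lt_or_ge i 2 with hi | hi
      · interval_cases i
        · exact h3
        · rw [hf1c]
          exact hqf
      · rw [coeff_eq_zero_of_natDegree_lt (by omega)]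
        exact dvd_zero _
    · apply hq.not_isUnit
      refine hsq q ?_
      rw [← hlc]
      exact mul_dvd_mul hqf h3
  obtain ⟨c, hc, hcl⟩ := isUnit_iff.1 hu
  have hc0 : c ≠ 0 := hc.ne_zero
  -- the root `s`
  set s : K[X] := -(C c⁻¹ * f.coeff 0) with hs
  have hcc : C c * C c⁻¹ = (1 : K[X]) := by rw [← C_mul, mul_inv_cancel₀ hc0, C_1]
  have hfs : f.eval s = 0 := by
    have hfX : f = C (f.coeff 1) * X + C (f.coeff 0) := eq_X_add_C_of_natDegree_le_one hf1.le
    rw [hfX, eval_add, eval_mul, eval_C, eval_X, eval_C, hf1c, ← hcl, hs]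
    linear_combination (-f.coeff 0) * hcc
  have hGs : D * aeval s P = A * s := by
    have h1 := congrArg (eval s) hfg
    rw [eval_mul, hfs, zero_mul] at h1
    unfold GG at h1
    rw [eval_sub, eval_mul, eval_mul, eval_C, eval_C, eval_X, eval_map] at h1
    have h2 : eval₂ (Int.castRingHom K[X]) s P = aeval s P := rfl
    rw [h2] at h1
    exact sub_eq_zero.1 h1
  have hf00 : f.coeff 0 ≠ 0 := by
    intro h
    rw [h, zero_dvd_iff] at hf0D
    exact hD0 hf0D
  have hs0 : s ≠ 0 := by
    rw [hs, neg_ne_zero]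
    exact mul_ne_zero (C_ne_zero.2 (inv_ne_zero hc0)) hf00
  have hsD : s ∣ D := by
    rw [hs, neg_dvd]
    refine (IsUnit.mul_left_dvd ?_).2 hf0D
    exact isUnit_C.2 (isUnit_iff_ne_zero.2 (inv_ne_zero hc0))
  have hsb : s.eval b = 0 := by
    -- the constant coefficient of the reduction of `f`
    have h1 := congrArg (fun q => coeff q 0) hmap
    simp only [mul_coeff_zero, coeff_neg, coeff_X_zero, mul_zero, neg_zero, coeff_map] at h1
    have h2 : (g.map (evalRingHom b)).coeff 0 ≠ 0 := by
      intro h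
      apply hgm0
      rw [eq_C_of_natDegree_eq_zero hg, h, C_0]
    rw [coeff_map] at h2
    have h3 := (mul_eq_zero.1 h1).resolve_right h2
    rw [hs, eval_neg, eval_mul]
    rw [coe_evalRingHom] at h3
    rw [h3, mul_zero, neg_zero]
  obtain ⟨e, he⟩ := hsD
  have hA1 : A = e * aeval s P := by
    apply mul_left_cancel₀ hs0
    rw [mul_comm s A, ← hGs]
    conv_lhs => rw [he]
    ring
  have heu : IsUnit e := hcop.isUnit_of_dvd' ⟨_, hA1⟩ ⟨s, by rw [mul_comm]; exact he⟩
  obtain ⟨ε, hε, rfl⟩ := isUnit_iff.1 heu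
  have hε0 : ε ≠ 0 := hε.ne_zero
  have hsdeg : s.natDegree ≠ 0 := by
    intro h
    have h1 := eq_C_of_natDegree_eq_zero h
    rw [h1, eval_C] at hsb
    rw [hsb, C_0] at h1
    exact hs0 h1
  -- leading coefficients
  have l1 : s.leadingCoeff * ε = 1 := by
    have h1 := congrArg leadingCoeff he
    rw [hD.leadingCoeff, leadingCoeff_mul, leadingCoeff_C] at h1
    exact h1.symm
  have hPs : aeval s P = (P.map (Int.castRingHom K)).comp s := by
    rw [comp, eval₂_map, aeval_def]
    congr 1
  have l2 : ε * s.leadingCoeff ^ P.natDegree = 1 := by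
    have h1 := congrArg leadingCoeff hA1
    rw [hA.leadingCoeff, leadingCoeff_mul, leadingCoeff_C, hPs, leadingCoeff_comp hsdeg,
      (hP.map _).leadingCoeff, one_mul, hP.natDegree_map] at h1
    exact h1.symm
  have l3 : ε ^ (P.natDegree - 1) = 1 := by
    have h1 : P.natDegree = (P.natDegree - 1) + 1 := by omega
    rw [h1, pow_succ] at l2
    have h2 : s.leadingCoeff ^ (P.natDegree - 1) = 1 := by linear_combination l2 -
      s.leadingCoeff ^ (P.natDegree - 1) * l1
    have h3 : (s.leadingCoeff * ε) ^ (P.natDegree - 1) = 1 := by rw [l1, one_pow]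
    rw [mul_pow, h2, one_mul] at h3
    exact h3
  apply hAb
  rw [hA1, eval_mul, eval_C, hPs, eval_comp, hsb, ← coeff_zero_eq_eval_zero, coeff_map, map_mul,
    norm_mul]
  have h4 : ‖σ ε‖ = 1 := by
    have h5 := congrArg (fun y => ‖σ y‖) l3
    simp only [map_pow, norm_pow, map_one, norm_one] at h5
    exact (pow_eq_one_iff_of_nonneg (norm_nonneg _) (by omega)).1 h5
  rw [h4, one_mul]
  rcases hP0 with h | h
  · rw [h]
    simp
  · rw [h]
    simp

theorem irr5 (σ : K →+* ℂ) (hP : P.Monic) (hN : 3 ≤ P.natDegree)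
    (hP0 : P.coeff 0 = 1 ∨ P.coeff 0 = -1) (hA : A.Monic) (hD : D.Monic) (hcop : IsCoprime A D)
    (hsq : Squarefree D) {b : K} (hb : D.eval b = 0) (hAb : ‖σ (A.eval b)‖ ≠ 1) :
    Irreducible (GG P A D) := by
  have hD0 : D ≠ 0 := hD.ne_zero
  have hnd := GG_natDegree (A := A) hP hN hD0
  refine ⟨fun h => ?_, fun f g hfg => ?_⟩
  · have h1 := natDegree_eq_zero_of_isUnit h
    omega
  have hAb0 : A.eval b ≠ 0 := by
    intro h
    obtain ⟨u, w, huw⟩ := hcop
    have h1 := congrArg (eval b) huw
    rw [eval_add, eval_mul, eval_mul, h, hb, mul_zero, mul_zero, add_zero, eval_one] at h1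
    exact zero_ne_one h1
  have hmap : (f.map (evalRingHom b)) * (g.map (evalRingHom b)) = -(C (A.eval b) * X) := by
    rw [← Polynomial.map_mul, ← hfg]
    unfold GG
    rw [Polynomial.map_sub, Polynomial.map_mul, Polynomial.map_mul, map_C, map_C, map_X]
    simp only [coe_evalRingHom]
    rw [hb, C_0, zero_mul, zero_sub]
  have hne : (f.map (evalRingHom b)) * (g.map (evalRingHom b)) ≠ 0 := by
    rw [hmap, neg_ne_zero]
    exact mul_ne_zero (C_ne_zero.2 hAb0) X_ne_zero
  have hd : (f.map (evalRingHom b)).natDegree + (g.map (evalRingHom b)).natDegree = 1 := by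
    rw [← natDegree_mul (left_ne_zero_of_mul hne) (right_ne_zero_of_mul hne), hmap, natDegree_neg,
      natDegree_C_mul hAb0, natDegree_X]
  rcases Nat.eq_zero_or_pos (g.map (evalRingHom b)).natDegree with h0 | h0
  · exact Or.inr (irr5_aux σ hP hN hP0 hA hD hcop hsq hb hAb hfg h0)
  · left
    refine irr5_aux σ hP hN hP0 hA hD hcop hsq hb hAb (f := g) (g := f) ?_ (by omega)
    rw [hfg, mul_comm]

end Pool.Agent.H442
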