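import Mathlib
set_option autoImplicit false

/-!
Kronecker substitution: a nonzero polynomial in `n` variables does not vanish at
`(T^{e_1}, ..., T^{e_n})` for exponents with prescribed residues modulo a large number, and for
infinitely many values of `T`.
-/

namespace Pool.Agent.H442

open Polynomial

theorem digits_inj {n B : ℕ} {m m' : Fin n → ℕ} (hm : ∀ i, m i < B) (hm' : ∀ i, m' i < B)
    (h : ∑ i, m i * B ^ (i : ℕ) ≡ ∑ i, m' i * B ^ (i : ℕ) [MOD B ^ n]) : m = m' := by
  let f : Fin n → Fin B := fun i => ⟨m i, hm i⟩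
  let f' : Fin n → Fin B := fun i => ⟨m' i, hm' i⟩
  have h1 : ∑ i, m i * B ^ (i : ℕ) < B ^ n := by
    have := (finFunctionFinEquiv f).2
    rw [finFunctionFinEquiv_apply_val] at this
    exact this
  have h2 : ∑ i, m' i * B ^ (i : ℕ) < B ^ n := by
    have := (finFunctionFinEquiv f').2
    rw [finFunctionFinEquiv_apply_val] at this
    exact this
  have h3 := Nat.ModEq.eq_of_lt_of_lt h h1 h2
  have h4 : f = f' := by
    apply finFunctionFinEquiv.injective
    apply Fin.ext
    rw [finFunctionFinEquiv_apply_val, finFunctionFinEquiv_apply_val]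
    exact h3
  funext i
  exact congrArg Fin.val (congrFun h4 i)

/-- Kronecker substitution. -/
theorem kron {n : ℕ} (H : MvPolynomial (Fin n) ℚ) (hH : H ≠ 0) : ∃ B : ℕ, 2 ≤ B ∧
    ∀ e : Fin n → ℕ, (∀ i, e i ≡ B ^ (i : ℕ) [MOD B ^ n]) →
      MvPolynomial.aeval (fun i => (X : ℚ[X]) ^ e i) H ≠ 0 := by
  refine ⟨H.totalDegree + 2, by omega, ?_⟩
  intro e he h0
  set B := H.totalDegree + 2 with hB
  obtain ⟨m₀, hm₀⟩ := MvPolynomial.support_nonempty.2 hH
  have hlt : ∀ m ∈ H.support, ∀ i, m i < B := by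
    intro m hm i
    have h1 := MvPolynomial.le_totalDegree hm
    have h2 : m i ≤ m.sum fun _ e => e := by
      rw [Finsupp.sum_fintype _ _ (fun _ => rfl)]
      exact Finset.single_le_sum (f := fun i => m i) (fun _ _ => Nat.zero_le _) (Finset.mem_univ i)
    omega
  have hsum : MvPolynomial.aeval (fun i => (X : ℚ[X]) ^ e i) H =
      ∑ m ∈ H.support, C (H.coeff m) * X ^ (∑ i, e i * m i) := by
    rw [MvPolynomial.aeval_def, MvPolynomial.eval₂_eq']
    refine Finset.sum_congr rfl fun m _ => ?_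
    congr 1
    rw [← Finset.prod_pow_eq_pow_sum]
    exact Finset.prod_congr rfl fun i _ => by rw [pow_mul]
  have hco := congrArg (fun p : ℚ[X] => p.coeff (∑ i, e i * m₀ i)) h0
  simp only [hsum, finsetSum_coeff, coeff_C_mul_X_pow, coeff_zero] at hco
  rw [Finset.sum_eq_single m₀] at hco
  · rw [if_pos rfl] at hco
    exact (MvPolynomial.mem_support_iff.1 hm₀) hco
  · intro m hm hne
    rw [if_neg]
    intro h1
    apply hne
    have h2 : (m₀ : Fin n → ℕ) = m := by
      refine digits_inj (hlt _ hm₀) (hlt _ hm) ?_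
      have h3 : ∀ m : Fin n →₀ ℕ, ∑ i, e i * m i ≡ ∑ i, m i * B ^ (i : ℕ) [MOD B ^ n] := by
        intro m
        refine Nat.ModEq.sum fun i _ => ?_
        rw [mul_comm]
        exact (he i).mul_left _
      exact (h3 m₀).symm.trans (h1 ▸ h3 m)
    exact (DFunLike.coe_injective h2).symm
  · intro h1
    exact absurd hm₀ h1

theorem eval_kron {n : ℕ} (H : MvPolynomial (Fin n) ℚ) (e : Fin n → ℕ) (T : ℚ) :
    (MvPolynomial.aeval (fun i => (X : ℚ[X]) ^ e i) H).eval T =
      MvPolynomial.eval (fun i => T ^ e i) H := by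
  induction H using MvPolynomial.induction_on with
  | C a => simp
  | add p q hp hq => simp [hp, hq]
  | mul_X p i hp => simp [hp]

/-- There are large `c ≡ 1 (mod g)` with `P(10^c) ≠ 0`. -/
theorem exists_ten {P : ℚ[X]} (hP : P ≠ 0) {g : ℕ} (hg : 0 < g) (K : ℕ) :
    ∃ c : ℕ, K ≤ c ∧ c.Coprime g ∧ P.eval ((10 : ℚ) ^ c) ≠ 0 := by
  by_contra hcon
  push Not at hcon
  refine hP (Polynomial.eq_zero_of_infinite_isRoot P ?_)
  refine Set.infinite_of_injective_forall_mem
    (f := fun k : ℕ => (10 : ℚ) ^ (1 + g * (k + K))) ?_ ?_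
  · intro a b hab
    have h1 : 1 + g * (a + K) = 1 + g * (b + K) :=
      pow_right_injective₀ (by norm_num) (by norm_num) hab
    have h2 : g * (a + K) = g * (b + K) := by omega
    have h3 := Nat.eq_of_mul_eq_mul_left hg h2
    omega
  · intro k
    refine hcon _ ?_ ?_
    · nlinarith
    · rw [Nat.coprime_add_mul_left_left]
      exact Nat.coprime_one_left g

end Pool.Agent.H442
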