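import Mathlib
set_option autoImplicit false

/-!
A stable form of the linear algebra for the matrices of regulators.
-/

namespace Pool.Agent.H442

/-- The scalar step: no vector of norm `N > 0` attained in `c` satisfies the equations up to errors
`x_i N / 8`. -/
theorem lin6_step {r : ℕ} {p N : ℝ} {x a J' : Fin r → ℝ} {b : Fin r → Fin r → ℝ} (hp : 1 ≤ p)
    (hx : ∀ i, 0 < x i) (hb : ∀ i k, k ≠ i → (p - 1 / 2) * x i ≤ b i k)
    (ha : ∀ i, a i ≤ (p - 3 / 4) * x i) (hJ : ∀ k, p ≤ J' k) {c : Fin r → ℝ} (hN : 0 < N)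
    (hc : ∀ k, |c k| ≤ N) {k₀ : Fin r} (hk₀ : |c k₀| = N)
    (h : ∀ i, |(∑ k ∈ Finset.univ.erase i, b i k * (c i - c k)) -
      (a i * c i - (∑ k, J' k * c k) * x i)| ≤ x i * N / 8) : False := by
  classical
  have hne : (Finset.univ : Finset (Fin r)).Nonempty := ⟨k₀, Finset.mem_univ _⟩
  obtain ⟨M, -, hM⟩ := Finset.exists_max_image Finset.univ c hne
  obtain ⟨m, -, hm⟩ := Finset.exists_min_image Finset.univ c hne
  have hM' : ∀ k, c k ≤ c M := fun k => hM k (Finset.mem_univ k)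
  have hm' : ∀ k, c m ≤ c k := fun k => hm k (Finset.mem_univ k)
  have hb0 : ∀ i k, k ≠ i → 0 ≤ b i k := by
    intro i k hk
    have h1 := hb i k hk
    have h2 : 0 ≤ (p - 1 / 2) * x i := mul_nonneg (by linarith) (hx i).le
    linarith
  have eM : 0 ≤ ∑ k ∈ Finset.univ.erase M, b M k * (c M - c k) :=
    Finset.sum_nonneg fun k hk => mul_nonneg (hb0 M k (Finset.ne_of_mem_erase hk))
      (sub_nonneg.2 (hM' k))
  have em : ∑ k ∈ Finset.univ.erase m, b m k * (c m - c k) ≤ 0 :=
    Finset.sum_nonpos fun k hk => mul_nonpos_of_nonneg_of_nonpos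
      (hb0 m k (Finset.ne_of_mem_erase hk)) (sub_nonpos.2 (hm' k))
  set S : ℝ := ∑ k, J' k * c k with hS
  have hMe := abs_le.1 (h M)
  have hme := abs_le.1 (h m)
  rcases le_or_gt 0 (c m) with h1 | h1
  · -- all are nonnegative
    have hcM : c M = N := by
      refine le_antisymm ((le_abs_self _).trans (hc M)) ?_
      rw [← hk₀, abs_of_nonneg (h1.trans (hm' k₀))]
      exact hM' k₀
    have hS1 : J' M * c M ≤ S := by
      rw [hS]
      refine Finset.single_le_sum (f := fun k => J' k * c k) (fun k _ => ?_) (Finset.mem_univ M)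
      exact mul_nonneg (by linarith [hJ k]) (h1.trans (hm' k))
    rw [hcM] at hS1 hMe
    have hS2 : p * N ≤ S := (mul_le_mul_of_nonneg_right (hJ M) hN.le).trans hS1
    have h4 : a M * N ≤ (p - 3 / 4) * x M * N := mul_le_mul_of_nonneg_right (ha M) hN.le
    have h5 : p * N * x M ≤ S * x M := mul_le_mul_of_nonneg_right hS2 (hx M).le
    have h6 : 0 < N * x M := mul_pos hN (hx M)
    rw [hcM] at eM
    nlinarith
  rcases le_or_gt (c M) 0 with h2 | h2
  · -- all are nonpositive
    have hcm : c m = -N := by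
      refine le_antisymm ?_ (neg_le.1 ((neg_le_abs _).trans (hc m)))
      have h3 := hk₀
      rw [abs_of_nonpos ((hM' k₀).trans h2)] at h3
      have := hm' k₀
      linarith
    have hS1 : S ≤ J' m * c m := by
      have h3 : -(J' m * c m) ≤ -S := by
        rw [hS, ← Finset.sum_neg_distrib]
        refine Finset.single_le_sum (f := fun k => -(J' k * c k)) (fun k _ => ?_)
          (Finset.mem_univ m)
        rw [neg_nonneg]
        exact mul_nonpos_of_nonneg_of_nonpos (by linarith [hJ k]) ((hM' k).trans h2)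
      linarith
    rw [hcm] at hS1 hme
    have hS2 : S ≤ p * (-N) :=
      hS1.trans (mul_le_mul_of_nonpos_right (hJ m) (by linarith))
    have h4 : (p - 3 / 4) * x m * (-N) ≤ a m * (-N) :=
      mul_le_mul_of_nonpos_right (ha m) (by linarith)
    have h5 : S * x m ≤ p * (-N) * x m := mul_le_mul_of_nonneg_right hS2 (hx m).le
    have h6 : 0 < N * x m := mul_pos hN (hx m)
    rw [hcm] at em
    nlinarith
  · -- both signs
    have hMm : m ≠ M := fun e => by rw [e] at h1; exact absurd h1 (not_lt.2 h2.le)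
    have hNle : N ≤ c M - c m := by
      rcases le_or_gt 0 (c k₀) with h3 | h3
      · rw [abs_of_nonneg h3] at hk₀
        have := hM' k₀
        linarith
      · rw [abs_of_neg h3] at hk₀
        have := hm' k₀
        linarith
    have h3 : b M m * (c M - c m) ≤ ∑ k ∈ Finset.univ.erase M, b M k * (c M - c k) :=
      Finset.single_le_sum (f := fun k => b M k * (c M - c k)) (fun k hk =>
        mul_nonneg (hb0 M k (Finset.ne_of_mem_erase hk)) (sub_nonneg.2 (hM' k)))
        (Finset.mem_erase.2 ⟨hMm, Finset.mem_univ m⟩)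
    have h4 : ∑ k ∈ Finset.univ.erase m, b m k * (c m - c k) ≤ b m M * (c m - c M) := by
      have h5 : -(b m M * (c m - c M)) ≤ ∑ k ∈ Finset.univ.erase m, -(b m k * (c m - c k)) :=
        Finset.single_le_sum (f := fun k => -(b m k * (c m - c k))) (fun k hk => by
          rw [neg_nonneg]
          exact mul_nonpos_of_nonneg_of_nonpos (hb0 m k (Finset.ne_of_mem_erase hk))
            (sub_nonpos.2 (hm' k)))
          (Finset.mem_erase.2 ⟨hMm.symm, Finset.mem_univ M⟩)
      rw [Finset.sum_neg_distrib] at h5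
      linarith
    have h5 : (p - 1 / 2) * x M * (c M - c m) ≤ b M m * (c M - c m) :=
      mul_le_mul_of_nonneg_right (hb M m hMm) (by linarith)
    have h6 : b m M * (c m - c M) ≤ (p - 1 / 2) * x m * (c m - c M) :=
      mul_le_mul_of_nonpos_right (hb m M hMm.symm) (by linarith)
    have h7 : a M * c M ≤ (p - 3 / 4) * x M * c M := mul_le_mul_of_nonneg_right (ha M) h2.le
    have h8 : (p - 3 / 4) * x m * c m ≤ a m * c m := mul_le_mul_of_nonpos_right (ha m) h1.le
    -- bounds for `S`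
    have hS1 : S ≤ (p - 3 / 4) * c M - (p - 1 / 2) * (c M - c m) + N / 8 := by
      have e1 : S * x M ≤ ((p - 3 / 4) * c M - (p - 1 / 2) * (c M - c m) + N / 8) * x M := by
        linarith [hMe.1, hMe.2]
      exact le_of_mul_le_mul_right e1 (hx M)
    have hS2 : (p - 3 / 4) * c m - (p - 1 / 2) * (c m - c M) - N / 8 ≤ S := by
      have e1 : ((p - 3 / 4) * c m - (p - 1 / 2) * (c m - c M) - N / 8) * x m ≤ S * x m := by
        linarith [hme.1, hme.2]
      exact le_of_mul_le_mul_right e1 (hx m)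
    have h9 : (p - 1 / 4) * (c M - c m) ≤ N / 4 := by linarith
    have h10 : 3 / 4 * (c M - c m) ≤ (p - 1 / 4) * (c M - c m) :=
      mul_le_mul_of_nonneg_right (by linarith) (by linarith)
    linarith

/-- The bound for the sums `S = ∑ J_k c_k`. -/
theorem lin6_sum {r : ℕ} {p N T η : ℝ} {x a J' : Fin r → ℝ} {b : Fin r → Fin r → ℝ} (hp : 1 ≤ p)
    (hx : ∀ i, 0 < x i) (hb : ∀ i k, k ≠ i → (p - 1 / 2) * x i ≤ b i k)
    (ha : ∀ i, a i ≤ (p - 3 / 4) * x i) (hJ : ∀ k, p ≤ J' k) {c : Fin r → ℝ}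
    (hc : ∀ k, |c k| ≤ N) (hN : 0 ≤ N) (hT : 0 ≤ T) (hη : 0 ≤ η) (hr : 0 < r)
    (h : ∀ i, |(∑ k ∈ Finset.univ.erase i, b i k * (c i - c k)) -
      (a i * c i - (∑ k, J' k * c k) * x i)| ≤ η * x i * (N + T)) :
    |∑ k, J' k * c k| ≤ (p - 3 / 4) * N + η * (N + T) := by
  classical
  have hne : (Finset.univ : Finset (Fin r)).Nonempty := ⟨⟨0, hr⟩, Finset.mem_univ _⟩
  obtain ⟨M, -, hM⟩ := Finset.exists_max_image Finset.univ c hne
  obtain ⟨m, -, hm⟩ := Finset.exists_min_image Finset.univ c hne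
  have hM' : ∀ k, c k ≤ c M := fun k => hM k (Finset.mem_univ k)
  have hm' : ∀ k, c m ≤ c k := fun k => hm k (Finset.mem_univ k)
  have hb0 : ∀ i k, k ≠ i → 0 ≤ b i k := by
    intro i k hk
    have h1 := hb i k hk
    have h2 : 0 ≤ (p - 1 / 2) * x i := mul_nonneg (by linarith) (hx i).le
    linarith
  have eM : 0 ≤ ∑ k ∈ Finset.univ.erase M, b M k * (c M - c k) :=
    Finset.sum_nonneg fun k hk => mul_nonneg (hb0 M k (Finset.ne_of_mem_erase hk))
      (sub_nonneg.2 (hM' k))
  have em : ∑ k ∈ Finset.univ.erase m, b m k * (c m - c k) ≤ 0 :=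
    Finset.sum_nonpos fun k hk => mul_nonpos_of_nonneg_of_nonpos
      (hb0 m k (Finset.ne_of_mem_erase hk)) (sub_nonpos.2 (hm' k))
  set S : ℝ := ∑ k, J' k * c k with hS
  have hMe := abs_le.1 (h M)
  have hme := abs_le.1 (h m)
  have hR : 0 ≤ (p - 3 / 4) * N + η * (N + T) :=
    add_nonneg (mul_nonneg (by linarith) hN) (mul_nonneg hη (by linarith))
  refine abs_le.2 ⟨?_, ?_⟩
  · rcases le_or_gt (c m) 0 with h1 | h1
    · have h8 : (p - 3 / 4) * x m * c m ≤ a m * c m := mul_le_mul_of_nonpos_right (ha m) h1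
      have h9 : (p - 3 / 4) * x m * (-N) ≤ (p - 3 / 4) * x m * c m :=
        mul_le_mul_of_nonneg_left (neg_le.1 ((neg_le_abs _).trans (hc m)))
          (mul_nonneg (by linarith) (hx m).le)
      have e1 : -((p - 3 / 4) * N + η * (N + T)) * x m ≤ S * x m := by
        linarith [hme.1, hme.2]
      exact le_of_mul_le_mul_right e1 (hx m)
    · have h2 : 0 ≤ S := by
        rw [hS]
        exact Finset.sum_nonneg fun k _ => mul_nonneg (by linarith [hJ k])
          (h1.le.trans (hm' k))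
      linarith
  · rcases le_or_gt 0 (c M) with h1 | h1
    · have h8 : a M * c M ≤ (p - 3 / 4) * x M * c M := mul_le_mul_of_nonneg_right (ha M) h1
      have h9 : (p - 3 / 4) * x M * c M ≤ (p - 3 / 4) * x M * N :=
        mul_le_mul_of_nonneg_left ((le_abs_self _).trans (hc M))
          (mul_nonneg (by linarith) (hx M).le)
      have e1 : S * x M ≤ ((p - 3 / 4) * N + η * (N + T)) * x M := by
        linarith [hMe.1, hMe.2]
      exact le_of_mul_le_mul_right e1 (hx M)
    · have h2 : S ≤ 0 := by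
        rw [hS]
        exact Finset.sum_nonpos fun k _ => mul_nonpos_of_nonneg_of_nonpos (by linarith [hJ k])
          ((hM' k).trans h1.le)
      linarith

/-- The linear algebra for pairs of vectors. -/
theorem lin6 {r : ℕ} {p N T η : ℝ} {x a : Fin 2 → Fin r → ℝ} {J' : Fin r → ℝ}
    {b : Fin 2 → Fin r → Fin r → ℝ} (hp : 1 ≤ p)
    (hx : ∀ α i, 0 < x α i) (hb : ∀ α i k, k ≠ i → (p - 1 / 2) * x α i ≤ b α i k)
    (ha : ∀ α i, a α i ≤ (p - 3 / 4) * x α i) (hJ : ∀ k, p ≤ J' k) {c : Fin 2 → Fin r → ℝ}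
    (hc : ∀ α k, |c α k| ≤ N) (hN : ∃ α k, |c α k| = N)
    (hT' : ∃ α, |∑ k, J' k * c α k| = T) (hη : 0 ≤ η) (hη' : η * (1 + 2 * p) ≤ 1 / 8)
    (h : ∀ α i, |(∑ k ∈ Finset.univ.erase i, b α i k * (c α i - c α k)) -
      (a α i * c α i - (∑ k, J' k * c α k) * x α i)| ≤ η * x α i * (N + T)) : N = 0 := by
  obtain ⟨α, k₀, hk₀⟩ := hN
  obtain ⟨α', hα'⟩ := hT'
  have hr : 0 < r := k₀.pos
  have hN0 : 0 ≤ N := by rw [← hk₀]; exact abs_nonneg _
  have hT0 : 0 ≤ T := by rw [← hα']; exact abs_nonneg _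
  have h1 := lin6_sum hp (hx α') (hb α') (ha α') hJ (hc α') hN0 hT0 hη hr (h α')
  rw [hα'] at h1
  have hη4 : η ≤ 1 / 4 := by nlinarith
  have h2 : T ≤ 2 * p * N := by nlinarith
  by_contra hne
  have hNpos : 0 < N := lt_of_le_of_ne hN0 (Ne.symm hne)
  refine lin6_step hp (hx α) (hb α) (ha α) hJ hNpos (hc α) hk₀ fun i => (h α i).trans ?_
  have h3 : η * (N + T) ≤ N / 8 := by
    calc η * (N + T) ≤ η * (N + 2 * p * N) := mul_le_mul_of_nonneg_left (by linarith) hη
      _ = η * (1 + 2 * p) * N := by ring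
      _ ≤ 1 / 8 * N := mul_le_mul_of_nonneg_right hη' hN0
      _ = N / 8 := by ring
  calc η * x α i * (N + T) = x α i * (η * (N + T)) := by ring
    _ ≤ x α i * (N / 8) := mul_le_mul_of_nonneg_left h3 (hx α i).le
    _ = x α i * N / 8 := by ring

end Pool.Agent.H442
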