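import Pool.Agent.H442.Lin6
set_option autoImplicit false

/-!
The linear algebra for approximate regulators of pairs of families of classes.
-/

namespace Pool.Agent.H442

open scoped Real

/-- the matrix of winding numbers -/
def mw (b a : Fin 2) : ℝ := if b = a then 2 else -1

theorem mw_inv {f : Fin 2 → ℝ} {N : ℝ} (h : ∀ a, |∑ b, mw b a * f b| ≤ N) (b : Fin 2) :
    |f b| ≤ N := by
  have h0 := h 0
  have h1 := h 1
  have e1 : mw 0 0 = 2 := if_pos rfl
  have e2 : mw 1 1 = 2 := if_pos rfl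
  have e3 : mw 0 1 = -1 := if_neg (by decide)
  have e4 : mw 1 0 = -1 := if_neg (by decide)
  rw [Fin.sum_univ_two, e1, e4] at h0
  rw [Fin.sum_univ_two, e2, e3] at h1
  rw [abs_le] at h0 h1 ⊢
  match b with
  | 0 => constructor <;> linarith [h0.1, h0.2, h1.1, h1.2]
  | 1 => constructor <;> linarith [h0.1, h0.2, h1.1, h1.2]

theorem lin6_full {r : ℕ} {p T₀ K : ℝ} (hp : 1 ≤ p) (hr : 0 < r) (hK : 0 ≤ K) (hT0 : 0 < T₀)
    (hT : (r + 1) * K * (8 * (1 + 2 * p)) ≤ π * T₀)
    {x a : Fin 2 → Fin r → ℝ} {b : Fin 2 → Fin r → Fin r → ℝ} {J' : Fin r → ℝ}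
    (hx : ∀ α i, T₀ ≤ x α i) (hb : ∀ α i k, k ≠ i → (p - 1 / 2) * x α i ≤ b α i k)
    (ha : ∀ α i, a α i ≤ (p - 3 / 4) * x α i) (hJ : ∀ k, p ≤ J' k)
    {PX : Fin 2 → Fin 2 → Fin r → ℝ} {P : Fin 2 → Fin 2 → Fin r → Fin r → ℝ}
    (hX : ∀ b' α i, |PX b' α i + 2 * π * mw b' α * x α i| ≤ K)
    (hP : ∀ b' α i k, k ≠ i → |P b' α i k + 2 * π * mw b' α * b α i k| ≤ K)
    (hPi : ∀ b' α i, |P b' α i i + 2 * π * mw b' α *
      (a α i - ∑ k ∈ Finset.univ.erase i, b α i k)| ≤ K)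
    {c : Fin 2 → Fin r → ℝ}
    (h : ∀ α i, ∑ b', ∑ k, c b' k * (P b' α i k - J' k * PX b' α i) = 0) :
    ∀ b' k, c b' k = 0 := by
  classical
  have hπ := Real.pi_pos
  obtain ⟨C, hC⟩ : ∃ C : Fin 2 → Fin r → ℝ, ∀ α k, C α k = ∑ b', mw b' α * c b' k :=
    ⟨_, fun _ _ => rfl⟩
  have hne : (Finset.univ : Finset (Fin 2 × Fin r)).Nonempty :=
    ⟨(0, ⟨0, hr⟩), Finset.mem_univ _⟩
  obtain ⟨k₀, -, hk₀⟩ := Finset.exists_max_image Finset.univ (fun k => |C k.1 k.2|) hne
  obtain ⟨N, hN⟩ : ∃ N : ℝ, N = |C k₀.1 k₀.2| := ⟨_, rfl⟩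
  have hCN : ∀ α k, |C α k| ≤ N := fun α k => by
    rw [hN]
    exact hk₀ (α, k) (Finset.mem_univ _)
  obtain ⟨α₀, -, hα₀⟩ := Finset.exists_max_image Finset.univ (fun α => |∑ k, J' k * C α k|)
    (⟨0, Finset.mem_univ _⟩ : (Finset.univ : Finset (Fin 2)).Nonempty)
  obtain ⟨T, hTd⟩ : ∃ T : ℝ, T = |∑ k, J' k * C α₀ k| := ⟨_, rfl⟩
  have hCT : ∀ α, |∑ k, J' k * C α k| ≤ T := fun α => by
    rw [hTd]
    exact hα₀ α (Finset.mem_univ _)
  have hN0 : 0 ≤ N := by rw [hN]; exact abs_nonneg _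
  have hTT0 : 0 ≤ T := by rw [hTd]; exact abs_nonneg _
  have hcN : ∀ b' k, |c b' k| ≤ N := fun b' k =>
    mw_inv (f := fun b' => c b' k) (fun α => by
      rw [← hC]
      exact hCN α k) b'
  have hcT : ∀ b', |∑ k, J' k * c b' k| ≤ T := fun b' =>
    mw_inv (f := fun b' => ∑ k, J' k * c b' k) (fun α => by
      have e : ∑ b', mw b' α * ∑ k, J' k * c b' k = ∑ k, J' k * C α k := by
        have e1 : ∀ b', mw b' α * ∑ k, J' k * c b' k = ∑ k, J' k * (mw b' α * c b' k) := by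
          intro b'
          rw [Finset.mul_sum]
          exact Finset.sum_congr rfl fun k _ => by ring
        have e2 : ∀ k, J' k * C α k = ∑ b', J' k * (mw b' α * c b' k) := by
          intro k
          rw [hC, Finset.mul_sum]
        rw [Finset.sum_congr rfl fun b' _ => e1 b', Finset.sum_congr rfl fun k _ => e2 k,
          Finset.sum_comm]
      rw [e]
      exact hCT α) b'
  suffices hN' : N = 0 by
    intro b' k
    have h1 := hcN b' k
    rw [hN'] at h1
    exact abs_nonpos_iff.1 h1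
  have hη : (0 : ℝ) ≤ 1 / (8 * (1 + 2 * p)) := by positivity
  refine lin6 (x := x) (a := a) (J' := J') (b := b) (η := 1 / (8 * (1 + 2 * p))) (c := C) (T := T)
    hp (fun α i => hT0.trans_le (hx α i)) hb ha hJ hCN ⟨k₀.1, k₀.2, hN.symm⟩ ⟨α₀, hTd.symm⟩ hη
    (le_of_eq ?_) fun α i => ?_
  · field_simp
  -- the error
  obtain ⟨β, hβ⟩ : ∃ β : Fin r → ℝ, ∀ k, β k = if k = i then
      a α i - ∑ k ∈ Finset.univ.erase i, b α i k else b α i k := ⟨_, fun _ => rfl⟩
  obtain ⟨e, he⟩ : ∃ e : Fin 2 → Fin r → ℝ, ∀ b' k, e b' k = P b' α i k +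
      2 * π * mw b' α * β k := ⟨_, fun _ _ => rfl⟩
  obtain ⟨eX, heX⟩ : ∃ eX : Fin 2 → ℝ, ∀ b', eX b' = PX b' α i + 2 * π * mw b' α * x α i :=
    ⟨_, fun _ => rfl⟩
  have heK : ∀ b' k, |e b' k| ≤ K := by
    intro b' k
    rw [he, hβ]
    by_cases hk : k = i
    · rw [if_pos hk, hk]
      exact hPi b' α i
    · rw [if_neg hk]
      exact hP b' α i k hk
  have heXK : ∀ b', |eX b'| ≤ K := fun b' => by rw [heX]; exact hX b' α i
  have h1 := h α i
  have h2 : ∑ b', ∑ k, c b' k * (P b' α i k - J' k * PX b' α i) =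
      (∑ b', ∑ k, c b' k * e b' k) - (∑ b', (∑ k, J' k * c b' k) * eX b') -
        2 * π * ((∑ k, C α k * β k) - (∑ k, J' k * C α k) * x α i) := by
    have e1 : ∀ b', ∑ k, c b' k * (P b' α i k - J' k * PX b' α i) =
        (∑ k, c b' k * e b' k) - (∑ k, J' k * c b' k) * eX b' -
          2 * π * ((∑ k, (mw b' α * c b' k) * β k) - (∑ k, J' k * (mw b' α * c b' k)) * x α i) := by
      intro b'
      rw [Finset.sum_mul, Finset.sum_mul, ← Finset.sum_sub_distrib, ← Finset.sum_sub_distrib,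
        Finset.mul_sum, ← Finset.sum_sub_distrib]
      refine Finset.sum_congr rfl fun k _ => ?_
      rw [he, heX]
      ring
    rw [Finset.sum_congr rfl fun b' _ => e1 b', Finset.sum_sub_distrib, Finset.sum_sub_distrib,
      ← Finset.mul_sum, Finset.sum_sub_distrib, ← Finset.sum_mul]
    have e2 : ∑ b', ∑ k, (mw b' α * c b' k) * β k = ∑ k, C α k * β k := by
      rw [Finset.sum_comm]
      refine Finset.sum_congr rfl fun k _ => ?_
      rw [hC, Finset.sum_mul]
    have e3 : ∑ b', ∑ k, J' k * (mw b' α * c b' k) = ∑ k, J' k * C α k := by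
      rw [Finset.sum_comm]
      refine Finset.sum_congr rfl fun k _ => ?_
      rw [hC, Finset.mul_sum]
    rw [e2, e3]
  rw [h1] at h2
  have h3 : |(∑ b', ∑ k, c b' k * e b' k) - (∑ b', (∑ k, J' k * c b' k) * eX b')| ≤
      2 * ((r + 1) * K * (N + T)) := by
    have h4 : |∑ b', ∑ k, c b' k * e b' k| ≤ 2 * (r * (N * K)) := by
      refine (Finset.abs_sum_le_sum_abs _ _).trans ?_
      have h5 : ∀ b' : Fin 2, |∑ k, c b' k * e b' k| ≤ r * (N * K) := by
        intro b'
        refine (Finset.abs_sum_le_sum_abs _ _).trans ?_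
        calc ∑ k, |c b' k * e b' k| ≤ ∑ _k : Fin r, N * K := Finset.sum_le_sum fun k _ => by
              rw [abs_mul]
              exact mul_le_mul (hcN b' k) (heK b' k) (abs_nonneg _) hN0
          _ = r * (N * K) := by
              rw [Finset.sum_const, Finset.card_univ, Fintype.card_fin, nsmul_eq_mul]
      calc ∑ b', |∑ k, c b' k * e b' k| ≤ ∑ _b : Fin 2, r * (N * K) :=
            Finset.sum_le_sum fun b' _ => h5 b'
        _ = 2 * (r * (N * K)) := by
            rw [Finset.sum_const, Finset.card_univ, Fintype.card_fin, nsmul_eq_mul]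
            push_cast
            ring
    have h5 : |∑ b', (∑ k, J' k * c b' k) * eX b'| ≤ 2 * (T * K) := by
      refine (Finset.abs_sum_le_sum_abs _ _).trans ?_
      calc ∑ b', |(∑ k, J' k * c b' k) * eX b'| ≤ ∑ _b : Fin 2, T * K :=
            Finset.sum_le_sum fun b' _ => by
              rw [abs_mul]
              exact mul_le_mul (hcT b') (heXK b') (abs_nonneg _) hTT0
        _ = 2 * (T * K) := by
            rw [Finset.sum_const, Finset.card_univ, Fintype.card_fin, nsmul_eq_mul]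
            push_cast
            ring
    refine (abs_sub _ _).trans ?_
    have h6 : (0 : ℝ) ≤ r := Nat.cast_nonneg r
    have h7 : 0 ≤ K * N := mul_nonneg hK hN0
    have h8 : 0 ≤ K * T := mul_nonneg hK hTT0
    have h9 : 0 ≤ r * (K * T) := mul_nonneg h6 h8
    nlinarith
  have h4 : ∑ k, C α k * β k = C α i * (a α i - ∑ k ∈ Finset.univ.erase i, b α i k) +
      ∑ k ∈ Finset.univ.erase i, C α k * b α i k := by
    rw [← Finset.add_sum_erase _ _ (Finset.mem_univ i), hβ, if_pos rfl]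
    congr 1
    refine Finset.sum_congr rfl fun k hk => ?_
    rw [hβ, if_neg (Finset.ne_of_mem_erase hk)]
  have h5 : ∑ k ∈ Finset.univ.erase i, b α i k * (C α i - C α k) =
      (∑ k ∈ Finset.univ.erase i, b α i k) * C α i -
        ∑ k ∈ Finset.univ.erase i, C α k * b α i k := by
    rw [Finset.sum_mul, ← Finset.sum_sub_distrib]
    refine Finset.sum_congr rfl fun k _ => ?_
    ring
  have h6 : (2 * π) * ((∑ k ∈ Finset.univ.erase i, b α i k * (C α i - C α k)) -
      (a α i * C α i - (∑ k, J' k * C α k) * x α i)) =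
      -((∑ b', ∑ k, c b' k * e b' k) - (∑ b', (∑ k, J' k * c b' k) * eX b')) := by
    rw [h5]
    rw [h4] at h2
    linear_combination -h2
  have h7 : (2 * π) * |(∑ k ∈ Finset.univ.erase i, b α i k * (C α i - C α k)) -
      (a α i * C α i - (∑ k, J' k * C α k) * x α i)| ≤ 2 * ((r + 1) * K * (N + T)) := by
    have h8 := congrArg abs h6
    rw [abs_mul, abs_neg, abs_of_pos (by positivity : (0 : ℝ) < 2 * π)] at h8
    rw [h8]
    exact h3
  have h8 : (r + 1) * K ≤ π * (1 / (8 * (1 + 2 * p)) * x α i) := by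
    have h9 : (0 : ℝ) < 8 * (1 + 2 * p) := by linarith
    have h10 : (r + 1) * K ≤ π * T₀ / (8 * (1 + 2 * p)) := by
      rw [le_div_iff₀ h9]
      exact hT
    refine h10.trans ?_
    have h11 : π * T₀ / (8 * (1 + 2 * p)) ≤ π * x α i / (8 * (1 + 2 * p)) := by
      apply div_le_div_of_nonneg_right _ h9.le
      exact mul_le_mul_of_nonneg_left (hx α i) hπ.le
    refine h11.trans (le_of_eq ?_)
    field_simp
  have h9 : (r + 1) * K * (N + T) ≤ π * (1 / (8 * (1 + 2 * p)) * x α i) * (N + T) :=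
    mul_le_mul_of_nonneg_right h8 (by linarith)
  have h10 : π * |(∑ k ∈ Finset.univ.erase i, b α i k * (C α i - C α k)) -
      (a α i * C α i - (∑ k, J' k * C α k) * x α i)| ≤
      π * (1 / (8 * (1 + 2 * p)) * x α i * (N + T)) := by
    linarith
  exact le_of_mul_le_mul_left h10 hπ

end Pool.Agent.H442
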