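import Pool.Agent.H442.Unr2
import Pool.Agent.H442.Irr5
set_option autoImplicit false

/-!
The classes `{z, R(x) / x^j}` on the curves `P(z) = z x R(x) M(x) / D(x)`, where
`R ≡ X^j` modulo `D` and `P` is a product of cyclotomic polynomials: they are unramified at all
discrete valuations.
-/

namespace Pool.Agent.H442

open Polynomial

open scoped WithZero

open Pool.Agent.TH826.MK (KQ symb unitPart Unramified val_one_of_sub_one)

open Pool.Agent.Helper537_Sym

/-- products of cyclotomic polynomials -/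
noncomputable def cycP {s : ℕ} (c : Fin s → ℕ) : ℤ[X] := ∏ i, cyclotomic (c i) ℤ

theorem cycP_monic {s : ℕ} (c : Fin s → ℕ) : (cycP c).Monic :=
  monic_prod_of_monic _ _ fun _ _ => cyclotomic.monic _ _

theorem cycP_coeff_zero {s : ℕ} (c : Fin s → ℕ) (hc : ∀ i, 0 < c i) :
    (cycP c).coeff 0 = 1 ∨ (cycP c).coeff 0 = -1 := by
  have h : ∀ i, (cyclotomic (c i) ℤ).eval 0 = 1 ∨ (cyclotomic (c i) ℤ).eval 0 = -1 := by
    intro i
    rw [← coeff_zero_eq_eval_zero]
    rcases Nat.lt_or_ge (c i) 2 with h1 | h1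
    · right
      have h2 : c i = 1 := by
        have := hc i
        omega
      rw [h2, cyclotomic_one]
      simp
    · left
      exact cyclotomic_coeff_zero ℤ h1
  unfold cycP
  rw [coeff_zero_eq_eval_zero, eval_prod]
  have key : ∀ t : Finset (Fin s), ∏ i ∈ t, (cyclotomic (c i) ℤ).eval 0 = 1 ∨
      ∏ i ∈ t, (cyclotomic (c i) ℤ).eval 0 = -1 := by
    classical
    intro t
    induction t using Finset.induction_on with
    | empty => left; simp
    | insert i t hi ih =>
      rw [Finset.prod_insert hi]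
      rcases h i with h1 | h1 <;> rcases ih with h2 | h2 <;> rw [h1, h2] <;> simp
  exact key _

section gen

variable {L : Type*} [Field L] (v : Valuation L ℤᵐ⁰)

theorem val_aevalZ_le {z : L} (hz : v z ≤ 1) (P : ℤ[X]) : v (aeval z P) ≤ 1 := by
  rw [aeval_eq_sum_range]
  refine v.map_sum_le fun i _ => ?_
  rw [zsmul_eq_mul, map_mul, map_pow]
  exact mul_le_one' (val_int_le v _) (pow_le_one₀ zero_le hz)

/-- the value of `P` at `z` near zero -/
theorem val_P_zero {P : ℤ[X]} (hP0 : P.coeff 0 = 1 ∨ P.coeff 0 = -1) {z : L} (hz : v z < 1) :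
    v ((aeval z P) ^ 2 - 1) < 1 ∧ v (aeval z P) = 1 := by
  obtain ⟨Q, hQ⟩ : ∃ Q : ℤ[X], P = X * Q + C (P.coeff 0) :=
    ⟨P.divX, (X_mul_divX_add P).symm⟩
  have h1 : aeval z P = z * aeval z Q + ((P.coeff 0 : ℤ) : L) := by
    conv_lhs => rw [hQ]
    rw [map_add, map_mul, aeval_X, aeval_C]
    rfl
  have h2 : v (z * aeval z Q) < 1 := by
    rw [map_mul]
    exact mul_lt_one_of_lt_of_le hz (val_aevalZ_le v hz.le Q)
  have h3 : v (z * aeval z Q + 2 * ((P.coeff 0 : ℤ) : L)) ≤ 1 := by
    refine (v.map_add _ _).trans (max_le h2.le ?_)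
    have : (2 * ((P.coeff 0 : ℤ) : L)) = ((2 * P.coeff 0 : ℤ) : L) := by push_cast; ring
    rw [this]
    exact val_int_le v _
  have h4 : (((P.coeff 0 : ℤ) : L)) ^ 2 = 1 := by
    rcases hP0 with h | h <;> rw [h] <;> simp
  constructor
  · have e : (aeval z P) ^ 2 - 1 = (z * aeval z Q) *
        (z * aeval z Q + 2 * ((P.coeff 0 : ℤ) : L)) := by
      rw [h1]
      linear_combination h4
    rw [e, map_mul]
    exact mul_lt_one_of_lt_of_le h2 h3
  · rw [h1]
    have h5 : v ((P.coeff 0 : ℤ) : L) = 1 := by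
      rcases hP0 with h | h <;> rw [h] <;> simp
    rw [Valuation.map_add_eq_of_lt_right v (by rw [h5]; exact h2), h5]

/-- the value of `P` at `z` near infinity -/
theorem val_P_inf {P : ℤ[X]} (hP : P.Monic) {z : L} (hz : 1 < v z) :
    v (aeval z P / z ^ P.natDegree - 1) < 1 :=
  aeval_inf (O := ℤ) (fun a => by
    rw [eq_intCast]
    exact val_int_le v a) hz hP

theorem val_z5 {P : ℤ[X]} (hP : P.Monic) (hN : 3 ≤ P.natDegree)
    (hP0 : P.coeff 0 = 1 ∨ P.coeff 0 = -1) {q z : L} (h : aeval z P = q * z)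
    (hq : v q ≤ 1) : v z = 1 := by
  rcases lt_trichotomy (v z) 1 with h1 | h1 | h1
  · exfalso
    have h2 := (val_P_zero v hP0 h1).2
    rw [h, map_mul] at h2
    have h3 : v q * v z < 1 := by
      calc v q * v z ≤ 1 * v z := mul_le_mul_left hq _
        _ = v z := one_mul _
        _ < 1 := h1
    exact h3.ne h2
  · exact h1
  · exfalso
    have h2 := val_one_of_sub_one (val_P_inf v hP h1)
    have hvz : 0 < v z := zero_lt_one.trans h1
    rw [map_div₀, map_pow, div_eq_one_iff_eq (pow_ne_zero _ hvz.ne')] at h2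
    rw [h, map_mul] at h2
    have h3 : v z ^ P.natDegree = v z ^ (P.natDegree - 1) * v z := by
      rw [← pow_succ]
      congr 1
      omega
    rw [h3] at h2
    have h4 : v q = v z ^ (P.natDegree - 1) := mul_right_cancel₀ hvz.ne' h2
    have h5 : 1 < v z ^ (P.natDegree - 1) := one_lt_pow₀ h1 (by omega)
    rw [← h4] at h5
    exact absurd h5 (not_lt.2 hq)

theorem mem_tors5 {s : ℕ} {c : Fin s → ℕ} (hc : ∀ i, 0 < c i) {q : L} {z : Lˣ}
    (hz : v (z : L) = 1) (h : aeval (z : L) (cycP c) = q * z) (hq : v q < 1) (w : Lˣ) :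
    sy z w ∈ unitPart v 2 := by
  have h1 : v (aeval (z : L) (cycP c)) < 1 := by
    rw [h, map_mul, hz, mul_one]
    exact hq
  unfold cycP at h1
  rw [map_prod, map_prod] at h1
  obtain ⟨i, hi⟩ : ∃ i, v (aeval (z : L) (cyclotomic (c i) ℤ)) < 1 := by
    by_contra hcon
    push Not at hcon
    have h2 : ∏ i, v (aeval (z : L) (cyclotomic (c i) ℤ)) = 1 := by
      refine Finset.prod_eq_one fun i _ => ?_
      exact le_antisymm (val_aevalZ_le v hz.le _) (hcon i)
    exact h1.ne h2
  obtain ⟨Q, hQ⟩ := cyclotomic.dvd_X_pow_sub_one (c i) ℤ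
  refine sy_mem_left_pow v (m := c i) (hc i).ne' ?_
  have e : (z : L) ^ c i - 1 = aeval (z : L) (cyclotomic (c i) ℤ) * aeval (z : L) Q := by
    rw [← map_mul, ← hQ]
    simp
  rw [e, map_mul]
  exact mul_lt_one_of_lt_of_le hi (val_aevalZ_le v hz.le Q)

end gen

section main

variable {O L : Type*} [CommRing O] [Field L] [Algebra O L] {v : Valuation L ℤᵐ⁰}

/-- the points with a pole of `x` -/
theorem mem5_inf (hO : ∀ a : O, v (algebraMap O L a) ≤ 1) {P : ℤ[X]} (hP : P.Monic)
    (hN : 3 ≤ P.natDegree) (hP0 : P.coeff 0 = 1 ∨ P.coeff 0 = -1) {D R M : O[X]}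
    (hD : D.Monic) (hR : R.Monic) (hM : M.Monic)
    (hdeg : D.natDegree < 1 + R.natDegree + M.natDegree) (j : ℕ) {x z r d : Lˣ}
    (hd : (d : L) = aeval (x : L) D) (hr : (r : L) = aeval (x : L) R)
    (h : aeval (z : L) P = (x * r * aeval (x : L) M / d) * z)
    (hx : 1 < v (x : L)) : sy z (r / x ^ j) ∈ unitPart v 2 := by
  have hx0 : (x : L) ≠ 0 := x.ne_zero
  have hz0 : (z : L) ≠ 0 := z.ne_zero
  obtain ⟨e, he⟩ : ∃ e : ℕ, 1 + R.natDegree + M.natDegree = D.natDegree + (e + 1) :=
    ⟨1 + R.natDegree + M.natDegree - D.natDegree - 1, by omega⟩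
  have uD := aeval_inf hO hx hD
  have uR := aeval_inf hO hx hR
  have uM := aeval_inf hO hx hM
  have hxpos : 0 < v (x : L) := zero_lt_one.trans hx
  -- `x R M / D = x^(e+1) * one-unit`
  set uq : L := (aeval (x : L) R / (x : L) ^ R.natDegree) *
    ((aeval (x : L) M / (x : L) ^ M.natDegree) * (aeval (x : L) D / (x : L) ^ D.natDegree)⁻¹)
    with huq
  have huq1 : v (uq - 1) < 1 := one_mul' v uR (one_mul' v uM (one_inv' v uD))
  have hq : (x : L) * r * aeval (x : L) M / d = (x : L) ^ (e + 1) * uq := by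
    rw [huq, hr, hd]
    have hD0 : aeval (x : L) D ≠ 0 := by rw [← hd]; exact d.ne_zero
    have e1 : (x : L) ^ (1 + R.natDegree + M.natDegree) = (x : L) ^ (D.natDegree + (e + 1)) := by
      rw [he]
    rw [pow_add, pow_add, pow_one, pow_add] at e1
    have n1 : (x : L) ^ R.natDegree ≠ 0 := pow_ne_zero _ hx0
    have n2 : (x : L) ^ M.natDegree ≠ 0 := pow_ne_zero _ hx0
    have n3 : (x : L) ^ D.natDegree ≠ 0 := pow_ne_zero _ hx0
    rw [inv_div]
    field_simp
    linear_combination (aeval (x : L) R) * (aeval (x : L) M) * e1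
  rw [hq] at h
  have huqv := val_one_of_sub_one huq1
  have huq0 : uq ≠ 0 := fun h0 => by rw [h0, map_zero] at huqv; exact zero_ne_one huqv
  have hvx1 : 1 < v (x : L) ^ (e + 1) := one_lt_pow₀ hx (by omega)
  have hXX : sy z x ∈ unitPart v 2 := by
    rcases lt_trichotomy (v (z : L)) 1 with h1 | h1 | h1
    · -- `(z x^(e+1))²` is a one-unit
      have h2 := (val_P_zero v hP0 h1).1
      have h3 : v (((z * x ^ (e + 1) : Lˣ) : L) ^ 2 - 1) < 1 := by
        have h4 := one_mul' v h2 (one_zpow' v huq1 (-2))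
        have h5 : ((z * x ^ (e + 1) : Lˣ) : L) ^ 2 = (aeval (z : L) P) ^ 2 * uq ^ (-2 : ℤ) := by
          rw [h, Units.val_mul, Units.val_pow_eq_pow_val, zpow_neg, zpow_ofNat]
          field_simp
        rw [h5]
        exact h4
      have e1 : z = (z * x ^ (e + 1)) * (x ^ (e + 1))⁻¹ := by group
      rw [e1, sy_mul_left, sy_inv_left, sy_pow_left, sy_self, smul_zero, neg_zero, add_zero]
      exact sy_mem_left_pow v two_ne_zero h3
    · exfalso
      have h2 := val_aevalZ_le v h1.le P
      rw [h, map_mul, map_mul, h1, huqv, map_pow, mul_one, mul_one] at h2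
      exact absurd hvx1 (not_lt.2 h2)
    · -- `x^(e+1) = z^(N-1) * one-unit`
      have h2 := val_P_inf v hP h1
      have h3 : v (((x ^ (e + 1) / z ^ (P.natDegree - 1) : Lˣ) : L) - 1) < 1 := by
        have h4 := one_mul' v h2 (one_inv' v huq1)
        have h5 : ((x ^ (e + 1) / z ^ (P.natDegree - 1) : Lˣ) : L) =
            aeval (z : L) P / (z : L) ^ P.natDegree * uq⁻¹ := by
          have h6 : (z : L) ^ P.natDegree = (z : L) ^ (P.natDegree - 1) * z := by
            rw [← pow_succ]
            congr 1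
            omega
          rw [h, h6, Units.val_div_eq_div_val, Units.val_pow_eq_pow_val,
            Units.val_pow_eq_pow_val]
          field_simp
        rw [h5]
        exact h4
      have h7 : sy z (x ^ (e + 1)) ∈ unitPart v 2 := by
        have e1 : x ^ (e + 1) = (x ^ (e + 1) / z ^ (P.natDegree - 1)) * z ^ (P.natDegree - 1) := by
          rw [div_mul_cancel]
        rw [e1, sy_mul_right, sy_pow_right, sy_self, smul_zero, add_zero]
        exact sy_mem_right v h3
      rw [sy_pow_right] at h7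
      have h8 : sy z x = ((e + 1 : ℕ) : ℚ)⁻¹ • ((e + 1) • sy z x) := by
        rw [← Nat.cast_smul_eq_nsmul ℚ (e + 1) (sy z x), smul_smul, inv_mul_cancel₀, one_smul]
        exact_mod_cast Nat.succ_ne_zero e
      rw [h8]
      exact Submodule.smul_mem _ _ h7
  have hr1 : v (((r / x ^ R.natDegree : Lˣ) : L) - 1) < 1 := by
    rw [Units.val_div_eq_div_val, Units.val_pow_eq_pow_val, hr]
    exact uR
  have e3 : r / x ^ j = (r / x ^ R.natDegree) * (x ^ ((R.natDegree : ℤ) - j)) := by
    rw [zpow_sub, zpow_natCast, zpow_natCast, div_mul_eq_mul_div, div_eq_mul_inv, div_eq_mul_inv]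
    group
  rw [e3, sy_mul_right, sy_zpow_right]
  exact Submodule.add_mem _ (sy_mem_right v hr1) (Submodule.smul_mem _ _ hXX)

/-- The classes `{z, R(x)/x^j}` are unramified. -/
theorem mem5 (hO : ∀ a : O, v (algebraMap O L a) ≤ 1) {s : ℕ} {c : Fin s → ℕ}
    (hc : ∀ i, 0 < c i) (hN : 3 ≤ (cycP c).natDegree) {D R M Q : O[X]}
    (hD : D.Monic) (hR : R.Monic) (hM : M.Monic)
    (hdeg : D.natDegree < 1 + R.natDegree + M.natDegree) {j : ℕ}
    (hQ : X ^ j - R = D * Q) {x z r d : Lˣ}
    (hd : (d : L) = aeval (x : L) D) (hr : (r : L) = aeval (x : L) R)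
    (h : aeval (z : L) (cycP c) = (x * r * aeval (x : L) M / d) * z) :
    sy z (r / x ^ j) ∈ unitPart v 2 := by
  have hP := cycP_monic c
  have hP0 := cycP_coeff_zero c hc
  rcases lt_or_ge 1 (v (x : L)) with hx | hx
  · exact mem5_inf hO hP hN hP0 hD hR hM hdeg j hd hr h hx
  have hx0 : (x : L) ≠ 0 := x.ne_zero
  have hr0 : (r : L) ≠ 0 := r.ne_zero
  have hd0 : (d : L) ≠ 0 := d.ne_zero
  have vx : 0 < v (x : L) := zero_lt_iff.2 ((Valuation.ne_zero_iff v).2 hx0)
  have vr : 0 < v (r : L) := zero_lt_iff.2 ((Valuation.ne_zero_iff v).2 hr0)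
  have vd : 0 < v (d : L) := zero_lt_iff.2 ((Valuation.ne_zero_iff v).2 hd0)
  have hM1 := val_aeval_le (v := v) hO hx M
  have hQ1 := val_aeval_le (v := v) hO hx Q
  have hR1 : v (r : L) ≤ 1 := by rw [hr]; exact val_aeval_le hO hx R
  have hD1 : v (d : L) ≤ 1 := by rw [hd]; exact val_aeval_le hO hx D
  have hQ' : (x : L) ^ j - r = d * aeval (x : L) Q := by
    have h1 := congrArg (aeval (x : L)) hQ
    rw [map_sub, map_pow, aeval_X, map_mul, ← hr, ← hd] at h1
    exact h1
  rcases lt_or_ge (v ((x : L) * r * aeval (x : L) M)) (v (d : L)) with hI | hII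
  · have hq : v ((x : L) * r * aeval (x : L) M / d) < 1 := by
      rw [map_div₀]
      exact (div_lt_one₀ vd).2 hI
    exact mem_tors5 v hc (val_z5 v hP hN hP0 h hq.le) h hq _
  -- `|D| ≤ |x| |R|`
  have hII' : v (d : L) ≤ v (x : L) * v (r : L) := by
    refine hII.trans ?_
    rw [map_mul, map_mul]
    exact mul_le_of_le_one_right' hM1
  have hdq : v ((x : L) ^ j - r) ≤ v (d : L) := by
    rw [hQ', map_mul]
    exact mul_le_of_le_one_right' hQ1
  have e1 : (((r / x ^ j : Lˣ) : L)) - 1 = -((d * aeval (x : L) Q) / (x : L) ^ j) := by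
    rw [← hQ', Units.val_div_eq_div_val, Units.val_pow_eq_pow_val]
    field_simp
    ring
  rcases hx.eq_or_lt with hx1 | hx1
  · -- `x` is a unit
    have hr1 : v (r : L) = 1 := by
      refine le_antisymm hR1 ?_
      by_contra hcon
      rw [not_le] at hcon
      have h2 : v ((x : L) ^ j - r) = 1 := by
        rw [Valuation.map_sub_eq_of_lt_left, map_pow, hx1, one_pow]
        rw [map_pow, hx1, one_pow]
        exact hcon
      rw [h2] at hdq
      have h3 : v (d : L) < 1 := hII'.trans_lt (by rw [hx1, one_mul]; exact hcon)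
      exact absurd hdq (not_le.2 h3)
    rcases hD1.eq_or_lt with hd1 | hd1
    · refine sy_mem_units v (val_z5 v hP hN hP0 h ?_) ?_
      · rw [map_div₀, map_mul, map_mul, hx1, hr1, hd1, one_mul, one_mul, div_one]
        exact hM1
      · rw [Units.val_div_eq_div_val, Units.val_pow_eq_pow_val, map_div₀, map_pow, hx1, hr1,
          one_pow, div_one]
    · refine sy_mem_right v ?_
      rw [e1, Valuation.map_neg, map_div₀, map_mul, map_pow, hx1, one_pow, div_one]
      exact mul_lt_one_of_lt_of_le hd1 hQ1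
  · -- `|R| = |x|^j`
    have hrj : v (r : L) = v (x : L) ^ j := by
      rcases lt_trichotomy (v (r : L)) (v (x : L) ^ j) with h2 | h2 | h2
      · exfalso
        have h3 : v ((x : L) ^ j - r) = v (x : L) ^ j := by
          rw [Valuation.map_sub_eq_of_lt_left, map_pow]
          rw [map_pow]
          exact h2
        rw [h3] at hdq
        have h4 : v (x : L) ^ j < v (x : L) ^ j := by
          calc v (x : L) ^ j ≤ v (x : L) * v (r : L) := hdq.trans hII'
            _ ≤ 1 * v (r : L) := mul_le_mul_left hx _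
            _ = v (r : L) := one_mul _
            _ < v (x : L) ^ j := h2
        exact lt_irrefl _ h4
      · exact h2
      · exfalso
        have h3 : v ((x : L) ^ j - r) = v (r : L) := by
          rw [Valuation.map_sub_eq_of_lt_right]
          rw [map_pow]
          exact h2
        rw [h3] at hdq
        have h4 : v (r : L) < v (r : L) := by
          calc v (r : L) ≤ v (x : L) * v (r : L) := hdq.trans hII'
            _ < 1 * v (r : L) := mul_lt_mul_of_pos_right hx1 vr
            _ = v (r : L) := one_mul _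
        exact lt_irrefl _ h4
    refine sy_mem_right v ?_
    rw [e1, Valuation.map_neg, map_div₀, map_mul, map_pow,
      div_lt_one₀ (pow_pos vx j)]
    calc v (d : L) * v (aeval (x : L) Q) ≤ v (d : L) := mul_le_of_le_one_right' hQ1
      _ ≤ v (x : L) * v (r : L) := hII'
      _ < 1 * v (r : L) := mul_lt_mul_of_pos_right hx1 vr
      _ = v (x : L) ^ j := by rw [one_mul, hrj]

end main

end Pool.Agent.H442
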