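import Pool.Agent.H442.Curve2
import Pool.Agent.H442.Unr5
set_option autoImplicit false

/-!
The function field of the curve `D(x) P(z) = A(x) z`: evaluation at transcendental points, loops in
its spectrum and the classes `{z, R(x)/x^j}`.
-/

namespace Pool.Agent.H442

open Polynomial

open scoped WithZero

open Pool.Agent.TH826.MK (Torus KQ symb pairing circ norm_circ contDiff_circ circ_add_one
  Unramified unitPart val_le_one_of_integral)

open Pool.Agent.TH826.UH

open Pool.Agent.Helper537_Sym (sy)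

variable {K : Type*} [Field K]

/-- The coordinate ring `K[x, z]/(D(x) P(z) - A(x) z)`. -/
abbrev GRing (P : ℤ[X]) (A D : K[X]) : Type _ := AdjoinRoot (GG P A D)

variable {P : ℤ[X]} {A D : K[X]} (σ : K →+* ℂ) {x z : ℂ}

theorem GG_eval₂ {S : Type*} [CommRing S] (φ : K[X] →+* S) (z : S) :
    (GG P A D).eval₂ φ z = φ D * aeval z P - φ A * z := by
  unfold GG
  rw [eval₂_sub, eval₂_mul, eval₂_mul, eval₂_C, eval₂_C, eval₂_X, eval₂_map, aeval_def]
  congr 3
  exact Subsingleton.elim _ _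

/-- Evaluation at the complex point `(x, z)`. -/
noncomputable def evG (h : D.eval₂ σ x * aeval z P = A.eval₂ σ x * z) : GRing P A D →+* ℂ :=
  AdjoinRoot.lift (eval₂RingHom σ x) z (by
    rw [GG_eval₂, coe_eval₂RingHom, h, sub_self])

theorem evG_mk (h : D.eval₂ σ x * aeval z P = A.eval₂ σ x * z) (q : K[X][X]) :
    evG σ h (AdjoinRoot.mk _ q) = q.eval₂ (eval₂RingHom σ x) z := by
  unfold evG
  rw [AdjoinRoot.lift_mk]

theorem evG_of (h : D.eval₂ σ x * aeval z P = A.eval₂ σ x * z) (p : K[X]) :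
    evG σ h (AdjoinRoot.of _ p) = p.eval₂ σ x := by
  unfold evG
  rw [AdjoinRoot.lift_of, coe_eval₂RingHom]

theorem evG_root (h : D.eval₂ σ x * aeval z P = A.eval₂ σ x * z) :
    evG σ h (AdjoinRoot.root _) = z := by
  unfold evG
  rw [AdjoinRoot.lift_root]

theorem evG_congr {x' z' : ℂ} (h : D.eval₂ σ x * aeval z P = A.eval₂ σ x * z)
    (h' : D.eval₂ σ x' * aeval z' P = A.eval₂ σ x' * z') (e : x = x') (e' : z = z') :
    evG σ h = evG σ h' := by
  subst e
  subst e'
  rfl

theorem isDomain_GRing (hirr : Irreducible (GG P A D)) : IsDomain (GRing P A D) :=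
  AdjoinRoot.isDomain_of_prime hirr.prime

theorem ofG_injective (hd : 0 < (GG P A D).natDegree) :
    Function.Injective (AdjoinRoot.of (GG P A D)) := by
  rw [injective_iff_map_eq_zero]
  intro p hp
  rw [← AdjoinRoot.mk_C, AdjoinRoot.mk_eq_zero] at hp
  by_contra hne
  have h1 := natDegree_le_of_dvd hp (C_ne_zero.2 hne)
  rw [natDegree_C] at h1
  omega

theorem isAlgebraic_GRing (hirr : Irreducible (GG P A D)) (a : GRing P A D) :
    IsAlgebraic K[X] a := by
  have hdom := isDomain_GRing hirr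
  have h1 : (⊤ : Subalgebra K[X] (GRing P A D)) ≤
      Subalgebra.algebraicClosure K[X] (GRing P A D) := by
    rw [← AdjoinRoot.adjoinRoot_eq_top]
    refine Algebra.adjoin_le ?_
    rw [Set.singleton_subset_iff]
    refine ⟨GG P A D, hirr.ne_zero, ?_⟩
    rw [AdjoinRoot.aeval_eq, AdjoinRoot.mk_self]
  exact h1 Algebra.mem_top

theorem evG_inj (hirr : Irreducible (GG P A D))
    (h : D.eval₂ σ x * aeval z P = A.eval₂ σ x * z) (hx : TrOver σ x) :
    Function.Injective (evG σ h) := by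
  have hdom := isDomain_GRing hirr
  rw [injective_iff_map_eq_zero]
  intro a ha
  by_contra hne
  obtain ⟨r, hr, hdvd⟩ := (isAlgebraic_GRing hirr a).exists_nonzero_dvd
    (mem_nonZeroDivisors_of_ne_zero hne)
  obtain ⟨b, hb⟩ := hdvd
  apply hr
  apply hx
  have h1 : evG σ h (AdjoinRoot.of _ r) = 0 := by
    have h2 : AdjoinRoot.of (GG P A D) r = a * b := hb
    rw [h2, map_mul, ha, zero_mul]
  rwa [evG_of] at h1

theorem contDiff_evG {X Z : ℝ → ℂ} (hX : ContDiff ℝ 2 X) (hZ : ContDiff ℝ 2 Z)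
    (hP : ∀ s, D.eval₂ σ (X s) * aeval (Z s) P = A.eval₂ σ (X s) * Z s) (r : GRing P A D) :
    ContDiff ℝ 2 fun s => evG σ (hP s) r := by
  have hpol : ∀ p : K[X], ContDiff ℝ 2 fun s => p.eval₂ σ (X s) := by
    intro p
    have e : (fun s => p.eval₂ σ (X s)) = fun s =>
        ∑ i ∈ Finset.range (p.natDegree + 1), σ (p.coeff i) * (X s) ^ i := by
      funext s
      rw [Polynomial.eval₂_eq_sum_range]
    rw [e]
    exact ContDiff.sum fun i _ => contDiff_const.mul (hX.pow i)
  obtain ⟨q, rfl⟩ := AdjoinRoot.mk_surjective (g := GG P A D) r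
  have e : (fun s => evG σ (hP s) (AdjoinRoot.mk (GG P A D) q)) =
      fun s => ∑ i ∈ Finset.range (q.natDegree + 1), (q.coeff i).eval₂ σ (X s) * (Z s) ^ i := by
    funext s
    rw [evG_mk, Polynomial.eval₂_eq_sum_range]
    rfl
  rw [e]
  exact ContDiff.sum fun i _ => (hpol _).mul (hZ.pow i)

section field

variable {σ}

theorem liftG_congr {L : Type*} [Field L] [Algebra (GRing P A D) L]
    [IsFractionRing (GRing P A D) L] {g g' : GRing P A D →+* ℂ} (h : g = g')
    (hg : Function.Injective g) (hg' : Function.Injective g') :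
    (IsFractionRing.lift (K := L) hg : L →+* ℂ) = IsFractionRing.lift hg' := by
  subst h
  rfl

/-- A loop in the spectrum of the function field. -/
noncomputable def mkG (L : Type*) [Field L] [Algebra (GRing P A D) L]
    [IsFractionRing (GRing P A D) L]
    {X Z : ℝ → ℂ} (hX : ContDiff ℝ 2 X) (hZ : ContDiff ℝ 2 Z)
    (hX1 : ∀ t, X (t + 1) = X t) (hZ1 : ∀ t, Z (t + 1) = Z t)
    (hP : ∀ s, D.eval₂ σ (X s) * aeval (Z s) P = A.eval₂ σ (X s) * Z s)
    (hi : ∀ t, Function.Injective (evG σ (hP t))) : Torus L 1 where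
  e θ := IsFractionRing.lift (hi (θ 0))
  smooth h := by
    obtain ⟨a, c, hc, rfl⟩ := IsFractionRing.div_surjective (GRing P A D) h
    have hnt : Nontrivial (GRing P A D) := (algebraMap (GRing P A D) L).domain_nontrivial
    have hc0 : c ≠ 0 := nonZeroDivisors.ne_zero hc
    have e : (fun θ : Fin 1 → ℝ => (IsFractionRing.lift (hi (θ 0)) : L →+* ℂ)
        (algebraMap (GRing P A D) L a / algebraMap (GRing P A D) L c)) =
        fun θ => evG σ (hP (θ 0)) a * (evG σ (hP (θ 0)) c)⁻¹ := by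
      funext θ
      rw [map_div₀, IsFractionRing.lift_algebraMap, IsFractionRing.lift_algebraMap,
        div_eq_mul_inv]
    rw [e]
    have h0 : ContDiff ℝ 2 fun θ : Fin 1 → ℝ => θ 0 := contDiff_apply ℝ ℝ 0
    refine ((contDiff_evG σ hX hZ hP a).comp h0).mul
      (((contDiff_evG σ hX hZ hP c).comp h0).inv fun θ => ?_)
    intro h0
    exact hc0 ((injective_iff_map_eq_zero _).1 (hi (θ 0)) c h0)
  periodic θ i := by
    have h0 : (θ + Pi.single i 1 : Fin 1 → ℝ) 0 = θ 0 + 1 := by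
      rw [Pi.add_apply, Subsingleton.elim i 0, Pi.single_eq_same]
    refine liftG_congr ?_ _ _
    refine evG_congr σ _ _ ?_ ?_
    · rw [h0, hX1]
    · rw [h0, hZ1]

theorem mkG_e {L : Type*} [Field L] [Algebra (GRing P A D) L] [IsFractionRing (GRing P A D) L]
    {X Z : ℝ → ℂ} (hX : ContDiff ℝ 2 X) (hZ : ContDiff ℝ 2 Z)
    (hX1 : ∀ t, X (t + 1) = X t) (hZ1 : ∀ t, Z (t + 1) = Z t)
    (hP : ∀ s, D.eval₂ σ (X s) * aeval (Z s) P = A.eval₂ σ (X s) * Z s)
    (hi : ∀ t, Function.Injective (evG σ (hP t))) (θ : Fin 1 → ℝ) (r : GRing P A D) :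
    (mkG L hX hZ hX1 hZ1 hP hi).e θ (algebraMap (GRing P A D) L r) = evG σ (hP (θ 0)) r :=
  IsFractionRing.lift_algebraMap (hi (θ 0)) r

end field

section alg

variable (L : Type*) [Field L] [Algebra (GRing P A D) L] [IsFractionRing (GRing P A D) L]

/-- The embedding of the polynomials in `x` into the function field. -/
noncomputable def pG : K[X] →+* L := (algebraMap (GRing P A D) L).comp (AdjoinRoot.of _)

/-- The function `z`. -/
noncomputable def zG : L := algebraMap (GRing P A D) L (AdjoinRoot.root _)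

variable {L}

theorem pG_ne_zero (hd : 0 < (GG P A D).natDegree) {p : K[X]} (hp : p ≠ 0) :
    pG (P := P) (A := A) (D := D) L p ≠ 0 := by
  intro h
  have h1 : Function.Injective (pG (P := P) (A := A) (D := D) L) :=
    (IsFractionRing.injective (GRing P A D) L).comp (ofG_injective hd)
  exact hp (h1 (by rw [h, map_zero]))

omit [IsFractionRing (GRing P A D) L] in
theorem zG_eq : pG (P := P) (A := A) (D := D) L D * aeval (zG (P := P) (A := A) (D := D) L) P =
    pG (P := P) (A := A) (D := D) L A * zG (P := P) (A := A) (D := D) L := by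
  have h1 := AdjoinRoot.eval₂_root (GG P A D)
  have h2 := congrArg (algebraMap (GRing P A D) L) h1
  rw [hom_eval₂, map_zero] at h2
  have h3 := GG_eval₂ (P := P) (A := A) (D := D)
    ((algebraMap (GRing P A D) L).comp (AdjoinRoot.of (GG P A D)))
    (algebraMap (GRing P A D) L (AdjoinRoot.root (GG P A D)))
  rw [h2] at h3
  exact (sub_eq_zero.1 h3.symm)

theorem zG_ne_zero (hP0 : P.coeff 0 = 1 ∨ P.coeff 0 = -1) (hD : D ≠ 0)
    (hd : 0 < (GG P A D).natDegree) : zG (P := P) (A := A) (D := D) L ≠ 0 := by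
  intro h
  have h1 := zG_eq (P := P) (A := A) (D := D) (L := L)
  rw [h, mul_zero] at h1
  have h2 : aeval (0 : L) P = ((P.coeff 0 : ℤ) : L) := by
    rw [← coeff_zero_eq_aeval_zero']
    rfl
  rw [h2] at h1
  rcases mul_eq_zero.1 h1 with h3 | h3
  · exact pG_ne_zero hd hD h3
  · rcases hP0 with h4 | h4 <;> rw [h4] at h3 <;> simp at h3

end alg

section cls

variable {O : Type*} [CommRing O] [Algebra O K]

/-- The classes `{z, R(x)/x^j}` are unramified. -/
theorem cls5 (hO : ∀ a : O, IsIntegral ℤ a) {s : ℕ} {c : Fin s → ℕ} (hc : ∀ i, 0 < c i)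
    (hN : 3 ≤ (cycP c).natDegree) {D₀ R M Q : O[X]}
    (hD : D₀.Monic) (hR : R.Monic) (hM : M.Monic)
    (hdeg : D₀.natDegree < 1 + R.natDegree + M.natDegree) {j : ℕ} (hQ : X ^ j - R = D₀ * Q)
    {R' : K[X]} (hA' : A = X * R' * M.map (algebraMap O K))
    (hD' : D = D₀.map (algebraMap O K)) (hR' : R' = R.map (algebraMap O K))
    (L : Type*) [Field L] [Algebra (GRing (cycP c) A D) L]
    [IsFractionRing (GRing (cycP c) A D) L] (z x r : Lˣ)
    (hz : (z : L) = zG (P := cycP c) (A := A) (D := D) L)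
    (hx : (x : L) = pG (P := cycP c) (A := A) (D := D) L X)
    (hr : (r : L) = pG (P := cycP c) (A := A) (D := D) L R') :
    sy z (r / x ^ j) ∈ Unramified L 2 := by
  unfold Unramified
  simp only [Submodule.mem_iInf]
  intro v _
  set φ := pG (P := cycP c) (A := A) (D := D) L with hφ
  set ψ : O →+* L := φ.comp (C.comp (algebraMap O K)) with hψ
  let _ : Algebra O L := ψ.toAlgebra
  have hval : ∀ a : O, v (algebraMap O L a) ≤ 1 := by
    intro a
    refine val_le_one_of_integral v ?_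
    exact map_isIntegral_int ψ (hO a)
  have hae : ∀ P : O[X], φ (P.map (algebraMap O K)) = aeval (x : L) P := by
    intro P
    rw [hx, aeval_def]
    have e : P.map (algebraMap O K) = P.eval₂ (C.comp (algebraMap O K)) X := by
      rw [← eval₂_map, eval₂_C_X]
    rw [e, hom_eval₂]
    rfl
  have hDm : D.Monic := by rw [hD']; exact hD.map _
  have hG := GG_natDegree (A := A) (cycP_monic c) hN hDm.ne_zero
  have hd0 : φ D ≠ 0 := pG_ne_zero (by omega) hDm.ne_zero
  refine mem5 hval hc hN hD hR hM hdeg hQ (d := Units.mk0 _ hd0) ?_ ?_ ?_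
  · rw [Units.val_mk0]
    conv_lhs => rw [hD']
    rw [hae]
  · rw [hr, hR', hae]
  · rw [Units.val_mk0, hz]
    have h1 := zG_eq (P := cycP c) (A := A) (D := D) (L := L)
    rw [← hφ] at h1
    have h2 : φ A = x * r * aeval (x : L) M := by
      conv_lhs => rw [hA']
      rw [map_mul, map_mul, ← hx, ← hr, hae]
    rw [h2] at h1
    rw [div_mul_eq_mul_div, eq_div_iff hd0, ← h1]
    ring

end cls

section loops

variable [Algebra ℚ K] [Algebra.IsAlgebraic ℚ K] {R : ℝ}

/-- A loop in the curve. -/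
structure Lq5 (σ : K →+* ℂ) (P : ℤ[X]) (A D : K[X]) (R : ℝ) (Xs : ℝ → ℂ) : Prop where
  R1 : 1 < R
  smooth : ContDiff ℝ 2 Xs
  per : ∀ s, Xs (s + 1) = Xs s
  ne : ∀ s, D.eval₂ σ (Xs s) ≠ 0
  eq : ∀ s, D.eval₂ σ (Xs s) * aeval (circ R s) P = A.eval₂ σ (Xs s) * circ R s

variable {σ}

theorem Lq5.tr {Xs : ℝ → ℂ} (H : Lq5 σ P A D R Xs) (hP : P.Monic) (hN : 3 ≤ P.natDegree)
    (hR : Transcendental ℚ R) (s : ℝ) : Xs s ∉ EE := by
  intro h
  have hR0 : 0 < R := one_pos.trans H.R1
  have hz : circ R s ∉ EE := not_mem_EE.2 (transcendental_of_norm hR (norm_circ hR0.le s))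
  apply hz
  have hq : A.eval₂ σ (Xs s) / D.eval₂ σ (Xs s) ∈ EE :=
    div_mem (eval₂_mem_EE A h) (eval₂_mem_EE D h)
  have h5 : IsIntegral EE (circ R s) := by
    refine ⟨P.map (Int.castRingHom EE) - C (⟨_, hq⟩ : EE) * X, ?_, ?_⟩
    · refine (hP.map _).sub_of_left ?_
      refine (degree_C_mul_X_le _).trans_lt ?_
      rw [degree_eq_natDegree (hP.map _).ne_zero, hP.natDegree_map]
      exact_mod_cast (by omega : 1 < P.natDegree)
    · rw [eval₂_sub, eval₂_mul, eval₂_C, eval₂_X, eval₂_map]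
      have h1 : eval₂ ((algebraMap EE ℂ).comp (Int.castRingHom EE)) (circ R s) P =
          aeval (circ R s) P := by
        rw [aeval_def]
        exact congrArg (fun φ => eval₂ φ (circ R s) P) (Subsingleton.elim _ _)
      rw [h1]
      have h2 := H.eq s
      have h3 := H.ne s
      have h4 : algebraMap EE ℂ ⟨_, hq⟩ = A.eval₂ σ (Xs s) / D.eval₂ σ (Xs s) := rfl
      rw [h4]
      field_simp
      linear_combination h2
  rw [mem_algebraicClosure_iff]
  have : Algebra.IsAlgebraic ℚ EE := algebraicClosure.isAlgebraic ℚ ℂ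
  exact h5.isAlgebraic.restrictScalars ℚ

theorem Lq5.exists_torus {Xs : ℝ → ℂ} (H : Lq5 σ P A D R Xs) (hP : P.Monic)
    (hN : 3 ≤ P.natDegree) (hR : Transcendental ℚ R) (hirr : Irreducible (GG P A D))
    (L : Type*) [Field L] [Algebra (GRing P A D) L] [IsFractionRing (GRing P A D) L] :
    ∃ Γ : Torus L 1, ∀ θ, (Γ.e θ (zG (P := P) (A := A) (D := D) L) = circ R (θ 0)) ∧
      ∀ Q : K[X], Γ.e θ (pG (P := P) (A := A) (D := D) L Q) = Q.eval₂ σ (Xs (θ 0)) := by
  have htr : ∀ s, TrOver σ (Xs s) := fun s =>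
    TrOver.of_rat σ (not_mem_EE.1 fun h => H.tr hP hN hR s h)
  have hi := fun s => evG_inj σ hirr (H.eq s) (htr s)
  refine ⟨mkG L H.smooth (contDiff_circ R) H.per (circ_add_one R) H.eq hi, fun θ => ⟨?_, ?_⟩⟩
  · have h1 := mkG_e (L := L) H.smooth (contDiff_circ R) H.per (circ_add_one R) H.eq hi θ
      (AdjoinRoot.root _)
    rw [evG_root] at h1
    exact h1
  · intro Q
    have h1 := mkG_e (L := L) H.smooth (contDiff_circ R) H.per (circ_add_one R) H.eq hi θ
      (AdjoinRoot.of _ Q)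
    rw [evG_of] at h1
    exact h1

end loops

end Pool.Agent.H442
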