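import Pool.Agent.H442.Mat3
import Pool.Agent.H442.Tor5
import Pool.Agent.H442.Asym3
set_option autoImplicit false

/-!
The loops on the curves `D(x) P(z) = A(x) z` over the circles `|z| = ρ` near a simple zero of `R`.
-/

namespace Pool.Agent.H442

open Polynomial Metric Set Filter Topology MeasureTheory

open Pool.Agent.TH826.MK (Torus KQ Unramified circ norm_circ contDiff_circ circ_add_one)

open Pool.Agent.TH826.UH

open scoped Real

/-- the polynomial `P` is a product of linear factors `z - ζ` with `|ζ| = 1` -/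
def UnitRoots (P : ℤ[X]) : Prop := ∃ ζ : Fin P.natDegree → ℂ, (∀ i, ‖ζ i‖ = 1) ∧
  ∀ z : ℂ, aeval z P = ∏ i, (z - ζ i)

theorem unitRoots_cycP {s : ℕ} (c : Fin s → ℕ) (hc : ∀ i, 0 < c i) : UnitRoots (cycP c) := by
  have hm : ((cycP c).map (Int.castRingHom ℂ)).Monic := (cycP_monic c).map _
  obtain ⟨ζ, hζ⟩ := exists_roots0 _ ((cycP c).map (Int.castRingHom ℂ)) rfl hm.ne_zero
  rw [hm.leadingCoeff, C_1, one_mul] at hζ
  have hnd : ((cycP c).map (Int.castRingHom ℂ)).natDegree = (cycP c).natDegree :=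
    (cycP_monic c).natDegree_map _
  have hev : ∀ z : ℂ, aeval z (cycP c) = ∏ i, (z - ζ i) := by
    intro z
    have h1 := congrArg (eval z) hζ
    rw [eval_prod] at h1
    simp only [eval_sub, eval_X, eval_C] at h1
    rw [← h1, eval_map, aeval_def]
    exact congrArg (fun φ => eval₂ φ z (cycP c)) (Subsingleton.elim _ _)
  have hone : ∀ i, ‖ζ i‖ = 1 := by
    intro i
    have h1 : aeval (ζ i) (cycP c) = 0 := by
      rw [hev]
      exact Finset.prod_eq_zero (Finset.mem_univ i) (sub_self _)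
    unfold cycP at h1
    rw [map_prod, Finset.prod_eq_zero_iff] at h1
    obtain ⟨k, -, hk⟩ := h1
    obtain ⟨Q, hQ⟩ := cyclotomic.dvd_X_pow_sub_one (c k) ℤ
    have h2 : (ζ i) ^ c k - 1 = 0 := by
      have h3 : aeval (ζ i) (X ^ c k - 1 : ℤ[X]) = 0 := by
        rw [hQ, map_mul, hk, zero_mul]
      simpa using h3
    exact Complex.norm_eq_one_of_pow_eq_one (sub_eq_zero.1 h2) (hc k).ne'
  refine ⟨fun i => ζ (Fin.cast hnd.symm i), fun i => hone _, fun z => ?_⟩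
  rw [hev]
  exact (Fintype.prod_equiv (finCongr hnd.symm) _ _ fun i => rfl).symm

/-- the constant in the estimates -/
noncomputable def cN (N : ℕ) : ℝ := (5 / 2) ^ N

theorem one_le_cN (N : ℕ) : 1 ≤ cN N := one_le_pow₀ (by norm_num)

theorem pr_circ_sub {R : ℝ} (hR : 1 < R) {ζ : ℂ} (hζ : ‖ζ‖ = 1) :
    pr (circ R) (fun s => circ R s - ζ) = 0 := by
  have hR0 : 0 < R := one_pos.trans hR
  have h1 : ‖ζ‖ ≠ R := by rw [hζ]; exact hR.ne
  have h0 : ‖(0 : ℂ)‖ ≠ R := by rw [norm_zero]; exact hR0.ne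
  have h4 := pr_lin hR0 h0 h1
  rw [zero_sub, norm_neg, hζ, Real.log_one, zero_mul, mul_zero] at h4
  rw [← h4]
  congr 1
  funext s
  rw [sub_zero]

theorem pr_circ_self {R : ℝ} (hR : 1 < R) : pr (circ R) (circ R) = 0 := by
  have hR0 : 0 < R := one_pos.trans hR
  have h0 : ‖(0 : ℂ)‖ ≠ R := by rw [norm_zero]; exact hR0.ne
  have h4 := pr_lin hR0 h0 h0
  rw [sub_self, norm_zero, Real.log_zero, zero_mul, mul_zero] at h4
  have e : (fun s => circ R s - 0) = circ R := by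
    funext s
    rw [sub_zero]
  rw [e] at h4
  exact h4

/-- the function `P(z)/z` on the circle -/
theorem circP {P : ℤ[X]} (hP : UnitRoots P) {ρ : ℝ} (hρ : 1 < ρ) (hρ2 : ρ < 3 / 2) :
    NZ (fun s => aeval (circ ρ s) P / circ ρ s) ∧
      pr (circ ρ) (fun s => aeval (circ ρ s) P / circ ρ s) = 0 ∧
      ∀ s, ‖aeval (circ ρ s) P / circ ρ s‖ ≤ cN P.natDegree := by
  have hρ0 : 0 < ρ := one_pos.trans hρ
  have hz := nz_circ hρ0
  obtain ⟨ζ, hζ, hP⟩ := hP
  have hne : ∀ i, ‖ζ i‖ ≠ ρ := fun i => by rw [hζ]; exact hρ.ne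
  have n1 := fun i => nz_circ_sub hρ0 (hne i)
  have e : (fun s => aeval (circ ρ s) P) = fun s => ∏ i, (circ ρ s - ζ i) := by
    funext s
    exact hP _
  have n2 : NZ fun s => aeval (circ ρ s) P := by
    rw [e]
    exact NZ.prod _ n1
  refine ⟨n2.div hz, ?_, fun s => ?_⟩
  · rw [pr_div hz n2 hz, pr_circ_self hρ, e, pr_prod _ hz n1, sub_zero]
    exact Finset.sum_eq_zero fun i _ => pr_circ_sub hρ (hζ i)
  · rw [norm_div, norm_circ hρ0.le, hP, norm_prod, div_le_iff₀ hρ0]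
    have h1 : ∏ i, ‖circ ρ s - ζ i‖ ≤ ∏ _i : Fin P.natDegree, (5 / 2 : ℝ) := by
      refine Finset.prod_le_prod (fun _ _ => norm_nonneg _) fun i _ => ?_
      refine (norm_sub_le _ _).trans ?_
      rw [norm_circ hρ0.le, hζ]
      linarith
    rw [Finset.prod_const, Finset.card_univ, Fintype.card_fin] at h1
    have h2 : (0 : ℝ) ≤ cN P.natDegree := zero_le_one.trans (one_le_cN _)
    calc ∏ i, ‖circ ρ s - ζ i‖ ≤ cN P.natDegree := h1
      _ = cN P.natDegree * 1 := (mul_one _).symm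
      _ ≤ cN P.natDegree * ρ := mul_le_mul_of_nonneg_left hρ.le h2

/-- The loop near a simple zero of `R`. -/
theorem exists_loop5 {P : ℤ[X]} (hP : UnitRoots P) {D R G : ℂ[X]} {U : ℂ → ℂ} {ξ : ℂ} {δ : ℝ}
    (hδ : 0 < δ) (hU : DifferentiableOn ℂ U (ball ξ (2 * δ)))
    (hUb : ∀ x ∈ ball ξ (2 * δ), ‖U x‖ ≤ δ / 40)
    (hG : ∀ x ∈ ball ξ (2 * δ), 40 * cN P.natDegree / δ ≤ ‖G.eval x‖)
    (hD : ∀ x ∈ ball ξ (2 * δ), D.eval x ≠ 0) (h0 : ∀ x ∈ ball ξ (2 * δ), x ≠ 0)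
    (heq : ∀ x ∈ ball ξ (2 * δ), x * R.eval x = D.eval x * (x - ξ + U x)) :
    ∃ (ρ : ℝ) (Xs : ℝ → ℂ), Transcendental ℚ ρ ∧ 1 < ρ ∧ ContDiff ℝ 2 Xs ∧
      (∀ s, Xs (s + 1) = Xs s) ∧ (∀ s, ‖Xs s - ξ‖ < δ) ∧
      (∀ s, Xs s * R.eval (Xs s) * G.eval (Xs s) =
        (aeval (circ ρ s) P / circ ρ s) * D.eval (Xs s)) ∧
      NZ (fun s => R.eval (Xs s)) ∧
      pr (circ ρ) Xs + pr (circ ρ) (fun s => R.eval (Xs s)) +
        pr (circ ρ) (fun s => G.eval (Xs s)) = pr (circ ρ) (fun s => D.eval (Xs s)) := by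
  have hc1 := one_le_cN P.natDegree
  set c : ℝ := cN P.natDegree with hc
  have hc0 : 0 < c := zero_lt_one.trans_le hc1
  have hG0 : ∀ x ∈ ball ξ (2 * δ), G.eval x ≠ 0 := by
    intro x hx h
    have h1 := hG x hx
    rw [h, norm_zero] at h1
    have : 0 < 40 * c / δ := by positivity
    linarith
  have hsub' : ball ξ δ ⊆ ball ξ (2 * δ) := ball_subset_ball (by linarith)
  have hcc : (c : ℂ) ≠ 0 := by exact_mod_cast hc0.ne'
  obtain ⟨xb, hxb⟩ := exists_branch3 (V := fun x => (c : ℂ) * (G.eval x)⁻¹) (W := fun x => -U x)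
    (ξ := ξ) hδ
    (fun x hx => ((differentiableAt_const _).mul
      ((G.differentiable x).inv (hG0 x hx))).differentiableWithinAt) hU.neg
    (by
      intro x hx
      have h1 := hG x hx
      rw [norm_mul, norm_inv, Complex.norm_real, Real.norm_eq_abs, abs_of_pos hc0]
      have h2 : 0 < 40 * c / δ := by positivity
      calc c * ‖G.eval x‖⁻¹ ≤ c * (40 * c / δ)⁻¹ :=
            mul_le_mul_of_nonneg_left (inv_anti₀ h2 h1) hc0.le
        _ = δ / 40 := by field_simp)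
    (by
      intro x hx
      rw [norm_neg]
      exact hUb x hx)
    (fun x hx => mul_ne_zero hcc (inv_ne_zero (hG0 x hx)))
  obtain ⟨ρ, hρ, hρη, hρt⟩ := exists_radius_tr (η := 1 / 6) (by norm_num)
  have hρ0 : 0 < ρ := one_pos.trans hρ
  have hρ2 : ρ < 3 / 2 := by
    by_contra hcon
    push Not at hcon
    have h1 : 2 + 1 / 6 ≤ ρ + ρ⁻¹ := by
      have h2 : ρ + ρ⁻¹ - (2 + 1 / 6) = (ρ - 3 / 2) * (ρ - 2 / 3) / ρ := by
        field_simp
        ring
      have h3 : 0 ≤ (ρ - 3 / 2) * (ρ - 2 / 3) / ρ := by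
        apply div_nonneg
        · apply mul_nonneg
          · linarith
          · linarith
        · exact hρ0.le
      linarith
    linarith
  have hz := nz_circ hρ0
  obtain ⟨nu, pru, hub⟩ := circP hP hρ hρ2
  set u : ℝ → ℂ := fun s => aeval (circ ρ s) P / circ ρ s with hu
  have hwb : ∀ s, u s / c ∈ ball (0 : ℂ) (9 / 2) := by
    intro s
    rw [mem_ball_zero_iff, norm_div, Complex.norm_real, Real.norm_eq_abs, abs_of_pos hc0]
    have h1 : ‖u s‖ / c ≤ 1 := (div_le_one hc0).2 (hub s)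
    linarith
  have hper : ∀ s, u (s + 1) = u s := fun s => by
    simp only [hu, circ_add_one]
  set Y : ℝ → ℂ := fun s => xb (u s / c) with hY
  have hucd : ContDiff ℝ 2 fun s => u s / c := by
    have e : (fun s => u s / c) = fun s => u s * (c : ℂ)⁻¹ := by
      funext s
      rw [div_eq_mul_inv]
    rw [e]
    exact nu.smooth.mul contDiff_const
  have hYcd : ContDiff ℝ 2 Y := by
    rw [contDiff_iff_contDiffAt]
    intro s
    exact (((hxb _ (hwb s)).1).contDiffAt.restrict_scalars ℝ).comp s hucd.contDiffAt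
  have hYper : ∀ s, Y (s + 1) = Y s := fun s => by
    simp only [hY, hper]
  have hYd : ∀ s, ‖Y s - ξ‖ < δ := fun s => (hxb _ (hwb s)).2.1
  have hYb : ∀ s, Y s ∈ ball ξ (2 * δ) := fun s => hsub' (mem_ball_iff_norm.2 (hYd s))
  have hYeq : ∀ s, (Y s - ξ + U (Y s)) * G.eval (Y s) = u s := fun s => by
    have h1 : Y s = ξ + -U (Y s) + u s / c * ((c : ℂ) * (G.eval (Y s))⁻¹) := (hxb _ (hwb s)).2.2
    have h2 := hG0 _ (hYb s)
    have h3 : Y s - ξ + U (Y s) = u s * (G.eval (Y s))⁻¹ := by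
      have h4 : u s / c * ((c : ℂ) * (G.eval (Y s))⁻¹) = u s * (G.eval (Y s))⁻¹ := by
        field_simp
      rw [h4] at h1
      linear_combination h1
    rw [h3, mul_assoc, inv_mul_cancel₀ h2, mul_one]
  have hYm : ∀ s, Y s * R.eval (Y s) * G.eval (Y s) = u s * D.eval (Y s) := by
    intro s
    rw [heq _ (hYb s), mul_assoc, hYeq]
    ring
  have hY0 : ∀ s, Y s ≠ 0 := fun s => h0 _ (hYb s)
  have nY : NZ Y := ⟨hYcd, hY0⟩
  obtain ⟨nD, -⟩ := pr_poly hρ hYcd hYper hYd (P := D) (fun x hx =>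
    hD x (hsub' (mem_ball_iff_norm.2 hx)))
  obtain ⟨nG, -⟩ := pr_poly hρ hYcd hYper hYd (P := G) (fun x hx =>
    hG0 x (hsub' (mem_ball_iff_norm.2 hx)))
  have hR0 : ∀ s, R.eval (Y s) ≠ 0 := by
    intro s h
    have h1 := hYm s
    rw [h, mul_zero, zero_mul] at h1
    exact mul_ne_zero (nu.ne_zero s) (hD _ (hYb s)) h1.symm
  have hRcd : ContDiff ℝ 2 fun s => R.eval (Y s) := by
    have e : (fun s => R.eval (Y s)) = fun s =>
        ∑ i ∈ Finset.range (R.natDegree + 1), R.coeff i * (Y s) ^ i := by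
      funext s
      rw [Polynomial.eval_eq_sum_range]
    rw [e]
    exact ContDiff.sum fun i _ => contDiff_const.mul (hYcd.pow i)
  have nR : NZ fun s => R.eval (Y s) := ⟨hRcd, hR0⟩
  refine ⟨ρ, Y, hρt, hρ, hYcd, hYper, hYd, hYm, nR, ?_⟩
  rw [← pr_mul hz nY nR, ← pr_mul hz (nY.mul nR) nG]
  have e : (fun s => Y s * R.eval (Y s) * G.eval (Y s)) = fun s => u s * D.eval (Y s) := by
    funext s
    exact hYm s
  rw [e, pr_mul hz nu nD, pru, zero_add]

/-- The estimates in a disc around the large zero of `R_i`. -/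
def DiscData5 {r : ℕ} (c p : ℝ) (D : ℤ[X]) (R : Fin r → ℤ[X]) (M : ℤ[X]) (i : Fin r) : Prop :=
  ∃ (ξ : ℂ) (δ : ℝ) (U : ℂ → ℂ), 0 < δ ∧ DifferentiableOn ℂ U (ball ξ (2 * δ)) ∧
    ∀ x ∈ ball ξ (2 * δ), ‖U x‖ ≤ δ / 40 ∧ 1 < ‖x‖ ∧ (cx D).eval x ≠ 0 ∧
      (∀ k, k ≠ i → (cx (R k)).eval x ≠ 0) ∧ (cx M).eval x ≠ 0 ∧
      40 * c / δ ≤ ‖(cx ((∏ k ∈ Finset.univ.erase i, R k) * M)).eval x‖ ∧
      x * (cx (R i)).eval x = (cx D).eval x * (x - ξ + U x) ∧
      (∀ k, k ≠ i → (p - 1 / 2) * Real.log ‖x‖ ≤ Real.log ‖(cx (R k)).eval x‖) ∧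
      Real.log ‖(cx D).eval x‖ ≤ (p + 1 / 4) * Real.log ‖x‖ + Real.log ‖(cx M).eval x‖

theorem loop5 {P : ℤ[X]} (hP : UnitRoots P) {r : ℕ} {p : ℝ} {D : ℤ[X]} {R : Fin r → ℤ[X]}
    {M : ℤ[X]} {i : Fin r} (H : DiscData5 (cN P.natDegree) p D R M i) (σ : ℚ →+* ℂ) :
    ∃ (ρ : ℝ) (Xs : ℝ → ℂ) (x a : ℝ) (b : Fin r → ℝ), Transcendental ℚ ρ ∧
      Lq5 σ P ((X * (∏ k, R k) * M).map (algebraMap ℤ ℚ)) (D.map (algebraMap ℤ ℚ)) ρ Xs ∧
      NZ Xs ∧ (∀ k, NZ fun s => (cx (R k)).eval (Xs s)) ∧ 0 < x ∧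
      (∀ k, k ≠ i → (p - 1 / 2) * x ≤ b k) ∧ a ≤ (p - 3 / 4) * x ∧
      pr (circ ρ) Xs = -(2 * π) * x ∧
      (∀ k, k ≠ i → pr (circ ρ) (fun s => (cx (R k)).eval (Xs s)) = -(2 * π) * b k) ∧
      pr (circ ρ) (fun s => (cx (R i)).eval (Xs s)) =
        -(2 * π) * (a - ∑ k ∈ Finset.univ.erase i, b k) := by
  classical
  obtain ⟨ξ, δ, U, hδ, hU, hx⟩ := H
  have hsub' : ball ξ δ ⊆ ball ξ (2 * δ) := ball_subset_ball (by linarith)
  obtain ⟨ρ, Y, hρt, hρ, hYcd, hYper, hYd, hYm, nR, hpr⟩ := exists_loop5 hP (D := cx D)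
    (R := cx (R i)) (G := cx ((∏ k ∈ Finset.univ.erase i, R k) * M)) hδ hU
    (fun x h => (hx x h).1) (fun x h => (hx x h).2.2.2.2.2.1) (fun x h => (hx x h).2.2.1)
    (fun x h h0 => by
      have := (hx x h).2.1
      rw [h0, norm_zero] at this
      linarith)
    (fun x h => (hx x h).2.2.2.2.2.2.1)
  have hYb : ∀ s, Y s ∈ ball ξ (2 * δ) := fun s => hsub' (mem_ball_iff_norm.2 (hYd s))
  have hY0 : ∀ s, Y s ≠ 0 := by
    intro s h0
    have := (hx _ (hYb s)).2.1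
    rw [h0, norm_zero] at this
    linarith
  have nY : NZ Y := ⟨hYcd, hY0⟩
  have hz := nz_circ (one_pos.trans hρ)
  obtain ⟨nX, prX⟩ := pr_poly hρ hYcd hYper hYd (P := X) (fun x h => by
    rw [eval_X]
    intro h0
    have := (hx x (hsub' (mem_ball_iff_norm.2 h))).2.1
    rw [h0, norm_zero] at this
    linarith)
  simp only [eval_X] at nX prX
  obtain ⟨nD, prD⟩ := pr_poly hρ hYcd hYper hYd (P := cx D) (fun x h =>
    (hx x (hsub' (mem_ball_iff_norm.2 h))).2.2.1)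
  obtain ⟨nM, prM⟩ := pr_poly hρ hYcd hYper hYd (P := cx M) (fun x h =>
    (hx x (hsub' (mem_ball_iff_norm.2 h))).2.2.2.2.1)
  have hRk := fun (k : Fin r) (hk : k ≠ i) => pr_poly hρ hYcd hYper hYd (P := cx (R k))
    (fun x h => (hx x (hsub' (mem_ball_iff_norm.2 h))).2.2.2.1 k hk)
  have nRk : ∀ k, NZ fun s => (cx (R k)).eval (Y s) := by
    intro k
    by_cases hk : k = i
    · rw [hk]
      exact nR
    · exact (hRk k hk).1
  set x : ℝ := ∫ s in (0 : ℝ)..1, Real.log ‖Y s‖ with hxdef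
  set d : ℝ := ∫ s in (0 : ℝ)..1, Real.log ‖(cx D).eval (Y s)‖ with hddef
  set l : ℝ := ∫ s in (0 : ℝ)..1, Real.log ‖(cx M).eval (Y s)‖ with hldef
  set b : Fin r → ℝ := fun k => ∫ s in (0 : ℝ)..1, Real.log ‖(cx (R k)).eval (Y s)‖ with hbdef
  have hlogpos : ∀ s, 0 < Real.log ‖Y s‖ := fun s => Real.log_pos (hx _ (hYb s)).2.1
  refine ⟨ρ, Y, x, d - x - l, b, hρt, ⟨hρ, hYcd, hYper, fun s => ?_, fun s => ?_⟩, nY, nRk, ?_,
    ?_, ?_, ?_, ?_, ?_⟩
  · rw [eval_cx]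
    exact (hx _ (hYb s)).2.2.1
  · rw [eval_cx, eval_cx, cx_mul, cx_mul, ← Finset.mul_prod_erase _ _ (Finset.mem_univ i), cx_mul]
    have h1 := hYm s
    rw [cx_mul, eval_mul] at h1
    simp only [eval_mul]
    have h2 : (cx X).eval (Y s) = Y s := by
      unfold cx
      rw [Polynomial.map_X, eval_X]
    rw [h2]
    have h3 := hz.ne_zero s
    have h4 : aeval (circ ρ s) P = (aeval (circ ρ s) P / circ ρ s) * circ ρ s :=
      (div_mul_cancel₀ _ h3).symm
    rw [h4]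
    linear_combination (-circ ρ s) * h1
  · rw [hxdef]
    exact intervalIntegral.intervalIntegral_pos_of_pos_on (cint nY) (fun s _ => hlogpos s)
      one_pos
  · intro k hk
    rw [hxdef, hbdef, ← intervalIntegral.integral_const_mul]
    refine intervalIntegral.integral_mono_on zero_le_one ((cint nY).const_mul _)
      (cint (nRk k)) fun s _ => ?_
    exact (hx _ (hYb s)).2.2.2.2.2.2.2.1 k hk
  · have h1 : d ≤ (p + 1 / 4) * x + l := by
      rw [hxdef, hddef, hldef, ← intervalIntegral.integral_const_mul,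
        ← intervalIntegral.integral_add ((cint nY).const_mul _) (cint nM)]
      refine intervalIntegral.integral_mono_on zero_le_one (cint nD)
        (((cint nY).const_mul _).add (cint nM)) fun s _ => ?_
      exact (hx _ (hYb s)).2.2.2.2.2.2.2.2
    linarith
  · rw [prX]
    ring
  · intro k hk
    rw [(hRk k hk).2]
    ring
  · have hG : pr (circ ρ) (fun s => (cx ((∏ k ∈ Finset.univ.erase i, R k) * M)).eval (Y s)) =
        -(2 * π) * ((∑ k ∈ Finset.univ.erase i, b k) + l) := by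
      have e : (fun s => (cx ((∏ k ∈ Finset.univ.erase i, R k) * M)).eval (Y s)) =
          fun s => (∏ k ∈ Finset.univ.erase i, (cx (R k)).eval (Y s)) * (cx M).eval (Y s) := by
        funext s
        rw [cx_mul, cx_prod, eval_mul, eval_prod]
      rw [e, pr_mul hz (NZ.prod _ nRk) nM, pr_prod _ hz nRk, prM]
      have h1 : ∑ k ∈ Finset.univ.erase i, pr (circ ρ) (fun s => (cx (R k)).eval (Y s)) =
          ∑ k ∈ Finset.univ.erase i, -(2 * π * b k) :=
        Finset.sum_congr rfl fun k hk => (hRk k (Finset.ne_of_mem_erase hk)).2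
      rw [h1, Finset.sum_neg_distrib, ← Finset.mul_sum]
      ring
    rw [hG, prX, prD] at hpr
    linear_combination hpr

/-- Injectivity of the regulators. -/
theorem mat5 {P : ℤ[X]} (hP : UnitRoots P) {r : ℕ} {p : ℝ} (hp : 1 ≤ p) {D : ℤ[X]}
    {R : Fin r → ℤ[X]} {M : ℤ[X]} (H : ∀ i, DiscData5 (cN P.natDegree) p D R M i)
    {j : Fin r → ℕ} (hj : ∀ k, p ≤ j k) (σ : ℚ →+* ℂ) :
    ∃ (ρ : Fin r → ℝ) (Xs : Fin r → ℝ → ℂ), (∀ i, Transcendental ℚ (ρ i)) ∧
      (∀ i, Lq5 σ P ((X * (∏ k, R k) * M).map (algebraMap ℤ ℚ)) (D.map (algebraMap ℤ ℚ))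
        (ρ i) (Xs i)) ∧ (∀ i, NZ (Xs i)) ∧ (∀ i k, NZ fun s => (cx (R k)).eval (Xs i s)) ∧
      ∀ c : Fin r → ℝ, (∀ i, ∑ k, c k * (pr (circ (ρ i)) (fun s => (cx (R k)).eval (Xs i s)) -
        j k * pr (circ (ρ i)) (Xs i)) = 0) → ∀ k, c k = 0 := by
  classical
  choose ρ Xs x a b h1 h2 h3 h4 h5 h6 h7 h8 h9 h10 using fun i => loop5 hP (H i) σ
  refine ⟨ρ, Xs, h1, h2, h3, h4, fun c hc => ?_⟩
  refine lin3 (J' := fun k => (j k : ℝ)) hp h5 (b := b) (a := a) h6 h7 hj fun i => ?_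
  have h11 := hc i
  rw [← Finset.add_sum_erase _ _ (Finset.mem_univ i), h10, h8] at h11
  have h12 : ∑ k ∈ Finset.univ.erase i, c k * (pr (circ (ρ i))
      (fun s => (cx (R k)).eval (Xs i s)) - j k * (-(2 * π) * x i)) =
      ∑ k ∈ Finset.univ.erase i, c k * (-(2 * π) * b i k - j k * (-(2 * π) * x i)) :=
    Finset.sum_congr rfl fun k hk => by rw [h9 i k (Finset.ne_of_mem_erase hk)]
  rw [h12] at h11
  have h13 : ∑ k ∈ Finset.univ.erase i, c k * (-(2 * π) * b i k - j k * (-(2 * π) * x i)) =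
      (-(2 * π)) * ((∑ k ∈ Finset.univ.erase i, b i k * c k) -
        (∑ k ∈ Finset.univ.erase i, j k * c k) * x i) := by
    rw [mul_sub, Finset.mul_sum, Finset.sum_mul, Finset.mul_sum, ← Finset.sum_sub_distrib]
    refine Finset.sum_congr rfl fun k _ => ?_
    ring
  rw [h13] at h11
  have h14 : ∑ k, (j k : ℝ) * c k = j i * c i + ∑ k ∈ Finset.univ.erase i, (j k : ℝ) * c k :=
    (Finset.add_sum_erase _ _ (Finset.mem_univ i)).symm
  have h15 : ∑ k ∈ Finset.univ.erase i, b i k * (c i - c k) =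
      (∑ k ∈ Finset.univ.erase i, b i k) * c i - ∑ k ∈ Finset.univ.erase i, b i k * c k := by
    rw [Finset.sum_mul, ← Finset.sum_sub_distrib]
    refine Finset.sum_congr rfl fun k _ => ?_
    ring
  rw [h14, h15]
  have hπ : (2 * π) ≠ 0 := by
    have := Real.pi_pos
    positivity
  have h16 : (2 * π) * ((∑ k ∈ Finset.univ.erase i, b i k) * c i -
      (∑ k ∈ Finset.univ.erase i, b i k * c k) - (a i * c i - (j i * c i +
        ∑ k ∈ Finset.univ.erase i, (j k : ℝ) * c k) * x i)) = 0 := by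
    linear_combination h11
  have h17 := (mul_eq_zero.1 h16).resolve_left hπ
  linear_combination h17

end Pool.Agent.H442
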