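import Pool.Agent.H442.Pr6
import Pool.Agent.H442.Cub6
set_option autoImplicit false

/-!
The loops around the zeros of the functions `(1 - ζ y)^3 / (1 - y^3)`.
-/

namespace Pool.Agent.H442

open Polynomial Metric Set Filter Topology MeasureTheory

open Pool.Agent.TH826.MK (circ norm_circ contDiff_circ circ_add_one wd)

open Pool.Agent.TH826.UH

open scoped Real

/-- the function `z` -/
noncomputable def zy (ζ y : ℂ) : ℂ := (1 - ζ * y) ^ 3 / (1 - y ^ 3)

/-- the function `q` -/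
noncomputable def ry (c y : ℂ) : ℂ := c * y ^ 3 / (1 - y ^ 3)

/-- The loops in the `y`-plane with all constants of the estimates. -/
structure YL (c : ℂ) (ζ : Fin 2 → ℂ) (y : Fin 2 → ℝ → ℂ) (B W E : ℝ) : Prop where
  smooth : ∀ a, ContDiff ℝ 2 (y a)
  per : ∀ a s, y a (s + 1) = y a s
  tr : ∀ a s, y a s ∉ EE
  ne : ∀ a s, 1 - y a s ^ 3 ≠ 0
  nr : ∀ a, NZ fun s => ry c (y a s)
  nz : ∀ b a, NZ fun s => zy (ζ b) (y a s)
  wi : ∀ b a, wI (fun s => zy (ζ b) (y a s)) = 2 * π * (if b = a then 2 else -1)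
  hB : 1 ≤ B
  hW : 0 ≤ W
  hE : 0 ≤ E
  rb : ∀ a s, ‖ry c (y a s)‖ ≤ B
  rd : ∀ a, ∀ s ∈ Icc (0 : ℝ) 1, ‖deriv (fun s => ry c (y a s)) s‖ ≤ B * W
  zb : ∀ b a, ∀ s ∈ Icc (0 : ℝ) 1, |Real.log ‖zy (ζ b) (y a s)‖| +
    ‖deriv (fun s => zy (ζ b) (y a s)) s / zy (ζ b) (y a s)‖ ≤ E
  pb : ∀ b a, |pr (fun s => zy (ζ b) (y a s)) (fun s => ry c (y a s))| ≤ E

theorem exists_ub {ι : Type*} [Fintype ι] {P : ι → ℝ → Prop}
    (hm : ∀ i x y, x ≤ y → P i x → P i y) (h : ∀ i, ∃ x, P i x) :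
    ∃ x : ℝ, 1 ≤ x ∧ ∀ i, P i x := by
  choose f hf using h
  refine ⟨1 + ∑ i, |f i|, ?_, fun i => hm i _ _ ?_ (hf i)⟩
  · have : 0 ≤ ∑ i, |f i| := Finset.sum_nonneg fun i _ => abs_nonneg _
    linarith
  · have h1 : |f i| ≤ ∑ i, |f i| :=
      Finset.single_le_sum (f := fun i => |f i|) (fun i _ => abs_nonneg _) (Finset.mem_univ i)
    have h2 := le_abs_self (f i)
    linarith

theorem bdd_per {f : ℝ → ℝ} (hf : Continuous f) (hp : ∀ s, f (s + 1) = f s) :
    ∃ C, ∀ s, f s ≤ C := by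
  obtain ⟨C, hC⟩ := (isCompact_Icc (a := (0 : ℝ)) (b := 1)).bddAbove_image hf.continuousOn
  refine ⟨C, fun s => ?_⟩
  obtain ⟨t, ht, hst⟩ := Function.Periodic.exists_mem_Ico₀ (f := f) hp one_pos s
  rw [hst]
  exact hC ⟨t, ⟨ht.1, ht.2.le⟩, rfl⟩

/-- the cube roots of unity -/
noncomputable def Ev (w : ℂ) : Fin 3 → ℂ := ![1, w ^ 2, w]

section roots

variable {w : ℂ} (hw : w ^ 2 + w + 1 = 0)

include hw

theorem w_cube : w ^ 3 = 1 := by linear_combination (w - 1) * hw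

theorem norm_w : ‖w‖ = 1 := by
  have h1 := congrArg norm (w_cube hw)
  rw [norm_pow, norm_one] at h1
  exact (pow_eq_one_iff_of_nonneg (norm_nonneg _) (by norm_num)).1 h1

theorem norm_Ev (c : Fin 3) : ‖Ev w c‖ = 1 := by
  have h := norm_w hw
  match c with
  | 0 => simp [Ev]
  | 1 => simp [Ev, h]
  | 2 => simp [Ev, h]

theorem Ev_mem (c : Fin 3) : Ev w c ∈ EE := by
  have h : w ∈ EE := quad_mem_EE (b := -1) (neg_mem (one_mem _)) (by linear_combination hw)
  match c with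
  | 0 => exact one_mem _
  | 1 => exact pow_mem h 2
  | 2 => exact h

theorem prod_Ev (y : ℂ) : ∏ c, (y - Ev w c) = y ^ 3 - 1 := by
  rw [Fin.prod_univ_three]
  simp only [Ev, Matrix.cons_val_zero, Matrix.cons_val_one, Matrix.cons_val]
  linear_combination (y - 1) * (w - 1 - y) * hw

theorem dist_Ev {a c : Fin 3} (h : a ≠ c) : 1 < ‖Ev w a - Ev w c‖ := by
  have h3 := w_cube hw
  have hn := norm_w hw
  have key : ∃ t : ℂ, ‖t‖ = 1 ∧ (Ev w a - Ev w c) ^ 2 = -3 * t := by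
    fin_cases a <;> fin_cases c <;> simp only [Ev, Fin.zero_eta, Fin.mk_one, Fin.reduceFinMk,
      Matrix.cons_val_zero, Matrix.cons_val_one, Matrix.cons_val]
    · exact absurd rfl h
    · exact ⟨w ^ 2, by rw [norm_pow, hn, one_pow], by linear_combination w * h3 + hw⟩
    · exact ⟨w, hn, by linear_combination hw⟩
    · exact ⟨w ^ 2, by rw [norm_pow, hn, one_pow], by linear_combination w * h3 + hw⟩
    · exact absurd rfl h
    · exact ⟨1, norm_one, by linear_combination (w - 2) * h3 + hw⟩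
    · exact ⟨w, hn, by linear_combination hw⟩
    · exact ⟨1, norm_one, by linear_combination (w - 2) * h3 + hw⟩
    · exact absurd rfl h
  obtain ⟨t, ht, h1⟩ := key
  have h2 := congrArg norm h1
  rw [norm_pow, norm_mul, norm_neg, ht, mul_one, Complex.norm_ofNat] at h2
  by_contra hcon
  push Not at hcon
  have h4 := norm_nonneg (Ev w a - Ev w c)
  nlinarith

theorem zy_eq (b : Fin 2) (y : ℂ) : zy ((![1, w] : Fin 2 → ℂ) b) y =
    (∏ _i : Fin 3, (y - Ev w b.castSucc)) / ∏ c, (y - Ev w c) := by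
  rw [prod_Ev hw, Finset.prod_const, Finset.card_univ, Fintype.card_fin]
  have h3 := w_cube hw
  have h1 : (1 - (![1, w] : Fin 2 → ℂ) b * y) ^ 3 = -(y - Ev w b.castSucc) ^ 3 := by
    match b with
    | 0 =>
      have e : Ev w (Fin.castSucc 0) = 1 := rfl
      rw [e]
      simp only [Matrix.cons_val_zero]
      ring
    | 1 =>
      have e : Ev w (Fin.castSucc 1) = w ^ 2 := rfl
      have e' : (![1, w] : Fin 2 → ℂ) 1 = w := rfl
      rw [e, e']
      linear_combination (-(w ^ 3 + 1) + 3 * w * y - y ^ 3) * h3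
  unfold zy
  rw [h1, ← neg_div_neg_eq, neg_neg, neg_sub]

end roots

theorem exists_eps : ∃ ε : ℝ, 0 < ε ∧ ε < 1 / 2 ∧ Transcendental ℚ ε := by
  have hd : Dense {x : ℝ | IsAlgebraic ℚ x}ᶜ := (Algebraic.countable ℚ ℝ).dense_compl ℝ
  obtain ⟨R, hR, h3, h4⟩ := hd.exists_between (show (0 : ℝ) < 1 / 2 by norm_num)
  exact ⟨R, h3, h4, hR⟩

/-- Existence of the loops. -/
theorem exists_YL {c w : ℂ} (hc : c ≠ 0) (hw : w ^ 2 + w + 1 = 0) :
    ∃ (y : Fin 2 → ℝ → ℂ) (B W E : ℝ), YL c ![1, w] y B W E := by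
  classical
  obtain ⟨ε, hε, hε2, hεt⟩ := exists_eps
  set y : Fin 2 → ℝ → ℂ := fun a s => Ev w a.castSucc + circ ε s with hy
  have hsm : ∀ a, ContDiff ℝ 2 (y a) := fun a => contDiff_const.add (contDiff_circ ε)
  have hper : ∀ a s, y a (s + 1) = y a s := fun a s => by
    simp only [hy, circ_add_one]
  have hne : ∀ (a : Fin 2) (c : Fin 3), ‖Ev w c - Ev w a.castSucc‖ ≠ ε := by
    intro a c h
    by_cases hca : c = a.castSucc
    · rw [hca, sub_self, norm_zero] at h
      exact hε.ne h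
    · have := dist_Ev hw hca
      linarith
  have e1 : ∀ (a : Fin 2) (c : Fin 3), (fun s => y a s - Ev w c) =
      fun s => circ ε s - (Ev w c - Ev w a.castSucc) := by
    intro a c
    funext s
    simp only [hy]
    ring
  have n1 : ∀ (a : Fin 2) (c : Fin 3), NZ fun s => y a s - Ev w c := by
    intro a c
    rw [e1]
    exact nz_circ_sub hε (hne a c)
  have w1 : ∀ (a : Fin 2) (c : Fin 3), wI (fun s => y a s - Ev w c) =
      2 * π * (if c = a.castSucc then 1 else 0) := by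
    intro a c
    rw [e1, wI_circ_sub hε (hne a c)]
    congr 1
    unfold wd
    by_cases hca : c = a.castSucc
    · rw [if_pos hca, hca, sub_self, norm_zero, if_pos hε]
    · rw [if_neg hca, if_neg]
      have := dist_Ev hw hca
      linarith
  have htr : ∀ a s, y a s ∉ EE := by
    intro a s h
    have h1 : circ ε s ∈ EE := by
      have h2 := sub_mem h (Ev_mem hw a.castSucc)
      have e : y a s - Ev w a.castSucc = circ ε s := by
        simp only [hy]
        ring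
      rwa [e] at h2
    exact not_mem_EE.2 (transcendental_of_norm hεt (norm_circ hε.le s)) h1
  have hy3 : ∀ a s, 1 - y a s ^ 3 ≠ 0 := by
    intro a s h
    have h1 := prod_Ev hw (y a s)
    have h2 : y a s ^ 3 - 1 = 0 := by linear_combination -h
    rw [h2, Finset.prod_eq_zero_iff] at h1
    obtain ⟨c, -, hc⟩ := h1
    exact (n1 a c).ne_zero s hc
  have hy0 : ∀ a s, y a s ≠ 0 := by
    intro a s h
    exact htr a s (by rw [h]; exact zero_mem _)
  have nr : ∀ a, NZ fun s => ry c (y a s) := by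
    intro a
    have h1 : NZ fun s => c * y a s ^ 3 :=
      ⟨contDiff_const.mul ((hsm a).pow 3), fun s => mul_ne_zero hc (pow_ne_zero _ (hy0 a s))⟩
    exact h1.div ⟨contDiff_const.sub ((hsm a).pow 3), hy3 a⟩
  have e2 : ∀ (b a : Fin 2), (fun s => zy ((![1, w] : Fin 2 → ℂ) b) (y a s)) =
      fun s => (∏ _i : Fin 3, (y a s - Ev w b.castSucc)) / ∏ c, (y a s - Ev w c) := by
    intro b a
    funext s
    exact zy_eq hw b _
  have nz : ∀ (b a : Fin 2), NZ fun s => zy ((![1, w] : Fin 2 → ℂ) b) (y a s) := by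
    intro b a
    rw [e2]
    exact (NZ.prod _ fun _ => n1 a b.castSucc).div (NZ.prod _ fun c => n1 a c)
  have wi : ∀ (b a : Fin 2), wI (fun s => zy ((![1, w] : Fin 2 → ℂ) b) (y a s)) =
      2 * π * (if b = a then 2 else -1) := by
    intro b a
    rw [e2, wI_div (NZ.prod _ fun _ => n1 a b.castSucc) (NZ.prod _ fun c => n1 a c),
      wI_prod _ (H := fun (_ : Fin 3) s => y a s - Ev w b.castSucc) (fun _ => n1 a b.castSucc),
      wI_prod _ (H := fun c s => y a s - Ev w c) (fun c => n1 a c)]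
    simp only [w1]
    rw [← Finset.mul_sum, ← Finset.mul_sum, ← mul_sub, Finset.sum_const, Finset.card_univ,
      Fintype.card_fin, Finset.sum_ite_eq' Finset.univ a.castSucc, if_pos (Finset.mem_univ _)]
    congr 1
    by_cases hba : b = a
    · rw [if_pos hba, if_pos (by rw [hba])]
      norm_num
    · rw [if_neg hba, if_neg (fun h => hba (Fin.castSucc_injective _ h))]
      norm_num
  obtain ⟨B, hB1, hB⟩ := exists_ub (ι := Fin 2) (P := fun a x => ∀ s, ‖ry c (y a s)‖ ≤ x)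
    (fun a x x' hx h s => (h s).trans hx) (fun a => bdd_per (nr a).smooth.continuous.norm
      fun s => by rw [hper])
  obtain ⟨W, hW1, hW⟩ := exists_ub (ι := Fin 2)
    (P := fun a x => ∀ s ∈ Icc (0 : ℝ) 1, ‖deriv (fun s => ry c (y a s)) s‖ ≤ x)
    (fun a x x' hx h s hs => (h s hs).trans hx) (fun a => by
      obtain ⟨C, hC⟩ := (isCompact_Icc (a := (0 : ℝ)) (b := 1)).bddAbove_image
        (((nr a).smooth.continuous_deriv (by norm_num)).norm.continuousOn)
      exact ⟨C, fun s hs => hC ⟨s, hs, rfl⟩⟩)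
  obtain ⟨E, hE1, hE⟩ := exists_ub (ι := Fin 2 × Fin 2)
    (P := fun k x => (∀ s ∈ Icc (0 : ℝ) 1, |Real.log ‖zy ((![1, w] : Fin 2 → ℂ) k.1) (y k.2 s)‖| +
      ‖deriv (fun s => zy ((![1, w] : Fin 2 → ℂ) k.1) (y k.2 s)) s /
        zy ((![1, w] : Fin 2 → ℂ) k.1) (y k.2 s)‖ ≤ x) ∧
      |pr (fun s => zy ((![1, w] : Fin 2 → ℂ) k.1) (y k.2 s)) (fun s => ry c (y k.2 s))| ≤ x)
    (fun a x x' hx h => ⟨fun s hs => (h.1 s hs).trans hx, h.2.trans hx⟩) (fun k => by
      obtain ⟨E, -, hE⟩ := exists_E (nz k.1 k.2)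
      refine ⟨max E |pr (fun s => zy ((![1, w] : Fin 2 → ℂ) k.1) (y k.2 s))
        (fun s => ry c (y k.2 s))|, fun s hs => (hE s hs).trans (le_max_left _ _),
        le_max_right _ _⟩)
  refine ⟨y, B, W, E, hsm, hper, htr, hy3, nr, nz, wi, hB1, zero_le_one.trans hW1,
    zero_le_one.trans hE1, hB, fun a s hs => (hW a s hs).trans ?_, fun b a => (hE (b, a)).1,
    fun b a => (hE (b, a)).2⟩
  have h1 : 0 ≤ W := zero_le_one.trans hW1
  calc W = 1 * W := (one_mul W).symm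
    _ ≤ B * W := mul_le_mul_of_nonneg_right hB1 h1

end Pool.Agent.H442
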