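import Pool.Agent.H442.Core
set_option autoImplicit false

/-!
Independence of the regulators of the classes `{z, ∏ (X - α_i)^{n_i}}`.
-/

namespace Pool.Agent.H442

open Polynomial

open scoped WithZero Real

open Pool.Agent.TH826.MK (Torus KQ symb pairing circ norm_circ contDiff_circ circ_add_one
  Unramified unitPart)

open Pool.Agent.TH826.UH

open Pool.Agent.Helper537_Sym (sy)

/-- The relation `∏ α_i^{n_i} = root of unity`. -/
def Rel {K : Type*} [Field K] {k : ℕ} (α : Fin k → K) (n : Fin k → ℤ) : Prop :=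
  ∃ M : ℕ, M ≠ 0 ∧ (∏ i, α i ^ n i) ^ M = 1

theorem Rel.log {K : Type*} [Field K] {k : ℕ} {α : Fin k → K} {n : Fin k → ℤ} (h : Rel α n)
    (hα0 : ∀ i, α i ≠ 0) (σ : K →+* ℂ) : ∑ i, Real.log ‖σ (α i)‖ * (n i : ℝ) = 0 := by
  obtain ⟨M, hM, h1⟩ := h
  have h2 := congrArg (fun x => Real.log ‖σ x‖) h1
  simp only [map_pow, map_prod, map_zpow₀, map_one, norm_pow, norm_prod, norm_zpow, norm_one,
    Real.log_one, Real.log_pow] at h2
  rw [Real.log_prod] at h2
  · rcases mul_eq_zero.1 h2 with h3 | h3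
    · exact absurd (Nat.cast_eq_zero.1 h3) hM
    · rw [← h3]
      refine Finset.sum_congr rfl fun i _ => ?_
      rw [Real.log_zpow]
      ring
  · intro i _
    exact zpow_ne_zero _ (norm_ne_zero_iff.2 ((map_ne_zero σ).2 (hα0 i)))

theorem log_big {k : ℕ} {x : ℝ} (h : (2 : ℝ) ^ (8 * k ^ 2) < x) :
    4 * Real.log 4 * (k : ℝ) ^ 2 < Real.log x := by
  have h1 := Real.log_lt_log (by positivity) h
  rw [Real.log_pow] at h1
  have h2 : Real.log 4 = 2 * Real.log 2 := by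
    rw [show (4 : ℝ) = 2 ^ 2 by norm_num, Real.log_pow]
    push_cast
    ring
  rw [h2]
  push_cast at h1
  linarith

/-- It is sufficient to know the vanishing for all loops but the first one. -/
theorem Lp.inj' {g : ℕ} {α : Fin (g + 1) → ℂ} {t : ℤ} {R : ℝ} {X : Fin (g + 1) → ℝ → ℂ}
    (H : Lp α t R X) (h1 : ∀ i, 1 ≤ ‖α i‖) {m : Fin (g + 1)}
    (hm : 4 * Real.log 4 * ((g + 1 : ℕ) : ℝ) ^ 2 < Real.log ‖α m‖)
    {c : Fin (g + 1) → ℝ} (hc : ∑ i, Real.log ‖α i‖ * c i = 0)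
    (h : ∀ j : Fin g, ∑ i, c i * pr (circ R) (fun s => X j.succ s - α i) = 0) :
    ∀ i, c i = 0 := by
  refine H.inj h1 hm hc fun j => ?_
  refine Fin.cases ?_ h j
  have h2 : ∑ j, ∑ i, c i * pr (circ R) (fun s => X j s - α i) = 0 := by
    rw [Finset.sum_comm]
    simp only [← Finset.mul_sum, H.row]
    have : ∑ i, c i * -(2 * π * Real.log ‖α i‖) = -(2 * π) * ∑ i, Real.log ‖α i‖ * c i := by
      rw [Finset.mul_sum]
      exact Finset.sum_congr rfl fun i _ => by ring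
    rw [this, hc, mul_zero]
  rw [Fin.sum_univ_succ] at h2
  simp only [h, Finset.sum_const_zero, add_zero] at h2
  exact h2

/-- The general theorem. -/
theorem main {K : Type*} [Field K] [Algebra ℚ K] [Algebra.IsAlgebraic ℚ K] (σ : K →+* ℂ)
    {g : ℕ} (hg : 1 ≤ g) {α : Fin (g + 1) → K} (hα : ∀ i, IsIntegral ℤ (α i))
    (h1 : ∀ i, 1 ≤ ‖σ (α i)‖)
    (h2 : ∀ i j, i ≠ j → max ‖σ (α i)‖ ‖σ (α j)‖ ≤ 2 * ‖σ (α i) - σ (α j)‖)
    {i₀ : Fin (g + 1)} (hbig : (2 : ℝ) ^ (8 * (g + 1) ^ 2) < ‖σ (α i₀)‖) {t : ℤ} (ht : |t| ≤ 2)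
    {m : Fin 4 → K} (hm : m 0 * m 3 - m 1 * m 2 ≠ 0) (hd : 0 < (fam t α m).natDegree)
    (L : Type*) [Field L] [Algebra (HRing (fam t α m)) L]
    [IsFractionRing (HRing (fam t α m)) L] :
    ∃ (z : Lˣ) (w : Fin (g + 1) → Lˣ) (Γ : Fin (g + 1) → Torus L 1),
      (∀ n : Fin (g + 1) → ℤ, Rel α n → sy z (∏ i, w i ^ n i) ∈ Unramified L 2) ∧
      ∀ (r : ℕ) (ν : Fin r → Fin (g + 1) → ℤ), (∀ j, Rel α (ν j)) →
        (∀ c : Fin r → ℝ, (∀ i, ∑ j, c j * (ν j i : ℝ) = 0) → ∀ j, c j = 0) →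
        ∀ c : Fin r → ℝ, (∀ l : Fin g, ∑ j, c j * (Γ l.succ).reg
          (sy z (∏ i, w i ^ ν j i)) = 0) → ∀ j, c j = 0 := by
  have hα0 : ∀ i, α i ≠ 0 := by
    intro i h0
    have := h1 i
    rw [h0, map_zero, norm_zero] at this
    linarith
  have : CharZero K := charZero_of_injective_algebraMap (algebraMap ℚ K).injective
  have hSp : Sp fun i => σ (α i) := Sp.mk' (by omega) h1 h2 hbig.le
  obtain ⟨R, Xs, hR, hL⟩ := hSp.exists_Lp ht
  have hf := sqf_fam σ hSp ht hm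
  obtain ⟨Γ, hΓ⟩ := hL.exists_tori hR hm (by omega) hf hd L
  refine ⟨Units.mk0 _ (fz_ne_zero (L := L) (t := t) (α := α) hm (by omega)),
    fun i => Units.mk0 _ (fX_sub_ne_zero (L := L) (t := t) (α := α) hm i), Γ,
    fun n hn => ?_, fun r ν hν hind c hc => ?_⟩
  · obtain ⟨M, hM, hn⟩ := hn
    exact cls_unramified hm ht (by omega) hα hα0 n hM hn
  · have hreg : ∀ (l : Fin (g + 1)) (n : Fin (g + 1) → ℤ), (Γ l).reg
        (sy (Units.mk0 _ (fz_ne_zero (L := L) (t := t) (α := α) hm (by omega)))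
          (∏ i, (Units.mk0 _ (fX_sub_ne_zero (L := L) (t := t) (α := α) hm i)) ^ n i)) =
        ∑ i, (n i : ℝ) * pr (circ R) (fun s => Xs l s - σ (α i)) := by
      intro l n
      refine reg_sy (Γ l) _ _ n (fun θ => (hΓ l θ).2.1) (fun i θ => ?_)
        (nz_circ (one_pos.trans hL.R1)) (fun i =>
          ⟨(hL.smooth l).sub contDiff_const, fun s => sub_ne_zero.2 (hL.ne i l s)⟩)
      rw [Units.val_mk0, map_sub, (hΓ l θ).1, (hΓ l θ).2.2 i]
    simp only [hreg] at hc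
    have h3 := hL.inj' h1 (m := i₀) (log_big hbig)
      (c := fun i => ∑ j, c j * (ν j i : ℝ)) ?_ ?_
    · exact hind c h3
    · simp only [Finset.mul_sum]
      rw [Finset.sum_comm]
      refine Finset.sum_eq_zero fun j _ => ?_
      have h4 := (hν j).log hα0 σ
      have : ∑ i, Real.log ‖σ (α i)‖ * (c j * (ν j i : ℝ)) =
          c j * ∑ i, Real.log ‖σ (α i)‖ * (ν j i : ℝ) := by
        rw [Finset.mul_sum]
        exact Finset.sum_congr rfl fun i _ => by ring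
      rw [this, h4, mul_zero]
    · intro l
      rw [← hc l]
      simp only [Finset.sum_mul, Finset.mul_sum]
      rw [Finset.sum_comm]
      refine Finset.sum_congr rfl fun j _ => Finset.sum_congr rfl fun i _ => ?_
      ring

end Pool.Agent.H442
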