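import Pool.Agent.H442.Spec6
set_option autoImplicit false

/-!
The classes on the curves `A(x) y^3 = B(x)` over number fields and the determinants of their
regulators at all embeddings.
-/

namespace Pool.Agent.H442

open Polynomial Metric Set Filter Topology

open Pool.Agent.TH826.MK (Torus KQ Unramified circ norm_circ contDiff_circ circ_add_one)

open Pool.Agent.TH826.UH

open Pool.Agent.Helper537_Sym (sy)

open scoped Real

/-- The loops with independent regulators. -/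
structure LP {r : ℕ} (c : ℂ) (ζ : Fin 2 → ℂ) (D : ℤ[X]) (R : Fin r → ℤ[X]) (M : ℤ[X])
    (j : Fin r → ℕ) (y : Fin 2 → ℝ → ℂ) (Xs : Fin 2 → Fin r → ℝ → ℂ) : Prop where
  ysm : ∀ a, ContDiff ℝ 2 (y a)
  yper : ∀ a s, y a (s + 1) = y a s
  ytr : ∀ a s, y a s ∉ EE
  yne : ∀ a s, 1 - y a s ^ 3 ≠ 0
  nz : ∀ b a, NZ fun s => zy (ζ b) (y a s)
  xsm : ∀ α i, ContDiff ℝ 2 (Xs α i)
  xper : ∀ α i s, Xs α i (s + 1) = Xs α i s
  Dne : ∀ α i s, (cx D).eval (Xs α i s) ≠ 0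
  eq : ∀ α i s, (cx (X * (∏ k, R k) * M)).eval (Xs α i s) =
        ry c (y α s) * (cx D).eval (Xs α i s)
  nX : ∀ α i, NZ (Xs α i)
  nR : ∀ α i k, NZ fun s => (cx (R k)).eval (Xs α i s)
  inj : ∀ C : Fin 2 → Fin r → ℝ, (∀ α i, ∑ β, ∑ k, C β k * (pr (fun s => zy (ζ β) (y α s))
        (fun s => (cx (R k)).eval (Xs α i s)) - j k * pr (fun s => zy (ζ β) (y α s)) (Xs α i)) =
          0) → ∀ β k, C β k = 0

theorem exists_LP {c w : ℂ} (hc : c ≠ 0) (hw : w ^ 2 + w + 1 = 0) {p : ℕ} (hp : 1 ≤ p)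
    {β : Fin p → ℕ} (h : Function.Injective β) (h2 : ∀ l, 2 ≤ β l) {M : ℤ[X]} (hM : M.Monic)
    {r : ℕ} (hr : 0 < r) : ∃ J : ℕ, ∀ j : Fin r → ℕ, Function.Injective j → (∀ k, J ≤ j k) →
      ∃ y Xs, LP c ![1, w] (Dz β) (fun k => Rz β (j k)) M j y Xs := by
  obtain ⟨y, B, W, E, hY⟩ := exists_YL hc hw
  obtain ⟨K, hK⟩ : ∃ K : ℝ, K = E * (1 + W * (1 + p + (∑ _k : Fin r, (p : ℝ)) + M.natDegree)) :=
    ⟨_, rfl⟩
  have hK0 : 0 ≤ K := by
    rw [hK]
    have := hY.hE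
    have := hY.hW
    have : (0 : ℝ) ≤ ∑ _k : Fin r, (p : ℝ) := Finset.sum_nonneg fun k _ => Nat.cast_nonneg _
    positivity
  obtain ⟨T₀, hT⟩ : ∃ T₀ : ℝ, T₀ = (r + 1) * K * (8 * (1 + 2 * p)) / Real.pi + 1 := ⟨_, rfl⟩
  have hπ := Real.pi_pos
  have hT0 : 0 < T₀ := by
    rw [hT]
    positivity
  have hT1 : (r + 1) * K * (8 * (1 + 2 * (p : ℝ))) ≤ Real.pi * T₀ := by
    rw [hT, mul_add Real.pi, mul_div_cancel₀ _ hπ.ne']
    linarith
  obtain ⟨J, hJ⟩ := discData6 T₀ hY.hB hp h h2 hM r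
  refine ⟨max J p, fun j hj hjJ => ?_⟩
  have h3 := hJ j hj fun k => (le_max_left _ _).trans (hjJ k)
  have h4 : ∀ k, (p : ℝ) ≤ j k := fun k => by
    exact_mod_cast (le_max_right _ _).trans (hjJ k)
  obtain ⟨Xs, m1, m2, m3, m4, m5, m6, m7⟩ := mat6 hY hr (by exact_mod_cast hp) hT0 hT1
    (by
      rw [hK]
      simp only [Dz_natDegree, Rz_natDegree]
      exact le_rfl) h3 h4
  exact ⟨y, Xs, hY.smooth, hY.per, hY.tr, hY.ne, hY.nz, m1, m2, m3, m4, m5, m6, m7⟩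

variable {K : Type*} [Field K]

theorem eval_cxK (σ : K →+* ℂ) (P : ℤ[X]) (x : ℂ) :
    (P.map (algebraMap ℤ K)).eval₂ σ x = (cx P).eval x := by
  unfold cx
  rw [eval₂_map, eval_map]
  exact congrArg (fun φ => eval₂ φ x P) (Subsingleton.elim _ _)

theorem cube_mem_EE {y : ℂ} (h : y ^ 3 ∈ EE) : y ∈ EE := by
  have h5 : IsIntegral EE y := by
    refine ⟨X ^ 3 - C (⟨y ^ 3, h⟩ : EE), monic_X_pow_sub_C _ (by norm_num), ?_⟩
    rw [eval₂_sub, eval₂_pow, eval₂_X, eval₂_C]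
    exact sub_self _
  rw [mem_algebraicClosure_iff]
  have : Algebra.IsAlgebraic ℚ EE := algebraicClosure.isAlgebraic ℚ ℂ
  exact h5.isAlgebraic.restrictScalars ℚ

/-- The determinant of the regulators at the embedding `σ`. -/
theorem det6 [Algebra ℚ K] [Algebra.IsAlgebraic ℚ K] (σ : K →+* ℂ) {c ω : K} {r : ℕ} {D₀ M : ℤ[X]}
    {R : Fin r → ℤ[X]} {j : Fin r → ℕ} {A B D : K[X]} (hc : c ≠ 0)
    (hB : B = (X * (∏ k, R k) * M).map (algebraMap ℤ K)) (hD : D = D₀.map (algebraMap ℤ K))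
    (hA : A = B + C c * D) (hirr : Irreducible (CG A B)) {y : Fin 2 → ℝ → ℂ}
    {Xs : Fin 2 → Fin r → ℝ → ℂ} (H : LP (σ c) ![1, σ ω] D₀ R M j y Xs)
    (L : Type*) [Field L] [Algebra (AdjoinRoot (CG A B)) L]
    [IsFractionRing (AdjoinRoot (CG A B)) L] {z : Fin 2 → Lˣ} {x : Lˣ} {u : Fin r → Lˣ}
    (hz : ∀ β, (z β : L) = (1 - pA (G := CG A B) L (C ((![1, ω] : Fin 2 → K) β)) *
      yA (CG A B) L) ^ 3 / (1 - yA (CG A B) L ^ 3))
    (hx : (x : L) = pA (G := CG A B) L X)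
    (hu : ∀ k, (u k : L) = pA (G := CG A B) L ((R k).map (algebraMap ℤ K))) :
    ∃ Γ : Fin 2 × Fin r → Torus L 1, (∀ i θ a, (Γ i).e θ (pA (G := CG A B) L (C a)) = σ a) ∧
      (Matrix.of fun i k : Fin 2 × Fin r =>
        (Γ i).reg (sy (z k.1) (u k.2 / x ^ j k.2))).det ≠ 0 := by
  classical
  have hBe : ∀ x, B.eval₂ σ x = (cx (X * (∏ k, R k) * M)).eval x := fun x => by
    rw [hB, eval_cxK]
  have hDe : ∀ x, D.eval₂ σ x = (cx D₀).eval x := fun x => by rw [hD, eval_cxK]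
  have hAe : ∀ x, A.eval₂ σ x = B.eval₂ σ x + σ c * D.eval₂ σ x := fun x => by
    rw [hA, eval₂_add, eval₂_mul, eval₂_C]
  have hσc : σ c ≠ 0 := (map_ne_zero σ).2 hc
  have heq : ∀ α i s, A.eval₂ σ (Xs α i s) * y α s ^ 3 = B.eval₂ σ (Xs α i s) := by
    intro α i s
    rw [hAe, hBe, hDe, H.eq α i s]
    have h1 := H.yne α s
    unfold ry
    field_simp
    ring
  have heq' : ∀ α i s, (CG A B).eval₂ (eval₂RingHom σ (Xs α i s)) (y α s) = 0 := by
    intro α i s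
    rw [CG_eval₂, coe_eval₂RingHom, heq, sub_self]
  have htr : ∀ α i s, TrOver σ (Xs α i s) := by
    intro α i s
    refine TrOver.of_rat σ (not_mem_EE.1 fun h => ?_)
    have h1 := heq α i s
    have h2 : A.eval₂ σ (Xs α i s) ∈ EE := eval₂_mem_EE A h
    have h3 : B.eval₂ σ (Xs α i s) ∈ EE := eval₂_mem_EE B h
    have h4 : A.eval₂ σ (Xs α i s) ≠ 0 := by
      intro h0
      rw [h0, zero_mul] at h1
      have h5 := hAe (Xs α i s)
      rw [h0, ← h1, zero_add, hDe] at h5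
      exact mul_ne_zero hσc (H.Dne α i s) h5.symm
    refine H.ytr α s (cube_mem_EE ?_)
    have h5 : y α s ^ 3 = B.eval₂ σ (Xs α i s) / A.eval₂ σ (Xs α i s) := by
      rw [eq_div_iff h4]
      linear_combination h1
    rw [h5]
    exact div_mem h3 h2
  choose Γ hΓ using fun k : Fin 2 × Fin r => exists_torusA L hirr (H.xsm k.1 k.2) (H.ysm k.1)
    (H.xper k.1 k.2) (H.yper k.1) (heq' k.1 k.2) (htr k.1 k.2)
  have hΓy : ∀ k θ, (Γ k).e θ (yA (CG A B) L) = y k.1 (θ 0) := fun k θ => (hΓ k θ).1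
  have hΓp : ∀ k θ Q, (Γ k).e θ (pA (G := CG A B) L Q) = Q.eval₂ σ (Xs k.1 k.2 (θ 0)) :=
    fun k θ Q => (hΓ k θ).2 Q
  have hσω : ∀ β, σ ((![1, ω] : Fin 2 → K) β) = (![1, σ ω] : Fin 2 → ℂ) β := by
    intro β
    match β with
    | 0 => exact map_one σ
    | 1 => rfl
  refine ⟨Γ, fun i θ a => by rw [hΓp, eval₂_C], fun hdet => ?_⟩
  obtain ⟨c', hc0, hc'⟩ := Matrix.exists_mulVec_eq_zero_iff.2 hdet
  apply hc0
  have h1 : ∀ i k : Fin 2 × Fin r, (Γ i).reg (sy (z k.1) (u k.2 / x ^ j k.2)) =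
      pr (fun s => zy ((![1, σ ω] : Fin 2 → ℂ) k.1) (y i.1 s))
        (fun s => (cx (R k.2)).eval (Xs i.1 i.2 s)) -
        j k.2 * pr (fun s => zy ((![1, σ ω] : Fin 2 → ℂ) k.1) (y i.1 s)) (Xs i.1 i.2) := by
    intro i k
    have h1 : ∀ θ, (Γ i).e θ (u k.2 : L) = (cx (R k.2)).eval (Xs i.1 i.2 (θ 0)) := by
      intro θ
      rw [hu, hΓp, eval_cxK]
    have h2 : ∀ θ, (Γ i).e θ (x : L) = Xs i.1 i.2 (θ 0) := by
      intro θ
      rw [hx, hΓp, eval₂_X]
    have h3 : ∀ θ, (Γ i).e θ (z k.1 : L) =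
        zy ((![1, σ ω] : Fin 2 → ℂ) k.1) (y i.1 (θ 0)) := by
      intro θ
      rw [hz, map_div₀, map_pow, map_sub, map_sub, map_one, map_mul, map_pow, hΓy, hΓp, eval₂_C,
        hσω]
      rfl
    have e : sy (z k.1) (u k.2 / x ^ j k.2) = sy (z k.1) (∏ l, (![u k.2, x] : Fin 2 → Lˣ) l ^
        ((![1, -(j k.2 : ℤ)] : Fin 2 → ℤ) l)) := by
      rw [Fin.prod_univ_two]
      simp only [Matrix.cons_val_zero, Matrix.cons_val_one, zpow_one, zpow_neg, zpow_natCast,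
        div_eq_mul_inv]
    have hreg := reg_sy (Γ i) (z k.1) (![u k.2, x] : Fin 2 → Lˣ)
      (![1, -(j k.2 : ℤ)] : Fin 2 → ℤ)
      (Z := fun s => zy ((![1, σ ω] : Fin 2 → ℂ) k.1) (y i.1 s))
      (W := ![fun s => (cx (R k.2)).eval (Xs i.1 i.2 s), Xs i.1 i.2]) h3 (fun l θ => by
        match l with
        | 0 => exact h1 θ
        | 1 => exact h2 θ) (H.nz k.1 i.1) (fun l => by
        match l with
        | 0 => exact H.nR i.1 i.2 k.2
        | 1 => exact H.nX i.1 i.2)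
    rw [e, hreg, Fin.sum_univ_two]
    simp only [Matrix.cons_val_zero, Matrix.cons_val_one]
    push_cast
    ring
  have h2 := H.inj (fun b k => c' (b, k)) fun α i => by
    have h3 := congrFun hc' (α, i)
    rw [Matrix.mulVec, dotProduct, Pi.zero_apply, Fintype.sum_prod_type] at h3
    rw [← h3]
    refine Finset.sum_congr rfl fun b _ => Finset.sum_congr rfl fun k _ => ?_
    rw [Matrix.of_apply, h1 (α, i) (b, k), mul_comm]
  funext k
  exact h2 k.1 k.2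

/-- The special curves. -/
theorem spec6 [NumberField K] {c : K} (hc : c ^ 2 = -27) {p : ℕ} (hp : 1 ≤ p)
    {β : Fin p → ℕ} (h : Function.Injective β) (h2 : ∀ l, 2 ≤ β l) {M : ℤ[X]} (hM : M.Monic)
    {r : ℕ} (hr : 0 < r) : ∃ J : ℕ, ∀ j : Fin r → ℕ, Function.Injective j → (∀ k, J ≤ j k) →
      ∀ (A B D : K[X]), B = (X * (∏ k, Rz β (j k)) * M).map (algebraMap ℤ K) →
      D = (Dz β).map (algebraMap ℤ K) → A = B + C c * D → Irreducible (CG A B) →
      ∀ (L : Type) [Field L] [Algebra (AdjoinRoot (CG A B)) L]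
        [IsFractionRing (AdjoinRoot (CG A B)) L],
        ∃ w : Fin 2 × Fin r → KQ L 2, (∀ k, w k ∈ Unramified L 2) ∧ ∀ σ : K →+* ℂ,
          ∃ Γ : Fin 2 × Fin r → Torus L 1,
            (∀ i θ a, (Γ i).e θ (pA (G := CG A B) L (C a)) = σ a) ∧
              (Matrix.of fun i k => (Γ i).reg (w k)).det ≠ 0 := by
  classical
  have hcne : c ≠ 0 := by
    rintro rfl
    norm_num at hc
  obtain ⟨ω, hω⟩ : ∃ ω : K, ω = (c - 3) / 6 := ⟨_, rfl⟩
  have hω2 : ω ^ 2 + ω + 1 = 0 := by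
    rw [hω]
    linear_combination (1 / 36 : K) * hc
  have hω3 : ω ^ 3 = 1 := by linear_combination (ω - 1) * hω2
  have hex : ∀ σ : K →+* ℂ, ∃ J : ℕ, ∀ j : Fin r → ℕ, Function.Injective j → (∀ k, J ≤ j k) →
      ∃ y Xs, LP (σ c) ![1, σ ω] (Dz β) (fun k => Rz β (j k)) M j y Xs := by
    intro σ
    refine exists_LP ((map_ne_zero σ).2 hcne) ?_ hp h h2 hM hr
    rw [← map_pow, ← map_add, ← map_one σ, ← map_add, hω2, map_zero]
  choose J hJ using hex
  refine ⟨∑ σ, J σ, fun j hj hjJ A B D hB hD hA hirr L _ _ _ => ?_⟩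
  have h3 : ∀ σ : K →+* ℂ, ∃ y Xs, LP (σ c) ![1, σ ω] (Dz β) (fun k => Rz β (j k)) M j y Xs := fun σ =>
    hJ σ j hj fun k => (Finset.single_le_sum (f := J) (fun _ _ => Nat.zero_le _)
      (Finset.mem_univ σ)).trans (hjJ k)
  have h5 := Dz_monic β
  have h6 := fun k => Rz_monic β (j k)
  have h7 := fun k => pow_sub_Rz β (j k)
  have h8 : ∀ k, (Dz β).natDegree < 1 + (Rz β (j k)).natDegree := by
    intro k
    rw [Dz_natDegree, Rz_natDegree]
    omega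
  obtain ⟨R, hR⟩ : ∃ R : Fin r → ℤ[X], R = fun k => Rz β (j k) := ⟨_, rfl⟩
  obtain ⟨Q, hQ⟩ : ∃ Q : Fin r → ℤ[X], Q = fun k => X ^ (j k) /ₘ Dz β - 1 := ⟨_, rfl⟩
  have hR' : ∀ k, Rz β (j k) = R k := fun k => by rw [hR]
  have hQ' : ∀ k, X ^ (j k) /ₘ Dz β - 1 = Q k := fun k => by rw [hQ]
  simp only [hR', hQ'] at h3 h6 h7 h8 hB
  generalize Dz β = D₀ at *
  have hDm : D.Monic := by rw [hD]; exact h5.map _
  have hA0 : A ≠ 0 := by
    intro h0
    have h11 : c • D = -B := by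
      rw [smul_eq_C_mul]
      rw [h0] at hA
      linear_combination -hA
    have hBm : B.Monic := by
      rw [hB]
      exact ((monic_X.mul (monic_prod_of_monic _ _ fun k _ => h6 k)).mul hM).map _
    have hBd : B.natDegree = D.natDegree := by
      rw [← natDegree_neg, ← h11, natDegree_smul _ hcne]
    have hDd : D.natDegree = D₀.natDegree := by rw [hD]; exact h5.natDegree_map _
    have hBd2 : D₀.natDegree < B.natDegree := by
      rw [hB, ((monic_X.mul (monic_prod_of_monic _ _ fun k _ => h6 k)).mul hM).natDegree_map,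
        (monic_X.mul (monic_prod_of_monic _ _ fun k _ => h6 k)).natDegree_mul hM,
        monic_X.natDegree_mul (monic_prod_of_monic _ _ fun k _ => h6 k), natDegree_X,
        natDegree_prod_of_monic _ _ fun k _ => h6 k]
      have h12 := h8 ⟨0, hr⟩
      have h13 : (R ⟨0, hr⟩).natDegree ≤ ∑ k, (R k).natDegree :=
        Finset.single_le_sum (f := fun k => (R k).natDegree) (fun _ _ => Nat.zero_le _)
          (Finset.mem_univ _)
      omega
    omega
  have hG : 0 < (CG A B).natDegree := by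
    rw [CG_natDegree hA0]
    norm_num
  have hy0 := one_sub_yA_ne (L := L) hA0 hA hcne hDm.ne_zero
  have hζ3 : ∀ b, ((![1, ω] : Fin 2 → K) b) ^ 3 = 1 := by
    intro b
    match b with
    | 0 => exact one_pow 3
    | 1 => exact hω3
  obtain ⟨z, hz⟩ : ∃ z : Fin 2 → Lˣ, ∀ b, (z b : L) =
      (1 - pA (G := CG A B) L (C ((![1, ω] : Fin 2 → K) b)) * yA (CG A B) L) ^ 3 /
        (1 - yA (CG A B) L ^ 3) :=
    ⟨fun b => Units.mk0 _ (div_ne_zero (pow_ne_zero 3 (one_sub_mul_yA_ne (hζ3 b) hy0)) hy0),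
      fun b => rfl⟩
  obtain ⟨x, hx⟩ : ∃ x : Lˣ, (x : L) = pA (G := CG A B) L X :=
    ⟨Units.mk0 _ (pA_ne_zero hG X_ne_zero), rfl⟩
  have hRm' : ∀ k, ((R k).map (algebraMap ℤ K)).Monic := fun k => (h6 k).map _
  obtain ⟨u, hu⟩ : ∃ u : Fin r → Lˣ, ∀ k, (u k : L) = pA (G := CG A B) L
      ((R k).map (algebraMap ℤ K)) :=
    ⟨fun k => Units.mk0 _ (pA_ne_zero hG (hRm' k).ne_zero), fun k => rfl⟩
  refine ⟨fun k => sy (z k.1) (u k.2 / x ^ j k.2), fun k => ?_, fun σ => ?_⟩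
  · have hcI : IsIntegral ℤ c := by
      refine ⟨X ^ 2 + C 27, by monicity!, ?_⟩
      rw [eval₂_add, eval₂_pow, eval₂_X, eval₂_C, hc]
      simp
    obtain ⟨c₀, hc₀⟩ : ∃ c₀ : NumberField.RingOfIntegers K,
        algebraMap (NumberField.RingOfIntegers K) K c₀ = c := ⟨⟨c, hcI⟩, rfl⟩
    have hmap : ∀ P : ℤ[X], (P.map (algebraMap ℤ (NumberField.RingOfIntegers K))).map
        (algebraMap (NumberField.RingOfIntegers K) K) = P.map (algebraMap ℤ K) := by
      intro P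
      rw [Polynomial.map_map]
      exact congrArg (fun φ => P.map φ) (Subsingleton.elim _ _)
    refine cls6 (O := NumberField.RingOfIntegers K) (c := c) (c₀ := c₀)
      (D₀ := D₀.map (algebraMap ℤ (NumberField.RingOfIntegers K)))
      (R := (R k.2).map (algebraMap ℤ (NumberField.RingOfIntegers K)))
      (M := ((∏ i ∈ Finset.univ.erase k.2, R i) * M).map
        (algebraMap ℤ (NumberField.RingOfIntegers K)))
      (Q := (Q k.2).map (algebraMap ℤ (NumberField.RingOfIntegers K)))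
      (fun a => NumberField.RingOfIntegers.isIntegral a) hc₀ hc (h5.map _) ((h6 k.2).map _)
      (((monic_prod_of_monic _ _ fun i _ => h6 i).mul hM).map _) ?_ ?_ ?_ hA0 hA ?_
      (hmap _).symm (hζ3 k.1) (z k.1) x (u k.2) (hz k.1) hx (hu k.2)
    · rw [h5.natDegree_map, (h6 k.2).natDegree_map]
      have := h8 k.2
      omega
    · have h9 := congrArg (Polynomial.map (algebraMap ℤ (NumberField.RingOfIntegers K))) (h7 k.2)
      rw [Polynomial.map_sub, Polynomial.map_pow, Polynomial.map_X, Polynomial.map_mul] at h9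
      exact h9
    · rw [hmap, hB, ← Finset.mul_prod_erase _ _ (Finset.mem_univ k.2)]
      simp only [Polynomial.map_mul, Polynomial.map_X]
      ring
    · rw [hmap, hD]
  · obtain ⟨y, Xs, H⟩ := h3 σ
    exact det6 σ hcne hB hD hA hirr H L hz hx hu

end Pool.Agent.H442
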