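import Pool.Agent.H442.Qua7
set_option autoImplicit false

/-!
The classes on the curves `D(x) (t^2 - t + 1)^2 = B(x) t (1 - t)` and the determinants of their
regulators.
-/

namespace Pool.Agent.H442

open Polynomial Metric Set Filter Topology

open Pool.Agent.TH826.MK (Torus KQ Unramified circ norm_circ contDiff_circ circ_add_one wd)

open Pool.Agent.TH826.UH

open Pool.Agent.Helper537_Sym (sy)

open scoped Real

/-- the functions `t` and `1 - t` -/
def zt {R : Type*} [CommRing R] (b : Fin 2) (y : R) : R := (![y, 1 - y] : Fin 2 → R) b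

theorem map_zt {R S : Type*} [CommRing R] [CommRing S] (φ : R →+* S) (b : Fin 2) (y : R) :
    φ (zt b y) = zt b (φ y) := by
  match b with
  | 0 => rfl
  | 1 =>
    have e1 : zt 1 y = 1 - y := rfl
    have e2 : zt 1 (φ y) = 1 - φ y := rfl
    rw [e1, e2, map_sub, map_one]

/-- the function `u` -/
noncomputable def ut (y : ℂ) : ℂ := (y ^ 2 - y + 1) ^ 2 / (y * (1 - y))

/-- The loops in the `t`-plane. -/
theorem exists_sys7 : ∃ (y : Fin 2 → ℝ → ℂ) (B W E : ℝ), (∀ a, ContDiff ℝ 2 (y a)) ∧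
    (∀ a s, y a (s + 1) = y a s) ∧ (∀ a s, y a s ∉ EE) ∧
    WLp (fun b a s => zt b (y a s)) (fun a s => ut (y a s))
      (fun b a => if b = a then 1 else 0) B W E := by
  obtain ⟨ε, hε, hε2, hεt⟩ := exists_eps
  obtain ⟨c, hc⟩ : ∃ c : Fin 2 → ℂ, c = ![0, 1] := ⟨_, rfl⟩
  have c0 : c 0 = 0 := by rw [hc]; rfl
  have c1 : c 1 = 1 := by rw [hc]; rfl
  obtain ⟨y, hy⟩ : ∃ y : Fin 2 → ℝ → ℂ, y = fun a s => c a + circ ε s := ⟨_, rfl⟩
  have hya : ∀ a s, y a s = c a + circ ε s := fun a s => by rw [hy]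
  have hsm : ∀ a, ContDiff ℝ 2 (y a) := fun a => by
    rw [hy]
    exact contDiff_const.add (contDiff_circ ε)
  have hper : ∀ a s, y a (s + 1) = y a s := fun a s => by rw [hya, hya, circ_add_one]
  have hcE : ∀ a, c a ∈ EE := by
    intro a
    match a with
    | 0 => rw [c0]; exact zero_mem _
    | 1 => rw [c1]; exact one_mem _
  have htr : ∀ a s, y a s ∉ EE := by
    intro a s h
    have h1 : circ ε s ∈ EE := by
      have h2 := sub_mem h (hcE a)
      have e : y a s - c a = circ ε s := by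
        rw [hya]
        ring
      rwa [e] at h2
    exact not_mem_EE.2 (transcendental_of_norm hεt (norm_circ hε.le s)) h1
  have n0 : ∀ (a b : Fin 2), NZ (fun s => y a s - c b) ∧
      wI (fun s => y a s - c b) = 2 * π * (if b = a then 1 else 0) := by
    intro a b
    have e : (fun s => y a s - c b) = fun s => circ ε s - (c b - c a) := by
      funext s
      rw [hya]
      ring
    by_cases hba : b = a
    · have h1 : ‖c b - c a‖ ≠ ε := by
        rw [hba, sub_self, norm_zero]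
        exact hε.ne
      rw [e]
      refine ⟨nz_circ_sub hε h1, ?_⟩
      rw [wI_circ_sub hε h1, if_pos hba]
      congr 1
      unfold wd
      rw [hba, sub_self, norm_zero, if_pos hε]
    · have h0 : ‖c b - c a‖ = 1 := by
        match a, b with
        | 0, 0 => exact absurd rfl hba
        | 1, 1 => exact absurd rfl hba
        | 0, 1 => rw [c0, c1, sub_zero, norm_one]
        | 1, 0 => rw [c0, c1, zero_sub, norm_neg, norm_one]
      have h1 : ‖c b - c a‖ ≠ ε := by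
        rw [h0]
        linarith
      rw [e]
      refine ⟨nz_circ_sub hε h1, ?_⟩
      rw [wI_circ_sub hε h1, if_neg hba]
      congr 1
      unfold wd
      rw [h0, if_neg (by linarith)]
  have n1 : ∀ (b a : Fin 2), NZ (fun s => zt b (y a s)) ∧
      wI (fun s => zt b (y a s)) = 2 * π * (if b = a then 1 else 0) := by
    intro b a
    match b with
    | 0 =>
      have e : (fun s => zt 0 (y a s)) = fun s => y a s - c 0 := by
        funext s
        rw [c0, sub_zero]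
        rfl
      rw [e]
      exact n0 a 0
    | 1 =>
      have e : (fun s => zt 1 (y a s)) = fun s => (-1) * (y a s - c 1) := by
        funext s
        rw [c1]
        have e1 : zt 1 (y a s) = 1 - y a s := rfl
        rw [e1]
        ring
      have nm : NZ (fun _ : ℝ => (-1 : ℂ)) := ⟨contDiff_const, fun _ => by norm_num⟩
      rw [e]
      refine ⟨nm.mul (n0 a 1).1, ?_⟩
      rw [wI_mul nm (n0 a 1).1, wI_const, zero_add]
      exact (n0 a 1).2
  have n2 : ∀ a, NZ fun s => ut (y a s) := by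
    intro a
    have h1 : NZ fun s => (y a s) ^ 2 - y a s + 1 := by
      refine ⟨((hsm a).pow 2).sub (hsm a) |>.add contDiff_const, fun s h => htr a s ?_⟩
      exact quad_mem_EE (b := 1) (one_mem _) (by linear_combination h)
    have h2 : NZ fun s => y a s * (1 - y a s) := (n1 0 a).1.mul (n1 1 a).1
    have e : (fun s => ut (y a s)) = fun s => (((y a s) ^ 2 - y a s + 1) *
        ((y a s) ^ 2 - y a s + 1)) / (y a s * (1 - y a s)) := by
      funext s
      unfold ut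
      rw [pow_two (y a s ^ 2 - y a s + 1)]
    rw [e]
    exact (h1.mul h1).div h2
  obtain ⟨B, W, E, h⟩ := exists_WLp (z := fun b a s => zt b (y a s)) (u := fun a s => ut (y a s))
    (m := fun b a => if b = a then 1 else 0) (fun a s => by rw [hper]) n2 (fun b a => (n1 b a).1)
    (fun b a => (n1 b a).2)
  exact ⟨y, B, W, E, hsm, hper, htr, h⟩

theorem id_inv (f : Fin 2 → ℝ) (N : ℝ)
    (h : ∀ a, |∑ b, (fun b a : Fin 2 => if b = a then (1 : ℝ) else 0) b a * f b| ≤ N)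
    (b : Fin 2) : |f b| ≤ N := by
  have h1 := h b
  simp only [ite_mul, one_mul, zero_mul, Finset.sum_ite_eq', Finset.mem_univ, if_true] at h1
  exact h1

/-- The loops with independent regulators. -/
structure LP7 {r : ℕ} (D : ℤ[X]) (R : Fin r → ℤ[X]) (M : ℤ[X])
    (j : Fin r → ℕ) (y : Fin 2 → ℝ → ℂ) (Xs : Fin 2 → Fin r → ℝ → ℂ) : Prop where
  ysm : ∀ a, ContDiff ℝ 2 (y a)
  yper : ∀ a s, y a (s + 1) = y a s
  ytr : ∀ a s, y a s ∉ EE
  nz : ∀ b a, NZ fun s => zt b (y a s)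
  xsm : ∀ α i, ContDiff ℝ 2 (Xs α i)
  xper : ∀ α i s, Xs α i (s + 1) = Xs α i s
  Dne : ∀ α i s, (cx D).eval (Xs α i s) ≠ 0
  eq : ∀ α i s, (cx (X * (∏ k, R k) * M)).eval (Xs α i s) =
        ut (y α s) * (cx D).eval (Xs α i s)
  nX : ∀ α i, NZ (Xs α i)
  nR : ∀ α i k, NZ fun s => (cx (R k)).eval (Xs α i s)
  inj : ∀ C : Fin 2 → Fin r → ℝ, (∀ α i, ∑ β, ∑ k, C β k * (pr (fun s => zt β (y α s))
        (fun s => (cx (R k)).eval (Xs α i s)) - j k * pr (fun s => zt β (y α s)) (Xs α i)) =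
          0) → ∀ β k, C β k = 0

theorem exists_LP7 {p : ℕ} (hp : 1 ≤ p)
    {β : Fin p → ℕ} (h : Function.Injective β) (h2 : ∀ l, 2 ≤ β l) {M : ℤ[X]} (hM : M.Monic)
    {r : ℕ} (hr : 0 < r) : ∃ J : ℕ, ∀ j : Fin r → ℕ, Function.Injective j → (∀ k, J ≤ j k) →
      ∃ y Xs, LP7 (Dz β) (fun k => Rz β (j k)) M j y Xs := by
  obtain ⟨y, B, W, E, ysm, yper, ytr, hY⟩ := exists_sys7
  obtain ⟨K, hK⟩ : ∃ K : ℝ, K = E * (1 + W * (1 + p + (∑ _k : Fin r, (p : ℝ)) + M.natDegree)) :=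
    ⟨_, rfl⟩
  have hK0 : 0 ≤ K := by
    rw [hK]
    have := hY.hE
    have := hY.hW
    have : (0 : ℝ) ≤ ∑ _k : Fin r, (p : ℝ) := Finset.sum_nonneg fun k _ => Nat.cast_nonneg _
    positivity
  obtain ⟨T₀, hT⟩ : ∃ T₀ : ℝ, T₀ = (r + 1) * K * (8 * (1 + 2 * p)) / Real.pi + 1 := ⟨_, rfl⟩
  have hπ := Real.pi_pos
  have hT0 : 0 < T₀ := by
    rw [hT]
    positivity
  have hT1 : (r + 1) * K * (8 * (1 + 2 * (p : ℝ))) ≤ Real.pi * T₀ := by
    rw [hT, mul_add Real.pi, mul_div_cancel₀ _ hπ.ne']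
    linarith
  obtain ⟨J, hJ⟩ := discData6 T₀ hY.hB hp h h2 hM r
  refine ⟨max J p, fun j hj hjJ => ?_⟩
  have h3 := hJ j hj fun k => (le_max_left _ _).trans (hjJ k)
  have h4 : ∀ k, (p : ℝ) ≤ j k := fun k => by
    exact_mod_cast (le_max_right _ _).trans (hjJ k)
  obtain ⟨Xs, m1, m2, m3, m4, m5, m6, m7⟩ := mat7 id_inv hY hr (by exact_mod_cast hp) hT0 hT1
    (by
      rw [hK]
      simp only [Dz_natDegree, Rz_natDegree]
      exact le_rfl) h3 h4
  exact ⟨y, Xs, ysm, yper, ytr, hY.nz, m1, m2, m3, m4, m5, m6, m7⟩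

theorem quart_mem_EE {q y : ℂ} (hq : q ∈ EE) (h : (y ^ 2 - y + 1) ^ 2 = q * (y * (1 - y))) :
    y ∈ EE := by
  have h5 : IsIntegral EE y := by
    refine ⟨X ^ 4 + C (-2) * X ^ 3 + C (3 + ⟨q, hq⟩ : EE) * X ^ 2 + C (-2 - ⟨q, hq⟩ : EE) * X + 1,
      by monicity!, ?_⟩
    simp only [eval₂_add, eval₂_mul, eval₂_X, eval₂_C, eval₂_one, eval₂_X_pow]
    simp only [map_add, map_sub, map_neg, map_ofNat]
    have e : algebraMap EE ℂ ⟨q, hq⟩ = q := rfl
    rw [e]
    linear_combination h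
  rw [mem_algebraicClosure_iff]
  have : Algebra.IsAlgebraic ℚ EE := algebraicClosure.isAlgebraic ℚ ℂ
  exact h5.isAlgebraic.restrictScalars ℚ

variable {K : Type*} [Field K]

/-- The determinant of the regulators. -/
theorem det7 [Algebra ℚ K] [Algebra.IsAlgebraic ℚ K] (σ : K →+* ℂ) {r : ℕ} {D₀ M : ℤ[X]}
    {R : Fin r → ℤ[X]} {j : Fin r → ℕ} {B D : K[X]}
    (hB : B = (X * (∏ k, R k) * M).map (algebraMap ℤ K)) (hD : D = D₀.map (algebraMap ℤ K))
    (hirr : Irreducible (QG B D)) {y : Fin 2 → ℝ → ℂ}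
    {Xs : Fin 2 → Fin r → ℝ → ℂ} (H : LP7 D₀ R M j y Xs)
    (L : Type*) [Field L] [Algebra (AdjoinRoot (QG B D)) L]
    [IsFractionRing (AdjoinRoot (QG B D)) L] {z : Fin 2 → Lˣ} {x : Lˣ} {u : Fin r → Lˣ}
    (hz : ∀ β, (z β : L) = zt β (yA (QG B D) L))
    (hx : (x : L) = pA (G := QG B D) L X)
    (hu : ∀ k, (u k : L) = pA (G := QG B D) L ((R k).map (algebraMap ℤ K))) :
    ∃ Γ : Fin 2 × Fin r → Torus L 1,
      (Matrix.of fun i k : Fin 2 × Fin r =>
        (Γ i).reg (sy (z k.1) (u k.2 / x ^ j k.2))).det ≠ 0 := by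
  classical
  have hBe : ∀ x, B.eval₂ σ x = (cx (X * (∏ k, R k) * M)).eval x := fun x => by
    rw [hB, eval_cxK]
  have hDe : ∀ x, D.eval₂ σ x = (cx D₀).eval x := fun x => by rw [hD, eval_cxK]
  have hy01 : ∀ α s, y α s ≠ 0 ∧ 1 - y α s ≠ 0 := fun α s =>
    ⟨(H.nz 0 α).ne_zero s, (H.nz 1 α).ne_zero s⟩
  have heq : ∀ α i s, D.eval₂ σ (Xs α i s) * (y α s ^ 2 - y α s + 1) ^ 2 =
      B.eval₂ σ (Xs α i s) * (y α s * (1 - y α s)) := by
    intro α i s
    rw [hBe, hDe, H.eq α i s]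
    obtain ⟨h1, h2⟩ := hy01 α s
    unfold ut
    field_simp
  have heq' : ∀ α i s, (QG B D).eval₂ (eval₂RingHom σ (Xs α i s)) (y α s) = 0 := by
    intro α i s
    rw [QG_eval₂, coe_eval₂RingHom, heq, sub_self]
  have htr : ∀ α i s, TrOver σ (Xs α i s) := by
    intro α i s
    refine TrOver.of_rat σ (not_mem_EE.1 fun h => ?_)
    have h1 := heq α i s
    have h2 : D.eval₂ σ (Xs α i s) ∈ EE := eval₂_mem_EE D h
    have h3 : B.eval₂ σ (Xs α i s) ∈ EE := eval₂_mem_EE B h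
    have h4 : D.eval₂ σ (Xs α i s) ≠ 0 := by
      rw [hDe]
      exact H.Dne α i s
    refine H.ytr α s (quart_mem_EE (div_mem h3 h2) ?_)
    field_simp
    linear_combination h1
  choose Γ hΓ using fun k : Fin 2 × Fin r => exists_torusA L hirr (H.xsm k.1 k.2) (H.ysm k.1)
    (H.xper k.1 k.2) (H.yper k.1) (heq' k.1 k.2) (htr k.1 k.2)
  have hΓy : ∀ k θ, (Γ k).e θ (yA (QG B D) L) = y k.1 (θ 0) := fun k θ => (hΓ k θ).1
  have hΓp : ∀ k θ Q, (Γ k).e θ (pA (G := QG B D) L Q) = Q.eval₂ σ (Xs k.1 k.2 (θ 0)) :=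
    fun k θ Q => (hΓ k θ).2 Q
  refine ⟨Γ, fun hdet => ?_⟩
  obtain ⟨c', hc0, hc'⟩ := Matrix.exists_mulVec_eq_zero_iff.2 hdet
  apply hc0
  have h1 : ∀ i k : Fin 2 × Fin r, (Γ i).reg (sy (z k.1) (u k.2 / x ^ j k.2)) =
      pr (fun s => zt k.1 (y i.1 s))
        (fun s => (cx (R k.2)).eval (Xs i.1 i.2 s)) -
        j k.2 * pr (fun s => zt k.1 (y i.1 s)) (Xs i.1 i.2) := by
    intro i k
    have h1 : ∀ θ, (Γ i).e θ (u k.2 : L) = (cx (R k.2)).eval (Xs i.1 i.2 (θ 0)) := by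
      intro θ
      rw [hu, hΓp, eval_cxK]
    have h2 : ∀ θ, (Γ i).e θ (x : L) = Xs i.1 i.2 (θ 0) := by
      intro θ
      rw [hx, hΓp, eval₂_X]
    have h3 : ∀ θ, (Γ i).e θ (z k.1 : L) = zt k.1 (y i.1 (θ 0)) := by
      intro θ
      rw [hz, map_zt, hΓy]
    have e : sy (z k.1) (u k.2 / x ^ j k.2) = sy (z k.1) (∏ l, (![u k.2, x] : Fin 2 → Lˣ) l ^
        ((![1, -(j k.2 : ℤ)] : Fin 2 → ℤ) l)) := by
      rw [Fin.prod_univ_two]
      simp only [Matrix.cons_val_zero, Matrix.cons_val_one, zpow_one, zpow_neg, zpow_natCast,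
        div_eq_mul_inv]
    have hreg := reg_sy (Γ i) (z k.1) (![u k.2, x] : Fin 2 → Lˣ)
      (![1, -(j k.2 : ℤ)] : Fin 2 → ℤ)
      (Z := fun s => zt k.1 (y i.1 s))
      (W := ![fun s => (cx (R k.2)).eval (Xs i.1 i.2 s), Xs i.1 i.2]) h3 (fun l θ => by
        match l with
        | 0 => exact h1 θ
        | 1 => exact h2 θ) (H.nz k.1 i.1) (fun l => by
        match l with
        | 0 => exact H.nR i.1 i.2 k.2
        | 1 => exact H.nX i.1 i.2)
    rw [e, hreg, Fin.sum_univ_two]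
    simp only [Matrix.cons_val_zero, Matrix.cons_val_one]
    push_cast
    ring
  have h2 := H.inj (fun b k => c' (b, k)) fun α i => by
    have h3 := congrFun hc' (α, i)
    rw [Matrix.mulVec, dotProduct, Pi.zero_apply, Fintype.sum_prod_type] at h3
    rw [← h3]
    refine Finset.sum_congr rfl fun b _ => Finset.sum_congr rfl fun k _ => ?_
    rw [Matrix.of_apply, h1 (α, i) (b, k), mul_comm]
  funext k
  exact h2 k.1 k.2

/-- The special curves. -/
theorem spec7 {p : ℕ} (hp : 1 ≤ p)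
    {β : Fin p → ℕ} (h : Function.Injective β) (h2 : ∀ l, 2 ≤ β l) {M : ℤ[X]} (hM : M.Monic)
    {r : ℕ} (hr : 0 < r) : ∃ J : ℕ, ∀ j : Fin r → ℕ, Function.Injective j → (∀ k, J ≤ j k) →
      ∀ (B D : ℚ[X]), B = (X * (∏ k, Rz β (j k)) * M).map (algebraMap ℤ ℚ) →
      D = (Dz β).map (algebraMap ℤ ℚ) → Irreducible (QG B D) →
      ∀ (L : Type) [Field L] [Algebra (AdjoinRoot (QG B D)) L]
        [IsFractionRing (AdjoinRoot (QG B D)) L],
        ∃ w : Fin 2 × Fin r → KQ L 2, (∀ k, w k ∈ Unramified L 2) ∧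
          ∃ Γ : Fin 2 × Fin r → Torus L 1,
              (Matrix.of fun i k => (Γ i).reg (w k)).det ≠ 0 := by
  classical
  obtain ⟨J, hJ⟩ := exists_LP7 hp h h2 hM hr
  refine ⟨J, fun j hj hjJ B D hB hD hirr L _ _ _ => ?_⟩
  have h3 := hJ j hj hjJ
  have h5 := Dz_monic β
  have h6 := fun k => Rz_monic β (j k)
  have h7 := fun k => pow_sub_Rz β (j k)
  have h8 : ∀ k, (Dz β).natDegree < 1 + (Rz β (j k)).natDegree := by
    intro k
    rw [Dz_natDegree, Rz_natDegree]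
    omega
  obtain ⟨R, hR⟩ : ∃ R : Fin r → ℤ[X], R = fun k => Rz β (j k) := ⟨_, rfl⟩
  obtain ⟨Q, hQ⟩ : ∃ Q : Fin r → ℤ[X], Q = fun k => X ^ (j k) /ₘ Dz β - 1 := ⟨_, rfl⟩
  have hR' : ∀ k, Rz β (j k) = R k := fun k => by rw [hR]
  have hQ' : ∀ k, X ^ (j k) /ₘ Dz β - 1 = Q k := fun k => by rw [hQ]
  simp only [hR', hQ'] at h3 h6 h7 h8 hB
  generalize Dz β = D₀ at *
  have hDm : D.Monic := by rw [hD]; exact h5.map _
  have hG : 0 < (QG B D).natDegree := by
    rw [QG_natDegree hDm.ne_zero]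
    norm_num
  have hy0 := yQ_ne (B := B) (D := D) (L := L) hDm.ne_zero
  obtain ⟨z, hz⟩ : ∃ z : Fin 2 → Lˣ, ∀ b, (z b : L) = zt b (yA (QG B D) L) :=
    ⟨![Units.mk0 _ hy0.1, Units.mk0 _ hy0.2], fun b => by
      match b with
      | 0 => rfl
      | 1 => rfl⟩
  obtain ⟨x, hx⟩ : ∃ x : Lˣ, (x : L) = pA (G := QG B D) L X :=
    ⟨Units.mk0 _ (pA_ne_zero hG X_ne_zero), rfl⟩
  have hRm' : ∀ k, ((R k).map (algebraMap ℤ ℚ)).Monic := fun k => (h6 k).map _
  obtain ⟨u, hu⟩ : ∃ u : Fin r → Lˣ, ∀ k, (u k : L) = pA (G := QG B D) L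
      ((R k).map (algebraMap ℤ ℚ)) :=
    ⟨fun k => Units.mk0 _ (pA_ne_zero hG (hRm' k).ne_zero), fun k => rfl⟩
  refine ⟨fun k => sy (z k.1) (u k.2 / x ^ j k.2), fun k => ?_, ?_⟩
  · refine cls7 (O := ℤ) (fun a => isIntegral_algebraMap) (D₀ := D₀) (R := R k.2)
      (M := (∏ i ∈ Finset.univ.erase k.2, R i) * M) h5 (h6 k.2)
      ((monic_prod_of_monic _ _ fun i _ => h6 i).mul hM) ?_ (h7 k.2) ?_ hD
      rfl (z k.1) x (u k.2) ?_ hx (hu k.2)
    · have := h8 k.2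
      omega
    · rw [hB, ← Finset.mul_prod_erase _ _ (Finset.mem_univ k.2)]
      simp only [Polynomial.map_mul, Polynomial.map_X]
      ring
    · have h9 := yQ_eq (B := B) (D := D) (L := L)
      obtain ⟨b, k⟩ := k
      rw [hz]
      match b with
      | 0 => exact h9
      | 1 =>
        have e : zt 1 (yA (QG B D) L) = 1 - yA (QG B D) L := rfl
        simp only [e]
        linear_combination h9
  · obtain ⟨y, Xs, H⟩ := h3
    exact det7 (algebraMap ℚ ℂ) hB hD hirr H L hz hx hu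

end Pool.Agent.H442
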