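import Pool.Agent.H442.XL7
import Pool.Graph.R_seed8.TH826.MK.Bound
set_option autoImplicit false

/-!
Functions on `ℝ^d` of the form `P(X(θ))` and the approximate values of the regulator integrals.
-/

namespace Pool.Agent.H442

open Polynomial Metric Set Filter Topology MeasureTheory

open Pool.Agent.TH826.MK (circ norm_circ contDiff_circ circ_add_one wd One one_lin Good Per lw grow
  tl tl_apply vf pairing pairing_cons_mul pairing_const pairing_prod good_prod abs_pairing_le
  norm_grow_le continuous_grow lw_mul grow_mul)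

open scoped Real

section poly

/-- The estimates for a polynomial without zeros in a disc. -/
theorem polyB {ξ : ℂ} {δ : ℝ} (hδ : 0 < δ) {P : ℂ[X]}
    (hP : ∀ x ∈ ball ξ (2 * δ), P.eval x ≠ 0) :
    (∀ x ∈ ball ξ δ, ‖P.derivative.eval x‖ ≤ P.natDegree / δ * ‖P.eval x‖) ∧
      ∀ x ∈ ball ξ δ, ∀ x' ∈ ball ξ δ,
        |Real.log ‖P.eval x‖ - Real.log ‖P.eval x'‖| ≤ P.natDegree * 2 := by
  classical
  have hP0 : P ≠ 0 := by
    rintro rfl
    exact hP ξ (mem_ball_self (by linarith)) eval_zero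
  obtain ⟨ρ, hρ⟩ := exists_roots0 P.natDegree P rfl hP0
  have hl0 : P.leadingCoeff ≠ 0 := leadingCoeff_ne_zero.2 hP0
  have hev : ∀ x, P.eval x = P.leadingCoeff * ∏ i, (x - ρ i) := by
    intro x
    conv_lhs => rw [hρ]
    simp only [eval_mul, eval_C, eval_prod, eval_sub, eval_X]
  have hρδ : ∀ i, 2 * δ ≤ ‖ρ i - ξ‖ := by
    intro i
    by_contra hcon
    refine hP (ρ i) (mem_ball_iff_norm.2 (not_le.1 hcon)) ?_
    rw [hev, Finset.prod_eq_zero (Finset.mem_univ i) (sub_self _), mul_zero]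
  have hdist : ∀ i, ∀ x ∈ ball ξ δ, δ ≤ ‖x - ρ i‖ := by
    intro i x hx
    have h1 := hρδ i
    have h2 := mem_ball_iff_norm.1 hx
    have h3 : ‖ρ i - ξ‖ ≤ ‖x - ξ‖ + ‖x - ρ i‖ := by
      have e : ρ i - ξ = (x - ξ) - (x - ρ i) := by ring
      rw [e]
      exact norm_sub_le _ _
    linarith
  constructor
  · intro x hx
    have key : ∀ t : Finset (Fin P.natDegree),
        ‖(∏ i ∈ t, (X - C (ρ i)) : ℂ[X]).derivative.eval x‖ ≤
          t.card / δ * ‖(∏ i ∈ t, (X - C (ρ i)) : ℂ[X]).eval x‖ := by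
      intro t
      induction t using Finset.induction_on with
      | empty => simp
      | insert i t hi ih =>
        rw [Finset.prod_insert hi, Finset.card_insert_of_notMem hi]
        obtain ⟨g, hg⟩ : ∃ g : ℂ[X], g = ∏ i ∈ t, (X - C (ρ i)) := ⟨_, rfl⟩
        rw [← hg] at ih ⊢
        have h1 := hdist i x hx
        simp only [derivative_mul, derivative_sub, derivative_X, derivative_C, sub_zero, one_mul,
          eval_add, eval_mul, eval_sub, eval_X, eval_C]
        have h2 : ‖g.eval x‖ ≤ 1 / δ * (‖x - ρ i‖ * ‖g.eval x‖) := by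
          have h3 : 1 ≤ ‖x - ρ i‖ / δ := (one_le_div hδ).2 h1
          calc ‖g.eval x‖ = 1 * ‖g.eval x‖ := (one_mul _).symm
            _ ≤ ‖x - ρ i‖ / δ * ‖g.eval x‖ := mul_le_mul_of_nonneg_right h3 (norm_nonneg _)
            _ = _ := by ring
        have h4 : ‖x - ρ i‖ * ‖g.derivative.eval x‖ ≤
            ‖x - ρ i‖ * (t.card / δ * ‖g.eval x‖) := mul_le_mul_of_nonneg_left ih (norm_nonneg _)
        calc ‖g.eval x + (x - ρ i) * g.derivative.eval x‖ ≤
              ‖g.eval x‖ + ‖x - ρ i‖ * ‖g.derivative.eval x‖ := by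
              rw [← norm_mul]
              exact norm_add_le _ _
          _ ≤ 1 / δ * (‖x - ρ i‖ * ‖g.eval x‖) + ‖x - ρ i‖ * (t.card / δ * ‖g.eval x‖) :=
              add_le_add h2 h4
          _ = ((t.card + 1 : ℕ) : ℝ) / δ * ‖(x - ρ i) * g.eval x‖ := by
              rw [norm_mul]
              push_cast
              ring
    have h1 := key Finset.univ
    rw [Finset.card_univ, Fintype.card_fin] at h1
    have h2 : P.derivative.eval x =
        P.leadingCoeff * (∏ i, (X - C (ρ i)) : ℂ[X]).derivative.eval x := by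
      conv_lhs => rw [hρ]
      rw [derivative_C_mul, eval_C_mul]
    have h3 : P.eval x = P.leadingCoeff * (∏ i, (X - C (ρ i)) : ℂ[X]).eval x := by
      conv_lhs => rw [hρ]
      rw [eval_C_mul]
    rw [h2, h3, norm_mul, norm_mul]
    calc ‖P.leadingCoeff‖ * ‖(∏ i, (X - C (ρ i)) : ℂ[X]).derivative.eval x‖ ≤
          ‖P.leadingCoeff‖ * (P.natDegree / δ * ‖(∏ i, (X - C (ρ i)) : ℂ[X]).eval x‖) :=
          mul_le_mul_of_nonneg_left h1 (norm_nonneg _)
      _ = _ := by ring
  · intro x hx x' hx'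
    have hpos : ∀ i, ∀ x ∈ ball ξ δ, 0 < ‖x - ρ i‖ := fun i x hx => hδ.trans_le (hdist i x hx)
    have hlog : ∀ x ∈ ball ξ δ, Real.log ‖P.eval x‖ =
        Real.log ‖P.leadingCoeff‖ + ∑ i, Real.log ‖x - ρ i‖ := by
      intro x hx
      rw [hev, norm_mul, norm_prod, Real.log_mul (norm_ne_zero_iff.2 hl0)
        (Finset.prod_ne_zero_iff.2 fun i _ => (hpos i x hx).ne'),
        Real.log_prod fun i _ => (hpos i x hx).ne']
    rw [hlog x hx, hlog x' hx', add_sub_add_left_eq_sub, ← Finset.sum_sub_distrib]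
    have hone : ∀ i, ∀ x ∈ ball ξ δ, ∀ x' ∈ ball ξ δ,
        Real.log ‖x - ρ i‖ ≤ Real.log ‖x' - ρ i‖ + 2 := by
      intro i x hx x' hx'
      have h1 := hdist i x' hx'
      have h2 : ‖x - ρ i‖ ≤ 3 * ‖x' - ρ i‖ := by
        have h3 : ‖x - ρ i‖ ≤ ‖x - ξ‖ + (‖x' - ξ‖ + ‖x' - ρ i‖) := by
          have e : x - ρ i = (x - ξ) - ((x' - ξ) - (x' - ρ i)) := by ring
          rw [e]
          exact (norm_sub_le _ _).trans (add_le_add le_rfl (norm_sub_le _ _))
        have h4 := mem_ball_iff_norm.1 hx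
        have h5 := mem_ball_iff_norm.1 hx'
        linarith
      have h3 := Real.log_le_log (hpos i x hx) h2
      rw [Real.log_mul (by norm_num) (hpos i x' hx').ne'] at h3
      have h4 : Real.log 3 ≤ 3 - 1 := Real.log_le_sub_one_of_pos (by norm_num)
      linarith
    refine (Finset.abs_sum_le_sum_abs _ _).trans ?_
    calc ∑ i, |Real.log ‖x - ρ i‖ - Real.log ‖x' - ρ i‖| ≤ ∑ _i : Fin P.natDegree, (2 : ℝ) := by
          refine Finset.sum_le_sum fun i _ => ?_
          rw [abs_le]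
          have h1 := hone i x hx x' hx'
          have h2 := hone i x' hx' x hx
          constructor <;> linarith
      _ = P.natDegree * 2 := by
          rw [Finset.sum_const, Finset.card_univ, Fintype.card_fin, nsmul_eq_mul]

end poly

section branch

/-- The branch of the function `x` near a simple zero of `R`. -/
theorem exists_xbr {c : ℝ} (hc1 : 1 ≤ c) {D R G : ℂ[X]} {U : ℂ → ℂ} {ξ : ℂ} {δ : ℝ}
    (hδ : 0 < δ) (hU : DifferentiableOn ℂ U (ball ξ (2 * δ)))
    (hUb : ∀ x ∈ ball ξ (2 * δ), ‖U x‖ ≤ δ / 40)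
    (hG : ∀ x ∈ ball ξ (2 * δ), 40 * c / δ ≤ ‖G.eval x‖)
    (hD : ∀ x ∈ ball ξ (2 * δ), D.eval x ≠ 0)
    (heq : ∀ x ∈ ball ξ (2 * δ), x * R.eval x = D.eval x * (x - ξ + U x)) :
    ∃ xb : ℂ → ℂ, (∀ w ∈ ball (0 : ℂ) (9 / 2), AnalyticAt ℂ xb w ∧ ‖xb w - ξ‖ < δ ∧
      (X * R * G).eval (xb w) = (c * w) * D.eval (xb w) ∧
      ((X * R * G).derivative * D - (X * R * G) * D.derivative).eval (xb w) ≠ 0) ∧
      ∀ w, ‖w‖ ≤ 1 → ‖deriv xb w‖ ≤ δ := by
  have hc0 : 0 < c := zero_lt_one.trans_le hc1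
  have hG0 : ∀ x ∈ ball ξ (2 * δ), G.eval x ≠ 0 := by
    intro x hx h
    have h1 := hG x hx
    rw [h, norm_zero] at h1
    have : 0 < 40 * c / δ := by positivity
    linarith
  have hsub' : ball ξ δ ⊆ ball ξ (2 * δ) := ball_subset_ball (by linarith)
  have hcc : (c : ℂ) ≠ 0 := by exact_mod_cast hc0.ne'
  obtain ⟨xb, hxb⟩ := exists_branch3 (V := fun x => (c : ℂ) * (G.eval x)⁻¹) (W := fun x => -U x)
    (ξ := ξ) hδ
    (fun x hx => ((differentiableAt_const _).mul
      ((G.differentiable x).inv (hG0 x hx))).differentiableWithinAt) hU.neg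
    (by
      intro x hx
      have h1 := hG x hx
      rw [norm_mul, norm_inv, Complex.norm_real, Real.norm_eq_abs, abs_of_pos hc0]
      have h2 : 0 < 40 * c / δ := by positivity
      calc c * ‖G.eval x‖⁻¹ ≤ c * (40 * c / δ)⁻¹ :=
            mul_le_mul_of_nonneg_left (inv_anti₀ h2 h1) hc0.le
        _ = δ / 40 := by field_simp)
    (by
      intro x hx
      rw [norm_neg]
      exact hUb x hx)
    (fun x hx => mul_ne_zero hcc (inv_ne_zero (hG0 x hx)))
  have hYb : ∀ w ∈ ball (0 : ℂ) (9 / 2), xb w ∈ ball ξ (2 * δ) := fun w hw =>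
    hsub' (mem_ball_iff_norm.2 (hxb w hw).2.1)
  have hYm : ∀ w ∈ ball (0 : ℂ) (9 / 2),
      (X * R * G).eval (xb w) = (c * w) * D.eval (xb w) := by
    intro w hw
    have h1 : xb w = ξ + -U (xb w) + w * ((c : ℂ) * (G.eval (xb w))⁻¹) := (hxb w hw).2.2
    have h2 := hG0 _ (hYb w hw)
    have h3 : (xb w - ξ + U (xb w)) * G.eval (xb w) = c * w := by
      have h4 : xb w - ξ + U (xb w) = w * ((c : ℂ) * (G.eval (xb w))⁻¹) := by
        linear_combination h1
      rw [h4]
      field_simp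
    rw [eval_mul, eval_mul, eval_X, heq _ (hYb w hw)]
    linear_combination D.eval (xb w) * h3
  refine ⟨xb, fun w hw => ⟨(hxb w hw).1, (hxb w hw).2.1, hYm w hw, ?_⟩, fun w hw => ?_⟩
  · -- the derivative
    obtain ⟨N, hN⟩ : ∃ N : ℂ[X], N = X * R * G := ⟨_, rfl⟩
    rw [← hN] at hYm ⊢
    have hd := (hxb w hw).1.differentiableAt.hasDerivAt
    have h1 : HasDerivAt (fun w => N.eval (xb w)) (N.derivative.eval (xb w) * deriv xb w) w :=
      (N.hasDerivAt (xb w)).comp w hd
    have h2 : HasDerivAt (fun w => (c * w) * D.eval (xb w))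
        ((c * 1) * D.eval (xb w) + (c * w) * (D.derivative.eval (xb w) * deriv xb w)) w :=
      ((hasDerivAt_id w).const_mul (c : ℂ)).mul ((D.hasDerivAt (xb w)).comp w hd)
    have h3 : (fun w => N.eval (xb w)) =ᶠ[𝓝 w] fun w => (c * w) * D.eval (xb w) := by
      filter_upwards [isOpen_ball.mem_nhds hw] with t ht
      exact hYm t ht
    have h4 := (h2.congr_of_eventuallyEq h3).unique h1
    have h5 := hYm w hw
    have h6 := hD _ (hYb w hw)
    intro h7
    rw [eval_sub, eval_mul, eval_mul] at h7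
    have h8 : (c : ℂ) * D.eval (xb w) ^ 2 = 0 := by
      linear_combination D.eval (xb w) * h4 + (deriv xb w) * h7 +
        (deriv xb w) * (D.derivative.eval (xb w)) * h5
    rcases mul_eq_zero.1 h8 with h9 | h9
    · exact hcc h9
    · exact h6 (pow_eq_zero_iff (by norm_num) |>.1 h9)
  · have hsub : closedBall w 2 ⊆ ball (0 : ℂ) (9 / 2) := by
      intro t ht
      rw [mem_closedBall_iff_norm] at ht
      rw [mem_ball_zero_iff]
      have h1 : ‖t‖ ≤ ‖t - w‖ + ‖w‖ := by
        have e : t = (t - w) + w := by ring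
        conv_lhs => rw [e]
        exact norm_add_le _ _
      linarith
    have hd : DifferentiableOn ℂ (fun w => xb w - ξ) (closedBall w 2) := fun t ht =>
      ((hxb t (hsub ht)).1.differentiableAt.sub_const ξ).differentiableWithinAt
    have h3 : ‖deriv (fun w => xb w - ξ) w‖ ≤ δ / 2 := by
      refine Complex.norm_deriv_le_of_forall_mem_sphere_norm_le (by norm_num) ?_ ?_
      · exact hd.diffContOnCl_ball subset_rfl
      · intro t ht
        exact (hxb t (hsub (sphere_subset_closedBall ht))).2.1.le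
    rw [deriv_sub_const] at h3
    linarith

end branch

end Pool.Agent.H442
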