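import Pool.Agent.H442.Loop5
import Pool.Agent.H442.Lin6
set_option autoImplicit false

/-!
Approximate values of the regulator integrals.
-/

namespace Pool.Agent.H442

open Polynomial Metric Set Filter Topology MeasureTheory

open Pool.Agent.TH826.MK (circ norm_circ contDiff_circ circ_add_one wd one_lin)

open Pool.Agent.TH826.UH

open scoped Real

theorem hasDerivAt_log_norm {H : ℝ → ℂ} {H' : ℂ} {s : ℝ} (hH : HasDerivAt H H' s)
    (h0 : H s ≠ 0) : HasDerivAt (fun s => Real.log ‖H s‖) (H' / H s).re s := by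
  have e : (fun s => Real.log ‖H s‖) = fun s => Real.log (Complex.normSq (H s)) / 2 := by
    funext s
    rw [← Real.log_sqrt (Complex.normSq_nonneg _), Complex.normSq_eq_norm_sq,
      Real.sqrt_sq (norm_nonneg _)]
  have h1 : HasDerivAt (fun s => (H s).re) H'.re s := Complex.reCLM.hasFDerivAt.comp_hasDerivAt s hH
  have h2 : HasDerivAt (fun s => (H s).im) H'.im s := Complex.imCLM.hasFDerivAt.comp_hasDerivAt s hH
  have h3 : HasDerivAt (fun s => Complex.normSq (H s))
      (H'.re * (H s).re + (H s).re * H'.re + (H'.im * (H s).im + (H s).im * H'.im)) s := by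
    have h4 := (h1.mul h1).add (h2.mul h2)
    exact h4
  have hn : Complex.normSq (H s) ≠ 0 := (Complex.normSq_pos.2 h0).ne'
  rw [e]
  refine ((h3.log hn).div_const 2).congr_deriv ?_
  rw [Complex.div_re]
  field_simp
  ring

/-- the winding integral -/
noncomputable def wI (Z : ℝ → ℂ) : ℝ := ∫ s in (0 : ℝ)..1, (deriv Z s / Z s).im

theorem wI_mul {G H : ℝ → ℂ} (hG : NZ G) (hH : NZ H) : wI (fun s => G s * H s) = wI G + wI H := by
  unfold wI
  rw [← intervalIntegral.integral_add (hG.cont_im.intervalIntegrable _ _)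
    (hH.cont_im.intervalIntegrable _ _)]
  refine intervalIntegral.integral_congr fun s _ => ?_
  simp only
  rw [hG.ld_mul hH, Complex.add_im]

theorem wI_const (c : ℂ) : wI (fun _ => c) = 0 := by
  unfold wI
  simp

theorem wI_prod {ι : Type*} [DecidableEq ι] (t : Finset ι) {H : ι → ℝ → ℂ}
    (hH : ∀ j, NZ (H j)) : wI (fun s => ∏ j ∈ t, H j s) = ∑ j ∈ t, wI (H j) := by
  induction t using Finset.induction_on with
  | empty => simpa using wI_const 1
  | insert j t hj ih =>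
    simp only [Finset.prod_insert hj]
    rw [wI_mul (hH j) (NZ.prod t hH), ih, Finset.sum_insert hj]

theorem wI_div {G H : ℝ → ℂ} (hG : NZ G) (hH : NZ H) :
    wI (fun s => G s / H s) = wI G - wI H := by
  rw [eq_sub_iff_add_eq, ← wI_mul (hG.div hH) hH]
  congr 1
  funext s
  rw [div_mul_cancel₀ _ (hH.ne_zero s)]

theorem wI_circ_sub {R : ℝ} (hR : 0 < R) {b : ℂ} (hb : ‖b‖ ≠ R) :
    wI (fun s => circ R s - b) = 2 * π * wd R b := by
  have h1 := (one_lin hR hb).wind
  have hn := nz_circ_sub hR hb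
  unfold wI
  have h2 := Complex.imCLM.intervalIntegral_comp_comm
    (hn.cont_ld.intervalIntegrable (μ := volume) 0 1)
  have h3 : ∫ s in (0 : ℝ)..1, deriv (fun s => circ R s - b) s / (circ R s - b) =
      2 * π * Complex.I * wd R b := by
    rw [← h1, integral_Icc_eq_integral_Ioc, ← intervalIntegral.integral_of_le zero_le_one]
  rw [h3] at h2
  refine h2.trans ?_
  simp

/-- The value of the regulator integral up to an error. -/
theorem pr_approx {Z H : ℝ → ℂ} (hZ : NZ Z) (hH : NZ H) {B E : ℝ}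
    (hB : ∀ s ∈ Icc (0 : ℝ) 1, ‖deriv H s / H s‖ ≤ B)
    (hE : ∀ s ∈ Icc (0 : ℝ) 1, |Real.log ‖Z s‖| + ‖deriv Z s / Z s‖ ≤ E) :
    |pr Z H + Real.log ‖H 0‖ * wI Z| ≤ B * E := by
  have hB0 : 0 ≤ B := (norm_nonneg _).trans (hB 0 ⟨le_rfl, zero_le_one⟩)
  have hlog : ∀ s ∈ Icc (0 : ℝ) 1, |Real.log ‖H s‖ - Real.log ‖H 0‖| ≤ B := by
    intro s hs
    have hd : ∀ t ∈ Icc (0 : ℝ) 1, HasDerivWithinAt (fun s => Real.log ‖H s‖)
        (deriv H t / H t).re (Icc 0 1) t := fun t _ =>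
      (hasDerivAt_log_norm ((hH.smooth.differentiable (by norm_num) t).hasDerivAt)
        (hH.ne_zero t)).hasDerivWithinAt
    have h1 := Convex.norm_image_sub_le_of_norm_hasDerivWithin_le hd
      (fun t ht => (Complex.abs_re_le_norm _).trans (hB t ht)) (convex_Icc 0 1)
      (left_mem_Icc.2 zero_le_one) hs
    rw [Real.norm_eq_abs, sub_zero, Real.norm_eq_abs, abs_of_nonneg hs.1] at h1
    refine h1.trans ?_
    calc B * s ≤ B * 1 := mul_le_mul_of_nonneg_left hs.2 hB0
      _ = B := mul_one _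
  have e : pr Z H + Real.log ‖H 0‖ * wI Z = ∫ s in (0 : ℝ)..1,
      (Real.log ‖Z s‖ * (deriv H s / H s).im -
        (Real.log ‖H s‖ - Real.log ‖H 0‖) * (deriv Z s / Z s).im) := by
    unfold pr wI
    have i2 : IntervalIntegrable (fun s => Real.log ‖H 0‖ * (deriv Z s / Z s).im) volume 0 1 :=
      (continuous_const.mul hZ.cont_im).intervalIntegrable _ _
    rw [← intervalIntegral.integral_const_mul, ← intervalIntegral.integral_add
      ((cont_int hZ hH).intervalIntegrable _ _) i2]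
    refine intervalIntegral.integral_congr fun s _ => ?_
    ring
  rw [e]
  have h1 : ‖∫ s in (0 : ℝ)..1, (Real.log ‖Z s‖ * (deriv H s / H s).im -
        (Real.log ‖H s‖ - Real.log ‖H 0‖) * (deriv Z s / Z s).im)‖ ≤ (B * E) * |1 - 0| := by
    refine intervalIntegral.norm_integral_le_of_norm_le_const fun s hs => ?_
    rw [uIoc_of_le zero_le_one] at hs
    have hs' : s ∈ Icc (0 : ℝ) 1 := ⟨hs.1.le, hs.2⟩
    rw [Real.norm_eq_abs]
    have h2 : |Real.log ‖Z s‖ * (deriv H s / H s).im| ≤ |Real.log ‖Z s‖| * B := by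
      rw [abs_mul]
      exact mul_le_mul_of_nonneg_left ((Complex.abs_im_le_norm _).trans (hB s hs'))
        (abs_nonneg _)
    have h3 : |(Real.log ‖H s‖ - Real.log ‖H 0‖) * (deriv Z s / Z s).im| ≤
        B * ‖deriv Z s / Z s‖ := by
      rw [abs_mul]
      exact mul_le_mul (hlog s hs') (Complex.abs_im_le_norm _) (abs_nonneg _) hB0
    calc |Real.log ‖Z s‖ * (deriv H s / H s).im -
          (Real.log ‖H s‖ - Real.log ‖H 0‖) * (deriv Z s / Z s).im| ≤
          |Real.log ‖Z s‖ * (deriv H s / H s).im| +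
            |(Real.log ‖H s‖ - Real.log ‖H 0‖) * (deriv Z s / Z s).im| := abs_sub _ _
      _ ≤ |Real.log ‖Z s‖| * B + B * ‖deriv Z s / Z s‖ := add_le_add h2 h3
      _ = B * (|Real.log ‖Z s‖| + ‖deriv Z s / Z s‖) := by ring
      _ ≤ B * E := mul_le_mul_of_nonneg_left (hE s hs') hB0
  rw [sub_zero, abs_one, mul_one, Real.norm_eq_abs] at h1
  exact h1

/-- the bound `E` exists -/
theorem exists_E {Z : ℝ → ℂ} (hZ : NZ Z) :
    ∃ E : ℝ, 0 ≤ E ∧ ∀ s ∈ Icc (0 : ℝ) 1, |Real.log ‖Z s‖| + ‖deriv Z s / Z s‖ ≤ E := by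
  have hc : ContinuousOn (fun s => |Real.log ‖Z s‖| + ‖deriv Z s / Z s‖) (Icc 0 1) :=
    (hZ.cont_log.abs.add hZ.cont_ld.norm).continuousOn
  obtain ⟨E, hE⟩ := isCompact_Icc.bddAbove_image hc
  refine ⟨E, ?_, fun s hs => hE ⟨s, hs, rfl⟩⟩
  have h1 := hE ⟨0, left_mem_Icc.2 zero_le_one, rfl⟩
  refine le_trans ?_ h1
  positivity

/-- The logarithmic derivative of a polynomial without zeros in a disc. -/
theorem ld_poly {X : ℝ → ℂ} (hX : ContDiff ℝ 2 X) {ξ : ℂ} {δ W : ℝ} (hδ : 0 < δ)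
    (hXd : ∀ s, ‖X s - ξ‖ < δ) (hW : ∀ s ∈ Icc (0 : ℝ) 1, ‖deriv X s‖ ≤ δ * W) {P : ℂ[X]}
    (hP : ∀ x ∈ ball ξ (2 * δ), P.eval x ≠ 0) :
    NZ (fun s => P.eval (X s)) ∧ ∀ s ∈ Icc (0 : ℝ) 1,
      ‖deriv (fun s => P.eval (X s)) s / P.eval (X s)‖ ≤ P.natDegree * W := by
  have hP0 : P ≠ 0 := by
    rintro rfl
    exact hP ξ (mem_ball_self (by linarith)) eval_zero
  obtain ⟨ρ, hρ⟩ := exists_roots0 P.natDegree P rfl hP0
  have hl0 : P.leadingCoeff ≠ 0 := leadingCoeff_ne_zero.2 hP0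
  have hev : ∀ x, P.eval x = P.leadingCoeff * ∏ i, (x - ρ i) := by
    intro x
    conv_lhs => rw [hρ]
    simp only [eval_mul, eval_C, eval_prod, eval_sub, eval_X]
  have hρδ : ∀ i, 2 * δ ≤ ‖ρ i - ξ‖ := by
    intro i
    by_contra hcon
    refine hP (ρ i) (mem_ball_iff_norm.2 (not_le.1 hcon)) ?_
    rw [hev, Finset.prod_eq_zero (Finset.mem_univ i) (sub_self _), mul_zero]
  have hdist : ∀ i s, δ ≤ ‖X s - ρ i‖ := by
    intro i s
    have h1 := hρδ i
    have h2 := hXd s
    have h3 : ‖ρ i - ξ‖ ≤ ‖X s - ξ‖ + ‖X s - ρ i‖ := by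
      have e : ρ i - ξ = (X s - ξ) - (X s - ρ i) := by ring
      rw [e]
      exact norm_sub_le _ _
    linarith
  have hne : ∀ i s, X s - ρ i ≠ 0 := by
    intro i s h
    have h1 := hdist i s
    rw [h, norm_zero] at h1
    linarith
  have nz : ∀ i, NZ fun s => X s - ρ i := fun i => ⟨hX.sub contDiff_const, hne i⟩
  have e1 : (fun s => P.eval (X s)) = fun s => P.leadingCoeff * ∏ i, (X s - ρ i) := by
    funext s
    exact hev _
  have nc : NZ fun _ : ℝ => P.leadingCoeff := ⟨contDiff_const, fun _ => hl0⟩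
  refine ⟨by rw [e1]; exact nc.mul (NZ.prod Finset.univ nz), fun s hs => ?_⟩
  have h2 : deriv (fun s => P.eval (X s)) s / P.eval (X s) = ∑ i, deriv X s / (X s - ρ i) := by
    have key : ∀ t : Finset (Fin P.natDegree), deriv (fun s => ∏ i ∈ t, (X s - ρ i)) s /
        ∏ i ∈ t, (X s - ρ i) = ∑ i ∈ t, deriv X s / (X s - ρ i) := by
      classical
      intro t
      induction t using Finset.induction_on with
      | empty => simp
      | insert i t hi ih =>
        simp only [Finset.prod_insert hi, Finset.sum_insert hi]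
        rw [(nz i).ld_mul (NZ.prod t nz), ih]
        congr 2
        exact deriv_sub_const (f := X) (ρ i)
    rw [e1, hev, nc.ld_mul (NZ.prod Finset.univ nz), key, deriv_const, zero_div, zero_add]
  rw [h2]
  refine (norm_sum_le _ _).trans ?_
  have h3 : ∀ i, ‖deriv X s / (X s - ρ i)‖ ≤ W := by
    intro i
    rw [norm_div, div_le_iff₀ (hδ.trans_le (hdist i s))]
    have hW0 : 0 ≤ W := by
      have h4 := (norm_nonneg _).trans (hW s hs)
      exact nonneg_of_mul_nonneg_right h4 hδ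
    calc ‖deriv X s‖ ≤ δ * W := hW s hs
      _ = W * δ := mul_comm _ _
      _ ≤ W * ‖X s - ρ i‖ := mul_le_mul_of_nonneg_left (hdist i s) hW0
  calc ∑ i, ‖deriv X s / (X s - ρ i)‖ ≤ ∑ _i : Fin P.natDegree, W :=
        Finset.sum_le_sum fun i _ => h3 i
    _ = P.natDegree * W := by
        rw [Finset.sum_const, Finset.card_univ, Fintype.card_fin, nsmul_eq_mul]

end Pool.Agent.H442
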