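import Pool.Agent.H442.Unr6
set_option autoImplicit false

/-!
The classes `{t, R(x) / x^j}` where `(t^2 - t + 1)^2 = q t (1 - t)`, `q = x R(x) M(x) / D(x)`,
`R ≡ X^j` modulo `D`: they are unramified at all discrete valuations.
-/

namespace Pool.Agent.H442

open Polynomial

open scoped WithZero

open Pool.Agent.TH826.MK (KQ symb unitPart Unramified val_one_of_sub_one)

open Pool.Agent.Helper537_Sym

section gen

variable {L : Type*} [Field L] (v : Valuation L ℤᵐ⁰)

theorem val_t7 {q t : L} (h : (t ^ 2 - t + 1) ^ 2 = q * (t * (1 - t))) (hq : v q ≤ 1) :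
    v t = 1 := by
  have e : t ^ 2 - t + 1 = 1 - t * (1 - t) := by ring
  rcases lt_trichotomy (v t) 1 with h1 | h1 | h1
  · exfalso
    have h2 : v (1 - t) = 1 := by
      rw [Valuation.map_sub_eq_of_lt_left, map_one]
      rwa [map_one]
    have h3 : v (t ^ 2 - t + 1) = 1 := by
      rw [e, Valuation.map_sub_eq_of_lt_left, map_one]
      rwa [map_one, map_mul, h2, mul_one]
    have h4 := congrArg v h
    rw [map_pow, h3, one_pow, map_mul, map_mul, h2, mul_one] at h4
    have h5 : v q * v t < 1 := by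
      calc v q * v t ≤ 1 * v t := mul_le_mul_left hq _
        _ = v t := one_mul _
        _ < 1 := h1
    exact h5.ne h4.symm
  · exact h1
  · exfalso
    have h0 : 0 < v t := zero_lt_one.trans h1
    have h2 : v (1 - t) = v t := by
      rw [Valuation.map_sub_eq_of_lt_right]
      rwa [map_one]
    have h3 : v (t ^ 2 - t + 1) = v t * v t := by
      rw [e, Valuation.map_sub_eq_of_lt_right, map_mul, h2]
      rw [map_one, map_mul, h2]
      exact one_lt_mul'' h1 h1
    have h4 := congrArg v h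
    rw [map_pow, h3, map_mul, map_mul, h2, pow_two] at h4
    have h5 : v t * v t = v q := mul_right_cancel₀ (mul_ne_zero h0.ne' h0.ne') h4
    have h6 : 1 < v t * v t := one_lt_mul'' h1 h1
    rw [h5] at h6
    exact absurd hq (not_le.2 h6)

theorem rel7_symm {q t : L} (h : (t ^ 2 - t + 1) ^ 2 = q * (t * (1 - t))) :
    ((1 - t) ^ 2 - (1 - t) + 1) ^ 2 = q * ((1 - t) * (1 - (1 - t))) := by
  linear_combination h

theorem mem_tors7 {q : L} {z : Lˣ} (h : ((z : L) ^ 2 - z + 1) ^ 2 = q * (z * (1 - z)))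
    (hq : v q < 1) (w : Lˣ) : sy z w ∈ unitPart v 2 := by
  have h1 := val_t7 v h hq.le
  have h2 := val_t7 v (rel7_symm h) hq.le
  have h3 : v ((z : L) ^ 2 - z + 1) < 1 := by
    have h4 := congrArg v h
    rw [map_pow, map_mul, map_mul, h1, h2, mul_one, mul_one] at h4
    rw [← h4] at hq
    by_contra hcon
    push Not at hcon
    exact absurd hq (not_lt.2 (one_le_pow₀ hcon))
  refine sy_mem_left_pow v (m := 6) (by norm_num) ?_
  have e : (z : L) ^ 6 - 1 = ((z : L) ^ 2 - z + 1) * (((z : L) ^ 3 - 1) * (z + 1)) := by ring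
  have h5 : v (((z : L) ^ 3 - 1) * (z + 1)) ≤ 1 := by
    rw [map_mul]
    refine mul_le_one' ((v.map_sub _ _).trans (max_le ?_ ?_)) ((v.map_add _ _).trans
      (max_le h1.le ?_))
    · rw [map_pow, h1, one_pow]
    · rw [map_one]
    · rw [map_one]
  rw [e, map_mul]
  exact mul_lt_one_of_lt_of_le h3 h5

/-- the points with a pole of `q` -/
theorem mem7_inf {q uq : L} {z x : Lˣ} {e : ℕ}
    (h : ((z : L) ^ 2 - z + 1) ^ 2 = q * (z * (1 - z))) (hq : q = (x : L) ^ (e + 1) * uq)
    (huq1 : v (uq - 1) < 1) (hx : 1 < v (x : L)) : sy z x ∈ unitPart v 2 := by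
  have hz0 : (z : L) ≠ 0 := z.ne_zero
  have hx0 : (x : L) ≠ 0 := x.ne_zero
  have huqv := val_one_of_sub_one huq1
  have huq0 : uq ≠ 0 := fun h0 => by rw [h0, map_zero] at huqv; exact zero_ne_one huqv
  have hvx1 : 1 < v (x : L) ^ (e + 1) := one_lt_pow₀ hx (by omega)
  rcases lt_trichotomy (v (z : L)) 1 with h1 | h1 | h1
  · -- `z x^(e+1)` is a one-unit
    have h2 : v (1 - (z : L) - 1) < 1 := by
      have e1 : 1 - (z : L) - 1 = -z := by ring
      rw [e1, Valuation.map_neg]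
      exact h1
    have h3 : v ((z : L) ^ 2 - z + 1 - 1) < 1 := by
      have e1 : (z : L) ^ 2 - z + 1 - 1 = -(z * (1 - z)) := by ring
      rw [e1, Valuation.map_neg, map_mul, val_one_of_sub_one h2, mul_one]
      exact h1
    have hv2 := val_one_of_sub_one h2
    have h20 : 1 - (z : L) ≠ 0 := fun h0 => by rw [h0, map_zero] at hv2; exact zero_ne_one hv2
    have h4 : v (((z * x ^ (e + 1) : Lˣ) : L) - 1) < 1 := by
      have h5 := one_mul' v (one_mul' v h3 h3) (one_mul' v (one_inv' v h2) (one_inv' v huq1))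
      have h6 : ((z * x ^ (e + 1) : Lˣ) : L) = ((z : L) ^ 2 - z + 1) * ((z : L) ^ 2 - z + 1) *
          ((1 - (z : L))⁻¹ * uq⁻¹) := by
        rw [← pow_two, h, hq, Units.val_mul, Units.val_pow_eq_pow_val]
        field_simp
      rw [h6]
      exact h5
    have e1 : z = (z * x ^ (e + 1)) * (x ^ (e + 1))⁻¹ := by group
    rw [e1, sy_mul_left, sy_inv_left, sy_pow_left, sy_self, smul_zero, neg_zero, add_zero]
    exact sy_mem_left v h4
  · have h2 : v (1 - (z : L)) ≤ 1 := (v.map_sub _ _).trans (max_le (by rw [map_one]) h1.le)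
    rcases h2.eq_or_lt with h3 | h3
    · exfalso
      have h4 := congrArg v h
      rw [map_pow, map_mul, map_mul, h1, h3, mul_one, mul_one, hq, map_mul, map_pow, huqv,
        mul_one] at h4
      have h5 : v ((z : L) ^ 2 - z + 1) ≤ 1 := by
        refine (v.map_add _ _).trans (max_le ((v.map_sub _ _).trans (max_le ?_ h1.le)) ?_)
        · rw [map_pow, h1, one_pow]
        · rw [map_one]
      have h6 : v ((z : L) ^ 2 - z + 1) ^ 2 ≤ 1 := pow_le_one₀ zero_le h5
      rw [h4] at h6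
      exact absurd hvx1 (not_lt.2 h6)
    · refine sy_mem_left v ?_
      rw [Valuation.map_sub_swap]
      exact h3
  · -- `x^(2 (e+1)) = z^4 * one-unit`
    obtain ⟨s, hs⟩ : ∃ s : L, s = (z : L)⁻¹ := ⟨_, rfl⟩
    have hs1 : v s < 1 := by
      rw [hs, map_inv₀]
      exact inv_lt_one_of_one_lt₀ h1
    have h2 : v (1 - s - 1) < 1 := by
      have e1 : 1 - s - 1 = -s := by ring
      rw [e1, Valuation.map_neg]
      exact hs1
    have h3 : v (s ^ 2 - s + 1 - 1) < 1 := by
      have e1 : s ^ 2 - s + 1 - 1 = -(s * (1 - s)) := by ring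
      rw [e1, Valuation.map_neg, map_mul, val_one_of_sub_one h2, mul_one]
      exact hs1
    have hv2 := val_one_of_sub_one h2
    have h20 : 1 - s ≠ 0 := fun h0 => by rw [h0, map_zero] at hv2; exact zero_ne_one hv2
    have hv3 := val_one_of_sub_one h3
    have h30 : s ^ 2 - s + 1 ≠ 0 := fun h0 => by
      rw [h0, map_zero] at hv3; exact zero_ne_one hv3
    have hzs : (z : L) = s⁻¹ := by rw [hs, inv_inv]
    have hs0 : s ≠ 0 := by rw [hs]; exact inv_ne_zero hz0
    -- the relation in terms of `s`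
    have h4 : q * (-(1 - s)) * s ^ 2 = (s ^ 2 - s + 1) ^ 2 := by
      rw [hzs] at h
      field_simp at h
      linear_combination -h
    have h5 : v (((x ^ (2 * (e + 1)) / z ^ 4 : Lˣ) : L) - 1) < 1 := by
      have h6 := one_mul' v (one_zpow' v h3 4) (one_mul' v (one_zpow' v h2 (-2))
        (one_zpow' v huq1 (-2)))
      have h7 : ((x ^ (2 * (e + 1)) / z ^ 4 : Lˣ) : L) = (s ^ 2 - s + 1) ^ (4 : ℤ) *
          ((1 - s) ^ (-2 : ℤ) * uq ^ (-2 : ℤ)) := by
        have h8 : (s ^ 2 - s + 1) ^ 4 = q ^ 2 * (1 - s) ^ 2 * s ^ 4 := by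
          have e2 : (s ^ 2 - s + 1) ^ 4 = ((s ^ 2 - s + 1) ^ 2) ^ 2 := by ring
          rw [e2, ← h4]
          ring
        have e3 : (s ^ 2 - s + 1) ^ (4 : ℤ) = (s ^ 2 - s + 1) ^ 4 := by norm_cast
        rw [e3, h8, hq, Units.val_div_eq_div_val, Units.val_pow_eq_pow_val,
          Units.val_pow_eq_pow_val, hzs, zpow_neg, zpow_neg, zpow_ofNat, zpow_ofNat, pow_mul']
        field_simp
      rw [h7]
      exact h6
    have h7 : sy z (x ^ (2 * (e + 1))) ∈ unitPart v 2 := by
      have e1 : x ^ (2 * (e + 1)) = (x ^ (2 * (e + 1)) / z ^ 4) * z ^ 4 := by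
        rw [div_mul_cancel]
      rw [e1, sy_mul_right, sy_pow_right, sy_self, smul_zero, add_zero]
      exact sy_mem_right v h5
    rw [sy_pow_right] at h7
    have h8 : sy z x = ((2 * (e + 1) : ℕ) : ℚ)⁻¹ • ((2 * (e + 1)) • sy z x) := by
      rw [← Nat.cast_smul_eq_nsmul ℚ (2 * (e + 1)) (sy z x), smul_smul, inv_mul_cancel₀, one_smul]
      exact_mod_cast (by omega : 2 * (e + 1) ≠ 0)
    rw [h8]
    exact Submodule.smul_mem _ _ h7

end gen

section main

variable {O L : Type*} [CommRing O] [Field L] [Algebra O L] {v : Valuation L ℤᵐ⁰}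

/-- `q` near a pole of `x` -/
theorem q_inf (hO : ∀ a : O, v (algebraMap O L a) ≤ 1) {D R M : O[X]}
    (hD : D.Monic) (hR : R.Monic) (hM : M.Monic)
    (hdeg : D.natDegree < 1 + R.natDegree + M.natDegree) {x r d : Lˣ}
    (hd : (d : L) = aeval (x : L) D) (hr : (r : L) = aeval (x : L) R)
    (hx : 1 < v (x : L)) : ∃ (e : ℕ) (uq : L), v (uq - 1) < 1 ∧
      (x : L) * r * aeval (x : L) M / d = (x : L) ^ (e + 1) * uq := by
  have hx0 : (x : L) ≠ 0 := x.ne_zero
  obtain ⟨e, he⟩ : ∃ e : ℕ, 1 + R.natDegree + M.natDegree = D.natDegree + (e + 1) :=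
    ⟨1 + R.natDegree + M.natDegree - D.natDegree - 1, by omega⟩
  have uD := aeval_inf hO hx hD
  have uR := aeval_inf hO hx hR
  have uM := aeval_inf hO hx hM
  refine ⟨e, (aeval (x : L) R / (x : L) ^ R.natDegree) *
    ((aeval (x : L) M / (x : L) ^ M.natDegree) * (aeval (x : L) D / (x : L) ^ D.natDegree)⁻¹),
    one_mul' v uR (one_mul' v uM (one_inv' v uD)), ?_⟩
  rw [hr, hd]
  have hD0 : aeval (x : L) D ≠ 0 := by rw [← hd]; exact d.ne_zero
  have e1 : (x : L) ^ (1 + R.natDegree + M.natDegree) = (x : L) ^ (D.natDegree + (e + 1)) := by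
    rw [he]
  rw [pow_add, pow_add, pow_one, pow_add] at e1
  have n1 : (x : L) ^ R.natDegree ≠ 0 := pow_ne_zero _ hx0
  have n2 : (x : L) ^ M.natDegree ≠ 0 := pow_ne_zero _ hx0
  have n3 : (x : L) ^ D.natDegree ≠ 0 := pow_ne_zero _ hx0
  rw [inv_div]
  field_simp
  linear_combination (aeval (x : L) R) * (aeval (x : L) M) * e1

theorem mem_of_x (hO : ∀ a : O, v (algebraMap O L a) ≤ 1) {R : O[X]} (hR : R.Monic) (j : ℕ)
    {x z r : Lˣ} (hr : (r : L) = aeval (x : L) R) (hx : 1 < v (x : L))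
    (h : sy z x ∈ unitPart v 2) : sy z (r / x ^ j) ∈ unitPart v 2 := by
  have uR := aeval_inf hO hx hR
  have hr1 : v (((r / x ^ R.natDegree : Lˣ) : L) - 1) < 1 := by
    rw [Units.val_div_eq_div_val, Units.val_pow_eq_pow_val, hr]
    exact uR
  have e3 : r / x ^ j = (r / x ^ R.natDegree) * (x ^ ((R.natDegree : ℤ) - j)) := by
    rw [zpow_sub, zpow_natCast, zpow_natCast, div_mul_eq_mul_div, div_eq_mul_inv, div_eq_mul_inv]
    group
  rw [e3, sy_mul_right, sy_zpow_right]
  exact Submodule.add_mem _ (sy_mem_right v hr1) (Submodule.smul_mem _ _ h)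

/-- The classes `{t, R(x)/x^j}` are unramified. -/
theorem mem7 (hO : ∀ a : O, v (algebraMap O L a) ≤ 1) {D R M Q : O[X]}
    (hD : D.Monic) (hR : R.Monic) (hM : M.Monic)
    (hdeg : D.natDegree < 1 + R.natDegree + M.natDegree) {j : ℕ}
    (hQ : X ^ j - R = D * Q) {x z r d : Lˣ}
    (hd : (d : L) = aeval (x : L) D) (hr : (r : L) = aeval (x : L) R)
    (h : ((z : L) ^ 2 - z + 1) ^ 2 = (x * r * aeval (x : L) M / d) * (z * (1 - z))) :
    sy z (r / x ^ j) ∈ unitPart v 2 := by
  refine mem6a hO hQ hd hr (M := M) (fun h1 => mem_tors7 v h h1 _) (fun h1 => val_t7 v h h1)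
    (fun hx => ?_)
  obtain ⟨e, uq, h1, h2⟩ := q_inf hO hD hR hM hdeg hd hr hx
  exact mem_of_x hO hR j hr hx (mem7_inf v h h2 h1 hx)

end main

end Pool.Agent.H442
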