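import Pool.Agent.H442.XL6
import Pool.Agent.H442.Lin7
set_option autoImplicit false

/-!
The loops in the `x`-plane over the loops in the `y`-plane and the approximate regulators, general
form.
-/

namespace Pool.Agent.H442

open Polynomial Metric Set Filter Topology MeasureTheory

open Pool.Agent.TH826.MK (circ norm_circ contDiff_circ circ_add_one wd)

open Pool.Agent.TH826.UH

open scoped Real

/-- The functions `z_b` and `u` on the loops with all constants of the estimates. -/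
structure WLp (z : Fin 2 → Fin 2 → ℝ → ℂ) (u : Fin 2 → ℝ → ℂ) (m : Fin 2 → Fin 2 → ℝ)
    (B W E : ℝ) : Prop where
  per : ∀ a s, u a (s + 1) = u a s
  nr : ∀ a, NZ (u a)
  nz : ∀ b a, NZ (z b a)
  wi : ∀ b a, wI (z b a) = 2 * π * m b a
  hB : 1 ≤ B
  hW : 0 ≤ W
  hE : 0 ≤ E
  rb : ∀ a s, ‖u a s‖ ≤ B
  rd : ∀ a, ∀ s ∈ Icc (0 : ℝ) 1, ‖deriv (u a) s‖ ≤ B * W
  zb : ∀ b a, ∀ s ∈ Icc (0 : ℝ) 1, |Real.log ‖z b a s‖| + ‖deriv (z b a) s / z b a s‖ ≤ E
  pb : ∀ b a, |pr (z b a) (u a)| ≤ E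

/-- Existence of the constants. -/
theorem exists_WLp {z : Fin 2 → Fin 2 → ℝ → ℂ} {u : Fin 2 → ℝ → ℂ} {m : Fin 2 → Fin 2 → ℝ}
    (hper : ∀ a s, u a (s + 1) = u a s) (nr : ∀ a, NZ (u a)) (nz : ∀ b a, NZ (z b a))
    (wi : ∀ b a, wI (z b a) = 2 * π * m b a) : ∃ B W E : ℝ, WLp z u m B W E := by
  obtain ⟨B, hB1, hB⟩ := exists_ub (ι := Fin 2) (P := fun a x => ∀ s, ‖u a s‖ ≤ x)
    (fun a x x' hx h s => (h s).trans hx) (fun a => bdd_per (nr a).smooth.continuous.norm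
      fun s => by rw [hper])
  obtain ⟨W, hW1, hW⟩ := exists_ub (ι := Fin 2)
    (P := fun a x => ∀ s ∈ Icc (0 : ℝ) 1, ‖deriv (u a) s‖ ≤ x)
    (fun a x x' hx h s hs => (h s hs).trans hx) (fun a => by
      obtain ⟨C, hC⟩ := (isCompact_Icc (a := (0 : ℝ)) (b := 1)).bddAbove_image
        (((nr a).smooth.continuous_deriv (by norm_num)).norm.continuousOn)
      exact ⟨C, fun s hs => hC ⟨s, hs, rfl⟩⟩)
  obtain ⟨E, hE1, hE⟩ := exists_ub (ι := Fin 2 × Fin 2)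
    (P := fun k x => (∀ s ∈ Icc (0 : ℝ) 1, |Real.log ‖z k.1 k.2 s‖| +
      ‖deriv (z k.1 k.2) s / z k.1 k.2 s‖ ≤ x) ∧ |pr (z k.1 k.2) (u k.2)| ≤ x)
    (fun a x x' hx h => ⟨fun s hs => (h.1 s hs).trans hx, h.2.trans hx⟩) (fun k => by
      obtain ⟨E, -, hE⟩ := exists_E (nz k.1 k.2)
      exact ⟨max E |pr (z k.1 k.2) (u k.2)|, fun s hs => (hE s hs).trans (le_max_left _ _),
        le_max_right _ _⟩)
  refine ⟨B, W, E, hper, nr, nz, wi, hB1, zero_le_one.trans hW1, zero_le_one.trans hE1, hB,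
    fun a s hs => (hW a s hs).trans ?_, fun b a => (hE (b, a)).1, fun b a => (hE (b, a)).2⟩
  have h1 : 0 ≤ W := zero_le_one.trans hW1
  calc W = 1 * W := (one_mul W).symm
    _ ≤ B * W := mul_le_mul_of_nonneg_right hB1 h1

/-- The loop in the `x`-plane with the approximate regulators. -/
theorem xloop7 {z : Fin 2 → Fin 2 → ℝ → ℂ} {u : Fin 2 → ℝ → ℂ} {m : Fin 2 → Fin 2 → ℝ}
    {B W E : ℝ} (hY : WLp z u m B W E)
    {r : ℕ} {p T₀ K : ℝ} {D : ℤ[X]} {R : Fin r → ℤ[X]} {M : ℤ[X]} {i : Fin r} (hT₀ : 0 < T₀)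
    (hK : E * (1 + W * (1 + D.natDegree + (∑ k, ((R k).natDegree : ℝ)) + M.natDegree)) ≤ K)
    (H : DiscData6 T₀ B p D R M i) (α : Fin 2) :
    ∃ (Xs : ℝ → ℂ) (x a : ℝ) (b : Fin r → ℝ), ContDiff ℝ 2 Xs ∧ (∀ s, Xs (s + 1) = Xs s) ∧
      (∀ s, (cx D).eval (Xs s) ≠ 0) ∧
      (∀ s, (cx (X * (∏ k, R k) * M)).eval (Xs s) = u α s * (cx D).eval (Xs s)) ∧
      NZ Xs ∧ (∀ k, NZ fun s => (cx (R k)).eval (Xs s)) ∧ T₀ ≤ x ∧
      (∀ k, k ≠ i → (p - 1 / 2) * x ≤ b k) ∧ a ≤ (p - 3 / 4) * x ∧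
      (∀ β, |pr (z β α) Xs + 2 * π * m β α * x| ≤ K) ∧
      (∀ β k, k ≠ i → |pr (z β α) (fun s => (cx (R k)).eval (Xs s)) +
        2 * π * m β α * b k| ≤ K) ∧
      ∀ β, |pr (z β α) (fun s => (cx (R i)).eval (Xs s)) +
        2 * π * m β α * (a - ∑ k ∈ Finset.univ.erase i, b k)| ≤ K := by
  classical
  obtain ⟨ξ, δ, U, hδ, hU, hx⟩ := H
  have hsub' : ball ξ δ ⊆ ball ξ (2 * δ) := ball_subset_ball (by linarith)
  obtain ⟨Y, hYcd, hYper, hYd, hYW, hYm⟩ := exists_xloop (hY.nr α) (hY.per α)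
    hY.hB (hY.rb α) (hY.rd α) (D := cx D)
    (R := cx (R i)) (G := cx ((∏ k ∈ Finset.univ.erase i, R k) * M)) hδ hU
    (fun x h => (hx x h).1) (fun x h => (hx x h).2.2.2.2.2.1) (fun x h => (hx x h).2.2.2.2.2.2.1)
  have hYb : ∀ s, Y s ∈ ball ξ (2 * δ) := fun s => hsub' (mem_ball_iff_norm.2 (hYd s))
  have hx0 : ∀ x ∈ ball ξ (2 * δ), x ≠ 0 := by
    intro x h h0
    have h1 := (hx x h).2.1
    rw [h0, norm_zero, Real.log_zero] at h1
    linarith
  have hEW : 0 ≤ E * W := mul_nonneg hY.hE hY.hW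
  -- the polynomials without zeros in the disc
  have hpol : ∀ P : ℤ[X], (∀ x ∈ ball ξ (2 * δ), (cx P).eval x ≠ 0) →
      NZ (fun s => (cx P).eval (Y s)) ∧ ∀ β, |pr (z β α)
        (fun s => (cx P).eval (Y s)) + 2 * π * m β α * Real.log ‖(cx P).eval (Y 0)‖| ≤
          E * W * P.natDegree := by
    intro P hP
    obtain ⟨h1, h2⟩ := ld_poly hYcd hδ hYd hYW hP
    refine ⟨h1, fun β => ?_⟩
    have h3 := pr_approx (hY.nz β α) h1 h2 (hY.zb β α)
    rw [hY.wi] at h3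
    have e : Real.log ‖(cx P).eval (Y 0)‖ * (2 * π * m β α) =
        2 * π * m β α * Real.log ‖(cx P).eval (Y 0)‖ := by
      ring
    rw [e] at h3
    refine h3.trans ?_
    have h4 : ((cx P).natDegree : ℝ) ≤ P.natDegree := by
      unfold cx
      exact_mod_cast natDegree_map_le
    calc (cx P).natDegree * W * E = E * W * (cx P).natDegree := by ring
      _ ≤ E * W * P.natDegree := mul_le_mul_of_nonneg_left h4 hEW
  have hcX : ∀ x, (cx X).eval x = x := by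
    intro x
    unfold cx
    rw [Polynomial.map_X, eval_X]
  obtain ⟨nX, eX⟩ := hpol X (fun x h => by rw [hcX]; exact hx0 x h)
  simp only [hcX, natDegree_X, Nat.cast_one, mul_one] at nX eX
  obtain ⟨nD, eD⟩ := hpol D (fun x h => (hx x h).2.2.1)
  obtain ⟨nM, eM⟩ := hpol M (fun x h => (hx x h).2.2.2.2.1)
  have hRk := fun (k : Fin r) (hk : k ≠ i) => hpol (R k) (fun x h => (hx x h).2.2.2.1 k hk)
  have nR : NZ fun s => (cx (R i)).eval (Y s) := by
    refine ⟨?_, fun s h => ?_⟩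
    · have e : (fun s => (cx (R i)).eval (Y s)) = fun s =>
          ∑ l ∈ Finset.range ((cx (R i)).natDegree + 1), (cx (R i)).coeff l * (Y s) ^ l := by
        funext s
        rw [Polynomial.eval_eq_sum_range]
      rw [e]
      exact ContDiff.sum fun l _ => contDiff_const.mul (hYcd.pow l)
    · have h1 := hYm s
      rw [h, mul_zero, zero_mul] at h1
      exact mul_ne_zero ((hY.nr α).ne_zero s) (nD.ne_zero s) h1.symm
  have nRk : ∀ k, NZ fun s => (cx (R k)).eval (Y s) := by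
    intro k
    by_cases hk : k = i
    · rw [hk]
      exact nR
    · exact (hRk k hk).1
  have hprod : ∀ s, (cx ((∏ k ∈ Finset.univ.erase i, R k) * M)).eval (Y s) =
      (∏ k ∈ Finset.univ.erase i, (cx (R k)).eval (Y s)) * (cx M).eval (Y s) := by
    intro s
    rw [cx_mul, cx_prod, eval_mul, eval_prod]
  have hsum : (∑ k ∈ Finset.univ.erase i, ((R k).natDegree : ℝ)) ≤ ∑ k, ((R k).natDegree : ℝ) :=
    Finset.sum_le_sum_of_subset_of_nonneg (Finset.erase_subset _ _)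
      (fun k _ _ => Nat.cast_nonneg _)
  have hs0 : (0 : ℝ) ≤ ∑ k ∈ Finset.univ.erase i, ((R k).natDegree : ℝ) :=
    Finset.sum_nonneg fun k _ => Nat.cast_nonneg _
  have hD0 : (0 : ℝ) ≤ D.natDegree := Nat.cast_nonneg _
  have hM0 : (0 : ℝ) ≤ M.natDegree := Nat.cast_nonneg _
  have hE0 := hY.hE
  have hK1 : ∀ t : ℝ, t ≤ 1 + D.natDegree + (∑ k, ((R k).natDegree : ℝ)) + M.natDegree →
      E + E * W * t ≤ K := by
    intro t ht
    refine le_trans ?_ hK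
    have h1 : E * W * t ≤ E * W * (1 + D.natDegree + (∑ k, ((R k).natDegree : ℝ)) +
        M.natDegree) := mul_le_mul_of_nonneg_left ht hEW
    linarith
  refine ⟨Y, Real.log ‖Y 0‖, Real.log ‖(cx D).eval (Y 0)‖ - Real.log ‖Y 0‖ -
    Real.log ‖(cx M).eval (Y 0)‖, fun k => Real.log ‖(cx (R k)).eval (Y 0)‖, hYcd, hYper,
    nD.ne_zero, fun s => ?_, nX, nRk, (hx _ (hYb 0)).2.1,
    fun k hk => (hx _ (hYb 0)).2.2.2.2.2.2.2.1 k hk, ?_, fun β => ?_, fun β k hk => ?_,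
    fun β => ?_⟩
  · have h1 := hYm s
    rw [hprod] at h1
    rw [cx_mul, cx_mul, ← Finset.mul_prod_erase _ _ (Finset.mem_univ i), cx_mul, cx_prod,
      eval_mul, eval_mul, eval_mul, eval_prod, hcX]
    linear_combination h1
  · have := (hx _ (hYb 0)).2.2.2.2.2.2.2.2
    linarith
  · refine (eX β).trans ?_
    have := hK1 1 (by linarith)
    linarith
  · refine ((hRk k hk).2 β).trans ?_
    have h1 : ((R k).natDegree : ℝ) ≤ ∑ k, ((R k).natDegree : ℝ) :=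
      Finset.single_le_sum (f := fun k => ((R k).natDegree : ℝ)) (fun k _ => Nat.cast_nonneg _)
        (Finset.mem_univ k)
    have := hK1 (R k).natDegree (by linarith)
    linarith
  · -- the class of `R_i`
    have hz := hY.nz β α
    have e1 : (fun s => Y s * (cx (R i)).eval (Y s) * ((∏ k ∈ Finset.univ.erase i,
        (cx (R k)).eval (Y s)) * (cx M).eval (Y s))) =
        fun s => u α s * (cx D).eval (Y s) := by
      funext s
      rw [← hprod]
      exact hYm s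
    have e2 := congrArg (pr (z β α)) e1
    rw [pr_mul hz (nX.mul nR) ((NZ.prod _ nRk).mul nM), pr_mul hz nX nR,
      pr_mul hz (NZ.prod _ nRk) nM, pr_prod _ hz nRk, pr_mul hz (hY.nr α) nD] at e2
    have e3 : pr (z β α) (fun s => (cx (R i)).eval (Y s)) +
        2 * π * m β α * (Real.log ‖(cx D).eval (Y 0)‖ - Real.log ‖Y 0‖ -
          Real.log ‖(cx M).eval (Y 0)‖ - ∑ k ∈ Finset.univ.erase i,
            Real.log ‖(cx (R k)).eval (Y 0)‖) =
        pr (z β α) (u α) +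
        (pr (z β α) (fun s => (cx D).eval (Y s)) +
          2 * π * m β α * Real.log ‖(cx D).eval (Y 0)‖) -
        (pr (z β α) Y + 2 * π * m β α * Real.log ‖Y 0‖) -
        (pr (z β α) (fun s => (cx M).eval (Y s)) +
          2 * π * m β α * Real.log ‖(cx M).eval (Y 0)‖) -
        ∑ k ∈ Finset.univ.erase i, (pr (z β α)
          (fun s => (cx (R k)).eval (Y s)) +
            2 * π * m β α * Real.log ‖(cx (R k)).eval (Y 0)‖) := by
      rw [Finset.sum_add_distrib, ← Finset.mul_sum]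
      linear_combination e2
    rw [e3]
    have h1 : |∑ k ∈ Finset.univ.erase i, (pr (z β α)
          (fun s => (cx (R k)).eval (Y s)) +
            2 * π * m β α * Real.log ‖(cx (R k)).eval (Y 0)‖)| ≤
        E * W * ∑ k ∈ Finset.univ.erase i, ((R k).natDegree : ℝ) := by
      refine (Finset.abs_sum_le_sum_abs _ _).trans ?_
      rw [Finset.mul_sum]
      exact Finset.sum_le_sum fun k hk => (hRk k (Finset.ne_of_mem_erase hk)).2 β
    have h2 := eX β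
    have h3 := eD β
    have h4 := eM β
    have h5 := hY.pb β α
    have h6 := hK1 (1 + D.natDegree + (∑ k ∈ Finset.univ.erase i, ((R k).natDegree : ℝ)) +
      M.natDegree) (by linarith)
    rw [abs_le] at h1 h2 h3 h4 h5 ⊢
    constructor <;> linarith [h1.1, h1.2, h2.1, h2.2, h3.1, h3.2, h4.1, h4.2, h5.1, h5.2]

/-- Injectivity of the regulators. -/
theorem mat7 {z : Fin 2 → Fin 2 → ℝ → ℂ} {u : Fin 2 → ℝ → ℂ} {m : Fin 2 → Fin 2 → ℝ}
    (hm : ∀ (f : Fin 2 → ℝ) (N : ℝ), (∀ a, |∑ b, m b a * f b| ≤ N) → ∀ b, |f b| ≤ N)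
    {B W E : ℝ} (hY : WLp z u m B W E)
    {r : ℕ} (hr : 0 < r) {p T₀ K : ℝ} (hp : 1 ≤ p) {D : ℤ[X]} {R : Fin r → ℤ[X]} {M : ℤ[X]}
    (hT₀ : 0 < T₀) (hT : (r + 1) * K * (8 * (1 + 2 * p)) ≤ π * T₀)
    (hK : E * (1 + W * (1 + D.natDegree + (∑ k, ((R k).natDegree : ℝ)) + M.natDegree)) ≤ K)
    (H : ∀ i, DiscData6 T₀ B p D R M i) {j : Fin r → ℕ} (hj : ∀ k, p ≤ j k) :
    ∃ Xs : Fin 2 → Fin r → ℝ → ℂ, (∀ α i, ContDiff ℝ 2 (Xs α i)) ∧
      (∀ α i s, Xs α i (s + 1) = Xs α i s) ∧ (∀ α i s, (cx D).eval (Xs α i s) ≠ 0) ∧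
      (∀ α i s, (cx (X * (∏ k, R k) * M)).eval (Xs α i s) =
        u α s * (cx D).eval (Xs α i s)) ∧
      (∀ α i, NZ (Xs α i)) ∧ (∀ α i k, NZ fun s => (cx (R k)).eval (Xs α i s)) ∧
      ∀ C : Fin 2 → Fin r → ℝ, (∀ α i, ∑ β, ∑ k, C β k * (pr (z β α)
        (fun s => (cx (R k)).eval (Xs α i s)) - j k * pr (z β α) (Xs α i)) =
          0) → ∀ β k, C β k = 0 := by
  classical
  choose Xs x a b h1 h2 h3 h4 h5 h6 h7 h8 h9 h10 h11 h12 using
    fun (α : Fin 2) (i : Fin r) => xloop7 hY hT₀ hK (H i) α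
  refine ⟨Xs, h1, h2, h3, h4, h5, h6, fun C hC => ?_⟩
  have hK0 : 0 ≤ K := by
    refine le_trans ?_ hK
    have h13 : (0 : ℝ) ≤ ∑ k, ((R k).natDegree : ℝ) := Finset.sum_nonneg fun k _ =>
      Nat.cast_nonneg _
    have := hY.hE
    have := hY.hW
    positivity
  exact lin7_full hm (J' := fun k => (j k : ℝ)) hp hr hK0 hT₀ hT h7 h8 h9 hj
    (PX := fun β α i => pr (z β α) (Xs α i))
    (P := fun β α i k => pr (z β α) (fun s => (cx (R k)).eval (Xs α i s)))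
    (fun β α i => h10 α i β) (fun β α i k hk => h11 α i β k hk) (fun β α i => h12 α i β)
    hC

end Pool.Agent.H442
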