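import Pool.Agent.H442.Fin6
import Pool.Agent.H442.XL7
import Pool.Agent.H442.Unr7
set_option autoImplicit false

/-!
The curves `D(x) (t^2 - t + 1)^2 = B(x) t (1 - t)`: irreducibility and the classes
`{t, R(x)/x^j}`, `{1 - t, R(x)/x^j}`.
-/

namespace Pool.Agent.H442

open Polynomial

open scoped WithZero

open Pool.Agent.TH826.MK (Torus KQ symb pairing circ norm_circ contDiff_circ circ_add_one
  Unramified unitPart val_le_one_of_integral)

open Pool.Agent.TH826.UH

open Pool.Agent.Helper537_Sym (sy)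

section quartic

theorem cubic_zero {k : Type*} [Field k] {a b c d : k}
    (h : C a * X ^ 3 + C b * X ^ 2 + C c * X + C d = (0 : k[X])) :
    a = 0 ∧ b = 0 ∧ c = 0 ∧ d = 0 := by
  have h0 := congrArg (fun p => coeff p 0) h
  have h1 := congrArg (fun p => coeff p 1) h
  have h2 := congrArg (fun p => coeff p 2) h
  have h3 := congrArg (fun p => coeff p 3) h
  simp [coeff_X, coeff_C] at h0 h1 h2 h3
  exact ⟨h3, h2, h1, h0⟩

theorem quad_eq {k : Type*} [Field k] {f : k[X]} (hf : f.Monic) (hd : f.natDegree = 2) :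
    f = X ^ 2 + C (f.coeff 1) * X + C (f.coeff 0) := by
  have h1 := f.as_sum_range_C_mul_X_pow
  rw [hd] at h1
  have h2 : f.coeff 2 = 1 := by
    have := hf.coeff_natDegree
    rwa [hd] at this
  simp only [Finset.sum_range_succ, Finset.sum_range_zero, pow_zero, mul_one, pow_one, zero_add,
    h2, C_1, one_mul] at h1
  conv_lhs => rw [h1]
  ring

theorem quart_irr {k : Type*} [Field k] {q : k} (h1 : ¬ IsSquare (q * (q + 4)))
    (h3 : ¬ IsSquare (9 - 4 * q)) :
    Irreducible (X ^ 4 + C (-2) * X ^ 3 + C (3 + q) * X ^ 2 + C (-2 - q) * X + 1 : k[X]) := by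
  obtain ⟨F, hFe⟩ : ∃ F : k[X], F = X ^ 4 + C (-2) * X ^ 3 + C (3 + q) * X ^ 2 +
    C (-2 - q) * X + 1 := ⟨_, rfl⟩
  have hF : F.Monic := by
    rw [hFe]
    monicity!
  have hFd : F.natDegree = 4 := by
    rw [hFe]
    compute_degree!
  rw [← hFe, hF.irreducible_iff_natDegree']
  refine ⟨fun h => by rw [h, natDegree_one] at hFd; omega, fun f g hf hg hfg hgd => ?_⟩
  rw [hFd, Finset.mem_Ioc] at hgd
  have hd : f.natDegree + g.natDegree = 4 := by rw [← hf.natDegree_mul hg, hfg, hFd]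
  rcases (by omega : g.natDegree = 1 ∨ g.natDegree = 2) with h | h
  · have hga := hg.eq_X_add_C h
    obtain ⟨a, ha⟩ : ∃ a : k, a = g.coeff 0 := ⟨_, rfl⟩
    rw [← ha] at hga
    have hroot : F.eval (-a) = 0 := by
      rw [← hfg, eval_mul, hga, eval_add, eval_X, eval_C, neg_add_cancel, mul_zero]
    rw [hFe] at hroot
    simp only [eval_add, eval_mul, eval_pow, eval_X, eval_C, eval_one] at hroot
    refine h1 ⟨2 * (-a - a ^ 2) - (2 + q), ?_⟩
    linear_combination (-4) * hroot
  · have hfd : f.natDegree = 2 := by omega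
    have e1 := quad_eq hf hfd
    have e2 := quad_eq hg h
    obtain ⟨a, ha⟩ : ∃ a : k, a = f.coeff 1 := ⟨_, rfl⟩
    obtain ⟨b, hb⟩ : ∃ b : k, b = f.coeff 0 := ⟨_, rfl⟩
    obtain ⟨c, hc⟩ : ∃ c : k, c = g.coeff 1 := ⟨_, rfl⟩
    obtain ⟨d, hd'⟩ : ∃ d : k, d = g.coeff 0 := ⟨_, rfl⟩
    rw [← ha, ← hb] at e1
    rw [← hc, ← hd'] at e2
    have key : C (a + c + 2) * X ^ 3 + C (b + d + a * c - (3 + q)) * X ^ 2 +
        C (a * d + b * c + (2 + q)) * X + C (b * d - 1) = (0 : k[X]) := by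
      have h5 := sub_eq_zero.2 hfg
      rw [← h5, e1, e2, hFe]
      simp only [C_add, C_sub, C_mul, C_neg, C_1]
      ring
    obtain ⟨k3, k2, k1, k0⟩ := cubic_zero key
    have h6 : (a + 1) * (d - b - (a + 1)) = 0 := by
      linear_combination k2 + k1 + (-a - b) * k3
    rcases mul_eq_zero.1 h6 with h7 | h7
    · refine h1 ⟨b - d, ?_⟩
      have ha1 : a = -1 := by linear_combination h7
      have hc1 : c = -1 := by linear_combination k3 - h7
      have hq : q = b + d - 2 := by
        rw [ha1, hc1] at k2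
        linear_combination -k2
      rw [hq]
      linear_combination 4 * k0
    · refine h3 ⟨2 * (b + d) - 1, ?_⟩
      have ha1 : a = d - b - 1 := by linear_combination -h7
      have hc1 : c = b - d - 1 := by linear_combination k3 + h7
      have hq : q = b + d + (d - b - 1) * (b - d - 1) - 3 := by
        rw [ha1, hc1] at k2
        linear_combination -k2
      rw [hq]
      linear_combination (-16) * k0

end quartic

variable {K : Type*} [Field K]

/-- the polynomial `D(x) (t^2 - t + 1)^2 - B(x) t (1 - t)` -/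
noncomputable def QG (B D : K[X]) : K[X][X] := C D * (X ^ 2 - X + 1) ^ 2 - C B * (X * (1 - X))

theorem QG_eq (B D : K[X]) : QG B D = C D * X ^ 4 + C (-(2 * D)) * X ^ 3 + C (3 * D + B) * X ^ 2 +
    C (-(2 * D) - B) * X + C D := by
  unfold QG
  simp only [C_add, C_sub, C_mul, C_neg, C_ofNat]
  ring

theorem QG_natDegree {B D : K[X]} (hD : D ≠ 0) : (QG B D).natDegree = 4 := by
  rw [QG_eq]
  compute_degree!

theorem QG_eval₂ {S : Type*} [CommRing S] (φ : K[X] →+* S) (B D : K[X]) (t : S) :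
    (QG B D).eval₂ φ t = φ D * (t ^ 2 - t + 1) ^ 2 - φ B * (t * (1 - t)) := by
  unfold QG
  rw [eval₂_sub, eval₂_mul, eval₂_mul, eval₂_mul, eval₂_C, eval₂_C, eval₂_pow, eval₂_add,
    eval₂_sub, eval₂_sub, eval₂_pow, eval₂_X, eval₂_one]

theorem QG_primitive {B D : K[X]} (hcop : IsCoprime B D) : (QG B D).IsPrimitive := by
  intro r hr
  rw [C_dvd_iff_dvd_coeff, QG_eq] at hr
  have h0 := hr 0
  have h1 := hr 1
  simp only [coeff_add, coeff_C_mul, coeff_X_pow, coeff_X, coeff_C] at h0 h1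
  norm_num at h0 h1
  have h3 : r ∣ B := by
    have h4 : B = -(-(2 * D) - B) - 2 * D := by ring
    rw [h4]
    exact dvd_sub ((dvd_neg).2 h1) (h0.mul_left _)
  exact hcop.isUnit_of_dvd' h3 h0

theorem not_sq_of {k : Type*} [Field k] [Algebra K[X] k] [IsFractionRing K[X] k] {S D π : K[X]}
    (hπ : Prime π) (h1 : π ∣ S) (h2 : ¬ π ^ 2 ∣ S) {T : k}
    (hT : T * algebraMap K[X] k D ^ 2 = algebraMap K[X] k S) : ¬ IsSquare T := by
  rintro ⟨y, hy⟩
  have h3 : (y * algebraMap K[X] k D) ^ 2 = algebraMap K[X] k S := by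
    rw [← hT, hy]
    ring
  obtain ⟨y₀, hy₀⟩ := IsIntegrallyClosed.exists_algebraMap_eq_of_isIntegral_pow (R := K[X])
    (K := k) (x := y * algebraMap K[X] k D) (n := 2) (by norm_num)
    (by rw [h3]; exact isIntegral_algebraMap)
  rw [← hy₀, ← map_pow] at h3
  have h4 : y₀ ^ 2 = S := IsFractionRing.injective K[X] k h3
  rw [← h4] at h1 h2
  exact h2 (pow_dvd_pow_of_dvd (hπ.dvd_of_dvd_pow h1) 2)

theorem QG_irr_aux [CharZero K] (k : Type*) [Field k] [Algebra K[X] k] [IsFractionRing K[X] k]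
    {B D : K[X]} (hcop : IsCoprime B D) (hB : Squarefree B)
    (hD : Squarefree D) {a d : K} (ha : B.eval a = 0) (hd : D.eval d = 0) :
    Irreducible (QG B D) := by
  have hD0 : D ≠ 0 := hD.ne_zero
  have hDa : D.eval a ≠ 0 := by
    intro h
    obtain ⟨u, w, huw⟩ := hcop
    have h1 := congrArg (eval a) huw
    rw [eval_add, eval_mul, eval_mul, h, ha, eval_one] at h1
    simp at h1
  have hBd : B.eval d ≠ 0 := by
    intro h
    obtain ⟨u, w, huw⟩ := hcop
    have h1 := congrArg (eval d) huw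
    rw [eval_add, eval_mul, eval_mul, h, hd, eval_one] at h1
    simp at h1
  have hsq : ∀ {b : K} {S T : K[X]}, Squarefree S → S.eval b = 0 → T.eval b ≠ 0 →
      ¬ (X - C b) ^ 2 ∣ S * T := by
    intro b S T hS _ hT h
    have hpr : Prime (X - C b : K[X]) := prime_X_sub_C b
    have h1 : ¬ (X - C b) ∣ T := by
      rw [dvd_iff_isRoot]
      exact hT
    have h2 := hpr.pow_dvd_of_dvd_mul_right 2 h1 h
    rw [pow_two] at h2
    exact hpr.not_isUnit (hS _ h2)
  obtain ⟨B', hB'⟩ : ∃ B' : k, B' = algebraMap K[X] k B := ⟨_, rfl⟩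
  obtain ⟨D', hD'⟩ : ∃ D' : k, D' = algebraMap K[X] k D := ⟨_, rfl⟩
  have hD'0 : D' ≠ 0 := by
    rw [hD']
    exact fun h => hD0 ((IsFractionRing.injective K[X] k) (by rw [h, map_zero]))
  have h1 : ¬ IsSquare (B' / D' * (B' / D' + 4)) := by
    refine not_sq_of (D := D) (S := B * (B + 4 * D)) (prime_X_sub_C a) ?_ (hsq hB ha ?_) ?_
    · exact (dvd_iff_isRoot.2 ha).mul_right _
    · rw [eval_add, ha, zero_add, eval_mul]
      refine mul_ne_zero ?_ hDa
      have : (4 : K[X]) = C 4 := (map_ofNat C 4).symm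
      rw [this, eval_C]
      norm_num
    · rw [map_mul, map_add, map_mul, map_ofNat, ← hB', ← hD']
      field_simp
  have h3 : ¬ IsSquare (9 - 4 * (B' / D')) := by
    refine not_sq_of (D := D) (S := D * (9 * D - 4 * B)) (prime_X_sub_C d) ?_ (hsq hD hd ?_) ?_
    · exact (dvd_iff_isRoot.2 hd).mul_right _
    · rw [eval_sub, eval_mul, eval_mul, hd, mul_zero, zero_sub]
      refine neg_ne_zero.2 (mul_ne_zero ?_ hBd)
      have : (4 : K[X]) = C 4 := (map_ofNat C 4).symm
      rw [this, eval_C]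
      norm_num
    · rw [map_mul, map_sub, map_mul, map_mul, map_ofNat, map_ofNat, ← hB', ← hD']
      field_simp
  rw [(QG_primitive hcop).irreducible_iff_irreducible_map_fraction_map (K := k)]
  have h4 : (QG B D).map (algebraMap K[X] k) = C D' * (X ^ 4 + C (-2) * X ^ 3 +
      C (3 + B' / D') * X ^ 2 + C (-2 - B' / D') * X + 1 : k[X]) := by
    have h5 : C D' * C (B' / D') = C B' := by
      rw [← C_mul, mul_div_cancel₀ _ hD'0]
    unfold QG
    simp only [Polynomial.map_sub, Polynomial.map_mul, Polynomial.map_pow, Polynomial.map_add,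
      map_X, map_C, Polynomial.map_one, ← hB', ← hD']
    rw [← h5]
    simp only [C_add, C_sub, C_neg, C_ofNat]
    ring
  rw [h4, irreducible_isUnit_mul (isUnit_C.2 (isUnit_iff_ne_zero.2 hD'0))]
  exact quart_irr h1 h3

/-- Irreducibility. -/
theorem QG_irr [CharZero K] {B D : K[X]} (hcop : IsCoprime B D) (hB : Squarefree B)
    (hD : Squarefree D) {a d : K} (ha : B.eval a = 0) (hd : D.eval d = 0) :
    Irreducible (QG B D) :=
  QG_irr_aux (FractionRing K[X]) hcop hB hD ha hd

section cls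

variable {B D : K[X]} {L : Type*} [Field L] [Algebra (AdjoinRoot (QG B D)) L]

theorem yQ_eq : pA (G := QG B D) L D * (yA (QG B D) L ^ 2 - yA (QG B D) L + 1) ^ 2 =
    pA (G := QG B D) L B * (yA (QG B D) L * (1 - yA (QG B D) L)) := by
  have h1 := AdjoinRoot.eval₂_root (QG B D)
  have h2 := congrArg (algebraMap (AdjoinRoot (QG B D)) L) h1
  rw [hom_eval₂, map_zero, QG_eval₂] at h2
  exact sub_eq_zero.1 h2

variable [IsFractionRing (AdjoinRoot (QG B D)) L]

theorem yQ_ne (hD : D ≠ 0) : yA (QG B D) L ≠ 0 ∧ 1 - yA (QG B D) L ≠ 0 := by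
  have h1 := yQ_eq (B := B) (D := D) (L := L)
  have h2 := pA_ne_zero (G := QG B D) (L := L) (by rw [QG_natDegree hD]; norm_num) hD
  constructor
  · intro h
    rw [h] at h1
    apply h2
    linear_combination h1
  · intro h
    have h3 : yA (QG B D) L = 1 := by linear_combination -h
    rw [h3] at h1
    apply h2
    linear_combination h1

/-- The classes are unramified. -/
theorem cls7 {O : Type*} [CommRing O] [Algebra O K] (hO : ∀ a : O, IsIntegral ℤ a)
    {D₀ R M Q : O[X]} (hD : D₀.Monic) (hR : R.Monic) (hM : M.Monic)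
    (hdeg : D₀.natDegree < 1 + R.natDegree + M.natDegree) {j : ℕ} (hQ : X ^ j - R = D₀ * Q)
    {R' : K[X]} (hB : B = X * R' * M.map (algebraMap O K))
    (hD' : D = D₀.map (algebraMap O K)) (hR' : R' = R.map (algebraMap O K)) (z x r : Lˣ)
    (hz : pA (G := QG B D) L D * ((z : L) ^ 2 - z + 1) ^ 2 =
      pA (G := QG B D) L B * (z * (1 - z)))
    (hx : (x : L) = pA (G := QG B D) L X)
    (hr : (r : L) = pA (G := QG B D) L R') :
    sy z (r / x ^ j) ∈ Unramified L 2 := by
  unfold Unramified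
  simp only [Submodule.mem_iInf]
  intro v _
  set φ := pA (G := QG B D) L with hφ
  set ψ : O →+* L := φ.comp (C.comp (algebraMap O K)) with hψ
  let _ : Algebra O L := ψ.toAlgebra
  have hval : ∀ a : O, v (algebraMap O L a) ≤ 1 := by
    intro a
    refine val_le_one_of_integral v ?_
    exact map_isIntegral_int ψ (hO a)
  have hae : ∀ P : O[X], φ (P.map (algebraMap O K)) = aeval (x : L) P := by
    intro P
    rw [hx, aeval_def]
    have e : P.map (algebraMap O K) = P.eval₂ (C.comp (algebraMap O K)) X := by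
      rw [← eval₂_map, eval₂_C_X]
    rw [e, hom_eval₂]
    rfl
  have hDm : D.Monic := by rw [hD']; exact hD.map _
  have hd0 : φ D ≠ 0 := pA_ne_zero (by rw [QG_natDegree hDm.ne_zero]; norm_num) hDm.ne_zero
  have hBx : φ B = x * r * aeval (x : L) M := by
    conv_lhs => rw [hB]
    rw [map_mul, map_mul, ← hx, ← hr, hae]
  refine mem7 hval hD hR hM hdeg hQ (d := Units.mk0 _ hd0) ?_ ?_ ?_
  · rw [Units.val_mk0]
    conv_lhs => rw [hD']
    rw [hae]
  · rw [hr, hR', hae]
  · rw [Units.val_mk0, ← hBx, div_mul_eq_mul_div, eq_div_iff hd0, ← hz]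
    ring

end cls

end Pool.Agent.H442
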