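import Pool.Agent.H442.Asym3
set_option autoImplicit false

/-!
The curves `z + 1/z = t + X ∏ R_k(X) M(X) / D(X)`: the classes `{z, R_k(X)/X^{j_k}}` and the
determinant of their regulators.
-/

namespace Pool.Agent.H442

open Polynomial Metric Set Filter Topology MeasureTheory

open Pool.Agent.TH826.MK (Torus KQ Unramified circ norm_circ contDiff_circ circ_add_one)

open Pool.Agent.TH826.UH

open Pool.Agent.Helper537_Sym (sy)

open scoped Real

/-- The general form. -/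
theorem spec3a {t : ℤ} (ht : |t| ≤ 2) {r : ℕ} {p : ℝ} (hp : 1 ≤ p) {D M : ℤ[X]}
    {R Q : Fin r → ℤ[X]} (hDm : D.Monic) (hRm : ∀ k, (R k).Monic) (hMm : M.Monic)
    (hdeg : ∀ k, D.natDegree < 1 + (R k).natDegree) {j : Fin r → ℕ} (hj : ∀ k, p ≤ j k)
    (hQ : ∀ k, X ^ j k - R k = D * Q k) (H : ∀ i, DiscData p D R M i) {A' D' : ℚ[X]}
    (hA' : A' = (X * (∏ k, R k) * M).map (algebraMap ℤ ℚ)) (hD' : D' = D.map (algebraMap ℤ ℚ))
    {κ μ ν : ℚ} (hκ : κ ≠ 0) (hμ : μ ≠ 0) (hf : Squarefree (fc t A' D' κ μ ν))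
    (hd : 0 < (fc t A' D' κ μ ν).natDegree) (L : Type) [Field L]
    [Algebra (HRing (fc t A' D' κ μ ν)) L] [IsFractionRing (HRing (fc t A' D' κ μ ν)) L] :
    ∃ w : Fin r → KQ L 2, (∀ k, w k ∈ Unramified L 2) ∧
      ∃ Γ : Fin r → Torus L 1, (Matrix.of fun i k => (Γ i).reg (w k)).det ≠ 0 := by
  classical
  obtain ⟨ρ, Xs, hρt, hL, nX, nR, hinj⟩ := mat3 ht hp H hj (algebraMap ℚ ℂ)
  rw [← hA', ← hD'] at hL
  have hDm' : D'.Monic := by rw [hD']; exact hDm.map _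
  have hRm' : ∀ k, ((R k).map (algebraMap ℤ ℚ)).Monic := fun k => (hRm k).map _
  choose Γ hΓ using fun i => (hL i).exists_torus (hρt i) hκ hμ hf hd L
  obtain ⟨z, hz⟩ : ∃ z : Lˣ, (z : L) = gz (t := t) (A := A') (D := D') (κ := κ) (μ := μ)
      (ν := ν) L := ⟨Units.mk0 _ (gz_ne_zero hμ hκ hDm'.ne_zero), rfl⟩
  obtain ⟨x, hx⟩ : ∃ x : Lˣ, (x : L) = gP (t := t) (A := A') (D := D') (κ := κ) (μ := μ)
      (ν := ν) L X := ⟨Units.mk0 _ (gP_ne_zero hμ X_ne_zero), rfl⟩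
  obtain ⟨u, hu⟩ : ∃ u : Fin r → Lˣ, ∀ k, (u k : L) = gP (t := t) (A := A') (D := D') (κ := κ)
      (μ := μ) (ν := ν) L ((R k).map (algebraMap ℤ ℚ)) :=
    ⟨fun k => Units.mk0 _ (gP_ne_zero hμ (hRm' k).ne_zero), fun k => rfl⟩
  refine ⟨fun k => sy z (u k / x ^ j k), fun k => ?_, Γ, fun hdet => ?_⟩
  · refine cls2 (O := ℤ) (fun a => isIntegral_algebraMap) ht
      (M := (∏ i ∈ Finset.univ.erase k, R i) * M) hDm (hRm k)
      ((monic_prod_of_monic _ _ fun i _ => hRm i).mul hMm) ?_ (hQ k) ?_ hD' rfl hκ hμ L z x (u k)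
      hz hx (hu k)
    · have := hdeg k
      omega
    · rw [hA', ← Finset.mul_prod_erase _ _ (Finset.mem_univ k)]
      simp only [Polynomial.map_mul, Polynomial.map_X]
      ring
  · obtain ⟨c, hc0, hc⟩ := Matrix.exists_mulVec_eq_zero_iff.2 hdet
    apply hc0
    have h1 : ∀ i k, (Γ i).reg (sy z (u k / x ^ j k)) =
        pr (circ (ρ i)) (fun s => (cx (R k)).eval (Xs i s)) - j k * pr (circ (ρ i)) (Xs i) := by
      intro i k
      have h1 : ∀ θ, (Γ i).e θ (u k : L) = (cx (R k)).eval (Xs i (θ 0)) := by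
        intro θ
        rw [hu, (hΓ i θ).2, eval_cx]
      have h2 : ∀ θ, (Γ i).e θ (x : L) = Xs i (θ 0) := by
        intro θ
        have h3 := (hΓ i θ).2 X
        rw [eval₂_X, ← hx] at h3
        exact h3
      have e : sy z (u k / x ^ j k) = sy z (∏ l, (![u k, x] : Fin 2 → Lˣ) l ^
          ((![1, -(j k : ℤ)] : Fin 2 → ℤ) l)) := by
        rw [Fin.prod_univ_two]
        simp only [Matrix.cons_val_zero, Matrix.cons_val_one, zpow_one, zpow_neg, zpow_natCast,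
          div_eq_mul_inv]
      have hreg := reg_sy (Γ i) z (![u k, x] : Fin 2 → Lˣ) (![1, -(j k : ℤ)] : Fin 2 → ℤ)
        (Z := circ (ρ i)) (W := ![fun s => (cx (R k)).eval (Xs i s), Xs i])
        (fun θ => by rw [hz]; exact (hΓ i θ).1) (fun l θ => by
          match l with
          | 0 => exact h1 θ
          | 1 => exact h2 θ) (nz_circ (one_pos.trans (hL i).R1)) (fun l => by
          match l with
          | 0 => exact nR i k
          | 1 => exact nX i)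
      rw [e, hreg, Fin.sum_univ_two]
      simp only [Matrix.cons_val_zero, Matrix.cons_val_one]
      push_cast
      ring
    refine funext (hinj c fun i => ?_)
    have h3 := congrFun hc i
    rw [Matrix.mulVec, dotProduct, Pi.zero_apply] at h3
    rw [← h3]
    refine Finset.sum_congr rfl fun k _ => ?_
    rw [Matrix.of_apply, h1 i k, mul_comm]

/-- The special curves. -/
theorem spec3 {p : ℕ} (hp : 1 ≤ p) {β : Fin p → ℕ} (h : Function.Injective β)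
    (h2 : ∀ l, 2 ≤ β l) {M : ℤ[X]} (hM : M.Monic) (r : ℕ) {t : ℤ} (ht : |t| ≤ 2) :
    ∃ J : ℕ, ∀ j : Fin r → ℕ, Function.Injective j → (∀ k, J ≤ j k) → ∀ (A' D' : ℚ[X]),
      A' = (X * (∏ k, Rz β (j k)) * M).map (algebraMap ℤ ℚ) →
      D' = (Dz β).map (algebraMap ℤ ℚ) → ∀ κ μ ν : ℚ, κ ≠ 0 → μ ≠ 0 →
      Squarefree (fc t A' D' κ μ ν) → 0 < (fc t A' D' κ μ ν).natDegree →
      ∀ (L : Type) [Field L] [Algebra (HRing (fc t A' D' κ μ ν)) L]
        [IsFractionRing (HRing (fc t A' D' κ μ ν)) L],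
        ∃ w : Fin r → KQ L 2, (∀ k, w k ∈ Unramified L 2) ∧
          ∃ Γ : Fin r → Torus L 1, (Matrix.of fun i k => (Γ i).reg (w k)).det ≠ 0 := by
  obtain ⟨J, hJ⟩ := discData hp h h2 hM r
  refine ⟨max J p, fun j hj hjJ A' D' hA' hD' κ μ ν hκ hμ hf hd L _ _ _ => ?_⟩
  have h3 := hJ j hj fun k => (le_max_left _ _).trans (hjJ k)
  have h4 : ∀ k, (p : ℝ) ≤ j k := fun k => by
    exact_mod_cast (le_max_right _ _).trans (hjJ k)
  have h5 := Dz_monic β
  have h6 := fun k => Rz_monic β (j k)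
  have h7 := fun k => pow_sub_Rz β (j k)
  have h8 : ∀ k, (Dz β).natDegree < 1 + (Rz β (j k)).natDegree := by
    intro k
    rw [Dz_natDegree, Rz_natDegree]
    omega
  obtain ⟨R, hR⟩ : ∃ R : Fin r → ℤ[X], R = fun k => Rz β (j k) := ⟨_, rfl⟩
  obtain ⟨Q, hQ⟩ : ∃ Q : Fin r → ℤ[X], Q = fun k => X ^ (j k) /ₘ Dz β - 1 := ⟨_, rfl⟩
  have hR' : ∀ k, Rz β (j k) = R k := fun k => by rw [hR]
  have hQ' : ∀ k, X ^ (j k) /ₘ Dz β - 1 = Q k := fun k => by rw [hQ]
  simp only [hR', hQ'] at h3 h6 h7 h8 hA'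
  generalize Dz β = D at *
  exact spec3a ht (by exact_mod_cast hp) h5 h6 hM h8 h4 h7 h3 hA' hD' hκ hμ hf hd L

end Pool.Agent.H442
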