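import Pool.Agent.H442.Loop5
import Pool.Agent.H442.Spec3
set_option autoImplicit false

/-!
The curves `D(x) P(z) = z x ∏ R_k(x) M(x)`: the classes `{z, R_k(x)/x^{j_k}}` and the
determinant of their regulators.
-/

namespace Pool.Agent.H442

open Polynomial Metric Set Filter Topology

open Pool.Agent.TH826.MK (Torus KQ Unramified circ norm_circ contDiff_circ circ_add_one)

open Pool.Agent.TH826.UH

open Pool.Agent.Helper537_Sym (sy)

open scoped Real

section est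

variable {p : ℕ}

/-- The estimates in the disc around the large zero of `R_i`. -/
theorem discData5 {c : ℝ} (hc : 1 ≤ c) {β : Fin p → ℕ} (hp : 1 ≤ p) (h : Function.Injective β)
    (h2 : ∀ l, 2 ≤ β l) {M : ℤ[X]} (hM : M.Monic) (r : ℕ) : ∃ J : ℕ, ∀ j : Fin r → ℕ,
      Function.Injective j → (∀ k, J ≤ j k) → ∀ i,
        DiscData5 c (p : ℝ) (Dz β) (fun k => Rz β (j k)) M i := by
  classical
  have hne : (Finset.univ : Finset (Fin p)).Nonempty := by
    rw [Finset.univ_nonempty_iff]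
    exact ⟨⟨0, hp⟩⟩
  obtain ⟨m, -, hm'⟩ := Finset.exists_max_image Finset.univ β hne
  have hm : ∀ l, β l ≤ β m := fun l => hm' l (Finset.mem_univ l)
  have hw0 : wt β m ≠ 0 := wt_ne_zero h m
  obtain ⟨J₁, hJ₁⟩ := Tj_asymp h h2 hm
  obtain ⟨N₁, hN₁⟩ := exists_ge_one hM
  have hUb := fun (x : ℂ) hx j => Uj_bound (x := x) hm (by have := h2 m; omega) hx j
  generalize wt β = w at *
  have hwm : 0 < ‖w m‖ := norm_pos_iff.2 hw0
  obtain ⟨B, hBdef⟩ : ∃ B : ℝ, B = ((β m : ℕ) : ℝ) := ⟨_, rfl⟩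
  have hB : (2 : ℝ) ≤ B := by rw [hBdef]; exact_mod_cast h2 m
  have hB0 : (0 : ℝ) < B := by linarith
  -- the constants
  obtain ⟨C₁, hC₁⟩ : ∃ C₁ : ℝ, C₁ = (∑ l, ‖w l‖) * (2 * B) / ‖w m‖ := ⟨_, rfl⟩
  have hC₁0 : 0 ≤ C₁ := by rw [hC₁]; positivity
  obtain ⟨E, hE⟩ : ∃ E : ℝ, E = Real.exp (4 * (p * Real.log 2 + Real.log 10)) := ⟨_, rfl⟩
  obtain ⟨N, hN⟩ : ∃ N : ℝ, N = 2000 * c + 4000 * C₁ + 4 * B + 2 * |N₁| + 2 * E := ⟨_, rfl⟩
  -- `‖w m‖ B^j ≥ 2 N` for large `j`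
  have hlim : Tendsto (fun j : ℕ => ‖w m‖ * B ^ j) atTop atTop :=
    (tendsto_pow_atTop_atTop_of_one_lt (by linarith)).const_mul_atTop hwm
  obtain ⟨J₂, hJ₂⟩ := (tendsto_atTop.1 hlim (2 * N)).exists_forall_of_atTop
  refine ⟨max J₁ J₂, fun j hj hjJ i => ?_⟩
  have hk1 : ∀ k, ‖Tj β (j k) - w m * bc β m ^ (j k)‖ ≤ ‖w m‖ * B ^ (j k) / 32 := fun k => by
    rw [hBdef]
    exact hJ₁ _ ((le_max_left _ _).trans (hjJ k))
  have hk2 : ∀ k, 2 * N ≤ ‖w m‖ * B ^ (j k) := fun k => hJ₂ _ ((le_max_right _ _).trans (hjJ k))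
  have hE0 : 0 < E := by rw [hE]; exact Real.exp_pos _
  have hN0 : 0 ≤ |N₁| := abs_nonneg _
  have hN2000 : 2000 ≤ N := by rw [hN]; linarith
  have hN2000c : 2000 * c ≤ N := by rw [hN]; linarith
  have hwk : ∀ k, ‖w m * bc β m ^ (j k)‖ = ‖w m‖ * B ^ (j k) := fun k => by
    rw [norm_mul, norm_pow, norm_bc, hBdef]
  have hTk : ∀ k, N ≤ ‖Tj β (j k)‖ ∧ ‖w m‖ * B ^ (j k) ≤ 2 * ‖Tj β (j k)‖ := by
    intro k
    have h3 := hk1 k
    have h4 := hk2 k
    have e : w m * bc β m ^ (j k) = Tj β (j k) - (Tj β (j k) - w m * bc β m ^ (j k)) := by ring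
    have h5 := norm_sub_le (Tj β (j k)) (Tj β (j k) - w m * bc β m ^ (j k))
    rw [← e, hwk] at h5
    constructor <;> linarith
  obtain ⟨Ti, hTi⟩ : ∃ Ti : ℂ, Ti = Tj β (j i) := ⟨_, rfl⟩
  have hTiN : N ≤ ‖Ti‖ := by rw [hTi]; exact (hTk i).1
  have hTi0 : 0 < ‖Ti‖ := by linarith
  -- the size of `x`
  have hx1 : ∀ x ∈ ball (-Ti) (2 * (‖Ti‖ / 16)), ‖x + Ti‖ < ‖Ti‖ / 8 := by
    intro x hx
    rw [mem_ball_iff_norm, sub_neg_eq_add] at hx
    linarith
  have hx2 : ∀ x ∈ ball (-Ti) (2 * (‖Ti‖ / 16)), 7 / 8 * ‖Ti‖ < ‖x‖ := by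
    intro x hx
    have h3 := hx1 x hx
    have h4 : ‖Ti‖ ≤ ‖x + Ti‖ + ‖x‖ := by
      have e : Ti = (x + Ti) - x := by ring
      conv_lhs => rw [e]
      exact norm_sub_le _ _
    linarith
  have hx3 : ∀ x ∈ ball (-Ti) (2 * (‖Ti‖ / 16)), N / 2 ≤ ‖x‖ := by
    intro x hx
    have h3 := hx2 x hx
    linarith
  have hx4 : ∀ x ∈ ball (-Ti) (2 * (‖Ti‖ / 16)), 2 * B ≤ ‖x‖ := by
    intro x hx
    have h3 := hx3 x hx
    rw [hN] at h3
    linarith
  have hxb : ∀ x ∈ ball (-Ti) (2 * (‖Ti‖ / 16)), ∀ l, x ≠ bc β l := by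
    intro x hx l he
    have h3 := hx4 x hx
    rw [hBdef] at h3
    have h4 := (norm_x_sub hm h3 l).1
    rw [he, sub_self, norm_zero] at h4
    have h5 := hx3 x hx
    rw [he] at h5
    linarith
  -- the remainder
  have hUk : ∀ k, ∀ x ∈ ball (-Ti) (2 * (‖Ti‖ / 16)), ‖Uj β (j k) x‖ ≤
      C₁ * (‖w m‖ * B ^ (j k)) / ‖x‖ := by
    intro k x hx
    have h3 := hx4 x hx
    rw [hBdef] at h3
    refine (hUb x h3 (j k)).trans (le_of_eq ?_)
    rw [hC₁, ← hBdef]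
    field_simp
  have hDx := fun (x : ℂ) (hx : x ∈ ball (-Ti) (2 * (‖Ti‖ / 16))) => norm_Dz_bounds hm
    (x := x) (by rw [← hBdef]; exact hx4 x hx)
  have hfar : ∀ k, k ≠ i → ∀ x ∈ ball (-Ti) (2 * (‖Ti‖ / 16)),
      ‖x‖ / 10 ≤ ‖x + Tj β (j k) + Uj β (j k) x‖ := by
    intro k hk x hx
    have hjk : j i ≠ j k := fun he => hk (hj he).symm
    have g1 := pow_gap hB hjk hwm
    have hi1 := hk1 i
    rw [← hTi] at hi1
    refine far_lower (hk1 k) hi1 (hwk k) (hwk i) ?_ (hx1 x hx) ?_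
    · refine g1.trans (le_of_eq ?_)
      congr 1
      have e : w m * bc β m ^ (j k) - w m * bc β m ^ (j i) =
          w m * ((B ^ (j k) - B ^ (j i) : ℝ) : ℂ) := by
        have e2 : bc β m = ((B : ℝ) : ℂ) := by
          unfold bc
          rw [hBdef]
          push_cast
          rfl
        rw [e2]
        push_cast
        ring
      rw [e, norm_mul, Complex.norm_real, Real.norm_eq_abs, ← mul_sub, abs_mul,
        abs_of_pos hwm]
    · refine (hUk k x hx).trans ?_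
      have h3 := hx3 x hx
      have h4 : 64 * C₁ ≤ ‖x‖ := by
        rw [hN] at h3
        linarith
      have h5 : 0 < ‖x‖ := by linarith
      rw [div_le_iff₀ h5]
      have h6 : 0 < ‖w m‖ * B ^ (j k) := by positivity
      nlinarith
  have hRk : ∀ k, k ≠ i → ∀ x ∈ ball (-Ti) (2 * (‖Ti‖ / 16)),
      (‖x‖ / 2) ^ p / 10 ≤ ‖(cx (Rz β (j k))).eval x‖ := by
    intro k hk x hx
    have h3 := hfar k hk x hx
    have h4 := x_mul_Rz h (j k) (hxb x hx)
    have h5 := congrArg norm h4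
    rw [norm_mul, norm_mul, sub_neg_eq_add] at h5
    have h6 := (hDx x hx).1
    have h7 : 0 < ‖x‖ := by
      have := hx3 x hx
      linarith
    have h8 : (‖x‖ / 2) ^ p * (‖x‖ / 10) ≤ ‖x‖ * ‖(cx (Rz β (j k))).eval x‖ := by
      rw [h5]
      exact mul_le_mul h6 h3 (by positivity) (norm_nonneg _)
    have h9 : ‖x‖ * ((‖x‖ / 2) ^ p / 10) ≤ ‖x‖ * ‖(cx (Rz β (j k))).eval x‖ := by
      refine le_trans (le_of_eq ?_) h8
      ring
    exact le_of_mul_le_mul_left h9 h7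
  have hxbig : ∀ x ∈ ball (-Ti) (2 * (‖Ti‖ / 16)), 1 ≤ (‖x‖ / 2) ^ p / 10 := by
    intro x hx
    have h3 := hx3 x hx
    have h4 : 10 ≤ ‖x‖ / 2 := by linarith
    have h5 : ‖x‖ / 2 ≤ (‖x‖ / 2) ^ p := le_self_pow₀ (by linarith) (by omega)
    linarith
  have hlogx : ∀ x ∈ ball (-Ti) (2 * (‖Ti‖ / 16)),
      4 * (p * Real.log 2 + Real.log 10) ≤ Real.log ‖x‖ := by
    intro x hx
    have h3 := hx3 x hx
    have h4 : E ≤ ‖x‖ := by
      rw [hN] at h3
      linarith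
    have h5 := Real.log_le_log hE0 h4
    rwa [hE, Real.log_exp] at h5
  have hlog2 : 0 < Real.log 2 := Real.log_pos (by norm_num)
  have hlog10 : 0 < Real.log 10 := Real.log_pos (by norm_num)
  have hM1 : ∀ x ∈ ball (-Ti) (2 * (‖Ti‖ / 16)), 1 ≤ ‖(cx M).eval x‖ := by
    intro x hx
    refine hN₁ x ?_
    have h3 := hx3 x hx
    have h4 := le_abs_self N₁
    rw [hN] at h3
    linarith
  refine ⟨-Ti, ‖Ti‖ / 16, Uj β (j i), by positivity, ?_, fun x hx => ⟨?_, ?_, ?_, ?_, ?_, ?_, ?_,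
    ?_, ?_⟩⟩
  · intro x hx
    have e : Uj β (j i) = fun x => ∑ l, wt β l * bc β l ^ (j i + 1) * (x - bc β l)⁻¹ := by
      funext x
      exact Uj_def β (j i) x
    rw [e]
    refine DifferentiableWithinAt.fun_sum fun l _ => ?_
    refine DifferentiableWithinAt.const_mul ?_ _
    have h3 : DifferentiableAt ℂ (fun y : ℂ => y - bc β l) x := differentiableAt_id.sub_const _
    exact (h3.inv (sub_ne_zero.2 (hxb x hx l))).differentiableWithinAt
  · refine (hUk i x hx).trans ?_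
    have h3 := hx2 x hx
    have h4 : 0 < ‖x‖ := by linarith
    rw [div_le_iff₀ h4]
    have h5 := (hTk i).2
    rw [← hTi] at h5
    have h6 : 4000 * C₁ ≤ ‖Ti‖ := by
      rw [hN] at hTiN
      linarith
    have h7 : C₁ * (‖w m‖ * B ^ (j i)) ≤ C₁ * (2 * ‖Ti‖) := mul_le_mul_of_nonneg_left h5 hC₁0
    have h8 : C₁ * (2 * ‖Ti‖) ≤ ‖Ti‖ / 4000 * (2 * ‖Ti‖) :=
      mul_le_mul_of_nonneg_right (by linarith) (by positivity)
    have h9 : ‖Ti‖ / 16 / 40 * (7 / 8 * ‖Ti‖) ≤ ‖Ti‖ / 16 / 40 * ‖x‖ :=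
      mul_le_mul_of_nonneg_left h3.le (by positivity)
    have h10 : 0 < ‖Ti‖ * ‖Ti‖ := by positivity
    linarith
  · have := hx3 x hx
    linarith
  · intro h0
    have h3 := (hDx x hx).1
    rw [h0, norm_zero] at h3
    have h4 : 0 < (‖x‖ / 2) ^ p := by
      have := hx3 x hx
      have h5 : 0 < ‖x‖ / 2 := by linarith
      positivity
    linarith
  · intro k hk h0
    have h3 := hRk k hk x hx
    have h4 := hxbig x hx
    rw [h0, norm_zero] at h3
    linarith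
  · intro h0
    have h3 := hM1 x hx
    rw [h0, norm_zero] at h3
    linarith
  · rw [cx_mul, cx_prod, eval_mul, eval_prod, norm_mul, norm_prod]
    have h3 : (1 : ℝ) ≤ ∏ k ∈ Finset.univ.erase i, ‖(cx (Rz β (j k))).eval x‖ := by
      calc (1 : ℝ) = ∏ _k ∈ Finset.univ.erase i, (1 : ℝ) := by simp
        _ ≤ _ := Finset.prod_le_prod (fun _ _ => zero_le_one) fun k hk =>
            (hxbig x hx).trans (hRk k (Finset.ne_of_mem_erase hk) x hx)
    have h4 := hM1 x hx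
    have h5 : 40 * c / (‖Ti‖ / 16) ≤ 1 := by
      rw [div_le_one (by positivity)]
      linarith
    calc 40 * c / (‖Ti‖ / 16) ≤ 1 * 1 := by linarith
      _ ≤ _ := mul_le_mul h3 h4 zero_le_one (by linarith)
  · rw [hTi]
    exact x_mul_Rz h (j i) (hxb x hx)
  · intro k hk
    have h3 := hRk k hk x hx
    have h4 : 0 < ‖x‖ := by
      have := hx3 x hx
      linarith
    have h5 : Real.log ((‖x‖ / 2) ^ p / 10) ≤ Real.log ‖(cx (Rz β (j k))).eval x‖ :=
      Real.log_le_log (by positivity) h3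
    rw [Real.log_div (by positivity) (by norm_num), Real.log_pow,
      Real.log_div h4.ne' (by norm_num)] at h5
    have h6 := hlogx x hx
    have h7 : 0 ≤ (p : ℝ) * Real.log 2 := by positivity
    linarith
  · have h3 := (hDx x hx).2
    have h4 : 0 < ‖x‖ := by
      have := hx3 x hx
      linarith
    have h4' : 0 < ‖(cx (Dz β)).eval x‖ := by
      have h5 := (hDx x hx).1
      have h6 : 0 < (‖x‖ / 2) ^ p := by positivity
      linarith
    have h5 := Real.log_le_log h4' h3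
    rw [Real.log_pow, Real.log_mul (by norm_num) h4.ne'] at h5
    have h6 := hlogx x hx
    have h7 : 0 ≤ Real.log ‖(cx M).eval x‖ := Real.log_nonneg (hM1 x hx)
    linarith

end est


/-- The general form. -/
theorem spec5a {s : ℕ} {c : Fin s → ℕ} (hc : ∀ i, 0 < c i) (hN : 3 ≤ (cycP c).natDegree)
    {r : ℕ} {p : ℝ} (hp : 1 ≤ p) {D M : ℤ[X]}
    {R Q : Fin r → ℤ[X]} (hDm : D.Monic) (hRm : ∀ k, (R k).Monic) (hMm : M.Monic)
    (hdeg : ∀ k, D.natDegree < 1 + (R k).natDegree) {j : Fin r → ℕ} (hj : ∀ k, p ≤ j k)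
    (hQ : ∀ k, X ^ j k - R k = D * Q k)
    (H : ∀ i, DiscData5 (cN (cycP c).natDegree) p D R M i) {A' D' : ℚ[X]}
    (hA' : A' = (X * (∏ k, R k) * M).map (algebraMap ℤ ℚ)) (hD' : D' = D.map (algebraMap ℤ ℚ))
    (hirr : Irreducible (GG (cycP c) A' D')) (L : Type) [Field L]
    [Algebra (GRing (cycP c) A' D') L] [IsFractionRing (GRing (cycP c) A' D') L] :
    ∃ w : Fin r → KQ L 2, (∀ k, w k ∈ Unramified L 2) ∧
      ∃ Γ : Fin r → Torus L 1, (Matrix.of fun i k => (Γ i).reg (w k)).det ≠ 0 := by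
  classical
  have hP := cycP_monic c
  have hP0 := cycP_coeff_zero c hc
  obtain ⟨ρ, Xs, hρt, hL, nX, nR, hinj⟩ := mat5 (unitRoots_cycP c hc) hp H hj (algebraMap ℚ ℂ)
  rw [← hA', ← hD'] at hL
  have hDm' : D'.Monic := by rw [hD']; exact hDm.map _
  have hRm' : ∀ k, ((R k).map (algebraMap ℤ ℚ)).Monic := fun k => (hRm k).map _
  have hG : 0 < (GG (cycP c) A' D').natDegree := by
    rw [GG_natDegree hP hN hDm'.ne_zero]
    omega
  choose Γ hΓ using fun i => (hL i).exists_torus hP hN (hρt i) hirr L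
  obtain ⟨z, hz⟩ : ∃ z : Lˣ, (z : L) = zG (P := cycP c) (A := A') (D := D') L :=
    ⟨Units.mk0 _ (zG_ne_zero hP0 hDm'.ne_zero hG), rfl⟩
  obtain ⟨x, hx⟩ : ∃ x : Lˣ, (x : L) = pG (P := cycP c) (A := A') (D := D') L X :=
    ⟨Units.mk0 _ (pG_ne_zero hG X_ne_zero), rfl⟩
  obtain ⟨u, hu⟩ : ∃ u : Fin r → Lˣ, ∀ k, (u k : L) = pG (P := cycP c) (A := A') (D := D') L
      ((R k).map (algebraMap ℤ ℚ)) :=
    ⟨fun k => Units.mk0 _ (pG_ne_zero hG (hRm' k).ne_zero), fun k => rfl⟩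
  refine ⟨fun k => sy z (u k / x ^ j k), fun k => ?_, Γ, fun hdet => ?_⟩
  · refine cls5 (O := ℤ) (fun a => isIntegral_algebraMap) hc hN
      (M := (∏ i ∈ Finset.univ.erase k, R i) * M) hDm (hRm k)
      ((monic_prod_of_monic _ _ fun i _ => hRm i).mul hMm) ?_ (hQ k) ?_ hD' rfl L z x (u k)
      hz hx (hu k)
    · have := hdeg k
      omega
    · rw [hA', ← Finset.mul_prod_erase _ _ (Finset.mem_univ k)]
      simp only [Polynomial.map_mul, Polynomial.map_X]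
      ring
  · obtain ⟨c', hc0, hc'⟩ := Matrix.exists_mulVec_eq_zero_iff.2 hdet
    apply hc0
    have h1 : ∀ i k, (Γ i).reg (sy z (u k / x ^ j k)) =
        pr (circ (ρ i)) (fun s => (cx (R k)).eval (Xs i s)) - j k * pr (circ (ρ i)) (Xs i) := by
      intro i k
      have h1 : ∀ θ, (Γ i).e θ (u k : L) = (cx (R k)).eval (Xs i (θ 0)) := by
        intro θ
        rw [hu, (hΓ i θ).2, eval_cx]
      have h2 : ∀ θ, (Γ i).e θ (x : L) = Xs i (θ 0) := by
        intro θ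
        have h3 := (hΓ i θ).2 X
        rw [eval₂_X, ← hx] at h3
        exact h3
      have e : sy z (u k / x ^ j k) = sy z (∏ l, (![u k, x] : Fin 2 → Lˣ) l ^
          ((![1, -(j k : ℤ)] : Fin 2 → ℤ) l)) := by
        rw [Fin.prod_univ_two]
        simp only [Matrix.cons_val_zero, Matrix.cons_val_one, zpow_one, zpow_neg, zpow_natCast,
          div_eq_mul_inv]
      have hreg := reg_sy (Γ i) z (![u k, x] : Fin 2 → Lˣ) (![1, -(j k : ℤ)] : Fin 2 → ℤ)
        (Z := circ (ρ i)) (W := ![fun s => (cx (R k)).eval (Xs i s), Xs i])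
        (fun θ => by rw [hz]; exact (hΓ i θ).1) (fun l θ => by
          match l with
          | 0 => exact h1 θ
          | 1 => exact h2 θ) (nz_circ (one_pos.trans (hL i).R1)) (fun l => by
          match l with
          | 0 => exact nR i k
          | 1 => exact nX i)
      rw [e, hreg, Fin.sum_univ_two]
      simp only [Matrix.cons_val_zero, Matrix.cons_val_one]
      push_cast
      ring
    refine funext (hinj c' fun i => ?_)
    have h3 := congrFun hc' i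
    rw [Matrix.mulVec, dotProduct, Pi.zero_apply] at h3
    rw [← h3]
    refine Finset.sum_congr rfl fun k _ => ?_
    rw [Matrix.of_apply, h1 i k, mul_comm]

/-- The special curves. -/
theorem spec5 {s : ℕ} {c : Fin s → ℕ} (hc : ∀ i, 0 < c i) (hN : 3 ≤ (cycP c).natDegree)
    {p : ℕ} (hp : 1 ≤ p) {β : Fin p → ℕ} (h : Function.Injective β)
    (h2 : ∀ l, 2 ≤ β l) {M : ℤ[X]} (hM : M.Monic) (r : ℕ) :
    ∃ J : ℕ, ∀ j : Fin r → ℕ, Function.Injective j → (∀ k, J ≤ j k) → ∀ (A' D' : ℚ[X]),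
      A' = (X * (∏ k, Rz β (j k)) * M).map (algebraMap ℤ ℚ) →
      D' = (Dz β).map (algebraMap ℤ ℚ) → Irreducible (GG (cycP c) A' D') →
      ∀ (L : Type) [Field L] [Algebra (GRing (cycP c) A' D') L]
        [IsFractionRing (GRing (cycP c) A' D') L],
        ∃ w : Fin r → KQ L 2, (∀ k, w k ∈ Unramified L 2) ∧
          ∃ Γ : Fin r → Torus L 1, (Matrix.of fun i k => (Γ i).reg (w k)).det ≠ 0 := by
  obtain ⟨J, hJ⟩ := discData5 (one_le_cN (cycP c).natDegree) hp h h2 hM r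
  refine ⟨max J p, fun j hj hjJ A' D' hA' hD' hirr L _ _ _ => ?_⟩
  have h3 := hJ j hj fun k => (le_max_left _ _).trans (hjJ k)
  have h4 : ∀ k, (p : ℝ) ≤ j k := fun k => by
    exact_mod_cast (le_max_right _ _).trans (hjJ k)
  have h5 := Dz_monic β
  have h6 := fun k => Rz_monic β (j k)
  have h7 := fun k => pow_sub_Rz β (j k)
  have h8 : ∀ k, (Dz β).natDegree < 1 + (Rz β (j k)).natDegree := by
    intro k
    rw [Dz_natDegree, Rz_natDegree]
    omega
  obtain ⟨R, hR⟩ : ∃ R : Fin r → ℤ[X], R = fun k => Rz β (j k) := ⟨_, rfl⟩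
  obtain ⟨Q, hQ⟩ : ∃ Q : Fin r → ℤ[X], Q = fun k => X ^ (j k) /ₘ Dz β - 1 := ⟨_, rfl⟩
  have hR' : ∀ k, Rz β (j k) = R k := fun k => by rw [hR]
  have hQ' : ∀ k, X ^ (j k) /ₘ Dz β - 1 = Q k := fun k => by rw [hQ]
  simp only [hR', hQ'] at h3 h6 h7 h8 hA'
  generalize Dz β = D at *
  exact spec5a hc hN (by exact_mod_cast hp) h5 h6 hM h8 h4 h7 h3 hA' hD' hirr L

end Pool.Agent.H442
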