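import Pool.Agent.H442.Unr7
import Pool.Graph.R_seed8.TH826.SX.Milnor
set_option autoImplicit false

/-!
The classes `{R(x) / x^j, y_1, ..., y_d}` where `∏ P_l(y_l) / y_l = q`, `q = x R(x) M(x) / D(x)`,
`R ≡ X^j` modulo `D` and the `P_l` are products of cyclotomic polynomials: they are unramified at
all discrete valuations.
-/

namespace Pool.Agent.H442

open Polynomial

open scoped WithZero

open Pool.Agent.TH826.MK (KQ symb unitPart Unramified val_one_of_sub_one symb_update_mul
  symb_update_zpow symb_eq_zero' mem_unitPart_of_oneUnit' mem_unitPart_of_pow)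

open Pool.Agent.TH826.SX (symb_self symb_upd_one symb_upd_neg)

section symbols

variable {L : Type*} [Field L] {d : ℕ} (y : Fin d → Lˣ)

theorem cons_eq_upd (a : Lˣ) : (Fin.cons a y : Fin (d + 1) → Lˣ) =
    Function.update (Fin.cons 1 y : Fin (d + 1) → Lˣ) 0 a := by
  rw [Fin.update_cons_zero]

theorem sc_mul (a b : Lˣ) : symb (Fin.cons (a * b) y : Fin (d + 1) → Lˣ) =
    symb (Fin.cons a y : Fin (d + 1) → Lˣ) + symb (Fin.cons b y : Fin (d + 1) → Lˣ) := by
  rw [cons_eq_upd, cons_eq_upd y a, cons_eq_upd y b, symb_update_mul]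

theorem sc_zpow (a : Lˣ) (k : ℤ) : symb (Fin.cons (a ^ k) y : Fin (d + 1) → Lˣ) =
    (k : ℚ) • symb (Fin.cons a y : Fin (d + 1) → Lˣ) := by
  rw [cons_eq_upd, cons_eq_upd y a, symb_update_zpow]

theorem sc_one : symb (Fin.cons 1 y : Fin (d + 1) → Lˣ) = 0 := by
  rw [cons_eq_upd, symb_upd_one]

theorem sc_inv (a : Lˣ) : symb (Fin.cons a⁻¹ y : Fin (d + 1) → Lˣ) =
    -symb (Fin.cons a y : Fin (d + 1) → Lˣ) := by
  have h := sc_zpow y a (-1)
  rwa [zpow_neg_one, Int.cast_neg, Int.cast_one, neg_smul, one_smul] at h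

theorem sc_neg (a : Lˣ) : symb (Fin.cons (-a) y : Fin (d + 1) → Lˣ) =
    symb (Fin.cons a y : Fin (d + 1) → Lˣ) := by
  rw [cons_eq_upd, cons_eq_upd y a, symb_upd_neg]

theorem sc_prod {ι : Type*} [DecidableEq ι] (t : Finset ι) (a : ι → Lˣ) :
    symb (Fin.cons (∏ i ∈ t, a i) y : Fin (d + 1) → Lˣ) =
      ∑ i ∈ t, symb (Fin.cons (a i) y : Fin (d + 1) → Lˣ) := by
  induction t using Finset.induction_on with
  | empty => rw [Finset.prod_empty, Finset.sum_empty, sc_one]
  | insert i t hi ih => rw [Finset.prod_insert hi, Finset.sum_insert hi, sc_mul, ih]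

theorem sc_self (l : Fin d) : symb (Fin.cons (y l) y : Fin (d + 1) → Lˣ) = 0 :=
  symb_self _ (Fin.succ_ne_zero l).symm (by rw [Fin.cons_succ, Fin.cons_zero])

/-- a power in the place of `y_l` -/
theorem sc_pow_right (a : Lˣ) (l : Fin d) {n : ℕ} (hn : 0 < n)
    (h : symb (Function.update (Fin.cons a y : Fin (d + 1) → Lˣ) l.succ (y l ^ (n : ℤ))) = 0) :
    symb (Fin.cons a y : Fin (d + 1) → Lˣ) = 0 := by
  rw [symb_update_zpow] at h
  have e : Function.update (Fin.cons a y : Fin (d + 1) → Lˣ) l.succ (y l) = Fin.cons a y := by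
    rw [Function.update_eq_self_iff, Fin.cons_succ]
  rw [e] at h
  have h2 : ((n : ℤ) : ℚ) ≠ 0 := by
    have : n ≠ 0 := hn.ne'
    exact_mod_cast this
  exact (smul_eq_zero.1 h).resolve_left h2

theorem sc_cyclotomic (l : Fin d) : ∀ n : ℕ, 0 < n → ∀ u : Lˣ,
    (u : L) = aeval (y l : L) (cyclotomic n ℤ) →
      symb (Fin.cons u y : Fin (d + 1) → Lˣ) = 0 := by
  classical
  by_cases htors : ∃ N : ℕ, 0 < N ∧ (y l : L) ^ N = 1
  · obtain ⟨N, hN, h1⟩ := htors
    intro n _ u _
    refine sc_pow_right y u l hN ?_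
    have e : y l ^ (N : ℤ) = 1 := by
      apply Units.ext
      rw [zpow_natCast, Units.val_pow_eq_pow_val, h1, Units.val_one]
    rw [e, symb_upd_one]
  push Not at htors
  have hev : ∀ n, 0 < n → (y l : L) ^ n - 1 =
      ∏ m ∈ n.divisors, aeval (y l : L) (cyclotomic m ℤ) := by
    intro n hn
    rw [← map_prod, prod_cyclotomic_eq_X_pow_sub_one hn]
    simp
  have hne : ∀ n, 0 < n → ∀ m ∈ n.divisors, aeval (y l : L) (cyclotomic m ℤ) ≠ 0 := by
    intro n hn m hm h
    refine htors n hn ?_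
    rw [← sub_eq_zero, hev n hn]
    exact Finset.prod_eq_zero hm h
  intro n
  induction n using Nat.strong_induction_on with
  | _ n ih =>
    intro hn u hu
    obtain ⟨f, hf⟩ : ∃ f : ℕ → Lˣ, ∀ m ∈ n.divisors,
        (f m : L) = aeval (y l : L) (cyclotomic m ℤ) := by
      refine ⟨fun m => if h : aeval (y l : L) (cyclotomic m ℤ) = 0 then 1 else
        Units.mk0 _ h, fun m hm => ?_⟩
      simp only
      rw [dif_neg (hne n hn m hm), Units.val_mk0]
    have hw0 : 1 - (y l : L) ^ n ≠ 0 := fun h => htors n hn (sub_eq_zero.1 h).symm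
    have hw : symb (Fin.cons (Units.mk0 _ hw0) y : Fin (d + 1) → Lˣ) = 0 := by
      refine sc_pow_right y _ l hn ?_
      refine symb_eq_zero' _ (Fin.succ_ne_zero l).symm ?_
      rw [Function.update_of_ne (Fin.succ_ne_zero l).symm, Function.update_self, Fin.cons_zero,
        Units.val_mk0, zpow_natCast, Units.val_pow_eq_pow_val]
      ring
    have e : Units.mk0 _ hw0 = -∏ m ∈ n.divisors, f m := by
      apply Units.ext
      rw [Units.val_mk0, Units.val_neg, Units.coe_prod, Finset.prod_congr rfl hf, ← hev n hn]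
      ring
    rw [e, sc_neg, sc_prod, Finset.sum_eq_single n] at hw
    · have e2 : u = f n := by
        apply Units.ext
        rw [hu, hf n (Nat.mem_divisors_self n hn.ne')]
      rw [e2]
      exact hw
    · intro m hm hmn
      have hm1 := Nat.divisor_le hm
      exact ih m (lt_of_le_of_ne hm1 hmn) (Nat.pos_of_mem_divisors hm) _ (hf m hm)
    · intro h
      exact absurd (Nat.mem_divisors_self n hn.ne') h

theorem sc_cycP {s : ℕ} {c : Fin s → ℕ} (hc : ∀ i, 0 < c i) (l : Fin d) (u : Lˣ)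
    (hu : (u : L) = aeval (y l : L) (cycP c)) :
    symb (Fin.cons u y : Fin (d + 1) → Lˣ) = 0 := by
  classical
  unfold cycP at hu
  rw [map_prod] at hu
  have hne : ∀ i, aeval (y l : L) (cyclotomic (c i) ℤ) ≠ 0 := by
    intro i h
    refine u.ne_zero ?_
    rw [hu]
    exact Finset.prod_eq_zero (Finset.mem_univ i) h
  have e : u = ∏ i, Units.mk0 _ (hne i) := by
    apply Units.ext
    rw [hu, Units.coe_prod]
    rfl
  rw [e, sc_prod]
  exact Finset.sum_eq_zero fun i _ => sc_cyclotomic y l _ (hc i) _ rfl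

/-- the symbol with the product of the `P_l(y_l) / y_l` vanishes -/
theorem sc_main {s : Fin d → ℕ} {c : (l : Fin d) → Fin (s l) → ℕ} (hc : ∀ l i, 0 < c l i)
    (u : Lˣ) (hu : (u : L) = ∏ l, aeval (y l : L) (cycP (c l)) / (y l : L)) :
    symb (Fin.cons u y : Fin (d + 1) → Lˣ) = 0 := by
  classical
  have hne : ∀ l, aeval (y l : L) (cycP (c l)) ≠ 0 := by
    intro l h
    refine u.ne_zero ?_
    rw [hu]
    exact Finset.prod_eq_zero (Finset.mem_univ l) (by rw [h, zero_div])
  have e : u = ∏ l, (Units.mk0 _ (hne l) * (y l)⁻¹) := by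
    apply Units.ext
    rw [hu, Units.coe_prod]
    refine Finset.prod_congr rfl fun l _ => ?_
    rw [Units.val_mul, Units.val_mk0, Units.val_inv_eq_inv_val, div_eq_mul_inv]
  rw [e, sc_prod]
  refine Finset.sum_eq_zero fun l _ => ?_
  rw [sc_mul, sc_inv, sc_self, neg_zero, add_zero]
  exact sc_cycP y (hc l) l _ rfl

end symbols

section val

variable {L : Type*} [Field L] (v : Valuation L ℤᵐ⁰)

theorem valU {P : ℤ[X]} (hP : P.Monic) (hN : 2 ≤ P.natDegree)
    (hP0 : P.coeff 0 = 1 ∨ P.coeff 0 = -1) (z : Lˣ) :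
    v (z : L) = 1 ∨ 1 < v (aeval (z : L) P / z) := by
  have hz0 : (z : L) ≠ 0 := z.ne_zero
  have vz : 0 < v (z : L) := zero_lt_iff.2 ((Valuation.ne_zero_iff v).2 hz0)
  rcases lt_trichotomy (v (z : L)) 1 with h1 | h1 | h1
  · right
    rw [map_div₀, (val_P_zero v hP0 h1).2, one_div]
    exact (one_lt_inv₀ vz).2 h1
  · exact Or.inl h1
  · right
    have h2 := val_one_of_sub_one (val_P_inf v hP h1)
    rw [map_div₀, map_pow, div_eq_one_iff_eq (pow_ne_zero _ vz.ne')] at h2
    rw [map_div₀, h2]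
    have h3 : v (z : L) ^ P.natDegree = v (z : L) ^ (P.natDegree - 1) * v (z : L) := by
      rw [← pow_succ]
      congr 1
      omega
    rw [h3, mul_div_cancel_right₀ _ vz.ne']
    exact one_lt_pow₀ h1 (by omega)

theorem exists_tors {s : ℕ} {c : Fin s → ℕ} (hc : ∀ i, 0 < c i) {z : L}
    (hz : v z = 1) (h1 : v (aeval z (cycP c)) < 1) : ∃ m : ℕ, m ≠ 0 ∧ v (z ^ m - 1) < 1 := by
  unfold cycP at h1
  rw [map_prod, map_prod] at h1
  obtain ⟨i, hi⟩ : ∃ i, v (aeval z (cyclotomic (c i) ℤ)) < 1 := by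
    by_contra hcon
    push Not at hcon
    have h2 : ∏ i, v (aeval z (cyclotomic (c i) ℤ)) = 1 := by
      refine Finset.prod_eq_one fun i _ => ?_
      exact le_antisymm (val_aevalZ_le v hz.le _) (hcon i)
    exact h1.ne h2
  obtain ⟨Q, hQ⟩ := cyclotomic.dvd_X_pow_sub_one (c i) ℤ
  refine ⟨c i, (hc i).ne', ?_⟩
  have e : z ^ c i - 1 = aeval z (cyclotomic (c i) ℤ) * aeval z Q := by
    rw [← map_mul, ← hQ]
    simp
  rw [e, map_mul]
  exact mul_lt_one_of_lt_of_le hi (val_aevalZ_le v hz.le Q)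

/-- If the product of the `P_l(y_l)/y_l` is integral, then all `y_l` are units and the product is a
unit or some power of some `y_l` is a one-unit. -/
theorem units_or {d : ℕ} {s : Fin d → ℕ} {c : (l : Fin d) → Fin (s l) → ℕ}
    (hc : ∀ l i, 0 < c l i) (hN : ∀ l, 2 ≤ (cycP (c l)).natDegree) (y : Fin d → Lˣ)
    (h : v (∏ l, aeval (y l : L) (cycP (c l)) / (y l : L)) ≤ 1) :
    ((∀ l, v (y l : L) = 1) ∧ v (∏ l, aeval (y l : L) (cycP (c l)) / (y l : L)) = 1) ∨
      ∃ l, ∃ m : ℕ, m ≠ 0 ∧ v ((y l : L) ^ m - 1) < 1 := by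
  by_cases hex : ∃ l, v (y l : L) = 1 ∧ v (aeval (y l : L) (cycP (c l))) < 1
  · obtain ⟨l, h1, h2⟩ := hex
    exact Or.inr ⟨l, exists_tors v (hc l) h1 h2⟩
  left
  push Not at hex
  have hge : ∀ l, 1 ≤ v (aeval (y l : L) (cycP (c l)) / (y l : L)) := by
    intro l
    rcases valU v (cycP_monic (c l)) (hN l) (cycP_coeff_zero (c l) (hc l)) (y l) with h1 | h1
    · rw [map_div₀, h1, div_one]
      exact hex l h1
    · exact h1.le
  rw [map_prod] at h
  have h2 : ∏ l, v (aeval (y l : L) (cycP (c l)) / (y l : L)) = 1 := by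
    refine le_antisymm h ?_
    exact Finset.one_le_prod'' hge
  have h3 := (Finset.prod_eq_one_iff_of_one_le' (fun l _ => hge l)).1 h2
  refine ⟨fun l => ?_, by rw [map_prod]; exact h2⟩
  rcases valU v (cycP_monic (c l)) (hN l) (cycP_coeff_zero (c l) (hc l)) (y l) with h1 | h1
  · exact h1
  · exact absurd (h3 l (Finset.mem_univ l)) h1.ne'

end val

section main

variable {O L : Type*} [CommRing O] [Field L] [Algebra O L] {v : Valuation L ℤᵐ⁰}

/-- The position of `h = R(x)/x^j` for integral `x`. -/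
theorem tri6 (hO : ∀ a : O, v (algebraMap O L a) ≤ 1) {D R M Q : O[X]} {j : ℕ}
    (hQ : X ^ j - R = D * Q) {x r d : Lˣ}
    (hd : (d : L) = aeval (x : L) D) (hr : (r : L) = aeval (x : L) R) (hx : v (x : L) ≤ 1) :
    v ((x : L) * r * aeval (x : L) M / d) < 1 ∨ v (((r / x ^ j : Lˣ) : L) - 1) < 1 ∨
      (v ((x : L) * r * aeval (x : L) M / d) ≤ 1 ∧ v ((r / x ^ j : Lˣ) : L) = 1) := by
  have hx0 : (x : L) ≠ 0 := x.ne_zero
  have hr0 : (r : L) ≠ 0 := r.ne_zero
  have hd0 : (d : L) ≠ 0 := d.ne_zero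
  have vx : 0 < v (x : L) := zero_lt_iff.2 ((Valuation.ne_zero_iff v).2 hx0)
  have vr : 0 < v (r : L) := zero_lt_iff.2 ((Valuation.ne_zero_iff v).2 hr0)
  have vd : 0 < v (d : L) := zero_lt_iff.2 ((Valuation.ne_zero_iff v).2 hd0)
  have hM1 := val_aeval_le (v := v) hO hx M
  have hQ1 := val_aeval_le (v := v) hO hx Q
  have hR1 : v (r : L) ≤ 1 := by rw [hr]; exact val_aeval_le hO hx R
  have hD1 : v (d : L) ≤ 1 := by rw [hd]; exact val_aeval_le hO hx D
  have hQ' : (x : L) ^ j - r = d * aeval (x : L) Q := by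
    have h1 := congrArg (aeval (x : L)) hQ
    rw [map_sub, map_pow, aeval_X, map_mul, ← hr, ← hd] at h1
    exact h1
  rcases lt_or_ge (v ((x : L) * r * aeval (x : L) M)) (v (d : L)) with hI | hII
  · left
    rw [map_div₀]
    exact (div_lt_one₀ vd).2 hI
  right
  -- `|D| ≤ |x| |R|`
  have hII' : v (d : L) ≤ v (x : L) * v (r : L) := by
    refine hII.trans ?_
    rw [map_mul, map_mul]
    exact mul_le_of_le_one_right' hM1
  have hdq : v ((x : L) ^ j - r) ≤ v (d : L) := by
    rw [hQ', map_mul]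
    exact mul_le_of_le_one_right' hQ1
  have e1 : (((r / x ^ j : Lˣ) : L)) - 1 = -((d * aeval (x : L) Q) / (x : L) ^ j) := by
    rw [← hQ', Units.val_div_eq_div_val, Units.val_pow_eq_pow_val]
    field_simp
    ring
  rcases hx.eq_or_lt with hx1 | hx1
  · -- `x` is a unit
    have hr1 : v (r : L) = 1 := by
      refine le_antisymm hR1 ?_
      by_contra hcon
      rw [not_le] at hcon
      have h2 : v ((x : L) ^ j - r) = 1 := by
        rw [Valuation.map_sub_eq_of_lt_left, map_pow, hx1, one_pow]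
        rw [map_pow, hx1, one_pow]
        exact hcon
      rw [h2] at hdq
      have h3 : v (d : L) < 1 := hII'.trans_lt (by rw [hx1, one_mul]; exact hcon)
      exact absurd hdq (not_le.2 h3)
    rcases hD1.eq_or_lt with hd1 | hd1
    · refine Or.inr ⟨?_, ?_⟩
      · rw [map_div₀, map_mul, map_mul, hx1, hr1, hd1, one_mul, one_mul, div_one]
        exact hM1
      · rw [Units.val_div_eq_div_val, Units.val_pow_eq_pow_val, map_div₀, map_pow, hx1, hr1,
          one_pow, div_one]
    · left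
      rw [e1, Valuation.map_neg, map_div₀, map_mul, map_pow, hx1, one_pow, div_one]
      exact mul_lt_one_of_lt_of_le hd1 hQ1
  · -- `|R| = |x|^j`
    have hrj : v (r : L) = v (x : L) ^ j := by
      rcases lt_trichotomy (v (r : L)) (v (x : L) ^ j) with h2 | h2 | h2
      · exfalso
        have h3 : v ((x : L) ^ j - r) = v (x : L) ^ j := by
          rw [Valuation.map_sub_eq_of_lt_left, map_pow]
          rw [map_pow]
          exact h2
        rw [h3] at hdq
        have h4 : v (x : L) ^ j < v (x : L) ^ j := by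
          calc v (x : L) ^ j ≤ v (x : L) * v (r : L) := hdq.trans hII'
            _ ≤ 1 * v (r : L) := mul_le_mul_left hx _
            _ = v (r : L) := one_mul _
            _ < v (x : L) ^ j := h2
        exact lt_irrefl _ h4
      · exact h2
      · exfalso
        have h3 : v ((x : L) ^ j - r) = v (r : L) := by
          rw [Valuation.map_sub_eq_of_lt_right]
          rw [map_pow]
          exact h2
        rw [h3] at hdq
        have h4 : v (r : L) < v (r : L) := by
          calc v (r : L) ≤ v (x : L) * v (r : L) := hdq.trans hII'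
            _ < 1 * v (r : L) := mul_lt_mul_of_pos_right hx1 vr
            _ = v (r : L) := one_mul _
        exact lt_irrefl _ h4
    left
    rw [e1, Valuation.map_neg, map_div₀, map_mul, map_pow,
      div_lt_one₀ (pow_pos vx j)]
    calc v (d : L) * v (aeval (x : L) Q) ≤ v (d : L) := mul_le_of_le_one_right' hQ1
      _ ≤ v (x : L) * v (r : L) := hII'
      _ < 1 * v (r : L) := mul_lt_mul_of_pos_right hx1 vr
      _ = v (x : L) ^ j := by rw [one_mul, hrj]

/-- The classes `{R(x)/x^j, y_1, ..., y_d}` are unramified. -/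
theorem memD (hO : ∀ a : O, v (algebraMap O L a) ≤ 1) {n : ℕ} {s : Fin n → ℕ}
    {c : (l : Fin n) → Fin (s l) → ℕ} (hc : ∀ l i, 0 < c l i)
    (hN : ∀ l, 2 ≤ (cycP (c l)).natDegree) {D R M Q : O[X]}
    (hD : D.Monic) (hR : R.Monic) (hM : M.Monic)
    (hdeg : D.natDegree < 1 + R.natDegree + M.natDegree) {j : ℕ}
    (hQ : X ^ j - R = D * Q) {x r d : Lˣ} {y : Fin n → Lˣ}
    (hd : (d : L) = aeval (x : L) D) (hr : (r : L) = aeval (x : L) R)
    (h : ∏ l, aeval (y l : L) (cycP (c l)) / (y l : L) = x * r * aeval (x : L) M / d) :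
    symb (Fin.cons (r / x ^ j) y : Fin (n + 1) → Lˣ) ∈ unitPart v (n + 1) := by
  classical
  rcases le_or_gt (v (x : L)) 1 with hx | hx
  · have key : v ((x : L) * r * aeval (x : L) M / d) ≤ 1 →
        ((∀ l, v (y l : L) = 1) ∧ v ((x : L) * r * aeval (x : L) M / d) = 1) ∨
          symb (Fin.cons (r / x ^ j) y : Fin (n + 1) → Lˣ) ∈ unitPart v (n + 1) := by
      intro h1
      rw [← h] at h1 ⊢
      rcases units_or v hc hN y h1 with h2 | ⟨l, m, hm, h2⟩
      · exact Or.inl h2
      · right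
        exact mem_unitPart_of_pow v l.succ _ hm (by rw [Fin.cons_succ]; exact h2)
    rcases tri6 hO (M := M) hQ hd hr hx with h1 | h1 | ⟨h1, h2⟩
    · rcases key h1.le with h2 | h2
      · exact absurd h2.2 h1.ne
      · exact h2
    · exact mem_unitPart_of_oneUnit' v 0 _ (by rw [Fin.cons_zero]; exact h1)
    · rcases key h1 with h3 | h3
      · refine Submodule.subset_span ⟨_, fun i => ?_, rfl⟩
        refine Fin.cases ?_ (fun l => ?_) i
        · rw [Fin.cons_zero]
          exact h2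
        · rw [Fin.cons_succ]
          exact h3.1 l
      · exact h3
  · obtain ⟨e, uq, h1, h2⟩ := q_inf hO hD hR hM hdeg hd hr hx
    have huqv := val_one_of_sub_one h1
    have huq0 : uq ≠ 0 := fun h0 => by rw [h0, map_zero] at huqv; exact zero_ne_one huqv
    have hx0 : (x : L) ≠ 0 := x.ne_zero
    have uR := aeval_inf hO hx hR
    have hr1 : v (((r / x ^ R.natDegree : Lˣ) : L) - 1) < 1 := by
      rw [Units.val_div_eq_div_val, Units.val_pow_eq_pow_val, hr]
      exact uR
    have e3 : r / x ^ j = (r / x ^ R.natDegree) * (x ^ ((R.natDegree : ℤ) - j)) := by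
      rw [zpow_sub, zpow_natCast, zpow_natCast, div_mul_eq_mul_div, div_eq_mul_inv,
        div_eq_mul_inv]
      group
    -- the symbol of `x`
    have hxm : symb (Fin.cons x y : Fin (n + 1) → Lˣ) ∈ unitPart v (n + 1) := by
      obtain ⟨w, hw⟩ : ∃ w : Lˣ, (w : L) = uq := ⟨Units.mk0 uq huq0, rfl⟩
      have h3 : symb (Fin.cons (x ^ ((e + 1 : ℕ) : ℤ) * w) y : Fin (n + 1) → Lˣ) = 0 := by
        refine sc_main y hc _ ?_
        rw [h, h2, Units.val_mul, zpow_natCast, Units.val_pow_eq_pow_val, hw]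
      rw [sc_mul, sc_zpow] at h3
      have h4 : symb (Fin.cons w y : Fin (n + 1) → Lˣ) ∈ unitPart v (n + 1) :=
        mem_unitPart_of_oneUnit' v 0 _ (by rw [Fin.cons_zero, hw]; exact h1)
      have h5 : (((e + 1 : ℕ) : ℤ) : ℚ) ≠ 0 := by
        have : e + 1 ≠ 0 := by omega
        exact_mod_cast this
      have h6 : (((e + 1 : ℕ) : ℤ) : ℚ) • symb (Fin.cons x y : Fin (n + 1) → Lˣ) =
          -symb (Fin.cons w y : Fin (n + 1) → Lˣ) := eq_neg_of_add_eq_zero_left h3
      have h7 : symb (Fin.cons x y : Fin (n + 1) → Lˣ) = (((e + 1 : ℕ) : ℤ) : ℚ)⁻¹ •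
          (-symb (Fin.cons w y : Fin (n + 1) → Lˣ)) := by
        rw [← h6, smul_smul, inv_mul_cancel₀ h5, one_smul]
      rw [h7]
      exact Submodule.smul_mem _ _ (Submodule.neg_mem _ h4)
    rw [e3, sc_mul, sc_zpow]
    exact Submodule.add_mem _ (mem_unitPart_of_oneUnit' v 0 _ (by rw [Fin.cons_zero]; exact hr1))
      (Submodule.smul_mem _ _ hxm)

end main

end Pool.Agent.H442
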