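import Pool.Agent.H442.TorD
import Pool.Agent.H442.UnrD
import Pool.Agent.H442.Spec6
set_option autoImplicit false

/-!
The coordinate ring of the open part `A(x) y_1 ... y_d ≠ 0` of the hypersurface
`D(x) P_1(y_1) ... P_d(y_d) = A(x) y_1 ... y_d`, its tori and the classes.
-/

namespace Pool.Agent.H442

open Polynomial

open Pool.Agent.TH826.MK (Torus KQ KQ.map KQ.map_symb symb Unramified unitPart pairing vf Good Per
  circ norm_circ contDiff_circ circ_add_one)

open scoped WithZero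

section ring

variable {d : ℕ} (P : Fin d → ℤ[X]) (A D : ℤ[X])

/-- the value of a polynomial with integral coefficients -/
noncomputable def evZ {S : Type*} [CommRing S] (Q : ℤ[X]) (a : S) : S := aeval a Q

/-- the polynomial `D(x) P_1(y_1) ... P_d(y_d) - A(x) y_1 ... y_d` in the variables `y_l = X (inl l)`
and `x = X (inr 0)` -/
noncomputable def eqnV : MvPolynomial (Fin d ⊕ Fin 2) ℚ :=
  evZ D (MvPolynomial.X (Sum.inr 0)) * (∏ l, evZ (P l) (MvPolynomial.X (Sum.inl l))) -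
    evZ A (MvPolynomial.X (Sum.inr 0)) * ∏ l, MvPolynomial.X (Sum.inl l)

/-- the polynomial `w A(x) y_1 ... y_d - 1`, `w = X (inr 1)` -/
noncomputable def invV : MvPolynomial (Fin d ⊕ Fin 2) ℚ :=
  MvPolynomial.X (Sum.inr 1) *
    (evZ A (MvPolynomial.X (Sum.inr 0)) * ∏ l, MvPolynomial.X (Sum.inl l)) - 1

/-- the coordinate ring `ℚ[y_1, ..., y_d, x, w]/(D(x) P_1(y_1) ... P_d(y_d) - A(x) y_1 ... y_d,
w A(x) y_1 ... y_d - 1)` -/
def VR : Type := MvPolynomial (Fin d ⊕ Fin 2) ℚ ⧸ Ideal.span {eqnV P A D, invV A}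

noncomputable instance instCommRingVR : CommRing (VR P A D) :=
  Ideal.Quotient.commRing (Ideal.span {eqnV P A D, invV A})

/-- the class of a polynomial -/
noncomputable def mkV : MvPolynomial (Fin d ⊕ Fin 2) ℚ →+* VR P A D :=
  Ideal.Quotient.mk (Ideal.span {eqnV P A D, invV A})

/-- the function `y_l` -/
noncomputable def yV (l : Fin d) : VR P A D := mkV P A D (MvPolynomial.X (Sum.inl l))

/-- the function `x` -/
noncomputable def xV : VR P A D := mkV P A D (MvPolynomial.X (Sum.inr 0))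

theorem map_evZ {S T : Type*} [CommRing S] [CommRing T] (f : S →+* T) (Q : ℤ[X]) (a : S) :
    f (evZ Q a) = evZ Q (f a) :=
  (aeval_algHom_apply f.toIntAlgHom a Q).symm

theorem evZ_mul {S : Type*} [CommRing S] (Q R : ℤ[X]) (a : S) :
    evZ (Q * R) a = evZ Q a * evZ R a := map_mul _ _ _

theorem evZ_prod {S ι : Type*} [CommRing S] (t : Finset ι) (Q : ι → ℤ[X]) (a : S) :
    evZ (∏ i ∈ t, Q i) a = ∏ i ∈ t, evZ (Q i) a := map_prod _ _ _

theorem evZ_X {S : Type*} [CommRing S] (a : S) : evZ X a = a := aeval_X a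

theorem evZ_shift {S : Type*} [CommRing S] (Q : ℤ[X]) (ν : ℤ) (x : S) :
    evZ (Q.comp (X + C ν)) x = evZ Q (x + (ν : S)) := by
  unfold evZ
  rw [aeval_comp, map_add, aeval_X, aeval_C]
  rfl

theorem evZ_field {L : Type*} [Field L] (Q : ℤ[X]) (a : L) : evZ Q a = aeval a Q := rfl

theorem evZ_cx (Q : ℤ[X]) (x : ℂ) : evZ Q x = (cx Q).eval x := by
  unfold cx evZ
  rw [eval_map, aeval_def]
  exact congrArg (fun φ => eval₂ φ x Q) (Subsingleton.elim _ _)

theorem relV : evZ D (xV P A D) * ∏ l, evZ (P l) (yV P A D l) =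
    evZ A (xV P A D) * ∏ l, yV P A D l := by
  have h : mkV P A D (eqnV P A D) = 0 :=
    Ideal.Quotient.eq_zero_iff_mem.2 (Ideal.subset_span (Set.mem_insert _ _))
  unfold eqnV at h
  rw [map_sub, map_mul, map_mul, map_prod, map_prod, sub_eq_zero, map_evZ, map_evZ] at h
  simp only [map_evZ] at h
  exact h

theorem unitV : IsUnit (evZ A (xV P A D) * ∏ l, yV P A D l) := by
  have h : mkV P A D (invV A) = 0 :=
    Ideal.Quotient.eq_zero_iff_mem.2 (Ideal.subset_span (Set.mem_insert_of_mem _ rfl))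
  unfold invV at h
  rw [map_sub, map_mul, map_mul, map_prod, map_one, sub_eq_zero, map_evZ] at h
  exact IsUnit.of_mul_eq_one _ (by rw [mul_comm]; exact h)

theorem unit_yV (l : Fin d) : IsUnit (yV P A D l) :=
  isUnit_of_dvd_unit ((Finset.dvd_prod_of_mem _ (Finset.mem_univ l)).mul_left _) (unitV P A D)

theorem unit_AV : IsUnit (evZ A (xV P A D)) :=
  isUnit_of_dvd_unit (dvd_mul_right _ _) (unitV P A D)

theorem unit_DV : IsUnit (evZ D (xV P A D)) := by
  have h := unitV P A D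
  rw [← relV] at h
  exact isUnit_of_dvd_unit (dvd_mul_right _ _) h

end ring

section eval

variable {d : ℕ}

theorem contDiff_ev {σ : Type*} {v : (Fin d → ℝ) → σ → ℂ} (hv : ∀ i, ContDiff ℝ 2 fun θ => v θ i)
    (q : MvPolynomial σ ℚ) :
    ContDiff ℝ 2 fun θ => MvPolynomial.eval₂Hom (algebraMap ℚ ℂ) (v θ) q := by
  induction q using MvPolynomial.induction_on with
  | C a => simpa using contDiff_const
  | add p q hp hq =>
    simp only [map_add]
    exact hp.add hq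
  | mul_X p i hp =>
    simp only [map_mul]
    refine hp.mul ?_
    simpa using hv i

/-- the torus given by the values of the variables -/
noncomputable def mkTV {σ : Type*} (I : Ideal (MvPolynomial σ ℚ)) (v : (Fin d → ℝ) → σ → ℂ)
    (hv : ∀ i, ContDiff ℝ 2 fun θ => v θ i) (hp : ∀ θ i, v (θ + Pi.single i 1) = v θ)
    (hI : ∀ θ, ∀ q ∈ I, MvPolynomial.eval₂Hom (algebraMap ℚ ℂ) (v θ) q = 0) :
    Torus (MvPolynomial σ ℚ ⧸ I) d where
  e θ := Ideal.Quotient.lift I (MvPolynomial.eval₂Hom (algebraMap ℚ ℂ) (v θ)) (hI θ)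
  smooth h := by
    obtain ⟨q, rfl⟩ := Ideal.Quotient.mk_surjective h
    simp only [Ideal.Quotient.lift_mk]
    exact contDiff_ev hv q
  periodic θ i := by
    refine Ideal.Quotient.ringHom_ext (RingHom.ext fun q => ?_)
    rw [RingHom.comp_apply, RingHom.comp_apply, Ideal.Quotient.lift_mk, Ideal.Quotient.lift_mk,
      hp θ i]

/-- The torus over the circles. -/
theorem exists_torusD {P : Fin d → ℤ[X]} {A D : ℤ[X]} {x : (Fin d → ℝ) → ℂ}
    {G : Fin d → ℝ → ℂ} (hG : ∀ l, ContDiff ℝ 2 (G l)) (hGp : ∀ l s, G l (s + 1) = G l s)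
    (hG0 : ∀ l s, G l s ≠ 0) (hx : ContDiff ℝ 2 x) (hxp : Per x)
    (hA : ∀ θ, evZ A (x θ) ≠ 0)
    (heq : ∀ θ, evZ D (x θ) * ∏ l, evZ (P l) (G l (θ l)) =
      evZ A (x θ) * ∏ l, G l (θ l)) :
    ∃ Γ : Torus (VR P A D) d, (∀ θ l, Γ.e θ (yV P A D l) = G l (θ l)) ∧
      (∀ θ, Γ.e θ (xV P A D) = x θ) := by
  obtain ⟨Δ, hΔ⟩ : ∃ Δ : (Fin d → ℝ) → ℂ, Δ = fun θ => evZ A (x θ) * ∏ l, G l (θ l) :=
    ⟨_, rfl⟩
  have hAs : ContDiff ℝ 2 fun θ => evZ A (x θ) := by
    have e : (fun θ => evZ A (x θ)) = fun θ => (cx A).eval (x θ) := by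
      funext θ
      exact evZ_cx A (x θ)
    rw [e]
    exact contDiff_poly hx _
  have hGs : ∀ l, ContDiff ℝ 2 fun θ : Fin d → ℝ => G l (θ l) := fun l =>
    (hG l).comp (contDiff_apply ℝ ℝ l)
  have hΔs : ContDiff ℝ 2 Δ := by
    rw [hΔ]
    exact hAs.mul (contDiff_prod fun l _ => hGs l)
  have hΔ0 : ∀ θ, Δ θ ≠ 0 := fun θ => by
    rw [hΔ]
    exact mul_ne_zero (hA θ) (Finset.prod_ne_zero_iff.2 fun l _ => hG0 l _)
  have hGper : ∀ (θ : Fin d → ℝ) (i l : Fin d),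
      G l ((θ + Pi.single i 1 : Fin d → ℝ) l) = G l (θ l) := by
    intro θ i l
    by_cases hl : l = i
    · subst hl
      rw [Pi.add_apply, Pi.single_eq_same, hGp]
    · rw [Pi.add_apply, Pi.single_eq_of_ne hl, add_zero]
  have hΔp : ∀ θ i, Δ (θ + Pi.single i 1) = Δ θ := by
    intro θ i
    rw [hΔ]
    simp only
    rw [hxp θ i]
    simp only [hGper θ i]
  obtain ⟨v, hv⟩ : ∃ v : (Fin d → ℝ) → Fin d ⊕ Fin 2 → ℂ,
      v = fun θ => Sum.elim (fun l => G l (θ l)) ![x θ, (Δ θ)⁻¹] := ⟨_, rfl⟩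
  have hvs : ∀ i, ContDiff ℝ 2 fun θ => v θ i := by
    rintro (l | i)
    · simp only [hv, Sum.elim_inl]
      exact hGs l
    · simp only [hv, Sum.elim_inr]
      match i with
      | 0 => simpa using hx
      | 1 =>
        have h1 : ContDiff ℝ 2 fun θ => (Δ θ)⁻¹ := hΔs.inv hΔ0
        simpa using h1
  have hvp : ∀ θ i, v (θ + Pi.single i 1) = v θ := by
    intro θ i
    rw [hv]
    simp only
    rw [hxp θ i, hΔp θ i]
    simp only [hGper θ i]
  have hev : ∀ θ (Q : ℤ[X]) (q : MvPolynomial (Fin d ⊕ Fin 2) ℚ),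
      MvPolynomial.eval₂Hom (algebraMap ℚ ℂ) (v θ) (evZ Q q) =
        evZ Q (MvPolynomial.eval₂Hom (algebraMap ℚ ℂ) (v θ) q) := fun θ Q q =>
    map_evZ _ _ _
  have hX : ∀ θ i, MvPolynomial.eval₂Hom (algebraMap ℚ ℂ) (v θ) (MvPolynomial.X i) = v θ i :=
    fun θ i => by simp
  have hl : ∀ θ l, v θ (Sum.inl l) = G l (θ l) := fun θ l => by rw [hv]; rfl
  have h0 : ∀ θ, v θ (Sum.inr 0) = x θ := fun θ => by rw [hv]; rfl
  have h1 : ∀ θ, v θ (Sum.inr 1) = (Δ θ)⁻¹ := fun θ => by rw [hv]; rfl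
  have hI : ∀ θ, ∀ q ∈ (Ideal.span {eqnV P A D, invV A} :
        Ideal (MvPolynomial (Fin d ⊕ Fin 2) ℚ)),
      MvPolynomial.eval₂Hom (algebraMap ℚ ℂ) (v θ) q = 0 := by
    intro θ
    have hle : (Ideal.span {eqnV P A D, invV A} :
        Ideal (MvPolynomial (Fin d ⊕ Fin 2) ℚ)) ≤
        RingHom.ker (MvPolynomial.eval₂Hom (algebraMap ℚ ℂ) (v θ)) := by
      rw [Ideal.span_le]
      rintro q (rfl | rfl)
      · show MvPolynomial.eval₂Hom (algebraMap ℚ ℂ) (v θ) (eqnV P A D) = 0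
        unfold eqnV
        simp only [map_sub, map_mul, map_prod, hev, hX, hl, h0]
        rw [heq θ, sub_self]
      · show MvPolynomial.eval₂Hom (algebraMap ℚ ℂ) (v θ) (invV A) = 0
        unfold invV
        simp only [map_sub, map_mul, map_prod, map_one, hev, hX, hl, h0, h1]
        have e : evZ A (x θ) * ∏ l, G l (θ l) = Δ θ := by rw [hΔ]
        rw [e, inv_mul_cancel₀ (hΔ0 θ), sub_self]
    exact fun q hq => hle hq
  refine ⟨mkTV _ v hvs hvp hI, fun θ l => ?_, fun θ => ?_⟩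
  · have h2 : (mkTV _ v hvs hvp hI).e θ (yV P A D l) =
        MvPolynomial.eval₂Hom (algebraMap ℚ ℂ) (v θ) (MvPolynomial.X (Sum.inl l)) :=
      Ideal.Quotient.lift_mk _ _ _
    exact h2.trans (by rw [hX, hl])
  · have h2 : (mkTV _ v hvs hvp hI).e θ (xV P A D) =
        MvPolynomial.eval₂Hom (algebraMap ℚ ℂ) (v θ) (MvPolynomial.X (Sum.inr 0)) :=
      Ideal.Quotient.lift_mk _ _ _
    exact h2.trans (by rw [hX, h0])

end eval

end Pool.Agent.H442
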