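import Pool.Agent.H442.TorD
set_option autoImplicit false

/-!
The tori over the product of the circles `y_l = t_l^{κ_l}`, `|t_l| = 1 / 2`, and the approximate
values of the regulator integrals.
-/

namespace Pool.Agent.H442

open Polynomial Metric Set Filter Topology MeasureTheory

open Pool.Agent.TH826.MK (circ norm_circ contDiff_circ circ_add_one wd One one_lin Good Per lw grow
  tl tl_apply vf pairing pairing_cons_mul pairing_const pairing_prod good_prod abs_pairing_le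
  norm_grow_le continuous_grow lw_mul grow_mul)

open scoped Real

variable {d : ℕ}

/-- the power of a function of one variable -/
theorem oneH_pow {G : ℝ → ℂ} {w : ℝ} (h : One G w) (n : ℕ) : One (fun s => G s ^ n) (n * w) where
  smooth := h.smooth.pow n
  ne_zero s := pow_ne_zero _ (h.ne_zero s)
  per s := by rw [h.per]
  wind := by
    have e : ∀ s, deriv (fun s => G s ^ n) s / G s ^ n = n * (deriv G s / G s) := by
      intro s
      have h1 := (((h.smooth.differentiable (by norm_num)) s).hasDerivAt.pow n).deriv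
      have h2 : deriv (fun s => G s ^ n) s = n * G s ^ (n - 1) * deriv G s := h1
      have h0 := h.ne_zero s
      rw [h2]
      rcases n with _ | n
      · simp
      · rw [Nat.add_sub_cancel, pow_succ]
        field_simp
    simp only [e]
    rw [integral_const_mul, h.wind]
    push_cast
    ring

/-- the functions `y_l` on the torus -/
noncomputable def cH (κ : Fin d → ℕ) : Fin d → ℝ → ℂ := fun l s => circ (1 / 2) s ^ κ l

variable {κ : Fin d → ℕ}

theorem one_circ : One (circ (1 / 2)) 1 := by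
  have h := one_lin (R := 1 / 2) (by norm_num) (b := 0) (by norm_num)
  have e1 : (fun s => circ (1 / 2) s - 0) = circ (1 / 2) := by
    funext s
    rw [sub_zero]
  have e2 : wd (1 / 2) 0 = 1 := by
    unfold wd
    rw [if_pos (by norm_num)]
  rw [e1, e2] at h
  exact h

theorem one_cH (l : Fin d) : One (cH κ l) (κ l) := by
  have h := oneH_pow one_circ (κ l)
  rw [mul_one] at h
  exact h

/-- the normalised regulator integral of `{H, y_1, ..., y_d}` -/
noncomputable def qE (κ : Fin d → ℕ) (H : (Fin d → ℝ) → ℂ) : ℝ :=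
  -(2 * π / ((2 * π) ^ d * ∏ l, (κ l : ℝ))) * pairing (Fin.cons H (vf (cH κ)))

theorem good_vfH (l : Fin d) : Good (vf (cH κ) l) := (one_cH l).good l

theorem qE_mul {a b : (Fin d → ℝ) → ℂ} (ha : Good a) (hb : Good b) :
    qE κ (fun θ => a θ * b θ) = qE κ a + qE κ b := by
  unfold qE
  rw [pairing_cons_mul ha hb good_vfH]
  ring

theorem qE_prod {ι : Type*} [DecidableEq ι] (s : Finset ι) {F : ι → (Fin d → ℝ) → ℂ}
    (hF : ∀ j, Good (F j)) : qE κ (fun θ => ∏ j ∈ s, F j θ) = ∑ j ∈ s, qE κ (F j) := by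
  unfold qE
  rw [pairing_prod s hF one_cH, Finset.mul_sum]

theorem exists_apE (hκ0 : ∀ l, 0 < κ l) : ∃ E : ℝ, 0 ≤ E ∧ ∀ (H : (Fin d → ℝ) → ℂ) (C : ℝ), Good H →
    (∀ θ, |Real.log ‖H θ‖ - Real.log ‖H 0‖| ≤ C) →
    (∀ θ ∈ Icc (0 : Fin d → ℝ) 1, ∀ j, 2 * ‖lw H j θ‖ ≤ C) →
    |qE κ H + 2 * π * Real.log ‖H 0‖| ≤ C * E := by
  have hb : ∀ l : Fin d, ∃ E : ℝ, ∀ y ∈ Icc (0 : Fin (d + 1) → ℝ) 1, ∀ j,
      ‖grow (vf (cH κ) l) y j‖ ≤ E := by
    intro l
    obtain ⟨E, hE⟩ := isCompact_Icc.exists_bound_of_continuousOn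
      (continuous_grow (good_vfH l)).continuousOn (s := Icc (0 : Fin (d + 1) → ℝ) 1)
    exact ⟨E, fun y hy j => (norm_le_pi_norm _ j).trans (hE y hy)⟩
  choose E hE using hb
  have hπ := Real.pi_pos
  have hE0 : 0 ≤ ∏ l, E l := by
    refine Finset.prod_nonneg fun l _ => ?_
    exact (norm_nonneg _).trans (hE l 0 ⟨le_rfl, fun _ => zero_le_one⟩ 0)
  have hκ1 : 0 < ∏ l, (κ l : ℝ) := Finset.prod_pos fun l _ => by exact_mod_cast hκ0 l
  refine ⟨2 * π / ((2 * π) ^ d * ∏ l, (κ l : ℝ)) * ((d + 1).factorial * ∏ l, E l), by positivity, ?_⟩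
  intro H C hH hlog hlw
  have hκ : (2 * π) ^ d ≠ 0 := by positivity
  have h0 := hH.ne_zero 0
  have gc : Good fun _ : Fin d → ℝ => H 0 := ⟨contDiff_const, fun _ => h0⟩
  have gq : Good fun θ => H θ / H 0 := by
    refine ⟨?_, fun θ => div_ne_zero (hH.ne_zero θ) h0⟩
    have e : (fun θ => H θ / H 0) = fun θ => H θ * (H 0)⁻¹ := by
      funext θ
      rw [div_eq_mul_inv]
    rw [e]
    exact hH.smooth.mul contDiff_const
  have eH : H = fun θ => H 0 * (H θ / H 0) := by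
    funext θ
    field_simp
  have h1 : qE κ H = qE κ (fun _ : Fin d → ℝ => H 0) + qE κ (fun θ => H θ / H 0) := by
    conv_lhs => rw [eH]
    exact qE_mul gc gq
  have h2 : qE κ (fun _ : Fin d → ℝ => H 0) = -(2 * π * Real.log ‖H 0‖) := by
    unfold qE
    rw [pairing_const (H 0) (cH κ) (fun l => (κ l : ℝ)) one_cH]
    field_simp
  have h3 : qE κ H + 2 * π * Real.log ‖H 0‖ =
      -(2 * π / ((2 * π) ^ d * ∏ l, (κ l : ℝ))) * pairing (Fin.cons (fun θ => H θ / H 0) (vf (cH κ))) := by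
    rw [h1, h2]
    unfold qE
    ring
  have h4 : |pairing (Fin.cons (fun θ => H θ / H 0) (vf (cH κ)))| ≤
      (d + 1).factorial * (C * ∏ l, E l) := by
    refine abs_pairing_le (fun y hy j => norm_grow_le hy ?_ (fun j => ?_) j) hE
    · rw [norm_div, Real.log_div (norm_ne_zero_iff.2 (hH.ne_zero _)) (norm_ne_zero_iff.2 h0)]
      exact hlog _
    · have h5 := lw_mul gc gq j (tl d y)
      have h6 : lw (fun _ : Fin d → ℝ => H 0) j (tl d y) = 0 := by
        unfold lw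
        simp
      rw [← eH, h6, zero_add] at h5
      rw [← h5]
      exact hlw _ (tl_mem hy) j
  rw [h3, abs_mul, abs_neg, abs_of_nonneg (by positivity : 0 ≤ 2 * π / ((2 * π) ^ d * ∏ l, (κ l : ℝ)))]
  calc 2 * π / ((2 * π) ^ d * ∏ l, (κ l : ℝ)) * |pairing (Fin.cons (fun θ => H θ / H 0) (vf (cH κ)))| ≤
        2 * π / ((2 * π) ^ d * ∏ l, (κ l : ℝ)) * ((d + 1).factorial * (C * ∏ l, E l)) :=
        mul_le_mul_of_nonneg_left h4 (by positivity)
    _ = _ := by ring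

/-- The function `u` on the torus with all constants of the estimates. -/
structure SysE (κ : Fin d → ℕ) (u : (Fin d → ℝ) → ℂ) (B W E : ℝ) : Prop where
  nr : Good u
  per : Per u
  hB : 1 ≤ B
  hW : 2 ≤ W
  hE : 0 ≤ E
  rb : ∀ θ, ‖u θ‖ ≤ B
  rd : ∀ θ ∈ Icc (0 : Fin d → ℝ) 1, ∀ j, ‖fderiv ℝ u θ (Pi.single j 1)‖ ≤ B * (W / 2)
  ap : ∀ (H : (Fin d → ℝ) → ℂ) (C : ℝ), Good H →
    (∀ θ, |Real.log ‖H θ‖ - Real.log ‖H 0‖| ≤ C) →
    (∀ θ ∈ Icc (0 : Fin d → ℝ) 1, ∀ j, 2 * ‖lw H j θ‖ ≤ C) →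
    |qE κ H + 2 * π * Real.log ‖H 0‖| ≤ C * E
  pb : |qE κ u| ≤ E

theorem exists_SysE (hκ0 : ∀ l, 0 < κ l) {u : (Fin d → ℝ) → ℂ} (hu : Good u) (hp : Per u) {B₀ : ℝ}
    (hb : ∀ θ, ‖u θ‖ ≤ B₀) : ∃ B W E : ℝ, SysE κ u B W E := by
  obtain ⟨E₀, hE₀, hap⟩ := exists_apE hκ0
  obtain ⟨W₀, hW₀⟩ := isCompact_Icc.exists_bound_of_continuousOn (s := Icc (0 : Fin d → ℝ) 1)
    (f := fun θ => fderiv ℝ u θ) (hu.smooth.continuous_fderiv (by norm_num)).continuousOn
  have hW0 : 0 ≤ W₀ := (norm_nonneg _).trans (hW₀ 0 ⟨le_rfl, fun _ => zero_le_one⟩)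
  refine ⟨max 1 B₀, 2 * (1 + W₀), max E₀ |qE κ u|, hu, hp, le_max_left _ _, by linarith,
    hE₀.trans (le_max_left _ _), fun θ => (hb θ).trans (le_max_right _ _), fun θ hθ j => ?_,
    fun H C hH h1 h2 => ?_, le_max_right _ _⟩
  · have h1 := (fderiv ℝ u θ).le_opNorm (Pi.single j 1)
    have h2 : ‖(Pi.single j 1 : Fin d → ℝ)‖ = 1 := by
      rw [Pi.norm_single, norm_one]
    rw [h2, mul_one] at h1
    have h3 := hW₀ θ hθ
    have h4 : (1 : ℝ) ≤ max 1 B₀ := le_max_left _ _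
    calc ‖fderiv ℝ u θ (Pi.single j 1)‖ ≤ 1 * (1 + W₀) := by linarith
      _ ≤ max 1 B₀ * (1 + W₀) := mul_le_mul_of_nonneg_right h4 (by linarith)
      _ = _ := by ring
  · have hC : 0 ≤ C := (abs_nonneg _).trans (h1 0)
    exact (hap H C hH h1 h2).trans (mul_le_mul_of_nonneg_left (le_max_left _ _) hC)

/-- The torus near the large zero of `R_i` with the approximate regulators. -/
theorem xtorusE {u : (Fin d → ℝ) → ℂ} {B W E : ℝ} (hY : SysE κ u B W E)
    {r : ℕ} {p T₀ K : ℝ} {D : ℤ[X]} {R : Fin r → ℤ[X]} {M : ℤ[X]} {i : Fin r} (hT₀ : 0 < T₀)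
    (hK : E * (1 + W * (1 + D.natDegree + (∑ k, ((R k).natDegree : ℝ)) + M.natDegree)) ≤ K)
    (H : DiscData6 T₀ B p D R M i) :
    ∃ (Xs : (Fin d → ℝ) → ℂ) (x a : ℝ) (b : Fin r → ℝ), ContDiff ℝ 2 Xs ∧ Per Xs ∧
      (∀ s, (cx D).eval (Xs s) ≠ 0) ∧
      (∀ s, (cx (X * (∏ k, R k) * M)).eval (Xs s) = u s * (cx D).eval (Xs s)) ∧
      (∀ s, (wrn (cx (X * (∏ k, R k) * M)) (cx D)).eval (Xs s) ≠ 0) ∧
      Good Xs ∧ (∀ k, Good fun s => (cx (R k)).eval (Xs s)) ∧ T₀ ≤ x ∧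
      (∀ k, k ≠ i → (p - 1 / 2) * x ≤ b k) ∧ a ≤ (p - 3 / 4) * x ∧
      (|qE κ Xs + 2 * π * x| ≤ K) ∧
      (∀ k, k ≠ i → |qE κ (fun s => (cx (R k)).eval (Xs s)) + 2 * π * b k| ≤ K) ∧
      |qE κ (fun s => (cx (R i)).eval (Xs s)) +
        2 * π * (a - ∑ k ∈ Finset.univ.erase i, b k)| ≤ K := by
  classical
  obtain ⟨ξ, δ, U, hδ, hU, hx⟩ := H
  have hB0 : 0 < B := zero_lt_one.trans_le hY.hB
  have hcc : (B : ℂ) ≠ 0 := by exact_mod_cast hB0.ne'
  have hsub' : ball ξ δ ⊆ ball ξ (2 * δ) := ball_subset_ball (by linarith)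
  obtain ⟨xb, hxb, hxd⟩ := exists_xbr hY.hB (D := cx D)
    (R := cx (R i)) (G := cx ((∏ k ∈ Finset.univ.erase i, R k) * M)) hδ hU
    (fun x h => (hx x h).1) (fun x h => (hx x h).2.2.2.2.2.1) (fun x h => (hx x h).2.2.1)
    (fun x h => (hx x h).2.2.2.2.2.2.1)
  have hpr : X * cx (R i) * cx ((∏ k ∈ Finset.univ.erase i, R k) * M) =
      cx (X * (∏ k, R k) * M) := by
    rw [← Finset.mul_prod_erase _ _ (Finset.mem_univ i)]
    simp only [cx_mul]
    have e : cx X = X := by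
      unfold cx
      rw [Polynomial.map_X]
    rw [e]
    ring
  rw [hpr] at hxb
  obtain ⟨w, hw⟩ : ∃ w : (Fin d → ℝ) → ℂ, w = fun θ => u θ * (B : ℂ)⁻¹ := ⟨_, rfl⟩
  have hw1 : ∀ θ, ‖w θ‖ ≤ 1 := by
    intro θ
    rw [hw]
    simp only
    rw [← div_eq_mul_inv, norm_div, Complex.norm_real, Real.norm_eq_abs, abs_of_pos hB0]
    exact (div_le_one hB0).2 (hY.rb θ)
  have hwb : ∀ θ, w θ ∈ ball (0 : ℂ) (9 / 2) := by
    intro θ
    rw [mem_ball_zero_iff]
    linarith [hw1 θ]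
  have hucd : ContDiff ℝ 2 w := by
    rw [hw]
    exact hY.nr.smooth.mul contDiff_const
  obtain ⟨Y, hYdef⟩ : ∃ Y : (Fin d → ℝ) → ℂ, Y = fun θ => xb (w θ) := ⟨_, rfl⟩
  have hYcd : ContDiff ℝ 2 Y := by
    rw [hYdef, contDiff_iff_contDiffAt]
    intro θ
    exact (((hxb _ (hwb θ)).1).contDiffAt.restrict_scalars ℝ).comp θ hucd.contDiffAt
  have hYper : Per Y := fun θ i => by
    rw [hYdef, hw]
    simp only
    rw [hY.per θ i]
  have hYd : ∀ s, ‖Y s - ξ‖ < δ := fun s => by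
    rw [hYdef]
    exact (hxb _ (hwb s)).2.1
  have hYb : ∀ s, Y s ∈ ball ξ (2 * δ) := fun s => hsub' (mem_ball_iff_norm.2 (hYd s))
  have hYm : ∀ s, (cx (X * (∏ k, R k) * M)).eval (Y s) = u s * (cx D).eval (Y s) := by
    intro s
    have h1 := (hxb _ (hwb s)).2.2.1
    have h2 : (B : ℂ) * w s = u s := by
      rw [hw]
      field_simp
    rw [h2] at h1
    rw [hYdef]
    exact h1
  have hYw : ∀ s, (wrn (cx (X * (∏ k, R k) * M)) (cx D)).eval (Y s) ≠ 0 := by
    intro s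
    rw [hYdef]
    exact (hxb _ (hwb s)).2.2.2
  have hYW : ∀ θ ∈ Icc (0 : Fin d → ℝ) 1, ∀ j, ‖fderiv ℝ Y θ (Pi.single j 1)‖ ≤
      δ * (W / 2) := by
    intro θ hθ j
    have hd : HasFDerivAt u (fderiv ℝ u θ) θ :=
      ((hY.nr.smooth.differentiable (by norm_num)) θ).hasFDerivAt
    have hd1 : HasFDerivAt w ((B : ℂ)⁻¹ • fderiv ℝ u θ) θ := by
      rw [hw]
      exact hd.mul_const _
    have hd2 : HasFDerivAt Y (deriv xb (w θ) • ((B : ℂ)⁻¹ • fderiv ℝ u θ)) θ := by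
      rw [hYdef]
      exact ((hxb _ (hwb θ)).1.differentiableAt.hasDerivAt).comp_hasFDerivAt θ hd1
    rw [hd2.fderiv, _root_.smul_apply, _root_.smul_apply, smul_eq_mul, smul_eq_mul, norm_mul,
      norm_mul, norm_inv, Complex.norm_real, Real.norm_eq_abs, abs_of_pos hB0]
    have h1 := hxd (w θ) (hw1 θ)
    have h2 := hY.rd θ hθ j
    have h3 : B⁻¹ * ‖fderiv ℝ u θ (Pi.single j 1)‖ ≤ W / 2 := by
      rw [inv_mul_le_iff₀ hB0]
      exact h2
    exact mul_le_mul h1 h3 (by positivity) hδ.le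
  have hx0 : ∀ x ∈ ball ξ (2 * δ), x ≠ 0 := by
    intro x h h0
    have h1 := (hx x h).2.1
    rw [h0, norm_zero, Real.log_zero] at h1
    linarith
  have hW0 : 0 ≤ W := by linarith [hY.hW]
  have hEW : 0 ≤ E * W := mul_nonneg hY.hE hW0
  -- the polynomials without zeros in the disc
  have hpol : ∀ P : ℤ[X], (∀ x ∈ ball ξ (2 * δ), (cx P).eval x ≠ 0) →
      Good (fun s => (cx P).eval (Y s)) ∧ |qE κ (fun s => (cx P).eval (Y s)) +
        2 * π * Real.log ‖(cx P).eval (Y 0)‖| ≤ E * W * P.natDegree := by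
    intro P hP
    obtain ⟨h1, h2, h3⟩ := polyD hYcd hδ hYd hYW hY.hW hP
    refine ⟨h1, ?_⟩
    refine (hY.ap _ _ h1 h2 h3).trans ?_
    have h4 : ((cx P).natDegree : ℝ) ≤ P.natDegree := by
      unfold cx
      exact_mod_cast natDegree_map_le
    calc (cx P).natDegree * W * E = E * W * (cx P).natDegree := by ring
      _ ≤ E * W * P.natDegree := mul_le_mul_of_nonneg_left h4 hEW
  have hcX : ∀ x, (cx X).eval x = x := by
    intro x
    unfold cx
    rw [Polynomial.map_X, eval_X]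
  obtain ⟨nX, eX⟩ := hpol X (fun x h => by rw [hcX]; exact hx0 x h)
  simp only [hcX, natDegree_X, Nat.cast_one, mul_one] at nX eX
  obtain ⟨nD, eD⟩ := hpol D (fun x h => (hx x h).2.2.1)
  obtain ⟨nM, eM⟩ := hpol M (fun x h => (hx x h).2.2.2.2.1)
  have hRk := fun (k : Fin r) (hk : k ≠ i) => hpol (R k) (fun x h => (hx x h).2.2.2.1 k hk)
  have hprod : ∀ s, (cx (X * (∏ k, R k) * M)).eval (Y s) =
      Y s * (∏ k, (cx (R k)).eval (Y s)) * (cx M).eval (Y s) := by
    intro s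
    rw [cx_mul, cx_mul, cx_prod, eval_mul, eval_mul, eval_prod, hcX]
  have nR : Good fun s => (cx (R i)).eval (Y s) := by
    refine ⟨contDiff_poly hYcd _, fun s h => ?_⟩
    have h1 := hYm s
    rw [hprod, Finset.prod_eq_zero (Finset.mem_univ i) h, mul_zero, zero_mul] at h1
    exact mul_ne_zero (hY.nr.ne_zero s) (nD.ne_zero s) h1.symm
  have nRk : ∀ k, Good fun s => (cx (R k)).eval (Y s) := by
    intro k
    by_cases hk : k = i
    · rw [hk]
      exact nR
    · exact (hRk k hk).1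
  have hsum : (∑ k ∈ Finset.univ.erase i, ((R k).natDegree : ℝ)) ≤ ∑ k, ((R k).natDegree : ℝ) :=
    Finset.sum_le_sum_of_subset_of_nonneg (Finset.erase_subset _ _)
      (fun k _ _ => Nat.cast_nonneg _)
  have hs0 : (0 : ℝ) ≤ ∑ k ∈ Finset.univ.erase i, ((R k).natDegree : ℝ) :=
    Finset.sum_nonneg fun k _ => Nat.cast_nonneg _
  have hD0 : (0 : ℝ) ≤ D.natDegree := Nat.cast_nonneg _
  have hM0 : (0 : ℝ) ≤ M.natDegree := Nat.cast_nonneg _
  have hE0 := hY.hE
  have hK1 : ∀ t : ℝ, t ≤ 1 + D.natDegree + (∑ k, ((R k).natDegree : ℝ)) + M.natDegree →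
      E + E * W * t ≤ K := by
    intro t ht
    refine le_trans ?_ hK
    have h1 : E * W * t ≤ E * W * (1 + D.natDegree + (∑ k, ((R k).natDegree : ℝ)) +
        M.natDegree) := mul_le_mul_of_nonneg_left ht hEW
    linarith
  refine ⟨Y, Real.log ‖Y 0‖, Real.log ‖(cx D).eval (Y 0)‖ - Real.log ‖Y 0‖ -
    Real.log ‖(cx M).eval (Y 0)‖, fun k => Real.log ‖(cx (R k)).eval (Y 0)‖, hYcd, hYper,
    nD.ne_zero, hYm, hYw, nX, nRk, (hx _ (hYb 0)).2.1,
    fun k hk => (hx _ (hYb 0)).2.2.2.2.2.2.2.1 k hk, ?_, ?_, fun k hk => ?_, ?_⟩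
  · have := (hx _ (hYb 0)).2.2.2.2.2.2.2.2
    linarith
  · refine eX.trans ?_
    have := hK1 1 (by linarith)
    linarith
  · refine (hRk k hk).2.trans ?_
    have h1 : ((R k).natDegree : ℝ) ≤ ∑ k, ((R k).natDegree : ℝ) :=
      Finset.single_le_sum (f := fun k => ((R k).natDegree : ℝ)) (fun k _ => Nat.cast_nonneg _)
        (Finset.mem_univ k)
    have := hK1 (R k).natDegree (by linarith)
    linarith
  · -- the class of `R_i`
    have e1 : (fun s => Y s * (∏ k, (cx (R k)).eval (Y s)) * (cx M).eval (Y s)) =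
        fun s => u s * (cx D).eval (Y s) := by
      funext s
      rw [← hprod]
      exact hYm s
    have e2 := congrArg (qE κ) e1
    rw [qE_mul (nX.mul (good_prod _ nRk)) nM, qE_mul nX (good_prod _ nRk),
      qE_prod _ nRk, qE_mul hY.nr nD, ← Finset.add_sum_erase _ _ (Finset.mem_univ i)] at e2
    have e3 : qE κ (fun s => (cx (R i)).eval (Y s)) +
        2 * π * (Real.log ‖(cx D).eval (Y 0)‖ - Real.log ‖Y 0‖ -
          Real.log ‖(cx M).eval (Y 0)‖ - ∑ k ∈ Finset.univ.erase i,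
            Real.log ‖(cx (R k)).eval (Y 0)‖) =
        qE κ u +
        (qE κ (fun s => (cx D).eval (Y s)) +
          2 * π * Real.log ‖(cx D).eval (Y 0)‖) -
        (qE κ Y + 2 * π * Real.log ‖Y 0‖) -
        (qE κ (fun s => (cx M).eval (Y s)) +
          2 * π * Real.log ‖(cx M).eval (Y 0)‖) -
        ∑ k ∈ Finset.univ.erase i, (qE κ (fun s => (cx (R k)).eval (Y s)) +
            2 * π * Real.log ‖(cx (R k)).eval (Y 0)‖) := by
      rw [Finset.sum_add_distrib, ← Finset.mul_sum]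
      linear_combination e2
    rw [e3]
    have h1 : |∑ k ∈ Finset.univ.erase i, (qE κ (fun s => (cx (R k)).eval (Y s)) +
            2 * π * Real.log ‖(cx (R k)).eval (Y 0)‖)| ≤
        E * W * ∑ k ∈ Finset.univ.erase i, ((R k).natDegree : ℝ) := by
      refine (Finset.abs_sum_le_sum_abs _ _).trans ?_
      rw [Finset.mul_sum]
      exact Finset.sum_le_sum fun k hk => (hRk k (Finset.ne_of_mem_erase hk)).2
    have h5 := hY.pb
    have h6 := hK1 (1 + D.natDegree + (∑ k ∈ Finset.univ.erase i, ((R k).natDegree : ℝ)) +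
      M.natDegree) (by linarith)
    rw [abs_le] at h1 eX eD eM h5 ⊢
    constructor <;> linarith [h1.1, h1.2, eX.1, eX.2, eD.1, eD.2, eM.1, eM.2, h5.1, h5.2]

/-- Injectivity of the regulators. -/
theorem matE {u : (Fin d → ℝ) → ℂ} {B W E : ℝ} (hY : SysE κ u B W E)
    {r : ℕ} (hr : 0 < r) {p T₀ K : ℝ} (hp : 1 ≤ p) {D : ℤ[X]} {R : Fin r → ℤ[X]} {M : ℤ[X]}
    (hT₀ : 0 < T₀) (hT : (r + 1) * K * (8 * (1 + 2 * p)) ≤ π * T₀)
    (hK : E * (1 + W * (1 + D.natDegree + (∑ k, ((R k).natDegree : ℝ)) + M.natDegree)) ≤ K)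
    (H : ∀ i, DiscData6 T₀ B p D R M i) {j : Fin r → ℕ} (hj : ∀ k, p ≤ j k) :
    ∃ Xs : Fin r → (Fin d → ℝ) → ℂ, (∀ i, ContDiff ℝ 2 (Xs i)) ∧ (∀ i, Per (Xs i)) ∧
      (∀ i s, (cx D).eval (Xs i s) ≠ 0) ∧
      (∀ i s, (cx (X * (∏ k, R k) * M)).eval (Xs i s) = u s * (cx D).eval (Xs i s)) ∧
      (∀ i s, (wrn (cx (X * (∏ k, R k) * M)) (cx D)).eval (Xs i s) ≠ 0) ∧
      (∀ i, Good (Xs i)) ∧ (∀ i k, Good fun s => (cx (R k)).eval (Xs i s)) ∧
      ∀ C : Fin r → ℝ, (∀ i, ∑ k, C k * (qE κ (fun s => (cx (R k)).eval (Xs i s)) -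
        j k * qE κ (Xs i)) = 0) → ∀ k, C k = 0 := by
  classical
  choose Xs x a b h1 h2 h3 h4 hw h5 h6 h7 h8 h9 h10 h11 h12 using
    fun (i : Fin r) => xtorusE hY hT₀ hK (H i)
  refine ⟨Xs, h1, h2, h3, h4, hw, h5, h6, fun C hC => ?_⟩
  have hK0 : 0 ≤ K := by
    refine le_trans ?_ hK
    have h13 : (0 : ℝ) ≤ ∑ k, ((R k).natDegree : ℝ) := Finset.sum_nonneg fun k _ =>
      Nat.cast_nonneg _
    have := hY.hE
    have := hY.hW
    positivity
  have key := lin7_full (m := mI) mI_inv (J' := fun k => (j k : ℝ)) hp hr hK0 hT₀ hT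
    (x := fun _ i => x i) (a := fun _ i => a i) (b := fun _ i => b i)
    (fun _ i => h7 i) (fun _ i => h8 i) (fun _ i => h9 i) hj
    (PX := fun β α i => mI β α * qE κ (Xs i))
    (P := fun β α i k => mI β α * qE κ (fun s => (cx (R k)).eval (Xs i s)))
    (fun β α i => by
      by_cases hβ : β = α
      · have e : mI β α = 1 := if_pos hβ
        rw [e, one_mul, mul_one]
        exact h10 i
      · have e : mI β α = 0 := if_neg hβ
        rw [e, zero_mul, mul_zero, zero_mul, add_zero, abs_zero]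
        exact hK0)
    (fun β α i k hk => by
      by_cases hβ : β = α
      · have e : mI β α = 1 := if_pos hβ
        rw [e, one_mul, mul_one]
        exact h11 i k hk
      · have e : mI β α = 0 := if_neg hβ
        rw [e, zero_mul, mul_zero, zero_mul, add_zero, abs_zero]
        exact hK0)
    (fun β α i => by
      by_cases hβ : β = α
      · have e : mI β α = 1 := if_pos hβ
        rw [e, one_mul, mul_one]
        exact h12 i
      · have e : mI β α = 0 := if_neg hβ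
        rw [e, zero_mul, mul_zero, zero_mul, add_zero, abs_zero]
        exact hK0)
    (c := fun _ k => C k)
    (fun α i => by
      have h13 := hC i
      have e : ∀ β : Fin 2, ∑ k, C k * (mI β α * qE κ (fun s => (cx (R k)).eval (Xs i s)) -
          j k * (mI β α * qE κ (Xs i))) = 0 := by
        intro β
        have e1 : ∑ k, C k * (mI β α * qE κ (fun s => (cx (R k)).eval (Xs i s)) -
            j k * (mI β α * qE κ (Xs i))) = mI β α * ∑ k, C k *
              (qE κ (fun s => (cx (R k)).eval (Xs i s)) - j k * qE κ (Xs i)) := by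
          rw [Finset.mul_sum]
          exact Finset.sum_congr rfl fun k _ => by ring
        rw [e1, h13, mul_zero]
      exact Finset.sum_eq_zero fun β _ => e β)
  exact fun k => key 0 k

end Pool.Agent.H442
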