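import Pool.Agent.H442.UnrD
set_option autoImplicit false

/-!
The classes `{R(x) / x^j, y_1, ..., y_d}` where `∏_b (z_b + ∑_{π(l) = b} y_l) = x R(x) M(x) / D(x)`,
`z_b^{e_b} ∏_{π(l) = b} y_l^{w_l} = 1` and `R ≡ X^j` modulo `D`: they are unramified at all discrete
valuations.
-/

namespace Pool.Agent.H442

open Polynomial

open scoped WithZero

open Pool.Agent.TH826.MK (KQ symb unitPart Unramified val_one_of_sub_one symb_update_mul
  symb_update_zpow symb_eq_zero' mem_unitPart_of_oneUnit' mem_unitPart_of_pow)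

open Pool.Agent.TH826.SX (symb_self symb_upd_one symb_upd_neg symb_upd_inv symb_neg_on
  symb_eq_zero_of_sum symb_eq_zero_of_sum_neg)

section general

variable {L : Type*} [Field L] {n : ℕ}

/-- A symbol with integral entries on `S`, whose sum is congruent to `-1`, lies in the unit
part. -/
theorem mem_of_sum_sub (v : Valuation L ℤᵐ⁰) (S : Finset (Fin n)) (a : Fin n → Lˣ)
    (h1 : ∀ k ∈ S, v (a k : L) ≤ 1) (h : v (1 + ∑ k ∈ S, (a k : L)) < 1) :
    symb a ∈ unitPart v n := by
  classical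
  obtain ⟨T, hT⟩ : ∃ T : Finset (Fin n), T = S.filter fun k => v (a k : L) = 1 := ⟨_, rfl⟩
  have hrest : v (∑ k ∈ S.filter (fun k => ¬ v (a k : L) = 1), (a k : L)) < 1 := by
    refine Valuation.map_sum_lt v one_ne_zero fun k hk => ?_
    exact lt_of_le_of_ne (h1 k (Finset.mem_filter.1 hk).1) (Finset.mem_filter.1 hk).2
  have hTsum : v (1 + ∑ k ∈ T, (a k : L)) < 1 := by
    have e : 1 + ∑ k ∈ T, (a k : L) = (1 + ∑ k ∈ S, (a k : L)) -
        ∑ k ∈ S.filter (fun k => ¬ v (a k : L) = 1), (a k : L) := by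
      rw [hT, ← Finset.sum_filter_add_sum_filter_not S (fun k => v (a k : L) = 1)]
      ring
    rw [e]
    exact (v.map_sub _ _).trans_lt (max_lt h hrest)
  have hne : T.Nonempty := by
    by_contra hcon
    rw [Finset.not_nonempty_iff_eq_empty] at hcon
    rw [hcon, Finset.sum_empty, add_zero, map_one] at hTsum
    exact lt_irrefl _ hTsum
  obtain ⟨t, ht⟩ := hne
  have hvt : v (a t : L) = 1 := by
    rw [hT] at ht
    exact (Finset.mem_filter.1 ht).2
  obtain ⟨e, he⟩ : ∃ e : L, e = -1 - ∑ k ∈ T.erase t, (a k : L) := ⟨_, rfl⟩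
  have hsub : (a t : L) - e = 1 + ∑ k ∈ T, (a k : L) := by
    rw [he, ← Finset.add_sum_erase T _ ht]
    ring
  have hve : v e = 1 := by
    have e1 : e = a t - ((a t : L) - e) := by ring
    rw [e1, hsub, ← hvt]
    refine Valuation.map_sub_eq_of_lt_left v ?_
    rw [hvt]
    exact hTsum
  have he0 : e ≠ 0 := by
    intro h0
    rw [h0, map_zero] at hve
    exact zero_ne_one hve
  obtain ⟨e', he'⟩ : ∃ e' : Lˣ, (e' : L) = e := ⟨Units.mk0 e he0, rfl⟩
  have hq : a t = e' * (a t / e') := by rw [mul_div_cancel]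
  have h2 : symb a = symb (Function.update a t e') + symb (Function.update a t (a t / e')) := by
    rw [← symb_update_mul, ← hq, Function.update_eq_self]
  rw [h2]
  refine Submodule.add_mem _ ?_ ?_
  · rw [symb_eq_zero_of_sum_neg T]
    · exact Submodule.zero_mem _
    · rw [← Finset.add_sum_erase T _ ht, Function.update_self,
        Finset.sum_congr rfl fun k hk => by rw [Function.update_of_ne (Finset.ne_of_mem_erase hk)],
        he', he]
      ring
  · refine mem_unitPart_of_oneUnit' v t _ ?_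
    rw [Function.update_self, Units.val_div_eq_div_val, he', div_sub_one he0,
      map_div₀, hve, div_one, hsub]
    exact hTsum

/-- Division of the entries in `T` by the entry at `l`. -/
theorem symb_divs (a : Fin n → Lˣ) (l : Fin n) : ∀ T : Finset (Fin n), l ∉ T →
    symb (fun k => if k ∈ T then a k / a l else a k) = symb a := by
  classical
  intro T
  induction T using Finset.induction_on with
  | empty => intro _; simp
  | insert j T hj ih =>
    intro hl
    have hlj : l ≠ j := fun e => hl (e ▸ Finset.mem_insert_self _ _)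
    have hlT : l ∉ T := fun e => hl (Finset.mem_insert_of_mem e)
    rw [← ih hlT]
    obtain ⟨b, hb⟩ : ∃ b : Fin n → Lˣ, b = fun k => if k ∈ T then a k / a l else a k := ⟨_, rfl⟩
    have hbl : b l = a l := by simp [hb, hlT]
    have hbj : b j = a j := by simp [hb, hj]
    have e : (fun k => if k ∈ insert j T then a k / a l else a k) =
        Function.update b j (a j * (a l)⁻¹) := by
      funext k
      by_cases h : k = j
      · subst h; simp [div_eq_mul_inv]
      · simp [h, hb]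
    rw [e, symb_update_mul, symb_upd_inv, ← hbj, Function.update_eq_self]
    have h0 : symb (Function.update b j (a l)) = 0 :=
      symb_self _ hlj (by rw [Function.update_self, Function.update_of_ne hlj, hbl])
    rw [h0, neg_zero, add_zero, hb]

theorem symb_upd_prod_zero {ι : Type*} (b : Fin n → Lˣ) (k : Fin n) (t : Finset ι)
    (f : ι → Lˣ) (h : ∀ i ∈ t, symb (Function.update b k (f i)) = 0) :
    symb (Function.update b k (∏ i ∈ t, f i)) = 0 := by
  classical
  induction t using Finset.induction_on with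
  | empty => rw [Finset.prod_empty, symb_upd_one]
  | insert i t hi ih =>
    rw [Finset.prod_insert hi, symb_update_mul, h i (Finset.mem_insert_self _ _), zero_add]
    exact ih fun j hj => h j (Finset.mem_insert_of_mem hj)

end general

section simplex

variable {L : Type*} [Field L] {d : ℕ} (w : Fin d → ℕ) (y : Fin d → Lˣ) (S : Finset (Fin d))
  (z : Lˣ)

/-- the entries `y_l / y_{l_0}`, `l ∈ S`, with `z / y_{l_0}` in the place of `l_0` -/
noncomputable def quo (l₀ : Fin d) (l : Fin d) : Lˣ :=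
  if l = l₀ then z / y l₀ else if l ∈ S then y l / y l₀ else y l

variable {S}

theorem sum_quo {l₀ : Fin d} (hl₀ : l₀ ∈ S) : 1 + ∑ l ∈ S, (quo y S z l₀ l : L) =
    (z + ∑ l ∈ S, (y l : L)) / y l₀ := by
  classical
  have h0 : (y l₀ : L) ≠ 0 := (y l₀).ne_zero
  rw [← Finset.add_sum_erase _ _ hl₀, ← Finset.add_sum_erase S (fun l => (y l : L)) hl₀]
  have e1 : (quo y S z l₀ l₀ : L) = z / y l₀ := by
    unfold quo
    rw [if_pos rfl, Units.val_div_eq_div_val]
  have e2 : ∑ l ∈ S.erase l₀, (quo y S z l₀ l : L) = (∑ l ∈ S.erase l₀, (y l : L)) / y l₀ := by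
    rw [Finset.sum_div]
    refine Finset.sum_congr rfl fun l hl => ?_
    unfold quo
    rw [if_neg (Finset.ne_of_mem_erase hl), if_pos (Finset.mem_of_mem_erase hl),
      Units.val_div_eq_div_val]
  rw [e1, e2]
  field_simp
  ring

variable {w y z}

/-- The symbol with the quotients. -/
theorem symb_quo {e : ℕ} (hz : z ^ e * ∏ l ∈ S, y l ^ w l = 1) (h : Lˣ) {l₀ : Fin d}
    (hl₀ : l₀ ∈ S) : (e : ℚ) • symb (Fin.cons h (quo y S z l₀) : Fin (d + 1) → Lˣ) =
    (-((∑ l ∈ S, w l + e : ℕ) : ℚ)) • symb (Fin.cons h y : Fin (d + 1) → Lˣ) := by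
  classical
  obtain ⟨c, hc⟩ : ∃ c : Fin d → Lˣ, c = fun l => if l = l₀ then y l₀ else
    if l ∈ S then y l / y l₀ else y l := ⟨_, rfl⟩
  obtain ⟨b, hb⟩ : ∃ b : Fin (d + 1) → Lˣ, b = Fin.cons h c := ⟨_, rfl⟩
  have h1 : symb b = symb (Fin.cons h y : Fin (d + 1) → Lˣ) := by
    rw [← symb_divs (Fin.cons h y : Fin (d + 1) → Lˣ) l₀.succ
      ((S.erase l₀).map (Fin.succEmb d)) (by simp)]
    congr 1
    funext k
    rw [hb]
    refine Fin.cases ?_ (fun l => ?_) k
    · simp [Fin.succ_ne_zero]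
    · rw [Fin.cons_succ, hc]
      by_cases hl : l = l₀
      · subst hl
        simp
      · simp [hl]
  have h2 : (Fin.cons h (quo y S z l₀) : Fin (d + 1) → Lˣ) =
      Function.update b l₀.succ (z / y l₀) := by
    funext k
    rw [hb]
    refine Fin.cases ?_ (fun l => ?_) k
    · rw [Fin.cons_zero, Function.update_of_ne (Fin.succ_ne_zero l₀).symm, Fin.cons_zero]
    · rw [Fin.cons_succ]
      by_cases hl : l = l₀
      · subst hl
        rw [Function.update_self]
        unfold quo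
        rw [if_pos rfl]
      · rw [Function.update_of_ne fun e => hl (Fin.succ_injective _ e), Fin.cons_succ, hc]
        unfold quo
        simp only
        rw [if_neg hl, if_neg hl]
  have h6 : (z / y l₀) ^ (e : ℤ) = (∏ l ∈ S.erase l₀, c l ^ w l)⁻¹ *
      (y l₀ ^ ((∑ l ∈ S, w l + e : ℕ) : ℤ))⁻¹ := by
    have h3 : ∏ i ∈ S.erase l₀, c i ^ w i =
        (∏ i ∈ S.erase l₀, y i ^ w i) / y l₀ ^ (∑ i ∈ S.erase l₀, w i) := by
      rw [← Finset.prod_pow_eq_pow_sum, ← Finset.prod_div_distrib]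
      refine Finset.prod_congr rfl fun i hi => ?_
      rw [hc]
      simp only
      rw [if_neg (Finset.ne_of_mem_erase hi), if_pos (Finset.mem_of_mem_erase hi), div_pow]
    have h7 : z ^ e = (y l₀ ^ w l₀ * ∏ l ∈ S.erase l₀, y l ^ w l)⁻¹ := by
      rw [Finset.mul_prod_erase S (fun l => y l ^ w l) hl₀]
      exact eq_inv_of_mul_eq_one_left hz
    rw [h3, zpow_natCast, zpow_natCast, div_pow, h7, ← Finset.add_sum_erase _ _ hl₀, pow_add,
      pow_add]
    simp only [div_eq_mul_inv, mul_inv, inv_inv, mul_comm, mul_left_comm, mul_assoc]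
    group
  have hbl : Function.update b l₀.succ (y l₀) = b := by
    rw [Function.update_eq_self_iff, hb, Fin.cons_succ, hc]
    simp
  have h8 := symb_update_zpow b l₀.succ (z / y l₀) e
  rw [Int.cast_natCast] at h8
  rw [h2, ← h8, h6, symb_update_mul, symb_upd_inv, symb_upd_inv, symb_update_zpow, hbl,
    symb_upd_prod_zero, h1, neg_zero, zero_add, neg_smul, Int.cast_natCast]
  intro l hl
  have h4 := symb_update_zpow b l₀.succ (c l) (w l)
  rw [zpow_natCast] at h4
  have h5 : symb (Function.update b l₀.succ (c l)) = 0 := by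
    refine symb_self _ (i := l.succ) (j := l₀.succ)
      (fun e => (Finset.ne_of_mem_erase hl) (Fin.succ_injective _ e)) ?_
    rw [Function.update_self, Function.update_of_ne fun e =>
      (Finset.ne_of_mem_erase hl) (Fin.succ_injective _ e), hb, Fin.cons_succ]
  rw [h4, h5, smul_zero]

/-- The symbol with the sum vanishes. -/
theorem sc_simplex {e : ℕ} (he : 1 ≤ e) (hz : z ^ e * ∏ l ∈ S, y l ^ w l = 1) (q : Lˣ)
    (hq : (q : L) = z + ∑ l ∈ S, (y l : L)) : symb (Fin.cons q y : Fin (d + 1) → Lˣ) = 0 := by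
  classical
  have he0 : ((e : ℕ) : ℚ) ≠ 0 := by
    have : e ≠ 0 := by omega
    exact_mod_cast this
  rcases S.eq_empty_or_nonempty with hS | ⟨l₀, hl₀⟩
  · rw [hS, Finset.sum_empty, add_zero] at hq
    rw [hS, Finset.prod_empty, mul_one] at hz
    have e1 : q = z := Units.ext hq
    have h1 := sc_zpow y z e
    rw [zpow_natCast, hz, sc_one, Int.cast_natCast] at h1
    rw [e1]
    exact (smul_eq_zero.1 h1.symm).resolve_left he0
  have h1 : symb (Fin.cons (q / y l₀) (quo y S z l₀) : Fin (d + 1) → Lˣ) = 0 := by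
    rw [← symb_neg_on _ (S.map (Fin.succEmb d))]
    refine symb_eq_zero_of_sum _ (insert 0 (S.map (Fin.succEmb d))) _ rfl ?_
    have h2 := sum_quo y z hl₀
    rw [← hq] at h2
    rw [Finset.sum_insert (by simp [Fin.succ_ne_zero]), Finset.sum_map]
    have h3 : ∀ l ∈ S, ((if (Fin.succEmb d l) ∈ S.map (Fin.succEmb d) then
        -(Fin.cons (q / y l₀) (quo y S z l₀) : Fin (d + 1) → Lˣ) (Fin.succEmb d l) else
        (Fin.cons (q / y l₀) (quo y S z l₀) : Fin (d + 1) → Lˣ) (Fin.succEmb d l) : Lˣ) : L) =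
        -(quo y S z l₀ l : L) := by
      intro l hl
      rw [if_pos (Finset.mem_map_of_mem _ hl), Units.val_neg, Fin.coe_succEmb, Fin.cons_succ]
    rw [Finset.sum_congr rfl h3, if_neg (by simp [Fin.succ_ne_zero]), Fin.cons_zero,
      Units.val_div_eq_div_val, ← h2, Finset.sum_neg_distrib]
    ring
  have h4 := symb_quo hz (q / y l₀) hl₀
  rw [h1, smul_zero, div_eq_mul_inv, sc_mul, sc_inv, sc_self, neg_zero, add_zero] at h4
  have h3 : (-((∑ l ∈ S, w l + e : ℕ) : ℚ)) ≠ 0 := by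
    rw [neg_ne_zero]
    have : ∑ l ∈ S, w l + e ≠ 0 := by omega
    exact_mod_cast this
  exact (smul_eq_zero.1 h4.symm).resolve_left h3

/-- If the sum is smaller than the largest `y_l`, then the symbols lie in the unit part. -/
theorem mem_simplex {e : ℕ} (he : 1 ≤ e) (hz : z ^ e * ∏ l ∈ S, y l ^ w l = 1)
    (v : Valuation L ℤᵐ⁰) (h : Lˣ) {l₀ : Fin d} (hl₀ : l₀ ∈ S)
    (h1 : ∀ l ∈ S, v (y l : L) ≤ v (y l₀ : L)) (h2 : v (z : L) ≤ v (y l₀ : L))
    (h3 : v (z + ∑ l ∈ S, (y l : L)) < v (y l₀ : L)) :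
    symb (Fin.cons h y : Fin (d + 1) → Lˣ) ∈ unitPart v (d + 1) := by
  classical
  have h0 : (y l₀ : L) ≠ 0 := (y l₀).ne_zero
  have v0 : 0 < v (y l₀ : L) := zero_lt_iff.2 ((Valuation.ne_zero_iff v).2 h0)
  have h4 : symb (Fin.cons h (quo y S z l₀) : Fin (d + 1) → Lˣ) ∈ unitPart v (d + 1) := by
    refine mem_of_sum_sub v (S.map (Fin.succEmb d)) _ (fun k hk => ?_) ?_
    · obtain ⟨l, hl', rfl⟩ := Finset.mem_map.1 hk
      rw [Fin.coe_succEmb, Fin.cons_succ]
      unfold quo
      by_cases hl : l = l₀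
      · rw [if_pos hl, Units.val_div_eq_div_val, map_div₀, div_le_one₀ v0]
        exact h2
      · rw [if_neg hl, if_pos hl', Units.val_div_eq_div_val, map_div₀, div_le_one₀ v0]
        exact h1 l hl'
    · rw [Finset.sum_map]
      simp only [Fin.coe_succEmb, Fin.cons_succ]
      rw [sum_quo y z hl₀, map_div₀, div_lt_one₀ v0]
      exact h3
  have h5 : (-((∑ l ∈ S, w l + e : ℕ) : ℚ)) ≠ 0 := by
    rw [neg_ne_zero]
    have : ∑ l ∈ S, w l + e ≠ 0 := by omega
    exact_mod_cast this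
  have h6 := Submodule.smul_mem _ (e : ℚ) h4
  rw [symb_quo hz h hl₀] at h6
  have h7 := Submodule.smul_mem _ (-((∑ l ∈ S, w l + e : ℕ) : ℚ))⁻¹ h6
  rwa [smul_smul, inv_mul_cancel₀ h5, one_smul] at h7

/-- If the sum is integral, then all `y_l` are units and the sum is a unit or the symbols lie in the
unit part. -/
theorem units_simplex {e : ℕ} (he : 1 ≤ e) (hz : z ^ e * ∏ l ∈ S, y l ^ w l = 1)
    (v : Valuation L ℤᵐ⁰) (hw : ∀ l, 1 ≤ w l) (h : Lˣ)
    (h1 : v (z + ∑ l ∈ S, (y l : L)) ≤ 1) :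
    ((∀ l ∈ S, v (y l : L) = 1) ∧ v (z + ∑ l ∈ S, (y l : L)) = 1) ∨
      symb (Fin.cons h y : Fin (d + 1) → Lˣ) ∈ unitPart v (d + 1) := by
  classical
  have hY : v (z : L) ^ e * ∏ l ∈ S, v (y l : L) ^ w l = 1 := by
    have h2 := congrArg (fun u : Lˣ => v (u : L)) hz
    simp only [Units.val_mul, Units.coe_prod, map_mul, map_prod, Units.val_pow_eq_pow_val,
      map_pow, Units.val_one, map_one] at h2
    exact h2
  have he0 : e ≠ 0 := by omega
  have hw0 : ∀ l, w l ≠ 0 := fun l => by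
    have := hw l
    omega
  rcases S.eq_empty_or_nonempty with hS | hS
  · left
    subst hS
    rw [Finset.prod_empty, mul_one] at hY
    have h2 : v (z : L) = 1 := (pow_eq_one_iff_of_nonneg zero_le he0).1 hY
    refine ⟨fun l hl => absurd hl (Finset.notMem_empty l), ?_⟩
    rw [Finset.sum_empty, add_zero]
    exact h2
  obtain ⟨l₀, hl₀, hmax⟩ := Finset.exists_max_image S (fun l => v (y l : L)) hS
  have hsum : v (∑ l ∈ S, (y l : L)) ≤ v (y l₀ : L) :=
    Valuation.map_sum_le v fun l hl => hmax l hl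
  rcases lt_or_ge (v (y l₀ : L)) (v (z : L)) with h2 | h2
  · exfalso
    rw [Valuation.map_add_eq_of_lt_left v (hsum.trans_lt h2)] at h1
    have h3 : ∀ l ∈ S, v (y l : L) < 1 := fun l hl => (hmax l hl).trans_lt (h2.trans_le h1)
    have h4 : v (z : L) ^ e * ∏ l ∈ S, v (y l : L) ^ w l < 1 := by
      rw [mul_comm]
      refine mul_lt_one_of_lt_of_le ?_ (pow_le_one₀ zero_le h1)
      rw [← Finset.mul_prod_erase _ _ hl₀]
      refine mul_lt_one_of_lt_of_le (pow_lt_one₀ zero_le (h3 l₀ hl₀) (hw0 l₀)) ?_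
      exact Finset.prod_le_one' fun l hl => pow_le_one₀ zero_le
        (h3 l (Finset.mem_of_mem_erase hl)).le
    exact h4.ne hY
  · rcases lt_or_ge (v (z + ∑ l ∈ S, (y l : L))) (v (y l₀ : L)) with h3 | h3
    · exact Or.inr (mem_simplex he hz v h hl₀ hmax h2 h3)
    · left
      have h4 : ∀ l ∈ S, v (y l : L) ≤ 1 := fun l hl => (hmax l hl).trans (h3.trans h1)
      have h7 : ∀ l ∈ S, v (y l : L) ^ w l ≤ 1 := fun l hl => pow_le_one₀ zero_le (h4 l hl)
      have h6 : v (z : L) ^ e ≤ 1 := pow_le_one₀ zero_le (h2.trans (h3.trans h1))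
      have h5 : 1 ≤ ∏ l ∈ S, v (y l : L) ^ w l := by
        rw [← hY]
        exact mul_le_of_le_one_left' h6
      have h8 := (Finset.prod_eq_one_iff_of_le_one' h7).1
        (le_antisymm (Finset.prod_le_one' h7) h5)
      have h9 : ∀ l ∈ S, v (y l : L) = 1 := fun l hl =>
        (pow_eq_one_iff_of_nonneg zero_le (hw0 l)).1 (h8 l hl)
      exact ⟨h9, le_antisymm h1 (by rw [← h9 l₀ hl₀]; exact h3)⟩

end simplex

section blocks

variable {L : Type*} [Field L] {d m : ℕ} {π : Fin d → Fin m} {w : Fin d → ℕ} {e : Fin m → ℕ}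
  {y : Fin d → Lˣ} {z : Fin m → Lˣ}

/-- the function `∏_b (z_b + ∑_{π(l) = b} y_l)` -/
def uB {S : Type*} [CommRing S] (π : Fin d → Fin m) (y : Fin d → S) (z : Fin m → S) : S :=
  ∏ b, (z b + ∑ l ∈ Finset.univ.filter (fun l => π l = b), y l)

theorem sc_blocks (he : ∀ b, 1 ≤ e b)
    (hz : ∀ b, z b ^ e b * ∏ l ∈ Finset.univ.filter (fun l => π l = b), y l ^ w l = 1) (q : Lˣ)
    (hq : (q : L) = uB π (fun l => (y l : L)) (fun b => (z b : L))) :
    symb (Fin.cons q y : Fin (d + 1) → Lˣ) = 0 := by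
  classical
  have hne : ∀ b, (z b : L) + ∑ l ∈ Finset.univ.filter (fun l => π l = b), (y l : L) ≠ 0 := by
    intro b h
    refine q.ne_zero ?_
    rw [hq]
    exact Finset.prod_eq_zero (Finset.mem_univ b) h
  have e1 : q = ∏ b, Units.mk0 _ (hne b) := by
    apply Units.ext
    rw [hq, Units.coe_prod]
    rfl
  rw [e1, sc_prod]
  exact Finset.sum_eq_zero fun b _ => sc_simplex (he b) (hz b) _ rfl

theorem units_blocks (he : ∀ b, 1 ≤ e b) (hw : ∀ l, 1 ≤ w l)
    (hz : ∀ b, z b ^ e b * ∏ l ∈ Finset.univ.filter (fun l => π l = b), y l ^ w l = 1)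
    (v : Valuation L ℤᵐ⁰) (h : Lˣ)
    (h1 : v (uB π (fun l => (y l : L)) (fun b => (z b : L))) ≤ 1) :
    ((∀ l, v (y l : L) = 1) ∧ v (uB π (fun l => (y l : L)) (fun b => (z b : L))) = 1) ∨
      symb (Fin.cons h y : Fin (d + 1) → Lˣ) ∈ unitPart v (d + 1) := by
  classical
  by_cases hmem : symb (Fin.cons h y : Fin (d + 1) → Lˣ) ∈ unitPart v (d + 1)
  · exact Or.inr hmem
  left
  have key : ∀ b, v ((z b : L) + ∑ l ∈ Finset.univ.filter (fun l => π l = b), (y l : L)) ≤ 1 →
      (∀ l ∈ Finset.univ.filter (fun l => π l = b), v (y l : L) = 1) ∧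
        v ((z b : L) + ∑ l ∈ Finset.univ.filter (fun l => π l = b), (y l : L)) = 1 :=
    fun b hb => (units_simplex (he b) (hz b) v hw h hb).resolve_right hmem
  have hge : ∀ b, 1 ≤ v ((z b : L) + ∑ l ∈ Finset.univ.filter (fun l => π l = b), (y l : L)) := by
    intro b
    rcases le_or_gt (v ((z b : L) + ∑ l ∈ Finset.univ.filter (fun l => π l = b), (y l : L))) 1
      with h2 | h2
    · exact (key b h2).2.ge
    · exact h2.le
  unfold uB at h1 ⊢
  rw [map_prod] at h1 ⊢
  have h2 := le_antisymm h1 (Finset.one_le_prod'' hge)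
  have h3 := (Finset.prod_eq_one_iff_of_one_le' (fun b _ => hge b)).1 h2
  refine ⟨fun l => ?_, h2⟩
  exact (key (π l) (h3 (π l) (Finset.mem_univ _)).le).1 l
    (Finset.mem_filter.2 ⟨Finset.mem_univ _, rfl⟩)

end blocks

section main

variable {O L : Type*} [CommRing O] [Field L] [Algebra O L] {v : Valuation L ℤᵐ⁰}

/-- The classes `{R(x)/x^j, y_1, ..., y_d}` are unramified. -/
theorem memE (hO : ∀ a : O, v (algebraMap O L a) ≤ 1) {n m : ℕ} {π : Fin n → Fin m}
    {w : Fin n → ℕ} {e : Fin m → ℕ} (he : ∀ b, 1 ≤ e b) (hw : ∀ l, 1 ≤ w l) {D R M Q : O[X]}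
    (hD : D.Monic) (hR : R.Monic) (hM : M.Monic)
    (hdeg : D.natDegree < 1 + R.natDegree + M.natDegree) {j : ℕ}
    (hQ : X ^ j - R = D * Q) {x r d : Lˣ} {y : Fin n → Lˣ} {z : Fin m → Lˣ}
    (hz : ∀ b, z b ^ e b * ∏ l ∈ Finset.univ.filter (fun l => π l = b), y l ^ w l = 1)
    (hd : (d : L) = aeval (x : L) D) (hr : (r : L) = aeval (x : L) R)
    (h : uB π (fun l => (y l : L)) (fun b => (z b : L)) = x * r * aeval (x : L) M / d) :
    symb (Fin.cons (r / x ^ j) y : Fin (n + 1) → Lˣ) ∈ unitPart v (n + 1) := by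
  classical
  rcases le_or_gt (v (x : L)) 1 with hx | hx
  · have key : v ((x : L) * r * aeval (x : L) M / d) ≤ 1 →
        ((∀ l, v (y l : L) = 1) ∧ v ((x : L) * r * aeval (x : L) M / d) = 1) ∨
          symb (Fin.cons (r / x ^ j) y : Fin (n + 1) → Lˣ) ∈ unitPart v (n + 1) := by
      intro h1
      rw [← h] at h1 ⊢
      exact units_blocks he hw hz v _ h1
    rcases tri6 hO (M := M) hQ hd hr hx with h1 | h1 | ⟨h1, h2⟩
    · rcases key h1.le with h2 | h2
      · exact absurd h2.2 h1.ne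
      · exact h2
    · exact mem_unitPart_of_oneUnit' v 0 _ (by rw [Fin.cons_zero]; exact h1)
    · rcases key h1 with h3 | h3
      · refine Submodule.subset_span ⟨_, fun i => ?_, rfl⟩
        refine Fin.cases ?_ (fun l => ?_) i
        · rw [Fin.cons_zero]
          exact h2
        · rw [Fin.cons_succ]
          exact h3.1 l
      · exact h3
  · obtain ⟨k, uq, h1, h2⟩ := q_inf hO hD hR hM hdeg hd hr hx
    have huqv := val_one_of_sub_one h1
    have huq0 : uq ≠ 0 := fun h0 => by rw [h0, map_zero] at huqv; exact zero_ne_one huqv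
    have hx0 : (x : L) ≠ 0 := x.ne_zero
    have uR := aeval_inf hO hx hR
    have hr1 : v (((r / x ^ R.natDegree : Lˣ) : L) - 1) < 1 := by
      rw [Units.val_div_eq_div_val, Units.val_pow_eq_pow_val, hr]
      exact uR
    have e3 : r / x ^ j = (r / x ^ R.natDegree) * (x ^ ((R.natDegree : ℤ) - j)) := by
      rw [zpow_sub, zpow_natCast, zpow_natCast, div_mul_eq_mul_div, div_eq_mul_inv,
        div_eq_mul_inv]
      group
    -- the symbol of `x`
    have hxm : symb (Fin.cons x y : Fin (n + 1) → Lˣ) ∈ unitPart v (n + 1) := by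
      obtain ⟨u, hu⟩ : ∃ u : Lˣ, (u : L) = uq := ⟨Units.mk0 uq huq0, rfl⟩
      have h3 : symb (Fin.cons (x ^ ((k + 1 : ℕ) : ℤ) * u) y : Fin (n + 1) → Lˣ) = 0 := by
        refine sc_blocks he hz _ ?_
        rw [h, h2, Units.val_mul, zpow_natCast, Units.val_pow_eq_pow_val, hu]
      rw [sc_mul, sc_zpow] at h3
      have h4 : symb (Fin.cons u y : Fin (n + 1) → Lˣ) ∈ unitPart v (n + 1) :=
        mem_unitPart_of_oneUnit' v 0 _ (by rw [Fin.cons_zero, hu]; exact h1)
      have h5 : (((k + 1 : ℕ) : ℤ) : ℚ) ≠ 0 := by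
        have : k + 1 ≠ 0 := by omega
        exact_mod_cast this
      have h6 : (((k + 1 : ℕ) : ℤ) : ℚ) • symb (Fin.cons x y : Fin (n + 1) → Lˣ) =
          -symb (Fin.cons u y : Fin (n + 1) → Lˣ) := eq_neg_of_add_eq_zero_left h3
      have h7 : symb (Fin.cons x y : Fin (n + 1) → Lˣ) = (((k + 1 : ℕ) : ℤ) : ℚ)⁻¹ •
          (-symb (Fin.cons u y : Fin (n + 1) → Lˣ)) := by
        rw [← h6, smul_smul, inv_mul_cancel₀ h5, one_smul]
      rw [h7]
      exact Submodule.smul_mem _ _ (Submodule.neg_mem _ h4)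
    rw [e3, sc_mul, sc_zpow]
    exact Submodule.add_mem _ (mem_unitPart_of_oneUnit' v 0 _ (by rw [Fin.cons_zero]; exact hr1))
      (Submodule.smul_mem _ _ hxm)

end main

end Pool.Agent.H442
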