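import Pool.Agent.H442.RngD
import Pool.Agent.H442.TorE
import Pool.Agent.H442.UnrE
set_option autoImplicit false

/-!
The coordinate ring of the variety `D(x) ∏_b (z_b + ∑_{π(l) = b} y_l) = A(x) ≠ 0`,
`z_b^{e_b} ∏_{π(l) = b} y_l^{w_l} = 1`, and its tori.
-/

namespace Pool.Agent.H442

open Polynomial

open Pool.Agent.TH826.MK (Torus KQ KQ.map KQ.map_symb symb Unramified unitPart pairing vf Good Per
  circ norm_circ contDiff_circ circ_add_one)

open scoped WithZero

theorem map_uB {S T : Type*} [CommRing S] [CommRing T] (f : S →+* T) {d m : ℕ}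
    (π : Fin d → Fin m) (y : Fin d → S) (z : Fin m → S) :
    f (uB π y z) = uB π (fun l => f (y l)) (fun b => f (z b)) := by
  unfold uB
  simp only [map_prod, map_add, map_sum]

section ring

variable {d m : ℕ} (π : Fin d → Fin m) (w : Fin d → ℕ) (e : Fin m → ℕ) (A D : ℤ[X])

/-- the polynomial `D(x) ∏_b (z_b + ∑_{π(l) = b} y_l) - A(x)` in the variables `y_l = X (inl l)`,
`z_b = X (inr (inl b))` and `x = X (inr (inr 0))` -/
noncomputable def eqnE : MvPolynomial (Fin d ⊕ Fin m ⊕ Fin 2) ℚ :=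
  evZ D (MvPolynomial.X (Sum.inr (Sum.inr 0))) *
      uB π (fun l => MvPolynomial.X (Sum.inl l)) (fun b => MvPolynomial.X (Sum.inr (Sum.inl b))) -
    evZ A (MvPolynomial.X (Sum.inr (Sum.inr 0)))

/-- the polynomial `t A(x) - 1`, `t = X (inr (inr 1))` -/
noncomputable def invE (d m : ℕ) (A : ℤ[X]) : MvPolynomial (Fin d ⊕ Fin m ⊕ Fin 2) ℚ :=
  MvPolynomial.X (Sum.inr (Sum.inr 1)) * evZ A (MvPolynomial.X (Sum.inr (Sum.inr 0))) - 1

/-- the polynomial `z_b^{e_b} ∏_{π(l) = b} y_l^{w_l} - 1` -/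
noncomputable def torE (b : Fin m) : MvPolynomial (Fin d ⊕ Fin m ⊕ Fin 2) ℚ :=
  MvPolynomial.X (Sum.inr (Sum.inl b)) ^ e b *
    ∏ l ∈ Finset.univ.filter (fun l => π l = b), MvPolynomial.X (Sum.inl l) ^ w l - 1

/-- the ideal of the equations -/
noncomputable def idE : Ideal (MvPolynomial (Fin d ⊕ Fin m ⊕ Fin 2) ℚ) :=
  Ideal.span ({eqnE π A D, invE d m A} ∪ Set.range (torE π w e))

/-- the coordinate ring of the variety `D(x) ∏_b (z_b + ∑_{π(l) = b} y_l) = A(x) ≠ 0`,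
`z_b^{e_b} ∏_{π(l) = b} y_l^{w_l} = 1` over `ℚ` -/
def ER : Type := MvPolynomial (Fin d ⊕ Fin m ⊕ Fin 2) ℚ ⧸ idE π w e A D

noncomputable instance instCommRingER : CommRing (ER π w e A D) :=
  Ideal.Quotient.commRing (idE π w e A D)

/-- the class of a polynomial -/
noncomputable def mkE : MvPolynomial (Fin d ⊕ Fin m ⊕ Fin 2) ℚ →+* ER π w e A D :=
  Ideal.Quotient.mk (idE π w e A D)

/-- the function `y_l` -/
noncomputable def yE (l : Fin d) : ER π w e A D := mkE π w e A D (MvPolynomial.X (Sum.inl l))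

/-- the function `z_b` -/
noncomputable def zE (b : Fin m) : ER π w e A D :=
  mkE π w e A D (MvPolynomial.X (Sum.inr (Sum.inl b)))

/-- the function `x` -/
noncomputable def xE : ER π w e A D := mkE π w e A D (MvPolynomial.X (Sum.inr (Sum.inr 0)))

theorem relE : evZ D (xE π w e A D) * uB π (yE π w e A D) (zE π w e A D) =
    evZ A (xE π w e A D) := by
  have h : mkE π w e A D (eqnE π A D) = 0 :=
    Ideal.Quotient.eq_zero_iff_mem.2 (Ideal.subset_span (Or.inl (Set.mem_insert _ _)))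
  unfold eqnE at h
  rw [map_sub, map_mul, map_uB, sub_eq_zero, map_evZ, map_evZ] at h
  exact h

theorem relT (b : Fin m) : zE π w e A D b ^ e b *
    ∏ l ∈ Finset.univ.filter (fun l => π l = b), yE π w e A D l ^ w l = 1 := by
  have h : mkE π w e A D (torE π w e b) = 0 :=
    Ideal.Quotient.eq_zero_iff_mem.2 (Ideal.subset_span (Or.inr ⟨b, rfl⟩))
  unfold torE at h
  rw [map_sub, map_mul, map_prod, map_one, map_pow, sub_eq_zero] at h
  simp only [map_pow] at h
  exact h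

theorem unit_AE : IsUnit (evZ A (xE π w e A D)) := by
  have h : mkE π w e A D (invE d m A) = 0 :=
    Ideal.Quotient.eq_zero_iff_mem.2 (Ideal.subset_span (Or.inl (Set.mem_insert_of_mem _ rfl)))
  unfold invE at h
  rw [map_sub, map_mul, map_one, sub_eq_zero, map_evZ] at h
  exact IsUnit.of_mul_eq_one _ (by rw [mul_comm]; exact h)

theorem unit_DE : IsUnit (evZ D (xE π w e A D)) := by
  have h := unit_AE π w e A D
  rw [← relE] at h
  exact isUnit_of_dvd_unit (dvd_mul_right _ _) h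

variable {w e}

theorem unit_yE (hw : ∀ l, 1 ≤ w l) (l : Fin d) : IsUnit (yE π w e A D l) := by
  have h := relT π w e A D (π l)
  have hw0 : w l ≠ 0 := by
    have := hw l
    omega
  have h3 : yE π w e A D l ^ w l ∣
      ∏ k ∈ Finset.univ.filter (fun k => π k = π l), yE π w e A D k ^ w k :=
    Finset.dvd_prod_of_mem (fun l => yE π w e A D l ^ w l) (by simp)
  refine isUnit_of_dvd_one ?_
  rw [← h]
  exact ((dvd_pow_self _ hw0).trans h3).mul_left _

theorem unit_zE (he : ∀ b, 1 ≤ e b) (b : Fin m) : IsUnit (zE π w e A D b) := by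
  have h := relT π w e A D b
  have he0 : e b ≠ 0 := by
    have := he b
    omega
  refine isUnit_of_dvd_one ?_
  rw [← h]
  exact (dvd_pow_self _ he0).mul_right _

end ring

section eval

variable {d m : ℕ}

/-- The torus with given functions. -/
theorem exists_torusE {π : Fin d → Fin m} {w : Fin d → ℕ} {e : Fin m → ℕ} {A D : ℤ[X]}
    {x : (Fin d → ℝ) → ℂ} {Y : Fin d → (Fin d → ℝ) → ℂ} {Z : Fin m → (Fin d → ℝ) → ℂ}
    (hY : ∀ l, ContDiff ℝ 2 (Y l)) (hYp : ∀ l, Per (Y l)) (hZ : ∀ b, ContDiff ℝ 2 (Z b))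
    (hZp : ∀ b, Per (Z b)) (hx : ContDiff ℝ 2 x) (hxp : Per x) (hA : ∀ θ, evZ A (x θ) ≠ 0)
    (heq : ∀ θ, evZ D (x θ) * uB π (fun l => Y l θ) (fun b => Z b θ) = evZ A (x θ))
    (hrel : ∀ θ b, Z b θ ^ e b * ∏ l ∈ Finset.univ.filter (fun l => π l = b), Y l θ ^ w l = 1) :
    ∃ Γ : Torus (ER π w e A D) d, (∀ θ l, Γ.e θ (yE π w e A D l) = Y l θ) ∧
      (∀ θ b, Γ.e θ (zE π w e A D b) = Z b θ) ∧ (∀ θ, Γ.e θ (xE π w e A D) = x θ) := by
  have hAs : ContDiff ℝ 2 fun θ => evZ A (x θ) := by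
    have e : (fun θ => evZ A (x θ)) = fun θ => (cx A).eval (x θ) := by
      funext θ
      exact evZ_cx A (x θ)
    rw [e]
    exact contDiff_poly hx _
  obtain ⟨v, hv⟩ : ∃ v : (Fin d → ℝ) → Fin d ⊕ Fin m ⊕ Fin 2 → ℂ,
      v = fun θ => Sum.elim (fun l => Y l θ) (Sum.elim (fun b => Z b θ)
        ![x θ, (evZ A (x θ))⁻¹]) := ⟨_, rfl⟩
  have hvs : ∀ i, ContDiff ℝ 2 fun θ => v θ i := by
    rintro (l | b | i)
    · simp only [hv, Sum.elim_inl]
      exact hY l
    · simp only [hv, Sum.elim_inr, Sum.elim_inl]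
      exact hZ b
    · simp only [hv, Sum.elim_inr]
      match i with
      | 0 => simpa using hx
      | 1 =>
        have h1 : ContDiff ℝ 2 fun θ => (evZ A (x θ))⁻¹ := hAs.inv hA
        simpa using h1
  have hvp : ∀ θ i, v (θ + Pi.single i 1) = v θ := by
    intro θ i
    rw [hv]
    simp only
    have h1 := fun l => hYp l θ i
    have h2 := fun b => hZp b θ i
    rw [hxp θ i]
    simp only [h1, h2]
  have hev : ∀ θ (Q : ℤ[X]) (q : MvPolynomial (Fin d ⊕ Fin m ⊕ Fin 2) ℚ),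
      MvPolynomial.eval₂Hom (algebraMap ℚ ℂ) (v θ) (evZ Q q) =
        evZ Q (MvPolynomial.eval₂Hom (algebraMap ℚ ℂ) (v θ) q) := fun θ Q q =>
    map_evZ _ _ _
  have hX : ∀ θ i, MvPolynomial.eval₂Hom (algebraMap ℚ ℂ) (v θ) (MvPolynomial.X i) = v θ i :=
    fun θ i => by simp
  have hl : ∀ θ l, v θ (Sum.inl l) = Y l θ := fun θ l => by rw [hv]; rfl
  have hb : ∀ θ b, v θ (Sum.inr (Sum.inl b)) = Z b θ := fun θ l => by rw [hv]; rfl
  have h0 : ∀ θ, v θ (Sum.inr (Sum.inr 0)) = x θ := fun θ => by rw [hv]; rfl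
  have h1 : ∀ θ, v θ (Sum.inr (Sum.inr 1)) = (evZ A (x θ))⁻¹ := fun θ => by rw [hv]; rfl
  have hI : ∀ θ, ∀ q ∈ idE π w e A D,
      MvPolynomial.eval₂Hom (algebraMap ℚ ℂ) (v θ) q = 0 := by
    intro θ
    have hle : idE π w e A D ≤
        RingHom.ker (MvPolynomial.eval₂Hom (algebraMap ℚ ℂ) (v θ)) := by
      unfold idE
      rw [Ideal.span_le]
      rintro q ((rfl | rfl) | ⟨b, rfl⟩)
      · show MvPolynomial.eval₂Hom (algebraMap ℚ ℂ) (v θ) (eqnE π A D) = 0
        unfold eqnE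
        rw [map_sub, map_mul, map_uB]
        simp only [hev, hX, hl, hb, h0]
        rw [heq θ, sub_self]
      · show MvPolynomial.eval₂Hom (algebraMap ℚ ℂ) (v θ) (invE d m A) = 0
        unfold invE
        simp only [map_sub, map_mul, map_one, hev, hX, h0, h1]
        rw [inv_mul_cancel₀ (hA θ), sub_self]
      · show MvPolynomial.eval₂Hom (algebraMap ℚ ℂ) (v θ) (torE π w e b) = 0
        unfold torE
        simp only [map_sub, map_mul, map_one, map_pow, map_prod, hX, hl, hb]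
        rw [hrel θ b, sub_self]
    exact fun q hq => hle hq
  refine ⟨mkTV _ v hvs hvp hI, fun θ l => ?_, fun θ b => ?_, fun θ => ?_⟩
  · have h2 : (mkTV _ v hvs hvp hI).e θ (yE π w e A D l) =
        MvPolynomial.eval₂Hom (algebraMap ℚ ℂ) (v θ) (MvPolynomial.X (Sum.inl l)) :=
      Ideal.Quotient.lift_mk _ _ _
    exact h2.trans (by rw [hX, hl])
  · have h2 : (mkTV _ v hvs hvp hI).e θ (zE π w e A D b) =
        MvPolynomial.eval₂Hom (algebraMap ℚ ℂ) (v θ) (MvPolynomial.X (Sum.inr (Sum.inl b))) :=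
      Ideal.Quotient.lift_mk _ _ _
    exact h2.trans (by rw [hX, hb])
  · have h2 : (mkTV _ v hvs hvp hI).e θ (xE π w e A D) =
        MvPolynomial.eval₂Hom (algebraMap ℚ ℂ) (v θ) (MvPolynomial.X (Sum.inr (Sum.inr 0))) :=
      Ideal.Quotient.lift_mk _ _ _
    exact h2.trans (by rw [hX, h0])

end eval

end Pool.Agent.H442
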