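import Pool.Agent.H442.TorE
import Pool.Agent.H442.LinF
set_option autoImplicit false

/-!
The approximate values of the regulator integrals of `{H, g_1, ..., g_d}` for functions `g_l` of one
variable, for families of tori and families of classes.
-/

namespace Pool.Agent.H442

open Polynomial Metric Set Filter Topology MeasureTheory

open Pool.Agent.TH826.MK (circ norm_circ contDiff_circ circ_add_one wd One one_lin Good Per lw grow
  tl tl_apply vf pairing pairing_cons_mul pairing_const pairing_prod good_prod abs_pairing_le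
  norm_grow_le continuous_grow lw_mul grow_mul)

open scoped Real

variable {d : ℕ}

/-- the normalised regulator integral of `{H, g_1, ..., g_d}` -/
noncomputable def qF (g : Fin d → ℝ → ℂ) (H : (Fin d → ℝ) → ℂ) : ℝ :=
  -(2 * π / (2 * π) ^ d) * pairing (Fin.cons H (vf g))

variable {g : Fin d → ℝ → ℂ} {ω : Fin d → ℝ}

theorem qF_mul (hg : ∀ l, One (g l) (ω l)) {a b : (Fin d → ℝ) → ℂ} (ha : Good a)
    (hb : Good b) : qF g (fun θ => a θ * b θ) = qF g a + qF g b := by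
  have hv : ∀ l, Good (vf g l) := fun l => (hg l).good l
  unfold qF
  rw [pairing_cons_mul ha hb hv]
  ring

theorem qF_prod (hg : ∀ l, One (g l) (ω l)) {ι : Type*} [DecidableEq ι] (s : Finset ι)
    {F : ι → (Fin d → ℝ) → ℂ} (hF : ∀ j, Good (F j)) :
    qF g (fun θ => ∏ j ∈ s, F j θ) = ∑ j ∈ s, qF g (F j) := by
  unfold qF
  rw [pairing_prod s hF hg, Finset.mul_sum]

theorem exists_apF (hg : ∀ l, One (g l) (ω l)) : ∃ E : ℝ, 0 ≤ E ∧ ∀ (H : (Fin d → ℝ) → ℂ) (C : ℝ), Good H →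
    (∀ θ, |Real.log ‖H θ‖ - Real.log ‖H 0‖| ≤ C) →
    (∀ θ ∈ Icc (0 : Fin d → ℝ) 1, ∀ j, 2 * ‖lw H j θ‖ ≤ C) →
    |qF g H + 2 * π * (∏ l, ω l) * Real.log ‖H 0‖| ≤ C * E := by
  have hb : ∀ l : Fin d, ∃ E : ℝ, ∀ y ∈ Icc (0 : Fin (d + 1) → ℝ) 1, ∀ j,
      ‖grow (vf g l) y j‖ ≤ E := by
    intro l
    obtain ⟨E, hE⟩ := isCompact_Icc.exists_bound_of_continuousOn
      (continuous_grow ((hg l).good l)).continuousOn (s := Icc (0 : Fin (d + 1) → ℝ) 1)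
    exact ⟨E, fun y hy j => (norm_le_pi_norm _ j).trans (hE y hy)⟩
  choose E hE using hb
  have hπ := Real.pi_pos
  have hE0 : 0 ≤ ∏ l, E l := by
    refine Finset.prod_nonneg fun l _ => ?_
    exact (norm_nonneg _).trans (hE l 0 ⟨le_rfl, fun _ => zero_le_one⟩ 0)
  refine ⟨2 * π / (2 * π) ^ d * ((d + 1).factorial * ∏ l, E l), by positivity, ?_⟩
  intro H C hH hlog hlw
  have hκ : (2 * π) ^ d ≠ 0 := by positivity
  have h0 := hH.ne_zero 0
  have gc : Good fun _ : Fin d → ℝ => H 0 := ⟨contDiff_const, fun _ => h0⟩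
  have gq : Good fun θ => H θ / H 0 := by
    refine ⟨?_, fun θ => div_ne_zero (hH.ne_zero θ) h0⟩
    have e : (fun θ => H θ / H 0) = fun θ => H θ * (H 0)⁻¹ := by
      funext θ
      rw [div_eq_mul_inv]
    rw [e]
    exact hH.smooth.mul contDiff_const
  have eH : H = fun θ => H 0 * (H θ / H 0) := by
    funext θ
    field_simp
  have h1 : qF g H = qF g (fun _ : Fin d → ℝ => H 0) + qF g (fun θ => H θ / H 0) := by
    conv_lhs => rw [eH]
    exact qF_mul hg gc gq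
  have h2 : qF g (fun _ : Fin d → ℝ => H 0) = -(2 * π * (∏ l, ω l) * Real.log ‖H 0‖) := by
    unfold qF
    rw [pairing_const (H 0) g ω hg]
    field_simp
  have h3 : qF g H + 2 * π * (∏ l, ω l) * Real.log ‖H 0‖ =
      -(2 * π / (2 * π) ^ d) * pairing (Fin.cons (fun θ => H θ / H 0) (vf g)) := by
    rw [h1, h2]
    unfold qF
    ring
  have h4 : |pairing (Fin.cons (fun θ => H θ / H 0) (vf g))| ≤
      (d + 1).factorial * (C * ∏ l, E l) := by
    refine abs_pairing_le (fun y hy j => norm_grow_le hy ?_ (fun j => ?_) j) hE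
    · rw [norm_div, Real.log_div (norm_ne_zero_iff.2 (hH.ne_zero _)) (norm_ne_zero_iff.2 h0)]
      exact hlog _
    · have h5 := lw_mul gc gq j (tl d y)
      have h6 : lw (fun _ : Fin d → ℝ => H 0) j (tl d y) = 0 := by
        unfold lw
        simp
      rw [← eH, h6, zero_add] at h5
      rw [← h5]
      exact hlw _ (tl_mem hy) j
  rw [h3, abs_mul, abs_neg, abs_of_nonneg (by positivity : 0 ≤ 2 * π / (2 * π) ^ d)]
  calc 2 * π / (2 * π) ^ d * |pairing (Fin.cons (fun θ => H θ / H 0) (vf g))| ≤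
        2 * π / (2 * π) ^ d * ((d + 1).factorial * (C * ∏ l, E l)) :=
        mul_le_mul_of_nonneg_left h4 (by positivity)
    _ = _ := by ring

/-- The function `u` on the torus with all constants of the estimates. -/
structure SysF {ι : Type*} (g : ι → Fin d → ℝ → ℂ) (μ : ι → ℝ) (u : (Fin d → ℝ) → ℂ)
    (B W E : ℝ) : Prop where
  nr : Good u
  per : Per u
  hB : 1 ≤ B
  hW : 2 ≤ W
  hE : 0 ≤ E
  rb : ∀ θ, ‖u θ‖ ≤ B
  rd : ∀ θ ∈ Icc (0 : Fin d → ℝ) 1, ∀ j, ‖fderiv ℝ u θ (Pi.single j 1)‖ ≤ B * (W / 2)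
  sh : ∀ ε, ∃ ω : Fin d → ℝ, ∀ l, One (g ε l) (ω l)
  ap : ∀ (ε : ι) (H : (Fin d → ℝ) → ℂ) (C : ℝ), Good H →
    (∀ θ, |Real.log ‖H θ‖ - Real.log ‖H 0‖| ≤ C) →
    (∀ θ ∈ Icc (0 : Fin d → ℝ) 1, ∀ j, 2 * ‖lw H j θ‖ ≤ C) →
    |qF (g ε) H + 2 * π * μ ε * Real.log ‖H 0‖| ≤ C * E
  pb : ∀ ε, |qF (g ε) u| ≤ E

theorem exists_SysF {ι : Type*} [Fintype ι] {g : ι → Fin d → ℝ → ℂ} {ω : ι → Fin d → ℝ}
    (hg : ∀ ε l, One (g ε l) (ω ε l)) {u : (Fin d → ℝ) → ℂ} (hu : Good u) (hp : Per u) {B₀ : ℝ}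
    (hb : ∀ θ, ‖u θ‖ ≤ B₀) : ∃ B W E : ℝ, SysF g (fun ε => ∏ l, ω ε l) u B W E := by
  choose E₀ hE₀ hap using fun ε => exists_apF (hg ε)
  obtain ⟨W₀, hW₀⟩ := isCompact_Icc.exists_bound_of_continuousOn (s := Icc (0 : Fin d → ℝ) 1)
    (f := fun θ => fderiv ℝ u θ) (hu.smooth.continuous_fderiv (by norm_num)).continuousOn
  have hW0 : 0 ≤ W₀ := (norm_nonneg _).trans (hW₀ 0 ⟨le_rfl, fun _ => zero_le_one⟩)
  have hE1 : ∀ ε, E₀ ε ≤ ∑ ε, (E₀ ε + |qF (g ε) u|) := fun ε => by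
    have h1 := Finset.single_le_sum (f := fun ε => E₀ ε + |qF (g ε) u|)
      (fun ε _ => add_nonneg (hE₀ ε) (abs_nonneg _)) (Finset.mem_univ ε)
    have h2 := abs_nonneg (qF (g ε) u)
    linarith
  have hE2 : ∀ ε, |qF (g ε) u| ≤ ∑ ε, (E₀ ε + |qF (g ε) u|) := fun ε => by
    have h1 := Finset.single_le_sum (f := fun ε => E₀ ε + |qF (g ε) u|)
      (fun ε _ => add_nonneg (hE₀ ε) (abs_nonneg _)) (Finset.mem_univ ε)
    have h2 := hE₀ ε
    linarith
  refine ⟨max 1 B₀, 2 * (1 + W₀), ∑ ε, (E₀ ε + |qF (g ε) u|), hu, hp, le_max_left _ _,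
    by linarith, Finset.sum_nonneg fun ε _ => add_nonneg (hE₀ ε) (abs_nonneg _),
    fun θ => (hb θ).trans (le_max_right _ _), fun θ hθ j => ?_, fun ε => ⟨_, hg ε⟩,
    fun ε H C hH h1 h2 => ?_, hE2⟩
  · have h1 := (fderiv ℝ u θ).le_opNorm (Pi.single j 1)
    have h2 : ‖(Pi.single j 1 : Fin d → ℝ)‖ = 1 := by
      rw [Pi.norm_single, norm_one]
    rw [h2, mul_one] at h1
    have h3 := hW₀ θ hθ
    have h4 : (1 : ℝ) ≤ max 1 B₀ := le_max_left _ _
    calc ‖fderiv ℝ u θ (Pi.single j 1)‖ ≤ 1 * (1 + W₀) := by linarith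
      _ ≤ max 1 B₀ * (1 + W₀) := mul_le_mul_of_nonneg_right h4 (by linarith)
      _ = _ := by ring
  · have hC : 0 ≤ C := (abs_nonneg _).trans (h1 0)
    exact (hap ε H C hH h1 h2).trans (mul_le_mul_of_nonneg_left (hE1 ε) hC)

/-- The torus near the large zero of `R_i` with the approximate regulators. -/
theorem xtorusF {ι : Type*} {g : ι → Fin d → ℝ → ℂ} {μ : ι → ℝ} {u : (Fin d → ℝ) → ℂ}
    {B W E : ℝ} (hY : SysF g μ u B W E)
    {r : ℕ} {p T₀ K : ℝ} {D : ℤ[X]} {R : Fin r → ℤ[X]} {M : ℤ[X]} {i : Fin r} (hT₀ : 0 < T₀)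
    (hK : E * (1 + W * (1 + D.natDegree + (∑ k, ((R k).natDegree : ℝ)) + M.natDegree)) ≤ K)
    (H : DiscData6 T₀ B p D R M i) :
    ∃ (Xs : (Fin d → ℝ) → ℂ) (x a : ℝ) (b : Fin r → ℝ), ContDiff ℝ 2 Xs ∧ Per Xs ∧
      (∀ s, (cx D).eval (Xs s) ≠ 0) ∧
      (∀ s, (cx (X * (∏ k, R k) * M)).eval (Xs s) = u s * (cx D).eval (Xs s)) ∧
      (∀ s, (wrn (cx (X * (∏ k, R k) * M)) (cx D)).eval (Xs s) ≠ 0) ∧
      Good Xs ∧ (∀ k, Good fun s => (cx (R k)).eval (Xs s)) ∧ T₀ ≤ x ∧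
      (∀ k, k ≠ i → (p - 1 / 2) * x ≤ b k) ∧ a ≤ (p - 3 / 4) * x ∧
      (∀ ε, |qF (g ε) Xs + 2 * π * μ ε * x| ≤ K) ∧
      (∀ ε k, k ≠ i →
        |qF (g ε) (fun s => (cx (R k)).eval (Xs s)) + 2 * π * μ ε * b k| ≤ K) ∧
      ∀ ε, |qF (g ε) (fun s => (cx (R i)).eval (Xs s)) +
        2 * π * μ ε * (a - ∑ k ∈ Finset.univ.erase i, b k)| ≤ K := by
  classical
  obtain ⟨ξ, δ, U, hδ, hU, hx⟩ := H
  have hB0 : 0 < B := zero_lt_one.trans_le hY.hB
  have hcc : (B : ℂ) ≠ 0 := by exact_mod_cast hB0.ne'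
  have hsub' : ball ξ δ ⊆ ball ξ (2 * δ) := ball_subset_ball (by linarith)
  obtain ⟨xb, hxb, hxd⟩ := exists_xbr hY.hB (D := cx D)
    (R := cx (R i)) (G := cx ((∏ k ∈ Finset.univ.erase i, R k) * M)) hδ hU
    (fun x h => (hx x h).1) (fun x h => (hx x h).2.2.2.2.2.1) (fun x h => (hx x h).2.2.1)
    (fun x h => (hx x h).2.2.2.2.2.2.1)
  have hpr : X * cx (R i) * cx ((∏ k ∈ Finset.univ.erase i, R k) * M) =
      cx (X * (∏ k, R k) * M) := by
    rw [← Finset.mul_prod_erase _ _ (Finset.mem_univ i)]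
    simp only [cx_mul]
    have e : cx X = X := by
      unfold cx
      rw [Polynomial.map_X]
    rw [e]
    ring
  rw [hpr] at hxb
  obtain ⟨w, hw⟩ : ∃ w : (Fin d → ℝ) → ℂ, w = fun θ => u θ * (B : ℂ)⁻¹ := ⟨_, rfl⟩
  have hw1 : ∀ θ, ‖w θ‖ ≤ 1 := by
    intro θ
    rw [hw]
    simp only
    rw [← div_eq_mul_inv, norm_div, Complex.norm_real, Real.norm_eq_abs, abs_of_pos hB0]
    exact (div_le_one hB0).2 (hY.rb θ)
  have hwb : ∀ θ, w θ ∈ ball (0 : ℂ) (9 / 2) := by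
    intro θ
    rw [mem_ball_zero_iff]
    linarith [hw1 θ]
  have hucd : ContDiff ℝ 2 w := by
    rw [hw]
    exact hY.nr.smooth.mul contDiff_const
  obtain ⟨Y, hYdef⟩ : ∃ Y : (Fin d → ℝ) → ℂ, Y = fun θ => xb (w θ) := ⟨_, rfl⟩
  have hYcd : ContDiff ℝ 2 Y := by
    rw [hYdef, contDiff_iff_contDiffAt]
    intro θ
    exact (((hxb _ (hwb θ)).1).contDiffAt.restrict_scalars ℝ).comp θ hucd.contDiffAt
  have hYper : Per Y := fun θ i => by
    rw [hYdef, hw]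
    simp only
    rw [hY.per θ i]
  have hYd : ∀ s, ‖Y s - ξ‖ < δ := fun s => by
    rw [hYdef]
    exact (hxb _ (hwb s)).2.1
  have hYb : ∀ s, Y s ∈ ball ξ (2 * δ) := fun s => hsub' (mem_ball_iff_norm.2 (hYd s))
  have hYm : ∀ s, (cx (X * (∏ k, R k) * M)).eval (Y s) = u s * (cx D).eval (Y s) := by
    intro s
    have h1 := (hxb _ (hwb s)).2.2.1
    have h2 : (B : ℂ) * w s = u s := by
      rw [hw]
      field_simp
    rw [h2] at h1
    rw [hYdef]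
    exact h1
  have hYw : ∀ s, (wrn (cx (X * (∏ k, R k) * M)) (cx D)).eval (Y s) ≠ 0 := by
    intro s
    rw [hYdef]
    exact (hxb _ (hwb s)).2.2.2
  have hYW : ∀ θ ∈ Icc (0 : Fin d → ℝ) 1, ∀ j, ‖fderiv ℝ Y θ (Pi.single j 1)‖ ≤
      δ * (W / 2) := by
    intro θ hθ j
    have hd : HasFDerivAt u (fderiv ℝ u θ) θ :=
      ((hY.nr.smooth.differentiable (by norm_num)) θ).hasFDerivAt
    have hd1 : HasFDerivAt w ((B : ℂ)⁻¹ • fderiv ℝ u θ) θ := by
      rw [hw]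
      exact hd.mul_const _
    have hd2 : HasFDerivAt Y (deriv xb (w θ) • ((B : ℂ)⁻¹ • fderiv ℝ u θ)) θ := by
      rw [hYdef]
      exact ((hxb _ (hwb θ)).1.differentiableAt.hasDerivAt).comp_hasFDerivAt θ hd1
    rw [hd2.fderiv, _root_.smul_apply, _root_.smul_apply, smul_eq_mul, smul_eq_mul, norm_mul,
      norm_mul, norm_inv, Complex.norm_real, Real.norm_eq_abs, abs_of_pos hB0]
    have h1 := hxd (w θ) (hw1 θ)
    have h2 := hY.rd θ hθ j
    have h3 : B⁻¹ * ‖fderiv ℝ u θ (Pi.single j 1)‖ ≤ W / 2 := by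
      rw [inv_mul_le_iff₀ hB0]
      exact h2
    exact mul_le_mul h1 h3 (by positivity) hδ.le
  have hx0 : ∀ x ∈ ball ξ (2 * δ), x ≠ 0 := by
    intro x h h0
    have h1 := (hx x h).2.1
    rw [h0, norm_zero, Real.log_zero] at h1
    linarith
  have hW0 : 0 ≤ W := by linarith [hY.hW]
  have hEW : 0 ≤ E * W := mul_nonneg hY.hE hW0
  -- the polynomials without zeros in the disc
  have hpol : ∀ P : ℤ[X], (∀ x ∈ ball ξ (2 * δ), (cx P).eval x ≠ 0) →
      Good (fun s => (cx P).eval (Y s)) ∧ ∀ ε, |qF (g ε) (fun s => (cx P).eval (Y s)) +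
        2 * π * μ ε * Real.log ‖(cx P).eval (Y 0)‖| ≤ E * W * P.natDegree := by
    intro P hP
    obtain ⟨h1, h2, h3⟩ := polyD hYcd hδ hYd hYW hY.hW hP
    refine ⟨h1, fun ε => ?_⟩
    refine (hY.ap ε _ _ h1 h2 h3).trans ?_
    have h4 : ((cx P).natDegree : ℝ) ≤ P.natDegree := by
      unfold cx
      exact_mod_cast natDegree_map_le
    calc (cx P).natDegree * W * E = E * W * (cx P).natDegree := by ring
      _ ≤ E * W * P.natDegree := mul_le_mul_of_nonneg_left h4 hEW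
  have hcX : ∀ x, (cx X).eval x = x := by
    intro x
    unfold cx
    rw [Polynomial.map_X, eval_X]
  obtain ⟨nX, eX⟩ := hpol X (fun x h => by rw [hcX]; exact hx0 x h)
  simp only [hcX, natDegree_X, Nat.cast_one, mul_one] at nX eX
  obtain ⟨nD, eD⟩ := hpol D (fun x h => (hx x h).2.2.1)
  obtain ⟨nM, eM⟩ := hpol M (fun x h => (hx x h).2.2.2.2.1)
  have hRk := fun (k : Fin r) (hk : k ≠ i) => hpol (R k) (fun x h => (hx x h).2.2.2.1 k hk)
  have hprod : ∀ s, (cx (X * (∏ k, R k) * M)).eval (Y s) =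
      Y s * (∏ k, (cx (R k)).eval (Y s)) * (cx M).eval (Y s) := by
    intro s
    rw [cx_mul, cx_mul, cx_prod, eval_mul, eval_mul, eval_prod, hcX]
  have nR : Good fun s => (cx (R i)).eval (Y s) := by
    refine ⟨contDiff_poly hYcd _, fun s h => ?_⟩
    have h1 := hYm s
    rw [hprod, Finset.prod_eq_zero (Finset.mem_univ i) h, mul_zero, zero_mul] at h1
    exact mul_ne_zero (hY.nr.ne_zero s) (nD.ne_zero s) h1.symm
  have nRk : ∀ k, Good fun s => (cx (R k)).eval (Y s) := by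
    intro k
    by_cases hk : k = i
    · rw [hk]
      exact nR
    · exact (hRk k hk).1
  have hsum : (∑ k ∈ Finset.univ.erase i, ((R k).natDegree : ℝ)) ≤ ∑ k, ((R k).natDegree : ℝ) :=
    Finset.sum_le_sum_of_subset_of_nonneg (Finset.erase_subset _ _)
      (fun k _ _ => Nat.cast_nonneg _)
  have hs0 : (0 : ℝ) ≤ ∑ k ∈ Finset.univ.erase i, ((R k).natDegree : ℝ) :=
    Finset.sum_nonneg fun k _ => Nat.cast_nonneg _
  have hD0 : (0 : ℝ) ≤ D.natDegree := Nat.cast_nonneg _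
  have hM0 : (0 : ℝ) ≤ M.natDegree := Nat.cast_nonneg _
  have hE0 := hY.hE
  have hK1 : ∀ t : ℝ, t ≤ 1 + D.natDegree + (∑ k, ((R k).natDegree : ℝ)) + M.natDegree →
      E + E * W * t ≤ K := by
    intro t ht
    refine le_trans ?_ hK
    have h1 : E * W * t ≤ E * W * (1 + D.natDegree + (∑ k, ((R k).natDegree : ℝ)) +
        M.natDegree) := mul_le_mul_of_nonneg_left ht hEW
    linarith
  refine ⟨Y, Real.log ‖Y 0‖, Real.log ‖(cx D).eval (Y 0)‖ - Real.log ‖Y 0‖ -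
    Real.log ‖(cx M).eval (Y 0)‖, fun k => Real.log ‖(cx (R k)).eval (Y 0)‖, hYcd, hYper,
    nD.ne_zero, hYm, hYw, nX, nRk, (hx _ (hYb 0)).2.1,
    fun k hk => (hx _ (hYb 0)).2.2.2.2.2.2.2.1 k hk, ?_, fun ε => ?_, fun ε k hk => ?_,
    fun ε => ?_⟩
  · have := (hx _ (hYb 0)).2.2.2.2.2.2.2.2
    linarith
  · refine (eX ε).trans ?_
    have := hK1 1 (by linarith)
    linarith
  · refine ((hRk k hk).2 ε).trans ?_
    have h1 : ((R k).natDegree : ℝ) ≤ ∑ k, ((R k).natDegree : ℝ) :=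
      Finset.single_le_sum (f := fun k => ((R k).natDegree : ℝ)) (fun k _ => Nat.cast_nonneg _)
        (Finset.mem_univ k)
    have := hK1 (R k).natDegree (by linarith)
    linarith
  · -- the class of `R_i`
    have e1 : (fun s => Y s * (∏ k, (cx (R k)).eval (Y s)) * (cx M).eval (Y s)) =
        fun s => u s * (cx D).eval (Y s) := by
      funext s
      rw [← hprod]
      exact hYm s
    obtain ⟨ω, hω⟩ := hY.sh ε
    have e2 := congrArg (qF (g ε)) e1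
    rw [qF_mul hω (nX.mul (good_prod _ nRk)) nM, qF_mul hω nX (good_prod _ nRk),
      qF_prod hω _ nRk, qF_mul hω hY.nr nD, ← Finset.add_sum_erase _ _ (Finset.mem_univ i)] at e2
    have e3 : qF (g ε) (fun s => (cx (R i)).eval (Y s)) +
        2 * π * μ ε * (Real.log ‖(cx D).eval (Y 0)‖ - Real.log ‖Y 0‖ -
          Real.log ‖(cx M).eval (Y 0)‖ - ∑ k ∈ Finset.univ.erase i,
            Real.log ‖(cx (R k)).eval (Y 0)‖) =
        qF (g ε) u +
        (qF (g ε) (fun s => (cx D).eval (Y s)) +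
          2 * π * μ ε * Real.log ‖(cx D).eval (Y 0)‖) -
        (qF (g ε) Y + 2 * π * μ ε * Real.log ‖Y 0‖) -
        (qF (g ε) (fun s => (cx M).eval (Y s)) +
          2 * π * μ ε * Real.log ‖(cx M).eval (Y 0)‖) -
        ∑ k ∈ Finset.univ.erase i, (qF (g ε) (fun s => (cx (R k)).eval (Y s)) +
            2 * π * μ ε * Real.log ‖(cx (R k)).eval (Y 0)‖) := by
      rw [Finset.sum_add_distrib, ← Finset.mul_sum]
      linear_combination e2
    rw [e3]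
    have h1 : |∑ k ∈ Finset.univ.erase i, (qF (g ε) (fun s => (cx (R k)).eval (Y s)) +
            2 * π * μ ε * Real.log ‖(cx (R k)).eval (Y 0)‖)| ≤
        E * W * ∑ k ∈ Finset.univ.erase i, ((R k).natDegree : ℝ) := by
      refine (Finset.abs_sum_le_sum_abs _ _).trans ?_
      rw [Finset.mul_sum]
      exact Finset.sum_le_sum fun k hk => (hRk k (Finset.ne_of_mem_erase hk)).2 ε
    have h5 := hY.pb ε
    have eX := eX ε
    have eD := eD ε
    have eM := eM ε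
    have h6 := hK1 (1 + D.natDegree + (∑ k ∈ Finset.univ.erase i, ((R k).natDegree : ℝ)) +
      M.natDegree) (by linarith)
    rw [abs_le] at h1 eX eD eM h5 ⊢
    constructor <;> linarith [h1.1, h1.2, eX.1, eX.2, eD.1, eD.2, eM.1, eM.2, h5.1, h5.2]

/-- Injectivity of the regulators. -/
theorem matF {ι : Type*} [Fintype ι] [Nonempty ι] {g : ι → ι → Fin d → ℝ → ℂ} {μ : ι → ι → ℝ}
    (hμ : ∀ (f : ι → ℝ) (N : ℝ), (∀ a, |∑ b, μ a b * f b| ≤ N) → ∀ b, |f b| ≤ N)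
    {u : ι → (Fin d → ℝ) → ℂ} {B W E : ι → ℝ}
    (hY : ∀ α, SysF (g α) (μ α) (u α) (B α) (W α) (E α))
    {r : ℕ} (hr : 0 < r) {p T₀ K : ℝ} (hp : 1 ≤ p) {D : ℤ[X]} {R : Fin r → ℤ[X]} {M : ℤ[X]}
    (hT₀ : 0 < T₀) (hT : Fintype.card ι * ((r + 1) * K) * (8 * (1 + 2 * p)) ≤ π * T₀)
    (hK : ∀ α, E α * (1 + W α * (1 + D.natDegree + (∑ k, ((R k).natDegree : ℝ)) +
      M.natDegree)) ≤ K)
    (H : ∀ α i, DiscData6 T₀ (B α) p D R M i) {j : Fin r → ℕ} (hj : ∀ k, p ≤ j k) :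
    ∃ Xs : ι → Fin r → (Fin d → ℝ) → ℂ, (∀ α i, ContDiff ℝ 2 (Xs α i)) ∧
      (∀ α i, Per (Xs α i)) ∧
      (∀ α i s, (cx D).eval (Xs α i s) ≠ 0) ∧
      (∀ α i s, (cx (X * (∏ k, R k) * M)).eval (Xs α i s) = u α s * (cx D).eval (Xs α i s)) ∧
      (∀ α i s, (wrn (cx (X * (∏ k, R k) * M)) (cx D)).eval (Xs α i s) ≠ 0) ∧
      (∀ α i, Good (Xs α i)) ∧ (∀ α i k, Good fun s => (cx (R k)).eval (Xs α i s)) ∧
      ∀ c : ι → Fin r → ℝ, (∀ α i, ∑ b', ∑ k, c b' k *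
        (qF (g α b') (fun s => (cx (R k)).eval (Xs α i s)) - j k * qF (g α b') (Xs α i)) = 0) →
          ∀ b' k, c b' k = 0 := by
  classical
  choose Xs x a b h1 h2 h3 h4 hw h5 h6 h7 h8 h9 h10 h11 h12 using
    fun (α : ι) (i : Fin r) => xtorusF (hY α) hT₀ (hK α) (H α i)
  refine ⟨Xs, h1, h2, h3, h4, hw, h5, h6, fun c hc => ?_⟩
  obtain ⟨o⟩ := ‹Nonempty ι›
  have hK0 : 0 ≤ K := by
    refine le_trans ?_ (hK o)
    have h13 : (0 : ℝ) ≤ ∑ k, ((R k).natDegree : ℝ) := Finset.sum_nonneg fun k _ =>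
      Nat.cast_nonneg _
    have := (hY o).hE
    have := (hY o).hW
    positivity
  exact lin7F (m := fun b' α => μ α b') (fun f N h => hμ f N h) (J' := fun k => (j k : ℝ)) hp hr
    hK0 hT₀ hT h7 h8 h9 hj
    (PX := fun b' α i => qF (g α b') (Xs α i))
    (P := fun b' α i k => qF (g α b') (fun s => (cx (R k)).eval (Xs α i s)))
    (fun b' α i => h10 α i b') (fun b' α i k hk => h11 α i b' k hk)
    (fun b' α i => h12 α i b') hc

end Pool.Agent.H442
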