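import Pool.Agent.H442.UnrD
set_option autoImplicit false

/-!
The classes `{R(x) / x^j, f_1, ..., f_d}`, `f_l ∈ {y_l, 1 - y_l}`, where
`∏_l (y_l^2 - y_l + 1)^{a_l} / (y_l^{b_l} (1 - y_l)^{c_l}) = x R(x) M(x) / D(x)` and `R ≡ X^j` modulo
`D`: they are unramified at all discrete valuations.
-/

namespace Pool.Agent.H442

open Polynomial

open scoped WithZero

open Pool.Agent.TH826.MK (KQ symb unitPart Unramified val_one_of_sub_one symb_update_mul
  symb_update_zpow symb_eq_zero' mem_unitPart_of_oneUnit' mem_unitPart_of_pow)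

open Pool.Agent.TH826.SX (symb_self symb_upd_one symb_upd_neg)

section defs

variable {d : ℕ}

/-- the function `y_l` or `1 - y_l` -/
def fQ {S : Type*} (y y' : Fin d → S) (ε : Fin d → Fin 2) (l : Fin d) : S :=
  if ε l = 0 then y l else y' l

/-- the function `∏_l (y_l^2 - y_l + 1)^{a_l}` -/
def nQ {S : Type*} [CommRing S] (a : Fin d → ℕ) (y : Fin d → S) : S :=
  ∏ l, (y l ^ 2 - y l + 1) ^ a l

/-- the function `∏_l y_l^{b_l} (1 - y_l)^{c_l}` -/
def dQ {S : Type*} [CommRing S] (b c : Fin d → ℕ) (y : Fin d → S) : S :=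
  ∏ l, y l ^ b l * (1 - y l) ^ c l

end defs

section symbols

variable {L : Type*} [Field L] {d : ℕ} {y y' : Fin d → Lˣ}

theorem aeval_six (t : L) : aeval t (cyclotomic 6 ℤ) = t ^ 2 - t + 1 := by
  rw [cyclotomic_six]
  simp

variable (hy : ∀ l, (y' l : L) = 1 - y l) (ε : Fin d → Fin 2)

include hy

theorem sc_y (l : Fin d) : symb (Fin.cons (y l) (fQ y y' ε) : Fin (d + 1) → Lˣ) = 0 := by
  by_cases h : ε l = 0
  · have e : fQ y y' ε l = y l := by
      unfold fQ
      rw [if_pos h]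
    have h1 := sc_self (fQ y y' ε) l
    rwa [e] at h1
  · have e : fQ y y' ε l = y' l := by
      unfold fQ
      rw [if_neg h]
    refine symb_eq_zero' _ (Fin.succ_ne_zero l).symm ?_
    rw [Fin.cons_succ, Fin.cons_zero, e, hy]
    ring

theorem sc_y' (l : Fin d) : symb (Fin.cons (y' l) (fQ y y' ε) : Fin (d + 1) → Lˣ) = 0 := by
  by_cases h : ε l = 0
  · have e : fQ y y' ε l = y l := by
      unfold fQ
      rw [if_pos h]
    refine symb_eq_zero' _ (Fin.succ_ne_zero l).symm ?_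
    rw [Fin.cons_succ, Fin.cons_zero, e, hy]
    ring
  · have e : fQ y y' ε l = y' l := by
      unfold fQ
      rw [if_neg h]
    have h1 := sc_self (fQ y y' ε) l
    rwa [e] at h1

theorem sc_six (l : Fin d) (u : Lˣ) (hu : (u : L) = (y l : L) ^ 2 - y l + 1) :
    symb (Fin.cons u (fQ y y' ε) : Fin (d + 1) → Lˣ) = 0 := by
  refine sc_cyclotomic (fQ y y' ε) l 6 (by norm_num) u ?_
  rw [aeval_six, hu]
  unfold fQ
  by_cases h : ε l = 0
  · rw [if_pos h]
  · rw [if_neg h, hy]
    ring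

/-- the symbol with the product vanishes -/
theorem sc_mainQ {a b c : Fin d → ℕ} (u : Lˣ)
    (hu : (u : L) = nQ a (fun l => (y l : L)) / dQ b c (fun l => (y l : L))) (ha : ∀ l, 1 ≤ a l) :
    symb (Fin.cons u (fQ y y' ε) : Fin (d + 1) → Lˣ) = 0 := by
  classical
  have hn : nQ a (fun l => (y l : L)) ≠ 0 := by
    intro h
    refine u.ne_zero ?_
    rw [hu, h, zero_div]
  have hne : ∀ l, (y l : L) ^ 2 - y l + 1 ≠ 0 := by
    intro l h
    refine hn ?_
    unfold nQ
    refine Finset.prod_eq_zero (Finset.mem_univ l) ?_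
    have h1 : a l ≠ 0 := by
      have := ha l
      omega
    simp only [h]
    exact zero_pow h1
  have e : u = ∏ l, (Units.mk0 _ (hne l) ^ ((a l : ℕ) : ℤ) *
      ((y l ^ ((b l : ℕ) : ℤ)) * (y' l ^ ((c l : ℕ) : ℤ)))⁻¹) := by
    apply Units.ext
    rw [hu, Units.coe_prod]
    unfold nQ dQ
    rw [← Finset.prod_div_distrib]
    refine Finset.prod_congr rfl fun l _ => ?_
    rw [Units.val_mul, Units.val_inv_eq_inv_val, Units.val_mul, zpow_natCast, zpow_natCast,
      zpow_natCast, Units.val_pow_eq_pow_val, Units.val_pow_eq_pow_val, Units.val_pow_eq_pow_val,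
      Units.val_mk0, hy, div_eq_mul_inv]
  rw [e, sc_prod]
  refine Finset.sum_eq_zero fun l _ => ?_
  rw [sc_mul, sc_inv, sc_mul, sc_zpow, sc_zpow, sc_zpow, sc_y hy, sc_y' hy,
    sc_six hy ε l _ rfl]
  simp

end symbols

section val

variable {L : Type*} [Field L] (v : Valuation L ℤᵐ⁰)

/-- one factor -/
theorem valQ {a b c : ℕ} (hb : 1 ≤ b) (hc : 1 ≤ c) (habc : b + c < 2 * a) {t : L} (ht : t ≠ 0)
    (ht' : 1 - t ≠ 0) : (v t = 1 ∧ v (1 - t) = 1) ∨
      1 < v ((t ^ 2 - t + 1) ^ a / (t ^ b * (1 - t) ^ c)) := by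
  have vt : 0 < v t := zero_lt_iff.2 ((Valuation.ne_zero_iff v).2 ht)
  have vt' : 0 < v (1 - t) := zero_lt_iff.2 ((Valuation.ne_zero_iff v).2 ht')
  have hb0 : b ≠ 0 := by omega
  have hc0 : c ≠ 0 := by omega
  rcases lt_trichotomy (v t) 1 with h1 | h1 | h1
  · right
    have h2 : v (1 - t) = 1 := by
      rw [Valuation.map_sub_eq_of_lt_left, map_one]
      rw [map_one]
      exact h1
    have h3 : v (t ^ 2 - t + 1) = 1 := by
      have h4 : v (t ^ 2 - t) < 1 := by
        refine (v.map_sub _ _).trans_lt (max_lt ?_ h1)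
        rw [map_pow]
        exact pow_lt_one₀ zero_le h1 (by norm_num)
      rw [Valuation.map_add_eq_of_lt_right, map_one]
      rw [map_one]
      exact h4
    rw [map_div₀, map_mul, map_pow, map_pow, map_pow, h2, h3, one_pow, one_pow, mul_one, one_div]
    exact (one_lt_inv₀ (pow_pos vt b)).2 (pow_lt_one₀ zero_le h1 hb0)
  · rcases lt_trichotomy (v (1 - t)) 1 with h2 | h2 | h2
    · right
      have h3 : v (t ^ 2 - t + 1) = 1 := by
        have e : t ^ 2 - t + 1 = 1 - t * (1 - t) := by ring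
        rw [e, Valuation.map_sub_eq_of_lt_left, map_one]
        rw [map_one, map_mul, h1, one_mul]
        exact h2
      rw [map_div₀, map_mul, map_pow, map_pow, map_pow, h1, h3, one_pow, one_pow, one_mul, one_div]
      exact (one_lt_inv₀ (pow_pos vt' c)).2 (pow_lt_one₀ zero_le h2 hc0)
    · exact Or.inl ⟨h1, h2⟩
    · exfalso
      have h3 : v (1 - t) ≤ 1 := by
        refine (v.map_sub _ _).trans (max_le (map_one v).le h1.le)
      exact absurd h2 (not_lt.2 h3)
  · right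
    have h2 : v (1 - t) = v t := by
      rw [Valuation.map_sub_eq_of_lt_right]
      rw [map_one]
      exact h1
    have h3 : v (t ^ 2 - t + 1) = v t ^ 2 := by
      have e : t ^ 2 - t + 1 = t ^ 2 - (t - 1) := by ring
      have h4 : v (t - 1) = v t := by
        rw [Valuation.map_sub_swap, h2]
      rw [e, Valuation.map_sub_eq_of_lt_left, map_pow]
      rw [h4, map_pow]
      calc v t = v t ^ 1 := (pow_one _).symm
        _ < v t ^ 2 := pow_lt_pow_right₀ h1 (by norm_num)
    rw [map_div₀, map_mul, map_pow, map_pow, map_pow, h2, h3, ← pow_mul, ← pow_add]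
    obtain ⟨m, hm⟩ : ∃ m, 2 * a = (m + 1) + (b + c) := ⟨2 * a - (b + c) - 1, by omega⟩
    rw [hm, pow_add, mul_div_cancel_right₀ _ (pow_ne_zero _ vt.ne')]
    exact one_lt_pow₀ h1 (by omega)

theorem val_six {t : L} (ht : v t ≤ 1) (h : v (t ^ 2 - t + 1) < 1) : v (t ^ 6 - 1) < 1 := by
  have e : t ^ 6 - 1 = (t ^ 2 - t + 1) * aeval t (X ^ 4 + X ^ 3 - X - 1 : ℤ[X]) := by
    simp
    ring
  rw [e, map_mul]
  exact mul_lt_one_of_lt_of_le h (val_aevalZ_le v ht _)

variable {d : ℕ} {y y' : Fin d → Lˣ} (hy : ∀ l, (y' l : L) = 1 - y l) {a b c : Fin d → ℕ}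

include hy

theorem units_orQ (hb : ∀ l, 1 ≤ b l) (hc : ∀ l, 1 ≤ c l) (habc : ∀ l, b l + c l < 2 * a l)
    (h : v (nQ a (fun l => (y l : L)) / dQ b c (fun l => (y l : L))) ≤ 1) :
    ((∀ l, v (y l : L) = 1 ∧ v (y' l : L) = 1) ∧
      v (nQ a (fun l => (y l : L)) / dQ b c (fun l => (y l : L))) = 1) ∨
      ∃ l, v ((y l : L) ^ 6 - 1) < 1 ∧ v ((y' l : L) ^ 6 - 1) < 1 := by
  have hval := fun l => valQ v (hb l) (hc l) (habc l) (t := (y l : L)) (y l).ne_zero
    (by rw [← hy]; exact (y' l).ne_zero)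
  by_cases hex : ∃ l, v (y l : L) = 1 ∧ v (1 - (y l : L)) = 1 ∧
      v ((y l : L) ^ 2 - y l + 1) < 1
  · obtain ⟨l, h1, h2, h3⟩ := hex
    refine Or.inr ⟨l, val_six v h1.le h3, ?_⟩
    rw [hy]
    refine val_six v h2.le ?_
    have e : (1 - (y l : L)) ^ 2 - (1 - y l) + 1 = (y l : L) ^ 2 - y l + 1 := by ring
    rw [e]
    exact h3
  left
  push Not at hex
  have e : nQ a (fun l => (y l : L)) / dQ b c (fun l => (y l : L)) =
      ∏ l, ((y l : L) ^ 2 - y l + 1) ^ a l / ((y l : L) ^ b l * (1 - (y l : L)) ^ c l) := by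
    unfold nQ dQ
    rw [Finset.prod_div_distrib]
  rw [e, map_prod] at h ⊢
  have hge : ∀ l, 1 ≤ v (((y l : L) ^ 2 - y l + 1) ^ a l /
      ((y l : L) ^ b l * (1 - (y l : L)) ^ c l)) := by
    intro l
    rcases hval l with ⟨h1, h2⟩ | h1
    · rw [map_div₀, map_mul, map_pow, map_pow, map_pow, h1, h2, one_pow, one_pow, mul_one, div_one]
      exact one_le_pow₀ (hex l h1 h2)
    · exact h1.le
  have h2 := le_antisymm h (Finset.one_le_prod'' hge)
  have h3 := (Finset.prod_eq_one_iff_of_one_le' (fun l _ => hge l)).1 h2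
  refine ⟨fun l => ?_, h2⟩
  rcases hval l with h1 | h1
  · rw [hy]
    exact h1
  · exact absurd (h3 l (Finset.mem_univ l)) h1.ne'

end val

section main

variable {O L : Type*} [CommRing O] [Field L] [Algebra O L] {v : Valuation L ℤᵐ⁰}

/-- The classes are unramified. -/
theorem memQ (hO : ∀ a : O, v (algebraMap O L a) ≤ 1) {n : ℕ} {a b c : Fin n → ℕ}
    (hb : ∀ l, 1 ≤ b l) (hc : ∀ l, 1 ≤ c l) (habc : ∀ l, b l + c l < 2 * a l) {D R M Q : O[X]}
    (hD : D.Monic) (hR : R.Monic) (hM : M.Monic)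
    (hdeg : D.natDegree < 1 + R.natDegree + M.natDegree) {j : ℕ}
    (hQ : X ^ j - R = D * Q) {x r d : Lˣ} {y y' : Fin n → Lˣ} (hy : ∀ l, (y' l : L) = 1 - y l)
    (hd : (d : L) = aeval (x : L) D) (hr : (r : L) = aeval (x : L) R)
    (h : nQ a (fun l => (y l : L)) / dQ b c (fun l => (y l : L)) =
      x * r * aeval (x : L) M / d) (ε : Fin n → Fin 2) :
    symb (Fin.cons (r / x ^ j) (fQ y y' ε) : Fin (n + 1) → Lˣ) ∈ unitPart v (n + 1) := by
  classical
  have hf : ∀ l, fQ y y' ε l = y l ∨ fQ y y' ε l = y' l := by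
    intro l
    unfold fQ
    by_cases h : ε l = 0
    · exact Or.inl (if_pos h)
    · exact Or.inr (if_neg h)
  rcases le_or_gt (v (x : L)) 1 with hx | hx
  · have key : v ((x : L) * r * aeval (x : L) M / d) ≤ 1 →
        ((∀ l, v ((fQ y y' ε l : Lˣ) : L) = 1) ∧ v ((x : L) * r * aeval (x : L) M / d) = 1) ∨
          symb (Fin.cons (r / x ^ j) (fQ y y' ε) : Fin (n + 1) → Lˣ) ∈ unitPart v (n + 1) := by
      intro h1
      rw [← h] at h1 ⊢
      rcases units_orQ v hy hb hc habc h1 with h2 | ⟨l, h2, h3⟩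
      · left
        refine ⟨fun l => ?_, h2.2⟩
        rcases hf l with h4 | h4
        · rw [h4]
          exact (h2.1 l).1
        · rw [h4]
          exact (h2.1 l).2
      · right
        refine mem_unitPart_of_pow v l.succ _ (m := 6) (by norm_num) ?_
        rw [Fin.cons_succ]
        rcases hf l with h4 | h4
        · rw [h4]
          exact h2
        · rw [h4]
          exact h3
    rcases tri6 hO (M := M) hQ hd hr hx with h1 | h1 | ⟨h1, h2⟩
    · rcases key h1.le with h2 | h2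
      · exact absurd h2.2 h1.ne
      · exact h2
    · exact mem_unitPart_of_oneUnit' v 0 _ (by rw [Fin.cons_zero]; exact h1)
    · rcases key h1 with h3 | h3
      · refine Submodule.subset_span ⟨_, fun i => ?_, rfl⟩
        refine Fin.cases ?_ (fun l => ?_) i
        · rw [Fin.cons_zero]
          exact h2
        · rw [Fin.cons_succ]
          exact h3.1 l
      · exact h3
  · obtain ⟨k, uq, h1, h2⟩ := q_inf hO hD hR hM hdeg hd hr hx
    have huqv := val_one_of_sub_one h1
    have huq0 : uq ≠ 0 := fun h0 => by rw [h0, map_zero] at huqv; exact zero_ne_one huqv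
    have hx0 : (x : L) ≠ 0 := x.ne_zero
    have uR := aeval_inf hO hx hR
    have hr1 : v (((r / x ^ R.natDegree : Lˣ) : L) - 1) < 1 := by
      rw [Units.val_div_eq_div_val, Units.val_pow_eq_pow_val, hr]
      exact uR
    have e3 : r / x ^ j = (r / x ^ R.natDegree) * (x ^ ((R.natDegree : ℤ) - j)) := by
      rw [zpow_sub, zpow_natCast, zpow_natCast, div_mul_eq_mul_div, div_eq_mul_inv,
        div_eq_mul_inv]
      group
    -- the symbol of `x`
    have hxm : symb (Fin.cons x (fQ y y' ε) : Fin (n + 1) → Lˣ) ∈ unitPart v (n + 1) := by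
      obtain ⟨u, hu⟩ : ∃ u : Lˣ, (u : L) = uq := ⟨Units.mk0 uq huq0, rfl⟩
      have h3 : symb (Fin.cons (x ^ ((k + 1 : ℕ) : ℤ) * u) (fQ y y' ε) :
          Fin (n + 1) → Lˣ) = 0 := by
        refine sc_mainQ hy ε (a := a) (b := b) (c := c) _ ?_ fun l => by
          have := hb l
          have := habc l
          omega
        rw [h, h2, Units.val_mul, zpow_natCast, Units.val_pow_eq_pow_val, hu]
      rw [sc_mul, sc_zpow] at h3
      have h4 : symb (Fin.cons u (fQ y y' ε) : Fin (n + 1) → Lˣ) ∈ unitPart v (n + 1) :=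
        mem_unitPart_of_oneUnit' v 0 _ (by rw [Fin.cons_zero, hu]; exact h1)
      have h5 : (((k + 1 : ℕ) : ℤ) : ℚ) ≠ 0 := by
        have : k + 1 ≠ 0 := by omega
        exact_mod_cast this
      have h6 : (((k + 1 : ℕ) : ℤ) : ℚ) • symb (Fin.cons x (fQ y y' ε) : Fin (n + 1) → Lˣ) =
          -symb (Fin.cons u (fQ y y' ε) : Fin (n + 1) → Lˣ) := eq_neg_of_add_eq_zero_left h3
      have h7 : symb (Fin.cons x (fQ y y' ε) : Fin (n + 1) → Lˣ) = (((k + 1 : ℕ) : ℤ) : ℚ)⁻¹ •
          (-symb (Fin.cons u (fQ y y' ε) : Fin (n + 1) → Lˣ)) := by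
        rw [← h6, smul_smul, inv_mul_cancel₀ h5, one_smul]
      rw [h7]
      exact Submodule.smul_mem _ _ (Submodule.neg_mem _ h4)
    rw [e3, sc_mul, sc_zpow]
    exact Submodule.add_mem _ (mem_unitPart_of_oneUnit' v 0 _ (by rw [Fin.cons_zero]; exact hr1))
      (Submodule.smul_mem _ _ hxm)

end main

end Pool.Agent.H442
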