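import Pool.Agent.H442.RngD
import Pool.Agent.H442.TorF
import Pool.Agent.H442.UnrF
set_option autoImplicit false

/-!
The coordinate ring of the open part `A(x) ∏_l y_l (1 - y_l) ≠ 0` of the hypersurface
`D(x) ∏_l (y_l^2 - y_l + 1)^{a_l} = A(x) ∏_l y_l^{b_l} (1 - y_l)^{c_l}`, and its tori.
-/

namespace Pool.Agent.H442

open Polynomial

open Pool.Agent.TH826.MK (Torus KQ KQ.map KQ.map_symb symb Unramified unitPart pairing vf Good Per
  circ norm_circ contDiff_circ circ_add_one)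

open scoped WithZero

theorem map_nQ {S T : Type*} [CommRing S] [CommRing T] (f : S →+* T) {d : ℕ} (a : Fin d → ℕ)
    (y : Fin d → S) : f (nQ a y) = nQ a (fun l => f (y l)) := by
  unfold nQ
  simp only [map_prod, map_pow, map_add, map_sub, map_one]

theorem map_dQ {S T : Type*} [CommRing S] [CommRing T] (f : S →+* T) {d : ℕ} (b c : Fin d → ℕ)
    (y : Fin d → S) : f (dQ b c y) = dQ b c (fun l => f (y l)) := by
  unfold dQ
  simp only [map_prod, map_mul, map_pow, map_sub, map_one]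

section ring

variable {d : ℕ} (a b c : Fin d → ℕ) (A D : ℤ[X])

/-- the polynomial `D(x) ∏_l (y_l^2 - y_l + 1)^{a_l} - A(x) ∏_l y_l^{b_l} (1 - y_l)^{c_l}` in the
variables `y_l = X (inl l)` and `x = X (inr 0)` -/
noncomputable def eqnQ : MvPolynomial (Fin d ⊕ Fin 2) ℚ :=
  evZ D (MvPolynomial.X (Sum.inr 0)) * nQ a (fun l => MvPolynomial.X (Sum.inl l)) -
    evZ A (MvPolynomial.X (Sum.inr 0)) * dQ b c (fun l => MvPolynomial.X (Sum.inl l))

/-- the polynomial `t A(x) ∏_l y_l (1 - y_l) - 1`, `t = X (inr 1)` -/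
noncomputable def invQ (d : ℕ) (A : ℤ[X]) : MvPolynomial (Fin d ⊕ Fin 2) ℚ :=
  MvPolynomial.X (Sum.inr 1) * (evZ A (MvPolynomial.X (Sum.inr 0)) *
    dQ (fun _ => 1) (fun _ => 1) (fun l => MvPolynomial.X (Sum.inl l))) - 1

/-- the coordinate ring of the variety
`D(x) ∏_l (y_l^2 - y_l + 1)^{a_l} = A(x) ∏_l y_l^{b_l} (1 - y_l)^{c_l}`,
`A(x) ∏_l y_l (1 - y_l) ≠ 0` over `ℚ` -/
def QR : Type := MvPolynomial (Fin d ⊕ Fin 2) ℚ ⧸ Ideal.span {eqnQ a b c A D, invQ d A}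

noncomputable instance instCommRingQR : CommRing (QR a b c A D) :=
  Ideal.Quotient.commRing (Ideal.span {eqnQ a b c A D, invQ d A})

/-- the class of a polynomial -/
noncomputable def mkQ : MvPolynomial (Fin d ⊕ Fin 2) ℚ →+* QR a b c A D :=
  Ideal.Quotient.mk (Ideal.span {eqnQ a b c A D, invQ d A})

/-- the function `y_l` -/
noncomputable def yQ (l : Fin d) : QR a b c A D := mkQ a b c A D (MvPolynomial.X (Sum.inl l))

/-- the function `x` -/
noncomputable def xQ : QR a b c A D := mkQ a b c A D (MvPolynomial.X (Sum.inr 0))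

theorem relQ : evZ D (xQ a b c A D) * nQ a (yQ a b c A D) =
    evZ A (xQ a b c A D) * dQ b c (yQ a b c A D) := by
  have h : mkQ a b c A D (eqnQ a b c A D) = 0 :=
    Ideal.Quotient.eq_zero_iff_mem.2 (Ideal.subset_span (Set.mem_insert _ _))
  unfold eqnQ at h
  rw [map_sub, map_mul, map_mul, map_nQ, map_dQ, sub_eq_zero, map_evZ, map_evZ] at h
  exact h

theorem unitQ : IsUnit (evZ A (xQ a b c A D) *
    dQ (fun _ => 1) (fun _ => 1) (yQ a b c A D)) := by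
  have h : mkQ a b c A D (invQ d A) = 0 :=
    Ideal.Quotient.eq_zero_iff_mem.2 (Ideal.subset_span (Set.mem_insert_of_mem _ rfl))
  unfold invQ at h
  rw [map_sub, map_mul, map_mul, map_dQ, map_one, sub_eq_zero, map_evZ] at h
  exact IsUnit.of_mul_eq_one _ (by rw [mul_comm]; exact h)

theorem unit_AQ : IsUnit (evZ A (xQ a b c A D)) :=
  isUnit_of_dvd_unit (dvd_mul_right _ _) (unitQ a b c A D)

theorem unit_yQ_both (l : Fin d) : IsUnit (yQ a b c A D l * (1 - yQ a b c A D l)) := by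
  have h := unitQ a b c A D
  have h2 : IsUnit (dQ (fun _ => 1) (fun _ => 1) (yQ a b c A D)) :=
    isUnit_of_dvd_unit (dvd_mul_left _ _) h
  unfold dQ at h2
  have h3 := IsUnit.prod_univ_iff.1 h2 l
  rwa [pow_one, pow_one] at h3

theorem unit_yQ (l : Fin d) : IsUnit (yQ a b c A D l) :=
  isUnit_of_dvd_unit (dvd_mul_right _ _) (unit_yQ_both a b c A D l)

theorem unit_yQ' (l : Fin d) : IsUnit (1 - yQ a b c A D l) :=
  isUnit_of_dvd_unit (dvd_mul_left _ _) (unit_yQ_both a b c A D l)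

theorem unit_DQ : IsUnit (evZ D (xQ a b c A D)) := by
  have h : IsUnit (evZ A (xQ a b c A D) * dQ b c (yQ a b c A D)) := by
    refine (unit_AQ a b c A D).mul ?_
    unfold dQ
    exact IsUnit.prod_univ_iff.2 fun l => ((unit_yQ a b c A D l).pow _).mul
      ((unit_yQ' a b c A D l).pow _)
  rw [← relQ] at h
  exact isUnit_of_dvd_unit (dvd_mul_right _ _) h

end ring

section eval

variable {d : ℕ}

/-- The torus with given functions. -/
theorem exists_torusQ {a b c : Fin d → ℕ} {A D : ℤ[X]}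
    {x : (Fin d → ℝ) → ℂ} {Y : Fin d → (Fin d → ℝ) → ℂ}
    (hY : ∀ l, ContDiff ℝ 2 (Y l)) (hYp : ∀ l, Per (Y l)) (hY0 : ∀ l θ, Y l θ ≠ 0)
    (hY1 : ∀ l θ, 1 - Y l θ ≠ 0)
    (hx : ContDiff ℝ 2 x) (hxp : Per x) (hA : ∀ θ, evZ A (x θ) ≠ 0)
    (heq : ∀ θ, evZ D (x θ) * nQ a (fun l => Y l θ) = evZ A (x θ) * dQ b c (fun l => Y l θ)) :
    ∃ Γ : Torus (QR a b c A D) d, (∀ θ l, Γ.e θ (yQ a b c A D l) = Y l θ) ∧
      (∀ θ, Γ.e θ (xQ a b c A D) = x θ) := by
  obtain ⟨Δ, hΔ⟩ : ∃ Δ : (Fin d → ℝ) → ℂ, Δ = fun θ => evZ A (x θ) *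
      dQ (fun _ => 1) (fun _ => 1) (fun l => Y l θ) := ⟨_, rfl⟩
  have hAs : ContDiff ℝ 2 fun θ => evZ A (x θ) := by
    have e : (fun θ => evZ A (x θ)) = fun θ => (cx A).eval (x θ) := by
      funext θ
      exact evZ_cx A (x θ)
    rw [e]
    exact contDiff_poly hx _
  have hΔs : ContDiff ℝ 2 Δ := by
    rw [hΔ]
    unfold dQ
    exact hAs.mul (contDiff_prod fun l _ => ((hY l).pow 1).mul ((contDiff_const.sub (hY l)).pow 1))
  have hΔ0 : ∀ θ, Δ θ ≠ 0 := fun θ => by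
    rw [hΔ]
    unfold dQ
    exact mul_ne_zero (hA θ) (Finset.prod_ne_zero_iff.2 fun l _ =>
      mul_ne_zero (pow_ne_zero _ (hY0 l θ)) (pow_ne_zero _ (hY1 l θ)))
  have hΔp : ∀ θ i, Δ (θ + Pi.single i 1) = Δ θ := by
    intro θ i
    have h1 := fun l => hYp l θ i
    rw [hΔ]
    simp only
    rw [hxp θ i]
    simp only [h1]
  obtain ⟨v, hv⟩ : ∃ v : (Fin d → ℝ) → Fin d ⊕ Fin 2 → ℂ,
      v = fun θ => Sum.elim (fun l => Y l θ) ![x θ, (Δ θ)⁻¹] := ⟨_, rfl⟩
  have hvs : ∀ i, ContDiff ℝ 2 fun θ => v θ i := by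
    rintro (l | i)
    · simp only [hv, Sum.elim_inl]
      exact hY l
    · simp only [hv, Sum.elim_inr]
      match i with
      | 0 => simpa using hx
      | 1 =>
        have h1 : ContDiff ℝ 2 fun θ => (Δ θ)⁻¹ := hΔs.inv hΔ0
        simpa using h1
  have hvp : ∀ θ i, v (θ + Pi.single i 1) = v θ := by
    intro θ i
    rw [hv]
    simp only
    have h1 := fun l => hYp l θ i
    rw [hxp θ i, hΔp θ i]
    simp only [h1]
  have hev : ∀ θ (Q : ℤ[X]) (q : MvPolynomial (Fin d ⊕ Fin 2) ℚ),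
      MvPolynomial.eval₂Hom (algebraMap ℚ ℂ) (v θ) (evZ Q q) =
        evZ Q (MvPolynomial.eval₂Hom (algebraMap ℚ ℂ) (v θ) q) := fun θ Q q =>
    map_evZ _ _ _
  have hX : ∀ θ i, MvPolynomial.eval₂Hom (algebraMap ℚ ℂ) (v θ) (MvPolynomial.X i) = v θ i :=
    fun θ i => by simp
  have hl : ∀ θ l, v θ (Sum.inl l) = Y l θ := fun θ l => by rw [hv]; rfl
  have h0 : ∀ θ, v θ (Sum.inr 0) = x θ := fun θ => by rw [hv]; rfl
  have h1 : ∀ θ, v θ (Sum.inr 1) = (Δ θ)⁻¹ := fun θ => by rw [hv]; rfl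
  have hI : ∀ θ, ∀ q ∈ (Ideal.span {eqnQ a b c A D, invQ d A} :
        Ideal (MvPolynomial (Fin d ⊕ Fin 2) ℚ)),
      MvPolynomial.eval₂Hom (algebraMap ℚ ℂ) (v θ) q = 0 := by
    intro θ
    have hle : (Ideal.span {eqnQ a b c A D, invQ d A} :
        Ideal (MvPolynomial (Fin d ⊕ Fin 2) ℚ)) ≤
        RingHom.ker (MvPolynomial.eval₂Hom (algebraMap ℚ ℂ) (v θ)) := by
      rw [Ideal.span_le]
      rintro q (rfl | rfl)
      · show MvPolynomial.eval₂Hom (algebraMap ℚ ℂ) (v θ) (eqnQ a b c A D) = 0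
        unfold eqnQ
        rw [map_sub, map_mul, map_mul, map_nQ, map_dQ]
        simp only [hev, hX, hl, h0]
        rw [heq θ, sub_self]
      · show MvPolynomial.eval₂Hom (algebraMap ℚ ℂ) (v θ) (invQ d A) = 0
        unfold invQ
        rw [map_sub, map_mul, map_mul, map_dQ, map_one]
        simp only [hev, hX, hl, h0, h1]
        have e : evZ A (x θ) * dQ (fun _ => 1) (fun _ => 1) (fun l => Y l θ) = Δ θ := by rw [hΔ]
        rw [e, inv_mul_cancel₀ (hΔ0 θ), sub_self]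
    exact fun q hq => hle hq
  refine ⟨mkTV _ v hvs hvp hI, fun θ l => ?_, fun θ => ?_⟩
  · have h2 : (mkTV _ v hvs hvp hI).e θ (yQ a b c A D l) =
        MvPolynomial.eval₂Hom (algebraMap ℚ ℂ) (v θ) (MvPolynomial.X (Sum.inl l)) :=
      Ideal.Quotient.lift_mk _ _ _
    exact h2.trans (by rw [hX, hl])
  · have h2 : (mkTV _ v hvs hvp hI).e θ (xQ a b c A D) =
        MvPolynomial.eval₂Hom (algebraMap ℚ ℂ) (v θ) (MvPolynomial.X (Sum.inr 0)) :=
      Ideal.Quotient.lift_mk _ _ _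
    exact h2.trans (by rw [hX, h0])

end eval

end Pool.Agent.H442
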