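import Mathlib
set_option autoImplicit false

/-!
Places of a field `L` over a field `K`, tame symbols with values in the unit groups of the residue
fields (tensored with `ℚ`), and the cokernel of the tame symbols.
-/

namespace Pool.Agent.H442.SK

open scoped WithZero TensorProduct

/-- A place of `L` over `K`: a normalised (surjective) discrete valuation of `L` which is trivial
on `K`. -/
structure Place (K L : Type*) [Field K] [Field L] [Algebra K L] where
  /-- the valuation -/
  v : Valuation L ℤᵐ⁰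
  surj : Function.Surjective v
  triv : ∀ c : K, c ≠ 0 → v (algebraMap K L c) = 1

variable {K L : Type*} [Field K] [Field L] [Algebra K L]

namespace Place

/-- The residue field of a place. -/
def κ (P : Place K L) : Type _ := IsLocalRing.ResidueField P.v.valuationSubring

noncomputable instance (P : Place K L) : Field P.κ :=
  show Field (IsLocalRing.ResidueField P.v.valuationSubring) from inferInstance

/-- The unit group of the residue field, written additively. -/
def κA (P : Place K L) : Type _ := Additive P.κˣ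

noncomputable instance (P : Place K L) : AddCommGroup P.κA :=
  show AddCommGroup (Additive P.κˣ) from inferInstance

/-- The unit group of the residue field, tensored with `ℚ`. -/
def M (P : Place K L) : Type _ := ℚ ⊗[ℤ] P.κA

noncomputable instance (P : Place K L) : AddCommGroup P.M :=
  show AddCommGroup (ℚ ⊗[ℤ] P.κA) from inferInstance

noncomputable instance (P : Place K L) : Module ℚ P.M :=
  show Module ℚ (ℚ ⊗[ℤ] P.κA) from inferInstance

/-- The order of a function at a place. -/
noncomputable def ord (P : Place K L) (f : Lˣ) : ℤ := -WithZero.log (P.v (f : L))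

theorem v_eq (P : Place K L) (f : Lˣ) : P.v (f : L) = WithZero.exp (-(P.ord f)) := by
  unfold ord
  rw [neg_neg, WithZero.exp_log]
  exact (Valuation.ne_zero_iff _).2 f.ne_zero

theorem ord_mul (P : Place K L) (f g : Lˣ) : P.ord (f * g) = P.ord f + P.ord g := by
  unfold ord
  rw [Units.val_mul, map_mul, WithZero.log_mul ((Valuation.ne_zero_iff _).2 f.ne_zero)
    ((Valuation.ne_zero_iff _).2 g.ne_zero)]
  ring

theorem ord_one (P : Place K L) : P.ord 1 = 0 := by
  unfold ord
  rw [Units.val_one, map_one, WithZero.log_one, neg_zero]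

theorem ord_inv (P : Place K L) (f : Lˣ) : P.ord f⁻¹ = -P.ord f := by
  have h := P.ord_mul f f⁻¹
  rw [mul_inv_cancel, ord_one] at h
  omega

theorem ord_div (P : Place K L) (f g : Lˣ) : P.ord (f / g) = P.ord f - P.ord g := by
  rw [div_eq_mul_inv, ord_mul, ord_inv]
  ring

theorem ord_pow (P : Place K L) (f : Lˣ) (n : ℕ) : P.ord (f ^ n) = n * P.ord f := by
  induction n with
  | zero => rw [pow_zero, ord_one, Nat.cast_zero, zero_mul]
  | succ n ih => rw [pow_succ, ord_mul, ih]; push_cast; ring

theorem ord_zpow (P : Place K L) (f : Lˣ) (n : ℤ) : P.ord (f ^ n) = n * P.ord f := by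
  rcases n with n | n
  · rw [Int.ofNat_eq_natCast, zpow_natCast, ord_pow]
  · rw [zpow_negSucc, ord_inv, ord_pow, Int.negSucc_eq]
    push_cast
    ring

theorem ord_eq_zero_iff (P : Place K L) (f : Lˣ) : P.ord f = 0 ↔ P.v (f : L) = 1 := by
  rw [v_eq]
  constructor
  · intro h
    rw [h, neg_zero, WithZero.exp_zero]
  · intro h
    have := WithZero.exp_eq_one.1 h
    omega

/-- The group of the units of the valuation ring, as a subgroup of `Lˣ`. -/
noncomputable abbrev U (P : Place K L) : Subgroup Lˣ := P.v.valuationSubring.unitGroup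

theorem mem_U (P : Place K L) {f : Lˣ} : f ∈ P.U ↔ P.ord f = 0 := by
  rw [ord_eq_zero_iff]
  exact Valuation.mem_unitGroup_iff _ _ _

/-- The residue of a unit. -/
noncomputable def resU (P : Place K L) : P.U →* P.κˣ :=
  P.v.valuationSubring.unitGroupToResidueFieldUnits

/-- The residue of a unit, as an element of the additive group `κA`. -/
noncomputable def resA (P : Place K L) (f : P.U) : P.κA := Additive.ofMul (P.resU f)

/-- The map `a ↦ 1 ⊗ a`. -/
noncomputable def incl (P : Place K L) (a : P.κA) : P.M := (1 : ℚ) ⊗ₜ[ℤ] a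

/-- The class of the residue of a unit in the group `M`. -/
noncomputable def res (P : Place K L) (f : P.U) : P.M := P.incl (P.resA f)

theorem tame_mem (P : Place K L) (f g : Lˣ) :
    (-1) ^ (P.ord f * P.ord g) * (f ^ P.ord g / g ^ P.ord f) ∈ P.U := by
  rw [mem_U, ord_mul, ord_div, ord_zpow, ord_zpow, ord_zpow]
  have h : P.ord (-1) = 0 := by
    rw [ord_eq_zero_iff, Units.val_neg, Units.val_one, Valuation.map_neg, map_one]
  rw [h]
  ring

/-- The tame symbol of `f` and `g` at `P`: the class of the residue of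
`(-1)^{ord f ord g} f^{ord g} / g^{ord f}`. -/
noncomputable def tame (P : Place K L) (f g : Lˣ) : P.M :=
  P.res ⟨(-1) ^ (P.ord f * P.ord g) * (f ^ P.ord g / g ^ P.ord f), P.tame_mem f g⟩

theorem incl_add (P : Place K L) (a b : P.κA) : P.incl (a + b) = P.incl a + P.incl b :=
  TensorProduct.tmul_add _ _ _

theorem incl_zero (P : Place K L) : P.incl 0 = 0 := TensorProduct.tmul_zero _ _

theorem resA_mul (P : Place K L) (f g : P.U) : P.resA (f * g) = P.resA f + P.resA g := by
  unfold resA
  rw [map_mul]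
  rfl

theorem resA_of_one (P : Place K L) (f : P.U) (h : P.resU f = 1) : P.resA f = 0 := by
  unfold resA
  rw [h]
  rfl

theorem res_mul (P : Place K L) (f g : P.U) : P.res (f * g) = P.res f + P.res g := by
  unfold res
  rw [resA_mul, incl_add]

theorem res_one (P : Place K L) : P.res 1 = 0 := by
  unfold res
  rw [P.resA_of_one 1 (map_one _), incl_zero]

theorem res_eq_zero_of_one (P : Place K L) (f : P.U) (h : P.v (((f : Lˣ) : L) - 1) < 1) :
    P.res f = 0 := by
  have h1 : f ∈ (P.v.valuationSubring.unitGroupToResidueFieldUnits).ker := by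
    rw [ValuationSubring.ker_unitGroupToResidueFieldUnits, Subgroup.mem_comap,
      Subgroup.coe_subtype, ValuationSubring.mem_principalUnitGroup_iff]
    have h2 := P.v.isEquiv_valuation_valuationSubring
    exact (Valuation.isEquiv_iff_val_lt_one.1 h2).1 h
  unfold res
  rw [P.resA_of_one f (MonoidHom.mem_ker.1 h1), incl_zero]

theorem exists_unif (P : Place K L) : ∃ π : Lˣ, P.ord π = 1 := by
  obtain ⟨a, ha⟩ := P.surj (WithZero.exp (-1 : ℤ))
  have ha0 : a ≠ 0 := by
    rintro rfl
    rw [map_zero] at ha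
    exact WithZero.exp_ne_zero ha.symm
  refine ⟨Units.mk0 a ha0, ?_⟩
  unfold ord
  rw [Units.val_mk0, ha, WithZero.log_exp, neg_neg]

/-- A uniformiser. -/
noncomputable def π (P : Place K L) : Lˣ := P.exists_unif.choose

theorem ord_π (P : Place K L) : P.ord P.π = 1 := P.exists_unif.choose_spec

theorem rho_mem (P : Place K L) (f : Lˣ) : f / P.π ^ P.ord f ∈ P.U := by
  rw [mem_U, ord_div, ord_zpow, ord_π]
  ring

/-- An extension of `res` to all functions. -/
noncomputable def ρ (P : Place K L) (f : Lˣ) : P.M := P.res ⟨f / P.π ^ P.ord f, P.rho_mem f⟩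

theorem ρ_mul (P : Place K L) (f g : Lˣ) : P.ρ (f * g) = P.ρ f + P.ρ g := by
  unfold ρ
  rw [← res_mul]
  congr 1
  apply Subtype.ext
  simp only [Subgroup.coe_mul]
  rw [ord_mul, zpow_add, mul_div_mul_comm]

theorem ρ_one (P : Place K L) : P.ρ 1 = 0 := by
  have h := P.ρ_mul 1 1
  rw [mul_one] at h
  exact left_eq_add.1 h

theorem ρ_inv (P : Place K L) (f : Lˣ) : P.ρ f⁻¹ = -P.ρ f := by
  have h := P.ρ_mul f f⁻¹
  rw [mul_inv_cancel, ρ_one] at h
  exact (neg_eq_of_add_eq_zero_right h.symm).symm

theorem ρ_div (P : Place K L) (f g : Lˣ) : P.ρ (f / g) = P.ρ f - P.ρ g := by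
  rw [div_eq_mul_inv, ρ_mul, ρ_inv, sub_eq_add_neg]

theorem ρ_pow (P : Place K L) (f : Lˣ) (n : ℕ) : P.ρ (f ^ n) = n • P.ρ f := by
  induction n with
  | zero => rw [pow_zero, ρ_one, zero_smul]
  | succ n ih => rw [pow_succ, ρ_mul, ih, succ_nsmul]

theorem ρ_zpow (P : Place K L) (f : Lˣ) (n : ℤ) : P.ρ (f ^ n) = n • P.ρ f := by
  rcases n with n | n
  · rw [Int.ofNat_eq_natCast, zpow_natCast, ρ_pow, natCast_zsmul]
  · rw [zpow_negSucc, ρ_inv, ρ_pow, negSucc_zsmul]

theorem ρ_of_unit (P : Place K L) (f : P.U) : P.ρ f = P.res f := by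
  unfold ρ
  congr 1
  apply Subtype.ext
  have h : P.ord (f : Lˣ) = 0 := P.mem_U.1 f.2
  simp only [h, zpow_zero, div_one]

theorem ρ_neg_one (P : Place K L) : P.ρ (-1) = 0 := by
  have h := P.ρ_mul (-1) (-1)
  rw [neg_mul_neg, one_mul, ρ_one] at h
  have h2 : (2 : ℚ) • P.ρ (-1) = 0 := by
    rw [two_smul]
    exact h.symm
  exact (smul_eq_zero.1 h2).resolve_left two_ne_zero

theorem ρ_neg (P : Place K L) (f : Lˣ) : P.ρ (-f) = P.ρ f := by
  rw [← neg_one_mul, ρ_mul, ρ_neg_one, zero_add]

theorem ρ_of_one (P : Place K L) (f : Lˣ) (h : P.v ((f : L) - 1) < 1) : P.ρ f = 0 := by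
  have h1 : P.v (f : L) = 1 := by
    have h2 : (f : L) = 1 + ((f : L) - 1) := by ring
    rw [h2]
    have h3 := Valuation.map_add_eq_of_lt_right P.v (x := (f : L) - 1) (y := 1)
      (by rw [map_one]; exact h)
    rw [add_comm, h3, map_one]
  have h2 : f ∈ P.U := P.mem_U.2 ((P.ord_eq_zero_iff f).2 h1)
  have h3 := P.ρ_of_unit ⟨f, h2⟩
  rw [show P.ρ f = P.ρ ((⟨f, h2⟩ : P.U) : Lˣ) from rfl, h3]
  exact P.res_eq_zero_of_one ⟨f, h2⟩ h

theorem tame_eq (P : Place K L) (f g : Lˣ) :
    P.tame f g = (P.ord g) • P.ρ f - (P.ord f) • P.ρ g := by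
  unfold tame
  rw [← ρ_of_unit]
  simp only
  rw [ρ_mul, ρ_div, ρ_zpow, ρ_zpow, ρ_zpow, ρ_neg_one, smul_zero, zero_add]

end Place

end Pool.Agent.H442.SK
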