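import Pool.Agent.H442.SKa
set_option autoImplicit false
set_option linter.unusedSectionVars false

/-!
The places of the function field of an elliptic curve at its rational points.
-/

namespace Pool.Agent.H442.SK

open scoped WithZero TensorProduct
open Polynomial WeierstrassCurve

section

variable {K : Type*} [Field K] (W : Affine K) (L : Type*) [Field L] [Algebra K L]
  [Algebra W.CoordinateRing L]

/-- Polynomials in `x` as functions. -/
noncomputable def pol : K[X] →+* L :=
  (algebraMap W.CoordinateRing L).comp ((Affine.CoordinateRing.mk W).comp C)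

/-- The function `x`. -/
noncomputable def fx : L := pol W L X

/-- The function `y`. -/
noncomputable def fy : L := algebraMap W.CoordinateRing L (Affine.CoordinateRing.mk W X)

variable {W L}

theorem pol_C [IsScalarTower K W.CoordinateRing L] (c : K) : pol W L (C c) = algebraMap K L c := by
  rw [IsScalarTower.algebraMap_apply K W.CoordinateRing L]
  rfl

theorem pol_eq [IsScalarTower K W.CoordinateRing L] (p : K[X]) :
    pol W L p = p.eval₂ (algebraMap K L) (fx W L) := by
  have h : pol W L = eval₂RingHom (algebraMap K L) (fx W L) := by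
    apply Polynomial.ringHom_ext
    · intro a
      rw [pol_C, coe_eval₂RingHom, eval₂_C]
    · rw [coe_eval₂RingHom, eval₂_X]
      rfl
  rw [h]
  rfl

theorem equation [IsScalarTower K W.CoordinateRing L] :
    fy W L ^ 2 + algebraMap K L W.a₁ * fx W L * fy W L + algebraMap K L W.a₃ * fy W L =
      fx W L ^ 3 + algebraMap K L W.a₂ * fx W L ^ 2 + algebraMap K L W.a₄ * fx W L +
        algebraMap K L W.a₆ := by
  obtain ⟨φ, hφ⟩ : ∃ φ : K[X][X] →+* L,
    φ = (algebraMap W.CoordinateRing L).comp (Affine.CoordinateRing.mk W) := ⟨_, rfl⟩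
  have h : φ W.polynomial = 0 := by
    rw [hφ, RingHom.comp_apply]
    have h0 : Affine.CoordinateRing.mk W W.polynomial = 0 := AdjoinRoot.mk_self
    rw [h0, map_zero]
  have hp : W.polynomial = X ^ 2 + C (C W.a₁ * X + C W.a₃) * X -
      C (X ^ 3 + C W.a₂ * X ^ 2 + C W.a₄ * X + C W.a₆) := rfl
  have e : ∀ p : K[X], φ (C p) = pol W L p := fun p => by rw [hφ]; rfl
  have e2 : φ X = fy W L := by rw [hφ]; rfl
  have e1 : pol W L X = fx W L := rfl
  rw [hp, map_sub, map_add, map_mul, map_pow, e, e, e2, map_add, map_mul, map_add, map_add,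
    map_add, map_mul, map_mul, map_pow, map_pow, e1, pol_C, pol_C, pol_C, pol_C, pol_C] at h
  linear_combination h

theorem pol_injective [IsFractionRing W.CoordinateRing L] : Function.Injective (pol W L) := by
  have h1 : Function.Injective (algebraMap W.CoordinateRing L) := IsFractionRing.injective _ _
  have h2 : Function.Injective ((Affine.CoordinateRing.mk W).comp (C : K[X] →+* K[X][X])) := by
    rw [injective_iff_map_eq_zero]
    intro p hp
    have h3 : (algebraMap K[X] W.CoordinateRing) p = 0 := hp
    exact (FaithfulSMul.algebraMap_injective K[X] W.CoordinateRing) (h3.trans (map_zero _).symm)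
  exact h1.comp h2

theorem exists_rep (u : W.CoordinateRing) :
    ∃ p q : K[X], algebraMap W.CoordinateRing L u = pol W L p + pol W L q * fy W L := by
  obtain ⟨p, q, h⟩ := Affine.CoordinateRing.exists_smul_basis_eq u
  refine ⟨p, q, ?_⟩
  rw [← h, map_add]
  congr 1
  · rw [Affine.CoordinateRing.smul, mul_one]
    rfl
  · rw [Affine.CoordinateRing.smul, map_mul]
    rfl

end

end Pool.Agent.H442.SK
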