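import Pool.Agent.H442.SKb
set_option autoImplicit false
set_option linter.unusedSectionVars false

/-!
Orders and residues of functions at the places of the function field of an elliptic curve.
-/

namespace Pool.Agent.H442.SK

open scoped WithZero TensorProduct
open Polynomial WeierstrassCurve

theorem mul_lt_one_le_lt {a b : ℤᵐ⁰} (ha : a ≤ 1) (hb : b < 1) : a * b < 1 := by
  rw [mul_comm]
  exact mul_lt_one_of_lt_of_le hb ha

section

variable {K : Type*} [Field K] {W : Affine K} {L : Type*} [Field L] [Algebra K L]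
  [Algebra W.CoordinateRing L] [IsScalarTower K W.CoordinateRing L]
  [IsFractionRing W.CoordinateRing L] (P : Place K L)

theorem Place.v_cst_le (c : K) : P.v (algebraMap K L c) ≤ 1 := by
  rcases eq_or_ne c 0 with rfl | h
  · rw [map_zero, map_zero]; exact zero_le_one
  · exact (P.triv c h).le

theorem v_pol_le (h : P.v (fx W L) ≤ 1) (p : K[X]) : P.v (pol W L p) ≤ 1 := by
  induction p using Polynomial.induction_on' with
  | add p q hp hq =>
    rw [map_add]
    exact (P.v.map_add _ _).trans (max_le hp hq)
  | monomial n a =>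
    rw [← C_mul_X_pow_eq_monomial, map_mul, map_pow, pol_C, map_mul, map_pow]
    exact mul_le_one' (P.v_cst_le a) (pow_le_one' h n)

theorem v_x_le {q : K} (h : P.v (fx W L - algebraMap K L q) < 1) : P.v (fx W L) ≤ 1 := by
  have e : fx W L = (fx W L - algebraMap K L q) + algebraMap K L q := by ring
  rw [e]
  exact (P.v.map_add _ _).trans (max_le h.le (P.v_cst_le q))

theorem v_pol_sub {q : K} (h : P.v (fx W L - algebraMap K L q) < 1) (p : K[X]) :
    P.v (pol W L p - algebraMap K L (p.eval q)) < 1 := by
  obtain ⟨r, hr⟩ := Polynomial.X_sub_C_dvd_sub_C_eval (a := q) (p := p)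
  have e : pol W L p - algebraMap K L (p.eval q) =
      (fx W L - algebraMap K L q) * pol W L r := by
    rw [← pol_C (W := W), ← pol_C (W := W), ← map_sub, hr, map_mul, map_sub]
    rfl
  rw [e, map_mul]
  exact mul_lt_one_of_lt_of_le h (v_pol_le P (v_x_le P h) r)

theorem v_y_le (h : P.v (fx W L) ≤ 1) : P.v (fy W L) ≤ 1 := by
  by_contra h1
  rw [not_le] at h1
  have e := equation (W := W) (L := L)
  have e2 : fy W L ^ 2 = -((algebraMap K L W.a₁ * fx W L + algebraMap K L W.a₃) * fy W L) +
      pol W L (X ^ 3 + C W.a₂ * X ^ 2 + C W.a₄ * X + C W.a₆) := by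
    simp only [map_add, map_mul, map_pow, pol_C]
    have e1 : pol W L X = fx W L := rfl
    rw [e1]
    linear_combination e
  have h2 : P.v (algebraMap K L W.a₁ * fx W L + algebraMap K L W.a₃) ≤ 1 := by
    refine (P.v.map_add _ _).trans (max_le ?_ (P.v_cst_le _))
    rw [map_mul]
    exact mul_le_one' (P.v_cst_le _) h
  have h3 : P.v (fy W L ^ 2) ≤ P.v (fy W L) := by
    rw [e2]
    refine (P.v.map_add _ _).trans (max_le ?_ ((v_pol_le P h _).trans h1.le))
    rw [Valuation.map_neg, map_mul]
    exact mul_le_of_le_one_left' h2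
  rw [map_pow, sq] at h3
  have h4 : P.v (fy W L) * P.v (fy W L) ≤ 1 * P.v (fy W L) := by rwa [one_mul]
  have h5 : 0 < P.v (fy W L) := lt_trans zero_lt_one h1
  exact absurd (le_of_mul_le_mul_right h4 h5) (not_le.2 h1)

/-- The points above a rational value of `x`. -/
theorem at_or {q r : K} (hW : W.Equation q r) (h : P.v (fx W L - algebraMap K L q) < 1) :
    P.v (fy W L - algebraMap K L r) < 1 ∨ P.v (fy W L - algebraMap K L (W.negY q r)) < 1 := by
  have hx := v_x_le P h
  have hy := v_y_le P hx
  have e : (fy W L - algebraMap K L r) * (fy W L - algebraMap K L (W.negY q r)) =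
      (fx W L - algebraMap K L q) * (pol W L (X ^ 2 + C q * X + C (q ^ 2) + C W.a₂ * X +
        C (W.a₂ * q + W.a₄)) - algebraMap K L W.a₁ * fy W L) := by
    simp only [map_add, map_mul, map_pow, pol_C]
    have e1 : pol W L X = fx W L := rfl
    rw [e1]
    have e2 := equation (W := W) (L := L)
    have e3 := congrArg (algebraMap K L) ((Affine.equation_iff q r).1 hW)
    simp only [map_add, map_mul, map_pow] at e3
    have e4 : algebraMap K L (W.negY q r) = -algebraMap K L r - algebraMap K L W.a₁ *
        algebraMap K L q - algebraMap K L W.a₃ := by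
      unfold Affine.negY
      simp only [map_sub, map_neg, map_mul]
    rw [e4]
    linear_combination e2 - e3
  have h2 : P.v ((fy W L - algebraMap K L r) * (fy W L - algebraMap K L (W.negY q r))) < 1 := by
    rw [e, map_mul]
    refine mul_lt_one_of_lt_of_le h ((P.v.map_sub _ _).trans (max_le (v_pol_le P hx _) ?_))
    rw [map_mul]
    exact mul_le_one' (P.v_cst_le _) hy
  by_contra h3
  rw [not_or, not_lt, not_lt] at h3
  rw [map_mul] at h2
  exact absurd (one_le_mul h3.1 h3.2) (not_le.2 h2)

theorem v_sub_cst {w : L} {a b : K} (hab : a ≠ b) (h : P.v (w - algebraMap K L a) < 1) :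
    P.v (w - algebraMap K L b) = 1 := by
  have e : w - algebraMap K L b = algebraMap K L (a - b) + (w - algebraMap K L a) := by
    rw [map_sub]; ring
  have h1 := P.triv (a - b) (sub_ne_zero.2 hab)
  rw [e, Valuation.map_add_eq_of_lt_left P.v (by rw [h1]; exact h), h1]

/-- The residue of a function which is congruent to a constant. -/
theorem Place.ρ_cst_eq (w : Lˣ) (a : Kˣ) (h : P.v ((w : L) - algebraMap K L a) < 1) :
    P.ord w = 0 ∧ P.ρ w = P.ρ (Units.map (algebraMap K L).toMonoidHom a) := by
  have ha : P.v (algebraMap K L a) = 1 := P.triv a a.ne_zero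
  have hw : P.v (w : L) = 1 := by
    have e : (w : L) = algebraMap K L a + ((w : L) - algebraMap K L a) := by ring
    rw [e, Valuation.map_add_eq_of_lt_left P.v (by rw [ha]; exact h), ha]
  refine ⟨(P.ord_eq_zero_iff w).2 hw, ?_⟩
  have h2 := P.ρ_of_one (w / Units.map (algebraMap K L).toMonoidHom a) ?_
  · rw [P.ρ_div] at h2
    exact sub_eq_zero.1 h2
  · rw [Units.val_div_eq_div_val]
    have e : ((Units.map (algebraMap K L).toMonoidHom a : Lˣ) : L) = algebraMap K L a := rfl
    have ha0 : algebraMap K L (a : K) ≠ 0 := by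
      rw [Ne, map_eq_zero]
      exact a.ne_zero
    rw [e, div_sub_one ha0, map_div₀, ha, div_one]
    exact h

/-- Orders at the finite points which are not fixed by the involution. -/
theorem ord_x_sub {q r : K} (hr : r ≠ W.negY q r)
    (hx : P.v (fx W L - algebraMap K L q) < 1) (hy : P.v (fy W L - algebraMap K L r) < 1)
    (t : Lˣ) (ht : (t : L) = fx W L - algebraMap K L q) : P.ord t = 1 := by
  have hxl := v_x_le P hx
  -- orders of polynomials
  have hpol : ∀ p : K[X], p ≠ 0 → ∃ n : ℕ, P.v (pol W L p) = P.v (t : L) ^ n := by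
    intro p hp
    obtain ⟨s, hs, hs2⟩ := Polynomial.exists_eq_pow_rootMultiplicity_mul_and_not_dvd p hp q
    refine ⟨p.rootMultiplicity q, ?_⟩
    have h1 : s.eval q ≠ 0 := fun h => hs2 (Polynomial.dvd_iff_isRoot.2 h)
    have h2 : P.v (pol W L s) = 1 := by
      have h3 := v_pol_sub P hx s
      have e : pol W L s = algebraMap K L (s.eval q) +
        (pol W L s - algebraMap K L (s.eval q)) := by ring
      have h4 := P.triv _ h1
      rw [e, Valuation.map_add_eq_of_lt_left P.v (by rw [h4]; exact h3), h4]
    have h5 : pol W L (X - C q) = t := by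
      rw [ht, map_sub, pol_C]
      rfl
    conv_lhs => rw [hs]
    rw [map_mul, map_pow, h5, map_mul, map_pow, h2, mul_one]
  have hyl := v_y_le P hxl
  -- the orders of the elements of the coordinate ring
  have hcr : ∀ u : W.CoordinateRing, u ≠ 0 → ∃ n : ℕ,
      P.v (algebraMap W.CoordinateRing L u) = P.v (t : L) ^ n := by
    intro u hu
    obtain ⟨p, s, hps⟩ := exists_rep (L := L) u
    have hu' : algebraMap W.CoordinateRing L u ≠ 0 := by
      rw [Ne, map_eq_zero_iff _ (IsFractionRing.injective W.CoordinateRing L)]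
      exact hu
    have hne : ¬ (p = 0 ∧ s = 0) := by
      rintro ⟨rfl, rfl⟩
      rw [map_zero, zero_mul, zero_add] at hps
      exact hu' hps
    -- divide by the greatest common divisor
    obtain ⟨d, p', s', hd, hp', hs', hco⟩ : ∃ d p' s' : K[X], d ≠ 0 ∧ p = d * p' ∧ s = d * s' ∧
        IsCoprime p' s' := by
      classical
      obtain ⟨p', h1⟩ := EuclideanDomain.gcd_dvd_left p s
      obtain ⟨s', h2⟩ := EuclideanDomain.gcd_dvd_right p s
      have h4 := EuclideanDomain.gcd_eq_gcd_ab p s
      have h5 : EuclideanDomain.gcd p s ≠ 0 := by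
        intro h
        rw [h, zero_mul] at h1 h2
        exact hne ⟨h1, h2⟩
      refine ⟨EuclideanDomain.gcd p s, p', s', h5, h1, h2, EuclideanDomain.gcdA p s,
        EuclideanDomain.gcdB p s, ?_⟩
      apply mul_left_cancel₀ h5
      rw [mul_one]
      conv_rhs => rw [h4]
      conv_rhs => enter [1, 1]; rw [h1]
      conv_rhs => enter [2, 1]; rw [h2]
      ring
    obtain ⟨n, hn⟩ := hpol d hd
    have e1 : algebraMap W.CoordinateRing L u =
        pol W L d * (pol W L p' + pol W L s' * fy W L) := by
      rw [hps, hp', hs', map_mul, map_mul]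
      ring
    have hv' : P.v (pol W L p' + pol W L s' * fy W L) ≤ 1 := by
      refine (P.v.map_add _ _).trans (max_le (v_pol_le P hxl _) ?_)
      rw [map_mul]
      exact mul_le_one' (v_pol_le P hxl _) hyl
    -- the residue of `u'`
    have hres : ∀ (ρ0 : K), P.v (fy W L - algebraMap K L ρ0) < 1 →
        P.v (pol W L p' + pol W L s' * fy W L -
          algebraMap K L (p'.eval q + s'.eval q * ρ0)) < 1 := by
      intro ρ0 h0
      have e2 : pol W L p' + pol W L s' * fy W L -
          algebraMap K L (p'.eval q + s'.eval q * ρ0) =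
          (pol W L p' - algebraMap K L (p'.eval q)) +
          (pol W L s' * (fy W L - algebraMap K L ρ0) +
            (pol W L s' - algebraMap K L (s'.eval q)) * algebraMap K L ρ0) := by
        rw [map_add, map_mul]
        ring
      rw [e2]
      refine (P.v.map_add _ _).trans_lt (max_lt (v_pol_sub P hx _)
        ((P.v.map_add _ _).trans_lt (max_lt ?_ ?_)))
      · rw [map_mul]
        exact mul_lt_one_le_lt (v_pol_le P hxl _) h0
      · rw [map_mul]
        exact mul_lt_one_of_lt_of_le (v_pol_sub P hx _) (P.v_cst_le _)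
    by_cases hev : p'.eval q + s'.eval q * r = 0
    · -- the conjugate is a unit
      have hev2 : p'.eval q + s'.eval q * W.negY q r ≠ 0 := by
        intro h0
        have h1 : s'.eval q * (r - W.negY q r) = 0 := by linear_combination hev - h0
        have h2 : s'.eval q = 0 := (mul_eq_zero.1 h1).resolve_right (sub_ne_zero.2 hr)
        have h3 : p'.eval q = 0 := by rw [h2, zero_mul, add_zero] at hev; exact hev
        obtain ⟨a, b, hab⟩ := hco
        have h4 := congrArg (Polynomial.eval q) hab
        rw [eval_add, eval_mul, eval_mul, h2, h3, mul_zero, mul_zero, add_zero, eval_one] at h4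
        exact zero_ne_one h4
      set yb : L := -fy W L - (algebraMap K L W.a₁ * fx W L + algebraMap K L W.a₃) with hyb
      have hyb2 : P.v (yb - algebraMap K L (W.negY q r)) < 1 := by
        have e3 : yb - algebraMap K L (W.negY q r) = -(fy W L - algebraMap K L r) -
            algebraMap K L W.a₁ * (fx W L - algebraMap K L q) := by
          rw [hyb]
          unfold Affine.negY
          simp only [map_sub, map_neg, map_mul]
          ring
        rw [e3]
        refine (P.v.map_sub _ _).trans_lt (max_lt (by rwa [Valuation.map_neg]) ?_)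
        rw [map_mul]
        exact mul_lt_one_le_lt (P.v_cst_le _) hx
      have hbar : P.v (pol W L p' + pol W L s' * yb) = 1 := by
        have e2 : pol W L p' + pol W L s' * yb =
            algebraMap K L (p'.eval q + s'.eval q * W.negY q r) +
            ((pol W L p' - algebraMap K L (p'.eval q)) +
            (pol W L s' * (yb - algebraMap K L (W.negY q r)) +
            (pol W L s' - algebraMap K L (s'.eval q)) * algebraMap K L (W.negY q r))) := by
          rw [map_add, map_mul]
          ring
        have h4 := P.triv _ hev2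
        rw [e2, Valuation.map_add_eq_of_lt_left P.v, h4]
        rw [h4]
        refine (P.v.map_add _ _).trans_lt (max_lt (v_pol_sub P hx _)
          ((P.v.map_add _ _).trans_lt (max_lt ?_ ?_)))
        · rw [map_mul]
          exact mul_lt_one_le_lt (v_pol_le P hxl _) hyb2
        · rw [map_mul]
          exact mul_lt_one_of_lt_of_le (v_pol_sub P hx _) (P.v_cst_le _)
      -- the norm
      have hnorm : (pol W L p' + pol W L s' * fy W L) * (pol W L p' + pol W L s' * yb) =
          pol W L (p' ^ 2 - p' * s' * (C W.a₁ * X + C W.a₃) -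
            s' ^ 2 * (X ^ 3 + C W.a₂ * X ^ 2 + C W.a₄ * X + C W.a₆)) := by
        simp only [map_add, map_sub, map_mul, map_pow, pol_C]
        have e1 : pol W L X = fx W L := rfl
        rw [e1, hyb]
        linear_combination (-(pol W L s') ^ 2) * equation (W := W) (L := L)
      have hN0 : (p' ^ 2 - p' * s' * (C W.a₁ * X + C W.a₃) -
            s' ^ 2 * (X ^ 3 + C W.a₂ * X ^ 2 + C W.a₄ * X + C W.a₆)) ≠ 0 := by
        intro h0
        rw [h0, map_zero] at hnorm
        rcases mul_eq_zero.1 hnorm with h1 | h1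
        · rw [h1, mul_zero] at e1
          exact hu' e1
        · rw [h1, map_zero] at hbar
          exact zero_ne_one hbar
      obtain ⟨m, hm⟩ := hpol _ hN0
      refine ⟨n + m, ?_⟩
      rw [e1, map_mul, hn, pow_add, ← hm, ← hnorm, map_mul, hbar, mul_one]
    · refine ⟨n, ?_⟩
      have h3 := hres r hy
      have h4 := P.triv _ hev
      have e : pol W L p' + pol W L s' * fy W L = algebraMap K L (p'.eval q + s'.eval q * r) +
          (pol W L p' + pol W L s' * fy W L - algebraMap K L (p'.eval q + s'.eval q * r)) := by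
        ring
      have h5 : P.v (pol W L p' + pol W L s' * fy W L) = 1 := by
        rw [e, Valuation.map_add_eq_of_lt_left P.v (by rw [h4]; exact h3), h4]
      rw [e1, map_mul, hn, h5, mul_one]
  -- surjectivity
  have ht1 : 1 ≤ P.ord t := by
    have h1 : P.v (t : L) < 1 := by rw [ht]; exact hx
    rw [P.v_eq, ← WithZero.exp_zero, WithZero.exp_lt_exp] at h1
    omega
  obtain ⟨w, hw⟩ := P.surj (WithZero.exp (-1 : ℤ))
  obtain ⟨a, b, hb, hab⟩ := IsFractionRing.div_surjective (A := W.CoordinateRing) w
  have hb0 : b ≠ 0 := nonZeroDivisors.ne_zero hb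
  have hw0 : w ≠ 0 := by
    rintro rfl
    rw [map_zero] at hw
    exact WithZero.exp_ne_zero hw.symm
  have ha0 : a ≠ 0 := by
    rintro rfl
    rw [map_zero, zero_div] at hab
    exact hw0 hab.symm
  obtain ⟨m, hm⟩ := hcr a ha0
  obtain ⟨n, hn⟩ := hcr b hb0
  rw [← hab, map_div₀, hm, hn, P.v_eq, ← WithZero.exp_nsmul, ← WithZero.exp_nsmul,
    ← WithZero.exp_sub, WithZero.exp_inj] at hw
  simp only [nsmul_eq_mul] at hw
  have h3 : P.ord t * ((m : ℤ) - n) = 1 := by linear_combination -hw
  exact Int.eq_one_of_mul_eq_one_right (by omega) h3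

/-- Orders at the point at infinity. -/
theorem ord_inf (hx : 1 < P.v (fx W L)) (t s : Lˣ) (ht : (t : L) = fx W L)
    (hs : (s : L) = fy W L) : P.ord t = -2 ∧ P.ord s = -3 := by
  have hx0 : 0 < P.v (fx W L) := lt_trans zero_lt_one hx
  -- `v(y)² = v(x)³`
  have e := equation (W := W) (L := L)
  have hcub : P.v (pol W L (X ^ 3 + C W.a₂ * X ^ 2 + C W.a₄ * X + C W.a₆)) =
      P.v (fx W L) ^ 3 := by
    have e1 : pol W L (X ^ 3 + C W.a₂ * X ^ 2 + C W.a₄ * X + C W.a₆) =
        fx W L ^ 3 + (algebraMap K L W.a₂ * fx W L ^ 2 + (algebraMap K L W.a₄ * fx W L +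
          algebraMap K L W.a₆)) := by
      simp only [map_add, map_mul, map_pow, pol_C]
      have e2 : pol W L X = fx W L := rfl
      rw [e2]
      ring
    have h12 : P.v (fx W L) ^ 1 < P.v (fx W L) ^ 2 := pow_lt_pow_right₀ hx (by norm_num)
    have h23 : P.v (fx W L) ^ 2 < P.v (fx W L) ^ 3 := pow_lt_pow_right₀ hx (by norm_num)
    have h01 : 1 < P.v (fx W L) ^ 3 := one_lt_pow' hx (by norm_num)
    rw [e1, Valuation.map_add_eq_of_lt_left P.v, map_pow]
    rw [map_pow]
    refine (P.v.map_add _ _).trans_lt (max_lt ?_ ((P.v.map_add _ _).trans_lt (max_lt ?_ ?_)))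
    · rw [map_mul, map_pow]
      exact (mul_le_of_le_one_left' (P.v_cst_le _)).trans_lt h23
    · rw [map_mul]
      refine (mul_le_of_le_one_left' (P.v_cst_le _)).trans_lt ?_
      rw [pow_one] at h12
      exact h12.trans h23
    · exact (P.v_cst_le _).trans_lt h01
  have hlin : P.v (algebraMap K L W.a₁ * fx W L + algebraMap K L W.a₃) ≤ P.v (fx W L) := by
    refine (P.v.map_add _ _).trans (max_le ?_ ((P.v_cst_le _).trans hx.le))
    rw [map_mul]
    exact mul_le_of_le_one_left' (P.v_cst_le _)
  have hfac : fy W L * (fy W L + (algebraMap K L W.a₁ * fx W L + algebraMap K L W.a₃)) =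
      pol W L (X ^ 3 + C W.a₂ * X ^ 2 + C W.a₄ * X + C W.a₆) := by
    simp only [map_add, map_mul, map_pow, pol_C]
    have e2 : pol W L X = fx W L := rfl
    rw [e2]
    linear_combination e
  have hyx : P.v (fx W L) < P.v (fy W L) := by
    by_contra h1
    rw [not_lt] at h1
    have h2 : P.v (fy W L * (fy W L + (algebraMap K L W.a₁ * fx W L + algebraMap K L W.a₃))) ≤
        P.v (fx W L) ^ 2 := by
      rw [map_mul, sq]
      exact mul_le_mul' h1 ((P.v.map_add _ _).trans (max_le h1 hlin))
    rw [hfac, hcub] at h2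
    exact absurd h2 (not_le.2 (pow_lt_pow_right₀ hx (by norm_num)))
  have hy2 : P.v (fy W L) ^ 2 = P.v (fx W L) ^ 3 := by
    have h1 := congrArg P.v hfac
    rw [map_mul, Valuation.map_add_eq_of_lt_left P.v (hlin.trans_lt hyx), hcub, ← sq] at h1
    exact h1
  have hoxy : 2 * P.ord s = 3 * P.ord t := by
    have h1 := hy2
    rw [← ht, ← hs, P.v_eq, P.v_eq, ← WithZero.exp_nsmul, ← WithZero.exp_nsmul,
      WithZero.exp_inj] at h1
    simp only [nsmul_eq_mul] at h1
    push_cast at h1
    linear_combination -h1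
  obtain ⟨m, hm⟩ : ∃ m : ℤ, P.ord t = -2 * m := ⟨-(P.ord t) / 2, by omega⟩
  have hms : P.ord s = -3 * m := by rw [hm] at hoxy; linarith
  have hm0 : 0 < m := by
    have h1 : (1 : ℤᵐ⁰) < P.v (t : L) := by rw [ht]; exact hx
    rw [P.v_eq, ← WithZero.exp_zero, WithZero.exp_lt_exp] at h1
    omega
  -- polynomials
  have hpol : ∀ p : K[X], p ≠ 0 → P.v (pol W L p) = P.v (fx W L) ^ p.natDegree := by
    intro p hp
    rw [pol_eq, eval₂_eq_sum_range, Finset.sum_range_succ]
    have hlc : P.v (algebraMap K L (p.coeff p.natDegree) * fx W L ^ p.natDegree) =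
        P.v (fx W L) ^ p.natDegree := by
      rw [map_mul, map_pow, P.triv _ (by
        rw [coeff_natDegree, Ne, leadingCoeff_eq_zero]; exact hp), one_mul]
    rw [Valuation.map_add_eq_of_lt_right P.v, hlc]
    rw [hlc]
    refine Valuation.map_sum_lt P.v (pow_ne_zero _ hx0.ne') fun i hi => ?_
    rw [map_mul, map_pow]
    exact (mul_le_of_le_one_left' (P.v_cst_le _)).trans_lt
      (pow_lt_pow_right₀ hx (Finset.mem_range.1 hi))
  have hval : ∀ u : W.CoordinateRing, u ≠ 0 → ∃ n : ℤ,
      P.v (algebraMap W.CoordinateRing L u) = WithZero.exp (n * m) := by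
    intro u hu
    obtain ⟨p, q, hpq⟩ := exists_rep (L := L) u
    have hu' : algebraMap W.CoordinateRing L u ≠ 0 := by
      rw [Ne, map_eq_zero_iff _ (IsFractionRing.injective W.CoordinateRing L)]
      exact hu
    have hvx : ∀ n : ℕ, P.v (fx W L) ^ n = WithZero.exp ((2 * n : ℤ) * m) := by
      intro n
      rw [← ht, P.v_eq, ← WithZero.exp_nsmul, hm, nsmul_eq_mul]
      congr 1
      ring
    have hvy : P.v (fy W L) = WithZero.exp (3 * m) := by
      rw [← hs, P.v_eq, hms]
      congr 1
      ring
    rcases eq_or_ne p 0 with hp | hp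
    · have hq : q ≠ 0 := by
        rintro rfl
        rw [hp, map_zero, zero_mul, zero_add] at hpq
        exact hu' hpq
      refine ⟨2 * q.natDegree + 3, ?_⟩
      rw [hpq, hp, map_zero, zero_add, map_mul, hpol q hq, hvx, hvy, ← WithZero.exp_add]
      congr 1
      ring
    · rcases eq_or_ne q 0 with hq | hq
      · refine ⟨2 * p.natDegree, ?_⟩
        rw [hpq, hq, map_zero, zero_mul, add_zero, hpol p hp, hvx]
      · have h1 : P.v (pol W L p) = WithZero.exp ((2 * p.natDegree : ℤ) * m) := by
          rw [hpol p hp, hvx]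
        have h2 : P.v (pol W L q * fy W L) = WithZero.exp ((2 * q.natDegree + 3 : ℤ) * m) := by
          rw [map_mul, hpol q hq, hvx, hvy, ← WithZero.exp_add]
          congr 1
          ring
        rcases lt_trichotomy (2 * p.natDegree : ℤ) (2 * q.natDegree + 3) with h3 | h3 | h3
        · refine ⟨2 * q.natDegree + 3, ?_⟩
          rw [hpq, Valuation.map_add_eq_of_lt_right P.v, h2]
          rw [h1, h2, WithZero.exp_lt_exp]
          exact mul_lt_mul_of_pos_right h3 hm0
        · omega
        · refine ⟨2 * p.natDegree, ?_⟩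
          rw [hpq, Valuation.map_add_eq_of_lt_left P.v, h1]
          rw [h1, h2, WithZero.exp_lt_exp]
          exact mul_lt_mul_of_pos_right h3 hm0
  obtain ⟨w, hw⟩ := P.surj (WithZero.exp (-1 : ℤ))
  obtain ⟨a, b, hb, hab⟩ := IsFractionRing.div_surjective (A := W.CoordinateRing) w
  have hb0 : b ≠ 0 := nonZeroDivisors.ne_zero hb
  have hw0 : w ≠ 0 := by
    rintro rfl
    rw [map_zero] at hw
    exact WithZero.exp_ne_zero hw.symm
  have ha0 : a ≠ 0 := by
    rintro rfl
    rw [map_zero, zero_div] at hab
    exact hw0 hab.symm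
  obtain ⟨k, hk⟩ := hval a ha0
  obtain ⟨n, hn⟩ := hval b hb0
  rw [← hab, map_div₀, hk, hn, ← WithZero.exp_sub, WithZero.exp_inj] at hw
  have h3 : m * (n - k) = 1 := by linear_combination -hw
  have hm1 : m = 1 := Int.eq_one_of_mul_eq_one_right (by omega) h3
  rw [hm1] at hm hms
  exact ⟨by rw [hm]; norm_num, by rw [hms]; norm_num⟩

end

end Pool.Agent.H442.SK
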