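import Pool.Agent.H442.SKc
set_option autoImplicit false
set_option linter.unusedSectionVars false

/-!
The tame symbols of the symbols `{x - q, l}`, `l` a line.
-/

namespace Pool.Agent.H442.SK

open scoped WithZero TensorProduct
open Polynomial WeierstrassCurve

section

variable {K : Type*} [Field K] {L : Type*} [Field L] [Algebra K L]

/-- A constant as a function. -/
def cU (L : Type*) [Field L] [Algebra K L] (a : Kˣ) : Lˣ :=
  Units.map (algebraMap K L).toMonoidHom a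

theorem cU_val (a : Kˣ) : ((cU L a : Lˣ) : L) = algebraMap K L a := rfl

theorem Place.cU_mem (P : Place K L) (a : Kˣ) : cU L a ∈ P.U :=
  P.mem_U.2 ((P.ord_eq_zero_iff _).2 (P.triv a a.ne_zero))

/-- The class of a constant. -/
noncomputable def Place.cst (P : Place K L) (a : Kˣ) : P.M := P.res ⟨cU L a, P.cU_mem a⟩

theorem Place.cst_eq (P : Place K L) (a : Kˣ) : P.cst a = P.ρ (cU L a) :=
  (P.ρ_of_unit ⟨cU L a, P.cU_mem a⟩).symm

theorem Place.cst_mul (P : Place K L) (a b : Kˣ) : P.cst (a * b) = P.cst a + P.cst b := by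
  rw [Place.cst_eq, Place.cst_eq, Place.cst_eq, ← Place.ρ_mul]
  congr 1
  exact map_mul _ _ _

theorem Place.cst_inv (P : Place K L) (a : Kˣ) : P.cst a⁻¹ = -P.cst a := by
  have h := P.cst_mul a a⁻¹
  have h1 := P.cst_mul 1 1
  rw [mul_one] at h1
  rw [mul_inv_cancel, left_eq_add.1 h1] at h
  exact (neg_eq_of_add_eq_zero_right h.symm).symm

theorem Place.cst_div (P : Place K L) (a b : Kˣ) : P.cst (a / b) = P.cst a - P.cst b := by
  rw [div_eq_mul_inv, P.cst_mul, P.cst_inv, sub_eq_add_neg]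

theorem Place.cst_neg (P : Place K L) (a : Kˣ) : P.cst (-a) = P.cst a := by
  rw [Place.cst_eq, Place.cst_eq, ← P.ρ_neg]
  congr 1
  apply Units.ext
  rw [Units.val_neg, cU_val, cU_val, Units.val_neg, map_neg, neg_neg]

end

section

variable {K : Type*} [Field K] {W : Affine K} {L : Type*} [Field L] [Algebra K L]
  [Algebra W.CoordinateRing L]

/-- The place `P` lies above the rational point `Q`. -/
def At (P : Place K L) : W.Point → Prop
  | .zero => 1 < P.v (fx W L)
  | .some q r _ => P.v (fx W L - algebraMap K L q) < 1 ∧ P.v (fy W L - algebraMap K L r) < 1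

open Classical in
/-- The family of the classes which is `a` at the point `Q`, and trivial elsewhere. -/
noncomputable def pm (L : Type*) [Field L] [Algebra K L] [Algebra W.CoordinateRing L]
    (Q : W.Point) (a : Kˣ) : ∀ P : Place K L, P.M :=
  fun P => if At P Q then P.cst a else 0

theorem pm_at {P : Place K L} {Q : W.Point} (h : At P Q) (a : Kˣ) : pm L Q a P = P.cst a :=
  if_pos h

theorem pm_not {P : Place K L} {Q : W.Point} (h : ¬ At P Q) (a : Kˣ) : pm L Q a P = 0 :=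
  if_neg h

theorem pm_mul (Q : W.Point) (a b : Kˣ) : pm L Q (a * b) = pm L Q a + pm L Q b := by
  funext P
  rw [Pi.add_apply]
  by_cases h : At P Q
  · rw [pm_at h, pm_at h, pm_at h, P.cst_mul]
  · rw [pm_not h, pm_not h, pm_not h, add_zero]

theorem pm_div (Q : W.Point) (a b : Kˣ) : pm L Q (a / b) = pm L Q a - pm L Q b := by
  funext P
  rw [Pi.sub_apply]
  by_cases h : At P Q
  · rw [pm_at h, pm_at h, pm_at h, P.cst_div]
  · rw [pm_not h, pm_not h, pm_not h, sub_zero]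

theorem pm_neg (Q : W.Point) (a : Kˣ) : pm L Q (-a) = pm L Q a := by
  funext P
  by_cases h : At P Q
  · rw [pm_at h, pm_at h, P.cst_neg]
  · rw [pm_not h, pm_not h]

variable [IsScalarTower K W.CoordinateRing L] [IsFractionRing W.CoordinateRing L]

/-- A line and its conjugate. -/
structure Ln (W : Affine K) (L : Type*) [Field L] [Algebra K L] [Algebra W.CoordinateRing L]
    (q₁ q₂ q₃ lam nu : K) (x₁ x₂ x₃ l l' : Lˣ) : Prop where
  h₁ : (x₁ : L) = fx W L - algebraMap K L q₁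
  h₂ : (x₂ : L) = fx W L - algebraMap K L q₂
  h₃ : (x₃ : L) = fx W L - algebraMap K L q₃
  hl : (l : L) = fy W L - (algebraMap K L lam * fx W L + algebraMap K L nu)
  hl' : (l' : L) = -fy W L - (algebraMap K L W.a₁ * fx W L + algebraMap K L W.a₃) -
    (algebraMap K L lam * fx W L + algebraMap K L nu)
  hp : l * l' = -(x₁ * x₂ * x₃)

theorem Ln.perm {q₁ q₂ q₃ lam nu : K} {x₁ x₂ x₃ l l' : Lˣ}
    (H : Ln W L q₁ q₂ q₃ lam nu x₁ x₂ x₃ l l') : Ln W L q₂ q₃ q₁ lam nu x₂ x₃ x₁ l l' :=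
  ⟨H.h₂, H.h₃, H.h₁, H.hl, H.hl', by rw [H.hp]; congr 1; rw [mul_assoc, mul_comm]⟩

theorem Ln.at_pt {q₁ q₂ q₃ lam nu : K} {x₁ x₂ x₃ l l' : Lˣ}
    (H : Ln W L q₁ q₂ q₃ lam nu x₁ x₂ x₃ l l') {P : Place K L} {q r : K}
    (hr : r = lam * q + nu) (ψ : Kˣ) (hψ : (ψ : K) = r - W.negY q r)
    (hx : P.v (fx W L - algebraMap K L q) < 1) (hy : P.v (fy W L - algebraMap K L r) < 1) :
    P.ord l = P.ord x₁ + P.ord x₂ + P.ord x₃ ∧
      P.ρ l = P.ρ x₁ + P.ρ x₂ + P.ρ x₃ - P.cst ψ := by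
  have h1 : P.v ((l' : L) - algebraMap K L ((-ψ : Kˣ) : K)) < 1 := by
    have e : (l' : L) - algebraMap K L ((-ψ : Kˣ) : K) = -(fy W L - algebraMap K L r) -
        algebraMap K L (W.a₁ + lam) * (fx W L - algebraMap K L q) := by
      rw [H.hl', Units.val_neg, hψ]
      unfold Affine.negY
      rw [hr]
      simp only [map_sub, map_neg, map_mul, map_add]
      ring
    rw [e]
    refine (P.v.map_sub _ _).trans_lt (max_lt (by rwa [Valuation.map_neg]) ?_)
    rw [map_mul]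
    exact mul_lt_one_le_lt (P.v_cst_le _) hx
  obtain ⟨h2, h3⟩ := P.ρ_cst_eq l' (-ψ) h1
  have h4 : P.ρ (Units.map (algebraMap K L).toMonoidHom (-ψ)) = P.cst ψ := by
    rw [← P.cst_neg, P.cst_eq]
    rfl
  rw [h4] at h3
  have h5 := congrArg P.ord H.hp
  have h6 := congrArg P.ρ H.hp
  have h7 : P.ord (-(x₁ * x₂ * x₃)) = P.ord (x₁ * x₂ * x₃) := by
    unfold Place.ord
    rw [Units.val_neg, Valuation.map_neg]
  rw [h7, P.ord_mul, P.ord_mul, P.ord_mul, h2, add_zero] at h5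
  rw [P.ρ_neg, P.ρ_mul, P.ρ_mul, P.ρ_mul, h3] at h6
  exact ⟨h5, by rw [← h6]; abel⟩

theorem Ln.at_neg {q₁ q₂ q₃ lam nu : K} {x₁ x₂ x₃ l l' : Lˣ}
    (H : Ln W L q₁ q₂ q₃ lam nu x₁ x₂ x₃ l l') {P : Place K L} {q r : K}
    (hr : r = lam * q + nu) (ψ : Kˣ) (hψ : (ψ : K) = r - W.negY q r)
    (hx : P.v (fx W L - algebraMap K L q) < 1)
    (hy : P.v (fy W L - algebraMap K L (W.negY q r)) < 1) :
    P.ord l = 0 ∧ P.ρ l = P.cst ψ := by
  have h1 : P.v ((l : L) - algebraMap K L ((-ψ : Kˣ) : K)) < 1 := by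
    have e : (l : L) - algebraMap K L ((-ψ : Kˣ) : K) =
        (fy W L - algebraMap K L (W.negY q r)) -
        algebraMap K L lam * (fx W L - algebraMap K L q) := by
      rw [H.hl, Units.val_neg, hψ, hr]
      simp only [map_sub, map_neg, map_mul, map_add]
      ring
    rw [e]
    refine (P.v.map_sub _ _).trans_lt (max_lt hy ?_)
    rw [map_mul]
    exact mul_lt_one_le_lt (P.v_cst_le _) hx
  obtain ⟨h2, h3⟩ := P.ρ_cst_eq l (-ψ) h1
  have h4 : P.ρ (Units.map (algebraMap K L).toMonoidHom (-ψ)) = P.cst ψ := by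
    rw [← P.cst_neg, P.cst_eq]
    rfl
  rw [h4] at h3
  exact ⟨h2, h3⟩

theorem Ln.none {q₁ q₂ q₃ lam nu : K} {x₁ x₂ x₃ l l' : Lˣ}
    (H : Ln W L q₁ q₂ q₃ lam nu x₁ x₂ x₃ l l') {P : Place K L}
    (hx : P.v (fx W L) ≤ 1) (h1 : P.ord x₁ = 0) (h2 : P.ord x₂ = 0) (h3 : P.ord x₃ = 0) :
    P.ord l = 0 := by
  have hy := v_y_le P hx
  have h5 := congrArg P.ord H.hp
  have h7 : P.ord (-(x₁ * x₂ * x₃)) = P.ord (x₁ * x₂ * x₃) := by
    unfold Place.ord
    rw [Units.val_neg, Valuation.map_neg]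
  rw [h7, P.ord_mul, P.ord_mul, P.ord_mul, h1, h2, h3] at h5
  have hlin : P.v (algebraMap K L lam * fx W L + algebraMap K L nu) ≤ 1 := by
    refine (P.v.map_add _ _).trans (max_le ?_ (P.v_cst_le _))
    rw [map_mul]
    exact mul_le_one' (P.v_cst_le _) hx
  have hlin2 : P.v (algebraMap K L W.a₁ * fx W L + algebraMap K L W.a₃) ≤ 1 := by
    refine (P.v.map_add _ _).trans (max_le ?_ (P.v_cst_le _))
    rw [map_mul]
    exact mul_le_one' (P.v_cst_le _) hx
  have h8 : P.v (l : L) ≤ 1 := by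
    rw [H.hl]
    exact (P.v.map_sub _ _).trans (max_le hy hlin)
  have h9 : P.v (l' : L) ≤ 1 := by
    rw [H.hl']
    exact (P.v.map_sub _ _).trans (max_le ((P.v.map_sub _ _).trans
      (max_le (by rwa [Valuation.map_neg]) hlin2)) hlin)
  rw [P.v_eq, ← WithZero.exp_zero, WithZero.exp_le_exp] at h8 h9
  omega

/-- The place at infinity. -/
theorem Ln.inf {q₁ q₂ q₃ lam nu : K} {x₁ x₂ x₃ l l' : Lˣ}
    (H : Ln W L q₁ q₂ q₃ lam nu x₁ x₂ x₃ l l') {P : Place K L}
    (hx : 1 < P.v (fx W L)) {q : K} (t : Lˣ) (ht : (t : L) = fx W L - algebraMap K L q) :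
    P.ord t = -2 ∧ P.ord l = -3 ∧ P.tame t l = 0 := by
  have hx0 : fx W L ≠ 0 := by
    intro h
    rw [h, map_zero] at hx
    exact absurd hx (not_lt.2 zero_le_one)
  have hy0 : fy W L ≠ 0 := by
    intro h
    have e := equation (W := W) (L := L)
    rw [h] at e
    have e1 : pol W L (X ^ 3 + C W.a₂ * X ^ 2 + C W.a₄ * X + C W.a₆) = 0 := by
      simp only [map_add, map_mul, map_pow, pol_C]
      have e2 : pol W L X = fx W L := rfl
      rw [e2]
      linear_combination -e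
    have e3 := (injective_iff_map_eq_zero _).1 (pol_injective (W := W) (L := L)) _ e1
    have e4 := congrArg (fun p : K[X] => p.coeff 3) e3
    simp at e4
  set X' : Lˣ := Units.mk0 _ hx0 with hX'
  set Y' : Lˣ := Units.mk0 _ hy0 with hY'
  have hX'v : (X' : L) = fx W L := rfl
  have hY'v : (Y' : L) = fy W L := rfl
  obtain ⟨ho1, ho2⟩ := ord_inf P hx X' Y' hX'v hY'v
  have hvx : P.v (fx W L) = WithZero.exp 2 := by
    rw [← hX'v, P.v_eq, ho1, neg_neg]
  have hvy : P.v (fy W L) = WithZero.exp 3 := by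
    rw [← hY'v, P.v_eq, ho2, neg_neg]
  -- `t / x`
  have ht1 : P.v (((t / X' : Lˣ) : L) - 1) < 1 := by
    have e : ((t / X' : Lˣ) : L) - 1 = -(algebraMap K L q / fx W L) := by
      rw [Units.val_div_eq_div_val, ht, hX'v]
      field_simp
      ring
    rw [e, Valuation.map_neg, map_div₀, div_lt_one₀ (lt_trans zero_lt_one hx)]
    exact (P.v_cst_le q).trans_lt hx
  have ht2 := P.ρ_of_one _ ht1
  rw [P.ρ_div, sub_eq_zero] at ht2
  have ht3 : P.ord (t / X') = 0 := by
    have h := (P.ord_eq_zero_iff (t / X')).2 (by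
      have h2 : ((t / X' : Lˣ) : L) = 1 + (((t / X' : Lˣ) : L) - 1) := by ring
      rw [h2, Valuation.map_add_eq_of_lt_left P.v (by rw [map_one]; exact ht1), map_one])
    exact h
  rw [P.ord_div] at ht3
  -- `l / y`
  have hlin : P.v (algebraMap K L lam * fx W L + algebraMap K L nu) ≤ WithZero.exp 2 := by
    refine (P.v.map_add _ _).trans (max_le ?_ ?_)
    · rw [map_mul, ← hvx]
      exact mul_le_of_le_one_left' (P.v_cst_le _)
    · refine (P.v_cst_le _).trans ?_
      rw [← WithZero.exp_zero, WithZero.exp_le_exp]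
      norm_num
  have hl1 : P.v (((l / Y' : Lˣ) : L) - 1) < 1 := by
    have e : ((l / Y' : Lˣ) : L) - 1 =
        -((algebraMap K L lam * fx W L + algebraMap K L nu) / fy W L) := by
      rw [Units.val_div_eq_div_val, H.hl, hY'v]
      field_simp
      ring
    rw [e, Valuation.map_neg, map_div₀, hvy, div_lt_one₀ (by simp)]
    refine hlin.trans_lt ?_
    rw [WithZero.exp_lt_exp]
    norm_num
  have hl2 := P.ρ_of_one _ hl1
  rw [P.ρ_div, sub_eq_zero] at hl2
  have hl3 : P.ord (l / Y') = 0 := by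
    have h := (P.ord_eq_zero_iff (l / Y')).2 (by
      have h2 : ((l / Y' : Lˣ) : L) = 1 + (((l / Y' : Lˣ) : L) - 1) := by ring
      rw [h2, Valuation.map_add_eq_of_lt_left P.v (by rw [map_one]; exact hl1), map_one])
    exact h
  rw [P.ord_div] at hl3
  -- `y² / x³`
  have hq1 : P.v (((Y' ^ 2 / X' ^ 3 : Lˣ) : L) - 1) < 1 := by
    have e : ((Y' ^ 2 / X' ^ 3 : Lˣ) : L) - 1 =
        (algebraMap K L W.a₂ * fx W L ^ 2 + (algebraMap K L W.a₄ * fx W L + algebraMap K L W.a₆) -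
        (algebraMap K L W.a₁ * (fx W L * fy W L) + algebraMap K L W.a₃ * fy W L)) /
          fx W L ^ 3 := by
      rw [Units.val_div_eq_div_val, Units.val_pow_eq_pow_val, Units.val_pow_eq_pow_val, hX'v, hY'v]
      have e2 := equation (W := W) (L := L)
      field_simp
      linear_combination e2
    rw [e, map_div₀, map_pow, hvx, ← WithZero.exp_nsmul, div_lt_one₀ (by simp)]
    have hc : ∀ (c : K) (w : L) (n : ℤ), P.v w = WithZero.exp n → n < 6 →
        P.v (algebraMap K L c * w) < WithZero.exp (3 • (2 : ℤ)) := by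
      intro c w n hw hn
      rw [map_mul, hw]
      refine (mul_le_of_le_one_left' (P.v_cst_le _)).trans_lt ?_
      rw [WithZero.exp_lt_exp]
      simpa using hn
    have hc0 : ∀ (c : K), P.v (algebraMap K L c) < WithZero.exp (3 • (2 : ℤ)) := by
      intro c
      refine (P.v_cst_le _).trans_lt ?_
      rw [← WithZero.exp_zero, WithZero.exp_lt_exp]
      norm_num
    refine (P.v.map_sub _ _).trans_lt (max_lt ((P.v.map_add _ _).trans_lt (max_lt ?_
      ((P.v.map_add _ _).trans_lt (max_lt ?_ (hc0 _))))) ((P.v.map_add _ _).trans_lt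
      (max_lt ?_ ?_)))
    · exact hc _ _ 4 (by rw [map_pow, hvx, ← WithZero.exp_nsmul]; rfl) (by norm_num)
    · exact hc _ _ 2 hvx (by norm_num)
    · exact hc _ _ 5 (by rw [map_mul, hvx, hvy, ← WithZero.exp_add]; rfl) (by norm_num)
    · exact hc _ _ 3 hvy (by norm_num)
  have hq2 := P.ρ_of_one _ hq1
  rw [P.ρ_div, P.ρ_pow, P.ρ_pow, sub_eq_zero] at hq2
  have ot : P.ord t = -2 := by omega
  have ol : P.ord l = -3 := by omega
  refine ⟨ot, ol, ?_⟩
  rw [P.tame_eq, ot, ol, ht2, hl2, neg_smul, neg_smul, sub_neg_eq_add]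
  have e1 : (3 : ℤ) • P.ρ X' = 3 • P.ρ X' := by norm_cast
  have e2 : (2 : ℤ) • P.ρ Y' = 2 • P.ρ Y' := by norm_cast
  rw [e1, e2, hq2, neg_add_cancel]

end

end Pool.Agent.H442.SK
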