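import Pool.Agent.H442.SKd
set_option autoImplicit false
set_option linter.unusedSectionVars false

/-!
The tame symbols of `{x - q, l}` and `{a, l}`, `l` a line, as combinations of point masses.
-/

namespace Pool.Agent.H442.SK

open scoped WithZero TensorProduct
open Polynomial WeierstrassCurve

section

variable {K : Type*} [Field K] {W : Affine K} {L : Type*} [Field L] [Algebra K L]
  [Algebra W.CoordinateRing L] [IsScalarTower K W.CoordinateRing L]
  [IsFractionRing W.CoordinateRing L] {P : Place K L}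

theorem over_ne {q q' : K} (hx : P.v (fx W L - algebraMap K L q) < 1) {t : Lˣ}
    (ht : (t : L) = fx W L - algebraMap K L q') {d : Kˣ} (hd : (d : K) = q - q') :
    P.ord t = 0 ∧ P.ρ t = P.cst d := by
  have h1 : P.v ((t : L) - algebraMap K L (d : K)) < 1 := by
    have e : (t : L) - algebraMap K L (d : K) = fx W L - algebraMap K L q := by
      rw [ht, hd, map_sub]
      ring
    rwa [e]
  obtain ⟨h2, h3⟩ := P.ρ_cst_eq t d h1
  exact ⟨h2, by rw [h3, P.cst_eq]; rfl⟩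

theorem ord_of_ge {q : K} (hxl : P.v (fx W L) ≤ 1)
    (hx : ¬ P.v (fx W L - algebraMap K L q) < 1) {t : Lˣ}
    (ht : (t : L) = fx W L - algebraMap K L q) : P.ord t = 0 := by
  rw [P.ord_eq_zero_iff, ht]
  refine le_antisymm ?_ (not_lt.1 hx)
  exact (P.v.map_sub _ _).trans (max_le hxl (P.v_cst_le _))

theorem not_at_of_ne {q q' r' : K} {h' : W.Nonsingular q' r'}
    (hx : P.v (fx W L - algebraMap K L q) < 1) (hq : q ≠ q') :
    ¬ At P (Affine.Point.some q' r' h') := by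
  rintro ⟨h1, -⟩
  have h2 := v_sub_cst P hq hx
  rw [h2] at h1
  exact lt_irrefl _ h1

theorem not_at_of_ge {q r : K} {h : W.Nonsingular q r}
    (hx : ¬ P.v (fx W L - algebraMap K L q) < 1) : ¬ At P (Affine.Point.some q r h) :=
  fun h1 => hx h1.1

theorem not_at_inf (hx : 1 < P.v (fx W L)) {q r : K} {h : W.Nonsingular q r} :
    ¬ At P (Affine.Point.some q r h) := by
  rintro ⟨h1, -⟩
  exact absurd (v_x_le P h1) (not_le.2 hx)

theorem not_at_zero (hx : P.v (fx W L) ≤ 1) : ¬ At P (0 : W.Point) := not_lt.2 hx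

theorem at_zero (hx : 1 < P.v (fx W L)) : At P (0 : W.Point) := hx

theorem excl {r r' : K} (hr : r ≠ r') (h1 : P.v (fy W L - algebraMap K L r) < 1) :
    ¬ P.v (fy W L - algebraMap K L r') < 1 := by
  rw [v_sub_cst P hr h1]
  exact lt_irrefl _

/-- Cases for a finite place. -/
theorem cases_pt {q r : K} (h : W.Nonsingular q r) (hr : r ≠ W.negY q r) {t : Lˣ}
    (ht : (t : L) = fx W L - algebraMap K L q)
    (hx : P.v (fx W L - algebraMap K L q) < 1) :
    (P.ord t = 1 ∧ P.v (fy W L - algebraMap K L r) < 1 ∧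
      At P (Affine.Point.some q r h) ∧ ¬ At P (-(Affine.Point.some q r h))) ∨
    (P.ord t = 1 ∧ P.v (fy W L - algebraMap K L (W.negY q r)) < 1 ∧
      ¬ At P (Affine.Point.some q r h) ∧ At P (-(Affine.Point.some q r h))) := by
  rw [Affine.Point.neg_some]
  rcases at_or P h.1 hx with h1 | h1
  · left
    exact ⟨ord_x_sub P hr hx h1 t ht, h1, ⟨hx, h1⟩, fun h2 => excl hr h1 h2.2⟩
  · right
    have hr' : W.negY q r ≠ W.negY q (W.negY q r) := by
      rw [Affine.negY_negY]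
      exact hr.symm
    exact ⟨ord_x_sub P hr' hx h1 t ht, h1, fun h2 => excl hr.symm h1 h2.2, ⟨hx, h1⟩⟩

/-- The symbol `{x - q₁, l}`, where `l` is a line through three points. -/
theorem tame_one {q₁ q₂ q₃ lam nu : K} {x₁ x₂ x₃ l l' : Lˣ}
    (H : Ln W L q₁ q₂ q₃ lam nu x₁ x₂ x₃ l l') {r₁ r₂ r₃ : K}
    (hr₁ : r₁ = lam * q₁ + nu) (hr₂ : r₂ = lam * q₂ + nu) (hr₃ : r₃ = lam * q₃ + nu)
    (h₁ : W.Nonsingular q₁ r₁) (h₂ : W.Nonsingular q₂ r₂) (h₃ : W.Nonsingular q₃ r₃)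
    {ψ₁ ψ₂ ψ₃ d₁₂ d₁₃ : Kˣ} (hψ₁ : (ψ₁ : K) = r₁ - W.negY q₁ r₁)
    (hψ₂ : (ψ₂ : K) = r₂ - W.negY q₂ r₂) (hψ₃ : (ψ₃ : K) = r₃ - W.negY q₃ r₃)
    (hd₁₂ : (d₁₂ : K) = q₁ - q₂) (hd₁₃ : (d₁₃ : K) = q₁ - q₃) (h23 : q₂ ≠ q₃) :
    (fun P : Place K L => P.tame x₁ l) =
      pm L (.some q₁ r₁ h₁) ψ₁ - pm L (.some q₁ r₁ h₁) d₁₂ - pm L (.some q₁ r₁ h₁) d₁₃ -
        pm L (-(Affine.Point.some q₁ r₁ h₁)) ψ₁ + pm L (.some q₂ r₂ h₂) d₁₂ +
        pm L (.some q₃ r₃ h₃) d₁₃ := by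
  have n₁ : r₁ ≠ W.negY q₁ r₁ := sub_ne_zero.1 (hψ₁ ▸ ψ₁.ne_zero)
  have n₂ : r₂ ≠ W.negY q₂ r₂ := sub_ne_zero.1 (hψ₂ ▸ ψ₂.ne_zero)
  have n₃ : r₃ ≠ W.negY q₃ r₃ := sub_ne_zero.1 (hψ₃ ▸ ψ₃.ne_zero)
  have n12 : q₁ ≠ q₂ := sub_ne_zero.1 (hd₁₂ ▸ d₁₂.ne_zero)
  have n13 : q₁ ≠ q₃ := sub_ne_zero.1 (hd₁₃ ▸ d₁₃.ne_zero)
  funext P
  simp only [Pi.add_apply, Pi.sub_apply]
  rcases le_or_gt (P.v (fx W L)) 1 with hx | hx
  · by_cases c1 : P.v (fx W L - algebraMap K L q₁) < 1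
    · obtain ⟨o2, e2⟩ := over_ne c1 H.h₂ hd₁₂
      obtain ⟨o3, e3⟩ := over_ne c1 H.h₃ hd₁₃
      rw [pm_not (not_at_of_ne c1 n12), pm_not (not_at_of_ne c1 n13)]
      rcases cases_pt h₁ n₁ H.h₁ c1 with ⟨o1, hy, a1, a2⟩ | ⟨o1, hy, a1, a2⟩
      · obtain ⟨o, e⟩ := H.at_pt hr₁ ψ₁ hψ₁ c1 hy
        rw [pm_at a1, pm_at a1, pm_at a1, pm_not a2, P.tame_eq, o, e, o1, o2, o3, e2, e3]
        simp only [add_zero, one_smul]
        abel
      · obtain ⟨o, e⟩ := H.at_neg hr₁ ψ₁ hψ₁ c1 hy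
        rw [pm_not a1, pm_not a1, pm_not a1, pm_at a2, P.tame_eq, o, e, o1]
        simp only [zero_smul, one_smul]
        abel
    · have o1 := ord_of_ge hx c1 H.h₁
      rw [pm_not (not_at_of_ge c1), pm_not (not_at_of_ge c1), pm_not (not_at_of_ge c1),
        Affine.Point.neg_some, pm_not (not_at_of_ge c1)]
      by_cases c2 : P.v (fx W L - algebraMap K L q₂) < 1
      · obtain ⟨-, e1⟩ := over_ne c2 H.h₁ (d := -d₁₂) (by rw [Units.val_neg, hd₁₂]; ring)
        have o3 : P.ord x₃ = 0 := by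
          refine ord_of_ge hx (fun c3 => ?_) H.h₃
          rw [v_sub_cst P h23 c2] at c3
          exact lt_irrefl _ c3
        rw [pm_not (not_at_of_ne c2 h23)]
        rcases cases_pt h₂ n₂ H.h₂ c2 with ⟨o2, hy, a1, a2⟩ | ⟨o2, hy, a1, a2⟩
        · obtain ⟨o, e⟩ := H.at_pt hr₂ ψ₂ hψ₂ c2 hy
          rw [pm_at a1, P.tame_eq, o, o1, o2, o3, e1, P.cst_neg]
          simp only [zero_smul, add_zero, zero_add, one_smul, sub_zero]
        · obtain ⟨o, e⟩ := H.at_neg hr₂ ψ₂ hψ₂ c2 hy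
          rw [pm_not a1, P.tame_eq, o, o1]
          simp only [zero_smul, add_zero, sub_zero]
      · have o2 := ord_of_ge hx c2 H.h₂
        rw [pm_not (not_at_of_ge c2)]
        by_cases c3 : P.v (fx W L - algebraMap K L q₃) < 1
        · obtain ⟨-, e1⟩ := over_ne c3 H.h₁ (d := -d₁₃) (by rw [Units.val_neg, hd₁₃]; ring)
          rcases cases_pt h₃ n₃ H.h₃ c3 with ⟨o3, hy, a1, a2⟩ | ⟨o3, hy, a1, a2⟩
          · obtain ⟨o, e⟩ := H.at_pt hr₃ ψ₃ hψ₃ c3 hy
            rw [pm_at a1, P.tame_eq, o, o1, o2, o3, e1, P.cst_neg]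
            simp only [zero_smul, add_zero, zero_add, one_smul, sub_zero]
          · obtain ⟨o, e⟩ := H.at_neg hr₃ ψ₃ hψ₃ c3 hy
            rw [pm_not a1, P.tame_eq, o, o1]
            simp only [zero_smul, add_zero, sub_zero]
        · have o3 := ord_of_ge hx c3 H.h₃
          rw [pm_not (not_at_of_ge c3), P.tame_eq, H.none hx o1 o2 o3, o1]
          simp only [zero_smul, add_zero, sub_zero]
  · obtain ⟨-, -, h⟩ := H.inf hx x₁ H.h₁
    rw [h, pm_not (not_at_inf (W := W) hx), pm_not (not_at_inf (W := W) hx), pm_not (not_at_inf (W := W) hx),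
      Affine.Point.neg_some, pm_not (not_at_inf (W := W) hx), pm_not (not_at_inf (W := W) hx),
      pm_not (not_at_inf (W := W) hx)]
    simp only [add_zero, sub_zero]

/-- The symbol `{a, l}`, where `l` is a line through three different points. -/
theorem tame_const {q₁ q₂ q₃ lam nu : K} {x₁ x₂ x₃ l l' : Lˣ}
    (H : Ln W L q₁ q₂ q₃ lam nu x₁ x₂ x₃ l l') {r₁ r₂ r₃ : K}
    (hr₁ : r₁ = lam * q₁ + nu) (hr₂ : r₂ = lam * q₂ + nu) (hr₃ : r₃ = lam * q₃ + nu)
    (h₁ : W.Nonsingular q₁ r₁) (h₂ : W.Nonsingular q₂ r₂) (h₃ : W.Nonsingular q₃ r₃)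
    {ψ₁ ψ₂ ψ₃ : Kˣ} (hψ₁ : (ψ₁ : K) = r₁ - W.negY q₁ r₁)
    (hψ₂ : (ψ₂ : K) = r₂ - W.negY q₂ r₂) (hψ₃ : (ψ₃ : K) = r₃ - W.negY q₃ r₃)
    (n12 : q₁ ≠ q₂) (n13 : q₁ ≠ q₃) (n23 : q₂ ≠ q₃) (a : Kˣ) :
    (fun P : Place K L => P.tame (cU L a) l) =
      pm L (.some q₁ r₁ h₁) a + pm L (.some q₂ r₂ h₂) a + pm L (.some q₃ r₃ h₃) a -
        3 • pm L (0 : W.Point) a := by
  have n₁ : r₁ ≠ W.negY q₁ r₁ := sub_ne_zero.1 (hψ₁ ▸ ψ₁.ne_zero)
  have n₂ : r₂ ≠ W.negY q₂ r₂ := sub_ne_zero.1 (hψ₂ ▸ ψ₂.ne_zero)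
  have n₃ : r₃ ≠ W.negY q₃ r₃ := sub_ne_zero.1 (hψ₃ ▸ ψ₃.ne_zero)
  funext P
  simp only [Pi.add_apply, Pi.sub_apply, Pi.smul_apply]
  have oa : P.ord (cU L a) = 0 := P.mem_U.1 (P.cU_mem a)
  rw [P.tame_eq, oa, zero_smul, sub_zero, ← P.cst_eq]
  rcases le_or_gt (P.v (fx W L)) 1 with hx | hx
  · rw [pm_not (not_at_zero (W := W) hx), smul_zero, sub_zero]
    by_cases c1 : P.v (fx W L - algebraMap K L q₁) < 1
    · have o2 : P.ord x₂ = 0 := by
        refine ord_of_ge hx (fun c3 => ?_) H.h₂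
        rw [v_sub_cst P n12 c1] at c3
        exact lt_irrefl _ c3
      have o3 : P.ord x₃ = 0 := by
        refine ord_of_ge hx (fun c3 => ?_) H.h₃
        rw [v_sub_cst P n13 c1] at c3
        exact lt_irrefl _ c3
      rw [pm_not (not_at_of_ne c1 n12), pm_not (not_at_of_ne c1 n13)]
      rcases cases_pt h₁ n₁ H.h₁ c1 with ⟨o1, hy, a1, a2⟩ | ⟨o1, hy, a1, a2⟩
      · obtain ⟨o, -⟩ := H.at_pt hr₁ ψ₁ hψ₁ c1 hy
        rw [pm_at a1, o, o1, o2, o3]
        simp only [add_zero, one_smul]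
      · obtain ⟨o, -⟩ := H.at_neg hr₁ ψ₁ hψ₁ c1 hy
        rw [pm_not a1, o]
        simp only [add_zero, zero_smul]
    · have o1 := ord_of_ge hx c1 H.h₁
      rw [pm_not (not_at_of_ge c1)]
      by_cases c2 : P.v (fx W L - algebraMap K L q₂) < 1
      · have o3 : P.ord x₃ = 0 := by
          refine ord_of_ge hx (fun c3 => ?_) H.h₃
          rw [v_sub_cst P n23 c2] at c3
          exact lt_irrefl _ c3
        rw [pm_not (not_at_of_ne c2 n23)]
        rcases cases_pt h₂ n₂ H.h₂ c2 with ⟨o2, hy, a1, a2⟩ | ⟨o2, hy, a1, a2⟩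
        · obtain ⟨o, -⟩ := H.at_pt hr₂ ψ₂ hψ₂ c2 hy
          rw [pm_at a1, o, o1, o2, o3]
          simp only [zero_add, add_zero, one_smul]
        · obtain ⟨o, -⟩ := H.at_neg hr₂ ψ₂ hψ₂ c2 hy
          rw [pm_not a1, o]
          simp only [add_zero, zero_smul]
      · have o2 := ord_of_ge hx c2 H.h₂
        rw [pm_not (not_at_of_ge c2)]
        by_cases c3 : P.v (fx W L - algebraMap K L q₃) < 1
        · rcases cases_pt h₃ n₃ H.h₃ c3 with ⟨o3, hy, a1, a2⟩ | ⟨o3, hy, a1, a2⟩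
          · obtain ⟨o, -⟩ := H.at_pt hr₃ ψ₃ hψ₃ c3 hy
            rw [pm_at a1, o, o1, o2, o3]
            simp only [zero_add, one_smul]
          · obtain ⟨o, -⟩ := H.at_neg hr₃ ψ₃ hψ₃ c3 hy
            rw [pm_not a1, o]
            simp only [add_zero, zero_smul]
        · have o3 := ord_of_ge hx c3 H.h₃
          rw [pm_not (not_at_of_ge c3), H.none hx o1 o2 o3]
          simp only [add_zero, zero_smul]
  · obtain ⟨-, o, -⟩ := H.inf hx x₁ H.h₁
    rw [o, pm_not (not_at_inf (W := W) hx), pm_not (not_at_inf (W := W) hx), pm_not (not_at_inf (W := W) hx),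
      pm_at (at_zero (W := W) hx), add_zero, add_zero, zero_sub, neg_smul]
    norm_cast

/-- The symbols `{x - q₁, l}`, where `l` is a tangent. -/
theorem tame_tan {q₁ q₃ lam nu : K} {x₁ x₃ l l' : Lˣ}
    (H : Ln W L q₁ q₁ q₃ lam nu x₁ x₁ x₃ l l') {r₁ r₃ : K}
    (hr₁ : r₁ = lam * q₁ + nu) (hr₃ : r₃ = lam * q₃ + nu)
    (h₁ : W.Nonsingular q₁ r₁) (h₃ : W.Nonsingular q₃ r₃)
    {ψ₁ ψ₃ d₁₃ : Kˣ} (hψ₁ : (ψ₁ : K) = r₁ - W.negY q₁ r₁)
    (hψ₃ : (ψ₃ : K) = r₃ - W.negY q₃ r₃) (hd₁₃ : (d₁₃ : K) = q₁ - q₃) :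
    (fun P : Place K L => P.tame x₁ l) =
      pm L (.some q₁ r₁ h₁) ψ₁ - pm L (.some q₁ r₁ h₁) d₁₃ -
        pm L (-(Affine.Point.some q₁ r₁ h₁)) ψ₁ + pm L (.some q₃ r₃ h₃) d₁₃ ∧
    (fun P : Place K L => P.tame x₃ l) =
      pm L (.some q₃ r₃ h₃) ψ₃ - 2 • pm L (.some q₃ r₃ h₃) d₁₃ -
        pm L (-(Affine.Point.some q₃ r₃ h₃)) ψ₃ + 2 • pm L (.some q₁ r₁ h₁) d₁₃ ∧
    ∀ a : Kˣ, (fun P : Place K L => P.tame (cU L a) l) =
      2 • pm L (.some q₁ r₁ h₁) a + pm L (.some q₃ r₃ h₃) a - 3 • pm L (0 : W.Point) a := by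
  have n₁ : r₁ ≠ W.negY q₁ r₁ := sub_ne_zero.1 (hψ₁ ▸ ψ₁.ne_zero)
  have n₃ : r₃ ≠ W.negY q₃ r₃ := sub_ne_zero.1 (hψ₃ ▸ ψ₃.ne_zero)
  have n13 : q₁ ≠ q₃ := sub_ne_zero.1 (hd₁₃ ▸ d₁₃.ne_zero)
  have main : ∀ P : Place K L, P.tame x₁ l =
      pm L (.some q₁ r₁ h₁) ψ₁ P - pm L (.some q₁ r₁ h₁) d₁₃ P -
        pm L (-(Affine.Point.some q₁ r₁ h₁)) ψ₁ P + pm L (.some q₃ r₃ h₃) d₁₃ P ∧
    P.tame x₃ l =
      pm L (.some q₃ r₃ h₃) ψ₃ P - 2 • pm L (.some q₃ r₃ h₃) d₁₃ P -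
        pm L (-(Affine.Point.some q₃ r₃ h₃)) ψ₃ P + 2 • pm L (.some q₁ r₁ h₁) d₁₃ P ∧
    ∀ a : Kˣ, P.tame (cU L a) l =
      2 • pm L (.some q₁ r₁ h₁) a P + pm L (.some q₃ r₃ h₃) a P - 3 • pm L (0 : W.Point) a P := by
    intro P
    have oa : ∀ a : Kˣ, P.ord (cU L a) = 0 := fun a => P.mem_U.1 (P.cU_mem a)
    rcases le_or_gt (P.v (fx W L)) 1 with hx | hx
    · by_cases c1 : P.v (fx W L - algebraMap K L q₁) < 1
      · obtain ⟨o3, e3⟩ := over_ne c1 H.h₃ hd₁₃
        have b3 : ¬ At P (-(Affine.Point.some q₃ r₃ h₃)) := by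
          rw [Affine.Point.neg_some]
          exact not_at_of_ne c1 n13
        rw [pm_not (not_at_of_ne c1 n13), pm_not (not_at_of_ne c1 n13), pm_not b3]
        rcases cases_pt h₁ n₁ H.h₁ c1 with ⟨o1, hy, a1, a2⟩ | ⟨o1, hy, a1, a2⟩
        · obtain ⟨o, e⟩ := H.at_pt hr₁ ψ₁ hψ₁ c1 hy
          rw [o1, o3] at o
          rw [e3] at e
          refine ⟨?_, ?_, fun a => ?_⟩
          · rw [pm_at a1, pm_at a1, pm_not a2, P.tame_eq, o, e, o1]
            simp only [add_zero, one_smul, Int.reduceAdd, two_smul]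
            abel
          · rw [pm_at a1, P.tame_eq, o, o3, e3]
            simp only [add_zero, zero_smul, sub_zero, zero_add, smul_zero, Int.reduceAdd]
            norm_cast
          · rw [pm_at a1, pm_not (not_at_of_ne c1 n13), pm_not (not_at_zero (W := W) hx), P.tame_eq, o,
              oa a, ← P.cst_eq]
            simp only [add_zero, zero_smul, sub_zero, smul_zero, Int.reduceAdd]
            norm_cast
        · obtain ⟨o, e⟩ := H.at_neg hr₁ ψ₁ hψ₁ c1 hy
          refine ⟨?_, ?_, fun a => ?_⟩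
          · rw [pm_not a1, pm_not a1, pm_at a2, P.tame_eq, o, e, o1]
            simp only [zero_smul, one_smul]
            abel
          · rw [pm_not a1, P.tame_eq, o, o3]
            simp only [add_zero, zero_smul, sub_zero, smul_zero]
          · rw [pm_not a1, pm_not (not_at_of_ne c1 n13), pm_not (not_at_zero (W := W) hx), P.tame_eq, o,
              oa a]
            simp only [add_zero, zero_smul, sub_zero, smul_zero]
      · have o1 := ord_of_ge hx c1 H.h₁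
        have b1 : ¬ At P (-(Affine.Point.some q₁ r₁ h₁)) := by
          rw [Affine.Point.neg_some]
          exact not_at_of_ge c1
        rw [pm_not (not_at_of_ge c1), pm_not (not_at_of_ge c1), pm_not b1]
        by_cases c3 : P.v (fx W L - algebraMap K L q₃) < 1
        · obtain ⟨-, e1⟩ := over_ne c3 H.h₁ (d := -d₁₃) (by rw [Units.val_neg, hd₁₃]; ring)
          rcases cases_pt h₃ n₃ H.h₃ c3 with ⟨o3, hy, a1, a2⟩ | ⟨o3, hy, a1, a2⟩
          · obtain ⟨o, e⟩ := H.at_pt hr₃ ψ₃ hψ₃ c3 hy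
            rw [o1, o3] at o
            refine ⟨?_, ?_, fun a => ?_⟩
            · rw [pm_at a1, P.tame_eq, o, o1, e1, P.cst_neg]
              simp only [zero_smul, add_zero, zero_add, one_smul, sub_zero]
            · rw [pm_at a1, pm_at a1, pm_not a2, P.tame_eq, o, o3, e, e1, P.cst_neg]
              simp only [zero_add, one_smul, smul_zero, two_smul]
              abel
            · rw [pm_not (not_at_of_ge c1), pm_at a1, pm_not (not_at_zero (W := W) hx), P.tame_eq, o,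
                oa a, ← P.cst_eq]
              simp only [zero_smul, sub_zero, smul_zero, zero_add, one_smul]
          · obtain ⟨o, e⟩ := H.at_neg hr₃ ψ₃ hψ₃ c3 hy
            refine ⟨?_, ?_, fun a => ?_⟩
            · rw [pm_not a1, P.tame_eq, o, o1]
              simp only [zero_smul, add_zero, sub_zero]
            · rw [pm_not a1, pm_not a1, pm_at a2, P.tame_eq, o, o3, e]
              simp only [zero_smul, one_smul, smul_zero]
              abel
            · rw [pm_not (not_at_of_ge c1), pm_not a1, pm_not (not_at_zero (W := W) hx), P.tame_eq, o,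
                oa a]
              simp only [zero_smul, sub_zero, smul_zero, zero_add]
        · have o3 := ord_of_ge hx c3 H.h₃
          have o := H.none hx o1 o1 o3
          have b3 : ¬ At P (-(Affine.Point.some q₃ r₃ h₃)) := by
            rw [Affine.Point.neg_some]
            exact not_at_of_ge c3
          refine ⟨?_, ?_, fun a => ?_⟩
          · rw [pm_not (not_at_of_ge c3), P.tame_eq, o, o1]
            simp only [zero_smul, add_zero, sub_zero]
          · rw [pm_not (not_at_of_ge c3), pm_not (not_at_of_ge c3), pm_not b3, P.tame_eq, o, o3]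
            simp only [zero_smul, smul_zero, add_zero, sub_zero]
          · rw [pm_not (not_at_of_ge c1), pm_not (not_at_of_ge c3), pm_not (not_at_zero (W := W) hx),
              P.tame_eq, o, oa a]
            simp only [zero_smul, sub_zero, smul_zero, zero_add]
    · obtain ⟨-, o, t1⟩ := H.inf hx x₁ H.h₁
      obtain ⟨-, -, t3⟩ := H.inf hx x₃ H.h₃
      have b1 : ¬ At P (-(Affine.Point.some q₁ r₁ h₁)) := by
        rw [Affine.Point.neg_some]
        exact not_at_inf (W := W) hx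
      have b3 : ¬ At P (-(Affine.Point.some q₃ r₃ h₃)) := by
        rw [Affine.Point.neg_some]
        exact not_at_inf (W := W) hx
      refine ⟨?_, ?_, fun a => ?_⟩
      · rw [t1, pm_not (not_at_inf (W := W) hx), pm_not (not_at_inf (W := W) hx), pm_not b1,
          pm_not (not_at_inf (W := W) hx)]
        simp only [add_zero, sub_zero]
      · rw [t3, pm_not (not_at_inf (W := W) hx), pm_not (not_at_inf (W := W) hx), pm_not b3,
          pm_not (not_at_inf (W := W) hx)]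
        simp only [smul_zero, add_zero, sub_zero]
      · rw [P.tame_eq, o, oa a, ← P.cst_eq, pm_not (not_at_inf (W := W) hx), pm_not (not_at_inf (W := W) hx),
          pm_at (at_zero (W := W) hx), smul_zero, zero_smul, add_zero, zero_sub, sub_zero, neg_smul]
        norm_cast
  refine ⟨funext fun P => (main P).1, funext fun P => (main P).2.1,
    fun a => funext fun P => (main P).2.2 a⟩

/-- The symbol `{a, x - q}`. -/
theorem tame_vert {q r : K} (h : W.Nonsingular q r) (hr : r ≠ W.negY q r) {t : Lˣ}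
    (ht : (t : L) = fx W L - algebraMap K L q) (a : Kˣ) :
    (fun P : Place K L => P.tame (cU L a) t) =
      pm L (.some q r h) a + pm L (-(Affine.Point.some q r h)) a - 2 • pm L (0 : W.Point) a := by
  funext P
  simp only [Pi.add_apply, Pi.sub_apply, Pi.smul_apply]
  have oa : P.ord (cU L a) = 0 := P.mem_U.1 (P.cU_mem a)
  rw [P.tame_eq, oa, zero_smul, sub_zero, ← P.cst_eq]
  rcases le_or_gt (P.v (fx W L)) 1 with hx | hx
  · rw [pm_not (not_at_zero (W := W) hx), smul_zero, sub_zero]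
    by_cases c1 : P.v (fx W L - algebraMap K L q) < 1
    · rcases cases_pt h hr ht c1 with ⟨o1, hy, a1, a2⟩ | ⟨o1, hy, a1, a2⟩
      · rw [pm_at a1, pm_not a2, o1]
        simp only [add_zero, one_smul]
      · rw [pm_not a1, pm_at a2, o1]
        simp only [zero_add, one_smul]
    · have b1 : ¬ At P (-(Affine.Point.some q r h)) := by
        rw [Affine.Point.neg_some]
        exact not_at_of_ge c1
      rw [pm_not (not_at_of_ge c1), pm_not b1, ord_of_ge hx c1 ht]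
      simp only [add_zero, zero_smul]
  · have b1 : ¬ At P (-(Affine.Point.some q r h)) := by
      rw [Affine.Point.neg_some]
      exact not_at_inf (W := W) hx
    have hx0 : fx W L ≠ 0 := by
      intro h
      rw [h, map_zero] at hx
      exact absurd hx (not_lt.2 zero_le_one)
    have e2 : P.v (t : L) = P.v (fx W L) := by
      rw [ht, sub_eq_add_neg, Valuation.map_add_eq_of_lt_left P.v]
      rw [Valuation.map_neg]
      exact (P.v_cst_le q).trans_lt hx
    have hy0 : fy W L ≠ 0 := by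
      intro h
      have e := equation (W := W) (L := L)
      rw [h] at e
      have e1 : pol W L (X ^ 3 + C W.a₂ * X ^ 2 + C W.a₄ * X + C W.a₆) = 0 := by
        simp only [map_add, map_mul, map_pow, pol_C]
        have e2 : pol W L X = fx W L := rfl
        rw [e2]
        linear_combination -e
      have e3 := (injective_iff_map_eq_zero _).1 (pol_injective (W := W) (L := L)) _ e1
      have e4 := congrArg (fun p : K[X] => p.coeff 3) e3
      simp at e4
    obtain ⟨o, -⟩ := ord_inf P hx (Units.mk0 _ hx0) (Units.mk0 _ hy0) rfl rfl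
    have o2 : P.ord t = -2 := by
      rw [← o]
      unfold Place.ord
      rw [e2]
      rfl
    rw [pm_not (not_at_inf (W := W) hx), pm_not b1, pm_at (at_zero (W := W) hx), o2, add_zero, zero_sub, neg_smul]
    norm_cast

end

end Pool.Agent.H442.SK
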