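import Pool.Agent.H442.SKe
set_option autoImplicit false
set_option linter.unusedSectionVars false

/-!
The classes `{Q, a}` in the cokernel of the tame symbols, and their relations.
-/

namespace Pool.Agent.H442.SK

open scoped WithZero TensorProduct
open Polynomial WeierstrassCurve

/-- The space spanned by the tame symbols of all pairs of functions. -/
noncomputable def TS (K L : Type*) [Field K] [Field L] [Algebra K L] :
    Submodule ℚ (∀ P : Place K L, P.M) :=
  Submodule.span ℚ {s | ∃ f g : Lˣ, s = fun P => P.tame f g}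

/-- The cokernel of the tame symbols. -/
def SKone (K L : Type*) [Field K] [Field L] [Algebra K L] : Type _ :=
  (∀ P : Place K L, P.M) ⧸ TS K L

noncomputable instance (K L : Type*) [Field K] [Field L] [Algebra K L] :
    AddCommGroup (SKone K L) :=
  show AddCommGroup ((∀ P : Place K L, P.M) ⧸ TS K L) from inferInstance

noncomputable instance (K L : Type*) [Field K] [Field L] [Algebra K L] :
    Module ℚ (SKone K L) :=
  show Module ℚ ((∀ P : Place K L, P.M) ⧸ TS K L) from inferInstance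

/-- The projection onto the cokernel. -/
noncomputable def mkS (K L : Type*) [Field K] [Field L] [Algebra K L] :
    (∀ P : Place K L, P.M) →ₗ[ℚ] SKone K L := (TS K L).mkQ

section

variable {K : Type*} [Field K] [DecidableEq K] {W : Affine K} (L : Type*) [Field L] [Algebra K L]
  [Algebra W.CoordinateRing L]

/-- The class `{Q, a}`: the class of `a` at the point `Q` minus the class of `a` at infinity. -/
noncomputable def br (Q : W.Point) (a : Kˣ) : SKone K L :=
  mkS K L (pm L Q a - pm L (0 : W.Point) a)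

theorem br_zero (a : Kˣ) : br L (0 : W.Point) a = 0 := by
  unfold br
  rw [sub_self, map_zero]

theorem br_mul (Q : W.Point) (a b : Kˣ) : br L Q (a * b) = br L Q a + br L Q b := by
  unfold br
  rw [pm_mul, pm_mul, ← map_add]
  congr 1
  abel

theorem br_div (Q : W.Point) (a b : Kˣ) : br L Q (a / b) = br L Q a - br L Q b := by
  unfold br
  rw [pm_div, pm_div, ← map_sub]
  congr 1
  abel

theorem br_neg (Q : W.Point) (a : Kˣ) : br L Q (-a) = br L Q a := by
  unfold br
  rw [pm_neg, pm_neg]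

theorem br_one (Q : W.Point) : br L Q 1 = 0 := by
  have h := br_mul L Q 1 1
  rw [mul_one] at h
  exact left_eq_add.1 h

theorem br_pow (Q : W.Point) (a : Kˣ) (n : ℕ) : br L Q (a ^ n) = n • br L Q a := by
  induction n with
  | zero => rw [pow_zero, br_one, zero_smul]
  | succ n ih => rw [pow_succ, br_mul, ih, succ_nsmul]

theorem mk_eq_zero {s : ∀ P : Place K L, P.M} {f g : Lˣ}
    (h : (fun P : Place K L => P.tame f g) = s) : mkS K L s = 0 := by
  show (TS K L).mkQ s = 0
  rw [Submodule.mkQ_apply, Submodule.Quotient.mk_eq_zero]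
  exact Submodule.subset_span ⟨f, g, h.symm⟩

variable [IsScalarTower K W.CoordinateRing L] [IsFractionRing W.CoordinateRing L]

/-- `ψ(Q) = 2 y + a₁ x + a₃`. -/
def psi : W.Point → K
  | .zero => 0
  | .some q r _ => r - W.negY q r

/-- The `x`-coordinate. -/
def xc : W.Point → K
  | .zero => 0
  | .some q _ _ => q

theorem x_sub_ne (q : K) : fx W L - algebraMap K L q ≠ 0 := by
  intro h
  have e1 : pol W L (X - C q) = 0 := by
    rw [map_sub, pol_C]
    exact h
  exact X_sub_C_ne_zero q ((injective_iff_map_eq_zero _).1 (pol_injective (W := W) (L := L)) _ e1)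

/-- The line through two points. -/
theorem exists_line {q₁ r₁ q₂ r₂ : K} (h₁ : W.Equation q₁ r₁) (h₂ : W.Equation q₂ r₂)
    (hxy : ¬ (q₁ = q₂ ∧ r₁ = W.negY q₂ r₂)) (lam : K) (hlam : lam = W.slope q₁ q₂ r₁ r₂) :
    ∃ x₁ x₂ x₃ l l' : Lˣ,
      Ln W L q₁ q₂ (W.addX q₁ q₂ lam) lam (r₁ - lam * q₁) x₁ x₂ x₃ l l' := by
  have e1 := Affine.CoordinateRing.C_addPolynomial (W' := W) q₁ r₁ lam
  have e2 := Affine.CoordinateRing.C_addPolynomial_slope h₁ h₂ hxy
  rw [← hlam] at e2
  rw [e1] at e2
  have e3 := congrArg (algebraMap W.CoordinateRing L) e2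
  obtain ⟨φ, hφ⟩ : ∃ φ : K[X][X] →+* L,
    φ = (algebraMap W.CoordinateRing L).comp (Affine.CoordinateRing.mk W) := ⟨_, rfl⟩
  have hC : ∀ p : K[X], φ (C p) = pol W L p := fun p => by rw [hφ]; rfl
  have hY : φ X = fy W L := by rw [hφ]; rfl
  have hline : pol W L (Affine.linePolynomial q₁ r₁ lam) =
      algebraMap K L lam * fx W L + algebraMap K L (r₁ - lam * q₁) := by
    unfold Affine.linePolynomial
    simp only [map_add, map_mul, map_sub, pol_C]
    have e5 : pol W L X = fx W L := rfl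
    rw [e5]
    ring
  have hneg : φ W.negPolynomial = -fy W L -
      (algebraMap K L W.a₁ * fx W L + algebraMap K L W.a₃) := by
    unfold Affine.negPolynomial
    rw [map_sub, map_neg, hY, hC, map_add, map_mul, pol_C, pol_C]
    rfl
  have e4 : (fy W L - (algebraMap K L lam * fx W L + algebraMap K L (r₁ - lam * q₁))) *
      (-fy W L - (algebraMap K L W.a₁ * fx W L + algebraMap K L W.a₃) -
        (algebraMap K L lam * fx W L + algebraMap K L (r₁ - lam * q₁))) =
      -((fx W L - algebraMap K L q₁) * (fx W L - algebraMap K L q₂) *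
        (fx W L - algebraMap K L (W.addX q₁ q₂ lam))) := by
    have h1 : algebraMap W.CoordinateRing L (Affine.CoordinateRing.mk W
        ((X - C (Affine.linePolynomial q₁ r₁ lam)) *
          (W.negPolynomial - C (Affine.linePolynomial q₁ r₁ lam)))) =
        (fy W L - (algebraMap K L lam * fx W L + algebraMap K L (r₁ - lam * q₁))) *
      (-fy W L - (algebraMap K L W.a₁ * fx W L + algebraMap K L W.a₃) -
        (algebraMap K L lam * fx W L + algebraMap K L (r₁ - lam * q₁))) := by
      have h2 : algebraMap W.CoordinateRing L (Affine.CoordinateRing.mk W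
        ((X - C (Affine.linePolynomial q₁ r₁ lam)) *
          (W.negPolynomial - C (Affine.linePolynomial q₁ r₁ lam)))) =
        φ ((X - C (Affine.linePolynomial q₁ r₁ lam)) *
          (W.negPolynomial - C (Affine.linePolynomial q₁ r₁ lam))) := by
        rw [hφ]
        rfl
      rw [h2, map_mul, map_sub, map_sub, hY, hneg, hC, hline]
    rw [← h1, e3, map_neg, map_mul, map_mul]
    have hX : ∀ q : K, algebraMap W.CoordinateRing L (Affine.CoordinateRing.XClass W q) =
        fx W L - algebraMap K L q := by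
      intro q
      have h3 : algebraMap W.CoordinateRing L (Affine.CoordinateRing.XClass W q) =
        pol W L (X - C q) := rfl
      rw [h3, map_sub, pol_C]
      rfl
    rw [hX, hX, hX]
  have hne := neg_ne_zero.2 (mul_ne_zero (mul_ne_zero (x_sub_ne (W := W) L q₁)
    (x_sub_ne (W := W) L q₂)) (x_sub_ne (W := W) L (W.addX q₁ q₂ lam)))
  rw [← e4] at hne
  have hl0 := left_ne_zero_of_mul hne
  have hl0' := right_ne_zero_of_mul hne
  refine ⟨Units.mk0 _ (x_sub_ne (W := W) L q₁), Units.mk0 _ (x_sub_ne (W := W) L q₂),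
    Units.mk0 _ (x_sub_ne (W := W) L (W.addX q₁ q₂ lam)), Units.mk0 _ hl0, Units.mk0 _ hl0', ?_⟩
  refine ⟨rfl, rfl, rfl, rfl, rfl, ?_⟩
  apply Units.ext
  exact e4

/-- Three collinear points. -/
theorem exists_third {A B : W.Point} (hA : A ≠ 0) (hB : B ≠ 0) (hAB : A + B ≠ 0) :
    ∃ (q₁ r₁ q₂ r₂ q₃ r₃ lam nu : K) (h₁ : W.Nonsingular q₁ r₁) (h₂ : W.Nonsingular q₂ r₂)
      (h₃ : W.Nonsingular q₃ r₃) (x₁ x₂ x₃ l l' : Lˣ),
      A = .some q₁ r₁ h₁ ∧ B = .some q₂ r₂ h₂ ∧ -(A + B) = .some q₃ r₃ h₃ ∧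
      r₁ = lam * q₁ + nu ∧ r₂ = lam * q₂ + nu ∧ r₃ = lam * q₃ + nu ∧
      Ln W L q₁ q₂ q₃ lam nu x₁ x₂ x₃ l l' := by
  rcases A with _ | ⟨q₁, r₁, h₁⟩
  · exact absurd rfl hA
  rcases B with _ | ⟨q₂, r₂, h₂⟩
  · exact absurd rfl hB
  have hxy : ¬ (q₁ = q₂ ∧ r₁ = W.negY q₂ r₂) := by
    rintro ⟨h3, h4⟩
    subst h3
    subst h4
    exact hAB (Affine.Point.add_of_Y_eq rfl rfl)
  obtain ⟨x₁, x₂, x₃, l, l', H⟩ := exists_line L h₁.1 h₂.1 hxy _ rfl
  set lam := W.slope q₁ q₂ r₁ r₂ with hlam
  have e1 := Affine.Point.add_some hxy (h₁ := h₁) (h₂ := h₂)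
  have e2 : -(Affine.Point.some q₁ r₁ h₁ + Affine.Point.some q₂ r₂ h₂) =
      Affine.Point.some (W.addX q₁ q₂ lam) (W.negY (W.addX q₁ q₂ lam) (W.addY q₁ q₂ r₁ lam))
        (Affine.nonsingular_neg _ _ |>.2 (Affine.nonsingular_add h₁ h₂ hxy)) := by
    rw [e1, Affine.Point.neg_some]
  refine ⟨q₁, r₁, q₂, r₂, _, _, lam, r₁ - lam * q₁, h₁, h₂, _, x₁, x₂, x₃, l, l', rfl, rfl, e2,
    by ring, ?_, ?_, H⟩
  · by_cases hq : q₁ = q₂
    · have hr : r₁ = r₂ := by
        rcases Affine.Y_eq_of_X_eq h₁.1 h₂.1 hq with h | h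
        · exact h
        · exact absurd ⟨hq, h⟩ hxy
      rw [← hq, ← hr]
      ring
    · have h3 := Affine.slope_of_X_ne (W := W) (y₁ := r₁) (y₂ := r₂) hq
      rw [← hlam] at h3
      have h4 : q₁ - q₂ ≠ 0 := sub_ne_zero.2 hq
      rw [h3]
      field_simp
      ring
  · unfold Affine.addY
    rw [Affine.negY_negY]
    unfold Affine.negAddY
    ring

end

end Pool.Agent.H442.SK
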