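import Pool.Agent.H442.SKf
set_option autoImplicit false
set_option linter.unusedSectionVars false

/-!
Additivity of `{Q, a}` and of `{Q, ψ(Q)}` in the point `Q` of a torsion-free group of points.
-/

namespace Pool.Agent.H442.SK

open scoped WithZero TensorProduct
open Polynomial WeierstrassCurve

section

variable {K : Type*} [Field K] [DecidableEq K] {W : Affine K} (L : Type*) [Field L] [Algebra K L]
  [Algebra W.CoordinateRing L] [IsScalarTower K W.CoordinateRing L]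
  [IsFractionRing W.CoordinateRing L]

/-- A non-zero element as a unit (and `1` for `0`). -/
noncomputable def un (a : K) : Kˣ :=
  open Classical in if h : a = 0 then 1 else Units.mk0 a h

theorem un_val {a : K} (h : a ≠ 0) : ((un a : Kˣ) : K) = a := by
  unfold un
  rw [dif_neg h, Units.val_mk0]

theorem un_eq {a : K} {u : Kˣ} (h : (u : K) = a) : un a = u := by
  have ha : a ≠ 0 := h ▸ u.ne_zero
  apply Units.ext
  rw [un_val ha, h]

theorem un_mul {a b : K} (ha : a ≠ 0) (hb : b ≠ 0) : un (a * b) = un a * un b := by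
  apply Units.ext
  rw [un_val (mul_ne_zero ha hb), Units.val_mul, un_val ha, un_val hb]

theorem un_pow {a : K} (ha : a ≠ 0) (n : ℕ) : un (a ^ n) = un a ^ n := by
  apply Units.ext
  rw [un_val (pow_ne_zero n ha), Units.val_pow_eq_pow_val, un_val ha]

theorem un_neg (a : K) (ha : a ≠ 0) : un (-a) = -un a := by
  apply Units.ext
  rw [un_val (neg_ne_zero.2 ha), Units.val_neg, un_val ha]

theorem x_ne {q₁ r₁ q₂ r₂ : K} {h₁ : W.Nonsingular q₁ r₁} {h₂ : W.Nonsingular q₂ r₂}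
    (h : Affine.Point.some q₁ r₁ h₁ ≠ Affine.Point.some q₂ r₂ h₂)
    (h' : Affine.Point.some q₁ r₁ h₁ ≠ -Affine.Point.some q₂ r₂ h₂) : q₁ ≠ q₂ := by
  intro hq
  subst hq
  rcases Affine.Y_eq_of_X_eq h₁.1 h₂.1 rfl with h3 | h3
  · subst h3
    exact h rfl
  · subst h3
    rw [Affine.Point.neg_some] at h'
    exact h' rfl

theorem psi_ne {q r : K} {h : W.Nonsingular q r}
    (h' : Affine.Point.some q r h ≠ -Affine.Point.some q r h) : r - W.negY q r ≠ 0 := by
  intro h3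
  rw [Affine.Point.neg_some] at h'
  apply h'
  have h4 : r = W.negY q r := sub_eq_zero.1 h3
  congr 1

theorem br_negpt {Q : W.Point} (hQ : Q ≠ -Q) (a : Kˣ) : br L (-Q) a = -br L Q a := by
  rcases Q with _ | ⟨q, r, h⟩
  · exact absurd rfl hQ
  · have h1 := tame_vert (L := L) h (sub_ne_zero.1 (psi_ne hQ))
      (t := Units.mk0 _ (x_sub_ne (W := W) L q)) rfl a
    have h2 := mk_eq_zero L h1
    have e : pm L (.some q r h) a + pm L (-(Affine.Point.some q r h)) a -
        2 • pm L (0 : W.Point) a = (pm L (.some q r h) a - pm L (0 : W.Point) a) +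
        (pm L (-(Affine.Point.some q r h)) a - pm L (0 : W.Point) a) := by
      rw [two_smul]
      abel
    rw [e, map_add] at h2
    exact eq_neg_of_add_eq_zero_right h2

/-- The relations of a line through three different points. -/
theorem rel_line {A B C : W.Point} (hA : A ≠ 0) (hB : B ≠ 0) (hC : C ≠ 0) (hABC : A + B + C = 0)
    (hA2 : A ≠ -A) (hB2 : B ≠ -B) (hC2 : C ≠ -C) (hAB : A ≠ B) (hAC : A ≠ C) (hBC : B ≠ C) :
    (∀ a : Kˣ, br L A a + br L B a + br L C a = 0) ∧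
      2 • br L A (un (psi A)) - br L A (un (xc A - xc B)) - br L A (un (xc A - xc C)) +
        br L B (un (xc A - xc B)) + br L C (un (xc A - xc C)) = 0 := by
  have hAB' : A ≠ -B := by
    intro h
    rw [h, neg_add_cancel, zero_add] at hABC
    exact hC hABC
  have hAC' : A ≠ -C := by
    intro h
    rw [h] at hABC
    have h1 : B = 0 := by
      have h2 : -C + B + C = B := by abel
      rwa [h2] at hABC
    exact hB h1
  have hBC' : B ≠ -C := by
    intro h
    rw [h] at hABC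
    have h1 : A = 0 := by
      have h2 : A + -C + C = A := by abel
      rwa [h2] at hABC
    exact hA h1
  have hAB0 : A + B ≠ 0 := fun h => hAB' (eq_neg_of_add_eq_zero_left h)
  obtain ⟨q₁, r₁, q₂, r₂, q₃, r₃, lam, nu, h₁, h₂, h₃, x₁, x₂, x₃, l, l', e₁, e₂, e₃, hr₁, hr₂,
    hr₃, H⟩ := exists_third L hA hB hAB0
  have hCe : C = -(A + B) := eq_neg_of_add_eq_zero_right hABC
  rw [← hCe] at e₃
  subst e₁ e₂ e₃
  have n12 := x_ne hAB hAB'
  have n13 := x_ne hAC hAC'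
  have n23 := x_ne hBC hBC'
  have p₁ := psi_ne hA2
  have p₂ := psi_ne hB2
  have p₃ := psi_ne hC2
  constructor
  · intro a
    have h1 := tame_const H hr₁ hr₂ hr₃ h₁ h₂ h₃ (ψ₁ := Units.mk0 _ p₁) (ψ₂ := Units.mk0 _ p₂)
      (ψ₃ := Units.mk0 _ p₃) rfl rfl rfl n12 n13 n23 a
    have h2 := mk_eq_zero L h1
    unfold br
    rw [← map_add, ← map_add, ← h2]
    congr 1
    have e : (3 : ℕ) • pm L (0 : W.Point) a = pm L (0 : W.Point) a + pm L (0 : W.Point) a +
      pm L (0 : W.Point) a := by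
      rw [show (3 : ℕ) = 2 + 1 from rfl, add_smul, two_smul, one_smul]
    rw [e]
    abel
  · have h1 := tame_one H hr₁ hr₂ hr₃ h₁ h₂ h₃ (ψ₁ := Units.mk0 _ p₁) (ψ₂ := Units.mk0 _ p₂)
      (ψ₃ := Units.mk0 _ p₃) (d₁₂ := Units.mk0 _ (sub_ne_zero.2 n12))
      (d₁₃ := Units.mk0 _ (sub_ne_zero.2 n13)) rfl rfl rfl rfl rfl n23
    have h2 := mk_eq_zero L h1
    have u1 : un (psi (Affine.Point.some q₁ r₁ h₁)) = Units.mk0 _ p₁ := un_eq rfl
    have u2 : un (xc (Affine.Point.some q₁ r₁ h₁) - xc (Affine.Point.some q₂ r₂ h₂)) =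
      Units.mk0 _ (sub_ne_zero.2 n12) := un_eq rfl
    have u3 : un (xc (Affine.Point.some q₁ r₁ h₁) - xc (Affine.Point.some q₃ r₃ h₃)) =
      Units.mk0 _ (sub_ne_zero.2 n13) := un_eq rfl
    rw [u1, u2, u3]
    have h3 := br_negpt L hA2 (Units.mk0 _ p₁)
    have h4 : 2 • br L (Affine.Point.some q₁ r₁ h₁) (Units.mk0 _ p₁) =
        br L (Affine.Point.some q₁ r₁ h₁) (Units.mk0 _ p₁) -
          br L (-Affine.Point.some q₁ r₁ h₁) (Units.mk0 _ p₁) := by
      rw [h3, two_smul, sub_neg_eq_add]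
    rw [h4]
    unfold br
    rw [← map_sub, ← map_sub, ← map_sub, ← map_add, ← map_add, ← h2]
    congr 1
    abel

/-- The relations of a tangent. -/
theorem rel_tan {A C : W.Point} (hA : A ≠ 0) (hC : C ≠ 0) (hAC0 : A + A + C = 0)
    (hA2 : A ≠ -A) (hC2 : C ≠ -C) (hAC : A ≠ C) :
    (∀ a : Kˣ, 2 • br L A a + br L C a = 0) ∧
      2 • br L A (un (psi A)) - br L A (un (xc A - xc C)) + br L C (un (xc A - xc C)) = 0 ∧
      2 • br L C (un (psi C)) - 2 • br L C (un (xc A - xc C)) +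
        2 • br L A (un (xc A - xc C)) = 0 := by
  have hAC' : A ≠ -C := by
    intro h
    rw [h] at hAC0
    have h1 : C = 0 := by
      have h2 : -C + -C + C = -C := by abel
      rw [h2] at hAC0
      exact neg_eq_zero.1 hAC0
    exact hC h1
  have hAA0 : A + A ≠ 0 := fun h => hA2 (eq_neg_of_add_eq_zero_left h)
  obtain ⟨q₁, r₁, q₂, r₂, q₃, r₃, lam, nu, h₁, h₂, h₃, x₁, x₂, x₃, l, l', e₁, e₂, e₃, hr₁, hr₂,
    hr₃, H⟩ := exists_third L hA hA hAA0
  have hCe : C = -(A + A) := eq_neg_of_add_eq_zero_right hAC0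
  rw [← hCe] at e₃
  subst e₁ e₃
  have h12 : q₂ = q₁ := by
    injection e₂ with h _
    exact h.symm
  subst h12
  have hx12 : x₂ = x₁ := by
    apply Units.ext
    rw [H.h₁, H.h₂]
  subst hx12
  have n13 := x_ne hAC hAC'
  have p₁ := psi_ne hA2
  have p₃ := psi_ne hC2
  obtain ⟨k1, k2, k3⟩ := tame_tan H hr₁ hr₃ h₁ h₃ (ψ₁ := Units.mk0 _ p₁)
    (ψ₃ := Units.mk0 _ p₃) (d₁₃ := Units.mk0 _ (sub_ne_zero.2 n13)) rfl rfl rfl
  have u1 : un (psi (Affine.Point.some _ r₁ h₁)) = Units.mk0 _ p₁ := un_eq rfl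
  have u2 : un (psi (Affine.Point.some q₃ r₃ h₃)) = Units.mk0 _ p₃ := un_eq rfl
  have u3 : un (xc (Affine.Point.some _ r₁ h₁) - xc (Affine.Point.some q₃ r₃ h₃)) =
    Units.mk0 _ (sub_ne_zero.2 n13) := un_eq rfl
  refine ⟨fun a => ?_, ?_, ?_⟩
  · have h2 := mk_eq_zero L (k3 a)
    unfold br
    rw [two_smul, ← map_add, ← map_add, ← h2]
    congr 1
    have e : (3 : ℕ) • pm L (0 : W.Point) a = pm L (0 : W.Point) a + pm L (0 : W.Point) a +
      pm L (0 : W.Point) a := by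
      rw [show (3 : ℕ) = 2 + 1 from rfl, add_smul, two_smul, one_smul]
    rw [e, two_smul]
    abel
  · have h2 := mk_eq_zero L k1
    rw [u1, u3]
    have h3 := br_negpt L hA2 (Units.mk0 _ p₁)
    have h4 : 2 • br L (Affine.Point.some _ r₁ h₁) (Units.mk0 _ p₁) =
        br L (Affine.Point.some _ r₁ h₁) (Units.mk0 _ p₁) -
          br L (-Affine.Point.some _ r₁ h₁) (Units.mk0 _ p₁) := by
      rw [h3, two_smul, sub_neg_eq_add]
    rw [h4]
    unfold br
    rw [← map_sub, ← map_sub, ← map_add, ← h2]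
    congr 1
    abel
  · have h2 := mk_eq_zero L k2
    rw [u2, u3]
    have h3 := br_negpt L hC2 (Units.mk0 _ p₃)
    have h4 : 2 • br L (Affine.Point.some q₃ r₃ h₃) (Units.mk0 _ p₃) =
        br L (Affine.Point.some q₃ r₃ h₃) (Units.mk0 _ p₃) -
          br L (-Affine.Point.some q₃ r₃ h₃) (Units.mk0 _ p₃) := by
      rw [h3, two_smul, sub_neg_eq_add]
    rw [h4]
    unfold br
    rw [two_smul, two_smul, ← map_sub, ← map_add, ← map_add, ← map_sub, ← map_add, ← h2]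
    congr 1
    rw [two_smul, two_smul]
    abel

/-- A torsion-free subgroup. -/
def TF (Λ : AddSubgroup W.Point) : Prop := ∀ Q ∈ Λ, ∀ n : ℕ, 0 < n → n • Q = 0 → Q = 0

theorem TF.two {Λ : AddSubgroup W.Point} (h : TF Λ) {Q : W.Point} (hQ : Q ∈ Λ) (h0 : Q ≠ 0) :
    Q ≠ -Q := by
  intro h1
  refine h0 (h Q hQ 2 two_pos ?_)
  rw [two_smul]
  nth_rw 2 [h1]
  exact add_neg_cancel Q

theorem TF.three {Λ : AddSubgroup W.Point} (h : TF Λ) {Q : W.Point} (hQ : Q ∈ Λ) (h0 : Q ≠ 0) :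
    Q ≠ -(Q + Q) := by
  intro h1
  refine h0 (h Q hQ 3 three_pos ?_)
  rw [show (3 : ℕ) = 2 + 1 from rfl, add_smul, two_smul, one_smul]
  nth_rw 3 [h1]
  exact add_neg_cancel _

theorem TF.tan {Λ : AddSubgroup W.Point} (h : TF Λ) {Q : W.Point} (hQ : Q ∈ Λ) (h0 : Q ≠ 0) :
    (∀ a : Kˣ, 2 • br L Q a + br L (-(Q + Q)) a = 0) ∧
      2 • br L Q (un (psi Q)) - br L Q (un (xc Q - xc (-(Q + Q)))) +
        br L (-(Q + Q)) (un (xc Q - xc (-(Q + Q)))) = 0 ∧
      2 • br L (-(Q + Q)) (un (psi (-(Q + Q)))) -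
        2 • br L (-(Q + Q)) (un (xc Q - xc (-(Q + Q)))) +
        2 • br L Q (un (xc Q - xc (-(Q + Q)))) = 0 := by
  have hm : -(Q + Q) ∈ Λ := Λ.neg_mem (Λ.add_mem hQ hQ)
  have hne : -(Q + Q) ≠ 0 := by
    intro h1
    exact h.two hQ h0 (eq_neg_of_add_eq_zero_left (neg_eq_zero.1 h1))
  exact rel_tan L h0 hne (add_neg_cancel _) (h.two hQ h0) (h.two hm hne) (h.three hQ h0)

/-- The class `{Q, ψ(Q)}`. -/
noncomputable def lam (Q : W.Point) : SKone K L := br L Q (un (psi Q))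

theorem psi_negpt (Q : W.Point) : psi (-Q) = -psi Q := by
  rcases Q with _ | ⟨q, r, h⟩
  · have e : (-(Affine.Point.zero : W.Point)) = Affine.Point.zero := rfl
    rw [e]
    unfold psi
    rw [neg_zero]
  · rw [Affine.Point.neg_some]
    show W.negY q r - W.negY q (W.negY q r) = -(r - W.negY q r)
    rw [Affine.negY_negY]
    ring

theorem xc_negpt (Q : W.Point) : xc (-Q) = xc Q := by
  rcases Q with _ | ⟨q, r, h⟩
  · rfl
  · rw [Affine.Point.neg_some]
    rfl

theorem psi_ne' {Q : W.Point} (hQ : Q ≠ -Q) : psi Q ≠ 0 := by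
  rcases Q with _ | ⟨q, r, h⟩
  · exact absurd rfl hQ
  · exact psi_ne hQ

theorem lam_negpt {Q : W.Point} (hQ : Q ≠ -Q) : lam L (-Q) = -lam L Q := by
  unfold lam
  rw [psi_negpt, un_neg _ (psi_ne' hQ), br_neg, br_negpt L hQ]

theorem xc_ne {A B : W.Point} (hA : A ≠ 0) (hB : B ≠ 0) (h : A ≠ B) (h' : A ≠ -B) :
    xc A ≠ xc B := by
  rcases A with _ | ⟨q₁, r₁, h₁⟩
  · exact absurd rfl hA
  rcases B with _ | ⟨q₂, r₂, h₂⟩
  · exact absurd rfl hB
  exact x_ne h h'

/-- Additivity in the point. -/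
theorem TF.add {Λ : AddSubgroup W.Point} (h : TF Λ) {Q R : W.Point} (hQ : Q ∈ Λ) (hR : R ∈ Λ) :
    (∀ a : Kˣ, br L (Q + R) a = br L Q a + br L R a) ∧
      lam L (Q + R) = lam L Q + lam L R := by
  have lam0 : lam L (0 : W.Point) = 0 := br_zero L _
  -- the tangent case
  have tan : ∀ A ∈ Λ, A ≠ 0 → (∀ a : Kˣ, br L (-(A + A)) a = -(2 • br L A a)) ∧
      lam L (-(A + A)) = -(2 • lam L A) := by
    intro A hA hA0
    obtain ⟨t1, t2, t3⟩ := h.tan L hA hA0
    have s1 : ∀ a : Kˣ, br L (-(A + A)) a = -(2 • br L A a) := fun a =>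
      eq_neg_of_add_eq_zero_right (t1 a)
    refine ⟨s1, ?_⟩
    unfold lam
    rw [s1 (un (xc A - xc (-(A + A))))] at t2 t3
    set D := br L A (un (xc A - xc (-(A + A)))) with hD
    set P := br L A (un (psi A)) with hP
    set R' := br L (-(A + A)) (un (psi (-(A + A)))) with hR'
    linear_combination (norm := module) (1 / 2 : ℚ) • t3 + t2
  have dbl : ∀ A ∈ Λ, A ≠ 0 → (∀ a : Kˣ, br L (A + A) a = br L A a + br L A a) ∧
      lam L (A + A) = lam L A + lam L A := by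
    intro A hA hA0
    obtain ⟨t1, t2⟩ := tan A hA hA0
    have hm : -(A + A) ∈ Λ := Λ.neg_mem (Λ.add_mem hA hA)
    have hne : -(A + A) ≠ 0 := by
      intro h1
      exact h.two hA hA0 (eq_neg_of_add_eq_zero_left (neg_eq_zero.1 h1))
    have h2 := h.two hm hne
    constructor
    · intro a
      have h3 := br_negpt L h2 a
      rw [neg_neg] at h3
      rw [h3, t1 a, neg_neg, two_smul]
    · have h3 := lam_negpt L h2
      rw [neg_neg] at h3
      rw [h3, t2, neg_neg, two_smul]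
  by_cases hQ0 : Q = 0
  · rw [hQ0, zero_add]
    exact ⟨fun a => by rw [br_zero, zero_add], by rw [lam0, zero_add]⟩
  by_cases hR0 : R = 0
  · rw [hR0, add_zero]
    exact ⟨fun a => by rw [br_zero, add_zero], by rw [lam0, add_zero]⟩
  have hQ2 := h.two hQ hQ0
  have hR2 := h.two hR hR0
  by_cases h1 : Q + R = 0
  · have h2 : R = -Q := eq_neg_of_add_eq_zero_right h1
    rw [h1, h2, lam_negpt L hQ2, lam0, add_neg_cancel]
    exact ⟨fun a => by rw [br_zero, br_negpt L hQ2, add_neg_cancel], rfl⟩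
  by_cases h2 : Q = R
  · rw [← h2]
    exact dbl Q hQ hQ0
  by_cases h3 : R = -(Q + Q)
  · obtain ⟨t1, t2⟩ := tan Q hQ hQ0
    have e : Q + R = -Q := by
      rw [h3]
      abel
    rw [e, h3, lam_negpt L hQ2, t2]
    constructor
    · intro a
      rw [br_negpt L hQ2, t1 a]
      module
    · module
  by_cases h4 : Q = -(R + R)
  · obtain ⟨t1, t2⟩ := tan R hR hR0
    have e : Q + R = -R := by
      rw [h4]
      abel
    rw [e, h4, lam_negpt L hR2, t2]
    constructor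
    · intro a
      rw [br_negpt L hR2, t1 a]
      module
    · module
  -- the generic case
  set C : W.Point := -(Q + R) with hC
  have hCm : C ∈ Λ := Λ.neg_mem (Λ.add_mem hQ hR)
  have hC0 : C ≠ 0 := by
    rw [hC, neg_ne_zero]
    exact h1
  have hC2 := h.two hCm hC0
  have hs : Q + R + C = 0 := add_neg_cancel _
  have hQC : Q ≠ C := by
    intro h5
    apply h3
    rw [← h5] at hs
    have h6 : R + (Q + Q) = 0 := by rw [← hs]; abel
    exact eq_neg_of_add_eq_zero_left h6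
  have hRC : R ≠ C := by
    intro h5
    apply h4
    rw [← h5] at hs
    have h6 : Q + (R + R) = 0 := by rw [← hs]; abel
    exact eq_neg_of_add_eq_zero_left h6
  obtain ⟨s1, s2⟩ := rel_line L hQ0 hR0 hC0 hs hQ2 hR2 hC2 h2 hQC hRC
  obtain ⟨-, s3⟩ := rel_line L hR0 hC0 hQ0 (by rw [← hs]; abel) hR2 hC2 hQ2 hRC (Ne.symm h2)
    (Ne.symm hQC)
  obtain ⟨-, s4⟩ := rel_line L hC0 hQ0 hR0 (by rw [← hs]; abel) hC2 hQ2 hR2 (Ne.symm hQC)
    (Ne.symm hRC) h2
  have hQR' : Q + R = -C := by rw [hC, neg_neg]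
  have hdiff : ∀ (X Y Z : W.Point), xc X ≠ xc Y → br L Z (un (xc X - xc Y)) =
      br L Z (un (xc Y - xc X)) := by
    intro X Y Z hXY
    rw [← neg_sub, un_neg _ (sub_ne_zero.2 (Ne.symm hXY)), br_neg]
  have hRQ : xc R ≠ xc Q := xc_ne hR0 hQ0 (Ne.symm h2) fun h5 => h1 (by rw [h5]; abel)
  have hCQ : xc C ≠ xc Q := xc_ne hC0 hQ0 (Ne.symm hQC) fun h5 => hR0 (by
    have : R = -Q - C := by rw [← sub_eq_zero, ← hs]; abel
    rw [this, h5]; abel)
  have hCR : xc C ≠ xc R := xc_ne hC0 hR0 (Ne.symm hRC) fun h5 => hQ0 (by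
    have : Q = -R - C := by rw [← sub_eq_zero, ← hs]; abel
    rw [this, h5]; abel)
  rw [hQR', lam_negpt L hC2]
  constructor
  · intro a
    rw [br_negpt L hC2]
    have := s1 a
    exact (eq_neg_of_add_eq_zero_left this).symm
  · rw [hdiff R Q R hRQ, hdiff R Q Q hRQ] at s3
    rw [hdiff C Q C hCQ, hdiff C Q Q hCQ, hdiff C R C hCR, hdiff C R R hCR] at s4
    unfold lam
    linear_combination (norm := module) (-1 / 2 : ℚ) • (s2 + s3 + s4)

end

end Pool.Agent.H442.SK
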