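import Pool.Agent.H442.SKg
set_option autoImplicit false
set_option linter.unusedSectionVars false

/-!
The classes `{P, x(aP) - x(bP)}`.
-/

namespace Pool.Agent.H442.SK

open scoped WithZero TensorProduct
open Polynomial WeierstrassCurve

section

variable {K : Type*} [Field K] [DecidableEq K] {W : Affine K}

/-- The symmetric polynomial of three `x`-coordinates. -/
def Psi (W : Affine K) (a b c : K) : K :=
  a ^ 2 * b ^ 2 + b ^ 2 * c ^ 2 + c ^ 2 * a ^ 2 - 2 * a * b * c * (a + b + c) -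
    (W.a₁ ^ 2 + 4 * W.a₂) * (a * b * c) - (2 * W.a₄ + W.a₁ * W.a₃) * (a * b + b * c + c * a) -
    (W.a₃ ^ 2 + 4 * W.a₆) * (a + b + c) -
    (W.a₁ ^ 2 * W.a₆ + 4 * W.a₂ * W.a₆ - W.a₁ * W.a₃ * W.a₄ + W.a₂ * W.a₃ ^ 2 - W.a₄ ^ 2)

theorem Psi_comm (a b c : K) : Psi W a b c = Psi W a c b := by
  unfold Psi
  ring

theorem Psi_comm' (a b c : K) : Psi W a b c = Psi W b a c := by
  unfold Psi
  ring

theorem add_sub_identity {A B : W.Point} (hA : A ≠ 0) (hB : B ≠ 0) (h : A ≠ B) (h' : A ≠ -B)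
    (c : K) : (xc (A + B) - c) * (xc (A - B) - c) * (xc A - xc B) ^ 2 =
      Psi W (xc A) (xc B) c := by
  rcases A with _ | ⟨a, α, hα⟩
  · exact absurd rfl hA
  rcases B with _ | ⟨b, β, hβ⟩
  · exact absurd rfl hB
  have hab : a ≠ b := x_ne h h'
  have hD : a - b ≠ 0 := sub_ne_zero.2 hab
  rw [sub_eq_add_neg (Affine.Point.some a α hα), Affine.Point.neg_some,
    Affine.Point.add_some (fun h3 => hab h3.1), Affine.Point.add_some (fun h3 => hab h3.1)]
  show (W.addX a b (W.slope a b α β) - c) * (W.addX a b (W.slope a b α (W.negY b β)) - c) *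
    (a - b) ^ 2 = Psi W a b c
  rw [Affine.slope_of_X_ne hab, Affine.slope_of_X_ne hab]
  unfold Affine.addX Affine.negY Psi
  have EA := (Affine.equation_iff a α).1 hα.1
  have EB := (Affine.equation_iff b β).1 hβ.1
  field_simp
  linear_combination
    (((α - β) * (α + β + W.a₁ * b + W.a₃) + (a - b) * (a ^ 2 + a * b + b ^ 2 + W.a₂ * (a + b) +
      W.a₄ - W.a₁ * α)) + W.a₁ * (a - b) * (2 * α + W.a₁ * b + W.a₃) + W.a₁ ^ 2 * (a - b) ^ 2 +
      2 * ((W.a₂ + a + b + c) * (a - b) ^ 2)) * (EA - EB) +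
    (-W.a₁ ^ 2 * (a - b) ^ 2 - 4 * ((W.a₂ + a + b + c) * (a - b) ^ 2)) * EA

theorem dbl_identity {B : W.Point} (h' : B ≠ -B) (c : K) :
    (xc (B + B) - c) * psi B ^ 2 = Psi W (xc B) (xc B) c := by
  rcases B with _ | ⟨b, β, hβ⟩
  · exact absurd rfl h'
  have hp := psi_ne h'
  rw [Affine.Point.add_some (fun h3 => hp (sub_eq_zero.2 h3.2))]
  show (W.addX b b (W.slope b b β β) - c) * (β - W.negY b β) ^ 2 = Psi W b b c
  rw [Affine.slope_of_Y_ne rfl (sub_ne_zero.1 hp)]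
  have EB := (Affine.equation_iff b β).1 hβ.1
  unfold Affine.addX
  have e : W.negY b β = -β - W.a₁ * b - W.a₃ := rfl
  rw [e] at hp ⊢
  have hp2 : 2 * β + W.a₁ * b + W.a₃ ≠ 0 := by
    intro h0
    apply hp
    linear_combination h0
  have e2 : β - (-β - W.a₁ * b - W.a₃) = 2 * β + W.a₁ * b + W.a₃ := by ring
  rw [e2]
  have hs := div_mul_cancel₀ (3 * b ^ 2 + 2 * W.a₂ * b + W.a₄ - W.a₁ * β) hp2
  set s := (3 * b ^ 2 + 2 * W.a₂ * b + W.a₄ - W.a₁ * β) / (2 * β + W.a₁ * b + W.a₃) with hsdef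
  unfold Psi
  linear_combination (-W.a₁ ^ 2 - 4 * (W.a₂ + 2 * b + c)) * EB +
    (s * (2 * β + W.a₁ * b + W.a₃) + (3 * b ^ 2 + 2 * W.a₂ * b + W.a₄ - W.a₁ * β) +
      W.a₁ * (2 * β + W.a₁ * b + W.a₃)) * hs

end

section

variable {K : Type*} [Field K] [DecidableEq K] {W : Affine K} (L : Type*) [Field L] [Algebra K L]
  [Algebra W.CoordinateRing L] [IsScalarTower K W.CoordinateRing L]
  [IsFractionRing W.CoordinateRing L]

theorem TF.zsmul_ne {Λ : AddSubgroup W.Point} (h : TF Λ) {P : W.Point} (hP : P ∈ Λ) (h0 : P ≠ 0)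
    {n : ℤ} (hn : n ≠ 0) : n • P ≠ 0 := by
  intro h1
  have h2 : n.natAbs • P = 0 := by
    rcases Int.natAbs_eq n with h3 | h3
    · rw [h3, natCast_zsmul] at h1
      exact h1
    · rw [h3, neg_smul, natCast_zsmul, neg_eq_zero] at h1
      exact h1
  exact h0 (h P hP n.natAbs (Int.natAbs_pos.2 hn) h2)

theorem TF.xc_ne {Λ : AddSubgroup W.Point} (h : TF Λ) {P : W.Point} (hP : P ∈ Λ) (h0 : P ≠ 0)
    {m n : ℤ} (hm : m ≠ 0) (hn : n ≠ 0) (h1 : m ≠ n) (h2 : m ≠ -n) :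
    xc (m • P) ≠ xc (n • P) := by
  refine Pool.Agent.H442.SK.xc_ne (h.zsmul_ne hP h0 hm) (h.zsmul_ne hP h0 hn) ?_ ?_
  · intro h3
    refine h.zsmul_ne hP h0 (sub_ne_zero.2 h1) ?_
    rw [sub_smul, h3, sub_self]
  · intro h3
    refine h.zsmul_ne hP h0 (n := m + n) (fun h4 => h2 (by omega)) ?_
    rw [add_smul, h3, neg_add_cancel]

theorem TF.br_zsmul {Λ : AddSubgroup W.Point} (h : TF Λ) {P : W.Point} (hP : P ∈ Λ) (n : ℤ)
    (a : Kˣ) : br L (n • P) a = n • br L P a := by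
  let f : Λ →+ SKone K L := AddMonoidHom.mk' (fun Q => br L (Q : W.Point) a) fun Q R =>
    (h.add L Q.2 R.2).1 a
  exact map_zsmul f n ⟨P, hP⟩

/-- The classes `{P, x(P) - x(kP)}`. -/
theorem TF.delta {Λ : AddSubgroup W.Point} (h : TF Λ) {P : W.Point} (hP : P ∈ Λ) (h0 : P ≠ 0)
    (k : ℕ) : (3 : ℚ) • br L P (un (xc P - xc (((k + 2 : ℕ) : ℤ) • P))) =
      (2 : ℚ) • lam L P := by
  induction k with
  | zero =>
    obtain ⟨-, t2, -⟩ := h.tan L hP h0
    have e1 : ((0 + 2 : ℕ) : ℤ) • P = P + P := by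
      rw [zero_add, Nat.cast_two, two_zsmul]
    rw [e1]
    have e2 : xc (-(P + P)) = xc (P + P) := xc_negpt _
    rw [e2] at t2
    have e3 : -(P + P) = (-2 : ℤ) • P := by
      rw [neg_smul, two_zsmul]
    rw [e3, h.br_zsmul L hP] at t2
    unfold lam
    linear_combination (norm := module) (-1 : ℚ) • t2
  | succ k ih =>
    set B : W.Point := ((k + 2 : ℕ) : ℤ) • P with hB
    have hB0 : B ≠ 0 := h.zsmul_ne hP h0 (by omega)
    have hBm : B ∈ Λ := Λ.zsmul_mem hP _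
    set C : W.Point := (-((k + 3 : ℕ) : ℤ)) • P with hC
    have hC0 : C ≠ 0 := h.zsmul_ne hP h0 (by omega)
    have hCm : C ∈ Λ := Λ.zsmul_mem hP _
    have hs : P + B + C = 0 := by
      have e1 : P + B + C = ((1 : ℤ) + ((k + 2 : ℕ) : ℤ) + (-((k + 3 : ℕ) : ℤ))) • P := by
        rw [add_smul, add_smul, one_smul]
      rw [e1]
      have e2 : (1 : ℤ) + ((k + 2 : ℕ) : ℤ) + (-((k + 3 : ℕ) : ℤ)) = 0 := by push_cast; ring
      rw [e2, zero_smul]
    have hPB : P ≠ B := by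
      intro h1
      refine h.zsmul_ne hP h0 (n := 1 - ((k + 2 : ℕ) : ℤ)) (by push_cast; omega) ?_
      rw [sub_smul, one_smul, ← hB, ← h1, sub_self]
    have hPC : P ≠ C := by
      intro h1
      refine h.zsmul_ne hP h0 (n := 1 - (-((k + 3 : ℕ) : ℤ))) (by push_cast; omega) ?_
      rw [sub_smul, one_smul, ← hC, ← h1, sub_self]
    have hBC : B ≠ C := by
      intro h1
      refine h.zsmul_ne hP h0 (n := ((k + 2 : ℕ) : ℤ) - (-((k + 3 : ℕ) : ℤ)))
        (by push_cast; omega) ?_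
      rw [sub_smul, ← hC, ← hB, ← h1, sub_self]
    obtain ⟨-, s2⟩ := rel_line L h0 hB0 hC0 hs (h.two hP h0) (h.two hBm hB0) (h.two hCm hC0)
      hPB hPC hBC
    have e3 : xc C = xc (((k + 1 + 2 : ℕ) : ℤ) • P) := by
      rw [hC, neg_smul, xc_negpt]
    rw [e3] at s2
    rw [hB, hC, h.br_zsmul L hP, h.br_zsmul L hP, ← hB] at s2
    unfold lam at ih ⊢
    set D := br L P (un (xc P - xc B)) with hD
    set D' := br L P (un (xc P - xc (((k + 1 + 2 : ℕ) : ℤ) • P))) with hD'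
    set Y := br L P (un (psi P)) with hY
    have e4 : ((k + 2 : ℕ) : ℤ) • D = ((k : ℚ) + 2) • D := by
      rw [← Int.cast_smul_eq_zsmul ℚ]
      push_cast
      rfl
    have e5 : (-((k + 3 : ℕ) : ℤ)) • D' = (-((k : ℚ) + 3)) • D' := by
      rw [← Int.cast_smul_eq_zsmul ℚ]
      push_cast
      rfl
    rw [e4, e5] at s2
    have hk : ((k : ℚ) + 4) ≠ 0 := by positivity
    have e6 : ((k : ℚ) + 4) • ((3 : ℚ) • D') = ((k : ℚ) + 4) • ((2 : ℚ) • Y) := by
      linear_combination (norm := module) (-3 : ℚ) • s2 + ((k : ℚ) + 1) • ih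
    exact smul_right_injective _ hk e6

end

end Pool.Agent.H442.SK
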