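import Pool.Agent.H442.SKh
set_option autoImplicit false
set_option linter.unusedSectionVars false

/-!
The classes `{P, x(aP) - x(bP)}`, in general.
-/

namespace Pool.Agent.H442.SK

open scoped WithZero TensorProduct
open Polynomial WeierstrassCurve

section

variable {K : Type*} [Field K] [DecidableEq K] {W : Affine K} (L : Type*) [Field L] [Algebra K L]
  [Algebra W.CoordinateRing L] [IsScalarTower K W.CoordinateRing L]
  [IsFractionRing W.CoordinateRing L]

theorem br_six (P : W.Point) {u₁ u₂ u₃ u₄ u₅ u₆ : K} (h₁ : u₁ ≠ 0) (h₂ : u₂ ≠ 0) (h₃ : u₃ ≠ 0)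
    (h₄ : u₄ ≠ 0) (h₅ : u₅ ≠ 0) (h₆ : u₆ ≠ 0) (h : u₁ * u₂ * u₃ ^ 2 = u₄ * u₅ * u₆ ^ 2) :
    br L P (un u₁) + br L P (un u₂) + 2 • br L P (un u₃) =
      br L P (un u₄) + br L P (un u₅) + 2 • br L P (un u₆) := by
  have e : un u₁ * un u₂ * un u₃ ^ 2 = un u₄ * un u₅ * un u₆ ^ 2 := by
    rw [← un_pow h₃, ← un_pow h₆, ← un_mul h₁ h₂, ← un_mul h₄ h₅,
      ← un_mul (mul_ne_zero h₁ h₂) (pow_ne_zero 2 h₃),
      ← un_mul (mul_ne_zero h₄ h₅) (pow_ne_zero 2 h₆), h]
  have e1 := congrArg (br L P) e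
  rw [br_mul, br_mul, br_pow, br_mul, br_mul, br_pow] at e1
  exact e1

theorem TF.nat {Λ : AddSubgroup W.Point} (h : TF Λ) {P : W.Point} (hP : P ∈ Λ) (h0 : P ≠ 0)
    (b : ℕ) : ∀ a : ℕ, b + 1 < a →
      (3 : ℚ) • br L P (un (xc ((a : ℤ) • P) - xc (((b + 1 : ℕ) : ℤ) • P))) =
        (2 : ℚ) • lam L P := by
  have hX : ∀ m n : ℤ, m ≠ 0 → n ≠ 0 → m ≠ n → m ≠ -n → xc (m • P) - xc (n • P) ≠ 0 :=
    fun m n hm hn h1 h2 => sub_ne_zero.2 (h.xc_ne hP h0 hm hn h1 h2)
  have hsym : ∀ m n : ℤ, m ≠ 0 → n ≠ 0 → m ≠ n → m ≠ -n →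
      br L P (un (xc (m • P) - xc (n • P))) = br L P (un (xc (n • P) - xc (m • P))) := by
    intro m n hm hn h1 h2
    rw [← neg_sub, un_neg _ (hX n m hn hm h1.symm (by omega)), br_neg]
  have hone : ∀ a : ℕ, 1 < a → (3 : ℚ) • br L P (un (xc ((a : ℤ) • P) - xc ((1 : ℤ) • P))) =
      (2 : ℚ) • lam L P := by
    intro a ha
    obtain ⟨k, rfl⟩ : ∃ k, a = k + 2 := ⟨a - 2, by omega⟩
    rw [hsym _ _ (by omega) (by omega) (by omega) (by omega), one_smul]
    exact h.delta L hP h0 k
  induction b using Nat.strong_induction_on with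
  | _ b ih =>
    intro a ha
    rcases b with _ | b
    · rw [zero_add, Nat.cast_one]
      exact hone a (by omega)
    rcases b with _ | b
    · -- `b = 2`
      have e1 := dbl_identity (h.two hP h0) (xc ((a : ℤ) • P))
      have haP0 := h.zsmul_ne hP h0 (n := (a : ℤ)) (by omega)
      have n1 : P ≠ (a : ℤ) • P := by
        intro h1
        refine h.zsmul_ne hP h0 (n := 1 - (a : ℤ)) (by omega) ?_
        rw [sub_smul, one_smul, ← h1, sub_self]
      have n2 : P ≠ -((a : ℤ) • P) := by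
        intro h1
        refine h.zsmul_ne hP h0 (n := 1 + (a : ℤ)) (by omega) ?_
        rw [add_smul, one_smul]
        nth_rw 1 [h1]
        rw [neg_add_cancel]
      have e2 := add_sub_identity h0 haP0 n1 n2 (xc P)
      rw [Psi_comm, ← e2] at e1
      have p1 : P + P = ((0 + 1 + 1 : ℕ) : ℤ) • P := by
        rw [zero_add]
        norm_num
        rw [two_zsmul]
      have p2 : P + (a : ℤ) • P = ((a : ℤ) + 1) • P := by
        rw [add_smul, one_smul, add_comm]
      have p3 : P - (a : ℤ) • P = -(((a : ℤ) - 1) • P) := by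
        rw [sub_smul, one_smul, neg_sub]
      have p4 : P = (1 : ℤ) • P := (one_smul _ _).symm
      rw [p1, p2, p3, xc_negpt] at e1
      have q1 := hX (((0 + 1 + 1 : ℕ) : ℤ)) a (by norm_num) (by omega) (by push_cast; omega)
        (by push_cast; omega)
      have q2 := hX ((a : ℤ) + 1) 1 (by omega) (by omega) (by omega) (by omega)
      have q3 := hX ((a : ℤ) - 1) 1 (by omega) (by omega) (by omega) (by omega)
      have q4 := hX 1 a (by omega) (by omega) (by omega) (by omega)
      rw [one_smul] at q2 q3 q4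
      have e3 := br_six L P q1 one_ne_zero (psi_ne' (h.two hP h0)) q2 q3 q4 (by
        rw [mul_one]
        exact e1)
      have u1 : un (1 : K) = 1 := un_eq rfl
      rw [u1, br_one, add_zero] at e3
      have r2 := hone (a + 1) (by omega)
      have r3 := hone (a - 1) (by omega)
      have r4 := hone a (by omega)
      rw [hsym _ _ (by omega) (by omega) (by omega) (by omega), one_smul] at r4
      have c2 : ((a + 1 : ℕ) : ℤ) = (a : ℤ) + 1 := by push_cast; rfl
      have c3 : ((a - 1 : ℕ) : ℤ) = (a : ℤ) - 1 := by omega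
      rw [c2, one_smul] at r2
      rw [c3, one_smul] at r3
      rw [hsym _ _ (by omega) (by norm_num) (by push_cast; omega) (by push_cast; omega)]
      unfold lam at *
      linear_combination (norm := module) (3 : ℚ) • e3 + r2 + r3 + (2 : ℚ) • r4
    · -- the recursion
      have b1 := ih (b + 1) (by omega)
      have b0 := ih b (by omega)
      have hBP0 := h.zsmul_ne hP h0 (n := ((b + 2 : ℕ) : ℤ)) (by omega)
      have haP0 := h.zsmul_ne hP h0 (n := (a : ℤ)) (by omega)
      have key : ∀ m n : ℤ, m ≠ 0 → n ≠ 0 → m ≠ n → m ≠ -n → ∀ c : K,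
          (xc ((m + n) • P) - c) * (xc ((m - n) • P) - c) * (xc (m • P) - xc (n • P)) ^ 2 =
            Psi W (xc (m • P)) (xc (n • P)) c := by
        intro m n hm hn h1 h2 c
        rw [add_smul, sub_smul]
        refine add_sub_identity (h.zsmul_ne hP h0 hm) (h.zsmul_ne hP h0 hn) ?_ ?_ c
        · intro h3
          refine h.zsmul_ne hP h0 (sub_ne_zero.2 h1) ?_
          rw [sub_smul, h3, sub_self]
        · intro h3
          refine h.zsmul_ne hP h0 (n := m + n) (fun h4 => h2 (by omega)) ?_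
          rw [add_smul, h3, neg_add_cancel]
      have k1 := key (b + 2) 1 (by omega) (by omega) (by omega) (by omega) (xc ((a : ℤ) • P))
      have k2 := key (b + 2) a (by omega) (by omega) (by omega) (by omega) (xc ((1 : ℤ) • P))
      rw [Psi_comm, ← k2] at k1
      have d1 : ((b : ℤ) + 2 - a) = -((a : ℤ) - (b + 2)) := by ring
      rw [d1, neg_smul, xc_negpt] at k1
      have q1 := hX ((b : ℤ) + 2 + 1) a (by omega) (by omega) (by omega) (by omega)
      have q2 := hX ((b : ℤ) + 2 - 1) a (by omega) (by omega) (by omega) (by omega)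
      have q3 := hX ((b : ℤ) + 2) 1 (by omega) (by omega) (by omega) (by omega)
      have q4 := hX ((b : ℤ) + 2 + a) 1 (by omega) (by omega) (by omega) (by omega)
      have q5 := hX ((a : ℤ) - (b + 2)) 1 (by omega) (by omega) (by omega) (by omega)
      have q6 := hX ((b : ℤ) + 2) a (by omega) (by omega) (by omega) (by omega)
      have e3 := br_six L P q1 q2 q3 q4 q5 q6 k1
      have r2 := b0 a (by omega)
      have r3 := hone (b + 2) (by omega)
      have r4 := hone (b + 2 + a) (by omega)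
      have r5 := hone (a - (b + 2)) (by omega)
      have r6 := b1 a (by omega)
      rw [hsym _ _ (by omega) (by omega) (by omega) (by omega)] at r2 r6
      have c1 : ((b + 1 + 1 + 1 : ℕ) : ℤ) = (b : ℤ) + 2 + 1 := by push_cast; ring
      have c2 : ((b + 1 : ℕ) : ℤ) = (b : ℤ) + 2 - 1 := by push_cast; ring
      have c3 : ((b + 2 : ℕ) : ℤ) = (b : ℤ) + 2 := by push_cast; ring
      have c4 : ((b + 2 + a : ℕ) : ℤ) = (b : ℤ) + 2 + a := by push_cast; ring
      have c5 : ((a - (b + 2) : ℕ) : ℤ) = (a : ℤ) - (b + 2) := by omega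
      have c6 : ((b + 1 + 1 : ℕ) : ℤ) = (b : ℤ) + 2 := by push_cast; ring
      rw [c2] at r2
      rw [c3] at r3
      rw [c4] at r4
      rw [c5] at r5
      rw [c6] at r6
      rw [hsym _ _ (by omega) (by omega) (by omega) (by omega), c1]
      linear_combination (norm := module) (3 : ℚ) • e3 - r2 - (2 : ℚ) • r3 + r4 + r5 +
        (2 : ℚ) • r6

/-- The classes `{P, x(aP) - x(bP)}`. -/
theorem TF.int {Λ : AddSubgroup W.Point} (h : TF Λ) {P : W.Point} (hP : P ∈ Λ) (h0 : P ≠ 0)
    {a b : ℤ} (ha : a ≠ 0) (hb : b ≠ 0) (h1 : a ≠ b) (h2 : a ≠ -b) :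
    (3 : ℚ) • br L P (un (xc (a • P) - xc (b • P))) = (2 : ℚ) • lam L P := by
  have hx : ∀ n : ℤ, xc (n • P) = xc ((n.natAbs : ℤ) • P) := by
    intro n
    rcases Int.natAbs_eq n with h3 | h3
    · rw [← h3]
    · conv_lhs => rw [h3]
      rw [neg_smul, xc_negpt]
  rw [hx a, hx b]
  rcases lt_or_gt_of_ne (show a.natAbs ≠ b.natAbs by omega) with h3 | h3
  · have h4 := h.nat L hP h0 (a.natAbs - 1) b.natAbs (by omega)
    have e : a.natAbs - 1 + 1 = a.natAbs := by omega
    rw [e] at h4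
    rw [← h4, ← neg_sub, un_neg _ (sub_ne_zero.2 (h.xc_ne hP h0 (by omega) (by omega) (by omega)
      (by omega))), br_neg]
  · have h4 := h.nat L hP h0 (b.natAbs - 1) a.natAbs (by omega)
    have e : b.natAbs - 1 + 1 = b.natAbs := by omega
    rw [e] at h4
    exact h4

end

end Pool.Agent.H442.SK
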