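import Pool.Agent.H442.SKi
set_option autoImplicit false
set_option linter.unusedSectionVars false

/-!
The kernel of `a ↦ {P, a}` over a global field has infinite rank.
-/

namespace Pool.Agent.H442.SK

open scoped WithZero TensorProduct
open Polynomial WeierstrassCurve IsDedekindDomain

section

variable {R : Type*} [CommRing R] [IsDedekindDomain R] {K : Type*} [Field K] [Algebra R K]
  [IsFractionRing R K]

/-- The order of a number at a prime. -/
noncomputable def ordK (v : HeightOneSpectrum R) : Additive Kˣ →ₗ[ℤ] ℚ :=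
  AddMonoidHom.toIntLinearMap
    { toFun := fun c => ((-WithZero.log (v.valuation K ((c.toMul : Kˣ) : K)) : ℤ) : ℚ)
      map_zero' := by
        rw [toMul_zero, Units.val_one, map_one, WithZero.log_one, neg_zero, Int.cast_zero]
      map_add' := fun a b => by
        rw [toMul_add, Units.val_mul, map_mul, WithZero.log_mul
          ((Valuation.ne_zero_iff _).2 (Units.ne_zero _))
          ((Valuation.ne_zero_iff _).2 (Units.ne_zero _))]
        push_cast
        ring }

theorem ordK_eq (v : HeightOneSpectrum R) (c : Kˣ) :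
    ordK v (Additive.ofMul c) = ((-WithZero.log (v.valuation K (c : K)) : ℤ) : ℚ) := rfl

theorem ordK_eq_zero_iff (v : HeightOneSpectrum R) (c : Kˣ) :
    ordK v (Additive.ofMul c) = 0 ↔ v.valuation K (c : K) = 1 := by
  have h0 : v.valuation K (c : K) ≠ 0 := (Valuation.ne_zero_iff _).2 c.ne_zero
  rw [ordK_eq, Int.cast_eq_zero, neg_eq_zero]
  constructor
  · intro h
    rw [← WithZero.exp_log h0, h, WithZero.exp_zero]
  · intro h
    rw [h, WithZero.log_one]

theorem ordK_finite (c : Kˣ) : {v : HeightOneSpectrum R | ordK v (Additive.ofMul c) ≠ 0}.Finite := by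
  refine ((HeightOneSpectrum.Support.finite R (c : K)).union
    (HeightOneSpectrum.Support.finite R ((c : K)⁻¹))).subset ?_
  intro v hv
  rw [Set.mem_ofPred_eq, Ne, ordK_eq_zero_iff] at hv
  rcases lt_or_gt_of_ne hv with h | h
  · right
    show 1 < v.valuation K ((c : K)⁻¹)
    rw [map_inv₀]
    have h0 : 0 < v.valuation K (c : K) :=
      zero_lt_iff.2 ((Valuation.ne_zero_iff _).2 c.ne_zero)
    exact (one_lt_inv₀ h0).2 h
  · left
    exact h

/-- The order, extended to `ℚ ⊗ Kˣ`. -/
noncomputable def ordQ (v : HeightOneSpectrum R) : ℚ ⊗[ℤ] Additive Kˣ →ₗ[ℚ] ℚ :=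
  (ordK v).liftBaseChange ℚ

theorem ordQ_tmul (v : HeightOneSpectrum R) (q : ℚ) (c : Additive Kˣ) :
    ordQ v (q ⊗ₜ c) = q * ordK v c := by
  unfold ordQ
  rw [LinearMap.liftBaseChange_tmul, smul_eq_mul]

theorem ordQ_finite (t : ℚ ⊗[ℤ] Additive Kˣ) : {v : HeightOneSpectrum R | ordQ v t ≠ 0}.Finite := by
  induction t using TensorProduct.induction_on with
  | zero =>
    have e : {v : HeightOneSpectrum R | ordQ (K := K) v 0 ≠ 0} = ∅ := by
      ext v
      simp
    rw [e]
    exact Set.finite_empty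
  | tmul q c =>
    refine (ordK_finite (R := R) c.toMul).subset ?_
    intro v hv h0
    apply hv
    rw [ordQ_tmul]
    have : ordK v c = 0 := h0
    rw [this, mul_zero]
  | add a b ha hb =>
    refine (ha.union hb).subset ?_
    intro v hv
    by_contra h
    rw [Set.mem_union, not_or] at h
    have h1 : ordQ v a = 0 := not_not.1 h.1
    have h2 : ordQ v b = 0 := not_not.1 h.2
    exact hv (by rw [map_add, h1, h2, add_zero])

/-- Among infinitely many numbers there are two whose difference is not a unit. -/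
theorem exists_nonunit (v : HeightOneSpectrum R) [Finite (R ⧸ v.asIdeal)] (x : ℕ → K) :
    ∃ m n : ℕ, m < n ∧ v.valuation K (x n - x m) ≠ 1 := by
  by_contra hcon
  push Not at hcon
  have h1 : ∀ n : ℕ, v.valuation K (x (n + 1) - x 0) ≤ 1 := fun n =>
    (hcon 0 (n + 1) (Nat.succ_pos n)).le
  have h2 : ∀ n : ℕ, ∃ r : R, v.valuation K ((x (n + 1) - x 0) - algebraMap R K r) < 1 := by
    intro n
    obtain ⟨r, hr⟩ := v.exists_valuation_sub_lt_of_integer (h1 n) 1
    refine ⟨r, ?_⟩
    rw [Valuation.map_sub_swap]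
    exact hr
  choose r hr using h2
  obtain ⟨m, n, hmn, he⟩ := Finite.exists_ne_map_eq_of_infinite
    (fun n : ℕ => Ideal.Quotient.mk v.asIdeal (r n))
  have h3 : v.valuation K (algebraMap R K (r m) - algebraMap R K (r n)) < 1 := by
    rw [← map_sub]
    exact (v.valuation_lt_one_iff_mem _).2 (Ideal.Quotient.eq.1 he)
  have h4 : v.valuation K (x (m + 1) - x (n + 1)) < 1 := by
    have e : x (m + 1) - x (n + 1) = ((x (m + 1) - x 0) - algebraMap R K (r m)) -
        ((x (n + 1) - x 0) - algebraMap R K (r n)) +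
        (algebraMap R K (r m) - algebraMap R K (r n)) := by ring
    rw [e]
    exact (Valuation.map_add _ _ _).trans_lt (max_lt ((Valuation.map_sub _ _ _).trans_lt
      (max_lt (hr m) (hr n))) h3)
  rcases lt_or_gt_of_ne hmn with h | h
  · have h5 := hcon (m + 1) (n + 1) (by omega)
    rw [Valuation.map_sub_swap] at h5
    exact h4.ne h5
  · exact h4.ne (hcon (n + 1) (m + 1) (by omega))

end

section

variable {R : Type*} [CommRing R] [IsDedekindDomain R] {K : Type*} [Field K] [DecidableEq K]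
  [Algebra R K] [IsFractionRing R K] {W : Affine K} (L : Type*) [Field L] [Algebra K L]
  [Algebra W.CoordinateRing L] [IsScalarTower K W.CoordinateRing L]
  [IsFractionRing W.CoordinateRing L]

/-- The space spanned by the numbers `a` with `{P, a} = 0`, in `ℚ ⊗ Kˣ`. -/
noncomputable def kerSpace (P : W.Point) : Submodule ℚ (ℚ ⊗[ℤ] Additive Kˣ) :=
  Submodule.span ℚ {t | ∃ c : Kˣ, br L P c = 0 ∧ t = 1 ⊗ₜ Additive.ofMul c}

theorem TF.infinite {Λ : AddSubgroup W.Point} (h : TF Λ) {P : W.Point} (hP : P ∈ Λ)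
    (h0 : P ≠ 0) [Infinite (HeightOneSpectrum R)]
    (hfin : ∀ v : HeightOneSpectrum R, Finite (R ⧸ v.asIdeal)) :
    ¬ FiniteDimensional ℚ (kerSpace L P) := by
  intro hfd
  obtain ⟨S, hS⟩ := (Submodule.fg_iff_finiteDimensional (kerSpace L P)).2 hfd
  set c0 : Kˣ := un (xc ((2 : ℤ) • P) - xc ((1 : ℤ) • P)) with hc0
  have hF : (⋃ s ∈ (S : Set (ℚ ⊗[ℤ] Additive Kˣ)),
      {v : HeightOneSpectrum R | ordQ v s ≠ 0}).Finite :=
    Set.Finite.biUnion S.finite_toSet fun s _ => ordQ_finite s
  obtain ⟨v, hv⟩ := (hF.union (ordK_finite (R := R) c0)).infinite_compl.nonempty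
  rw [Set.mem_compl_iff, Set.mem_union, not_or] at hv
  obtain ⟨hv1, hv2⟩ := hv
  have hv2' : ordK v (Additive.ofMul c0) = 0 := not_not.1 hv2
  have hvan : ∀ t ∈ kerSpace L P, ordQ v t = 0 := by
    intro t ht
    rw [← hS] at ht
    have hle : Submodule.span ℚ (S : Set (ℚ ⊗[ℤ] Additive Kˣ)) ≤ LinearMap.ker (ordQ v) := by
      rw [Submodule.span_le]
      intro s hs
      rw [SetLike.mem_coe, LinearMap.mem_ker]
      by_contra h1
      exact hv1 (Set.mem_biUnion hs h1)
    exact LinearMap.mem_ker.1 (hle ht)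
  have := hfin v
  obtain ⟨m, n, hmn, hne⟩ := exists_nonunit v (fun n : ℕ => xc (((n + 1 : ℕ) : ℤ) • P))
  have hx := h.xc_ne hP h0 (m := ((n + 1 : ℕ) : ℤ)) (n := ((m + 1 : ℕ) : ℤ)) (by omega)
    (by omega) (by omega) (by omega)
  set c1 : Kˣ := un (xc (((n + 1 : ℕ) : ℤ) • P) - xc (((m + 1 : ℕ) : ℤ) • P)) with hc1
  have e1 := h.int L hP h0 (a := ((n + 1 : ℕ) : ℤ)) (b := ((m + 1 : ℕ) : ℤ)) (by omega)
    (by omega) (by omega) (by omega)
  have e0 := h.int L hP h0 (a := 2) (b := 1) (by omega) (by omega) (by omega) (by omega)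
  have e2 : br L P (c1 / c0) = 0 := by
    rw [br_div]
    have h3 : (3 : ℚ) • (br L P c1 - br L P c0) = 0 := by
      rw [smul_sub, e1, e0, sub_self]
    exact (smul_eq_zero.1 h3).resolve_left three_ne_zero
  have e3 := hvan _ (Submodule.subset_span ⟨c1 / c0, e2, rfl⟩)
  rw [ordQ_tmul, one_mul, ofMul_div, map_sub, hv2', sub_zero, ordK_eq_zero_iff, hc1,
    un_val (sub_ne_zero.2 hx)] at e3
  exact hne e3

end

end Pool.Agent.H442.SK
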