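import Pool.Agent.H442.SKj
set_option autoImplicit false
set_option linter.unusedSectionVars false

/-!
The places at the rational points of order two, and `4 {Q, ψ(Q)} = {Q, Δ}`.
-/

namespace Pool.Agent.H442.SK

open scoped WithZero TensorProduct
open Polynomial WeierstrassCurve

section

variable {K : Type*} [Field K] {W : Affine K} {L : Type*} [Field L] [Algebra K L]
  [Algebra W.CoordinateRing L] [IsScalarTower K W.CoordinateRing L]
  [IsFractionRing W.CoordinateRing L] (P : Place K L)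

/-- The function `ψ = 2 y + a₁ x + a₃`. -/
noncomputable def fY (W : Affine K) (L : Type*) [Field L] [Algebra K L]
    [Algebra W.CoordinateRing L] : L :=
  2 * fy W L + (algebraMap K L W.a₁ * fx W L + algebraMap K L W.a₃)

/-- `e₁, e₂, e₃` are the `x`-coordinates of the points of order two. -/
structure Two (W : Affine K) (e₁ e₂ e₃ : K) : Prop where
  h2 : (2 : K) ≠ 0
  hb2 : W.b₂ = -4 * (e₁ + e₂ + e₃)
  hb4 : W.b₄ = 2 * (e₁ * e₂ + e₂ * e₃ + e₃ * e₁)
  hb6 : W.b₆ = -4 * (e₁ * e₂ * e₃)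
  h12 : e₁ ≠ e₂
  h23 : e₂ ≠ e₃
  h31 : e₃ ≠ e₁

theorem Two.perm {e₁ e₂ e₃ : K} (H : Two W e₁ e₂ e₃) : Two W e₂ e₃ e₁ :=
  ⟨H.h2, by rw [H.hb2]; ring, by rw [H.hb4]; ring, by rw [H.hb6]; ring, H.h23, H.h31, H.h12⟩

theorem Two.sq {e₁ e₂ e₃ : K} (H : Two W e₁ e₂ e₃) : fY W L ^ 2 =
    4 * ((fx W L - algebraMap K L e₁) * (fx W L - algebraMap K L e₂) *
      (fx W L - algebraMap K L e₃)) := by
  have e := equation (W := W) (L := L)
  have b2 := congrArg (algebraMap K L) H.hb2
  have b4 := congrArg (algebraMap K L) H.hb4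
  have b6 := congrArg (algebraMap K L) H.hb6
  unfold WeierstrassCurve.b₂ at b2
  unfold WeierstrassCurve.b₄ at b4
  unfold WeierstrassCurve.b₆ at b6
  simp only [map_add, map_mul, map_pow, map_neg, map_ofNat] at b2 b4 b6
  unfold fY
  linear_combination 4 * e + (fx W L) ^ 2 * b2 + 2 * fx W L * b4 + b6

/-- The discriminant. -/
theorem Two.disc {e₁ e₂ e₃ : K} (H : Two W e₁ e₂ e₃) :
    W.Δ = 16 * ((e₁ - e₂) * (e₂ - e₃) * (e₃ - e₁)) ^ 2 := by
  have h8 := W.b_relation
  have h4 : (4 : K) ≠ 0 := by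
    have : (4 : K) = 2 * 2 := by norm_num
    rw [this]
    exact mul_ne_zero H.h2 H.h2
  apply mul_left_cancel₀ h4
  unfold WeierstrassCurve.Δ
  rw [H.hb2, H.hb4, H.hb6] at h8 ⊢
  linear_combination (-(-4 * (e₁ + e₂ + e₃)) ^ 2) * h8

theorem two_aux {e₁ e₂ e₃ r : K} (H : Two W e₁ e₂ e₃) (hW : W.Equation e₁ r) :
    r = W.negY e₁ r := by
  have h1 := (Affine.equation_iff e₁ r).1 hW
  have b2 := H.hb2
  have b4 := H.hb4
  have b6 := H.hb6
  unfold WeierstrassCurve.b₂ at b2
  unfold WeierstrassCurve.b₄ at b4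
  unfold WeierstrassCurve.b₆ at b6
  have h3 : (2 * r + W.a₁ * e₁ + W.a₃) ^ 2 = 0 := by
    linear_combination 4 * h1 + e₁ ^ 2 * b2 + 2 * e₁ * b4 + b6
  have h4 := pow_eq_zero_iff (two_ne_zero) |>.1 h3
  unfold Affine.negY
  linear_combination h4

/-- Orders at the points of order two. -/
theorem Two.ord {e₁ e₂ e₃ : K} (H : Two W e₁ e₂ e₃)
    (hx : P.v (fx W L - algebraMap K L e₁) < 1) (t Y : Lˣ)
    (ht : (t : L) = fx W L - algebraMap K L e₁) (hY : (Y : L) = fY W L) :
    P.ord t = 2 ∧ P.ord Y = 1 := by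
  have hxl := v_x_le P hx
  have hv2 : P.v (2 : L) = 1 := by
    have h := P.triv 2 H.h2
    rwa [map_ofNat] at h
  have hv4 : P.v (4 : L) = 1 := by
    have e : (4 : L) = 2 * 2 := by norm_num
    rw [e, map_mul, hv2, one_mul]
  have hYt : 2 * P.ord Y = P.ord t := by
    have h1 := congrArg P.v (H.sq (L := L))
    rw [map_pow, map_mul, map_mul, map_mul, hv4, one_mul, v_sub_cst P H.h12 hx,
      v_sub_cst P H.h31.symm hx, mul_one, mul_one, ← ht, ← hY, P.v_eq, P.v_eq,
      ← WithZero.exp_nsmul, WithZero.exp_inj, nsmul_eq_mul] at h1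
    push_cast at h1
    linear_combination -h1
  set m := P.ord Y with hm
  have hm0 : 0 < m := by
    have h1 : P.v (t : L) < 1 := by rw [ht]; exact hx
    rw [P.v_eq, ← WithZero.exp_zero, WithZero.exp_lt_exp] at h1
    omega
  have hpol : ∀ p : K[X], p ≠ 0 → ∃ n : ℕ, P.v (pol W L p) = WithZero.exp (-(2 * n * m)) := by
    intro p hp
    obtain ⟨s, hs, hs2⟩ := Polynomial.exists_eq_pow_rootMultiplicity_mul_and_not_dvd p hp e₁
    refine ⟨p.rootMultiplicity e₁, ?_⟩
    have h1 : s.eval e₁ ≠ 0 := fun h => hs2 (Polynomial.dvd_iff_isRoot.2 h)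
    have h2 : P.v (pol W L s) = 1 := by
      have h3 := v_pol_sub P hx s
      have e : pol W L s = algebraMap K L (s.eval e₁) +
        (pol W L s - algebraMap K L (s.eval e₁)) := by ring
      have h4 := P.triv _ h1
      rw [e, Valuation.map_add_eq_of_lt_left P.v (by rw [h4]; exact h3), h4]
    have h5 : pol W L (X - C e₁) = t := by
      rw [ht, map_sub, pol_C]
      rfl
    conv_lhs => rw [hs]
    rw [map_mul, map_pow, h5, map_mul, map_pow, h2, mul_one, P.v_eq, ← hYt,
      ← WithZero.exp_nsmul, nsmul_eq_mul]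
    congr 1
    ring
  have hval : ∀ u : W.CoordinateRing, u ≠ 0 → ∃ n : ℤ,
      P.v (algebraMap W.CoordinateRing L u) = WithZero.exp (n * m) := by
    intro u hu
    obtain ⟨p, q, hpq⟩ := exists_rep (L := L) u
    have hu' : algebraMap W.CoordinateRing L u ≠ 0 := by
      rw [Ne, map_eq_zero_iff _ (IsFractionRing.injective W.CoordinateRing L)]
      exact hu
    -- write in terms of `ψ`
    have e1 : 2 * algebraMap W.CoordinateRing L u =
        pol W L (2 * p - q * (C W.a₁ * X + C W.a₃)) + pol W L q * Y := by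
      rw [hpq, hY]
      unfold fY
      simp only [map_sub, map_mul, map_add, pol_C, map_ofNat]
      have e2 : pol W L X = fx W L := rfl
      rw [e2]
      ring
    have e2 : P.v (algebraMap W.CoordinateRing L u) =
        P.v (pol W L (2 * p - q * (C W.a₁ * X + C W.a₃)) + pol W L q * Y) := by
      rw [← e1, map_mul, hv2, one_mul]
    have e3 : pol W L (2 * p - q * (C W.a₁ * X + C W.a₃)) + pol W L q * Y ≠ 0 := by
      intro h
      rw [h, map_zero] at e2
      exact hu' ((Valuation.zero_iff _).1 e2)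
    rw [e2]
    set p' := 2 * p - q * (C W.a₁ * X + C W.a₃) with hp'
    rcases eq_or_ne p' 0 with hp | hp
    · have hq : q ≠ 0 := by
        rintro rfl
        rw [hp, map_zero, zero_mul, zero_add] at e3
        exact e3 rfl
      obtain ⟨n, hn⟩ := hpol q hq
      refine ⟨-(2 * n) - 1, ?_⟩
      rw [hp, map_zero, zero_add, map_mul, hn, P.v_eq, ← hm, ← WithZero.exp_add]
      congr 1
      ring
    · rcases eq_or_ne q 0 with hq | hq
      · obtain ⟨n, hn⟩ := hpol p' hp
        refine ⟨-(2 * n), ?_⟩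
        rw [hq, map_zero, zero_mul, add_zero, hn]
        congr 1
        ring
      · obtain ⟨n, hn⟩ := hpol p' hp
        obtain ⟨k, hk⟩ := hpol q hq
        have h1 : P.v (pol W L p') = WithZero.exp (-(2 * n) * m) := by
          rw [hn]
          congr 1
          ring
        have h2 : P.v (pol W L q * Y) = WithZero.exp ((-(2 * k) - 1) * m) := by
          rw [map_mul, hk, P.v_eq, ← hm, ← WithZero.exp_add]
          congr 1
          ring
        rcases lt_trichotomy (-(2 * n) : ℤ) (-(2 * k) - 1) with h3 | h3 | h3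
        · refine ⟨-(2 * k) - 1, ?_⟩
          rw [Valuation.map_add_eq_of_lt_right P.v, h2]
          rw [h1, h2, WithZero.exp_lt_exp]
          exact mul_lt_mul_of_pos_right h3 hm0
        · omega
        · refine ⟨-(2 * n), ?_⟩
          rw [Valuation.map_add_eq_of_lt_left P.v, h1]
          rw [h1, h2, WithZero.exp_lt_exp]
          exact mul_lt_mul_of_pos_right h3 hm0
  obtain ⟨w, hw⟩ := P.surj (WithZero.exp (-1 : ℤ))
  obtain ⟨a, b, hb, hab⟩ := IsFractionRing.div_surjective (A := W.CoordinateRing) w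
  have hb0 : b ≠ 0 := nonZeroDivisors.ne_zero hb
  have hw0 : w ≠ 0 := by
    rintro rfl
    rw [map_zero] at hw
    exact WithZero.exp_ne_zero hw.symm
  have ha0 : a ≠ 0 := by
    rintro rfl
    rw [map_zero, zero_div] at hab
    exact hw0 hab.symm
  obtain ⟨k, hk⟩ := hval a ha0
  obtain ⟨n, hn⟩ := hval b hb0
  rw [← hab, map_div₀, hk, hn, ← WithZero.exp_sub, WithZero.exp_inj] at hw
  have h3 : m * (n - k) = 1 := by linear_combination -hw
  have hm1 : m = 1 := Int.eq_one_of_mul_eq_one_right (by omega) h3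
  exact ⟨by omega, hm1⟩

end

end Pool.Agent.H442.SK
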