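import Pool.Agent.H442.SKk
set_option autoImplicit false
set_option linter.unusedSectionVars false

/-!
The line through a rational point of order two: `2 {Q, x(Q) - e} = {Q, (e - e')(e - e'')}`, and
`4 {Q, ψ(Q)} = {Q, Δ}`.
-/

namespace Pool.Agent.H442.SK

open scoped WithZero TensorProduct
open Polynomial WeierstrassCurve

section

variable {K : Type*} [Field K] [DecidableEq K] {W : Affine K} {L : Type*} [Field L] [Algebra K L]
  [Algebra W.CoordinateRing L] [IsScalarTower K W.CoordinateRing L]
  [IsFractionRing W.CoordinateRing L]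

theorem fY_ne {e₁ e₂ e₃ : K} (H : Two W e₁ e₂ e₃) : fY W L ≠ 0 := by
  intro h
  have h1 := H.sq (L := L)
  rw [h] at h1
  have h4 : (4 : L) ≠ 0 := by
    have h2 : (2 : L) ≠ 0 := by
      have := (map_ne_zero (algebraMap K L)).2 H.h2
      rwa [map_ofNat] at this
    have e : (4 : L) = 2 * 2 := by norm_num
    rw [e]
    exact mul_ne_zero h2 h2
  have h5 := mul_ne_zero h4 (mul_ne_zero (mul_ne_zero (x_sub_ne (W := W) L e₁)
    (x_sub_ne (W := W) L e₂)) (x_sub_ne (W := W) L e₃))
  exact h5 (by rw [← h1]; ring)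

/-- The product of the `x`-coordinates. -/
theorem two_prod {q₁ q₃ lam nu e₁ e₂ e₃ : K} {x₁ x₂ x₃ l l' : Lˣ}
    (H : Ln W L q₁ e₁ q₃ lam nu x₁ x₂ x₃ l l') (hT : Two W e₁ e₂ e₃)
    (hW : W.Equation e₁ (lam * e₁ + nu)) :
    (q₁ - e₁) * (q₃ - e₁) = (e₁ - e₂) * (e₁ - e₃) := by
  have h2 := two_aux hT hW
  have h3 : W.a₃ = -2 * (lam * e₁ + nu) - W.a₁ * e₁ := by
    unfold Affine.negY at h2
    linear_combination h2
  have h3' := congrArg (algebraMap K L) h3
  simp only [map_add, map_mul, map_sub, map_neg, map_ofNat] at h3'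
  have hp := congrArg Units.val H.hp
  rw [Units.val_mul, Units.val_neg, Units.val_mul, Units.val_mul, H.hl, H.hl', H.h₁, H.h₂,
    H.h₃] at hp
  have hsq := hT.sq (L := L)
  unfold fY at hsq
  have hx := x_sub_ne (W := W) L e₁
  have key : (fx W L - algebraMap K L e₁) *
      (4 * ((fx W L - algebraMap K L e₂) * (fx W L - algebraMap K L e₃)) -
        (2 * algebraMap K L lam + algebraMap K L W.a₁) ^ 2 * (fx W L - algebraMap K L e₁) -
        4 * ((fx W L - algebraMap K L q₁) * (fx W L - algebraMap K L q₃))) = 0 := by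
    rw [h3'] at hsq hp
    linear_combination -hsq - 4 * hp
  have key2 := (mul_eq_zero.1 key).resolve_left hx
  have e1 : pol W L (4 * ((X - C e₂) * (X - C e₃)) -
        C ((2 * lam + W.a₁) ^ 2) * (X - C e₁) - 4 * ((X - C q₁) * (X - C q₃))) = 0 := by
    rw [← key2]
    simp only [map_sub, map_mul, map_add, map_pow, pol_C, map_ofNat]
    rfl
  have e3 := (injective_iff_map_eq_zero _).1 (pol_injective (W := W) (L := L)) _ e1
  have e4 := congrArg (fun p : K[X] => p.eval e₁) e3
  simp only [eval_sub, eval_mul, eval_X, eval_C, eval_ofNat, eval_zero, sub_self, mul_zero,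
    sub_zero] at e4
  have h4 : (4 : K) ≠ 0 := by
    have : (4 : K) = 2 * 2 := by norm_num
    rw [this]
    exact mul_ne_zero hT.h2 hT.h2
  apply mul_left_cancel₀ h4
  linear_combination -e4

/-- The symbols `{x - e, l}`, `{a, l}`, `{a, x - e}`, where `l` is a line through the point of
order two `(e, r)`. -/
theorem tame_two {q₁ q₃ lam nu e₁ e₂ e₃ : K} {x₁ x₂ x₃ l l' : Lˣ}
    (H : Ln W L q₁ e₁ q₃ lam nu x₁ x₂ x₃ l l') (hT : Two W e₁ e₂ e₃) {r₁ r₂ r₃ : K}
    (hr₁ : r₁ = lam * q₁ + nu) (hr₂ : r₂ = lam * e₁ + nu) (hr₃ : r₃ = lam * q₃ + nu)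
    (h₁ : W.Nonsingular q₁ r₁) (h₂ : W.Nonsingular e₁ r₂) (h₃ : W.Nonsingular q₃ r₃)
    {ψ₁ ψ₃ d₁ d₃ w : Kˣ} (hψ₁ : (ψ₁ : K) = r₁ - W.negY q₁ r₁)
    (hψ₃ : (ψ₃ : K) = r₃ - W.negY q₃ r₃) (hd₁ : (d₁ : K) = q₁ - e₁) (hd₃ : (d₃ : K) = q₃ - e₁)
    (hw : (w : K) = (e₁ - e₂) * (e₁ - e₃)) (n13 : q₁ ≠ q₃) :
    (fun P : Place K L => P.tame x₂ l) =
      pm L (.some q₁ r₁ h₁) d₁ + pm L (.some q₃ r₃ h₃) d₃ - pm L (.some e₁ r₂ h₂) w ∧
    (∀ a : Kˣ, (fun P : Place K L => P.tame (cU L a) l) =
      pm L (.some q₁ r₁ h₁) a + pm L (.some e₁ r₂ h₂) a + pm L (.some q₃ r₃ h₃) a -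
        3 • pm L (0 : W.Point) a) ∧
    ∀ a : Kˣ, (fun P : Place K L => P.tame (cU L a) x₂) =
      2 • pm L (.some e₁ r₂ h₂) a - 2 • pm L (0 : W.Point) a := by
  have n₁ : r₁ ≠ W.negY q₁ r₁ := sub_ne_zero.1 (hψ₁ ▸ ψ₁.ne_zero)
  have n₃ : r₃ ≠ W.negY q₃ r₃ := sub_ne_zero.1 (hψ₃ ▸ ψ₃.ne_zero)
  have n12 : q₁ ≠ e₁ := sub_ne_zero.1 (hd₁ ▸ d₁.ne_zero)
  have n32 : q₃ ≠ e₁ := sub_ne_zero.1 (hd₃ ▸ d₃.ne_zero)
  have hn2 := two_aux hT h₂.1
  have main : ∀ P : Place K L, P.tame x₂ l =
      pm L (.some q₁ r₁ h₁) d₁ P + pm L (.some q₃ r₃ h₃) d₃ P - pm L (.some e₁ r₂ h₂) w P ∧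
    (∀ a : Kˣ, P.tame (cU L a) l =
      pm L (.some q₁ r₁ h₁) a P + pm L (.some e₁ r₂ h₂) a P + pm L (.some q₃ r₃ h₃) a P -
        3 • pm L (0 : W.Point) a P) ∧
    ∀ a : Kˣ, P.tame (cU L a) x₂ =
      2 • pm L (.some e₁ r₂ h₂) a P - 2 • pm L (0 : W.Point) a P := by
    intro P
    have oa : ∀ a : Kˣ, P.ord (cU L a) = 0 := fun a => P.mem_U.1 (P.cU_mem a)
    rcases le_or_gt (P.v (fx W L)) 1 with hx | hx
    · by_cases c2 : P.v (fx W L - algebraMap K L e₁) < 1
      · -- the place at the point of order two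
        have hat : At P (Affine.Point.some e₁ r₂ h₂) := by
          refine ⟨c2, ?_⟩
          rcases at_or P h₂.1 c2 with h | h
          · exact h
          · rwa [← hn2] at h
        obtain ⟨o2, oY⟩ := hT.ord P c2 x₂ (Units.mk0 _ (fY_ne (L := L) hT)) H.h₂ rfl
        set Y : Lˣ := Units.mk0 _ (fY_ne (L := L) hT) with hY
        set two : Kˣ := Units.mk0 2 hT.h2 with htwo
        -- `2 l / Y` is `1`
        have hl2 : P.v (((cU L two * l / Y : Lˣ) : L) - 1) < 1 := by
          have e : ((cU L two * l / Y : Lˣ) : L) - 1 =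
              -(algebraMap K L (W.a₁ + 2 * lam) * ((x₂ : L) / (Y : L))) := by
            have hY0 : (Y : L) ≠ 0 := Y.ne_zero
            rw [Units.val_div_eq_div_val, Units.val_mul, cU_val]
            have h3 : W.a₃ = -2 * (lam * e₁ + nu) - W.a₁ * e₁ := by
              unfold Affine.negY at hn2
              rw [hr₂] at hn2
              linear_combination hn2
            have h3' := congrArg (algebraMap K L) h3
            have hYv : (Y : L) = fY W L := rfl
            have ht : ((two : Kˣ) : K) = 2 := rfl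
            rw [ht]
            field_simp
            rw [hYv, H.hl, H.h₂]
            unfold fY
            simp only [map_add, map_mul, map_sub, map_neg, map_ofNat] at h3' ⊢
            linear_combination -h3'
          rw [e, Valuation.map_neg, map_mul]
          refine mul_lt_one_le_lt (P.v_cst_le _) ?_
          have h5 : ((x₂ : L) / (Y : L)) = ((x₂ / Y : Lˣ) : L) := by
            rw [Units.val_div_eq_div_val]
          rw [h5, P.v_eq, P.ord_div, o2, oY, ← WithZero.exp_zero, WithZero.exp_lt_exp]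
          norm_num
        have hl3 := P.ρ_of_one _ hl2
        rw [P.ρ_div, P.ρ_mul, ← P.cst_eq, sub_eq_zero] at hl3
        have ol : P.ord l = 1 := by
          have h := (P.ord_eq_zero_iff (cU L two * l / Y)).2 (by
            have h2 : ((cU L two * l / Y : Lˣ) : L) = 1 +
              (((cU L two * l / Y : Lˣ) : L) - 1) := by ring
            rw [h2, Valuation.map_add_eq_of_lt_left P.v (by rw [map_one]; exact hl2), map_one])
          rw [P.ord_div, P.ord_mul, oa, oY] at h
          omega
        -- `Y²`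
        have hY2 : P.ρ Y + P.ρ Y = P.cst two + P.cst two + P.ρ x₂ + P.cst w := by
          have f2 : (e₁ - e₂ : K) ≠ 0 := sub_ne_zero.2 hT.h12
          have f3 : (e₁ - e₃ : K) ≠ 0 := sub_ne_zero.2 hT.h31.symm
          obtain ⟨-, k2⟩ := over_ne c2 (t := Units.mk0 _ (x_sub_ne (W := W) L e₂)) rfl
            (d := Units.mk0 _ f2) rfl
          obtain ⟨-, k3⟩ := over_ne c2 (t := Units.mk0 _ (x_sub_ne (W := W) L e₃)) rfl
            (d := Units.mk0 _ f3) rfl
          have e : Y * Y = cU L two * cU L two * x₂ * (Units.mk0 _ (x_sub_ne (W := W) L e₂) *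
              Units.mk0 _ (x_sub_ne (W := W) L e₃)) := by
            apply Units.ext
            simp only [Units.val_mul, Units.val_mk0, cU_val]
            have hYv : (Y : L) = fY W L := rfl
            have ht : ((two : Kˣ) : K) = 2 := rfl
            rw [hYv, ht, H.h₂, map_ofNat]
            have := hT.sq (L := L)
            linear_combination this
          have e2 : w = Units.mk0 _ f2 * Units.mk0 _ f3 := by
            apply Units.ext
            rw [hw]
            rfl
          have e3 := congrArg P.ρ e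
          rw [P.ρ_mul, P.ρ_mul, P.ρ_mul, P.ρ_mul, P.ρ_mul, ← P.cst_eq, k2, k3] at e3
          rw [e3, e2, P.cst_mul]
        refine ⟨?_, fun a => ?_, fun a => ?_⟩
        · rw [pm_not (not_at_of_ne c2 n12.symm), pm_not (not_at_of_ne c2 n32.symm), pm_at hat,
            P.tame_eq, ol, o2]
          have e1 : P.ρ l = P.ρ Y - P.cst two := by
            rw [← hl3]
            abel
          rw [e1, one_smul, two_smul]
          have e5 : P.ρ x₂ - (P.ρ Y - P.cst two + (P.ρ Y - P.cst two)) =
            P.ρ x₂ - (P.ρ Y + P.ρ Y) + (P.cst two + P.cst two) := by abel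
          rw [e5, hY2]
          abel
        · rw [pm_not (not_at_of_ne c2 n12.symm), pm_not (not_at_of_ne c2 n32.symm), pm_at hat,
            pm_not (not_at_zero (W := W) hx), P.tame_eq, ol, oa, ← P.cst_eq]
          simp only [zero_add, add_zero, smul_zero, sub_zero, one_smul, zero_smul]
        · rw [pm_at hat, pm_not (not_at_zero (W := W) hx), P.tame_eq, o2, oa, ← P.cst_eq]
          simp only [smul_zero, sub_zero, zero_smul]
          norm_cast
      · have o2 := ord_of_ge hx c2 H.h₂
        rw [pm_not (not_at_of_ge c2)]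
        by_cases c1 : P.v (fx W L - algebraMap K L q₁) < 1
        · have o3 : P.ord x₃ = 0 := by
            refine ord_of_ge hx (fun c3 => ?_) H.h₃
            rw [v_sub_cst P n13 c1] at c3
            exact lt_irrefl _ c3
          obtain ⟨-, e1⟩ := over_ne c1 H.h₂ hd₁
          rw [pm_not (not_at_of_ne c1 n13)]
          rcases cases_pt h₁ n₁ H.h₁ c1 with ⟨o1, hy, a1, a2⟩ | ⟨o1, hy, a1, a2⟩
          · obtain ⟨o, -⟩ := H.at_pt hr₁ ψ₁ hψ₁ c1 hy
            rw [o1, o2, o3] at o
            refine ⟨?_, fun a => ?_, fun a => ?_⟩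
            · rw [pm_at a1, P.tame_eq, o, o2, e1]
              simp only [add_zero, one_smul, zero_smul, sub_zero]
            · rw [pm_at a1, pm_not (not_at_of_ge c2), pm_not (not_at_of_ne c1 n13),
                pm_not (not_at_zero (W := W) hx), P.tame_eq, o, oa, ← P.cst_eq]
              simp only [add_zero, one_smul, zero_smul, sub_zero, smul_zero]
            · rw [pm_not (not_at_of_ge c2), pm_not (not_at_zero (W := W) hx), P.tame_eq, o2, oa]
              simp only [zero_smul, sub_zero, smul_zero]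
          · obtain ⟨o, -⟩ := H.at_neg hr₁ ψ₁ hψ₁ c1 hy
            refine ⟨?_, fun a => ?_, fun a => ?_⟩
            · rw [pm_not a1, P.tame_eq, o, o2]
              simp only [add_zero, zero_smul, sub_zero]
            · rw [pm_not a1, pm_not (not_at_of_ge c2), pm_not (not_at_of_ne c1 n13),
                pm_not (not_at_zero (W := W) hx), P.tame_eq, o, oa]
              simp only [add_zero, zero_smul, sub_zero, smul_zero]
            · rw [pm_not (not_at_of_ge c2), pm_not (not_at_zero (W := W) hx), P.tame_eq, o2, oa]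
              simp only [zero_smul, sub_zero, smul_zero]
        · have o1 := ord_of_ge hx c1 H.h₁
          rw [pm_not (not_at_of_ge c1)]
          by_cases c3 : P.v (fx W L - algebraMap K L q₃) < 1
          · obtain ⟨-, e1⟩ := over_ne c3 H.h₂ hd₃
            rcases cases_pt h₃ n₃ H.h₃ c3 with ⟨o3, hy, a1, a2⟩ | ⟨o3, hy, a1, a2⟩
            · obtain ⟨o, -⟩ := H.at_pt hr₃ ψ₃ hψ₃ c3 hy
              rw [o1, o2, o3] at o
              refine ⟨?_, fun a => ?_, fun a => ?_⟩
              · rw [pm_at a1, P.tame_eq, o, o2, e1]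
                simp only [zero_add, one_smul, zero_smul, sub_zero]
              · rw [pm_at a1, pm_not (not_at_of_ge c2), pm_not (not_at_of_ge c1),
                  pm_not (not_at_zero (W := W) hx), P.tame_eq, o, oa, ← P.cst_eq]
                simp only [zero_add, add_zero, one_smul, zero_smul, sub_zero, smul_zero]
              · rw [pm_not (not_at_of_ge c2), pm_not (not_at_zero (W := W) hx), P.tame_eq, o2,
                  oa]
                simp only [zero_smul, sub_zero, smul_zero]
            · obtain ⟨o, -⟩ := H.at_neg hr₃ ψ₃ hψ₃ c3 hy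
              refine ⟨?_, fun a => ?_, fun a => ?_⟩
              · rw [pm_not a1, P.tame_eq, o, o2]
                simp only [add_zero, zero_smul, sub_zero]
              · rw [pm_not a1, pm_not (not_at_of_ge c2), pm_not (not_at_of_ge c1),
                  pm_not (not_at_zero (W := W) hx), P.tame_eq, o, oa]
                simp only [add_zero, zero_smul, sub_zero, smul_zero]
              · rw [pm_not (not_at_of_ge c2), pm_not (not_at_zero (W := W) hx), P.tame_eq, o2,
                  oa]
                simp only [zero_smul, sub_zero, smul_zero]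
          · have o3 := ord_of_ge hx c3 H.h₃
            have o := H.none hx o1 o2 o3
            rw [pm_not (not_at_of_ge c3)]
            refine ⟨?_, fun a => ?_, fun a => ?_⟩
            · rw [P.tame_eq, o, o2]
              simp only [add_zero, zero_smul, sub_zero]
            · rw [pm_not (not_at_of_ge c1), pm_not (not_at_of_ge c2), pm_not (not_at_of_ge c3),
                pm_not (not_at_zero (W := W) hx), P.tame_eq, o, oa]
              simp only [add_zero, zero_smul, sub_zero, smul_zero]
            · rw [pm_not (not_at_of_ge c2), pm_not (not_at_zero (W := W) hx), P.tame_eq, o2, oa]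
              simp only [zero_smul, sub_zero, smul_zero]
    · obtain ⟨o2, o, t2⟩ := H.inf hx x₂ H.h₂
      refine ⟨?_, fun a => ?_, fun a => ?_⟩
      · rw [t2, pm_not (not_at_inf (W := W) hx), pm_not (not_at_inf (W := W) hx),
          pm_not (not_at_inf (W := W) hx)]
        simp only [add_zero, sub_zero]
      · rw [P.tame_eq, o, oa a, ← P.cst_eq, pm_not (not_at_inf (W := W) hx),
          pm_not (not_at_inf (W := W) hx), pm_not (not_at_inf (W := W) hx),
          pm_at (at_zero (W := W) hx), zero_smul, add_zero, add_zero, zero_sub, sub_zero,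
          neg_smul]
        norm_cast
      · rw [P.tame_eq, o2, oa a, ← P.cst_eq, pm_not (not_at_inf (W := W) hx),
          pm_at (at_zero (W := W) hx), zero_smul, smul_zero, zero_sub, sub_zero, neg_smul]
        norm_cast
  exact ⟨funext fun P => (main P).1, fun a => funext fun P => (main P).2.1 a,
    fun a => funext fun P => (main P).2.2 a⟩

end

end Pool.Agent.H442.SK
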