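import Pool.Agent.H442.SKl
set_option autoImplicit false
set_option linter.unusedSectionVars false

/-!
`2 {Q, x(Q) - e} = {Q, (e - e')(e - e'')}` and `4 {Q, ψ(Q)} = {Q, Δ}`.
-/

namespace Pool.Agent.H442.SK

open scoped WithZero TensorProduct
open Polynomial WeierstrassCurve

section

variable {K : Type*} [Field K] [DecidableEq K] {W : Affine K} (L : Type*) [Field L] [Algebra K L]
  [Algebra W.CoordinateRing L] [IsScalarTower K W.CoordinateRing L]
  [IsFractionRing W.CoordinateRing L]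

theorem two_point [W.IsElliptic] {e₁ e₂ e₃ : K} (hT : Two W e₁ e₂ e₃) :
    ∃ (r : K) (_ : W.Nonsingular e₁ r), r = W.negY e₁ r := by
  have h2 := hT.h2
  have he : W.Equation e₁ (-(W.a₁ * e₁ + W.a₃) / 2) := by
    rw [Affine.equation_iff]
    have b2 := hT.hb2
    have b4 := hT.hb4
    have b6 := hT.hb6
    unfold WeierstrassCurve.b₂ at b2
    unfold WeierstrassCurve.b₄ at b4
    unfold WeierstrassCurve.b₆ at b6
    have h4 : (4 : K) ≠ 0 := by
      have : (4 : K) = 2 * 2 := by norm_num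
      rw [this]
      exact mul_ne_zero h2 h2
    apply mul_left_cancel₀ h4
    field_simp
    linear_combination -(e₁ ^ 2 * b2 + 2 * e₁ * b4 + b6)
  exact ⟨_, Affine.equation_iff_nonsingular.1 he, two_aux hT he⟩

/-- Twice the class `{Q, x(Q) - e}`. -/
theorem TF.two_rel [W.IsElliptic] {Λ : AddSubgroup W.Point} (h : TF Λ) {Q : W.Point}
    (hQ : Q ∈ Λ) (hQ0 : Q ≠ 0) {e₁ e₂ e₃ : K} (hT : Two W e₁ e₂ e₃) :
    xc Q - e₁ ≠ 0 ∧
    2 • br L Q (un (xc Q - e₁)) = br L Q (un ((e₁ - e₂) * (e₁ - e₃))) := by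
  obtain ⟨r, hr, hrn⟩ := two_point hT
  set T : W.Point := Affine.Point.some e₁ r hr with hTdef
  have hT0 : T ≠ 0 := by
    rw [hTdef]
    exact Affine.Point.some_ne_zero _
  have hTn : -T = T := by
    rw [hTdef, Affine.Point.neg_some]
    congr 1
    exact hrn.symm
  have hTT : T + T = 0 := by
    nth_rw 1 [← hTn]
    exact neg_add_cancel T
  have hQ2 := h.two hQ hQ0
  have hQT : Q ≠ T := by
    intro h1
    apply hQ2
    rw [h1, hTn]
  have hQT' : Q ≠ -T := by rwa [hTn]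
  have hQT0 : Q + T ≠ 0 := fun h1 => hQT' (eq_neg_of_add_eq_zero_left h1)
  obtain ⟨q₁, r₁, q₂, r₂, q₃, r₃, lam, nu, h₁, h₂, h₃, x₁, x₂, x₃, l, l', k₁, k₂, k₃, hr₁, hr₂,
    hr₃, H⟩ := exists_third L hQ0 hT0 hQT0
  set C : W.Point := -(Q + T) with hC
  have hC0 : C ≠ 0 := by
    rw [hC, neg_ne_zero]
    exact hQT0
  have hC2 : C ≠ -C := by
    intro h1
    rw [hC, neg_neg] at h1
    have h3 : Q + Q + (T + T) = 0 := by
      have e : Q + Q + (T + T) = (Q + T) - -(Q + T) := by abel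
      rw [e, h1, sub_self]
    rw [hTT, add_zero] at h3
    exact hQ2 (eq_neg_of_add_eq_zero_left h3)
  have hCT : C ≠ T := by
    intro h1
    apply hQ0
    have e : Q = -C - T := by
      rw [hC]
      abel
    rw [e, h1, hTn, sub_self]
  have hCT' : C ≠ -T := by rwa [hTn]
  have hQC : Q ≠ C := by
    intro h1
    have h3 : Q + Q + T = 0 := by
      have e : Q + Q + T = Q - C := by
        rw [hC]
        abel
      rw [e, ← h1, sub_self]
    have h4 : (4 : ℕ) • Q = 0 := by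
      have e : (4 : ℕ) • Q = (Q + Q + T) + (Q + Q + T) - (T + T) := by abel
      rw [e, h3, hTT, add_zero, sub_zero]
    exact hQ0 (h Q hQ 4 (by norm_num) h4)
  have hQC' : Q ≠ -C := by
    intro h1
    apply hT0
    rw [hC, neg_neg] at h1
    exact left_eq_add.1 h1
  rw [hTdef] at k₂
  obtain ⟨rfl, rfl⟩ : e₁ = q₂ ∧ r = r₂ := by
    injection k₂ with a b
    exact ⟨a, b⟩
  have n12 : q₁ ≠ e₁ := by
    rw [k₁] at hQT hQT'
    exact x_ne hQT hQT'
  have n32 : q₃ ≠ e₁ := by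
    rw [k₃] at hCT hCT'
    exact x_ne hCT hCT'
  have n13 : q₁ ≠ q₃ := by
    rw [k₃, k₁] at hQC hQC'
    exact x_ne hQC hQC'
  have p₁ : r₁ - W.negY q₁ r₁ ≠ 0 := by
    rw [k₁] at hQ2
    exact psi_ne hQ2
  have p₃ : r₃ - W.negY q₃ r₃ ≠ 0 := by
    rw [k₃] at hC2
    exact psi_ne hC2
  have w0 : (e₁ - e₂) * (e₁ - e₃) ≠ 0 :=
    mul_ne_zero (sub_ne_zero.2 hT.h12) (sub_ne_zero.2 hT.h31.symm)
  have hxQ : xc Q = q₁ := by rw [k₁]; rfl
  refine ⟨by rw [hxQ]; exact sub_ne_zero.2 n12, ?_⟩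
  have hprod := two_prod (L := L) H hT (by rw [← hr₂]; exact hr.1)
  set d₁ : Kˣ := Units.mk0 _ (sub_ne_zero.2 n12) with hd₁
  set d₃ : Kˣ := Units.mk0 _ (sub_ne_zero.2 n32) with hd₃
  set w : Kˣ := Units.mk0 _ w0 with hw
  obtain ⟨t1, t2, t3⟩ := tame_two H hT hr₁ hr₂ hr₃ h₁ h₂ h₃ (ψ₁ := Units.mk0 _ p₁)
    (ψ₃ := Units.mk0 _ p₃) (d₁ := d₁) (d₃ := d₃) (w := w) rfl rfl rfl rfl rfl n13
  have hdw : d₁ * d₃ = w := Units.ext hprod
  -- the classes
  have bT : ∀ a : Kˣ, br L T a = 0 := by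
    intro a
    have s := mk_eq_zero L (t3 a)
    have e : mkS K L (2 • pm L (Affine.Point.some e₁ r h₂) a - 2 • pm L (0 : W.Point) a) =
        (2 : ℚ) • br L T a := by
      unfold br
      rw [hTdef, two_smul ℕ, two_smul ℕ, two_smul ℚ, ← map_add]
      congr 1
      abel
    rw [e] at s
    exact (smul_eq_zero.1 s).resolve_left two_ne_zero
  have bC : ∀ a : Kˣ, br L C a = -br L Q a := by
    intro a
    have s := mk_eq_zero L (t2 a)
    have e : mkS K L (pm L (Affine.Point.some q₁ r₁ h₁) a +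
        pm L (Affine.Point.some e₁ r h₂) a + pm L (Affine.Point.some q₃ r₃ h₃) a -
        3 • pm L (0 : W.Point) a) = br L Q a + br L T a + br L C a := by
      unfold br
      rw [k₁, k₃, hTdef, ← map_add, ← map_add]
      congr 1
      have e3 : (3 : ℕ) • pm L (0 : W.Point) a = pm L (0 : W.Point) a + pm L (0 : W.Point) a +
        pm L (0 : W.Point) a := by
        rw [show (3 : ℕ) = 2 + 1 from rfl, add_smul, two_smul, one_smul]
      rw [e3]
      abel
    rw [e, bT a, add_zero] at s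
    exact eq_neg_of_add_eq_zero_right s
  have s := mk_eq_zero L t1
  have e : mkS K L (pm L (Affine.Point.some q₁ r₁ h₁) d₁ +
      pm L (Affine.Point.some q₃ r₃ h₃) d₃ - pm L (Affine.Point.some e₁ r h₂) w) =
      br L Q d₁ + br L C d₃ - br L T w := by
    unfold br
    rw [k₁, k₃, hTdef, ← map_add, ← map_sub]
    congr 1
    have e4 : pm L (0 : W.Point) w = pm L (0 : W.Point) d₁ + pm L (0 : W.Point) d₃ := by
      rw [← hdw, pm_mul]
    rw [e4]
    abel
  rw [e, bT w, bC d₃, sub_zero] at s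
  have s2 : br L Q d₁ = br L Q d₃ := by
    have := eq_neg_of_add_eq_zero_left s
    rwa [neg_neg] at this
  have u1 : un (xc Q - e₁) = d₁ := un_eq (by rw [hxQ]; rfl)
  have u2 : un ((e₁ - e₂) * (e₁ - e₃)) = w := un_eq rfl
  rw [u1, u2, ← hdw, br_mul, two_smul, ← s2]

/-- `4 {Q, ψ(Q)} = {Q, Δ}`. -/
theorem TF.four [W.IsElliptic] {Λ : AddSubgroup W.Point} (h : TF Λ) {Q : W.Point}
    (hQ : Q ∈ Λ) {e₁ e₂ e₃ : K} (hT : Two W e₁ e₂ e₃) :
    4 • lam L Q = br L Q (un W.Δ) := by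
  by_cases hQ0 : Q = 0
  · rw [hQ0]
    unfold lam
    rw [br_zero, br_zero, smul_zero]
  obtain ⟨n1, t1⟩ := h.two_rel L hQ hQ0 hT
  obtain ⟨n2, t2⟩ := h.two_rel L hQ hQ0 hT.perm
  obtain ⟨n3, t3⟩ := h.two_rel L hQ hQ0 hT.perm.perm
  have hp : psi Q ≠ 0 := psi_ne' (h.two hQ hQ0)
  have h2 := hT.h2
  have h4 : (4 : K) ≠ 0 := by
    have : (4 : K) = 2 * 2 := by norm_num
    rw [this]
    exact mul_ne_zero h2 h2
  have d12 : e₁ - e₂ ≠ 0 := sub_ne_zero.2 hT.h12
  have d23 : e₂ - e₃ ≠ 0 := sub_ne_zero.2 hT.h23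
  have d31 : e₃ - e₁ ≠ 0 := sub_ne_zero.2 hT.h31
  have d21 : e₂ - e₁ ≠ 0 := sub_ne_zero.2 hT.h12.symm
  have d32 : e₃ - e₂ ≠ 0 := sub_ne_zero.2 hT.h23.symm
  have d13 : e₁ - e₃ ≠ 0 := sub_ne_zero.2 hT.h31.symm
  have hsq : psi Q ^ 2 = 4 * ((xc Q - e₁) * (xc Q - e₂) * (xc Q - e₃)) := by
    rcases Q with _ | ⟨q, r, hqr⟩
    · exact absurd rfl hQ0
    · have hW := (Affine.equation_iff q r).1 hqr.1
      show (r - W.negY q r) ^ 2 = 4 * ((q - e₁) * (q - e₂) * (q - e₃))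
      have b2 := hT.hb2
      have b4 := hT.hb4
      have b6 := hT.hb6
      unfold WeierstrassCurve.b₂ at b2
      unfold WeierstrassCurve.b₄ at b4
      unfold WeierstrassCurve.b₆ at b6
      unfold Affine.negY
      linear_combination 4 * hW + q ^ 2 * b2 + 2 * q * b4 + b6
  have e1 : un (psi Q) ^ 2 = un 4 * (un (xc Q - e₁) * un (xc Q - e₂) * un (xc Q - e₃)) := by
    rw [← un_pow hp, hsq, un_mul h4 (mul_ne_zero (mul_ne_zero n1 n2) n3),
      un_mul (mul_ne_zero n1 n2) n3, un_mul n1 n2]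
  have e2 : un W.Δ = un 4 ^ 2 * -(un ((e₁ - e₂) * (e₁ - e₃)) * un ((e₂ - e₃) * (e₂ - e₁)) *
      un ((e₃ - e₁) * (e₃ - e₂))) := by
    apply Units.ext
    rw [un_val (by
      rw [hT.disc]
      have : (16 : K) = 4 * 4 := by norm_num
      rw [this]
      exact mul_ne_zero (mul_ne_zero h4 h4)
        (pow_ne_zero 2 (mul_ne_zero (mul_ne_zero d12 d23) d31)))]
    rw [Units.val_mul, Units.val_pow_eq_pow_val, Units.val_neg, Units.val_mul, Units.val_mul,
      un_val h4, un_val (mul_ne_zero d12 d13), un_val (mul_ne_zero d23 d21),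
      un_val (mul_ne_zero d31 d32), hT.disc]
    ring
  have f1 := congrArg (br L Q) e1
  rw [br_pow, br_mul, br_mul, br_mul] at f1
  rw [e2, br_mul, br_neg, br_mul, br_mul, ← t1, ← t2, ← t3, br_pow]
  have f2 : 4 • lam L Q = 2 • (2 • br L Q (un (psi Q))) := by
    unfold lam
    rw [smul_smul]
    norm_num
  rw [f2, f1]
  module

end

end Pool.Agent.H442.SK
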