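import Pool.Agent.H442.SKm
set_option autoImplicit false
set_option linter.unusedSectionVars false

/-!
Almost every prime of a global field divides a number `c` with `{P, c} = 0`.
-/

namespace Pool.Agent.H442.SK

open scoped WithZero TensorProduct
open Polynomial WeierstrassCurve IsDedekindDomain

section

variable {R : Type*} [CommRing R] [IsDedekindDomain R] {K : Type*} [Field K] [DecidableEq K]
  [Algebra R K] [IsFractionRing R K] {W : Affine K} (L : Type*) [Field L] [Algebra K L]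
  [Algebra W.CoordinateRing L] [IsScalarTower K W.CoordinateRing L]
  [IsFractionRing W.CoordinateRing L]

/-- At every prime at which `x(2P) - x(P)` is a unit. -/
theorem TF.prime {Λ : AddSubgroup W.Point} (h : TF Λ) {P : W.Point} (hP : P ∈ Λ)
    (h0 : P ≠ 0) (v : HeightOneSpectrum R) (hfin : Finite (R ⧸ v.asIdeal))
    (hv : v.valuation K (xc ((2 : ℤ) • P) - xc P) = 1) :
    ∃ c : Kˣ, br L P c = 0 ∧ v.valuation K (c : K) ≠ 1 := by
  obtain ⟨m, n, hmn, hne⟩ := exists_nonunit v (fun n : ℕ => xc (((n + 1 : ℕ) : ℤ) • P))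
  have hx := h.xc_ne hP h0 (m := ((n + 1 : ℕ) : ℤ)) (n := ((m + 1 : ℕ) : ℤ)) (by omega)
    (by omega) (by omega) (by omega)
  have hx0 := h.xc_ne hP h0 (m := 2) (n := 1) (by omega) (by omega) (by omega) (by omega)
  rw [one_smul] at hx0
  set c0 : Kˣ := un (xc ((2 : ℤ) • P) - xc P) with hc0
  set c1 : Kˣ := un (xc (((n + 1 : ℕ) : ℤ) • P) - xc (((m + 1 : ℕ) : ℤ) • P)) with hc1
  have e1 := h.int L hP h0 (a := ((n + 1 : ℕ) : ℤ)) (b := ((m + 1 : ℕ) : ℤ)) (by omega)
    (by omega) (by omega) (by omega)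
  have e0 := h.int L hP h0 (a := 2) (b := 1) (by omega) (by omega) (by omega) (by omega)
  rw [one_smul] at e0
  have e2 : br L P (c1 / c0) = 0 := by
    rw [br_div]
    have h3 : (3 : ℚ) • (br L P c1 - br L P c0) = 0 := by
      rw [smul_sub, e1, e0, sub_self]
    exact (smul_eq_zero.1 h3).resolve_left three_ne_zero
  refine ⟨c1 / c0, e2, ?_⟩
  rw [Units.val_div_eq_div_val, map_div₀, hc0, un_val (sub_ne_zero.2 hx0), hv, div_one, hc1,
    un_val (sub_ne_zero.2 hx)]
  exact hne

/-- The prime divisors of a number are finite in number. -/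
theorem finite_nonunit (c : Kˣ) :
    {v : HeightOneSpectrum R | v.valuation K (c : K) ≠ 1}.Finite := by
  refine (ordK_finite (R := R) c).subset ?_
  intro v hv
  rw [Set.mem_ofPred_eq] at hv ⊢
  rw [Ne, ordK_eq_zero_iff]
  exact hv

theorem TF.almost {Λ : AddSubgroup W.Point} (h : TF Λ) {P : W.Point} (hP : P ∈ Λ)
    (h0 : P ≠ 0) (hfin : ∀ v : HeightOneSpectrum R, Finite (R ⧸ v.asIdeal)) :
    {v : HeightOneSpectrum R | ¬ ∃ c : Kˣ, br L P c = 0 ∧ v.valuation K (c : K) ≠ 1}.Finite := by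
  have hx0 := h.xc_ne hP h0 (m := 2) (n := 1) (by omega) (by omega) (by omega) (by omega)
  rw [one_smul] at hx0
  refine (finite_nonunit (R := R) (Units.mk0 _ (sub_ne_zero.2 hx0))).subset ?_
  intro v hv
  rw [Set.mem_ofPred_eq] at hv ⊢
  intro h1
  exact hv (h.prime L hP h0 v (hfin v) h1)

end

end Pool.Agent.H442.SK
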