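import Pool.Agent.H442.SKn
set_option autoImplicit false
set_option linter.unusedSectionVars false

/-!
The curve `y² + y = x³ - x` and the point `(0, 0)`.
-/

namespace Pool.Agent.H442.SK

open scoped WithZero TensorProduct
open Polynomial WeierstrassCurve

section

variable {K : Type*} [Field K] [DecidableEq K] {W : Affine K}

theorem add_pt {q₁ r₁ q₂ r₂ q₃ r₃ : K} (h₁ : W.Nonsingular q₁ r₁) (h₂ : W.Nonsingular q₂ r₂)
    (h₃ : W.Nonsingular q₃ r₃) (hq : q₁ ≠ q₂) (s : K) (hs : s * (q₁ - q₂) = r₁ - r₂)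
    (e1 : q₃ = s ^ 2 + W.a₁ * s - W.a₂ - q₁ - q₂)
    (e2 : r₃ = -(s * (q₃ - q₁) + r₁) - W.a₁ * q₃ - W.a₃) :
    Affine.Point.some q₁ r₁ h₁ + Affine.Point.some q₂ r₂ h₂ = Affine.Point.some q₃ r₃ h₃ := by
  rw [Affine.Point.add_some (fun h => hq h.1)]
  have hsl : W.slope q₁ q₂ r₁ r₂ = s := by
    rw [Affine.slope_of_X_ne hq, ← hs, mul_div_cancel_right₀ _ (sub_ne_zero.2 hq)]
  have k1 : W.addX q₁ q₂ (W.slope q₁ q₂ r₁ r₂) = q₃ := by
    rw [hsl, e1]
    rfl
  have k2 : W.addY q₁ q₂ r₁ (W.slope q₁ q₂ r₁ r₂) = r₃ := by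
    unfold Affine.addY Affine.negAddY Affine.negY
    rw [k1, hsl, e2]
  simp only [k1, k2]

theorem dbl_pt {q₁ r₁ q₃ r₃ : K} (h₁ : W.Nonsingular q₁ r₁)
    (h₃ : W.Nonsingular q₃ r₃) (hy : r₁ ≠ W.negY q₁ r₁) (s : K)
    (hs : s * (r₁ - W.negY q₁ r₁) = 3 * q₁ ^ 2 + 2 * W.a₂ * q₁ + W.a₄ - W.a₁ * r₁)
    (e1 : q₃ = s ^ 2 + W.a₁ * s - W.a₂ - q₁ - q₁)
    (e2 : r₃ = -(s * (q₃ - q₁) + r₁) - W.a₁ * q₃ - W.a₃) :
    Affine.Point.some q₁ r₁ h₁ + Affine.Point.some q₁ r₁ h₁ = Affine.Point.some q₃ r₃ h₃ := by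
  rw [Affine.Point.add_some (fun h => hy h.2)]
  have hsl : W.slope q₁ q₁ r₁ r₁ = s := by
    rw [Affine.slope_of_Y_ne rfl hy, ← hs, mul_div_cancel_right₀ _ (sub_ne_zero.2 hy)]
  have k1 : W.addX q₁ q₁ (W.slope q₁ q₁ r₁ r₁) = q₃ := by
    rw [hsl, e1]
    rfl
  have k2 : W.addY q₁ q₁ r₁ (W.slope q₁ q₁ r₁ r₁) = r₃ := by
    unfold Affine.addY Affine.negAddY Affine.negY
    rw [k1, hsl, e2]
  simp only [k1, k2]

end

/-- The curve `y² + y = x³ - x`. -/
def E37 : Affine ℚ := ⟨0, 0, 1, -1, 0⟩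

theorem E37_ns {q r : ℚ} (h : r ^ 2 + r = q ^ 3 - q) : E37.Nonsingular q r := by
  rw [Affine.nonsingular_iff, Affine.equation_iff]
  simp only [E37]
  refine ⟨by linear_combination h, ?_⟩
  by_contra hc
  push Not at hc
  obtain ⟨h1, h2⟩ := hc
  have h3 : r = -1 / 2 := by linarith
  have h4 : q ^ 2 = 1 / 3 := by linarith
  have h5 : q ^ 3 - q = -(2 / 3) * q := by
    have : q ^ 3 = q * q ^ 2 := by ring
    rw [this, h4]
    ring
  rw [h5, h3] at h
  have h6 : q = 3 / 8 := by linarith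
  rw [h6] at h4
  norm_num at h4

/-- The point `(0, 0)`. -/
def P37 : E37.Point := .some 0 0 (E37_ns (by norm_num))

/-- The denominator of the `x`-coordinate of a point is exactly divisible by `4 ^ m`. -/
def Sv (m : ℕ) (B : E37.Point) : Prop :=
  ∃ a b : ℤ, Odd a ∧ Odd b ∧ xc B * ((4 : ℚ) ^ m * b) = a

theorem Sv.ne {m : ℕ} {B : E37.Point} (h : Sv m B) : B ≠ 0 := by
  obtain ⟨a, b, ha, -, h⟩ := h
  rintro rfl
  have e : xc (0 : E37.Point) = 0 := rfl
  rw [e, zero_mul] at h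
  have h1 : a = 0 := by exact_mod_cast h.symm
  rw [h1] at ha
  exact absurd ha (by decide)

theorem psi_sq {B : E37.Point} (h : B ≠ 0) : psi B ^ 2 = 4 * xc B ^ 3 - 4 * xc B + 1 := by
  rcases B with _ | ⟨q, r, hq⟩
  · exact absurd rfl h
  · have h1 := (Affine.equation_iff q r).1 hq.1
    show (r - E37.negY q r) ^ 2 = 4 * q ^ 3 - 4 * q + 1
    unfold Affine.negY
    simp only [E37] at h1 ⊢
    linear_combination 4 * h1

theorem Sv.dbl {m : ℕ} (hm : 0 < m) {B : E37.Point} (h : Sv m B) : Sv (m + 1) (B + B) := by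
  have hB0 := h.ne
  obtain ⟨a, b, ha, hb, h⟩ := h
  have hsq := psi_sq hB0
  obtain ⟨k, rfl⟩ : ∃ k, m = k + 1 := ⟨m - 1, by omega⟩
  set c : ℤ := 4 ^ (k + 1) * b with hc
  have hc2 : Even c := by
    rw [hc, pow_succ, mul_assoc]
    exact ((by decide : Even (4 : ℤ)).mul_right b).mul_left _
  have hcq : (4 : ℚ) ^ (k + 1) * b = c := by
    rw [hc]
    push_cast
    ring
  rw [hcq] at h
  have hc0 : (c : ℚ) ≠ 0 := by
    intro h0
    rw [h0, mul_zero] at h
    have h1 : a = 0 := by exact_mod_cast h.symm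
    rw [h1] at ha
    exact absurd ha (by decide)
  have hx : xc B = a / c := by
    rw [← h, mul_div_cancel_right₀ _ hc0]
  -- the numbers
  set N : ℤ := a ^ 4 + 2 * a ^ 2 * c ^ 2 - 2 * a * c ^ 3 + c ^ 4 with hN
  set M : ℤ := a ^ 3 - a * c ^ 2 + 4 ^ k * b * c ^ 2 with hM
  have hNo : Odd N := by
    rw [hN]
    refine Odd.add_even (Odd.sub_even (Odd.add_even ha.pow ?_) ?_) ?_
    · exact (hc2.pow_of_ne_zero two_ne_zero).mul_left _
    · exact (hc2.pow_of_ne_zero three_ne_zero).mul_left _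
    · exact hc2.pow_of_ne_zero (by norm_num)
  have hMo : Odd M := by
    rw [hM]
    refine Odd.add_even (Odd.sub_even ha.pow ?_) ?_
    · exact (hc2.pow_of_ne_zero two_ne_zero).mul_left _
    · exact (hc2.pow_of_ne_zero two_ne_zero).mul_left _
  have hM0 : (M : ℚ) ≠ 0 := by
    intro h0
    have h1 : M = 0 := by exact_mod_cast h0
    rw [h1] at hMo
    exact absurd hMo (by decide)
  have hψ : psi B ^ 2 * c ^ 3 = 4 * M := by
    rw [hsq, hx, hM]
    have e : (c : ℚ) ^ 3 = 4 * (4 ^ k * b) * c ^ 2 := by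
      rw [← hcq]
      ring
    push_cast
    field_simp
    linear_combination e
  have hB : B ≠ -B := by
    intro h1
    have h2 := congrArg psi h1
    rw [psi_negpt] at h2
    have h3 : psi B = 0 := by linarith
    rw [h3] at hψ
    apply hM0
    linarith
  have hd := dbl_identity hB 0
  refine ⟨N, b * M, hNo, hb.mul hMo, ?_⟩
  have hPsi : Psi E37 (xc B) (xc B) 0 * c ^ 4 = N := by
    rw [hx, hN]
    unfold Psi
    simp only [E37]
    push_cast
    field_simp
    ring
  have h4 : xc (B + B) * (4 * M * c) = N := by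
    rw [← hPsi, ← hd, ← hψ]
    ring
  rw [← h4, ← hcq]
  push_cast
  ring

theorem Sv.unique {m n : ℕ} {B : E37.Point} (h : Sv m B) (h' : Sv n B) : m = n := by
  have key : ∀ {m n : ℕ}, Sv m B → Sv n B → ¬ m < n := by
    intro m n h h' hmn
    obtain ⟨a, b, ha, hb, h⟩ := h
    obtain ⟨a', b', ha', hb', h'⟩ := h'
    obtain ⟨k, rfl⟩ : ∃ k, n = m + (k + 1) := ⟨n - m - 1, by omega⟩
    have e : a' * b = a * 4 ^ (k + 1) * b' := by
      have : ((a' * b : ℤ) : ℚ) = ((a * 4 ^ (k + 1) * b' : ℤ) : ℚ) := by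
        push_cast
        rw [← h, ← h']
        ring
      exact_mod_cast this
    have h1 : Odd (a' * b) := ha'.mul hb
    rw [e, pow_succ] at h1
    have h2 : Even (a * (4 ^ k * 4) * b') :=
      (((by decide : Even (4 : ℤ)).mul_left _).mul_left _).mul_right _
    exact (Int.not_odd_iff_even.2 h2) h1
  rcases lt_trichotomy m n with h1 | h1 | h1
  · exact absurd h1 (key h h')
  · exact h1
  · exact absurd h1 (key h' h)

section

theorem P2 : P37 + P37 = .some 1 0 (E37_ns (by norm_num)) := by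
  refine dbl_pt _ _ ?_ (-1) ?_ ?_ ?_
  · unfold Affine.negY
    simp only [E37]
    norm_num
  · unfold Affine.negY
    simp only [E37]
    norm_num
  · simp only [E37]
    norm_num
  · simp only [E37]
    norm_num

theorem P3 : P37 + .some 1 0 (E37_ns (by norm_num)) = .some (-1) (-1) (E37_ns (by norm_num)) := by
  refine add_pt _ _ _ (by norm_num) 0 (by norm_num) ?_ ?_
  · simp only [E37]
    norm_num
  · simp only [E37]
    norm_num

theorem P4 : P37 + .some (-1) (-1) (E37_ns (by norm_num)) =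
    .some 2 (-3) (E37_ns (by norm_num)) := by
  refine add_pt _ _ _ (by norm_num) 1 (by norm_num) ?_ ?_
  · simp only [E37]
    norm_num
  · simp only [E37]
    norm_num

theorem P5 : P37 + .some 2 (-3) (E37_ns (by norm_num)) =
    .some (1 / 4) (-5 / 8) (E37_ns (by norm_num)) := by
  refine add_pt _ _ _ (by norm_num) (-3 / 2) (by norm_num) ?_ ?_
  · simp only [E37]
    norm_num
  · simp only [E37]
    norm_num

theorem P6 : P37 + .some (1 / 4) (-5 / 8) (E37_ns (by norm_num)) =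
    .some 6 14 (E37_ns (by norm_num)) := by
  refine add_pt _ _ _ (by norm_num) (-5 / 2) (by norm_num) ?_ ?_
  · simp only [E37]
    norm_num
  · simp only [E37]
    norm_num

theorem P7 : P37 + .some 6 14 (E37_ns (by norm_num)) =
    .some (-5 / 9) (8 / 27) (E37_ns (by norm_num)) := by
  refine add_pt _ _ _ (by norm_num) (7 / 3) (by norm_num) ?_ ?_
  · simp only [E37]
    norm_num
  · simp only [E37]
    norm_num

/-- The `x`-coordinates of the first multiples. -/
theorem xs : xc ((1 : ℤ) • P37) = 0 ∧ xc ((2 : ℤ) • P37) = 1 ∧ xc ((3 : ℤ) • P37) = -1 ∧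
    xc ((4 : ℤ) • P37) = 2 ∧ xc ((5 : ℤ) • P37) = 1 / 4 ∧ xc ((6 : ℤ) • P37) = 6 ∧
    xc ((7 : ℤ) • P37) = -5 / 9 := by
  have hs : ∀ n : ℤ, (n + 1) • P37 = P37 + n • P37 := fun n => by
    rw [add_zsmul, one_zsmul, add_comm]
  have e2 : (2 : ℤ) • P37 = .some 1 0 (E37_ns (by norm_num)) := by
    rw [two_zsmul, P2]
  have e3 : (3 : ℤ) • P37 = .some (-1) (-1) (E37_ns (by norm_num)) := by
    rw [show (3 : ℤ) = 2 + 1 from rfl, hs, e2, P3]
  have e4 : (4 : ℤ) • P37 = .some 2 (-3) (E37_ns (by norm_num)) := by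
    rw [show (4 : ℤ) = 3 + 1 from rfl, hs, e3, P4]
  have e5 : (5 : ℤ) • P37 = .some (1 / 4) (-5 / 8) (E37_ns (by norm_num)) := by
    rw [show (5 : ℤ) = 4 + 1 from rfl, hs, e4, P5]
  have e6 : (6 : ℤ) • P37 = .some 6 14 (E37_ns (by norm_num)) := by
    rw [show (6 : ℤ) = 5 + 1 from rfl, hs, e5, P6]
  have e7 : (7 : ℤ) • P37 = .some (-5 / 9) (8 / 27) (E37_ns (by norm_num)) := by
    rw [show (7 : ℤ) = 6 + 1 from rfl, hs, e6, P7]
  refine ⟨?_, ?_, ?_, ?_, ?_, ?_, ?_⟩
  · rw [one_smul]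
    rfl
  · rw [e2]
    rfl
  · rw [e3]
    rfl
  · rw [e4]
    rfl
  · rw [e5]
    rfl
  · rw [e6]
    rfl
  · rw [e7]
    rfl

theorem Sv_all (k : ℕ) : Sv (k + 1) ((5 * 2 ^ k) • P37) := by
  induction k with
  | zero =>
    rw [pow_zero, mul_one]
    have h := xs.2.2.2.2.1
    have e : (5 : ℤ) • P37 = (5 : ℕ) • P37 := by norm_cast
    rw [e] at h
    refine ⟨1, 1, by decide, by decide, ?_⟩
    rw [h]
    norm_num
  | succ k ih =>
    have e : (5 * 2 ^ (k + 1)) • P37 = (5 * 2 ^ k) • P37 + (5 * 2 ^ k) • P37 := by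
      rw [← two_smul ℕ, smul_smul]
      congr 1
      ring
    rw [e]
    exact ih.dbl (Nat.succ_pos k)

theorem P37_order {n : ℕ} (hn : 0 < n) : n • P37 ≠ 0 := by
  intro h
  have : NeZero n := ⟨hn.ne'⟩
  obtain ⟨k, l, hkl, he⟩ := Finite.exists_ne_map_eq_of_infinite
    (fun k : ℕ => ((5 * 2 ^ k : ℕ) : ZMod n))
  apply hkl
  have h1 := (ZMod.natCast_eq_natCast_iff _ _ _).1 he
  have h2 : (5 * 2 ^ k) • P37 = (5 * 2 ^ l) • P37 := by
    rw [nsmul_eq_mod_nsmul _ h, nsmul_eq_mod_nsmul (5 * 2 ^ l) h, h1]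
  have h3 := Sv_all k
  rw [h2] at h3
  have h4 := h3.unique (Sv_all l)
  omega

theorem TF37 : TF (AddSubgroup.zmultiples P37) := by
  intro Q hQ n hn h0
  obtain ⟨m, rfl⟩ := AddSubgroup.mem_zmultiples_iff.1 hQ
  have h1 : (n * m.natAbs) • P37 = 0 := by
    rcases Int.natAbs_eq m with h | h
    · rw [h, natCast_zsmul, smul_smul] at h0
      exact h0
    · rw [h, neg_smul, natCast_zsmul, smul_neg, neg_eq_zero, smul_smul] at h0
      exact h0
  by_contra h2
  have hm : m ≠ 0 := by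
    rintro rfl
    exact h2 (zero_smul _ _)
  exact P37_order (Nat.mul_pos hn (Int.natAbs_pos.2 hm)) h1

variable (L : Type*) [Field L] [Algebra ℚ L] [Algebra E37.CoordinateRing L]
  [IsScalarTower ℚ E37.CoordinateRing L] [IsFractionRing E37.CoordinateRing L]

theorem br37 {a b : ℤ} (ha : a ≠ 0) (hb : b ≠ 0) (h1 : a ≠ b) (h2 : a ≠ -b) :
    br L P37 (un (xc (a • P37) - xc (b • P37))) = 0 := by
  have hP : P37 ∈ AddSubgroup.zmultiples P37 := AddSubgroup.mem_zmultiples P37
  have h0 : P37 ≠ 0 := by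
    have := P37_order one_pos
    rwa [one_smul] at this
  have h := TF37.int L hP h0 ha hb h1 h2
  have e : lam L P37 = 0 := by
    unfold lam
    have e1 : psi P37 = 1 := by
      show (0 : ℚ) - E37.negY 0 0 = 1
      unfold Affine.negY
      simp only [E37]
      norm_num
    have u1 : un (1 : ℚ) = 1 := un_eq rfl
    rw [e1, u1, br_one]
  rw [e, smul_zero] at h
  exact (smul_eq_zero.1 h).resolve_left three_ne_zero

theorem br37_primes : ∀ p ∈ ({2, 3, 5, 7, 23, 29, 59} : Finset ℕ), ∀ c : ℚˣ, (c : ℚ) = p →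
    br L P37 c = 0 := by
  obtain ⟨x1, x2, x3, x4, x5, x6, x7⟩ := xs
  have k2 : br L P37 (un 2) = 0 := by
    have h := br37 L (a := 4) (b := 1) (by norm_num) (by norm_num) (by norm_num) (by norm_num)
    rw [x4, x1] at h
    norm_num at h
    exact h
  have k3 : br L P37 (un 3) = 0 := by
    have h := br37 L (a := 4) (b := 3) (by norm_num) (by norm_num) (by norm_num) (by norm_num)
    rw [x4, x3] at h
    norm_num at h
    exact h
  have k5 : br L P37 (un 5) = 0 := by
    have h := br37 L (a := 6) (b := 2) (by norm_num) (by norm_num) (by norm_num) (by norm_num)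
    rw [x6, x2] at h
    norm_num at h
    exact h
  have k7 : br L P37 (un 7) = 0 := by
    have h := br37 L (a := 6) (b := 3) (by norm_num) (by norm_num) (by norm_num) (by norm_num)
    rw [x6, x3] at h
    norm_num at h
    exact h
  have k23 : br L P37 (un 23) = 0 := by
    have h := br37 L (a := 6) (b := 5) (by norm_num) (by norm_num) (by norm_num) (by norm_num)
    rw [x6, x5] at h
    have e : (un (23 : ℚ)) = un (6 - 1 / 4) * (un 2 * un 2) := by
      apply Units.ext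
      rw [Units.val_mul, Units.val_mul, un_val (by norm_num), un_val (by norm_num),
        un_val (by norm_num)]
      norm_num
    rw [e, br_mul, br_mul, h, k2, add_zero, add_zero]
  have k29 : br L P37 (un 29) = 0 := by
    have h := br37 L (a := 5) (b := 7) (by norm_num) (by norm_num) (by norm_num) (by norm_num)
    rw [x5, x7] at h
    have e : (un (29 : ℚ)) = un (1 / 4 - -5 / 9) * ((un 2 * un 2) * (un 3 * un 3)) := by
      apply Units.ext
      rw [Units.val_mul, Units.val_mul, Units.val_mul, Units.val_mul, un_val (by norm_num),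
        un_val (by norm_num), un_val (by norm_num), un_val (by norm_num)]
      norm_num
    rw [e, br_mul, br_mul, br_mul, br_mul, h, k2, k3, add_zero, add_zero, add_zero]
  have k59 : br L P37 (un 59) = 0 := by
    have h := br37 L (a := 6) (b := 7) (by norm_num) (by norm_num) (by norm_num) (by norm_num)
    rw [x6, x7] at h
    have e : (un (59 : ℚ)) = un (6 - -5 / 9) * (un 3 * un 3) := by
      apply Units.ext
      rw [Units.val_mul, Units.val_mul, un_val (by norm_num), un_val (by norm_num),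
        un_val (by norm_num)]
      norm_num
    rw [e, br_mul, br_mul, h, k3, add_zero, add_zero]
  intro p hp c hc
  rw [← un_eq hc]
  simp only [Finset.mem_insert, Finset.mem_singleton] at hp
  rcases hp with rfl | rfl | rfl | rfl | rfl | rfl | rfl
  · exact_mod_cast k2
  · exact_mod_cast k3
  · exact_mod_cast k5
  · exact_mod_cast k7
  · exact_mod_cast k23
  · exact_mod_cast k29
  · exact_mod_cast k59

end

end Pool.Agent.H442.SK
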