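import Pool.Agent.H442.Curve2
set_option autoImplicit false

/-!
The polynomials `D = ∏ (X - β_l)` and `R = D + (X^j mod D)` for natural numbers `β_l ≥ 2`: for
large `j` the quotient `R / D` is large in the unit disc.
-/

namespace Pool.Agent.H442

open Polynomial Metric Set Filter Topology MeasureTheory

open Pool.Agent.TH826.MK (Torus KQ Unramified circ norm_circ contDiff_circ circ_add_one)

open Pool.Agent.TH826.UH

open Pool.Agent.Helper537_Sym (sy)

open scoped Real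

variable {g : ℕ}

/-- `D = ∏ (X - β_l)` -/
noncomputable def Dz (β : Fin g → ℕ) : ℤ[X] := ∏ l, (X - C (β l : ℤ))

/-- `R = D + (X^j mod D)` -/
noncomputable def Rz (β : Fin g → ℕ) (j : ℕ) : ℤ[X] := Dz β + X ^ j %ₘ Dz β

theorem Dz_monic (β : Fin g → ℕ) : (Dz β).Monic := monic_prod_of_monic _ _ fun _ _ => monic_X_sub_C _

theorem Dz_natDegree (β : Fin g → ℕ) : (Dz β).natDegree = g := by
  unfold Dz
  rw [natDegree_prod_of_monic _ _ fun _ _ => monic_X_sub_C _]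
  simp only [natDegree_X_sub_C, Finset.sum_const, Finset.card_univ, Fintype.card_fin,
    smul_eq_mul, mul_one]

theorem mod_degree_lt (β : Fin g → ℕ) (j : ℕ) : (X ^ j %ₘ Dz β : ℤ[X]).degree < (Dz β).degree :=
  degree_modByMonic_lt _ (Dz_monic β)

theorem Rz_monic (β : Fin g → ℕ) (j : ℕ) : (Rz β j).Monic :=
  (Dz_monic β).add_of_left (mod_degree_lt β j)

theorem Rz_natDegree (β : Fin g → ℕ) (j : ℕ) : (Rz β j).natDegree = g := by
  have h1 : (Rz β j).degree = (Dz β).degree := degree_add_eq_left_of_degree_lt (mod_degree_lt β j)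
  rw [natDegree_eq_of_degree_eq h1, Dz_natDegree]

theorem pow_sub_Rz (β : Fin g → ℕ) (j : ℕ) :
    (X ^ j - Rz β j : ℤ[X]) = Dz β * (X ^ j /ₘ Dz β - 1) := by
  have h := modByMonic_add_div (X ^ j : ℤ[X]) (Dz β)
  unfold Rz
  linear_combination -h

/-- the nodes as complex numbers -/
def bc (β : Fin g → ℕ) (l : Fin g) : ℂ := β l

theorem bc_inj {β : Fin g → ℕ} (h : Function.Injective β) : Function.Injective (bc β) := by
  intro i j hij
  exact h (Nat.cast_injective hij)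

theorem Dz_map {F : Type*} [CommRing F] (β : Fin g → ℕ) :
    (Dz β).map (Int.castRingHom F) = Lagrange.nodal Finset.univ fun l => ((β l : ℕ) : F) := by
  unfold Dz Lagrange.nodal
  rw [Polynomial.map_prod]
  simp

theorem mod_map {F : Type*} [Field F] [CharZero F] {β : Fin g → ℕ} (h : Function.Injective β)
    (j : ℕ) : (X ^ j %ₘ Dz β : ℤ[X]).map (Int.castRingHom F) =
      Lagrange.interpolate Finset.univ (fun l => ((β l : ℕ) : F))
        (fun l => ((β l : ℕ) : F) ^ j) := by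
  have hinj : Function.Injective fun l => ((β l : ℕ) : F) := fun a b hab =>
    h (Nat.cast_injective hab)
  refine Lagrange.eq_interpolate_of_eval_eq _ hinj.injOn ?_ fun l _ => ?_
  · refine degree_map_le.trans_lt ?_
    rw [Finset.card_univ, Fintype.card_fin]
    have h1 := mod_degree_lt β j
    rw [degree_eq_natDegree (Dz_monic β).ne_zero, Dz_natDegree] at h1
    exact h1
  · have h1 := congrArg (fun p : ℤ[X] => (p.map (Int.castRingHom F)).eval ((β l : ℕ) : F))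
      (modByMonic_add_div (X ^ j : ℤ[X]) (Dz β))
    simp only [Polynomial.map_add, Polynomial.map_mul, eval_add, eval_mul, Polynomial.map_pow,
      Polynomial.map_X, eval_pow, eval_X] at h1
    rw [Dz_map, Lagrange.eval_nodal_at_node (v := fun l => ((β l : ℕ) : F))
      (Finset.mem_univ l), zero_mul, add_zero] at h1
    exact h1

theorem eval_Rz {β : Fin g → ℕ} (h : Function.Injective β) (j : ℕ) {x : ℂ}
    (hx : ∀ l, x ≠ bc β l) : ((Rz β j).map (Int.castRingHom ℂ)).eval x =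
      ((Dz β).map (Int.castRingHom ℂ)).eval x *
        (1 + ∑ l, Lagrange.nodalWeight Finset.univ (bc β) l * (x - bc β l)⁻¹ * bc β l ^ j) := by
  unfold Rz
  rw [Polynomial.map_add, eval_add, mod_map h, Dz_map]
  have h1 := Lagrange.eval_interpolate_not_at_node (s := Finset.univ) (v := bc β)
    (fun l => bc β l ^ j) (x := x) fun l _ => hx l
  have h2 : Lagrange.interpolate Finset.univ (fun l => ((β l : ℕ) : ℂ))
      (fun l => ((β l : ℕ) : ℂ) ^ j) = Lagrange.interpolate Finset.univ (bc β)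
      (fun l => bc β l ^ j) := rfl
  have h3 : (Lagrange.nodal Finset.univ fun l => ((β l : ℕ) : ℂ)) =
    Lagrange.nodal Finset.univ (bc β) := rfl
  rw [h2, h3, h1]
  ring

theorem norm_sub_ge {β : Fin g → ℕ} (h2 : ∀ l, 2 ≤ β l) {x : ℂ} (hx : ‖x‖ < 1) (l : Fin g) :
    1 < ‖x - bc β l‖ ∧ ‖x - bc β l‖ < β l + 1 := by
  have h3 : ‖bc β l‖ = β l := by unfold bc; exact Complex.norm_natCast _
  have h4 : (2 : ℝ) ≤ β l := by exact_mod_cast h2 l
  have h5 := norm_sub_norm_le (bc β l) x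
  rw [norm_sub_rev] at h5
  have h6 := norm_sub_le x (bc β l)
  constructor <;> linarith

theorem norm_Dz_ge {β : Fin g → ℕ} (h2 : ∀ l, 2 ≤ β l) {x : ℂ} (hx : ‖x‖ < 1) :
    1 ≤ ‖((Dz β).map (Int.castRingHom ℂ)).eval x‖ := by
  rw [Dz_map, Lagrange.eval_nodal, norm_prod]
  calc (1 : ℝ) = ∏ _l : Fin g, (1 : ℝ) := by simp
    _ ≤ ∏ l, ‖x - bc β l‖ := Finset.prod_le_prod (fun _ _ => zero_le_one)
        fun l _ => (norm_sub_ge h2 hx l).1.le

/-- `R / D` is large in the unit disc, for large `j`. -/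
theorem exists_large (hg : 1 ≤ g) {β : Fin g → ℕ} (h : Function.Injective β)
    (h2 : ∀ l, 2 ≤ β l) : ∃ j₀ : ℕ, ∀ j ≥ j₀, ∀ x : ℂ, ‖x‖ < 1 →
      40 * ‖((Dz β).map (Int.castRingHom ℂ)).eval x‖ ≤
        ‖((Rz β j).map (Int.castRingHom ℂ)).eval x‖ := by
  classical
  have hne : (Finset.univ : Finset (Fin g)).Nonempty := by
    rw [Finset.univ_nonempty_iff]
    exact ⟨⟨0, hg⟩⟩
  obtain ⟨m, -, hm⟩ := Finset.exists_max_image Finset.univ β hne
  set w : Fin g → ℂ := Lagrange.nodalWeight Finset.univ (bc β) with hw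
  have hw0 : w m ≠ 0 := Lagrange.nodalWeight_ne_zero (bc_inj h).injOn (Finset.mem_univ m)
  have hwm : 0 < ‖w m‖ := norm_pos_iff.2 hw0
  have hB : (2 : ℝ) ≤ β m := by exact_mod_cast h2 m
  have hB0 : (0 : ℝ) < β m := by linarith
  set c : ℝ := ‖w m‖ / (β m + 1) with hc
  have hc0 : 0 < c := by positivity
  -- the other terms are of smaller order
  have hlim : Tendsto (fun j : ℕ => (β m : ℝ) ^ j * (c - ∑ l ∈ Finset.univ.erase m,
      ‖w l‖ * ((β l : ℝ) / β m) ^ j) - 1) atTop atTop := by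
    refine tendsto_atTop_add_const_right _ _ ?_
    refine Tendsto.atTop_mul_pos hc0 (tendsto_pow_atTop_atTop_of_one_lt (by linarith)) ?_
    have h3 : Tendsto (fun j : ℕ => c - ∑ l ∈ Finset.univ.erase m,
        ‖w l‖ * ((β l : ℝ) / β m) ^ j) atTop (𝓝 (c - ∑ l ∈ Finset.univ.erase m, ‖w l‖ * 0)) := by
      refine tendsto_const_nhds.sub (tendsto_finsetSum _ fun l hl => ?_)
      refine tendsto_const_nhds.mul (tendsto_pow_atTop_nhds_zero_of_lt_one (by positivity) ?_)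
      rw [div_lt_one hB0]
      have h4 : β l < β m := lt_of_le_of_ne (hm l (Finset.mem_univ l))
        fun he => Finset.ne_of_mem_erase hl (h he)
      exact_mod_cast h4
    simpa using h3
  obtain ⟨j₀, hj₀⟩ := (tendsto_atTop.1 hlim 40).exists_forall_of_atTop
  refine ⟨j₀, fun j hj x hx => ?_⟩
  have hx0 : ∀ l, x ≠ bc β l := by
    intro l he
    have h3 := (norm_sub_ge h2 hx l).1
    rw [he, sub_self, norm_zero] at h3
    linarith
  rw [eval_Rz h j hx0, norm_mul, mul_comm (40 : ℝ)]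
  refine mul_le_mul_of_nonneg_left ?_ (norm_nonneg _)
  have hterm : ∀ l, ‖w l * (x - bc β l)⁻¹ * bc β l ^ j‖ = ‖w l‖ * ‖x - bc β l‖⁻¹ * (β l : ℝ) ^ j := by
    intro l
    rw [norm_mul, norm_mul, norm_inv, norm_pow]
    congr 2
    unfold bc
    exact Complex.norm_natCast _
  have h5 : c * (β m : ℝ) ^ j ≤ ‖w m * (x - bc β m)⁻¹ * bc β m ^ j‖ := by
    rw [hterm]
    refine mul_le_mul_of_nonneg_right ?_ (by positivity)
    rw [hc, div_eq_mul_inv]
    refine mul_le_mul_of_nonneg_left ?_ (norm_nonneg _)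
    obtain ⟨h6, h7⟩ := norm_sub_ge h2 hx m
    exact inv_anti₀ (by linarith) h7.le
  have h6 : ∀ l ∈ Finset.univ.erase m, ‖w l * (x - bc β l)⁻¹ * bc β l ^ j‖ ≤
      ‖w l‖ * (β l : ℝ) ^ j := by
    intro l _
    rw [hterm]
    refine mul_le_mul_of_nonneg_right ?_ (by positivity)
    obtain ⟨h6, h7⟩ := norm_sub_ge h2 hx l
    exact mul_le_of_le_one_right (norm_nonneg _) (inv_le_one_of_one_le₀ h6.le)
  have h7 : (1 + ∑ l, w l * (x - bc β l)⁻¹ * bc β l ^ j) =
      w m * (x - bc β m)⁻¹ * bc β m ^ j - -(1 + ∑ l ∈ Finset.univ.erase m,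
        w l * (x - bc β l)⁻¹ * bc β l ^ j) := by
    rw [← Finset.add_sum_erase _ _ (Finset.mem_univ m)]
    ring
  rw [h7]
  refine le_trans ?_ (norm_sub_norm_le _ _)
  have h8 : ‖-(1 + ∑ l ∈ Finset.univ.erase m, w l * (x - bc β l)⁻¹ * bc β l ^ j)‖ ≤
      1 + ∑ l ∈ Finset.univ.erase m, ‖w l‖ * (β l : ℝ) ^ j := by
    rw [norm_neg]
    refine (norm_add_le _ _).trans ?_
    rw [norm_one]
    exact add_le_add le_rfl ((norm_sum_le _ _).trans (Finset.sum_le_sum h6))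
  have h9 := hj₀ j hj
  have h10 : (β m : ℝ) ^ j * (c - ∑ l ∈ Finset.univ.erase m,
      ‖w l‖ * ((β l : ℝ) / β m) ^ j) = c * (β m : ℝ) ^ j -
      ∑ l ∈ Finset.univ.erase m, ‖w l‖ * (β l : ℝ) ^ j := by
    rw [mul_sub, mul_comm _ c, Finset.mul_sum]
    congr 1
    refine Finset.sum_congr rfl fun l _ => ?_
    rw [div_pow]
    have : (β m : ℝ) ^ j ≠ 0 := by positivity
    field_simp
  rw [h10] at h9
  linarith

/-- The loops near `X = 0`. -/
theorem exists_loop {t : ℤ} (ht : |t| ≤ 2) {D R : ℤ[X]}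
    (hD : ∀ x : ℂ, ‖x‖ < 1 → 1 ≤ ‖(D.map (Int.castRingHom ℂ)).eval x‖)
    (hR : ∀ x : ℂ, ‖x‖ < 1 → 40 * ‖(D.map (Int.castRingHom ℂ)).eval x‖ ≤
      ‖(R.map (Int.castRingHom ℂ)).eval x‖) (j : ℕ) (σ : ℚ →+* ℂ) :
    ∃ (ρ : ℝ) (Xs : ℝ → ℂ), Transcendental ℚ ρ ∧
      Lq σ t (X * R.map (algebraMap ℤ ℚ)) (D.map (algebraMap ℤ ℚ)) ρ Xs ∧ NZ Xs ∧
      NZ (fun s => (R.map (algebraMap ℤ ℚ)).eval₂ σ (Xs s)) ∧
      pr (circ ρ) (fun s => (R.map (algebraMap ℤ ℚ)).eval₂ σ (Xs s)) -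
        j * pr (circ ρ) Xs < 0 := by
  set Dc : ℂ[X] := D.map (Int.castRingHom ℂ) with hDc
  set Rc : ℂ[X] := R.map (Int.castRingHom ℂ) with hRc
  have hev : ∀ (P : ℤ[X]) (x : ℂ), (P.map (algebraMap ℤ ℚ)).eval₂ σ x =
      (P.map (Int.castRingHom ℂ)).eval x := by
    intro P x
    rw [eval₂_map, eval_map]
    congr 1
    exact Subsingleton.elim _ _
  have hD0 : ∀ x : ℂ, ‖x‖ < 1 → Dc.eval x ≠ 0 := by
    intro x hx h0
    have := hD x hx
    rw [h0, norm_zero] at this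
    linarith
  have hR1 : ∀ x : ℂ, ‖x‖ < 1 → 40 ≤ ‖Rc.eval x‖ := by
    intro x hx
    have h1 := hD x hx
    have h2 := hR x hx
    linarith
  have hR0 : ∀ x : ℂ, ‖x‖ < 1 → Rc.eval x ≠ 0 := by
    intro x hx h0
    have := hR1 x hx
    rw [h0, norm_zero] at this
    linarith
  have hball : ∀ x : ℂ, x ∈ ball (0 : ℂ) (2 * (1 / 2)) ↔ ‖x‖ < 1 := by
    intro x
    rw [mem_ball_zero_iff]
    norm_num
  obtain ⟨xb, hxb⟩ := exists_branch (V := fun x => Dc.eval x / Rc.eval x) (ξ := 0) (δ := 1 / 2)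
    (by norm_num) (by
      intro x hx
      have h1 := (hball x).1 hx
      exact ((Dc.differentiable x).div (Rc.differentiable x) (hR0 x h1)).differentiableWithinAt)
    (by
      intro x hx
      have h1 := (hball x).1 hx
      have h2 := hR x h1
      have h3 := hR1 x h1
      rw [norm_div, div_le_iff₀ (by linarith)]
      linarith) (by
      intro x hx
      have h1 := (hball x).1 hx
      exact div_ne_zero (hD0 x h1) (hR0 x h1))
  obtain ⟨ρ, hρ, hρη, hρt⟩ := exists_radius_tr (η := 1 / 2) (by norm_num)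
  have hρ0 : 0 < ρ := one_pos.trans hρ
  have hz := nz_circ hρ0
  have ht' : ‖(t : ℂ)‖ ≤ 2 := by
    rw [Complex.norm_intCast]
    exact_mod_cast ht
  set u : ℝ → ℂ := fun s => circ ρ s + (circ ρ s)⁻¹ - t with hu
  have hucd : ContDiff ℝ 2 u :=
    ((contDiff_circ ρ).add ((contDiff_circ ρ).inv hz.ne_zero)).sub contDiff_const
  have hub : ∀ s, u s ∈ ball (0 : ℂ) (9 / 2) := by
    intro s
    rw [mem_ball_zero_iff]
    have h1 : ‖circ ρ s + (circ ρ s)⁻¹‖ < 5 / 2 := by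
      refine (norm_add_le _ _).trans_lt ?_
      rw [norm_inv, norm_circ hρ0.le]
      linarith
    refine (norm_sub_le _ _).trans_lt ?_
    linarith
  have hper : ∀ s, u (s + 1) = u s := fun s => by
    simp only [hu, circ_add_one]
  obtain ⟨ζ, hζ, hζt⟩ := exists_zeta ht
  have hζ0 : ζ ≠ 0 := fun h0 => by rw [h0, norm_zero] at hζ; exact zero_ne_one hζ
  have hut : ∀ s, u s ≠ 0 := by
    intro s h0
    have h2 := hz.ne_zero s
    have h3 : (circ ρ s - ζ) * (circ ρ s - ζ⁻¹) = 0 := by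
      have h4 : u s = circ ρ s + (circ ρ s)⁻¹ - t := rfl
      rw [h4, hζt] at h0
      have h5 : circ ρ s * (circ ρ s)⁻¹ = 1 := mul_inv_cancel₀ h2
      have h6 : ζ * ζ⁻¹ = 1 := mul_inv_cancel₀ hζ0
      linear_combination (circ ρ s) * h0 - h5 + h6
    rcases mul_eq_zero.1 h3 with h4 | h4
    · have h5 := congrArg norm (sub_eq_zero.1 h4)
      rw [norm_circ hρ0.le, hζ] at h5
      exact hρ.ne' h5
    · have h5 := congrArg norm (sub_eq_zero.1 h4)
      rw [norm_circ hρ0.le, norm_inv, hζ, inv_one] at h5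
      exact hρ.ne' h5
  set Y : ℝ → ℂ := fun s => xb (u s) with hY
  have hYcd : ContDiff ℝ 2 Y := by
    rw [contDiff_iff_contDiffAt]
    intro s
    exact (((hxb _ (hub s)).1).contDiffAt.restrict_scalars ℝ).comp s hucd.contDiffAt
  have hYper : ∀ s, Y (s + 1) = Y s := fun s => by
    simp only [hY, hper]
  have hYd : ∀ s, ‖Y s - 0‖ < 1 / 2 := fun s => (hxb _ (hub s)).2.1
  have hYd1 : ∀ s, ‖Y s‖ < 1 := fun s => by
    have h1 := hYd s
    rw [sub_zero] at h1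
    linarith
  have hYeq : ∀ s, Y s = u s * (Dc.eval (Y s) / Rc.eval (Y s)) := fun s => by
    have h1 := (hxb _ (hub s)).2.2
    rw [zero_add] at h1
    exact h1
  have hYm : ∀ s, Y s * Rc.eval (Y s) = u s * Dc.eval (Y s) := by
    intro s
    have h1 := hR0 _ (hYd1 s)
    have h2 := hYeq s
    rw [← mul_div_assoc, eq_div_iff h1] at h2
    exact h2
  have hY0 : ∀ s, Y s ≠ 0 := by
    intro s
    rw [hYeq s]
    exact mul_ne_zero (hut s) (div_ne_zero (hD0 _ (hYd1 s)) (hR0 _ (hYd1 s)))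
  have nY : NZ Y := ⟨hYcd, hY0⟩
  obtain ⟨nR, prR⟩ := pr_poly hρ hYcd hYper hYd (P := Rc) (fun x hx => hR0 x (by
    rw [sub_zero] at hx
    linarith))
  obtain ⟨nD, prD⟩ := pr_poly hρ hYcd hYper hYd (P := Dc) (fun x hx => hD0 x (by
    rw [sub_zero] at hx
    linarith))
  have nu : NZ u := ⟨hucd, hut⟩
  have pru : pr (circ ρ) u = 0 := by
    have e : u = fun s => circ ρ s + (circ ρ s)⁻¹ - (ζ + ζ⁻¹) := by
      funext s
      rw [hu, hζt]
    rw [e]
    exact pr_circ hρ hζ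
  have hsum : pr (circ ρ) Y + pr (circ ρ) (fun s => Rc.eval (Y s)) =
      pr (circ ρ) (fun s => Dc.eval (Y s)) := by
    rw [← pr_mul hz nY nR]
    have e : (fun s => Y s * Rc.eval (Y s)) = fun s => u s * Dc.eval (Y s) := by
      funext s
      exact hYm s
    rw [e, pr_mul hz nu nD, pru, zero_add]
  refine ⟨ρ, Y, hρt, ⟨hρ, hYcd, hYper, fun s => ?_, fun s => ?_⟩, nY, ?_, ?_⟩
  · rw [hev]
    exact hD0 _ (hYd1 s)
  · rw [eval₂_mul, eval₂_X, hev, hev]
    exact hYm s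
  · simp only [hev]
    exact nR
  · simp only [hev]
    have h1 : pr (circ ρ) (fun s => Rc.eval (Y s)) - j * pr (circ ρ) Y =
        (1 + j) * pr (circ ρ) (fun s => Rc.eval (Y s)) -
          j * pr (circ ρ) (fun s => Dc.eval (Y s)) := by
      rw [← hsum]
      ring
    have hcR : IntervalIntegrable (fun s => Real.log ‖Rc.eval (Y s)‖) volume 0 1 :=
      nR.cont_log.intervalIntegrable _ _
    have hcD : IntervalIntegrable (fun s => Real.log ‖Dc.eval (Y s)‖) volume 0 1 :=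
      nD.cont_log.intervalIntegrable _ _
    have hlow1 : Real.log 40 ≤ ∫ s in (0 : ℝ)..1, Real.log ‖Rc.eval (Y s)‖ := by
      have h2 : ∫ _s in (0 : ℝ)..1, Real.log 40 ≤ ∫ s in (0 : ℝ)..1, Real.log ‖Rc.eval (Y s)‖ := by
        refine intervalIntegral.integral_mono_on zero_le_one
          (continuous_const.intervalIntegrable _ _) hcR fun s _ => ?_
        exact Real.log_le_log (by norm_num) (hR1 _ (hYd1 s))
      simpa using h2
    have hlow2 : ∫ s in (0 : ℝ)..1, Real.log ‖Dc.eval (Y s)‖ ≤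
        ∫ s in (0 : ℝ)..1, Real.log ‖Rc.eval (Y s)‖ := by
      refine intervalIntegral.integral_mono_on zero_le_one hcD hcR fun s _ => ?_
      refine Real.log_le_log (norm_pos_iff.2 (hD0 _ (hYd1 s))) ?_
      have h3 := hR _ (hYd1 s)
      have h4 := norm_nonneg (Dc.eval (Y s))
      linarith
    rw [h1, prR, prD]
    have hπ := Real.pi_pos
    have hlog : 0 < Real.log 40 := Real.log_pos (by norm_num)
    have hj : (0 : ℝ) ≤ j := Nat.cast_nonneg j
    have h5 : 0 ≤ (j : ℝ) * ((∫ s in (0 : ℝ)..1, Real.log ‖Rc.eval (Y s)‖) -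
        ∫ s in (0 : ℝ)..1, Real.log ‖Dc.eval (Y s)‖) :=
      mul_nonneg hj (sub_nonneg.2 hlow2)
    have h6 : 0 < 2 * π * ((∫ s in (0 : ℝ)..1, Real.log ‖Rc.eval (Y s)‖) +
        (j : ℝ) * ((∫ s in (0 : ℝ)..1, Real.log ‖Rc.eval (Y s)‖) -
        ∫ s in (0 : ℝ)..1, Real.log ‖Dc.eval (Y s)‖)) := by
      refine mul_pos (by positivity) ?_
      linarith
    linarith

/-- Curves `z + 1/z = t + X R(X) / D(X)`: the class `{z, R(X)/X^j}` and its regulator. -/
theorem spec1 {t : ℤ} (ht : |t| ≤ 2) {D R Q : ℤ[X]} (hDm : D.Monic) (hRm : R.Monic)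
    (hdeg : D.natDegree < 1 + R.natDegree) {j : ℕ} (hQ : X ^ j - R = D * Q)
    (hDx : ∀ x : ℂ, ‖x‖ < 1 → 1 ≤ ‖(D.map (Int.castRingHom ℂ)).eval x‖)
    (hRx : ∀ x : ℂ, ‖x‖ < 1 → 40 * ‖(D.map (Int.castRingHom ℂ)).eval x‖ ≤
      ‖(R.map (Int.castRingHom ℂ)).eval x‖) {A' D' R' : ℚ[X]} (hA' : A' = X * R')
    (hD' : D' = D.map (algebraMap ℤ ℚ)) (hR' : R' = R.map (algebraMap ℤ ℚ)) {κ μ ν : ℚ}
    (hκ : κ ≠ 0) (hμ : μ ≠ 0) (hf : Squarefree (fc t A' D' κ μ ν))
    (hd : 0 < (fc t A' D' κ μ ν).natDegree) (L : Type) [Field L]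
    [Algebra (HRing (fc t A' D' κ μ ν)) L] [IsFractionRing (HRing (fc t A' D' κ μ ν)) L] :
    ∃ z w : Lˣ, sy z w ∈ Unramified L 2 ∧ ∃ Γ : Torus L 1, Γ.reg (sy z w) ≠ 0 := by
  obtain ⟨ρ, Xs, hρt, hL, nX, nR, hneg⟩ := exists_loop ht hDx hRx j (algebraMap ℚ ℂ)
  rw [← hR', ← hD', ← hA'] at hL
  rw [← hR'] at nR hneg
  have hDm' : D'.Monic := by rw [hD']; exact hDm.map _
  have hRm' : R'.Monic := by rw [hR']; exact hRm.map _
  obtain ⟨Γ, hΓ⟩ := hL.exists_torus hρt hκ hμ hf hd L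
  obtain ⟨z, hz⟩ : ∃ z : Lˣ, (z : L) = gz (t := t) (A := A') (D := D') (κ := κ) (μ := μ)
      (ν := ν) L := ⟨Units.mk0 _ (gz_ne_zero hμ hκ hDm'.ne_zero), rfl⟩
  obtain ⟨x, hx⟩ : ∃ x : Lˣ, (x : L) = gP (t := t) (A := A') (D := D') (κ := κ) (μ := μ)
      (ν := ν) L X := ⟨Units.mk0 _ (gP_ne_zero hμ X_ne_zero), rfl⟩
  obtain ⟨r, hr⟩ : ∃ r : Lˣ, (r : L) = gP (t := t) (A := A') (D := D') (κ := κ) (μ := μ)
      (ν := ν) L R' := ⟨Units.mk0 _ (gP_ne_zero hμ hRm'.ne_zero), rfl⟩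
  refine ⟨z, r / x ^ j, ?_, Γ, ?_⟩
  · refine cls2 (O := ℤ) (fun a => isIntegral_algebraMap) ht (M := 1) hDm hRm
      monic_one ?_ hQ ?_ hD' hR' hκ hμ L z x r hz hx hr
    · rw [natDegree_one]
      exact hdeg
    · rw [Polynomial.map_one, mul_one]
      exact hA'
  · have h1 : ∀ θ, Γ.e θ (r : L) = R'.eval₂ (algebraMap ℚ ℂ) (Xs (θ 0)) := by
      intro θ
      rw [hr]
      exact (hΓ θ).2 R'
    have h2 : ∀ θ, Γ.e θ (x : L) = Xs (θ 0) := by
      intro θ
      have h3 := (hΓ θ).2 X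
      rw [eval₂_X, ← hx] at h3
      exact h3
    have e : sy z (r / x ^ j) = sy z (∏ i, (![r, x] : Fin 2 → Lˣ) i ^
        ((![1, -(j : ℤ)] : Fin 2 → ℤ) i)) := by
      rw [Fin.prod_univ_two]
      simp only [Matrix.cons_val_zero, Matrix.cons_val_one, zpow_one, zpow_neg, zpow_natCast,
        div_eq_mul_inv]
    have hreg := reg_sy Γ z (![r, x] : Fin 2 → Lˣ) (![1, -(j : ℤ)] : Fin 2 → ℤ)
      (Z := circ ρ) (W := ![fun s => R'.eval₂ (algebraMap ℚ ℂ) (Xs s), Xs])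
      (fun θ => by rw [hz]; exact (hΓ θ).1) (fun i θ => by
        match i with
        | 0 => exact h1 θ
        | 1 => exact h2 θ) (nz_circ (one_pos.trans hL.R1)) (fun i => by
        match i with
        | 0 => exact nR
        | 1 => exact nX)
    rw [e, hreg, Fin.sum_univ_two]
    simp only [Matrix.cons_val_zero, Matrix.cons_val_one]
    push_cast
    intro h0
    linarith

/-- The curves `z + 1/z = t + X R(X) / D(X)` with `R = D + (X^j mod D)` have an integral class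
with a nonzero regulator, for large `j`. -/
theorem spec2 (hg : 1 ≤ g) {β : Fin g → ℕ} (h : Function.Injective β) (h2 : ∀ l, 2 ≤ β l)
    {t : ℤ} (ht : |t| ≤ 2) : ∃ j₀ : ℕ, ∀ j ≥ j₀, ∀ (A' D' : ℚ[X]),
      A' = X * (Rz β j).map (algebraMap ℤ ℚ) → D' = (Dz β).map (algebraMap ℤ ℚ) →
      ∀ κ μ ν : ℚ, κ ≠ 0 → μ ≠ 0 → Squarefree (fc t A' D' κ μ ν) →
      0 < (fc t A' D' κ μ ν).natDegree →
      ∀ (L : Type) [Field L] [Algebra (HRing (fc t A' D' κ μ ν)) L]
        [IsFractionRing (HRing (fc t A' D' κ μ ν)) L],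
        ∃ z w : Lˣ, sy z w ∈ Unramified L 2 ∧ ∃ Γ : Torus L 1, Γ.reg (sy z w) ≠ 0 := by
  obtain ⟨j₀, hj₀⟩ := exists_large hg h h2
  refine ⟨j₀, fun j hj A' D' hA' hD' κ μ ν hκ hμ hf hd L _ _ _ => ?_⟩
  have h3 := hj₀ j hj
  have h4 := fun (x : ℂ) (hx : ‖x‖ < 1) => norm_Dz_ge h2 hx
  have h5 := Dz_monic β
  have h6 := Rz_monic β j
  have h7 := pow_sub_Rz β j
  have h8 : (Dz β).natDegree < 1 + (Rz β j).natDegree := by
    rw [Dz_natDegree, Rz_natDegree]
    omega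
  generalize Dz β = D at *
  generalize Rz β j = R at *
  exact spec1 ht h5 h6 h8 h7 h4 h3 hA' hD' rfl hκ hμ hf hd L

end Pool.Agent.H442
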