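import Pool.Agent.H442.RngD
set_option autoImplicit false

/-!
The classes `{R_k(x)/x^{j_k}, y_1, ..., y_d}` on the varieties
`D(x) P_1(y_1) ... P_d(y_d) = A(x) y_1 ... y_d` and their regulators.
-/

namespace Pool.Agent.H442

open Polynomial Metric Set Filter Topology

open Pool.Agent.TH826.MK (Torus KQ KQ.map KQ.map_symb symb Unramified unitPart pairing vf Good Per
  circ norm_circ contDiff_circ circ_add_one pairing_cons_mul)

open Pool.Agent.TH826.UH

open scoped WithZero Real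

section qd

variable {d : ℕ}

theorem qD_pow {a : (Fin d → ℝ) → ℂ} (ha : Good a) (n : ℕ) :
    qD (fun θ => a θ ^ n) = n * qD a := by
  have h := qD_prod (d := d) (Finset.range n) (F := fun _ => a) (fun _ => ha)
  simp only [Finset.prod_const, Finset.card_range, Finset.sum_const, nsmul_eq_mul] at h
  exact h

theorem qD_div {a b : (Fin d → ℝ) → ℂ} (ha : Good a) (hb : Good b) :
    qD (fun θ => a θ / b θ) = qD a - qD b := by
  have hq : Good fun θ => a θ / b θ := by
    refine ⟨?_, fun θ => div_ne_zero (ha.ne_zero θ) (hb.ne_zero θ)⟩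
    have e : (fun θ => a θ / b θ) = fun θ => a θ * (b θ)⁻¹ := by
      funext θ
      rw [div_eq_mul_inv]
    rw [e]
    exact ha.smooth.mul (hb.smooth.inv hb.ne_zero)
  rw [eq_sub_iff_add_eq, ← qD_mul hq hb]
  congr 1
  funext θ
  rw [div_mul_cancel₀ _ (hb.ne_zero θ)]

/-- the function `∏ P_l(y_l)/y_l` on the torus -/
noncomputable def uD (P : Fin d → ℤ[X]) (θ : Fin d → ℝ) : ℂ :=
  ∏ l, aeval (circ (5 / 4) (θ l)) (P l) / circ (5 / 4) (θ l)

theorem exists_sysD {P : Fin d → ℤ[X]} (hP : ∀ l, UnitRoots (P l)) :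
    ∃ B W E : ℝ, SysD (uD P) B W E := by
  have h1 := fun l => circP (hP l) (ρ := 5 / 4) (by norm_num) (by norm_num)
  refine exists_SysD (u := uD P) (B₀ := ∏ l, cN (P l).natDegree) ⟨?_, fun θ => ?_⟩
    (fun θ i => ?_) (fun θ => ?_)
  · exact contDiff_prod fun l _ => (h1 l).1.smooth.comp (contDiff_apply ℝ ℝ l)
  · exact Finset.prod_ne_zero_iff.2 fun l _ => (h1 l).1.ne_zero _
  · unfold uD
    refine Finset.prod_congr rfl fun l _ => ?_
    have e : circ (5 / 4) ((θ + Pi.single i 1 : Fin d → ℝ) l) = circ (5 / 4) (θ l) := by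
      by_cases hl : l = i
      · subst hl
        rw [Pi.add_apply, Pi.single_eq_same, circ_add_one]
      · rw [Pi.add_apply, Pi.single_eq_of_ne hl, add_zero]
    rw [e]
  · unfold uD
    rw [norm_prod]
    exact Finset.prod_le_prod (fun _ _ => norm_nonneg _) fun l _ => (h1 l).2.2 _

end qd

/-- The tori with independent regulators. -/
structure LPD {d r : ℕ} (P : Fin d → ℤ[X]) (D : ℤ[X]) (R : Fin r → ℤ[X]) (M : ℤ[X])
    (j : Fin r → ℕ) (Xs : Fin r → (Fin d → ℝ) → ℂ) : Prop where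
  xsm : ∀ i, ContDiff ℝ 2 (Xs i)
  xper : ∀ i, Per (Xs i)
  Dne : ∀ i s, (cx D).eval (Xs i s) ≠ 0
  eq : ∀ i s, (cx (X * (∏ k, R k) * M)).eval (Xs i s) = uD P s * (cx D).eval (Xs i s)
  wr : ∀ i s, (wrn (cx (X * (∏ k, R k) * M)) (cx D)).eval (Xs i s) ≠ 0
  nX : ∀ i, Good (Xs i)
  nR : ∀ i k, Good fun s => (cx (R k)).eval (Xs i s)
  inj : ∀ C : Fin r → ℝ, (∀ i, ∑ k, C k * (qD (fun s => (cx (R k)).eval (Xs i s)) -
        j k * qD (Xs i)) = 0) → ∀ k, C k = 0

theorem exists_LPD {d : ℕ} {P : Fin d → ℤ[X]} (hP : ∀ l, UnitRoots (P l)) {p : ℕ} (hp : 1 ≤ p)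
    {β : Fin p → ℕ} (h : Function.Injective β) (h2 : ∀ l, 2 ≤ β l) {M : ℤ[X]} (hM : M.Monic)
    {r : ℕ} (hr : 0 < r) : ∃ J : ℕ, ∀ j : Fin r → ℕ, Function.Injective j → (∀ k, J ≤ j k) →
      ∃ Xs, LPD P (Dz β) (fun k => Rz β (j k)) M j Xs := by
  obtain ⟨B, W, E, hY⟩ := exists_sysD hP
  obtain ⟨K, hK⟩ : ∃ K : ℝ, K = E * (1 + W * (1 + p + (∑ _k : Fin r, (p : ℝ)) + M.natDegree)) :=
    ⟨_, rfl⟩
  have hK0 : 0 ≤ K := by
    rw [hK]
    have := hY.hE
    have := hY.hW
    have : (0 : ℝ) ≤ ∑ _k : Fin r, (p : ℝ) := Finset.sum_nonneg fun k _ => Nat.cast_nonneg _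
    positivity
  obtain ⟨T₀, hT⟩ : ∃ T₀ : ℝ, T₀ = (r + 1) * K * (8 * (1 + 2 * p)) / Real.pi + 1 := ⟨_, rfl⟩
  have hπ := Real.pi_pos
  have hT0 : 0 < T₀ := by
    rw [hT]
    positivity
  have hT1 : (r + 1) * K * (8 * (1 + 2 * (p : ℝ))) ≤ Real.pi * T₀ := by
    rw [hT, mul_add Real.pi, mul_div_cancel₀ _ hπ.ne']
    linarith
  obtain ⟨J, hJ⟩ := discData6 T₀ hY.hB hp h h2 hM r
  refine ⟨max J p, fun j hj hjJ => ?_⟩
  have h3 := hJ j hj fun k => (le_max_left _ _).trans (hjJ k)
  have h4 : ∀ k, (p : ℝ) ≤ j k := fun k => by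
    exact_mod_cast (le_max_right _ _).trans (hjJ k)
  obtain ⟨Xs, m1, m2, m3, m4, m5, m6, m7, m8⟩ := matD hY hr (by exact_mod_cast hp) hT0 hT1
    (by
      rw [hK]
      simp only [Dz_natDegree, Rz_natDegree]
      exact le_rfl) h3 h4
  exact ⟨Xs, m1, m2, m3, m4, m5, m6, m7, m8⟩

/-- the derivative of the equation -/
theorem pderiv_eqnV {d : ℕ} (P : Fin d → ℤ[X]) (A D : ℤ[X]) :
    MvPolynomial.pderiv (Sum.inr 0) (eqnV P A D) =
      evZ (derivative D) (MvPolynomial.X (Sum.inr 0)) *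
        (∏ l, evZ (P l) (MvPolynomial.X (Sum.inl l))) -
      evZ (derivative A) (MvPolynomial.X (Sum.inr 0)) * ∏ l, MvPolynomial.X (Sum.inl l) := by
  have hZ : ∀ (i k : Fin d ⊕ Fin 2) (Q : ℤ[X]),
      MvPolynomial.pderiv i (evZ Q (MvPolynomial.X k : MvPolynomial (Fin d ⊕ Fin 2) ℚ)) =
        evZ (derivative Q) (MvPolynomial.X k : MvPolynomial (Fin d ⊕ Fin 2) ℚ) *
          MvPolynomial.pderiv i (MvPolynomial.X k) := by
    intro i k Q
    induction Q using Polynomial.induction_on' with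
    | add P Q hP hQ =>
      have e : ∀ P Q : ℤ[X], evZ (P + Q) (MvPolynomial.X k : MvPolynomial (Fin d ⊕ Fin 2) ℚ) =
          evZ P (MvPolynomial.X k) + evZ Q (MvPolynomial.X k) := fun P Q => map_add _ _ _
      rw [e, map_add, hP, hQ, derivative_add, e, add_mul]
    | monomial n a =>
      have e : ∀ (n : ℕ) (a : ℤ), evZ (monomial n a)
          (MvPolynomial.X k : MvPolynomial (Fin d ⊕ Fin 2) ℚ) =
          (a : MvPolynomial (Fin d ⊕ Fin 2) ℚ) * (MvPolynomial.X k) ^ n := by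
        intro n a
        unfold evZ
        rw [aeval_monomial]
        rfl
      rw [derivative_monomial, e, e, Derivation.leibniz, Derivation.leibniz_pow]
      have h0 : MvPolynomial.pderiv i ((a : ℤ) : MvPolynomial (Fin d ⊕ Fin 2) ℚ) = 0 :=
        Derivation.map_intCast _ _
      rw [h0]
      push_cast
      simp only [smul_eq_mul, nsmul_eq_mul]
      ring
  have h0 : ∀ t : Finset (Fin d), MvPolynomial.pderiv (R := ℚ) (Sum.inr 0)
      (∏ l ∈ t, evZ (P l) (MvPolynomial.X (Sum.inl l) : MvPolynomial (Fin d ⊕ Fin 2) ℚ)) = 0 := by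
    classical
    intro t
    induction t using Finset.induction_on with
    | empty => simp
    | insert i t hi ih =>
      rw [Finset.prod_insert hi, Derivation.leibniz, ih, hZ,
        MvPolynomial.pderiv_X_of_ne (by simp)]
      simp
  have h1 : ∀ t : Finset (Fin d), MvPolynomial.pderiv (R := ℚ) (Sum.inr 0)
      (∏ l ∈ t, (MvPolynomial.X (Sum.inl l) : MvPolynomial (Fin d ⊕ Fin 2) ℚ)) = 0 := by
    classical
    intro t
    induction t using Finset.induction_on with
    | empty => simp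
    | insert i t hi ih =>
      rw [Finset.prod_insert hi, Derivation.leibniz, ih,
        MvPolynomial.pderiv_X_of_ne (by simp)]
      simp
  unfold eqnV
  rw [map_sub, Derivation.leibniz, Derivation.leibniz, h0, h1, hZ, hZ,
    MvPolynomial.pderiv_X_self]
  simp only [smul_eq_mul, mul_one]
  ring

/-- The classes are unramified. -/
theorem unrD {d : ℕ} {s : Fin d → ℕ} {c : (l : Fin d) → Fin (s l) → ℕ} (hc : ∀ l i, 0 < c l i)
    (hN : ∀ l, 2 ≤ (cycP (c l)).natDegree) {r : ℕ} {D₀ M : ℤ[X]} {R : Fin r → ℤ[X]}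
    {j : Fin r → ℕ} {Q : Fin r → ℤ[X]} (hD : D₀.Monic) (hR : ∀ k, (R k).Monic) (hM : M.Monic)
    (hdeg : ∀ k, D₀.natDegree < 1 + (R k).natDegree) (hQ : ∀ k, X ^ (j k) - R k = D₀ * Q k)
    {L : Type*} [Field L] {x dd : Lˣ} {ru : Fin r → Lˣ} {y : Fin d → Lˣ}
    (hd : (dd : L) = aeval (x : L) D₀) (hr : ∀ k, (ru k : L) = aeval (x : L) (R k))
    (h : aeval (x : L) D₀ * ∏ l, aeval (y l : L) (cycP (c l)) =
      aeval (x : L) (X * (∏ k, R k) * M) * ∏ l, (y l : L)) (k : Fin r) :
    symb (Fin.cons (ru k / x ^ j k) y : Fin (d + 1) → Lˣ) ∈ Unramified L (d + 1) := by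
  classical
  unfold Unramified
  simp only [Submodule.mem_iInf]
  intro v _
  refine memD (O := ℤ) (fun a => by
    rw [eq_intCast]
    exact val_int_le v a) hc hN hD (hR k) (M := (∏ i ∈ Finset.univ.erase k, R i) * M)
    ((monic_prod_of_monic _ _ fun i _ => hR i).mul hM) ?_ (hQ k) hd (hr k) ?_
  · have := hdeg k
    omega
  · have hd0 : (dd : L) ≠ 0 := dd.ne_zero
    have hy0 : ∏ l, (y l : L) ≠ 0 := Finset.prod_ne_zero_iff.2 fun l _ => (y l).ne_zero
    have e : (X * (∏ k, R k) * M : ℤ[X]) = X * R k * ((∏ i ∈ Finset.univ.erase k, R i) * M) := by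
      rw [← Finset.mul_prod_erase _ _ (Finset.mem_univ k)]
      ring
    have h1 : aeval (x : L) (X * (∏ k, R k) * M) =
        x * ru k * aeval (x : L) ((∏ i ∈ Finset.univ.erase k, R i) * M) := by
      rw [e, map_mul, map_mul, aeval_X, hr]
    rw [← h1, Finset.prod_div_distrib, div_eq_div_iff hy0 hd0, hd, ← h]
    ring

theorem map_cons {S T : Type*} [CommRing S] [CommRing T] (f : S →+* T) {d : ℕ} (a : Sˣ)
    (y : Fin d → Sˣ) : (fun i => Units.map (f : S →* T) ((Fin.cons a y : Fin (d + 1) → Sˣ) i)) =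
      (Fin.cons (Units.map (f : S →* T) a) (fun l => Units.map (f : S →* T) (y l)) :
        Fin (d + 1) → Tˣ) := by
  funext i
  refine Fin.cases ?_ (fun l => ?_) i
  · rw [Fin.cons_zero, Fin.cons_zero]
  · rw [Fin.cons_succ, Fin.cons_succ]

/-- The special varieties. -/
theorem specD.{v} {d : ℕ} {s : Fin d → ℕ} {c : (l : Fin d) → Fin (s l) → ℕ}
    (hc : ∀ l i, 0 < c l i) (hN : ∀ l, 2 ≤ (cycP (c l)).natDegree) {p : ℕ} (hp : 1 ≤ p)
    {β : Fin p → ℕ} (h : Function.Injective β) (h2 : ∀ l, 2 ≤ β l) {M : ℤ[X]} (hM : M.Monic)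
    {r : ℕ} (hr : 0 < r) : ∃ J : ℕ, ∀ j : Fin r → ℕ, Function.Injective j → (∀ k, J ≤ j k) →
      ∀ (ν : ℤ) (P : Fin d → ℤ[X]) (A D : ℤ[X]), (∀ l, P l = cycP (c l)) →
        A = (X * (∏ k, Rz β (j k)) * M).comp (X + C ν) → D = (Dz β).comp (X + C ν) →
        ∃ w : Fin r → KQ (VR P A D) (d + 1),
          (∀ (k : Fin r) (L : Type v) [Field L] (f : VR P A D →+* L),
            KQ.map (d + 1) f (w k) ∈ Unramified L (d + 1)) ∧
          ∃ Γ : Fin r → Torus (VR P A D) d,
            (∀ i θ, (Γ i).e θ (mkV P A D (MvPolynomial.pderiv (Sum.inr 0) (eqnV P A D))) ≠ 0) ∧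
            (Matrix.of fun i k => (Γ i).reg (w k)).det ≠ 0 := by
  classical
  obtain ⟨J, hJ⟩ := exists_LPD (P := fun l => cycP (c l)) (fun l => unitRoots_cycP (c l) (hc l))
    hp h h2 hM hr
  refine ⟨J, fun j hj hjJ ν P A D hP hA hD => ?_⟩
  obtain rfl : P = fun l => cycP (c l) := funext hP
  obtain ⟨Xs, H⟩ := hJ j hj hjJ
  have h5 := Dz_monic β
  have h6 := fun k => Rz_monic β (j k)
  have h7 := fun k => pow_sub_Rz β (j k)
  have h8 : ∀ k, (Dz β).natDegree < 1 + (Rz β (j k)).natDegree := by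
    intro k
    rw [Dz_natDegree, Rz_natDegree]
    omega
  obtain ⟨R, hR⟩ : ∃ R : Fin r → ℤ[X], R = fun k => Rz β (j k) := ⟨_, rfl⟩
  obtain ⟨Q, hQ⟩ : ∃ Q : Fin r → ℤ[X], Q = fun k => X ^ (j k) /ₘ Dz β - 1 := ⟨_, rfl⟩
  have hR' : ∀ k, Rz β (j k) = R k := fun k => by rw [hR]
  have hQ' : ∀ k, X ^ (j k) /ₘ Dz β - 1 = Q k := fun k => by rw [hQ]
  simp only [hR', hQ'] at H h6 h7 h8 hA
  generalize Dz β = D₀ at *
  obtain ⟨P, hPd⟩ : ∃ P : Fin d → ℤ[X], P = fun l => cycP (c l) := ⟨_, rfl⟩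
  rw [← hPd] at H ⊢
  -- the functions on the open part
  obtain ⟨xs, hxs⟩ : ∃ xs : VR P A D, xs = xV P A D + (ν : VR P A D) := ⟨_, rfl⟩
  have hAx : evZ A (xV P A D) = evZ (X * (∏ k, R k) * M) xs := by
    rw [hxs, ← evZ_shift, ← hA]
  have hDx : evZ D (xV P A D) = evZ D₀ xs := by
    rw [hxs, ← evZ_shift, ← hD]
  have hAu : IsUnit (evZ (X * (∏ k, R k) * M) xs) := by
    rw [← hAx]
    exact unit_AV P A D
  have hAe : evZ (X * (∏ k, R k) * M) xs = xs * (∏ k, evZ (R k) xs) * evZ M xs := by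
    rw [evZ_mul, evZ_mul, evZ_prod, evZ_X]
  rw [hAe] at hAu
  have hxu : IsUnit xs := isUnit_of_dvd_unit ((dvd_mul_right _ _).mul_right _) hAu
  have hru : ∀ k, IsUnit (evZ (R k) xs) := fun k =>
    isUnit_of_dvd_unit (((Finset.dvd_prod_of_mem _ (Finset.mem_univ k)).mul_left _).mul_right _)
      hAu
  have hdu : IsUnit (evZ D₀ xs) := by
    rw [← hDx]
    exact unit_DV P A D
  obtain ⟨x, hx⟩ := hxu
  obtain ⟨dd, hdd⟩ := hdu
  choose ru hru' using hru
  choose y hy using unit_yV P A D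
  refine ⟨fun k => symb (Fin.cons (ru k / x ^ j k) y), fun k L _ f => ?_, ?_⟩
  · -- the classes are unramified
    rw [KQ.map_symb, map_cons, _root_.map_div, _root_.map_pow]
    refine unrD (c := c) hc hN (D₀ := D₀) (M := M) (R := R) (Q := Q) h5 h6 hM h8 h7
      (x := Units.map (f : VR P A D →* L) x) (dd := Units.map (f : VR P A D →* L) dd)
      (ru := fun k => Units.map (f : VR P A D →* L) (ru k))
      (y := fun l => Units.map (f : VR P A D →* L) (y l)) ?_ (fun k => ?_) ?_ k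
    · show f (dd : VR P A D) = evZ D₀ (f (x : VR P A D))
      rw [hdd, hx, map_evZ]
    · show f (ru k : VR P A D) = evZ (R k) (f (x : VR P A D))
      rw [hru', hx, map_evZ]
    · show evZ D₀ (f (x : VR P A D)) * ∏ l, evZ (cycP (c l)) (f (y l : VR P A D)) =
        evZ (X * (∏ k, R k) * M) (f (x : VR P A D)) * ∏ l, f (y l : VR P A D)
      have h9 := congrArg f (relV P A D)
      rw [hAx, hDx, map_mul, map_mul, map_prod, map_prod, map_evZ, map_evZ] at h9
      simp only [map_evZ] at h9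
      rw [hx]
      simp only [hy]
      have hPl : ∀ l, cycP (c l) = P l := fun l => by rw [hPd]
      simp only [hPl]
      exact h9
  · -- the tori
    have hsh : ∀ (i : Fin r) (θ : Fin d → ℝ) (T : ℤ[X]),
        evZ (T.comp (X + C ν)) (Xs i θ - ν) = (cx T).eval (Xs i θ) := by
      intro i θ T
      rw [evZ_shift, sub_add_cancel, evZ_cx]
    have hc0 : ∀ s, circ (5 / 4) s ≠ 0 := by
      intro s h0
      have h9 := norm_circ (R := 5 / 4) (by norm_num) s
      rw [h0, norm_zero] at h9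
      norm_num at h9
    have hA0 : ∀ i θ, evZ A (Xs i θ - ν) ≠ 0 := by
      intro i θ
      rw [hA, hsh, H.eq]
      refine mul_ne_zero ?_ (H.Dne i θ)
      obtain ⟨B, W, E, hY⟩ := exists_sysD (P := P) (fun l => by
        rw [hPd]
        exact unitRoots_cycP (c l) (hc l))
      exact hY.nr.ne_zero θ
    have heq : ∀ i θ, evZ D (Xs i θ - ν) * ∏ l, evZ (P l) (circ (5 / 4) (θ l)) =
        evZ A (Xs i θ - ν) * ∏ l, circ (5 / 4) (θ l) := by
      intro i θ
      rw [hA, hD, hsh, hsh, H.eq]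
      have h9 : ∏ l, circ (5 / 4) (θ l) ≠ 0 := Finset.prod_ne_zero_iff.2 fun l _ => hc0 _
      unfold uD
      simp only [evZ_field]
      rw [Finset.prod_div_distrib]
      field_simp
    choose Γ hΓy hΓx using fun i : Fin r => exists_torusD (P := P) (A := A) (D := D)
      (x := fun θ => Xs i θ - ν) (G := fun _ : Fin d => circ (5 / 4))
      (fun _ => contDiff_circ _) (fun _ s => circ_add_one _ s) (fun _ s => hc0 s)
      ((H.xsm i).sub contDiff_const)
      (fun θ l => by
        show Xs i (θ + Pi.single l 1) - _ = Xs i θ - _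
        rw [H.xper i θ l]) (hA0 i) (heq i)
    have hΓ : ∀ i θ (T : ℤ[X]) , (Γ i).e θ (evZ T xs) = (cx T).eval (Xs i θ) := by
      intro i θ T
      rw [map_evZ, hxs, map_add, map_intCast, hΓx, sub_add_cancel, evZ_cx]
    have hΓxs : ∀ i θ, (Γ i).e θ xs = Xs i θ := by
      intro i θ
      rw [hxs, map_add, map_intCast, hΓx, sub_add_cancel]
    refine ⟨Γ, fun i θ => ?_, fun hdet => ?_⟩
    · -- smoothness
      have e1 : (Γ i).e θ (mkV P A D (MvPolynomial.pderiv (Sum.inr 0) (eqnV P A D))) =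
          evZ (derivative D) (Xs i θ - ν) * (∏ l, evZ (P l) (circ (5 / 4) (θ l))) -
            evZ (derivative A) (Xs i θ - ν) * ∏ l, circ (5 / 4) (θ l) := by
        have e2 := congrArg (fun q => (Γ i).e θ (mkV P A D q)) (pderiv_eqnV P A D)
        refine e2.trans ?_
        simp only [map_sub, map_mul, map_prod, map_evZ]
        have e3 : (Γ i).e θ (mkV P A D (MvPolynomial.X (Sum.inr 0))) = Xs i θ - ν := hΓx i θ
        have e4 : ∀ l, (Γ i).e θ (mkV P A D (MvPolynomial.X (Sum.inl l))) =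
            circ (5 / 4) (θ l) := fun l => hΓy i θ l
        simp only [e3, e4]
      rw [e1]
      intro h0
      refine H.wr i θ ?_
      have hder : ∀ T : ℤ[X], derivative (T.comp (X + C ν)) = (derivative T).comp (X + C ν) := by
        intro T
        rw [derivative_comp, derivative_add, derivative_X, derivative_C, add_zero, one_mul]
      have h9 := heq i θ
      rw [hA, hD, hder, hder, hsh, hsh] at h0
      rw [hA, hD, hsh, hsh] at h9
      have h10 : ∏ l, circ (5 / 4) (θ l) ≠ 0 := Finset.prod_ne_zero_iff.2 fun l _ => hc0 _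
      have hcd : ∀ T : ℤ[X], derivative (cx T) = cx (derivative T) := fun T => by
        unfold cx
        rw [derivative_map]
      unfold wrn
      rw [eval_sub, eval_mul, eval_mul, hcd, hcd]
      refine mul_right_cancel₀ h10 ?_
      rw [zero_mul]
      linear_combination (-(cx D₀).eval (Xs i θ)) * h0 +
        (cx (derivative D₀)).eval (Xs i θ) * h9
    · -- the determinant
      obtain ⟨c', hc0', hc'⟩ := Matrix.exists_mulVec_eq_zero_iff.2 hdet
      apply hc0'
      have h9 : ∀ i k, -(2 * π / (2 * π) ^ d) *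
          (Γ i).reg (symb (Fin.cons (ru k / x ^ j k) y)) =
            qD (fun s => (cx (R k)).eval (Xs i s)) - j k * qD (Xs i) := by
        intro i k
        rw [Torus.reg_symb]
        unfold Torus.pair
        have e1 : (fun l => (Γ i).fn (((Fin.cons (ru k / x ^ j k) y :
            Fin (d + 1) → (VR P A D)ˣ) l : (VR P A D)ˣ) : VR P A D)) =
            Fin.cons (fun θ => (cx (R k)).eval (Xs i θ) / (Xs i θ) ^ j k) (vf (cG d)) := by
          funext l
          refine Fin.cases ?_ (fun l => ?_) l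
          · rw [Fin.cons_zero, Fin.cons_zero]
            funext θ
            have e2 : (Γ i).fn ((ru k / x ^ j k : (VR P A D)ˣ) : VR P A D) θ *
                (Xs i θ) ^ j k = (cx (R k)).eval (Xs i θ) := by
              show (Γ i).e θ _ * _ = _
              rw [← hΓ i θ (R k), ← hru' k, ← hΓxs i θ, ← hx, ← map_pow, ← map_mul]
              congr 1
              rw [← Units.val_pow_eq_pow_val, ← Units.val_mul, div_mul_cancel]
            rw [eq_div_iff (pow_ne_zero _ ((H.nX i).ne_zero θ))]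
            exact e2
          · rw [Fin.cons_succ, Fin.cons_succ]
            funext θ
            show (Γ i).e θ _ = _
            rw [hy, hΓy]
            rfl
        rw [e1]
        have e2 := qD_div (H.nR i k) (b := fun θ => Xs i θ ^ j k)
          ⟨(H.xsm i).pow _, fun θ => pow_ne_zero _ ((H.nX i).ne_zero θ)⟩
        rw [qD_pow (H.nX i)] at e2
        rw [← e2]
        rfl
      have h10 := H.inj c' fun i => by
        have h11 := congrFun hc' i
        rw [Matrix.mulVec, dotProduct, Pi.zero_apply] at h11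
        have h12 : ∑ k, c' k * (qD (fun s => (cx (R k)).eval (Xs i s)) - j k * qD (Xs i)) =
            -(2 * π / (2 * π) ^ d) * ∑ k, (Matrix.of fun i k : Fin r =>
              (Γ i).reg (symb (Fin.cons (ru k / x ^ j k) y))) i k * c' k := by
          rw [Finset.mul_sum]
          refine Finset.sum_congr rfl fun k _ => ?_
          rw [← h9, Matrix.of_apply]
          ring
        rw [h12, h11, mul_zero]
      funext k
      exact h10 k

end Pool.Agent.H442
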