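import Pool.Agent.H442.RngE
set_option autoImplicit false

/-!
The classes `{R_k(x)/x^{j_k}, y_1, ..., y_d}` on the varieties
`D(x) ∏_b (z_b + ∑_{π(l) = b} y_l) = A(x)`, `z_b^{e_b} ∏_{π(l) = b} y_l^{w_l} = 1`, and their
regulators.
-/

namespace Pool.Agent.H442

open Polynomial Metric Set Filter Topology

open Pool.Agent.TH826.MK (Torus KQ KQ.map KQ.map_symb symb Unramified unitPart pairing vf Good Per
  circ norm_circ contDiff_circ circ_add_one pairing_cons_mul)

open scoped WithZero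

section qe

variable {d : ℕ} {κ : Fin d → ℕ}

theorem qE_pow {a : (Fin d → ℝ) → ℂ} (ha : Good a) (n : ℕ) :
    qE κ (fun θ => a θ ^ n) = n * qE κ a := by
  have h := qE_prod (d := d) (κ := κ) (Finset.range n) (F := fun _ => a) (fun _ => ha)
  simp only [Finset.prod_const, Finset.card_range, Finset.sum_const, nsmul_eq_mul] at h
  exact h

theorem qE_div {a b : (Fin d → ℝ) → ℂ} (ha : Good a) (hb : Good b) :
    qE κ (fun θ => a θ / b θ) = qE κ a - qE κ b := by
  have hq : Good fun θ => a θ / b θ := by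
    refine ⟨?_, fun θ => div_ne_zero (ha.ne_zero θ) (hb.ne_zero θ)⟩
    have e : (fun θ => a θ / b θ) = fun θ => a θ * (b θ)⁻¹ := by
      funext θ
      rw [div_eq_mul_inv]
    rw [e]
    exact ha.smooth.mul (hb.smooth.inv hb.ne_zero)
  rw [eq_sub_iff_add_eq, ← qE_mul hq hb]
  congr 1
  funext θ
  rw [div_mul_cancel₀ _ (hb.ne_zero θ)]

end qe

section torus

variable {d m : ℕ} (π : Fin d → Fin m) (w : Fin d → ℕ) (e : Fin m → ℕ)

/-- the function `y_l = t_l^{e_{π(l)}}` -/
noncomputable def yT (l : Fin d) (θ : Fin d → ℝ) : ℂ := circ (1 / 2) (θ l) ^ e (π l)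

/-- the function `z_b = ∏_{π(l) = b} t_l^{-w_l}` -/
noncomputable def zT (b : Fin m) (θ : Fin d → ℝ) : ℂ :=
  (∏ l ∈ Finset.univ.filter (fun l => π l = b), circ (1 / 2) (θ l) ^ w l)⁻¹

/-- the function `∏_b (z_b + ∑_{π(l) = b} y_l)` on the torus -/
noncomputable def uT (θ : Fin d → ℝ) : ℂ := uB π (fun l => yT π e l θ) (fun b => zT π w b θ)

theorem circ_ne (s : ℝ) : circ (1 / 2) s ≠ 0 := by
  intro h0
  have h9 := norm_circ (R := 1 / 2) (by norm_num) s
  rw [h0, norm_zero] at h9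
  norm_num at h9

theorem per_circ (l : Fin d) : Per fun θ : Fin d → ℝ => circ (1 / 2) (θ l) := by
  intro θ i
  simp only
  by_cases hl : l = i
  · subst hl
    rw [Pi.add_apply, Pi.single_eq_same, circ_add_one]
  · rw [Pi.add_apply, Pi.single_eq_of_ne hl, add_zero]

theorem smooth_circ (l : Fin d) : ContDiff ℝ 2 fun θ : Fin d → ℝ => circ (1 / 2) (θ l) :=
  (contDiff_circ _).comp (contDiff_apply ℝ ℝ l)

theorem yT_smooth (l : Fin d) : ContDiff ℝ 2 (yT π e l) := (smooth_circ l).pow _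

theorem yT_per (l : Fin d) : Per (yT π e l) := by
  intro θ i
  have h := per_circ l θ i
  simp only at h
  unfold yT
  rw [h]

theorem zT_ne (b : Fin m) (θ : Fin d → ℝ) :
    ∏ l ∈ Finset.univ.filter (fun l => π l = b), circ (1 / 2) (θ l) ^ w l ≠ 0 :=
  Finset.prod_ne_zero_iff.2 fun l _ => pow_ne_zero _ (circ_ne _)

theorem zT_smooth (b : Fin m) : ContDiff ℝ 2 (zT π w b) :=
  (contDiff_prod fun _ _ => (smooth_circ _).pow _).inv (zT_ne π w b)

theorem zT_per (b : Fin m) : Per (zT π w b) := by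
  intro θ i
  unfold zT
  congr 1
  refine Finset.prod_congr rfl fun l _ => ?_
  have h := per_circ l θ i
  simp only at h
  rw [h]

theorem relTT (b : Fin m) (θ : Fin d → ℝ) :
    zT π w b θ ^ e b * ∏ l ∈ Finset.univ.filter (fun l => π l = b), yT π e l θ ^ w l = 1 := by
  have h1 : ∏ l ∈ Finset.univ.filter (fun l => π l = b), yT π e l θ ^ w l =
      (∏ l ∈ Finset.univ.filter (fun l => π l = b), circ (1 / 2) (θ l) ^ w l) ^ e b := by
    rw [← Finset.prod_pow]
    refine Finset.prod_congr rfl fun l hl => ?_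
    unfold yT
    rw [(Finset.mem_filter.1 hl).2, ← pow_mul, ← pow_mul, mul_comm]
  rw [h1]
  unfold zT
  rw [← mul_pow, inv_mul_cancel₀ (zT_ne π w b θ), one_pow]

theorem norm_zT (b : Fin m) (θ : Fin d → ℝ) :
    ‖zT π w b θ‖ = ∏ l ∈ Finset.univ.filter (fun l => π l = b), (2 : ℝ) ^ w l := by
  unfold zT
  rw [norm_inv, norm_prod, ← Finset.prod_inv_distrib]
  refine Finset.prod_congr rfl fun l _ => ?_
  rw [norm_pow, norm_circ (by norm_num), one_div, inv_pow, inv_inv]

theorem norm_sum_yT (b : Fin m) (θ : Fin d → ℝ) :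
    ‖∑ l ∈ Finset.univ.filter (fun l => π l = b), yT π e l θ‖ ≤
      (Finset.univ.filter (fun l => π l = b)).card := by
  refine (norm_sum_le _ _).trans ?_
  rw [← nsmul_one, ← Finset.sum_const]
  refine Finset.sum_le_sum fun l _ => ?_
  unfold yT
  rw [norm_pow, norm_circ (by norm_num)]
  exact pow_le_one₀ (by norm_num) (by norm_num)

variable {w}

theorem uT_ne (hw : ∀ l, 1 ≤ w l) (θ : Fin d → ℝ) : uT π w e θ ≠ 0 := by
  unfold uT uB
  refine Finset.prod_ne_zero_iff.2 fun b _ h => ?_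
  obtain ⟨S, hS⟩ : ∃ S : Finset (Fin d), S = Finset.univ.filter (fun l => π l = b) := ⟨_, rfl⟩
  have h1 := norm_zT π w b θ
  have h2 := norm_sum_yT π e b θ
  have h3 : zT π w b θ = -∑ l ∈ Finset.univ.filter (fun l => π l = b), yT π e l θ :=
    eq_neg_of_add_eq_zero_left h
  rw [h3, norm_neg] at h1
  rw [h1] at h2
  rw [← hS] at h2
  have h4 : (2 : ℝ) ^ S.card ≤ ∏ l ∈ S, (2 : ℝ) ^ w l := by
    rw [← Finset.prod_const]
    refine Finset.prod_le_prod (fun _ _ => by norm_num) fun l _ => ?_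
    calc (2 : ℝ) = 2 ^ 1 := (pow_one _).symm
      _ ≤ 2 ^ w l := pow_le_pow_right₀ (by norm_num) (hw l)
  have h5 : (S.card : ℝ) < 2 ^ S.card := by exact_mod_cast Nat.lt_two_pow_self
  linarith

theorem exists_sysE (hw : ∀ l, 1 ≤ w l) (he : ∀ b, 1 ≤ e b) :
    ∃ B W E : ℝ, SysE (fun l => e (π l)) (uT π w e) B W E := by
  refine exists_SysE (fun l => he _) (u := uT π w e)
    (B₀ := ∏ b, ((∏ l ∈ Finset.univ.filter (fun l => π l = b), (2 : ℝ) ^ w l) +
      (Finset.univ.filter (fun l => π l = b)).card)) ⟨?_, uT_ne π e hw⟩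
    (fun θ i => ?_) (fun θ => ?_)
  · show ContDiff ℝ 2 fun θ => ∏ b, (zT π w b θ +
      ∑ l ∈ Finset.univ.filter (fun l => π l = b), yT π e l θ)
    exact contDiff_prod fun b _ => (zT_smooth π w b).add
      (ContDiff.sum fun l _ => yT_smooth π e l)
  · unfold uT
    have h1 := fun l => yT_per π e l θ i
    have h2 := fun b => zT_per π w b θ i
    simp only [h1, h2]
  · unfold uT uB
    rw [norm_prod]
    refine Finset.prod_le_prod (fun _ _ => norm_nonneg _) fun b _ => ?_
    refine (norm_add_le _ _).trans ?_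
    rw [norm_zT]
    exact add_le_add le_rfl (norm_sum_yT π e b θ)

end torus

/-- The tori with independent regulators. -/
structure LPE {d r : ℕ} (κ : Fin d → ℕ) (u : (Fin d → ℝ) → ℂ) (D : ℤ[X]) (R : Fin r → ℤ[X])
    (M : ℤ[X]) (j : Fin r → ℕ) (Xs : Fin r → (Fin d → ℝ) → ℂ) : Prop where
  xsm : ∀ i, ContDiff ℝ 2 (Xs i)
  xper : ∀ i, Per (Xs i)
  Dne : ∀ i s, (cx D).eval (Xs i s) ≠ 0
  eq : ∀ i s, (cx (X * (∏ k, R k) * M)).eval (Xs i s) = u s * (cx D).eval (Xs i s)
  wr : ∀ i s, (wrn (cx (X * (∏ k, R k) * M)) (cx D)).eval (Xs i s) ≠ 0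
  nX : ∀ i, Good (Xs i)
  nR : ∀ i k, Good fun s => (cx (R k)).eval (Xs i s)
  inj : ∀ C : Fin r → ℝ, (∀ i, ∑ k, C k * (qE κ (fun s => (cx (R k)).eval (Xs i s)) -
        j k * qE κ (Xs i)) = 0) → ∀ k, C k = 0

theorem exists_LPE {d : ℕ} {κ : Fin d → ℕ} {u : (Fin d → ℝ) → ℂ} {B W E : ℝ}
    (hY : SysE κ u B W E) {p : ℕ} (hp : 1 ≤ p)
    {β : Fin p → ℕ} (h : Function.Injective β) (h2 : ∀ l, 2 ≤ β l) {M : ℤ[X]} (hM : M.Monic)
    {r : ℕ} (hr : 0 < r) : ∃ J : ℕ, ∀ j : Fin r → ℕ, Function.Injective j → (∀ k, J ≤ j k) →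
      ∃ Xs, LPE κ u (Dz β) (fun k => Rz β (j k)) M j Xs := by
  obtain ⟨K, hK⟩ : ∃ K : ℝ, K = E * (1 + W * (1 + p + (∑ _k : Fin r, (p : ℝ)) + M.natDegree)) :=
    ⟨_, rfl⟩
  have hK0 : 0 ≤ K := by
    rw [hK]
    have := hY.hE
    have := hY.hW
    have : (0 : ℝ) ≤ ∑ _k : Fin r, (p : ℝ) := Finset.sum_nonneg fun k _ => Nat.cast_nonneg _
    positivity
  obtain ⟨T₀, hT⟩ : ∃ T₀ : ℝ, T₀ = (r + 1) * K * (8 * (1 + 2 * p)) / Real.pi + 1 := ⟨_, rfl⟩
  have hπ := Real.pi_pos
  have hT0 : 0 < T₀ := by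
    rw [hT]
    positivity
  have hT1 : (r + 1) * K * (8 * (1 + 2 * (p : ℝ))) ≤ Real.pi * T₀ := by
    rw [hT, mul_add Real.pi, mul_div_cancel₀ _ hπ.ne']
    linarith
  obtain ⟨J, hJ⟩ := discData6 T₀ hY.hB hp h h2 hM r
  refine ⟨max J p, fun j hj hjJ => ?_⟩
  have h3 := hJ j hj fun k => (le_max_left _ _).trans (hjJ k)
  have h4 : ∀ k, (p : ℝ) ≤ j k := fun k => by
    exact_mod_cast (le_max_right _ _).trans (hjJ k)
  obtain ⟨Xs, m1, m2, m3, m4, m5, m6, m7, m8⟩ := matE hY hr (by exact_mod_cast hp) hT0 hT1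
    (by
      rw [hK]
      simp only [Dz_natDegree, Rz_natDegree]
      exact le_rfl) h3 h4
  exact ⟨Xs, m1, m2, m3, m4, m5, m6, m7, m8⟩

section deriv

theorem pderiv_evZ {σ : Type*} [DecidableEq σ] (i : σ) (Q : ℤ[X]) :
    MvPolynomial.pderiv i (evZ Q (MvPolynomial.X i : MvPolynomial σ ℚ)) =
      evZ (derivative Q) (MvPolynomial.X i : MvPolynomial σ ℚ) := by
  induction Q using Polynomial.induction_on' with
  | add P Q hP hQ =>
    have e : ∀ P Q : ℤ[X], evZ (P + Q) (MvPolynomial.X i : MvPolynomial σ ℚ) =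
        evZ P (MvPolynomial.X i) + evZ Q (MvPolynomial.X i) := fun P Q => map_add _ _ _
    rw [e, map_add, hP, hQ, derivative_add, e]
  | monomial n a =>
    have e : ∀ (n : ℕ) (a : ℤ), evZ (monomial n a) (MvPolynomial.X i : MvPolynomial σ ℚ) =
        (a : MvPolynomial σ ℚ) * (MvPolynomial.X i) ^ n := by
      intro n a
      unfold evZ
      rw [aeval_monomial]
      rfl
    rw [derivative_monomial, e, e, Derivation.leibniz, Derivation.leibniz_pow]
    have h0 : MvPolynomial.pderiv i ((a : ℤ) : MvPolynomial σ ℚ) = 0 :=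
      Derivation.map_intCast _ _
    rw [h0, MvPolynomial.pderiv_X_self]
    push_cast
    simp only [smul_eq_mul, nsmul_eq_mul]
    ring

theorem pderiv_prod_zero {σ ι : Type*} (i : σ) (t : Finset ι) (f : ι → MvPolynomial σ ℚ)
    (h : ∀ k, MvPolynomial.pderiv i (f k) = 0) : MvPolynomial.pderiv i (∏ k ∈ t, f k) = 0 := by
  classical
  induction t using Finset.induction_on with
  | empty => simp
  | insert k t hk ih =>
    rw [Finset.prod_insert hk, Derivation.leibniz, ih, h]
    simp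

/-- the derivative of the equation -/
theorem pderiv_eqnE {d m : ℕ} (π : Fin d → Fin m) (A D : ℤ[X]) :
    MvPolynomial.pderiv (Sum.inr (Sum.inr 0)) (eqnE π A D) =
      evZ (derivative D) (MvPolynomial.X (Sum.inr (Sum.inr 0))) *
        uB π (fun l => MvPolynomial.X (Sum.inl l))
          (fun b => MvPolynomial.X (Sum.inr (Sum.inl b))) -
      evZ (derivative A) (MvPolynomial.X (Sum.inr (Sum.inr 0))) := by
  classical
  have h0 : MvPolynomial.pderiv (R := ℚ) (Sum.inr (Sum.inr 0) : Fin d ⊕ Fin m ⊕ Fin 2)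
      (uB π (fun l => MvPolynomial.X (Sum.inl l))
        (fun b => MvPolynomial.X (Sum.inr (Sum.inl b)))) = 0 := by
    unfold uB
    refine pderiv_prod_zero _ _ _ fun b => ?_
    rw [map_add, map_sum, MvPolynomial.pderiv_X_of_ne (by simp), zero_add]
    exact Finset.sum_eq_zero fun l _ => MvPolynomial.pderiv_X_of_ne (by simp)
  unfold eqnE
  rw [map_sub, Derivation.leibniz, h0, pderiv_evZ, pderiv_evZ]
  simp only [smul_eq_mul]
  ring

end deriv

/-- The classes are unramified. -/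
theorem unrE {d m : ℕ} {π : Fin d → Fin m} {w : Fin d → ℕ} {e : Fin m → ℕ}
    (he : ∀ b, 1 ≤ e b) (hw : ∀ l, 1 ≤ w l) {r : ℕ} {D₀ M : ℤ[X]} {R : Fin r → ℤ[X]}
    {j : Fin r → ℕ} {Q : Fin r → ℤ[X]} (hD : D₀.Monic) (hR : ∀ k, (R k).Monic) (hM : M.Monic)
    (hdeg : ∀ k, D₀.natDegree < 1 + (R k).natDegree) (hQ : ∀ k, X ^ (j k) - R k = D₀ * Q k)
    {L : Type*} [Field L] {x dd : Lˣ} {ru : Fin r → Lˣ} {y : Fin d → Lˣ} {z : Fin m → Lˣ}
    (hz : ∀ b, z b ^ e b * ∏ l ∈ Finset.univ.filter (fun l => π l = b), y l ^ w l = 1)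
    (hd : (dd : L) = aeval (x : L) D₀) (hr : ∀ k, (ru k : L) = aeval (x : L) (R k))
    (h : aeval (x : L) D₀ * uB π (fun l => (y l : L)) (fun b => (z b : L)) =
      aeval (x : L) (X * (∏ k, R k) * M)) (k : Fin r) :
    symb (Fin.cons (ru k / x ^ j k) y : Fin (d + 1) → Lˣ) ∈ Unramified L (d + 1) := by
  classical
  unfold Unramified
  simp only [Submodule.mem_iInf]
  intro v _
  refine memE (O := ℤ) (fun a => by
    rw [eq_intCast]
    exact val_int_le v a) he hw hD (hR k) (M := (∏ i ∈ Finset.univ.erase k, R i) * M)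
    ((monic_prod_of_monic _ _ fun i _ => hR i).mul hM) ?_ (hQ k) hz hd (hr k) ?_
  · have := hdeg k
    omega
  · have hd0 : (dd : L) ≠ 0 := dd.ne_zero
    have e : (X * (∏ k, R k) * M : ℤ[X]) = X * R k * ((∏ i ∈ Finset.univ.erase k, R i) * M) := by
      rw [← Finset.mul_prod_erase _ _ (Finset.mem_univ k)]
      ring
    have h1 : aeval (x : L) (X * (∏ k, R k) * M) =
        x * ru k * aeval (x : L) ((∏ i ∈ Finset.univ.erase k, R i) * M) := by
      rw [e, map_mul, map_mul, aeval_X, hr]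
    rw [← h1, eq_div_iff hd0, ← h, hd]
    ring

theorem map_consE {S T : Type*} [CommRing S] [CommRing T] (f : S →+* T) {d : ℕ} (a : Sˣ)
    (y : Fin d → Sˣ) : (fun i => Units.map (f : S →* T) ((Fin.cons a y : Fin (d + 1) → Sˣ) i)) =
      (Fin.cons (Units.map (f : S →* T) a) (fun l => Units.map (f : S →* T) (y l)) :
        Fin (d + 1) → Tˣ) := by
  funext i
  refine Fin.cases ?_ (fun l => ?_) i
  · rw [Fin.cons_zero, Fin.cons_zero]
  · rw [Fin.cons_succ, Fin.cons_succ]

/-- The special varieties. -/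
theorem specE.{v} {d m : ℕ} (π : Fin d → Fin m) {w : Fin d → ℕ} {e : Fin m → ℕ}
    (hw : ∀ l, 1 ≤ w l) (he : ∀ b, 1 ≤ e b) {p : ℕ} (hp : 1 ≤ p)
    {β : Fin p → ℕ} (h : Function.Injective β) (h2 : ∀ l, 2 ≤ β l) {M : ℤ[X]} (hM : M.Monic)
    {r : ℕ} (hr : 0 < r) : ∃ J : ℕ, ∀ j : Fin r → ℕ, Function.Injective j → (∀ k, J ≤ j k) →
      ∀ (ν : ℤ) (A D : ℤ[X]),
        A = (X * (∏ k, Rz β (j k)) * M).comp (X + C ν) → D = (Dz β).comp (X + C ν) →
        ∃ c : Fin r → KQ (ER π w e A D) (d + 1),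
          (∀ (k : Fin r) (L : Type v) [Field L] (f : ER π w e A D →+* L),
            KQ.map (d + 1) f (c k) ∈ Unramified L (d + 1)) ∧
          ∃ Γ : Fin r → Torus (ER π w e A D) d,
            (∀ i θ, (Γ i).e θ (mkE π w e A D
              (MvPolynomial.pderiv (Sum.inr (Sum.inr 0)) (eqnE π A D))) ≠ 0) ∧
            (Matrix.of fun i k => (Γ i).reg (c k)).det ≠ 0 := by
  classical
  obtain ⟨B, W, E, hY⟩ := exists_sysE π e hw he
  obtain ⟨J, hJ⟩ := exists_LPE hY hp h h2 hM hr
  refine ⟨J, fun j hj hjJ ν A D hA hD => ?_⟩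
  obtain ⟨Xs, H⟩ := hJ j hj hjJ
  have h5 := Dz_monic β
  have h6 := fun k => Rz_monic β (j k)
  have h7 := fun k => pow_sub_Rz β (j k)
  have h8 : ∀ k, (Dz β).natDegree < 1 + (Rz β (j k)).natDegree := by
    intro k
    rw [Dz_natDegree, Rz_natDegree]
    omega
  obtain ⟨R, hR⟩ : ∃ R : Fin r → ℤ[X], R = fun k => Rz β (j k) := ⟨_, rfl⟩
  obtain ⟨Q, hQ⟩ : ∃ Q : Fin r → ℤ[X], Q = fun k => X ^ (j k) /ₘ Dz β - 1 := ⟨_, rfl⟩
  have hR' : ∀ k, Rz β (j k) = R k := fun k => by rw [hR]
  have hQ' : ∀ k, X ^ (j k) /ₘ Dz β - 1 = Q k := fun k => by rw [hQ]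
  simp only [hR', hQ'] at H h6 h7 h8 hA
  generalize Dz β = D₀ at *
  -- the functions on the open part
  obtain ⟨xs, hxs⟩ : ∃ xs : ER π w e A D, xs = xE π w e A D + (ν : ER π w e A D) := ⟨_, rfl⟩
  have hAx : evZ A (xE π w e A D) = evZ (X * (∏ k, R k) * M) xs := by
    rw [hxs, ← evZ_shift, ← hA]
  have hDx : evZ D (xE π w e A D) = evZ D₀ xs := by
    rw [hxs, ← evZ_shift, ← hD]
  have hAu : IsUnit (evZ (X * (∏ k, R k) * M) xs) := by
    rw [← hAx]
    exact unit_AE π w e A D
  have hAe : evZ (X * (∏ k, R k) * M) xs = xs * (∏ k, evZ (R k) xs) * evZ M xs := by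
    rw [evZ_mul, evZ_mul, evZ_prod, evZ_X]
  rw [hAe] at hAu
  have hxu : IsUnit xs := isUnit_of_dvd_unit ((dvd_mul_right _ _).mul_right _) hAu
  have hru : ∀ k, IsUnit (evZ (R k) xs) := fun k =>
    isUnit_of_dvd_unit (((Finset.dvd_prod_of_mem _ (Finset.mem_univ k)).mul_left _).mul_right _)
      hAu
  have hdu : IsUnit (evZ D₀ xs) := by
    rw [← hDx]
    exact unit_DE π w e A D
  obtain ⟨x, hx⟩ := hxu
  obtain ⟨dd, hdd⟩ := hdu
  choose ru hru' using hru
  choose y hy using unit_yE π A D (w := w) (e := e) hw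
  choose z hz using unit_zE π A D (w := w) (e := e) he
  have hzy : ∀ b, z b ^ e b * ∏ l ∈ Finset.univ.filter (fun l => π l = b), y l ^ w l = 1 := by
    intro b
    apply Units.ext
    simp only [Units.val_mul, Units.coe_prod, Units.val_pow_eq_pow_val, Units.val_one, hy, hz]
    exact relT π w e A D b
  refine ⟨fun k => symb (Fin.cons (ru k / x ^ j k) y), fun k L _ f => ?_, ?_⟩
  · -- the classes are unramified
    rw [KQ.map_symb, map_consE, _root_.map_div, _root_.map_pow]
    refine unrE (π := π) (w := w) (e := e) he hw (D₀ := D₀) (M := M) (R := R) (Q := Q) h5 h6 hM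
      h8 h7
      (x := Units.map (f : ER π w e A D →* L) x) (dd := Units.map (f : ER π w e A D →* L) dd)
      (ru := fun k => Units.map (f : ER π w e A D →* L) (ru k))
      (y := fun l => Units.map (f : ER π w e A D →* L) (y l))
      (z := fun b => Units.map (f : ER π w e A D →* L) (z b)) (fun b => ?_) ?_ (fun k => ?_) ?_ k
    · have h9 := congrArg (Units.map (f : ER π w e A D →* L)) (hzy b)
      rw [_root_.map_mul, _root_.map_pow, _root_.map_prod, _root_.map_one] at h9
      simp only [_root_.map_pow] at h9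
      exact h9
    · show f (dd : ER π w e A D) = evZ D₀ (f (x : ER π w e A D))
      rw [hdd, hx, map_evZ]
    · show f (ru k : ER π w e A D) = evZ (R k) (f (x : ER π w e A D))
      rw [hru', hx, map_evZ]
    · show evZ D₀ (f (x : ER π w e A D)) * uB π (fun l => f (y l : ER π w e A D))
        (fun b => f (z b : ER π w e A D)) =
        evZ (X * (∏ k, R k) * M) (f (x : ER π w e A D))
      have h9 := congrArg f (relE π w e A D)
      rw [hAx, hDx, map_mul, map_uB, map_evZ, map_evZ] at h9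
      rw [hx]
      simp only [hy, hz]
      exact h9
  · -- the tori
    have hsh : ∀ (i : Fin r) (θ : Fin d → ℝ) (T : ℤ[X]),
        evZ (T.comp (X + C ν)) (Xs i θ - ν) = (cx T).eval (Xs i θ) := by
      intro i θ T
      rw [evZ_shift, sub_add_cancel, evZ_cx]
    have hA0 : ∀ i θ, evZ A (Xs i θ - ν) ≠ 0 := by
      intro i θ
      rw [hA, hsh, H.eq]
      exact mul_ne_zero (hY.nr.ne_zero θ) (H.Dne i θ)
    have heq : ∀ i θ, evZ D (Xs i θ - ν) *
        uB π (fun l => yT π e l θ) (fun b => zT π w b θ) = evZ A (Xs i θ - ν) := by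
      intro i θ
      rw [hA, hD, hsh, hsh, H.eq, mul_comm]
      rfl
    choose Γ hΓy hΓz hΓx using fun i : Fin r => exists_torusE (π := π) (w := w) (e := e)
      (A := A) (D := D) (x := fun θ => Xs i θ - ν) (Y := yT π e) (Z := zT π w)
      (yT_smooth π e) (yT_per π e) (zT_smooth π w) (zT_per π w)
      ((H.xsm i).sub contDiff_const)
      (fun θ l => by
        show Xs i (θ + Pi.single l 1) - _ = Xs i θ - _
        rw [H.xper i θ l]) (hA0 i) (heq i) (fun θ b => relTT π w e b θ)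
    have hΓ : ∀ i θ (T : ℤ[X]) , (Γ i).e θ (evZ T xs) = (cx T).eval (Xs i θ) := by
      intro i θ T
      rw [map_evZ, hxs, map_add, map_intCast, hΓx, sub_add_cancel, evZ_cx]
    have hΓxs : ∀ i θ, (Γ i).e θ xs = Xs i θ := by
      intro i θ
      rw [hxs, map_add, map_intCast, hΓx, sub_add_cancel]
    refine ⟨Γ, fun i θ => ?_, fun hdet => ?_⟩
    · -- smoothness
      have e1 : (Γ i).e θ (mkE π w e A D
          (MvPolynomial.pderiv (Sum.inr (Sum.inr 0)) (eqnE π A D))) =
          evZ (derivative D) (Xs i θ - ν) *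
            uB π (fun l => yT π e l θ) (fun b => zT π w b θ) -
            evZ (derivative A) (Xs i θ - ν) := by
        have e2 := congrArg (fun q => (Γ i).e θ (mkE π w e A D q)) (pderiv_eqnE π A D)
        refine e2.trans ?_
        have e3 : (Γ i).e θ (mkE π w e A D (MvPolynomial.X (Sum.inr (Sum.inr 0)))) =
            Xs i θ - ν := hΓx i θ
        have e4 : ∀ l, (Γ i).e θ (mkE π w e A D (MvPolynomial.X (Sum.inl l))) =
            yT π e l θ := fun l => hΓy i θ l
        have e5 : ∀ b, (Γ i).e θ (mkE π w e A D (MvPolynomial.X (Sum.inr (Sum.inl b)))) =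
            zT π w b θ := fun b => hΓz i θ b
        simp only [map_sub, map_mul, map_uB, map_evZ, e3, e4, e5]
      rw [e1]
      intro h0
      refine H.wr i θ ?_
      have hder : ∀ T : ℤ[X], derivative (T.comp (X + C ν)) = (derivative T).comp (X + C ν) := by
        intro T
        rw [derivative_comp, derivative_add, derivative_X, derivative_C, add_zero, one_mul]
      have h9 := heq i θ
      rw [hA, hD, hder, hder, hsh, hsh] at h0
      rw [hA, hD, hsh, hsh] at h9
      have hcd : ∀ T : ℤ[X], derivative (cx T) = cx (derivative T) := fun T => by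
        unfold cx
        rw [derivative_map]
      unfold wrn
      rw [eval_sub, eval_mul, eval_mul, hcd, hcd]
      linear_combination (-(cx D₀).eval (Xs i θ)) * h0 +
        (cx (derivative D₀)).eval (Xs i θ) * h9
    · -- the determinant
      obtain ⟨c', hc0', hc'⟩ := Matrix.exists_mulVec_eq_zero_iff.2 hdet
      apply hc0'
      have h9 : ∀ i k, -(2 * Real.pi / ((2 * Real.pi) ^ d * ∏ l, ((e (π l) : ℕ) : ℝ))) *
          (Γ i).reg (symb (Fin.cons (ru k / x ^ j k) y)) =
            qE (fun l => e (π l)) (fun s => (cx (R k)).eval (Xs i s)) -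
              j k * qE (fun l => e (π l)) (Xs i) := by
        intro i k
        rw [Torus.reg_symb]
        unfold Torus.pair
        have e1 : (fun l => (Γ i).fn (((Fin.cons (ru k / x ^ j k) y :
            Fin (d + 1) → (ER π w e A D)ˣ) l : (ER π w e A D)ˣ) : ER π w e A D)) =
            Fin.cons (fun θ => (cx (R k)).eval (Xs i θ) / (Xs i θ) ^ j k)
              (vf (cH fun l => e (π l))) := by
          funext l
          refine Fin.cases ?_ (fun l => ?_) l
          · rw [Fin.cons_zero, Fin.cons_zero]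
            funext θ
            have e2 : (Γ i).fn ((ru k / x ^ j k : (ER π w e A D)ˣ) : ER π w e A D) θ *
                (Xs i θ) ^ j k = (cx (R k)).eval (Xs i θ) := by
              show (Γ i).e θ _ * _ = _
              rw [← hΓ i θ (R k), ← hru' k, ← hΓxs i θ, ← hx, ← map_pow, ← map_mul]
              congr 1
              rw [← Units.val_pow_eq_pow_val, ← Units.val_mul, div_mul_cancel]
            rw [eq_div_iff (pow_ne_zero _ ((H.nX i).ne_zero θ))]
            exact e2
          · rw [Fin.cons_succ, Fin.cons_succ]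
            funext θ
            show (Γ i).e θ _ = _
            rw [hy, hΓy]
            rfl
        rw [e1]
        have e2 := qE_div (κ := fun l => e (π l)) (H.nR i k) (b := fun θ => Xs i θ ^ j k)
          ⟨(H.xsm i).pow _, fun θ => pow_ne_zero _ ((H.nX i).ne_zero θ)⟩
        rw [qE_pow (H.nX i)] at e2
        rw [← e2]
        rfl
      have h10 := H.inj c' fun i => by
        have h11 := congrFun hc' i
        rw [Matrix.mulVec, dotProduct, Pi.zero_apply] at h11
        have h12 : ∑ k, c' k * (qE (fun l => e (π l)) (fun s => (cx (R k)).eval (Xs i s)) -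
            j k * qE (fun l => e (π l)) (Xs i)) =
            -(2 * Real.pi / ((2 * Real.pi) ^ d * ∏ l, ((e (π l) : ℕ) : ℝ))) *
              ∑ k, (Matrix.of fun i k : Fin r =>
              (Γ i).reg (symb (Fin.cons (ru k / x ^ j k) y))) i k * c' k := by
          rw [Finset.mul_sum]
          refine Finset.sum_congr rfl fun k _ => ?_
          rw [← h9, Matrix.of_apply]
          ring
        rw [h12, h11, mul_zero]
      funext k
      exact h10 k

end Pool.Agent.H442
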