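import Pool.Agent.H442.RngF
import Pool.Agent.H442.SpecE
set_option autoImplicit false

/-!
The classes `{R_k(x)/x^{j_k}, f_1, ..., f_d}`, `f_l ∈ {y_l, 1 - y_l}`, on the varieties
`D(x) ∏_l (y_l^2 - y_l + 1)^{a_l} = A(x) ∏_l y_l^{b_l} (1 - y_l)^{c_l}` and their regulators.
-/

namespace Pool.Agent.H442

open Polynomial Metric Set Filter Topology

open Pool.Agent.TH826.MK (Torus KQ KQ.map KQ.map_symb symb Unramified unitPart pairing vf Good Per
  One circ norm_circ contDiff_circ circ_add_one pairing_cons_mul)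

open scoped WithZero

section qf

variable {d : ℕ} {g : Fin d → ℝ → ℂ} {ω : Fin d → ℝ}

theorem qF_pow (hg : ∀ l, One (g l) (ω l)) {a : (Fin d → ℝ) → ℂ} (ha : Good a) (n : ℕ) :
    qF g (fun θ => a θ ^ n) = n * qF g a := by
  have h := qF_prod hg (Finset.range n) (F := fun _ => a) (fun _ => ha)
  simp only [Finset.prod_const, Finset.card_range, Finset.sum_const, nsmul_eq_mul] at h
  exact h

theorem qF_div (hg : ∀ l, One (g l) (ω l)) {a b : (Fin d → ℝ) → ℂ} (ha : Good a) (hb : Good b) :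
    qF g (fun θ => a θ / b θ) = qF g a - qF g b := by
  have hq : Good fun θ => a θ / b θ := by
    refine ⟨?_, fun θ => div_ne_zero (ha.ne_zero θ) (hb.ne_zero θ)⟩
    have e : (fun θ => a θ / b θ) = fun θ => a θ * (b θ)⁻¹ := by
      funext θ
      rw [div_eq_mul_inv]
    rw [e]
    exact ha.smooth.mul (hb.smooth.inv hb.ne_zero)
  rw [eq_sub_iff_add_eq, ← qF_mul hg hq hb]
  congr 1
  funext θ
  rw [div_mul_cancel₀ _ (hb.ne_zero θ)]

end qf

section torus

/-- the functions `y` (`ε = 0`) and `1 - y` (`ε = 1`) on the circles `|y| = 1/2` (`c = 0`) and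
`|1 - y| = 1/2` (`c = 1`) -/
noncomputable def gQ (ε c : Fin 2) (s : ℝ) : ℂ :=
  if ε = c then circ (1 / 2) s else 1 - circ (1 / 2) s

theorem one_sub_circ : One (fun s => 1 - circ (1 / 2) s) 0 := by
  have h := Pool.Agent.TH826.MK.one_lin (R := 1 / 2) (by norm_num) (b := 1) (by norm_num)
  have e2 : Pool.Agent.TH826.MK.wd (1 / 2) 1 = 0 := by
    unfold Pool.Agent.TH826.MK.wd
    rw [if_neg (by norm_num)]
  rw [e2] at h
  have h1 : One (fun _ : ℝ => (-1 : ℂ)) 0 :=
    ⟨contDiff_const, fun _ => by norm_num, fun _ => rfl, by simp⟩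
  have h2 := h.div h1
  have e : (fun s => (circ (1 / 2) s - 1) / (-1 : ℂ)) = fun s => 1 - circ (1 / 2) s := by
    funext s
    ring
  rw [e, sub_zero] at h2
  exact h2

theorem one_gQ (ε c : Fin 2) : One (gQ ε c) (if ε = c then 1 else 0) := by
  by_cases h : ε = c
  · have e : gQ ε c = circ (1 / 2) := by
      funext s
      unfold gQ
      rw [if_pos h]
    rw [if_pos h, e]
    exact one_circ
  · have e : gQ ε c = fun s => 1 - circ (1 / 2) s := by
      funext s
      unfold gQ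
      rw [if_neg h]
    rw [if_neg h, e]
    exact one_sub_circ

theorem gQ_one (c : Fin 2) (s : ℝ) : 1 - gQ 0 c s = gQ 1 c s := by
  unfold gQ
  fin_cases c
  · simp
  · simp

theorem norm_gQ (ε c : Fin 2) (s : ℝ) : 1 / 2 ≤ ‖gQ ε c s‖ := by
  unfold gQ
  have h := norm_circ (R := 1 / 2) (by norm_num) s
  by_cases h1 : ε = c
  · rw [if_pos h1, h]
  · rw [if_neg h1]
    have h2 : ‖(1 : ℂ)‖ ≤ ‖1 - circ (1 / 2) s‖ + ‖circ (1 / 2) s‖ := by
      have e : (1 : ℂ) = (1 - circ (1 / 2) s) + circ (1 / 2) s := by ring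
      conv_lhs => rw [e]
      exact norm_add_le _ _
    rw [norm_one, h] at h2
    linarith

theorem six_gQ (c : Fin 2) (s : ℝ) : gQ 0 c s ^ 2 - gQ 0 c s + 1 =
    circ (1 / 2) s ^ 2 - circ (1 / 2) s + 1 := by
  unfold gQ
  fin_cases c
  · simp
  · simp
    ring

theorem six_ne (s : ℝ) : circ (1 / 2) s ^ 2 - circ (1 / 2) s + 1 ≠ 0 := by
  intro h
  have h1 : circ (1 / 2) s ^ 3 = -1 := by
    linear_combination (circ (1 / 2) s + 1) * h
  have h2 := congrArg (fun z : ℂ => ‖z‖) h1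
  simp only [norm_pow, norm_neg, norm_one, norm_circ (show (0 : ℝ) ≤ 1 / 2 by norm_num)] at h2
  norm_num at h2

theorem six_le (s : ℝ) : ‖circ (1 / 2) s ^ 2 - circ (1 / 2) s + 1‖ ≤ 2 := by
  have h := norm_circ (R := 1 / 2) (by norm_num) s
  refine (norm_add_le _ _).trans ?_
  have h1 := norm_sub_le (circ (1 / 2) s ^ 2) (circ (1 / 2) s)
  rw [norm_pow, h] at h1
  rw [norm_one]
  linarith

variable {d : ℕ} (a b c : Fin d → ℕ) (α : Fin d → Fin 2)

/-- the function `y_l` on the torus -/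
noncomputable def YQ (l : Fin d) (θ : Fin d → ℝ) : ℂ := gQ 0 (α l) (θ l)

/-- the function `∏_l (y_l^2 - y_l + 1)^{a_l} / (y_l^{b_l} (1 - y_l)^{c_l})` on the torus -/
noncomputable def uQ (θ : Fin d → ℝ) : ℂ :=
  nQ a (fun l => YQ α l θ) / dQ b c (fun l => YQ α l θ)

theorem YQ_smooth (l : Fin d) : ContDiff ℝ 2 (YQ α l) :=
  (one_gQ 0 (α l)).smooth.comp (contDiff_apply ℝ ℝ l)

theorem YQ_per (l : Fin d) : Per (YQ α l) := (one_gQ 0 (α l)).periodic l

theorem YQ_ne (l : Fin d) (θ : Fin d → ℝ) : YQ α l θ ≠ 0 := (one_gQ 0 (α l)).ne_zero _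

theorem YQ_ne' (l : Fin d) (θ : Fin d → ℝ) : 1 - YQ α l θ ≠ 0 := by
  unfold YQ
  rw [gQ_one]
  exact (one_gQ 1 (α l)).ne_zero _

theorem fQ_YQ (β : Fin d → Fin 2) (l : Fin d) (θ : Fin d → ℝ) :
    fQ (fun l => YQ α l θ) (fun l => 1 - YQ α l θ) β l = gQ (β l) (α l) (θ l) := by
  unfold fQ YQ
  by_cases h : β l = 0
  · rw [if_pos h, h]
  · rw [if_neg h]
    show 1 - gQ 0 (α l) (θ l) = _
    rw [gQ_one]
    have h1 : β l = 1 := by
      have := (β l).2
      apply Fin.ext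
      have h2 : (β l : ℕ) ≠ 0 := fun e => h (Fin.ext e)
      show (β l : ℕ) = 1
      omega
    rw [h1]

theorem dQ_ne (θ : Fin d → ℝ) : dQ b c (fun l => YQ α l θ) ≠ 0 := by
  unfold dQ
  exact Finset.prod_ne_zero_iff.2 fun l _ => mul_ne_zero (pow_ne_zero _ (YQ_ne α l θ))
    (pow_ne_zero _ (YQ_ne' α l θ))

theorem nQ_ne (θ : Fin d → ℝ) : nQ a (fun l => YQ α l θ) ≠ 0 := by
  unfold nQ
  refine Finset.prod_ne_zero_iff.2 fun l _ => pow_ne_zero _ ?_
  unfold YQ
  rw [six_gQ]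
  exact six_ne _

theorem exists_sysQ : ∃ B W E : ℝ, SysF (fun (β : Fin d → Fin 2) l => gQ (β l) (α l))
    (fun β => ∏ l, if β l = α l then 1 else 0) (uQ a b c α) B W E := by
  refine exists_SysF (ω := fun (β : Fin d → Fin 2) l => if β l = α l then 1 else 0)
    (fun β l => one_gQ (β l) (α l)) (u := uQ a b c α)
    (B₀ := ∏ l, (2 ^ a l * (2 ^ b l * 2 ^ c l))) ⟨?_, fun θ => ?_⟩ (fun θ i => ?_) (fun θ => ?_)
  · have e : uQ a b c α = fun θ => nQ a (fun l => YQ α l θ) * (dQ b c (fun l => YQ α l θ))⁻¹ := by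
      funext θ
      unfold uQ
      rw [div_eq_mul_inv]
    rw [e]
    refine ContDiff.mul ?_ (ContDiff.inv ?_ (dQ_ne b c α))
    · unfold nQ
      exact contDiff_prod fun l _ => (((YQ_smooth α l).pow 2).sub (YQ_smooth α l)).add
        contDiff_const |>.pow _
    · unfold dQ
      exact contDiff_prod fun l _ => ((YQ_smooth α l).pow _).mul
        ((contDiff_const.sub (YQ_smooth α l)).pow _)
  · exact div_ne_zero (nQ_ne a α θ) (dQ_ne b c α θ)
  · have h1 := fun l => YQ_per α l θ i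
    unfold uQ
    simp only [h1]
  · unfold uQ nQ dQ
    rw [← Finset.prod_div_distrib, norm_prod]
    refine Finset.prod_le_prod (fun _ _ => norm_nonneg _) fun l _ => ?_
    rw [norm_div, norm_mul, norm_pow, norm_pow, norm_pow]
    have h1 : ‖YQ α l θ ^ 2 - YQ α l θ + 1‖ ≤ 2 := by
      unfold YQ
      rw [six_gQ]
      exact six_le _
    have h2 : 1 / 2 ≤ ‖YQ α l θ‖ := norm_gQ _ _ _
    have h3 : 1 / 2 ≤ ‖1 - YQ α l θ‖ := by
      unfold YQ
      rw [gQ_one]
      exact norm_gQ _ _ _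
    have h4 : (1 / 2 : ℝ) ^ b l * (1 / 2) ^ c l ≤ ‖YQ α l θ‖ ^ b l * ‖1 - YQ α l θ‖ ^ c l :=
      mul_le_mul (pow_le_pow_left₀ (by norm_num) h2 _) (pow_le_pow_left₀ (by norm_num) h3 _)
        (by positivity) (by positivity)
    have h5 : ‖YQ α l θ ^ 2 - YQ α l θ + 1‖ ^ a l ≤ 2 ^ a l :=
      pow_le_pow_left₀ (norm_nonneg _) h1 _
    calc ‖YQ α l θ ^ 2 - YQ α l θ + 1‖ ^ a l / (‖YQ α l θ‖ ^ b l * ‖1 - YQ α l θ‖ ^ c l) ≤
          2 ^ a l / ((1 / 2) ^ b l * (1 / 2) ^ c l) :=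
          div_le_div₀ (by positivity) h5 (by positivity) h4
      _ = 2 ^ a l * (2 ^ b l * 2 ^ c l) := by
          rw [one_div, inv_pow, inv_pow, ← mul_inv, div_inv_eq_mul]

end torus

/-- The tori with independent regulators. -/
structure LPQ {d r : ℕ} (a b c : Fin d → ℕ) (D : ℤ[X]) (R : Fin r → ℤ[X])
    (M : ℤ[X]) (j : Fin r → ℕ) (Xs : (Fin d → Fin 2) → Fin r → (Fin d → ℝ) → ℂ) : Prop where
  xsm : ∀ α i, ContDiff ℝ 2 (Xs α i)
  xper : ∀ α i, Per (Xs α i)
  Dne : ∀ α i s, (cx D).eval (Xs α i s) ≠ 0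
  eq : ∀ α i s, (cx (X * (∏ k, R k) * M)).eval (Xs α i s) =
    uQ a b c α s * (cx D).eval (Xs α i s)
  wr : ∀ α i s, (wrn (cx (X * (∏ k, R k) * M)) (cx D)).eval (Xs α i s) ≠ 0
  nX : ∀ α i, Good (Xs α i)
  nR : ∀ α i k, Good fun s => (cx (R k)).eval (Xs α i s)
  inj : ∀ C : (Fin d → Fin 2) → Fin r → ℝ, (∀ α i, ∑ β, ∑ k, C β k *
    (qF (fun l => gQ (β l) (α l)) (fun s => (cx (R k)).eval (Xs α i s)) -
      j k * qF (fun l => gQ (β l) (α l)) (Xs α i)) = 0) → ∀ β k, C β k = 0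

theorem exists_LPQ {d : ℕ} (a b c : Fin d → ℕ) {p : ℕ} (hp : 1 ≤ p)
    {β : Fin p → ℕ} (h : Function.Injective β) (h2 : ∀ l, 2 ≤ β l) {M : ℤ[X]} (hM : M.Monic)
    {r : ℕ} (hr : 0 < r) : ∃ J : ℕ, ∀ j : Fin r → ℕ, Function.Injective j → (∀ k, J ≤ j k) →
      ∃ Xs, LPQ a b c (Dz β) (fun k => Rz β (j k)) M j Xs := by
  classical
  choose B W E hY using fun α => exists_sysQ a b c α
  obtain ⟨K₀, hK₀⟩ : ∃ K₀ : (Fin d → Fin 2) → ℝ, ∀ α, K₀ α =
    E α * (1 + W α * (1 + p + (∑ _k : Fin r, (p : ℝ)) + M.natDegree)) := ⟨_, fun _ => rfl⟩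
  have hK0 : ∀ α, 0 ≤ K₀ α := by
    intro α
    rw [hK₀]
    have := (hY α).hE
    have := (hY α).hW
    have : (0 : ℝ) ≤ ∑ _k : Fin r, (p : ℝ) := Finset.sum_nonneg fun k _ => Nat.cast_nonneg _
    positivity
  obtain ⟨K, hK⟩ : ∃ K : ℝ, K = ∑ α, K₀ α := ⟨_, rfl⟩
  have hK1 : 0 ≤ K := by
    rw [hK]
    exact Finset.sum_nonneg fun α _ => hK0 α
  have hK2 : ∀ α, K₀ α ≤ K := fun α => by
    rw [hK]
    exact Finset.single_le_sum (f := K₀) (fun α _ => hK0 α) (Finset.mem_univ α)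
  obtain ⟨T₀, hT⟩ : ∃ T₀ : ℝ, T₀ = Fintype.card (Fin d → Fin 2) * ((r + 1) * K) *
    (8 * (1 + 2 * p)) / Real.pi + 1 := ⟨_, rfl⟩
  have hπ := Real.pi_pos
  have hT0 : 0 < T₀ := by
    rw [hT]
    positivity
  have hT1 : Fintype.card (Fin d → Fin 2) * ((r + 1) * K) * (8 * (1 + 2 * (p : ℝ))) ≤
      Real.pi * T₀ := by
    rw [hT, mul_add Real.pi, mul_div_cancel₀ _ hπ.ne']
    linarith
  choose J hJ using fun α => discData6 T₀ (hY α).hB hp h h2 hM r
  refine ⟨max (Finset.univ.sup J) p, fun j hj hjJ => ?_⟩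
  have h3 := fun α => hJ α j hj fun k =>
    (Finset.le_sup (f := J) (Finset.mem_univ α)).trans ((le_max_left _ _).trans (hjJ k))
  have h4 : ∀ k, (p : ℝ) ≤ j k := fun k => by
    exact_mod_cast (le_max_right _ _).trans (hjJ k)
  have hμ : ∀ (f : (Fin d → Fin 2) → ℝ) (N : ℝ),
      (∀ α : Fin d → Fin 2,
        |∑ β : Fin d → Fin 2, (∏ l, if β l = α l then (1 : ℝ) else 0) * f β| ≤ N) →
        ∀ β, |f β| ≤ N := by
    intro f N hf β
    have h5 := hf β
    have e : ∑ γ : Fin d → Fin 2, (∏ l, if γ l = β l then (1 : ℝ) else 0) * f γ = f β := by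
      rw [Finset.sum_eq_single β]
      · simp
      · intro γ _ hγ
        obtain ⟨l, hl⟩ := Function.ne_iff.1 hγ
        rw [Finset.prod_eq_zero (Finset.mem_univ l) (if_neg hl), zero_mul]
      · intro h6
        exact absurd (Finset.mem_univ _) h6
    rwa [e] at h5
  obtain ⟨Xs, m1, m2, m3, m4, m5, m6, m7, m8⟩ := matF hμ hY hr (by exact_mod_cast hp) hT0 hT1
    (fun α => by
      simp only [Dz_natDegree, Rz_natDegree]
      rw [← hK₀]
      exact hK2 α) h3 h4
  exact ⟨Xs, m1, m2, m3, m4, m5, m6, m7, m8⟩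

/-- the derivative of the equation -/
theorem pderiv_eqnQ {d : ℕ} (a b c : Fin d → ℕ) (A D : ℤ[X]) :
    MvPolynomial.pderiv (Sum.inr 0) (eqnQ a b c A D) =
      evZ (derivative D) (MvPolynomial.X (Sum.inr 0)) *
        nQ a (fun l => MvPolynomial.X (Sum.inl l)) -
      evZ (derivative A) (MvPolynomial.X (Sum.inr 0)) *
        dQ b c (fun l => MvPolynomial.X (Sum.inl l)) := by
  classical
  have hX : ∀ l : Fin d, MvPolynomial.pderiv (R := ℚ) (Sum.inr 0 : Fin d ⊕ Fin 2)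
      (MvPolynomial.X (Sum.inl l)) = 0 := fun l => MvPolynomial.pderiv_X_of_ne (by simp)
  have h0 : MvPolynomial.pderiv (R := ℚ) (Sum.inr 0 : Fin d ⊕ Fin 2)
      (nQ a (fun l => MvPolynomial.X (Sum.inl l))) = 0 := by
    unfold nQ
    refine pderiv_prod_zero _ _ _ fun l => ?_
    rw [Derivation.leibniz_pow, map_add, map_sub, Derivation.leibniz_pow, hX]
    simp
  have h1 : MvPolynomial.pderiv (R := ℚ) (Sum.inr 0 : Fin d ⊕ Fin 2)
      (dQ b c (fun l => MvPolynomial.X (Sum.inl l))) = 0 := by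
    unfold dQ
    refine pderiv_prod_zero _ _ _ fun l => ?_
    rw [Derivation.leibniz, Derivation.leibniz_pow, Derivation.leibniz_pow, map_sub, hX]
    simp
  unfold eqnQ
  rw [map_sub, Derivation.leibniz, Derivation.leibniz, h0, h1, pderiv_evZ, pderiv_evZ]
  simp only [smul_eq_mul]
  ring

/-- The classes are unramified. -/
theorem unrQ {d : ℕ} {a b c : Fin d → ℕ} (hb : ∀ l, 1 ≤ b l) (hc : ∀ l, 1 ≤ c l)
    (habc : ∀ l, b l + c l < 2 * a l) {r : ℕ} {D₀ M : ℤ[X]} {R : Fin r → ℤ[X]}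
    {j : Fin r → ℕ} {Q : Fin r → ℤ[X]} (hD : D₀.Monic) (hR : ∀ k, (R k).Monic) (hM : M.Monic)
    (hdeg : ∀ k, D₀.natDegree < 1 + (R k).natDegree) (hQ : ∀ k, X ^ (j k) - R k = D₀ * Q k)
    {L : Type*} [Field L] {x dd : Lˣ} {ru : Fin r → Lˣ} {y y' : Fin d → Lˣ}
    (hy : ∀ l, (y' l : L) = 1 - y l)
    (hd : (dd : L) = aeval (x : L) D₀) (hr : ∀ k, (ru k : L) = aeval (x : L) (R k))
    (h : aeval (x : L) D₀ * nQ a (fun l => (y l : L)) =
      aeval (x : L) (X * (∏ k, R k) * M) * dQ b c (fun l => (y l : L))) (k : Fin r)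
    (ε : Fin d → Fin 2) :
    symb (Fin.cons (ru k / x ^ j k) (fQ y y' ε) : Fin (d + 1) → Lˣ) ∈ Unramified L (d + 1) := by
  classical
  unfold Unramified
  simp only [Submodule.mem_iInf]
  intro v _
  refine memQ (O := ℤ) (fun a => by
    rw [eq_intCast]
    exact val_int_le v a) hb hc habc hD (hR k) (M := (∏ i ∈ Finset.univ.erase k, R i) * M)
    ((monic_prod_of_monic _ _ fun i _ => hR i).mul hM) ?_ (hQ k) hy hd (hr k) ?_ ε
  · have := hdeg k
    omega
  · have hd0 : (dd : L) ≠ 0 := dd.ne_zero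
    have hq0 : dQ b c (fun l => (y l : L)) ≠ 0 := by
      unfold dQ
      refine Finset.prod_ne_zero_iff.2 fun l _ => mul_ne_zero (pow_ne_zero _ (y l).ne_zero)
        (pow_ne_zero _ ?_)
      rw [← hy]
      exact (y' l).ne_zero
    have e : (X * (∏ k, R k) * M : ℤ[X]) = X * R k * ((∏ i ∈ Finset.univ.erase k, R i) * M) := by
      rw [← Finset.mul_prod_erase _ _ (Finset.mem_univ k)]
      ring
    have h1 : aeval (x : L) (X * (∏ k, R k) * M) =
        x * ru k * aeval (x : L) ((∏ i ∈ Finset.univ.erase k, R i) * M) := by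
      rw [e, map_mul, map_mul, aeval_X, hr]
    rw [← h1, div_eq_div_iff hq0 hd0, hd, ← h]
    ring

/-- The special varieties. -/
theorem specQ.{v} {d : ℕ} {a b c : Fin d → ℕ} (hb : ∀ l, 1 ≤ b l) (hc : ∀ l, 1 ≤ c l)
    (habc : ∀ l, b l + c l < 2 * a l) {p : ℕ} (hp : 1 ≤ p)
    {β : Fin p → ℕ} (h : Function.Injective β) (h2 : ∀ l, 2 ≤ β l) {M : ℤ[X]} (hM : M.Monic)
    {r : ℕ} (hr : 0 < r) : ∃ J : ℕ, ∀ j : Fin r → ℕ, Function.Injective j → (∀ k, J ≤ j k) →
      ∀ (ν : ℤ) (A D : ℤ[X]),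
        A = (X * (∏ k, Rz β (j k)) * M).comp (X + C ν) → D = (Dz β).comp (X + C ν) →
        ∃ w : Fin r × (Fin d → Fin 2) → KQ (QR a b c A D) (d + 1),
          (∀ (k : Fin r × (Fin d → Fin 2)) (L : Type v) [Field L] (f : QR a b c A D →+* L),
            KQ.map (d + 1) f (w k) ∈ Unramified L (d + 1)) ∧
          ∃ Γ : Fin r × (Fin d → Fin 2) → Torus (QR a b c A D) d,
            (∀ i θ, (Γ i).e θ (mkQ a b c A D
              (MvPolynomial.pderiv (Sum.inr 0) (eqnQ a b c A D))) ≠ 0) ∧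
            (Matrix.of fun i k => (Γ i).reg (w k)).det ≠ 0 := by
  classical
  obtain ⟨J, hJ⟩ := exists_LPQ a b c hp h h2 hM hr
  refine ⟨J, fun j hj hjJ ν A D hA hD => ?_⟩
  obtain ⟨Xs, H⟩ := hJ j hj hjJ
  have h5 := Dz_monic β
  have h6 := fun k => Rz_monic β (j k)
  have h7 := fun k => pow_sub_Rz β (j k)
  have h8 : ∀ k, (Dz β).natDegree < 1 + (Rz β (j k)).natDegree := by
    intro k
    rw [Dz_natDegree, Rz_natDegree]
    omega
  obtain ⟨R, hR⟩ : ∃ R : Fin r → ℤ[X], R = fun k => Rz β (j k) := ⟨_, rfl⟩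
  obtain ⟨Q, hQ⟩ : ∃ Q : Fin r → ℤ[X], Q = fun k => X ^ (j k) /ₘ Dz β - 1 := ⟨_, rfl⟩
  have hR' : ∀ k, Rz β (j k) = R k := fun k => by rw [hR]
  have hQ' : ∀ k, X ^ (j k) /ₘ Dz β - 1 = Q k := fun k => by rw [hQ]
  simp only [hR', hQ'] at H h6 h7 h8 hA
  generalize Dz β = D₀ at *
  -- the functions on the open part
  obtain ⟨xs, hxs⟩ : ∃ xs : QR a b c A D, xs = xQ a b c A D + (ν : QR a b c A D) := ⟨_, rfl⟩
  have hAx : evZ A (xQ a b c A D) = evZ (X * (∏ k, R k) * M) xs := by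
    rw [hxs, ← evZ_shift, ← hA]
  have hDx : evZ D (xQ a b c A D) = evZ D₀ xs := by
    rw [hxs, ← evZ_shift, ← hD]
  have hAu : IsUnit (evZ (X * (∏ k, R k) * M) xs) := by
    rw [← hAx]
    exact unit_AQ a b c A D
  have hAe : evZ (X * (∏ k, R k) * M) xs = xs * (∏ k, evZ (R k) xs) * evZ M xs := by
    rw [evZ_mul, evZ_mul, evZ_prod, evZ_X]
  rw [hAe] at hAu
  have hxu : IsUnit xs := isUnit_of_dvd_unit ((dvd_mul_right _ _).mul_right _) hAu
  have hru : ∀ k, IsUnit (evZ (R k) xs) := fun k =>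
    isUnit_of_dvd_unit (((Finset.dvd_prod_of_mem _ (Finset.mem_univ k)).mul_left _).mul_right _)
      hAu
  have hdu : IsUnit (evZ D₀ xs) := by
    rw [← hDx]
    exact unit_DQ a b c A D
  obtain ⟨x, hx⟩ := hxu
  obtain ⟨dd, hdd⟩ := hdu
  choose ru hru' using hru
  choose y hy using unit_yQ a b c A D
  choose y' hy' using unit_yQ' a b c A D
  refine ⟨fun k => symb (Fin.cons (ru k.1 / x ^ j k.1) (fQ y y' k.2)), fun k L _ f => ?_, ?_⟩
  · -- the classes are unramified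
    rw [KQ.map_symb, map_consE, _root_.map_div, _root_.map_pow]
    have e1 : (fun l => Units.map (f : QR a b c A D →* L) (fQ y y' k.2 l)) =
        fQ (fun l => Units.map (f : QR a b c A D →* L) (y l))
          (fun l => Units.map (f : QR a b c A D →* L) (y' l)) k.2 := by
      funext l
      unfold fQ
      by_cases h9 : k.2 l = 0
      · rw [if_pos h9, if_pos h9]
      · rw [if_neg h9, if_neg h9]
    rw [e1]
    refine unrQ hb hc habc (D₀ := D₀) (M := M) (R := R) (Q := Q) h5 h6 hM h8 h7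
      (x := Units.map (f : QR a b c A D →* L) x) (dd := Units.map (f : QR a b c A D →* L) dd)
      (ru := fun k => Units.map (f : QR a b c A D →* L) (ru k))
      (y := fun l => Units.map (f : QR a b c A D →* L) (y l))
      (y' := fun l => Units.map (f : QR a b c A D →* L) (y' l)) (fun l => ?_) ?_ (fun k => ?_)
      ?_ k.1 k.2
    · show f (y' l : QR a b c A D) = 1 - f (y l : QR a b c A D)
      rw [hy, hy', map_sub, map_one]
    · show f (dd : QR a b c A D) = evZ D₀ (f (x : QR a b c A D))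
      rw [hdd, hx, map_evZ]
    · show f (ru k : QR a b c A D) = evZ (R k) (f (x : QR a b c A D))
      rw [hru', hx, map_evZ]
    · show evZ D₀ (f (x : QR a b c A D)) * nQ a (fun l => f (y l : QR a b c A D)) =
        evZ (X * (∏ k, R k) * M) (f (x : QR a b c A D)) *
          dQ b c (fun l => f (y l : QR a b c A D))
      have h9 := congrArg f (relQ a b c A D)
      rw [hAx, hDx, map_mul, map_mul, map_nQ, map_dQ, map_evZ, map_evZ] at h9
      rw [hx]
      simp only [hy]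
      exact h9
  · -- the tori
    have hsh : ∀ (α : Fin d → Fin 2) (i : Fin r) (θ : Fin d → ℝ) (T : ℤ[X]),
        evZ (T.comp (X + C ν)) (Xs α i θ - ν) = (cx T).eval (Xs α i θ) := by
      intro α i θ T
      rw [evZ_shift, sub_add_cancel, evZ_cx]
    have hA0 : ∀ α i θ, evZ A (Xs α i θ - ν) ≠ 0 := by
      intro α i θ
      rw [hA, hsh, H.eq]
      exact mul_ne_zero (div_ne_zero (nQ_ne a α θ) (dQ_ne b c α θ)) (H.Dne α i θ)
    have heq : ∀ α i θ, evZ D (Xs α i θ - ν) * nQ a (fun l => YQ α l θ) =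
        evZ A (Xs α i θ - ν) * dQ b c (fun l => YQ α l θ) := by
      intro α i θ
      rw [hA, hD, hsh, hsh, H.eq]
      have h9 := dQ_ne b c α θ
      unfold uQ
      field_simp
    choose Γ hΓy hΓx using fun (q : Fin r × (Fin d → Fin 2)) => exists_torusQ (a := a) (b := b)
      (c := c) (A := A) (D := D) (x := fun θ => Xs q.2 q.1 θ - ν) (Y := YQ q.2)
      (YQ_smooth q.2) (YQ_per q.2) (YQ_ne q.2) (YQ_ne' q.2)
      ((H.xsm q.2 q.1).sub contDiff_const)
      (fun θ l => by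
        show Xs q.2 q.1 (θ + Pi.single l 1) - _ = Xs q.2 q.1 θ - _
        rw [H.xper q.2 q.1 θ l]) (hA0 q.2 q.1) (heq q.2 q.1)
    have hΓ : ∀ q θ (T : ℤ[X]) , (Γ q).e θ (evZ T xs) = (cx T).eval (Xs q.2 q.1 θ) := by
      intro q θ T
      rw [map_evZ, hxs, map_add, map_intCast, hΓx, sub_add_cancel, evZ_cx]
    have hΓxs : ∀ q θ, (Γ q).e θ xs = Xs q.2 q.1 θ := by
      intro q θ
      rw [hxs, map_add, map_intCast, hΓx, sub_add_cancel]
    refine ⟨Γ, fun i θ => ?_, fun hdet => ?_⟩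
    · -- smoothness
      have e1 : (Γ i).e θ (mkQ a b c A D
          (MvPolynomial.pderiv (Sum.inr 0) (eqnQ a b c A D))) =
          evZ (derivative D) (Xs i.2 i.1 θ - ν) * nQ a (fun l => YQ i.2 l θ) -
            evZ (derivative A) (Xs i.2 i.1 θ - ν) * dQ b c (fun l => YQ i.2 l θ) := by
        have e2 := congrArg (fun q => (Γ i).e θ (mkQ a b c A D q)) (pderiv_eqnQ a b c A D)
        refine e2.trans ?_
        have e3 : (Γ i).e θ (mkQ a b c A D (MvPolynomial.X (Sum.inr 0))) =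
            Xs i.2 i.1 θ - ν := hΓx i θ
        have e4 : ∀ l, (Γ i).e θ (mkQ a b c A D (MvPolynomial.X (Sum.inl l))) =
            YQ i.2 l θ := fun l => hΓy i θ l
        simp only [map_sub, map_mul, map_nQ, map_dQ, map_evZ, e3, e4]
      rw [e1]
      intro h0
      refine H.wr i.2 i.1 θ ?_
      have hder : ∀ T : ℤ[X], derivative (T.comp (X + C ν)) = (derivative T).comp (X + C ν) := by
        intro T
        rw [derivative_comp, derivative_add, derivative_X, derivative_C, add_zero, one_mul]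
      have h9 := heq i.2 i.1 θ
      rw [hA, hD, hder, hder, hsh, hsh] at h0
      rw [hA, hD, hsh, hsh] at h9
      have hcd : ∀ T : ℤ[X], derivative (cx T) = cx (derivative T) := fun T => by
        unfold cx
        rw [derivative_map]
      unfold wrn
      rw [eval_sub, eval_mul, eval_mul, hcd, hcd]
      refine mul_right_cancel₀ (dQ_ne b c i.2 θ) ?_
      rw [zero_mul]
      linear_combination (-(cx D₀).eval (Xs i.2 i.1 θ)) * h0 +
        (cx (derivative D₀)).eval (Xs i.2 i.1 θ) * h9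
    · -- the determinant
      obtain ⟨c', hc0', hc'⟩ := Matrix.exists_mulVec_eq_zero_iff.2 hdet
      apply hc0'
      have h9 : ∀ i k : Fin r × (Fin d → Fin 2), -(2 * Real.pi / (2 * Real.pi) ^ d) *
          (Γ i).reg (symb (Fin.cons (ru k.1 / x ^ j k.1) (fQ y y' k.2))) =
            qF (fun l => gQ (k.2 l) (i.2 l)) (fun s => (cx (R k.1)).eval (Xs i.2 i.1 s)) -
              j k.1 * qF (fun l => gQ (k.2 l) (i.2 l)) (Xs i.2 i.1) := by
        intro i k
        rw [Torus.reg_symb]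
        unfold Torus.pair
        have e1 : (fun l => (Γ i).fn (((Fin.cons (ru k.1 / x ^ j k.1) (fQ y y' k.2) :
            Fin (d + 1) → (QR a b c A D)ˣ) l : (QR a b c A D)ˣ) : QR a b c A D)) =
            Fin.cons (fun θ => (cx (R k.1)).eval (Xs i.2 i.1 θ) / (Xs i.2 i.1 θ) ^ j k.1)
              (vf (fun l => gQ (k.2 l) (i.2 l))) := by
          funext l
          refine Fin.cases ?_ (fun l => ?_) l
          · rw [Fin.cons_zero, Fin.cons_zero]
            funext θ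
            have e2 : (Γ i).fn ((ru k.1 / x ^ j k.1 : (QR a b c A D)ˣ) : QR a b c A D) θ *
                (Xs i.2 i.1 θ) ^ j k.1 = (cx (R k.1)).eval (Xs i.2 i.1 θ) := by
              show (Γ i).e θ _ * _ = _
              rw [← hΓ i θ (R k.1), ← hru' k.1, ← hΓxs i θ, ← hx, ← map_pow, ← map_mul]
              congr 1
              rw [← Units.val_pow_eq_pow_val, ← Units.val_mul, div_mul_cancel]
            rw [eq_div_iff (pow_ne_zero _ ((H.nX i.2 i.1).ne_zero θ))]
            exact e2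
          · rw [Fin.cons_succ, Fin.cons_succ]
            funext θ
            show (Γ i).e θ _ = gQ (k.2 l) (i.2 l) (θ l)
            rw [← fQ_YQ]
            unfold fQ
            by_cases h10 : k.2 l = 0
            · rw [if_pos h10, if_pos h10, hy, hΓy]
            · rw [if_neg h10, if_neg h10, hy', map_sub, map_one, hΓy]
        rw [e1]
        have e2 := qF_div (fun l => one_gQ (k.2 l) (i.2 l)) (H.nR i.2 i.1 k.1)
          (b := fun θ => Xs i.2 i.1 θ ^ j k.1)
          ⟨(H.xsm i.2 i.1).pow _, fun θ => pow_ne_zero _ ((H.nX i.2 i.1).ne_zero θ)⟩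
        rw [qF_pow (fun l => one_gQ (k.2 l) (i.2 l)) (H.nX i.2 i.1)] at e2
        rw [← e2]
        rfl
      have h10 := H.inj (fun γ k => c' (k, γ)) fun α i => by
        have h11 := congrFun hc' (i, α)
        rw [Matrix.mulVec, dotProduct, Pi.zero_apply, Fintype.sum_prod_type] at h11
        have h12 : ∑ γ, ∑ k, c' (k, γ) *
            (qF (fun l => gQ (γ l) (α l)) (fun s => (cx (R k)).eval (Xs α i s)) -
              j k * qF (fun l => gQ (γ l) (α l)) (Xs α i)) =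
            -(2 * Real.pi / (2 * Real.pi) ^ d) *
              ∑ k, ∑ γ, (Matrix.of fun i k : Fin r × (Fin d → Fin 2) =>
              (Γ i).reg (symb (Fin.cons (ru k.1 / x ^ j k.1) (fQ y y' k.2)))) (i, α) (k, γ) *
                c' (k, γ) := by
          rw [Finset.sum_comm, Finset.mul_sum]
          refine Finset.sum_congr rfl fun k _ => ?_
          rw [Finset.mul_sum]
          refine Finset.sum_congr rfl fun γ _ => ?_
          have h13 := h9 (i, α) (k, γ)
          simp only at h13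
          rw [← h13, Matrix.of_apply]
          ring
        rw [h12, h11, mul_zero]
      funext k
      exact h10 k.2 k.1

end Pool.Agent.H442
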