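import Pool.Agent.H442.Loop6
import Pool.Agent.H442.Lin6b
set_option autoImplicit false

/-!
The loops in the `x`-plane over the loops in the `y`-plane and the approximate regulators.
-/

namespace Pool.Agent.H442

open Polynomial Metric Set Filter Topology MeasureTheory

open Pool.Agent.TH826.MK (circ norm_circ contDiff_circ circ_add_one wd)

open Pool.Agent.TH826.UH

open scoped Real

/-- The loop near a simple zero of `R`. -/
theorem exists_xloop {u : ℝ → ℂ} (nu : NZ u) (hper : ∀ s, u (s + 1) = u s) {c W : ℝ}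
    (hc1 : 1 ≤ c) (hub : ∀ s, ‖u s‖ ≤ c)
    (hud : ∀ s ∈ Icc (0 : ℝ) 1, ‖deriv u s‖ ≤ c * W) {D R G : ℂ[X]} {U : ℂ → ℂ} {ξ : ℂ} {δ : ℝ}
    (hδ : 0 < δ) (hU : DifferentiableOn ℂ U (ball ξ (2 * δ)))
    (hUb : ∀ x ∈ ball ξ (2 * δ), ‖U x‖ ≤ δ / 40)
    (hG : ∀ x ∈ ball ξ (2 * δ), 40 * c / δ ≤ ‖G.eval x‖)
    (heq : ∀ x ∈ ball ξ (2 * δ), x * R.eval x = D.eval x * (x - ξ + U x)) :
    ∃ Xs : ℝ → ℂ, ContDiff ℝ 2 Xs ∧ (∀ s, Xs (s + 1) = Xs s) ∧ (∀ s, ‖Xs s - ξ‖ < δ) ∧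
      (∀ s ∈ Icc (0 : ℝ) 1, ‖deriv Xs s‖ ≤ δ * W) ∧
      (∀ s, Xs s * R.eval (Xs s) * G.eval (Xs s) = u s * D.eval (Xs s)) := by
  have hc0 : 0 < c := zero_lt_one.trans_le hc1
  have hG0 : ∀ x ∈ ball ξ (2 * δ), G.eval x ≠ 0 := by
    intro x hx h
    have h1 := hG x hx
    rw [h, norm_zero] at h1
    have : 0 < 40 * c / δ := by positivity
    linarith
  have hsub' : ball ξ δ ⊆ ball ξ (2 * δ) := ball_subset_ball (by linarith)
  have hcc : (c : ℂ) ≠ 0 := by exact_mod_cast hc0.ne'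
  obtain ⟨xb, hxb⟩ := exists_branch3 (V := fun x => (c : ℂ) * (G.eval x)⁻¹) (W := fun x => -U x)
    (ξ := ξ) hδ
    (fun x hx => ((differentiableAt_const _).mul
      ((G.differentiable x).inv (hG0 x hx))).differentiableWithinAt) hU.neg
    (by
      intro x hx
      have h1 := hG x hx
      rw [norm_mul, norm_inv, Complex.norm_real, Real.norm_eq_abs, abs_of_pos hc0]
      have h2 : 0 < 40 * c / δ := by positivity
      calc c * ‖G.eval x‖⁻¹ ≤ c * (40 * c / δ)⁻¹ :=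
            mul_le_mul_of_nonneg_left (inv_anti₀ h2 h1) hc0.le
        _ = δ / 40 := by field_simp)
    (by
      intro x hx
      rw [norm_neg]
      exact hUb x hx)
    (fun x hx => mul_ne_zero hcc (inv_ne_zero (hG0 x hx)))
  have hw1 : ∀ s, ‖u s / c‖ ≤ 1 := by
    intro s
    rw [norm_div, Complex.norm_real, Real.norm_eq_abs, abs_of_pos hc0]
    exact (div_le_one hc0).2 (hub s)
  have hwb : ∀ s, u s / c ∈ ball (0 : ℂ) (9 / 2) := by
    intro s
    rw [mem_ball_zero_iff]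
    linarith [hw1 s]
  set Y : ℝ → ℂ := fun s => xb (u s / c) with hY
  have hucd : ContDiff ℝ 2 fun s => u s / c := by
    have e : (fun s => u s / c) = fun s => u s * (c : ℂ)⁻¹ := by
      funext s
      rw [div_eq_mul_inv]
    rw [e]
    exact nu.smooth.mul contDiff_const
  have hYcd : ContDiff ℝ 2 Y := by
    rw [contDiff_iff_contDiffAt]
    intro s
    exact (((hxb _ (hwb s)).1).contDiffAt.restrict_scalars ℝ).comp s hucd.contDiffAt
  have hYper : ∀ s, Y (s + 1) = Y s := fun s => by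
    simp only [hY, hper]
  have hYd : ∀ s, ‖Y s - ξ‖ < δ := fun s => (hxb _ (hwb s)).2.1
  have hYb : ∀ s, Y s ∈ ball ξ (2 * δ) := fun s => hsub' (mem_ball_iff_norm.2 (hYd s))
  have hYeq : ∀ s, (Y s - ξ + U (Y s)) * G.eval (Y s) = u s := fun s => by
    have h1 : Y s = ξ + -U (Y s) + u s / c * ((c : ℂ) * (G.eval (Y s))⁻¹) := (hxb _ (hwb s)).2.2
    have h2 := hG0 _ (hYb s)
    have h3 : Y s - ξ + U (Y s) = u s * (G.eval (Y s))⁻¹ := by
      have h4 : u s / c * ((c : ℂ) * (G.eval (Y s))⁻¹) = u s * (G.eval (Y s))⁻¹ := by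
        field_simp
      rw [h4] at h1
      linear_combination h1
    rw [h3, mul_assoc, inv_mul_cancel₀ h2, mul_one]
  have hYm : ∀ s, Y s * R.eval (Y s) * G.eval (Y s) = u s * D.eval (Y s) := by
    intro s
    rw [heq _ (hYb s), mul_assoc, hYeq]
    ring
  refine ⟨Y, hYcd, hYper, hYd, fun s hs => ?_, hYm⟩
  -- the derivative
  have hxd : ‖deriv xb (u s / c)‖ ≤ δ := by
    have hsub : closedBall (u s / c) 2 ⊆ ball (0 : ℂ) (9 / 2) := by
      intro w hw
      rw [mem_closedBall_iff_norm] at hw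
      rw [mem_ball_zero_iff]
      have h1 : ‖w‖ ≤ ‖w - u s / c‖ + ‖u s / c‖ := by
        have e : w = (w - u s / c) + u s / c := by ring
        conv_lhs => rw [e]
        exact norm_add_le _ _
      linarith [hw1 s]
    have hd : DifferentiableOn ℂ (fun w => xb w - ξ) (closedBall (u s / c) 2) := fun w hw =>
      ((hxb w (hsub hw)).1.differentiableAt.sub_const ξ).differentiableWithinAt
    have h3 : ‖deriv (fun w => xb w - ξ) (u s / c)‖ ≤ δ / 2 := by
      refine Complex.norm_deriv_le_of_forall_mem_sphere_norm_le (by norm_num) ?_ ?_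
      · exact hd.diffContOnCl_ball subset_rfl
      · intro w hw
        exact (hxb w (hsub (sphere_subset_closedBall hw))).2.1.le
    rw [deriv_sub_const] at h3
    linarith
  have h1 : HasDerivAt (fun s => u s / (c : ℂ)) (deriv u s / c) s :=
    ((nu.smooth.differentiable (by norm_num) s).hasDerivAt).div_const _
  have h2 : HasDerivAt Y (deriv xb (u s / c) * (deriv u s / c)) s :=
    HasDerivAt.comp s (hxb _ (hwb s)).1.differentiableAt.hasDerivAt h1
  rw [h2.deriv, norm_mul, norm_div, Complex.norm_real, Real.norm_eq_abs, abs_of_pos hc0]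
  have h4 : ‖deriv u s‖ / c ≤ W := by
    rw [div_le_iff₀ hc0]
    linarith [hud s hs]
  exact mul_le_mul hxd h4 (by positivity) hδ.le

/-- The estimates in a disc around the large zero of `R_i`. -/
def DiscData6 {r : ℕ} (T₀ c p : ℝ) (D : ℤ[X]) (R : Fin r → ℤ[X]) (M : ℤ[X]) (i : Fin r) : Prop :=
  ∃ (ξ : ℂ) (δ : ℝ) (U : ℂ → ℂ), 0 < δ ∧ DifferentiableOn ℂ U (ball ξ (2 * δ)) ∧
    ∀ x ∈ ball ξ (2 * δ), ‖U x‖ ≤ δ / 40 ∧ T₀ ≤ Real.log ‖x‖ ∧ (cx D).eval x ≠ 0 ∧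
      (∀ k, k ≠ i → (cx (R k)).eval x ≠ 0) ∧ (cx M).eval x ≠ 0 ∧
      40 * c / δ ≤ ‖(cx ((∏ k ∈ Finset.univ.erase i, R k) * M)).eval x‖ ∧
      x * (cx (R i)).eval x = (cx D).eval x * (x - ξ + U x) ∧
      (∀ k, k ≠ i → (p - 1 / 2) * Real.log ‖x‖ ≤ Real.log ‖(cx (R k)).eval x‖) ∧
      Real.log ‖(cx D).eval x‖ ≤ (p + 1 / 4) * Real.log ‖x‖ + Real.log ‖(cx M).eval x‖

/-- The loop in the `x`-plane with the approximate regulators. -/
theorem xloop6 {c : ℂ} {ζ : Fin 2 → ℂ} {y : Fin 2 → ℝ → ℂ} {B W E : ℝ} (hY : YL c ζ y B W E)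
    {r : ℕ} {p T₀ K : ℝ} {D : ℤ[X]} {R : Fin r → ℤ[X]} {M : ℤ[X]} {i : Fin r} (hT₀ : 0 < T₀)
    (hK : E * (1 + W * (1 + D.natDegree + (∑ k, ((R k).natDegree : ℝ)) + M.natDegree)) ≤ K)
    (H : DiscData6 T₀ B p D R M i) (α : Fin 2) :
    ∃ (Xs : ℝ → ℂ) (x a : ℝ) (b : Fin r → ℝ), ContDiff ℝ 2 Xs ∧ (∀ s, Xs (s + 1) = Xs s) ∧
      (∀ s, (cx D).eval (Xs s) ≠ 0) ∧
      (∀ s, (cx (X * (∏ k, R k) * M)).eval (Xs s) = ry c (y α s) * (cx D).eval (Xs s)) ∧
      NZ Xs ∧ (∀ k, NZ fun s => (cx (R k)).eval (Xs s)) ∧ T₀ ≤ x ∧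
      (∀ k, k ≠ i → (p - 1 / 2) * x ≤ b k) ∧ a ≤ (p - 3 / 4) * x ∧
      (∀ β, |pr (fun s => zy (ζ β) (y α s)) Xs + 2 * π * mw β α * x| ≤ K) ∧
      (∀ β k, k ≠ i → |pr (fun s => zy (ζ β) (y α s)) (fun s => (cx (R k)).eval (Xs s)) +
        2 * π * mw β α * b k| ≤ K) ∧
      ∀ β, |pr (fun s => zy (ζ β) (y α s)) (fun s => (cx (R i)).eval (Xs s)) +
        2 * π * mw β α * (a - ∑ k ∈ Finset.univ.erase i, b k)| ≤ K := by
  classical
  obtain ⟨ξ, δ, U, hδ, hU, hx⟩ := H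
  have hsub' : ball ξ δ ⊆ ball ξ (2 * δ) := ball_subset_ball (by linarith)
  obtain ⟨Y, hYcd, hYper, hYd, hYW, hYm⟩ := exists_xloop (hY.nr α) (fun s => by rw [hY.per])
    hY.hB (hY.rb α) (hY.rd α) (D := cx D)
    (R := cx (R i)) (G := cx ((∏ k ∈ Finset.univ.erase i, R k) * M)) hδ hU
    (fun x h => (hx x h).1) (fun x h => (hx x h).2.2.2.2.2.1) (fun x h => (hx x h).2.2.2.2.2.2.1)
  have hYb : ∀ s, Y s ∈ ball ξ (2 * δ) := fun s => hsub' (mem_ball_iff_norm.2 (hYd s))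
  have hx0 : ∀ x ∈ ball ξ (2 * δ), x ≠ 0 := by
    intro x h h0
    have h1 := (hx x h).2.1
    rw [h0, norm_zero, Real.log_zero] at h1
    linarith
  have hEW : 0 ≤ E * W := mul_nonneg hY.hE hY.hW
  -- the polynomials without zeros in the disc
  have hpol : ∀ P : ℤ[X], (∀ x ∈ ball ξ (2 * δ), (cx P).eval x ≠ 0) →
      NZ (fun s => (cx P).eval (Y s)) ∧ ∀ β, |pr (fun s => zy (ζ β) (y α s))
        (fun s => (cx P).eval (Y s)) + 2 * π * mw β α * Real.log ‖(cx P).eval (Y 0)‖| ≤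
          E * W * P.natDegree := by
    intro P hP
    obtain ⟨h1, h2⟩ := ld_poly hYcd hδ hYd hYW hP
    refine ⟨h1, fun β => ?_⟩
    have h3 := pr_approx (hY.nz β α) h1 h2 (hY.zb β α)
    rw [hY.wi] at h3
    have e : Real.log ‖(cx P).eval (Y 0)‖ * (2 * π * (if β = α then 2 else -1)) =
        2 * π * mw β α * Real.log ‖(cx P).eval (Y 0)‖ := by
      unfold mw
      ring
    rw [e] at h3
    refine h3.trans ?_
    have h4 : ((cx P).natDegree : ℝ) ≤ P.natDegree := by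
      unfold cx
      exact_mod_cast natDegree_map_le
    calc (cx P).natDegree * W * E = E * W * (cx P).natDegree := by ring
      _ ≤ E * W * P.natDegree := mul_le_mul_of_nonneg_left h4 hEW
  have hcX : ∀ x, (cx X).eval x = x := by
    intro x
    unfold cx
    rw [Polynomial.map_X, eval_X]
  obtain ⟨nX, eX⟩ := hpol X (fun x h => by rw [hcX]; exact hx0 x h)
  simp only [hcX, natDegree_X, Nat.cast_one, mul_one] at nX eX
  obtain ⟨nD, eD⟩ := hpol D (fun x h => (hx x h).2.2.1)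
  obtain ⟨nM, eM⟩ := hpol M (fun x h => (hx x h).2.2.2.2.1)
  have hRk := fun (k : Fin r) (hk : k ≠ i) => hpol (R k) (fun x h => (hx x h).2.2.2.1 k hk)
  have nR : NZ fun s => (cx (R i)).eval (Y s) := by
    refine ⟨?_, fun s h => ?_⟩
    · have e : (fun s => (cx (R i)).eval (Y s)) = fun s =>
          ∑ l ∈ Finset.range ((cx (R i)).natDegree + 1), (cx (R i)).coeff l * (Y s) ^ l := by
        funext s
        rw [Polynomial.eval_eq_sum_range]
      rw [e]
      exact ContDiff.sum fun l _ => contDiff_const.mul (hYcd.pow l)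
    · have h1 := hYm s
      rw [h, mul_zero, zero_mul] at h1
      exact mul_ne_zero ((hY.nr α).ne_zero s) (nD.ne_zero s) h1.symm
  have nRk : ∀ k, NZ fun s => (cx (R k)).eval (Y s) := by
    intro k
    by_cases hk : k = i
    · rw [hk]
      exact nR
    · exact (hRk k hk).1
  have hprod : ∀ s, (cx ((∏ k ∈ Finset.univ.erase i, R k) * M)).eval (Y s) =
      (∏ k ∈ Finset.univ.erase i, (cx (R k)).eval (Y s)) * (cx M).eval (Y s) := by
    intro s
    rw [cx_mul, cx_prod, eval_mul, eval_prod]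
  have hsum : (∑ k ∈ Finset.univ.erase i, ((R k).natDegree : ℝ)) ≤ ∑ k, ((R k).natDegree : ℝ) :=
    Finset.sum_le_sum_of_subset_of_nonneg (Finset.erase_subset _ _)
      (fun k _ _ => Nat.cast_nonneg _)
  have hs0 : (0 : ℝ) ≤ ∑ k ∈ Finset.univ.erase i, ((R k).natDegree : ℝ) :=
    Finset.sum_nonneg fun k _ => Nat.cast_nonneg _
  have hD0 : (0 : ℝ) ≤ D.natDegree := Nat.cast_nonneg _
  have hM0 : (0 : ℝ) ≤ M.natDegree := Nat.cast_nonneg _
  have hE0 := hY.hE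
  have hK1 : ∀ t : ℝ, t ≤ 1 + D.natDegree + (∑ k, ((R k).natDegree : ℝ)) + M.natDegree →
      E + E * W * t ≤ K := by
    intro t ht
    refine le_trans ?_ hK
    have h1 : E * W * t ≤ E * W * (1 + D.natDegree + (∑ k, ((R k).natDegree : ℝ)) +
        M.natDegree) := mul_le_mul_of_nonneg_left ht hEW
    linarith
  refine ⟨Y, Real.log ‖Y 0‖, Real.log ‖(cx D).eval (Y 0)‖ - Real.log ‖Y 0‖ -
    Real.log ‖(cx M).eval (Y 0)‖, fun k => Real.log ‖(cx (R k)).eval (Y 0)‖, hYcd, hYper,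
    nD.ne_zero, fun s => ?_, nX, nRk, (hx _ (hYb 0)).2.1,
    fun k hk => (hx _ (hYb 0)).2.2.2.2.2.2.2.1 k hk, ?_, fun β => ?_, fun β k hk => ?_,
    fun β => ?_⟩
  · have h1 := hYm s
    rw [hprod] at h1
    rw [cx_mul, cx_mul, ← Finset.mul_prod_erase _ _ (Finset.mem_univ i), cx_mul, cx_prod,
      eval_mul, eval_mul, eval_mul, eval_prod, hcX]
    linear_combination h1
  · have := (hx _ (hYb 0)).2.2.2.2.2.2.2.2
    linarith
  · refine (eX β).trans ?_
    have := hK1 1 (by linarith)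
    linarith
  · refine ((hRk k hk).2 β).trans ?_
    have h1 : ((R k).natDegree : ℝ) ≤ ∑ k, ((R k).natDegree : ℝ) :=
      Finset.single_le_sum (f := fun k => ((R k).natDegree : ℝ)) (fun k _ => Nat.cast_nonneg _)
        (Finset.mem_univ k)
    have := hK1 (R k).natDegree (by linarith)
    linarith
  · -- the class of `R_i`
    have hz := hY.nz β α
    have e1 : (fun s => Y s * (cx (R i)).eval (Y s) * ((∏ k ∈ Finset.univ.erase i,
        (cx (R k)).eval (Y s)) * (cx M).eval (Y s))) =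
        fun s => ry c (y α s) * (cx D).eval (Y s) := by
      funext s
      rw [← hprod]
      exact hYm s
    have e2 := congrArg (pr (fun s => zy (ζ β) (y α s))) e1
    rw [pr_mul hz (nX.mul nR) ((NZ.prod _ nRk).mul nM), pr_mul hz nX nR,
      pr_mul hz (NZ.prod _ nRk) nM, pr_prod _ hz nRk, pr_mul hz (hY.nr α) nD] at e2
    have e3 : pr (fun s => zy (ζ β) (y α s)) (fun s => (cx (R i)).eval (Y s)) +
        2 * π * mw β α * (Real.log ‖(cx D).eval (Y 0)‖ - Real.log ‖Y 0‖ -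
          Real.log ‖(cx M).eval (Y 0)‖ - ∑ k ∈ Finset.univ.erase i,
            Real.log ‖(cx (R k)).eval (Y 0)‖) =
        pr (fun s => zy (ζ β) (y α s)) (fun s => ry c (y α s)) +
        (pr (fun s => zy (ζ β) (y α s)) (fun s => (cx D).eval (Y s)) +
          2 * π * mw β α * Real.log ‖(cx D).eval (Y 0)‖) -
        (pr (fun s => zy (ζ β) (y α s)) Y + 2 * π * mw β α * Real.log ‖Y 0‖) -
        (pr (fun s => zy (ζ β) (y α s)) (fun s => (cx M).eval (Y s)) +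
          2 * π * mw β α * Real.log ‖(cx M).eval (Y 0)‖) -
        ∑ k ∈ Finset.univ.erase i, (pr (fun s => zy (ζ β) (y α s))
          (fun s => (cx (R k)).eval (Y s)) +
            2 * π * mw β α * Real.log ‖(cx (R k)).eval (Y 0)‖) := by
      rw [Finset.sum_add_distrib, ← Finset.mul_sum]
      linear_combination e2
    rw [e3]
    have h1 : |∑ k ∈ Finset.univ.erase i, (pr (fun s => zy (ζ β) (y α s))
          (fun s => (cx (R k)).eval (Y s)) +
            2 * π * mw β α * Real.log ‖(cx (R k)).eval (Y 0)‖)| ≤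
        E * W * ∑ k ∈ Finset.univ.erase i, ((R k).natDegree : ℝ) := by
      refine (Finset.abs_sum_le_sum_abs _ _).trans ?_
      rw [Finset.mul_sum]
      exact Finset.sum_le_sum fun k hk => (hRk k (Finset.ne_of_mem_erase hk)).2 β
    have h2 := eX β
    have h3 := eD β
    have h4 := eM β
    have h5 := hY.pb β α
    have h6 := hK1 (1 + D.natDegree + (∑ k ∈ Finset.univ.erase i, ((R k).natDegree : ℝ)) +
      M.natDegree) (by linarith)
    rw [abs_le] at h1 h2 h3 h4 h5 ⊢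
    constructor <;> linarith [h1.1, h1.2, h2.1, h2.2, h3.1, h3.2, h4.1, h4.2, h5.1, h5.2]

/-- Injectivity of the regulators. -/
theorem mat6 {c : ℂ} {ζ : Fin 2 → ℂ} {y : Fin 2 → ℝ → ℂ} {B W E : ℝ} (hY : YL c ζ y B W E)
    {r : ℕ} (hr : 0 < r) {p T₀ K : ℝ} (hp : 1 ≤ p) {D : ℤ[X]} {R : Fin r → ℤ[X]} {M : ℤ[X]}
    (hT₀ : 0 < T₀) (hT : (r + 1) * K * (8 * (1 + 2 * p)) ≤ π * T₀)
    (hK : E * (1 + W * (1 + D.natDegree + (∑ k, ((R k).natDegree : ℝ)) + M.natDegree)) ≤ K)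
    (H : ∀ i, DiscData6 T₀ B p D R M i) {j : Fin r → ℕ} (hj : ∀ k, p ≤ j k) :
    ∃ Xs : Fin 2 → Fin r → ℝ → ℂ, (∀ α i, ContDiff ℝ 2 (Xs α i)) ∧
      (∀ α i s, Xs α i (s + 1) = Xs α i s) ∧ (∀ α i s, (cx D).eval (Xs α i s) ≠ 0) ∧
      (∀ α i s, (cx (X * (∏ k, R k) * M)).eval (Xs α i s) =
        ry c (y α s) * (cx D).eval (Xs α i s)) ∧
      (∀ α i, NZ (Xs α i)) ∧ (∀ α i k, NZ fun s => (cx (R k)).eval (Xs α i s)) ∧
      ∀ C : Fin 2 → Fin r → ℝ, (∀ α i, ∑ β, ∑ k, C β k * (pr (fun s => zy (ζ β) (y α s))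
        (fun s => (cx (R k)).eval (Xs α i s)) - j k * pr (fun s => zy (ζ β) (y α s)) (Xs α i)) =
          0) → ∀ β k, C β k = 0 := by
  classical
  choose Xs x a b h1 h2 h3 h4 h5 h6 h7 h8 h9 h10 h11 h12 using
    fun (α : Fin 2) (i : Fin r) => xloop6 hY hT₀ hK (H i) α
  refine ⟨Xs, h1, h2, h3, h4, h5, h6, fun C hC => ?_⟩
  have hK0 : 0 ≤ K := by
    refine le_trans ?_ hK
    have h13 : (0 : ℝ) ≤ ∑ k, ((R k).natDegree : ℝ) := Finset.sum_nonneg fun k _ =>
      Nat.cast_nonneg _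
    have := hY.hE
    have := hY.hW
    positivity
  exact lin6_full (J' := fun k => (j k : ℝ)) hp hr hK0 hT₀ hT h7 h8 h9 hj
    (PX := fun β α i => pr (fun s => zy (ζ β) (y α s)) (Xs α i))
    (P := fun β α i k => pr (fun s => zy (ζ β) (y α s)) (fun s => (cx (R k)).eval (Xs α i s)))
    (fun β α i => h10 α i β) (fun β α i k hk => h11 α i β k hk) (fun β α i => h12 α i β)
    hC

end Pool.Agent.H442
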